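import Mathlib
import Pool.Agent.Work.MP_122e00_nt.Key1
import Pool.Agent.Work.MP_122e00_nt.Bd.B37

/-! Bundle of small proof modules (one section per former module). -/

section

/-! Bundle of small proof modules (one section per former module). -/

section

/-!
Lower bound for the number of `(n, a, b)` with `∏ a ∣ n` and `∏ b ∣ n - z`, main term and error.
-/

namespace Pool.Agent.Work.MP_122e00_nt

open Finset

variable {s : ℕ}

/-- weighted sum over pairs of tuples -/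
noncomputable def WsumC (h : ℕ) (C C' : Finset (Fin s → ℕ)) : ℝ :=
  ∑ a ∈ C, ∑ b ∈ C',
    Fh h (Nat.gcd (∏ i, a i) (∏ i, b i)) * ((∏ i, (1 / (a i : ℝ))) * (∏ i, (1 / (b i : ℝ))))

theorem Fh_le (h g : ℕ) (hh : h ≠ 0) : Fh h g ≤ h := by
  rw [Fh_apply]
  split_ifs with hd
  · exact_mod_cast Nat.le_of_dvd (Nat.pos_of_ne_zero hh) hd
  · positivity

theorem Fh_nonneg (h g : ℕ) : 0 ≤ Fh h g := by
  rw [Fh_apply]
  split_ifs <;> positivity

theorem nu_mono {C₁ C₂ : Finset (Fin s → ℕ)} (h : C₁ ⊆ C₂) (e : ℕ) : nu C₁ e ≤ nu C₂ e := by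
  unfold nu
  exact Finset.card_le_card (Finset.filter_subset_filter _ h)

theorem Scount_lower (C C' : Finset (Fin s → ℕ)) {δ X lam : ℝ} (hδ : 0 < δ) (hX : 0 < X)
    (hl : 1 < lam) (hδl : δ * lam ≤ 1) (h : ℕ) (hh : h ≠ 0) (z : ℤ) (hz : z.natAbs = h)
    (Q : ℕ) (hC' : ∀ b ∈ C', ∏ i, b i ∈ Finset.Icc 1 Q) (J : Finset ℕ)
    (hJ : ∀ a ∈ C, ∃ j ∈ J, a ∈ cls C lam j) (hC : ∀ a ∈ C, 0 < ∏ i, a i)
    (K W D : ℝ) (hK : ∀ n, (nu C n : ℝ) ≤ K) (hW : ∀ e, (nu C' e : ℝ) ≤ W)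
    (hD : ∀ k ∈ Finset.Icc 1 Q, (k.divisors.card : ℝ) ≤ D) (hD0 : 0 ≤ D) (L : ℕ) (hL : 1 ≤ L)
    (E1 N1 : ℝ) (hE1 : ∀ j ∈ J, Err0 W D K (⌊X / lam ^ (j + 1)⌋₊ + 1)
      (⌊lam ^ (j + 1)⌋₊ + 1) Q L ≤ E1)
    (hN1 : ∀ j ∈ J, ((⌊lam ^ (j + 1)⌋₊ + 1 : ℕ) : ℝ) ≤ N1) :
    (1 / lam - δ) * X * WsumC h C C' - (h * C.card * (W * (harmonic Q : ℝ)) +
      J.card * ((h.divisors.card : ℝ) ^ 2 * E1 + h * W * (K * N1) * (harmonic Q : ℝ))) ≤
      (Scount C C' ⌊δ * X⌋₊ ⌊X⌋₊ z : ℝ) := by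
  classical
  have hl0 : 0 < lam := by linarith
  have hK0 : 0 ≤ K := (Nat.cast_nonneg _).trans (hK 0)
  have hW0 : 0 ≤ W := (Nat.cast_nonneg _).trans (hW 0)
  have hharm := harmonic_nonneg Q
  have hlδ : 0 ≤ 1 / lam - δ := by
    rw [sub_nonneg, le_div_iff₀ hl0]
    exact hδl
  refine le_trans ?_ (Scount_ge C C' hδ hX hl z Q hC' J)
  -- the lower bound for each `j`
  have hstep : ∀ j ∈ J, (∑ b ∈ C', ∑ a ∈ C, if a ∈ cls C lam j then
      ((1 / lam - δ) * X * (Fh h (Nat.gcd (∏ i, a i) (∏ i, b i)) *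
        ((∏ i, (1 / (a i : ℝ))) * (∏ i, (1 / (b i : ℝ))))) -
        h * (1 / ((∏ i, b i : ℕ) : ℝ))) else 0) -
      ((h.divisors.card : ℝ) ^ 2 * E1 + h * W * (K * N1) * (harmonic Q : ℝ)) ≤
      ∑ e ∈ Finset.Icc 1 Q, (nu C' e : ℝ) *
      ∑ n ∈ Finset.range (⌊lam ^ (j + 1)⌋₊ + 1), (nu (cls C lam j) n : ℝ) *
        (sol ⌊δ * X / lam ^ j⌋₊ ⌊X / lam ^ (j + 1)⌋₊ n e z : ℝ) := by
    intro j hj
    set A := ⌊δ * X / lam ^ j⌋₊ with hA
    set B := ⌊X / lam ^ (j + 1)⌋₊ with hB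
    set N := ⌊lam ^ (j + 1)⌋₊ + 1 with hN
    have hlj : 0 < lam ^ j := by positivity
    have hAB : A ≤ B := by
      apply Nat.floor_mono
      rw [div_le_div_iff₀ hlj (by positivity)]
      calc δ * X * lam ^ (j + 1) = (δ * lam) * (X * lam ^ j) := by ring
        _ ≤ 1 * (X * lam ^ j) := by gcongr
        _ = X * lam ^ j := by ring
    have hcl := count_lower (fun n => (nu (cls C lam j) n : ℝ)) (K := K)
      (fun n => Nat.cast_nonneg _)
      (fun n => le_trans (by exact_mod_cast nu_mono (Finset.filter_subset _ _) n) (hK n))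
      A B N Q L hAB hL (fun e => (nu C' e : ℝ)) W D (fun e => Nat.cast_nonneg _) hW hD hD0 h hh z hz
    refine le_trans ?_ hcl
    have hmain : ∑ e ∈ Finset.Icc 1 Q, ∑ n ∈ Finset.range N, (nu C' e : ℝ) *
        (nu (cls C lam j) n : ℝ) * (Fh h (Nat.gcd n e) / e) =
        ∑ b ∈ C', ∑ a ∈ C, if a ∈ cls C lam j then
          (Fh h (Nat.gcd (∏ i, a i) (∏ i, b i)) / ((∏ i, b i : ℕ) : ℝ)) else 0 := by
      have e1 : ∀ e ∈ Finset.Icc 1 Q, ∑ n ∈ Finset.range N, (nu C' e : ℝ) *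
          (nu (cls C lam j) n : ℝ) * (Fh h (Nat.gcd n e) / e) =
          (nu C' e : ℝ) * ∑ n ∈ Finset.range N, (nu (cls C lam j) n : ℝ) *
            (Fh h (Nat.gcd n e) / e) := by
        intro e _
        rw [Finset.mul_sum]
        apply Finset.sum_congr rfl
        intro n _
        ring
      rw [Finset.sum_congr rfl e1, sum_nu C' (Finset.Icc 1 Q) hC' (fun e =>
        ∑ n ∈ Finset.range N, (nu (cls C lam j) n : ℝ) * (Fh h (Nat.gcd n e) / e))]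
      apply Finset.sum_congr rfl
      intro b _
      rw [sum_nu (cls C lam j) (Finset.range N) _ (fun n =>
        Fh h (Nat.gcd n (∏ i, b i)) / ((∏ i, b i : ℕ) : ℝ))]
      · rw [← Finset.sum_filter]
        apply Finset.sum_congr _ (fun _ _ => rfl)
        ext a
        rw [Finset.mem_filter]
        constructor
        · intro ha
          exact ⟨(Finset.mem_filter.mp ha).1, ha⟩
        · intro ha
          exact ha.2
      · intro a ha
        have := (Finset.mem_filter.mp ha).2.2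
        rw [hN, Finset.mem_range, Nat.lt_succ_iff]
        exact Nat.le_floor this.le
    rw [hmain]
    have hBA : (1 / lam - δ) * X / lam ^ j - 1 ≤ (B : ℝ) - A := by
      have h1 : (A : ℝ) ≤ δ * X / lam ^ j := Nat.floor_le (by positivity)
      have h2 : X / lam ^ (j + 1) - 1 < B := Nat.sub_one_lt_floor _
      have h3 : (1 / lam - δ) * X / lam ^ j = X / lam ^ (j + 1) - δ * X / lam ^ j := by
        rw [pow_succ]
        field_simp
      rw [h3]
      linarith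
    have hBA0 : 0 ≤ (B : ℝ) - A := by
      have : (A : ℝ) ≤ B := by exact_mod_cast hAB
      linarith
    have hterm : ∑ b ∈ C', ∑ a ∈ C, (if a ∈ cls C lam j then
      ((1 / lam - δ) * X * (Fh h (Nat.gcd (∏ i, a i) (∏ i, b i)) *
        ((∏ i, (1 / (a i : ℝ))) * (∏ i, (1 / (b i : ℝ))))) -
        h * (1 / ((∏ i, b i : ℕ) : ℝ))) else 0) ≤
        ((B : ℝ) - A) * ∑ b ∈ C', ∑ a ∈ C, if a ∈ cls C lam j then
          (Fh h (Nat.gcd (∏ i, a i) (∏ i, b i)) / ((∏ i, b i : ℕ) : ℝ)) else 0 := by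
      rw [Finset.mul_sum]
      apply Finset.sum_le_sum
      intro b hb
      rw [Finset.mul_sum]
      apply Finset.sum_le_sum
      intro a ha
      split_ifs with hcls
      · have ha1 := (Finset.mem_filter.mp hcls).2.1
        have hap : (0:ℝ) < ((∏ i, a i : ℕ) : ℝ) := by exact_mod_cast hC a ha
        have hbp : (0:ℝ) < ((∏ i, b i : ℕ) : ℝ) := by
          exact_mod_cast (Finset.mem_Icc.mp (hC' b hb)).1
        have e1 : (∏ i, (1 / (a i : ℝ))) = 1 / ((∏ i, a i : ℕ) : ℝ) := by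
          rw [Finset.prod_div_distrib, Finset.prod_const_one, Nat.cast_prod]
        have e2 : (∏ i, (1 / (b i : ℝ))) = 1 / ((∏ i, b i : ℕ) : ℝ) := by
          rw [Finset.prod_div_distrib, Finset.prod_const_one, Nat.cast_prod]
        rw [e1, e2]
        set P : ℝ := ((∏ i, a i : ℕ) : ℝ) with hP
        set R : ℝ := ((∏ i, b i : ℕ) : ℝ) with hR
        set F : ℝ := Fh h (Nat.gcd (∏ i, a i) (∏ i, b i)) with hF
        have hF0 : 0 ≤ F := Fh_nonneg _ _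
        have hFh : F ≤ h := Fh_le _ _ hh
        have e3 : (1 / lam - δ) * X / P - 1 ≤ (B : ℝ) - A := by
          refine le_trans ?_ hBA
          gcongr
        calc (1 / lam - δ) * X * (F * (1 / P * (1 / R))) - h * (1 / R)
            ≤ (1 / lam - δ) * X * (F * (1 / P * (1 / R))) - F * (1 / R) := by
              gcongr
          _ = ((1 / lam - δ) * X / P - 1) * (F / R) := by
              field_simp
          _ ≤ ((B : ℝ) - A) * (F / R) := by gcongr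
      · rw [mul_zero]
    have hE := hE1 j hj
    have hN' := hN1 j hj
    have hd0 : (0:ℝ) ≤ (h.divisors.card : ℝ) ^ 2 := by positivity
    have h5 : (h.divisors.card : ℝ) ^ 2 * Err0 W D K (B + 1) N Q L ≤
        (h.divisors.card : ℝ) ^ 2 * E1 := by gcongr
    have h6 : h * W * (K * (N : ℝ)) * (harmonic Q : ℝ) ≤ h * W * (K * N1) * (harmonic Q : ℝ) := by
      gcongr
    linarith
  have hsum := Finset.sum_le_sum hstep
  refine le_trans ?_ hsum
  rw [Finset.sum_sub_distrib, Finset.sum_const, nsmul_eq_mul]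
  -- collect
  have hcollect : ∑ j ∈ J, ∑ b ∈ C', ∑ a ∈ C, (if a ∈ cls C lam j then
      ((1 / lam - δ) * X * (Fh h (Nat.gcd (∏ i, a i) (∏ i, b i)) *
        ((∏ i, (1 / (a i : ℝ))) * (∏ i, (1 / (b i : ℝ))))) -
        h * (1 / ((∏ i, b i : ℕ) : ℝ))) else 0) =
      ∑ b ∈ C', ∑ a ∈ C, ((1 / lam - δ) * X * (Fh h (Nat.gcd (∏ i, a i) (∏ i, b i)) *
        ((∏ i, (1 / (a i : ℝ))) * (∏ i, (1 / (b i : ℝ))))) -
        h * (1 / ((∏ i, b i : ℕ) : ℝ))) := by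
    rw [Finset.sum_comm]
    apply Finset.sum_congr rfl
    intro b _
    rw [Finset.sum_comm]
    apply Finset.sum_congr rfl
    intro a ha
    obtain ⟨j, hj, haj⟩ := hJ a ha
    rw [Finset.sum_eq_single j]
    · rw [if_pos haj]
    · intro j' _ hne
      rw [if_neg]
      intro ha'
      exact hne (cls_unique hl ha' haj)
    · intro hnot
      exact absurd hj hnot
  rw [hcollect]
  have hsplit : ∑ b ∈ C', ∑ a ∈ C, ((1 / lam - δ) * X *
        (Fh h (Nat.gcd (∏ i, a i) (∏ i, b i)) *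
        ((∏ i, (1 / (a i : ℝ))) * (∏ i, (1 / (b i : ℝ))))) -
        h * (1 / ((∏ i, b i : ℕ) : ℝ))) =
      (1 / lam - δ) * X * WsumC h C C' -
        h * C.card * (∑ b ∈ C', (1 / ((∏ i, b i : ℕ) : ℝ))) := by
    simp_rw [Finset.sum_sub_distrib]
    congr 1
    · unfold WsumC
      rw [Finset.sum_comm, Finset.mul_sum]
      apply Finset.sum_congr rfl
      intro a _
      rw [Finset.mul_sum]
    · rw [Finset.mul_sum]
      apply Finset.sum_congr rfl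
      intro b _
      rw [Finset.sum_const, nsmul_eq_mul]
      ring
  rw [hsplit]
  have hb : ∑ b ∈ C', (1 / ((∏ i, b i : ℕ) : ℝ)) ≤ W * (harmonic Q : ℝ) := by
    rw [← sum_nu C' (Finset.Icc 1 Q) hC' (fun e => 1 / (e : ℝ)), harmonic_eq_sum_Icc]
    push_cast
    rw [Finset.mul_sum]
    apply Finset.sum_le_sum
    intro e _
    rw [one_div]
    have := hW e
    gcongr
  have h7 : h * C.card * (∑ b ∈ C', (1 / ((∏ i, b i : ℕ) : ℝ))) ≤
      h * C.card * (W * (harmonic Q : ℝ)) := by gcongr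
  linarith

end Pool.Agent.Work.MP_122e00_nt

end

section

/-!
Power-saving bounds for the error terms.
-/

namespace Pool.Agent.Work.MP_122e00_nt

open Finset Filter Topology

variable {s : ℕ}

/-- divisor bound -/
theorem divisor_bound (s : ℕ) {κ : ℝ} (hκ : 0 < κ) :
    ∀ᶠ X : ℝ in atTop, ∀ n : ℕ, n ≠ 0 → (n : ℝ) ≤ X →
      ((n.divisors.card : ℝ)) ^ s ≤ X ^ κ := by
  obtain ⟨J, hJ⟩ := exists_nat_gt (2 / κ)
  have hJ0 : 0 < J := by
    have : (0:ℝ) < J := lt_trans (by positivity) hJ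
    exact_mod_cast this
  have hJκ : 1 < κ * J := by
    have h1 : 2 < κ * J := by
      rw [div_lt_iff₀ hκ] at hJ
      linarith
    linarith
  obtain ⟨C, hC1, hC⟩ := card_divisors_pow_le (s * J)
  have h1 : ∀ᶠ X : ℝ in atTop, (C : ℝ) ≤ X ^ (κ * J - 1) :=
    (tendsto_rpow_atTop (by linarith : 0 < κ * J - 1)).eventually_ge_atTop _
  filter_upwards [h1, eventually_ge_atTop 1] with X hX1 hX n hn hnX
  have hX0 : 0 < X := by linarith
  have h2 := hC n hn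
  have h3 : (((n.divisors.card : ℝ)) ^ s) ^ J ≤ (X ^ κ) ^ J := by
    calc (((n.divisors.card : ℝ)) ^ s) ^ J = ((n.divisors.card : ℝ)) ^ (s * J) := by
          rw [pow_mul]
      _ ≤ (C : ℝ) * n := by exact_mod_cast h2
      _ ≤ X ^ (κ * J - 1) * X := by gcongr
      _ = X ^ (κ * J) := by
          rw [← Real.rpow_add_one hX0.ne']
          congr 1
          ring
      _ = (X ^ κ) ^ J := by
          rw [Real.rpow_mul hX0.le, Real.rpow_natCast]
  exact le_of_pow_le_pow_left₀ hJ0.ne' (by positivity) h3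

theorem Xi_bound {K r y : ℝ} {M N Q L : ℕ} (hr : 0 ≤ r) (hy : 1 ≤ y) (hK0 : 0 ≤ K) (hK : K ≤ y)
    (h1 : √(M : ℝ) * √(N : ℝ) ≤ 3 * r) (h2 : √(M : ℝ) ≤ 2 * r / y ^ 20)
    (h3 : √(N : ℝ) ≤ 2 * r / y ^ 20) (hQ : (Q : ℝ) ≤ r / y ^ 40)
    (hH : (harmonic ((2 * Q) ^ 2) : ℝ) ≤ y) (hL : y ^ 10 ≤ (L : ℝ)) :
    Xi K M N Q L ≤ 54 * r ^ 2 / y ^ 9 := by
  have hy0 : 0 < y := by linarith
  have hH0 := harmonic_nonneg ((2 * Q) ^ 2)
  unfold Xi
  have hLpos : 0 < (L : ℝ) := lt_of_lt_of_le (by positivity) hL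
  calc 2 * K * √(M : ℝ) * √(N : ℝ) * (√(M : ℝ) * √(N : ℝ) / L +
      (harmonic ((2 * Q) ^ 2) : ℝ) * (√(M : ℝ) + √(N : ℝ)) +
        2 * Q * (harmonic ((2 * Q) ^ 2) : ℝ))
      = 2 * K * (√(M : ℝ) * √(N : ℝ)) * (√(M : ℝ) * √(N : ℝ) / L +
      (harmonic ((2 * Q) ^ 2) : ℝ) * (√(M : ℝ) + √(N : ℝ)) +
        2 * Q * (harmonic ((2 * Q) ^ 2) : ℝ)) := by ring
    _ ≤ 2 * y * (3 * r) * (3 * r / y ^ 10 + y * (2 * r / y ^ 20 + 2 * r / y ^ 20) +
        2 * (r / y ^ 40) * y) := by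
        gcongr
    _ = 6 * r ^ 2 * (3 / y ^ 9 + 4 / y ^ 18 + 2 / y ^ 38) := by
        field_simp
        ring
    _ ≤ 6 * r ^ 2 * (3 / y ^ 9 + 4 / y ^ 9 + 2 / y ^ 9) := by
        have e1 : y ^ 9 ≤ y ^ 18 := pow_le_pow_right₀ hy (by norm_num)
        have e2 : y ^ 9 ≤ y ^ 38 := pow_le_pow_right₀ hy (by norm_num)
        gcongr
    _ = 54 * r ^ 2 / y ^ 9 := by ring

theorem Err0_bound {W D K r y : ℝ} {M N Q L : ℕ} (hr : 0 ≤ r) (hy : 1 ≤ y)
    (hK0 : 0 ≤ K) (hK : K ≤ y) (hW0 : 0 ≤ W) (hW : W ≤ y) (hD0 : 0 ≤ D) (hD : D ≤ y)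
    (h1 : √(M : ℝ) * √(N : ℝ) ≤ 3 * r) (h2 : √(M : ℝ) ≤ 2 * r / y ^ 20)
    (h3 : √(N : ℝ) ≤ 2 * r / y ^ 20) (hN : (N : ℝ) ≤ 3 * r ^ 2 / y ^ 40)
    (hQ : (Q : ℝ) ≤ r / y ^ 40)
    (hH : (harmonic ((2 * Q) ^ 2) : ℝ) ≤ y) (hH2 : (harmonic Q : ℝ) ≤ y)
    (hlog : ((Nat.log 2 Q + 1 : ℕ) : ℝ) ≤ y) (hL : y ^ 10 ≤ (L : ℝ)) (hL2 : (L : ℝ) ≤ 2 * y ^ 10) :
    Err0 W D K M N Q L ≤ 69 * r ^ 2 / y ^ 5 := by
  have hy0 : 0 < y := by linarith
  have hX := Xi_bound hr hy hK0 hK h1 h2 h3 hQ hH hL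
  have hXn := Xi_nonneg hK0 M N Q L
  have hH20 := harmonic_nonneg Q
  unfold Err0
  calc (W * D) * (harmonic Q : ℝ) * (D * (K * N) + (L ^ 2 * (D * (K * N)) +
        (Nat.log 2 Q + 1 : ℕ) * Xi K M N Q L))
      ≤ (y * y) * y * (y * (y * (3 * r ^ 2 / y ^ 40)) + ((2 * y ^ 10) ^ 2 *
        (y * (y * (3 * r ^ 2 / y ^ 40))) + y * (54 * r ^ 2 / y ^ 9))) := by
        gcongr
    _ = r ^ 2 * (3 / y ^ 35 + 12 / y ^ 15 + 54 / y ^ 5) := by
        field_simp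
        ring
    _ ≤ r ^ 2 * (3 / y ^ 5 + 12 / y ^ 5 + 54 / y ^ 5) := by
        have e1 : y ^ 5 ≤ y ^ 35 := pow_le_pow_right₀ hy (by norm_num)
        have e2 : y ^ 5 ≤ y ^ 15 := pow_le_pow_right₀ hy (by norm_num)
        gcongr
    _ = 69 * r ^ 2 / y ^ 5 := by ring

theorem rpow_le_prod_of_mem_box {α β : Fin s → ℝ} {X : ℝ} (hX : 0 < X) {a : Fin s → ℕ}
    (ha : a ∈ box α β X) : X ^ (∑ i, α i) ≤ ((∏ i, a i : ℕ) : ℝ) := by
  rw [Real.rpow_sum_of_pos hX]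
  push_cast
  apply Finset.prod_le_prod (fun i _ => by positivity)
  intro i _
  exact (Nat.lt_of_floor_lt ((mem_box.mp ha) i).1).le

theorem nu_le {C : Finset (Fin s → ℕ)} (hC : ∀ a ∈ C, 0 < ∏ i, a i) (n : ℕ) (hn : n ≠ 0) :
    nu C n ≤ (n.divisors.card) ^ s := by
  refine le_trans ?_ (card_finMulAntidiag_le s n hn)
  unfold nu
  apply Finset.card_le_card
  intro a ha
  rw [Finset.mem_filter] at ha
  rw [Nat.mem_finMulAntidiag]
  exact ⟨ha.2, hn⟩

theorem eventually_log_le (a b : ℝ) {κ : ℝ} (hκ : 0 < κ) :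
    ∀ᶠ X : ℝ in atTop, a * Real.log X + b ≤ X ^ κ := by
  have h1 : Tendsto (fun X : ℝ => (a * Real.log X + b) / X ^ κ) atTop (𝓝 0) := by
    have h2 : Tendsto (fun X : ℝ => Real.log X / X ^ κ) atTop (𝓝 0) :=
      (isLittleO_log_rpow_atTop hκ).tendsto_div_nhds_zero
    have h3 : Tendsto (fun X : ℝ => X ^ (-κ)) atTop (𝓝 0) := tendsto_rpow_neg_atTop hκ
    have h4 := (h2.const_mul a).add (h3.const_mul b)
    rw [mul_zero, mul_zero, add_zero] at h4
    refine h4.congr' ?_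
    filter_upwards [eventually_gt_atTop 0] with X hX
    rw [Real.rpow_neg hX.le]
    field_simp
  filter_upwards [h1.eventually (gt_mem_nhds (zero_lt_one)), eventually_gt_atTop 0] with X hX hX0
  rw [div_lt_one (by positivity)] at hX
  exact hX.le

end Pool.Agent.Work.MP_122e00_nt

end

end

section

/-!
The lower bound for the number of `(n, a, b)` with `a`, `b` in boxes, with a power saving.
-/

namespace Pool.Agent.Work.MP_122e00_nt

open Finset Filter Topology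

variable {s : ℕ}

theorem nu_box_le {α β : Fin s → ℝ} (hβ : ∑ i, β i ≤ 1) {X κ : ℝ} (hX : 1 ≤ X)
    (hdiv : ∀ n : ℕ, n ≠ 0 → (n : ℝ) ≤ X → ((n.divisors.card : ℝ)) ^ s ≤ X ^ κ) (n : ℕ) :
    (nu (box α β X) n : ℝ) ≤ X ^ κ := by
  have hX0 : 0 < X := by linarith
  have hpos : ∀ a ∈ box α β X, 0 < ∏ i, a i :=
    fun a ha => Finset.prod_pos (fun i _ => pos_of_mem_box ha i)
  by_cases h0 : nu (box α β X) n = 0
  · rw [h0, Nat.cast_zero]
    positivity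
  · have h1 : 0 < nu (box α β X) n := Nat.pos_of_ne_zero h0
    unfold nu at h1
    rw [Finset.card_pos] at h1
    obtain ⟨a, ha⟩ := h1
    rw [Finset.mem_filter] at ha
    have hn0 : n ≠ 0 := by
      rw [← ha.2]
      exact (hpos a ha.1).ne'
    have hnX : (n : ℝ) ≤ X := by
      rw [← ha.2]
      calc ((∏ i, a i : ℕ) : ℝ) ≤ X ^ (∑ i, β i) := prod_le_rpow_of_mem_box hX0 ha.1
        _ ≤ X ^ (1:ℝ) := Real.rpow_le_rpow_of_exponent_le hX hβ
        _ = X := Real.rpow_one X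
    calc (nu (box α β X) n : ℝ) ≤ ((n.divisors.card : ℝ)) ^ s := by
          exact_mod_cast nu_le hpos n hn0
      _ ≤ X ^ κ := hdiv n hn0 hnX

theorem box_lower (α β α' β' : Fin s → ℝ) {θ : ℝ} (hθ : 0 < θ) (hθ2 : θ ≤ 1 / 2)
    (h1 : θ ≤ ∑ i, α i) (h2 : ∑ i, β i ≤ 1 - θ) (h3 : ∑ i, β' i ≤ 1 / 2 - θ)
    {δ lam : ℝ} (hδ : 0 < δ) (hl : 1 < lam) (hl2 : lam ≤ 2) (hδl : δ * lam ≤ 1)
    (h : ℕ) (hh : h ≠ 0) (z : ℤ) (hz : z.natAbs = h) :
    ∀ᶠ X : ℝ in atTop, (1 / lam - δ) * X * Wsum h α β α' β' X -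
      (69 * (h.divisors.card : ℝ) ^ 2 + 4 * h) * (X / X ^ (θ / 40)) ≤
      (Scount (box α β X) (box α' β' X) ⌊δ * X⌋₊ ⌊X⌋₊ z : ℝ) := by
  classical
  have hκ : 0 < θ / 40 := by positivity
  have hloglam : 0 < Real.log lam := Real.log_pos hl
  have hl0 : 0 < lam := by linarith
  filter_upwards [eventually_ge_atTop 1, divisor_bound s hκ, divisor_bound 1 hκ,
    eventually_log_le 1 1 hκ, eventually_log_le 1 (1 + Real.log 4) hκ,
    eventually_log_le (1 / Real.log 2) 1 hκ, eventually_log_le (1 / Real.log lam) 1 hκ]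
    with X hX hdiv hdiv1 hlog1 hlog2 hlog3 hlog4
  have hX0 : 0 < X := by linarith
  set y := X ^ (θ / 40) with hy
  have hy1 : 1 ≤ y := Real.one_le_rpow hX hκ.le
  have hy0 : 0 < y := by linarith
  have hy40 : y ^ 40 = X ^ θ := by
    rw [hy, ← Real.rpow_natCast, ← Real.rpow_mul hX0.le]
    congr 1
    push_cast
    ring
  set r := √X with hr
  have hr0 : 0 ≤ r := Real.sqrt_nonneg _
  have hr2 : r ^ 2 = X := Real.sq_sqrt hX0.le
  set C := box α β X with hC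
  set C' := box α' β' X with hC'
  set Q := ⌊X ^ (1 / 2 - θ)⌋₊ with hQ
  have hlogX : 0 ≤ Real.log X := Real.log_nonneg hX
  -- products
  have hCpos : ∀ a ∈ C, 0 < ∏ i, a i :=
    fun a ha => Finset.prod_pos (fun i _ => pos_of_mem_box ha i)
  have hCle : ∀ a ∈ C, ((∏ i, a i : ℕ) : ℝ) ≤ X ^ (1 - θ) := fun a ha =>
    (prod_le_rpow_of_mem_box hX0 ha).trans (Real.rpow_le_rpow_of_exponent_le hX h2)
  have hCge : ∀ a ∈ C, X ^ θ ≤ ((∏ i, a i : ℕ) : ℝ) := fun a ha =>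
    (Real.rpow_le_rpow_of_exponent_le hX h1).trans (rpow_le_prod_of_mem_box hX0 ha)
  have hCQ : ∀ b ∈ C', ∏ i, b i ∈ Finset.Icc 1 Q := by
    intro b hb
    rw [Finset.mem_Icc]
    refine ⟨Finset.prod_pos (fun i _ => pos_of_mem_box hb i), ?_⟩
    apply Nat.le_floor
    exact (prod_le_rpow_of_mem_box hX0 hb).trans (Real.rpow_le_rpow_of_exponent_le hX h3)
  -- sizes
  have hXθ : X ^ (1 - θ) = X / y ^ 40 := by
    rw [hy40, Real.rpow_sub hX0, Real.rpow_one]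
  have hX1θ : 1 ≤ X ^ (1 - θ) := Real.one_le_rpow hX (by linarith)
  have hXle : X ^ (1 - θ) ≤ X := by
    calc X ^ (1 - θ) ≤ X ^ (1:ℝ) := Real.rpow_le_rpow_of_exponent_le hX (by linarith)
      _ = X := Real.rpow_one X
  have hQle : (Q : ℝ) ≤ X ^ (1 / 2 - θ) := Nat.floor_le (by positivity)
  have hQr : (Q : ℝ) ≤ r / y ^ 40 := by
    refine hQle.trans (le_of_eq ?_)
    rw [hy40, Real.rpow_sub hX0, hr, Real.sqrt_eq_rpow]
  have hQr' : (Q : ℝ) ≤ r := by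
    refine hQr.trans ?_
    apply div_le_self hr0
    exact one_le_pow₀ hy1
  have hQX : (Q : ℝ) ≤ X := by
    refine hQr'.trans ?_
    rw [hr]
    apply Real.sqrt_le_iff.mpr
    constructor
    · linarith
    · nlinarith
  have hlogQ : Real.log Q ≤ Real.log X := by
    rcases Nat.eq_zero_or_pos Q with h0 | h0
    · rw [h0, Nat.cast_zero, Real.log_zero]
      exact hlogX
    · exact Real.log_le_log (by exact_mod_cast h0) hQX
  have hH2 : (harmonic Q : ℝ) ≤ y := by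
    have e1 := harmonic_le_one_add_log Q
    linarith
  have hH : (harmonic ((2 * Q) ^ 2) : ℝ) ≤ y := by
    have e1 := harmonic_le_one_add_log ((2 * Q) ^ 2)
    have e2 : Real.log (((2 * Q) ^ 2 : ℕ) : ℝ) ≤ Real.log 4 + Real.log X := by
      rw [← Real.log_mul (by norm_num) hX0.ne']
      rcases Nat.eq_zero_or_pos Q with h0 | h0
      · rw [h0]
        simp only [mul_zero, ne_eq, OfNat.ofNat_ne_zero, not_false_eq_true, zero_pow,
          Nat.cast_zero, Real.log_zero]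
        apply Real.log_nonneg
        linarith
      · apply Real.log_le_log
        · positivity
        · push_cast
          rw [mul_pow]
          calc (2:ℝ) ^ 2 * (Q:ℝ) ^ 2 ≤ 2 ^ 2 * r ^ 2 := by gcongr
            _ = 4 * X := by rw [hr2]; norm_num
    linarith
  have hlogc : ((Nat.log 2 Q + 1 : ℕ) : ℝ) ≤ y := by
    push_cast
    have e1 : (Nat.log 2 Q : ℝ) ≤ 1 / Real.log 2 * Real.log X := by
      rcases Nat.eq_zero_or_pos Q with h0 | h0
      · rw [h0]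
        simp only [Nat.log_zero_right, Nat.cast_zero]
        have : 0 < Real.log 2 := Real.log_pos (by norm_num)
        positivity
      · have e2 := Real.natLog_le_logb Q 2
        have e3 : Real.logb (2 : ℕ) Q = Real.log Q / Real.log 2 := by
          rw [Real.logb]
          norm_num
        rw [e3] at e2
        have : 0 < Real.log 2 := Real.log_pos (by norm_num)
        calc (Nat.log 2 Q : ℝ) ≤ Real.log Q / Real.log 2 := e2
          _ ≤ Real.log X / Real.log 2 := by gcongr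
          _ = _ := by ring
    linarith
  -- L
  set L := ⌈y ^ 10⌉₊ with hL
  have hy10 : 1 ≤ y ^ 10 := one_le_pow₀ hy1
  have hL1 : y ^ 10 ≤ (L : ℝ) := Nat.le_ceil _
  have hL2 : (L : ℝ) ≤ 2 * y ^ 10 := by
    have := (Nat.ceil_lt_add_one (by positivity : (0:ℝ) ≤ y ^ 10)).le
    linarith
  have hL3 : 1 ≤ L := by
    have : (1:ℝ) ≤ L := hy10.trans hL1
    exact_mod_cast this
  -- the classes
  set J := (Finset.range (⌊Real.log X / Real.log lam⌋₊ + 1)).filter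
    (fun j => (cls C lam j).Nonempty) with hJ
  have hJcov : ∀ a ∈ C, ∃ j ∈ J, a ∈ cls C lam j := by
    intro a ha
    have e1 : (1:ℝ) ≤ ((∏ i, a i : ℕ) : ℝ) := by exact_mod_cast hCpos a ha
    obtain ⟨j, hj1, hj2⟩ := exists_nat_pow_near e1 hl
    have haj : a ∈ cls C lam j := by
      unfold cls
      rw [Finset.mem_filter]
      exact ⟨ha, hj1, hj2⟩
    refine ⟨j, ?_, haj⟩
    rw [hJ, Finset.mem_filter, Finset.mem_range, Nat.lt_succ_iff]
    refine ⟨?_, a, haj⟩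
    apply Nat.le_floor
    rw [le_div_iff₀ hloglam, ← Real.log_pow]
    apply Real.log_le_log (by positivity)
    exact hj1.trans ((hCle a ha).trans hXle)
  have hJcard : (J.card : ℝ) ≤ y := by
    have e1 : J.card ≤ ⌊Real.log X / Real.log lam⌋₊ + 1 := by
      refine (Finset.card_filter_le _ _).trans ?_
      rw [Finset.card_range]
    have e2 : (⌊Real.log X / Real.log lam⌋₊ : ℝ) ≤ Real.log X / Real.log lam :=
      Nat.floor_le (by positivity)
    have e3 : (J.card : ℝ) ≤ (⌊Real.log X / Real.log lam⌋₊ : ℝ) + 1 := by exact_mod_cast e1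
    have e4 : 1 / Real.log lam * Real.log X = Real.log X / Real.log lam := by ring
    linarith
  have hJprop : ∀ j ∈ J, X ^ θ ≤ lam ^ (j + 1) ∧ lam ^ (j + 1) ≤ 2 * X ^ (1 - θ) := by
    intro j hj
    rw [hJ, Finset.mem_filter] at hj
    obtain ⟨a, ha⟩ := hj.2
    unfold cls at ha
    rw [Finset.mem_filter] at ha
    obtain ⟨ha1, ha2, ha3⟩ := ha
    refine ⟨(hCge a ha1).trans ha3.le, ?_⟩
    rw [pow_succ]
    calc lam ^ j * lam ≤ X ^ (1 - θ) * 2 := by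
          gcongr
          exact ha2.trans (hCle a ha1)
      _ = _ := by ring
  -- K, W, D
  have hK : ∀ n, (nu C n : ℝ) ≤ y := nu_box_le (by linarith) hX hdiv
  have hW : ∀ n, (nu C' n : ℝ) ≤ y := nu_box_le (by linarith) hX hdiv
  have hD : ∀ k ∈ Finset.Icc 1 Q, (k.divisors.card : ℝ) ≤ y := by
    intro k hk
    rw [Finset.mem_Icc] at hk
    have e1 := hdiv1 k (by omega) (le_trans (by exact_mod_cast hk.2) hQX)
    rwa [pow_one] at e1
  -- N
  have hN1 : ∀ j ∈ J, ((⌊lam ^ (j + 1)⌋₊ + 1 : ℕ) : ℝ) ≤ 3 * r ^ 2 / y ^ 40 := by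
    intro j hj
    have e1 := (hJprop j hj).2
    have e2 : (⌊lam ^ (j + 1)⌋₊ : ℝ) ≤ lam ^ (j + 1) := Nat.floor_le (by positivity)
    push_cast
    calc (⌊lam ^ (j + 1)⌋₊ : ℝ) + 1 ≤ 3 * X ^ (1 - θ) := by linarith
      _ = 3 * r ^ 2 / y ^ 40 := by rw [hXθ, hr2]; ring
  have hM1 : ∀ j ∈ J, ((⌊X / lam ^ (j + 1)⌋₊ + 1 : ℕ) : ℝ) ≤ 2 * r ^ 2 / y ^ 40 := by
    intro j hj
    have e1 := (hJprop j hj).1
    have e2 : (⌊X / lam ^ (j + 1)⌋₊ : ℝ) ≤ X / lam ^ (j + 1) := Nat.floor_le (by positivity)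
    have e3 : X / lam ^ (j + 1) ≤ X ^ (1 - θ) := by
      rw [Real.rpow_sub hX0, Real.rpow_one]
      gcongr
    push_cast
    calc (⌊X / lam ^ (j + 1)⌋₊ : ℝ) + 1 ≤ 2 * X ^ (1 - θ) := by linarith
      _ = 2 * r ^ 2 / y ^ 40 := by rw [hXθ, hr2]; ring
  have hsq : ∀ (M : ℕ), (M : ℝ) ≤ 3 * r ^ 2 / y ^ 40 → √(M : ℝ) ≤ 2 * r / y ^ 20 := by
    intro M hM
    apply Real.sqrt_le_iff.mpr
    refine ⟨by positivity, ?_⟩
    calc (M : ℝ) ≤ 3 * r ^ 2 / y ^ 40 := hM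
      _ ≤ 4 * r ^ 2 / y ^ 40 := by gcongr; norm_num
      _ = (2 * r / y ^ 20) ^ 2 := by
          rw [div_pow, mul_pow]
          ring
  have hMN : ∀ j ∈ J, √((⌊X / lam ^ (j + 1)⌋₊ + 1 : ℕ) : ℝ) *
      √((⌊lam ^ (j + 1)⌋₊ + 1 : ℕ) : ℝ) ≤ 3 * r := by
    intro j hj
    obtain ⟨e1, e1'⟩ := hJprop j hj
    rw [← Real.sqrt_mul (by positivity)]
    apply Real.sqrt_le_iff.mpr
    refine ⟨by positivity, ?_⟩
    set t := lam ^ (j + 1) with ht
    have ht1 : 1 ≤ t := one_le_pow₀ hl.le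
    have ht0 : 0 < t := by linarith
    have e2 : (⌊X / t⌋₊ : ℝ) ≤ X / t := Nat.floor_le (by positivity)
    have e3 : (⌊t⌋₊ : ℝ) ≤ t := Nat.floor_le (by positivity)
    have e4 : X / t ≤ X := div_le_self hX0.le ht1
    push_cast
    calc ((⌊X / t⌋₊ : ℝ) + 1) * ((⌊t⌋₊ : ℝ) + 1) ≤ (X / t + 1) * (t + 1) := by gcongr
      _ = X + X / t + t + 1 := by
          field_simp
          ring
      _ ≤ X + X + 2 * X + X := by linarith
      _ ≤ (3 * r) ^ 2 := by rw [mul_pow, hr2]; linarith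
  have hE1 : ∀ j ∈ J, Err0 y y y (⌊X / lam ^ (j + 1)⌋₊ + 1) (⌊lam ^ (j + 1)⌋₊ + 1) Q L ≤
      69 * r ^ 2 / y ^ 5 := by
    intro j hj
    exact Err0_bound hr0 hy1 hy0.le le_rfl hy0.le le_rfl hy0.le le_rfl (hMN j hj)
      (hsq _ ((hM1 j hj).trans (by gcongr; norm_num))) (hsq _ (hN1 j hj)) (hN1 j hj) hQr hH hH2
      hlogc hL1 hL2
  have hfin := Scount_lower C C' hδ hX0 hl hδl h hh z hz Q hCQ J hJcov hCpos y y y hK hW hD
    hy0.le L hL3 (69 * r ^ 2 / y ^ 5) (3 * r ^ 2 / y ^ 40) hE1 hN1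
  refine le_trans ?_ hfin
  have hWs : WsumC h C C' = Wsum h α β α' β' X := rfl
  rw [hWs]
  -- total error
  have hcardC : (C.card : ℝ) ≤ r ^ 2 / y ^ 40 := by
    rw [hr2, ← hXθ]
    exact (card_box_le hX0).trans (Real.rpow_le_rpow_of_exponent_le hX h2)
  have herr : h * C.card * (y * (harmonic Q : ℝ)) +
      J.card * ((h.divisors.card : ℝ) ^ 2 * (69 * r ^ 2 / y ^ 5) +
        h * y * (y * (3 * r ^ 2 / y ^ 40)) * (harmonic Q : ℝ)) ≤
      (69 * (h.divisors.card : ℝ) ^ 2 + 4 * h) * (X / y) := by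
    have hH0 := harmonic_nonneg Q
    calc h * C.card * (y * (harmonic Q : ℝ)) +
        J.card * ((h.divisors.card : ℝ) ^ 2 * (69 * r ^ 2 / y ^ 5) +
          h * y * (y * (3 * r ^ 2 / y ^ 40)) * (harmonic Q : ℝ))
        ≤ h * (r ^ 2 / y ^ 40) * (y * y) +
          y * ((h.divisors.card : ℝ) ^ 2 * (69 * r ^ 2 / y ^ 5) +
            h * y * (y * (3 * r ^ 2 / y ^ 40)) * y) := by gcongr
      _ = r ^ 2 * (h / y ^ 38 + 69 * (h.divisors.card : ℝ) ^ 2 / y ^ 4 + 3 * h / y ^ 36) := by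
          field_simp
          ring
      _ ≤ r ^ 2 * (h / y ^ 1 + 69 * (h.divisors.card : ℝ) ^ 2 / y ^ 1 + 3 * h / y ^ 1) := by
          have e1 : y ^ 1 ≤ y ^ 38 := pow_le_pow_right₀ hy1 (by norm_num)
          have e2 : y ^ 1 ≤ y ^ 4 := pow_le_pow_right₀ hy1 (by norm_num)
          have e3 : y ^ 1 ≤ y ^ 36 := pow_le_pow_right₀ hy1 (by norm_num)
          gcongr
      _ = (69 * (h.divisors.card : ℝ) ^ 2 + 4 * h) * (X / y) := by
          rw [hr2, pow_one]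
          ring
  linarith

end Pool.Agent.Work.MP_122e00_nt

end
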