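import Mathlib.Logic.Basic
import Pool.Agent.Work.MP_122e00_nt.Four.Tab
import Pool.Agent.Work.MP_122e00_nt.Four.Cert.Eval

/-! Bundle of small proof modules (one section per former module). -/

section

set_option autoImplicit false

set_option maxRecDepth 1000000

/-!
# Four parts: the table for the tail (computation)
-/

namespace Pool.Agent.Work.MP_122e00_nt.Four.Tb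

noncomputable section

/-- All three tests with one computation of the table. -/
def tst (N Sc M : ℕ) : Bool :=
  (fun U => cond (sums 4 N Sc (dr 318 U) 318 0 497000000000000)
    (cond (sums 5 N Sc (dr 398 U) 398 0 17800000000000)
      (sums 6 N Sc (dr 477 U) 477 0 2320000000000) false) false) (tbl N Sc M 16)

theorem cond3 (a b c : Bool) (h : cond a (cond b c false) false = true) :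
    a = true ∧ b = true ∧ c = true := by
  cases a <;> cases b <;> cases c <;> simp_all

theorem tst_spec (N Sc M : ℕ) (h : tst N Sc M = true) :
    sums 4 N Sc (dr 318 (tbl N Sc M 16)) 318 0 497000000000000 = true ∧
    sums 5 N Sc (dr 398 (tbl N Sc M 16)) 398 0 17800000000000 = true ∧
    sums 6 N Sc (dr 477 (tbl N Sc M 16)) 477 0 2320000000000 = true :=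
  cond3 _ _ _ h

theorem tst_true : tst 40 1000000000000000 1599 = true := by decide +kernel

end

end Pool.Agent.Work.MP_122e00_nt.Four.Tb

end

section

set_option autoImplicit false

/-!
# The certificate for four parts: the classes
-/

namespace Pool.Agent.Work.MP_122e00_nt.Four.Cx

open Sharp.Cx

noncomputable section

/-- one mark -/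
def cl1 : Cl := ⟨1, 10, [0], 0, 0,
  [27720, 13860, 9240, 6930, 5544, 4620, 3960, 3465, 3080, 2772, 2520],
  [27720, 13860, 9240, 6930, 5544, 4620, 3960, 3465, 3080, 2772, 2520], [0, 0, 0, 0], 1440, 1⟩

/-- two marks -/
def cl2 : Cl := ⟨2, 9, [0, 1], 0, 9, [2520, 1260, 840, 630, 504, 420, 360, 315, 280, 252],
  [2520, 1260, 840, 630, 504, 420, 360, 315, 280, 252], [0, 0, 0, 0], 44, 7⟩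

/-- three marks, all parts exact -/
def cl30 : Cl := ⟨3, 8, [0, 1, 37], 45, 360, [2520, 1260, 840, 630, 504, 420, 360, 315, 280],
  [2520, 1260, 840, 630, 504, 420, 360, 315, 280], [1, 1, 1, 1], 11, 4410⟩

/-- three marks, three parts exact -/
def cl31 : Cl := ⟨3, 8, [0, 1, 37], 45, 360, [2520, 1260, 840, 630, 504, 420, 360, 315, 280],
  [3780, 5670, 10710, 23940, 61236, 175371, 553659, 1904652, 7075388], [0, 1, 1, 1], 11, 6615⟩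

/-- three marks, two parts exact -/
def cl32 : Cl := ⟨3, 8, [0, 1, 37], 45, 360, [2520, 1260, 840, 630, 504, 420, 360, 315, 280],
  [3780, 9450, 27720, 92295, 341586, 1384887, 6084240, 28722318, 144719468], [0, 0, 1, 1],
  11, 6615⟩

/-- three marks, one part exact -/
def cl33 : Cl := ⟨3, 8, [0, 1, 37], 45, 360, [2520, 1260, 840, 630, 504, 420, 360, 315, 280],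
  [630, 2205, 8715, 38115, 181881, 937188, 5172768, 30386934, 188987554], [0, 0, 0, 1], 22, 2205⟩

/-- three marks, no part exact -/
def cl34 : Cl := ⟨3, 8, [0, 1, 9], 0, 72, [2520, 1260, 840, 630, 504, 420, 360, 315, 280],
  [7560, 34020, 168840, 911610, 5301072, 32943288, 217434576, 1516515687, 11129687668],
  [0, 0, 0, 0], 11, 13230⟩

/-- the classes for one mark -/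
def cls1 (_ : ℕ) : Cl := cl1

/-- the classes for two marks -/
def cls2 (_ : ℕ) : Cl := cl2

/-- the classes for three marks -/
def cls3 (b : ℕ) : Cl :=
  @Nat.rec (fun _ => Cl) cl30 (fun b _ => @Nat.rec (fun _ => Cl) cl31
    (fun b _ => @Nat.rec (fun _ => Cl) cl32
      (fun b _ => @Nat.rec (fun _ => Cl) cl33 (fun _ _ => cl34) b) b) b) b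

end

end Pool.Agent.Work.MP_122e00_nt.Four.Cx

end

section

set_option autoImplicit false

set_option maxRecDepth 100000

/-!
# The certificate: data
-/

namespace Pool.Agent.Work.MP_122e00_nt.Four.Cx

open Sharp.Cx

/-- data -/
noncomputable def tr0 : Ct := (.dc 0 0 0 (.dc 0 2 0 (.dc 0 4 0 (.dc 0 6 0 (.ct 1 6 1 1 1 (.dc 1
  3 0 (.dc 2 3 0 (.dc 3 3 0 (.dc 3 7 0 (.ct 0 5 1 2 1 (.dc 0 1 0 (.dc 0 3 0 (.dc 0 5 0 (.ct 2 5 1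
  2 1 (.dc 0 7 0 (.dc 1 7 0 (.dc 2 7 0 (.ct 1 2 2 3 1 (.ct 2 6 2 3 1 (.lf 4 128) (.lf 3 128))
  (.lf 4 128))))) (.ct 2 6 1 1 1 (.dc 0 7 0 (.dc 1 7 0 (.dc 2 7 0 (.ct 5 6 1 1 1 (.lf 4 144) (.ct
  1 5 2 1 1 (.lf 3 128) (.ct 1 6 8 9 1 (.ct 2 5 24 5 1 (.lf 4 160) (.lf 3 160)) (.lf 4 160)))))))
  (.dc 0 7 1 (.ct 0 2 1 1 1 (.ct 2 3 1 1 1 (.dc 1 7 0 (.dc 2 7 0 (.lf 3 144))) (.dc 1 7 1 (.ct 2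
  4 1 1 1 (.dc 2 7 0 (.lf 3 144)) (.dc 2 7 1 (.lf 3 144))))) (.dc 1 7 0 (.dc 2 7 0 (.lf 3
  144)))))))))) (.ct 0 6 1 1 1 (.dc 0 1 0 (.dc 0 3 0 (.dc 0 5 0 (.ct 2 6 1 1 1 (.dc 0 7 0 (.dc 1
  7 0 (.dc 2 7 0 (.lf 4 128)))) (.dc 0 7 1 (.ct 0 2 1 1 1 (.ct 2 3 1 1 1 (.dc 1 7 0 (.dc 2 7 0
  (.ct 1 2 5 3 1 (.lf 3 128) (.ct 1 6 5 9 1 (.lf 3 128) (.lf 4 128))))) (.ct 2 5 1 1 1 (.dc 1 7 0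
  (.dc 2 7 0 (.ct 1 3 5 1 1 (.lf 3 144) (.ct 1 2 7 6 1 (.lf 3 160) (.lf 4 160))))) (.dc 1 7 1
  (.ct 2 4 1 1 1 (.dc 2 7 0 (.lf 3 144)) (.dc 2 7 1 (.lf 3 144)))))) (.dc 1 7 0 (.dc 2 7 0 (.lf 4
  128))))))))) (.dc 0 3 1 (.dc 0 7 1 (.ct 2 3 1 1 1 (.dc 1 7 0 (.dc 2 7 0 (.ct 0 1 1 1 1 (.dc 0 1
  0 (.dc 0 5 0 (.ct 1 2 5 9 1 (.lf 3 128) (.lf 4 128)))) (.dc 0 5 1 (.ct 0 2 1 1 1 (.dc 0 1 0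
  (.lf 3 128)) (.dc 0 1 1 (.lf 4 112))))))) (.ct 0 1 1 1 1 (.dc 0 1 0 (.dc 0 5 0 (.ct 2 5 1 1 1
  (.dc 1 7 0 (.dc 2 7 0 (.ct 1 3 5 6 1 (.lf 3 160) (.lf 4 160)))) (.ct 2 6 1 1 1 (.dc 1 7 0 (.dc
  2 7 0 (.ct 1 3 5 6 1 (.lf 3 160) (.lf 4 160)))) (.dc 1 7 1 (.ct 2 4 1 1 1 (.dc 2 7 0 (.lf 3
  144)) (.dc 2 7 1 (.lf 3 144)))))))) (.dc 0 5 1 (.ct 2 5 1 1 1 (.dc 1 7 0 (.dc 2 7 0 (.ct 0 2 1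
  1 1 (.dc 0 1 0 (.lf 3 160)) (.ct 0 3 1 1 1 (.dc 0 1 0 (.lf 3 128)) (.dc 0 1 1 (.lf 3 112))))))
  (.ct 0 3 1 1 1 (.dc 0 1 0 (.ct 2 6 1 1 1 (.dc 1 7 0 (.dc 2 7 0 (.lf 3 144))) (.dc 1 7 1 (.ct 2
  4 1 1 1 (.dc 2 7 0 (.lf 3 144)) (.dc 2 7 1 (.lf 3 144)))))) (.ct 2 6 1 1 1 (.dc 1 7 0 (.dc 2 7
  0 (.ct 0 2 1 1 1 (.dc 0 1 0 (.lf 3 128)) (.ct 0 5 1 1 1 (.dc 0 1 0 (.lf 3 144)) (.dc 0 1 1 (.lf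
  3 144)))))) (.dc 1 7 1 (.ct 0 5 1 1 1 (.dc 0 1 0 (.ct 2 4 1 1 1 (.dc 2 7 0 (.lf 3 144)) (.dc 2
  7 1 (.lf 3 144)))) (.ct 0 6 1 1 1 (.dc 0 1 0 (.ct 2 4 1 1 1 (.dc 2 7 0 (.lf 3 144)) (.dc 2 7 1
  (.lf 3 144)))) (.ct 0 2 1 1 1 (.dc 0 1 0 (.ct 0 4 1 1 1 (.ct 2 4 1 1 1 (.dc 2 7 0 (.lf 3 160))
  (.dc 2 7 1 (.lf 3 160))) (.dc 2 7 1 (.lf 3 160)))) (.dc 0 1 1 (.ct 2 4 1 1 1 (.dc 2 7 0 (.lf 3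
  160)) (.dc 2 7 1 (.lf 3 160)))))))))))))))))))))) (.ct 1 5 1 2 1 (.dc 1 3 0 (.dc 2 3 0 (.dc 3 3
  0 (.dc 3 7 0 (.ct 0 5 1 2 1 (.dc 0 1 0 (.dc 0 3 0 (.dc 0 5 0 (.ct 2 5 1 2 1 (.dc 0 7 0 (.dc 1 7
  0 (.dc 2 7 0 (.ct 2 6 1 1 1 (.lf 4 128) (.lf 3 112))))) (.dc 0 7 1 (.ct 0 2 1 1 1 (.ct 2 3 1 1
  1 (.dc 1 7 0 (.dc 2 7 0 (.lf 3 144))) (.dc 1 7 1 (.ct 2 4 1 1 1 (.dc 2 7 0 (.lf 3 144)) (.dc 2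
  7 1 (.lf 3 144))))) (.dc 1 7 0 (.dc 2 7 0 (.lf 3 128))))))))) (.dc 0 3 1 (.dc 0 7 1 (.ct 0 1 1
  1 1 (.dc 0 1 0 (.dc 0 5 0 (.ct 2 3 1 1 1 (.dc 1 7 0 (.dc 2 7 0 (.lf 3 128))) (.ct 2 5 1 1 1
  (.dc 1 7 0 (.dc 2 7 0 (.lf 3 144))) (.dc 1 7 1 (.ct 2 4 1 1 1 (.dc 2 7 0 (.lf 3 144)) (.dc 2 7
  1 (.lf 3 144)))))))) (.ct 2 3 1 1 1 (.dc 1 7 0 (.dc 2 7 0 (.ct 0 6 1 1 1 (.dc 0 1 0 (.dc 0 5 0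
  (.lf 3 128))) (.dc 0 5 1 (.ct 0 2 1 1 1 (.dc 0 1 0 (.lf 3 128)) (.dc 0 1 1 (.lf 3 128)))))))
  (.ct 0 6 1 1 1 (.dc 0 1 0 (.dc 0 5 0 (.ct 2 5 1 1 1 (.dc 1 7 0 (.dc 2 7 0 (.lf 3 144))) (.dc 1
  7 1 (.ct 2 4 1 1 1 (.dc 2 7 0 (.lf 3 144)) (.dc 2 7 1 (.lf 3 144))))))) (.dc 0 5 1 (.ct 2 5 1 1
  1 (.dc 1 7 0 (.dc 2 7 0 (.ct 0 2 1 1 1 (.dc 0 1 0 (.lf 3 144)) (.ct 0 3 1 1 1 (.dc 0 1 0 (.lf 3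
  128)) (.dc 0 1 1 (.lf 3 128)))))) (.dc 1 7 1 (.ct 0 3 1 1 1 (.dc 0 1 0 (.ct 2 4 1 1 1 (.dc 2 7
  0 (.lf 3 144)) (.dc 2 7 1 (.lf 3 144)))) (.ct 0 5 1 1 1 (.dc 0 1 0 (.ct 2 4 1 1 1 (.dc 2 7 0
  (.lf 3 160)) (.dc 2 7 1 (.lf 3 160)))) (.ct 0 2 1 1 1 (.dc 0 1 0 (.ct 0 4 1 1 1 (.ct 2 4 1 1 1
  (.dc 2 7 0 (.lf 3 128)) (.dc 2 7 1 (.lf 3 128))) (.dc 2 7 1 (.lf 3 128)))) (.dc 0 1 1 (.ct 2 4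
  1 1 1 (.dc 2 7 0 (.lf 3 128)) (.dc 2 7 1 (.lf 3 128)))))))))))))))))))) (.dc 0 3 1 (.dc 0 7 1
  (.ct 1 3 1 1 1 (.dc 1 3 0 (.dc 2 3 0 (.dc 3 3 0 (.dc 3 7 0 (.ct 0 5 1 1 1 (.dc 0 1 0 (.dc 0 5 0
  (.ct 2 3 1 1 1 (.dc 1 7 0 (.dc 2 7 0 (.lf 3 128))) (.dc 1 7 1 (.ct 2 4 1 1 1 (.dc 2 7 0 (.lf 3
  128)) (.dc 2 7 1 (.lf 3 128))))))) (.ct 0 6 1 1 1 (.dc 0 1 0 (.dc 0 5 0 (.ct 2 3 1 1 1 (.dc 1 7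
  0 (.dc 2 7 0 (.ct 2 6 6 5 1 (.lf 4 144) (.lf 3 144)))) (.dc 1 7 1 (.ct 2 4 1 1 1 (.dc 2 7 0
  (.lf 3 128)) (.dc 2 7 1 (.lf 3 128))))))) (.dc 0 5 1 (.ct 2 3 1 1 1 (.dc 1 7 0 (.dc 2 7 0 (.ct
  0 2 1 1 1 (.dc 0 1 0 (.lf 3 128)) (.dc 0 1 1 (.lf 3 128))))) (.dc 1 7 1 (.ct 0 3 1 1 1 (.dc 0 1
  0 (.ct 2 4 1 1 1 (.dc 2 7 0 (.lf 3 128)) (.dc 2 7 1 (.lf 3 128)))) (.ct 0 2 1 1 1 (.dc 0 1 0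
  (.ct 0 4 1 1 1 (.ct 2 4 1 1 1 (.dc 2 7 0 (.lf 3 128)) (.dc 2 7 1 (.lf 3 128))) (.dc 2 7 1 (.lf
  3 128)))) (.dc 0 1 1 (.ct 2 4 1 1 1 (.dc 2 7 0 (.lf 3 128)) (.dc 2 7 1 (.lf 3
  128))))))))))))))) (.dc 1 3 1 (.dc 1 7 1 (.ct 1 4 1 1 1 (.dc 2 3 0 (.dc 3 3 0 (.dc 3 7 0 (.ct 0
  5 1 1 1 (.dc 0 1 0 (.dc 0 5 0 (.ct 2 4 1 1 1 (.dc 2 7 0 (.lf 3 128)) (.dc 2 7 1 (.lf 3 128)))))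
  (.ct 0 6 1 1 1 (.dc 0 1 0 (.dc 0 5 0 (.ct 2 4 1 1 1 (.dc 2 7 0 (.ct 2 6 3 2 1 (.lf 4 144) (.lf
  3 144))) (.dc 2 7 1 (.lf 3 128))))) (.dc 0 5 1 (.ct 0 2 1 1 1 (.dc 0 1 0 (.ct 0 4 1 1 1 (.ct 2
  4 1 1 1 (.dc 2 7 0 (.lf 3 128)) (.dc 2 7 1 (.lf 3 128))) (.dc 2 7 1 (.lf 3 128)))) (.dc 0 1 1
  (.ct 2 4 1 1 1 (.dc 2 7 0 (.lf 3 128)) (.dc 2 7 1 (.lf 3 128))))))))))) (.dc 2 3 1 (.dc 2 7 1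
  (.ct 0 6 1 1 1 (.dc 0 1 0 (.dc 0 5 0 (.ct 1 3 1 1 1 (.dc 3 3 0 (.dc 3 7 0 (.lf 3 112))) (.ct 1
  5 2 1 1 (.dc 3 3 0 (.dc 3 7 0 (.lf 3 112))) (.dc 3 7 1 (.ct 1 2 1 1 1 (.dc 3 3 0 (.lf 3 112))
  (.dc 3 3 1 (.ct 2 6 3 2 1 (.lf 4 128) (.lf 3 112))))))))) (.ct 1 3 1 1 1 (.dc 3 3 0 (.dc 3 7 0
  (.ct 0 5 1 1 1 (.dc 0 1 0 (.dc 0 5 0 (.lf 3 128))) (.dc 0 5 1 (.ct 0 2 1 1 1 (.dc 0 1 0 (.lf 3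
  128)) (.dc 0 1 1 (.lf 3 128))))))) (.ct 0 5 1 1 1 (.dc 0 1 0 (.dc 0 5 0 (.ct 0 1 1 2 1 (.ct 1 5
  2 1 1 (.dc 3 3 0 (.dc 3 7 0 (.lf 3 128))) (.dc 3 7 1 (.ct 1 2 1 1 1 (.dc 3 3 0 (.lf 3 128))
  (.dc 3 3 1 (.lf 3 128))))) (.dc 3 3 0 (.dc 3 7 0 (.lf 3 144)))))) (.dc 0 5 1 (.ct 1 5 2 1 1
  (.dc 3 3 0 (.dc 3 7 0 (.ct 0 2 1 1 1 (.dc 0 1 0 (.lf 3 144)) (.dc 0 1 1 (.lf 3 128))))) (.dc 3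
  7 1 (.ct 0 2 1 1 1 (.dc 0 1 0 (.ct 0 1 1 1 1 (.ct 1 2 1 1 1 (.dc 3 3 0 (.lf 3 144)) (.dc 3 3 1
  (.lf 3 128))) (.dc 3 3 0 (.lf 3 144)))) (.dc 0 1 1 (.ct 1 2 1 1 1 (.dc 3 3 0 (.lf 3 128)) (.dc
  3 3 1 (.lf 3 128)))))))))))))))))))))))))

theorem dt0 : le (run cls3 3 tr0 [[1, 0, 0, 1, 0, 0, 0], [1, 1, 0, 0, 0, 0, 0], [1, 1, 1, 1, 1,
  1, 0], [0, 0, 0, 2, 1, 1, 0], [0, 0, 0, 1, 1, 0, 0], [0, 0, 0, 1, 1, 1, 0], [0, 0, 0, 1, 1, 1,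
  1]] 2004317952 0) 300928205936 = true := by decide +kernel

/-- data -/
noncomputable def tr1 : Ct := (.ct 1 6 1 1 1 (.dc 1 3 0 (.dc 2 3 0 (.dc 3 3 0 (.dc 3 7 0 (.ct 3
  6 2 1 1 (.dc 0 0 0 (.dc 0 2 0 (.dc 0 4 0 (.dc 0 6 0 (.ct 0 6 1 1 1 (.dc 0 1 0 (.dc 0 3 0 (.dc 0
  5 0 (.ct 2 6 1 1 1 (.dc 0 7 0 (.dc 1 7 0 (.dc 2 7 0 (.lf 4 128)))) (.dc 0 7 1 (.ct 0 2 1 1 1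
  (.ct 2 3 2 1 1 (.dc 1 7 0 (.dc 2 7 0 (.ct 1 2 3 2 1 (.ct 2 3 1 3 2 (.lf 4 144) (.lf 3 144))
  (.lf 4 144)))) (.ct 2 5 1 1 1 (.dc 1 7 0 (.dc 2 7 0 (.lf 3 128))) (.dc 1 7 1 (.ct 2 4 1 1 1
  (.dc 2 7 0 (.lf 3 144)) (.dc 2 7 1 (.lf 3 144)))))) (.dc 1 7 0 (.dc 2 7 0 (.lf 4 128)))))))))
  (.dc 0 3 1 (.dc 0 7 1 (.ct 2 3 2 1 1 (.dc 1 7 0 (.dc 2 7 0 (.ct 0 1 1 1 1 (.dc 0 1 0 (.dc 0 5 0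
  (.lf 4 128))) (.dc 0 5 1 (.ct 0 2 2 1 1 (.dc 0 1 0 (.ct 2 6 1 1 1 (.lf 4 144) (.lf 3 144)))
  (.dc 0 1 1 (.lf 4 144))))))) (.ct 0 1 1 1 1 (.dc 0 1 0 (.dc 0 5 0 (.ct 2 5 1 1 1 (.dc 1 7 0
  (.dc 2 7 0 (.ct 1 2 5 6 1 (.lf 3 144) (.lf 4 144)))) (.ct 2 6 1 1 1 (.dc 1 7 0 (.dc 2 7 0 (.ct
  1 5 5 6 1 (.lf 3 144) (.lf 4 144)))) (.dc 1 7 1 (.ct 2 4 1 1 1 (.dc 2 7 0 (.lf 3 144)) (.dc 2 7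
  1 (.lf 3 144)))))))) (.dc 0 5 1 (.ct 2 5 1 1 1 (.dc 1 7 0 (.dc 2 7 0 (.ct 0 2 1 1 1 (.dc 0 1 0
  (.lf 3 144)) (.ct 0 3 2 1 1 (.dc 0 1 0 (.lf 3 144)) (.dc 0 1 1 (.lf 3 128)))))) (.ct 0 3 2 1 1
  (.dc 0 1 0 (.ct 2 6 1 1 1 (.dc 1 7 0 (.dc 2 7 0 (.lf 3 160))) (.dc 1 7 1 (.ct 2 4 1 1 1 (.dc 2
  7 0 (.lf 3 160)) (.dc 2 7 1 (.lf 3 160)))))) (.ct 2 6 1 1 1 (.dc 1 7 0 (.dc 2 7 0 (.ct 0 2 1 1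
  1 (.dc 0 1 0 (.lf 3 176)) (.ct 0 5 1 1 1 (.dc 0 1 0 (.lf 3 176)) (.dc 0 1 1 (.lf 3 160))))))
  (.dc 1 7 1 (.ct 0 5 1 1 1 (.dc 0 1 0 (.ct 2 4 1 1 1 (.dc 2 7 0 (.lf 3 160)) (.dc 2 7 1 (.lf 3
  160)))) (.ct 0 6 1 1 1 (.dc 0 1 0 (.ct 2 4 1 1 1 (.dc 2 7 0 (.lf 3 160)) (.dc 2 7 1 (.lf 3
  160)))) (.ct 0 2 1 1 1 (.dc 0 1 0 (.ct 0 4 1 1 1 (.ct 2 4 1 1 1 (.dc 2 7 0 (.lf 3 176)) (.dc 2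
  7 1 (.lf 3 176))) (.dc 2 7 1 (.lf 3 176)))) (.dc 0 1 1 (.ct 2 4 1 1 1 (.dc 2 7 0 (.lf 3 176))
  (.dc 2 7 1 (.lf 3 176))))))))))))))))))))) (.dc 0 3 1 (.dc 0 7 1 (.ct 2 3 1 2 1 (.dc 1 7 0 (.dc
  2 7 0 (.ct 1 3 1 2 1 (.dc 0 1 1 (.dc 0 2 1 (.dc 0 5 1 (.dc 0 6 1 (.ct 1 3 1 2 1 (.dc 0 4 1 (.ct
  2 3 1 2 1 (.dc 0 0 1 (.lf 3 112)) (.dc 0 0 0 (.lf 3 128)))) (.dc 0 0 0 (.dc 0 4 0 (.lf 3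
  128)))))))) (.dc 0 0 0 (.dc 0 2 0 (.dc 0 4 0 (.ct 0 1 1 1 1 (.dc 0 1 0 (.ct 1 2 1 1 1 (.dc 0 5
  1 (.ct 0 2 1 1 1 (.dc 0 6 1 (.lf 3 144)) (.dc 0 6 0 (.lf 4 144)))) (.dc 0 5 0 (.dc 0 6 0 (.lf 4
  128))))) (.dc 0 1 1 (.dc 0 5 1 (.ct 1 2 1 1 1 (.dc 0 6 1 (.lf 3 112)) (.dc 0 6 0 (.lf 4
  128)))))))))))) (.dc 0 0 0 (.dc 0 2 0 (.dc 0 4 0 (.ct 2 5 1 1 1 (.dc 1 7 0 (.dc 2 7 0 (.ct 0 1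
  1 1 1 (.dc 0 1 0 (.ct 1 3 1 1 1 (.dc 0 5 1 (.ct 0 3 1 1 1 (.dc 0 6 1 (.lf 3 160)) (.dc 0 6 0
  (.lf 3 160)))) (.dc 0 5 0 (.dc 0 6 0 (.ct 1 2 5 9 1 (.lf 3 144) (.lf 4 160)))))) (.dc 0 5 1
  (.ct 0 2 1 1 1 (.dc 0 1 0 (.ct 1 3 1 1 1 (.dc 0 6 1 (.lf 3 128)) (.dc 0 6 0 (.lf 3 128)))) (.dc
  0 1 1 (.ct 1 3 1 1 1 (.dc 0 6 1 (.lf 3 112)) (.dc 0 6 0 (.lf 3 112))))))))) (.ct 0 1 1 1 1 (.dc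
  0 1 0 (.ct 1 3 1 1 1 (.dc 0 5 1 (.ct 2 6 2 1 1 (.dc 1 7 0 (.dc 2 7 0 (.ct 0 3 1 1 1 (.dc 0 6 1
  (.lf 3 176)) (.dc 0 6 0 (.lf 3 176))))) (.dc 1 7 1 (.ct 0 3 1 1 1 (.dc 0 6 1 (.ct 2 4 1 1 1
  (.dc 2 7 0 (.lf 3 176)) (.dc 2 7 1 (.lf 3 176)))) (.dc 0 6 0 (.ct 2 4 1 1 1 (.dc 2 7 0 (.lf 3
  176)) (.dc 2 7 1 (.lf 3 176)))))))) (.dc 0 5 0 (.dc 0 6 0 (.ct 2 6 2 1 1 (.dc 1 7 0 (.dc 2 7 0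
  (.ct 1 5 5 3 1 (.lf 3 160) (.lf 4 160)))) (.dc 1 7 1 (.ct 2 4 1 1 1 (.dc 2 7 0 (.lf 3 160))
  (.dc 2 7 1 (.lf 3 160))))))))) (.dc 0 5 1 (.ct 2 6 2 1 1 (.dc 1 7 0 (.dc 2 7 0 (.ct 0 2 2 1 1
  (.dc 0 1 0 (.ct 1 3 1 1 1 (.dc 0 6 1 (.lf 3 176)) (.dc 0 6 0 (.lf 3 176)))) (.ct 0 5 1 1 1 (.dc
  0 1 0 (.ct 1 3 1 1 1 (.dc 0 6 1 (.lf 3 160)) (.dc 0 6 0 (.lf 3 160)))) (.dc 0 1 1 (.ct 1 3 1 1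
  1 (.dc 0 6 1 (.lf 3 144)) (.dc 0 6 0 (.lf 3 144)))))))) (.dc 1 7 1 (.ct 0 5 1 1 1 (.dc 0 1 0
  (.ct 1 3 1 1 1 (.dc 0 6 1 (.ct 2 4 1 1 1 (.dc 2 7 0 (.lf 3 144)) (.dc 2 7 1 (.lf 3 144)))) (.dc
  0 6 0 (.ct 2 4 1 1 1 (.dc 2 7 0 (.lf 3 144)) (.dc 2 7 1 (.lf 3 144)))))) (.ct 0 6 2 1 1 (.dc 0
  1 0 (.ct 1 3 1 1 1 (.dc 0 6 1 (.ct 2 4 1 1 1 (.dc 2 7 0 (.lf 3 160)) (.dc 2 7 1 (.lf 2 160))))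
  (.dc 0 6 0 (.ct 2 4 1 1 1 (.dc 2 7 0 (.lf 3 160)) (.dc 2 7 1 (.lf 3 160)))))) (.ct 1 3 1 1 1
  (.dc 0 6 1 (.ct 0 2 1 1 1 (.dc 0 1 0 (.ct 0 4 1 1 1 (.ct 2 4 1 1 1 (.dc 2 7 0 (.lf 2 160)) (.dc
  2 7 1 (.lf 2 160))) (.dc 2 7 1 (.lf 2 160)))) (.dc 0 1 1 (.ct 2 4 1 1 1 (.dc 2 7 0 (.lf 3 160))
  (.dc 2 7 1 (.lf 2 160)))))) (.dc 0 6 0 (.ct 0 2 1 1 1 (.dc 0 1 0 (.ct 0 4 1 1 1 (.ct 2 4 1 1 1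
  (.dc 2 7 0 (.lf 3 160)) (.dc 2 7 1 (.lf 3 160))) (.dc 2 7 1 (.lf 3 160)))) (.dc 0 1 1 (.ct 2 4
  1 1 1 (.dc 2 7 0 (.lf 3 160)) (.dc 2 7 1 (.lf 3 160))))))))))))))))))))))))) (.dc 0 3 1 (.dc 0
  7 1 (.ct 1 3 1 2 1 (.dc 1 3 0 (.dc 2 3 0 (.dc 3 3 0 (.dc 3 7 0 (.ct 2 3 1 2 1 (.dc 1 7 0 (.dc 2
  7 0 (.ct 3 6 2 1 1 (.dc 0 0 0 (.dc 0 4 0 (.ct 1 6 1 1 1 (.dc 0 2 0 (.ct 0 6 1 1 1 (.dc 0 1 0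
  (.ct 2 6 1 1 1 (.dc 0 5 0 (.dc 0 6 0 (.lf 4 160))) (.dc 0 5 1 (.ct 0 2 1 1 1 (.dc 0 6 1 (.lf 3
  144)) (.dc 0 6 0 (.lf 4 144)))))) (.dc 0 1 1 (.dc 0 5 1 (.ct 2 6 1 1 1 (.dc 0 6 0 (.lf 4 128))
  (.dc 0 6 1 (.lf 3 128))))))) (.dc 0 1 1 (.dc 0 2 1 (.dc 0 5 1 (.dc 0 6 1 (.lf 3 112))))))))
  (.dc 0 1 1 (.dc 0 2 1 (.dc 0 5 1 (.dc 0 6 1 (.ct 3 6 2 1 1 (.dc 0 0 0 (.dc 0 4 0 (.lf 3 112)))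
  (.dc 0 4 1 (.ct 2 3 1 2 1 (.dc 0 0 1 (.lf 3 112)) (.dc 0 0 0 (.lf 3 112)))))))))))) (.dc 0 0 0
  (.dc 0 4 0 (.ct 1 6 1 1 1 (.dc 0 2 0 (.ct 0 6 1 1 1 (.dc 0 1 0 (.ct 3 6 1 1 1 (.dc 0 5 0 (.dc 0
  6 0 (.ct 2 5 1 1 1 (.dc 1 7 0 (.dc 2 7 0 (.ct 2 6 9 5 1 (.lf 4 160) (.lf 3 144)))) (.dc 1 7 1
  (.ct 2 4 1 1 1 (.dc 2 7 0 (.ct 2 6 3 4 1 (.lf 4 160) (.lf 3 160))) (.dc 2 7 1 (.lf 3 144)))))))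
  (.dc 0 5 1 (.ct 2 5 1 1 1 (.dc 1 7 0 (.dc 2 7 0 (.ct 0 3 1 1 1 (.dc 0 6 1 (.lf 3 144)) (.dc 0 6
  0 (.lf 3 144))))) (.dc 1 7 1 (.ct 0 3 1 1 1 (.dc 0 6 1 (.ct 2 4 1 1 1 (.dc 2 7 0 (.lf 3 144))
  (.dc 2 7 1 (.lf 3 160)))) (.dc 0 6 0 (.ct 2 4 1 1 1 (.dc 2 7 0 (.lf 3 144)) (.dc 2 7 1 (.lf 3
  160)))))))))) (.dc 0 5 1 (.ct 2 5 1 1 1 (.dc 1 7 0 (.dc 2 7 0 (.ct 0 2 1 1 1 (.dc 0 1 0 (.ct 3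
  6 1 1 1 (.dc 0 6 0 (.lf 3 128)) (.dc 0 6 1 (.lf 3 128)))) (.dc 0 1 1 (.ct 3 6 1 1 1 (.dc 0 6 0
  (.lf 4 144)) (.dc 0 6 1 (.lf 3 128))))))) (.dc 1 7 1 (.ct 0 5 1 1 1 (.dc 0 1 0 (.ct 3 6 1 1 1
  (.dc 0 6 0 (.ct 2 4 1 1 1 (.dc 2 7 0 (.lf 3 128)) (.dc 2 7 1 (.lf 3 128)))) (.dc 0 6 1 (.ct 2 4
  1 1 1 (.dc 2 7 0 (.lf 3 128)) (.dc 2 7 1 (.lf 3 128)))))) (.ct 3 6 1 1 1 (.dc 0 6 0 (.ct 0 2 1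
  1 1 (.dc 0 1 0 (.ct 0 4 1 1 1 (.ct 2 4 1 1 1 (.dc 2 7 0 (.lf 3 128)) (.dc 2 7 1 (.lf 3 128)))
  (.dc 2 7 1 (.lf 3 128)))) (.dc 0 1 1 (.ct 2 4 1 1 1 (.dc 2 7 0 (.lf 3 128)) (.dc 2 7 1 (.lf 3
  128)))))) (.dc 0 6 1 (.ct 0 2 1 1 1 (.dc 0 1 0 (.ct 0 4 1 1 1 (.ct 2 4 1 1 1 (.dc 2 7 0 (.lf 3
  128)) (.dc 2 7 1 (.lf 2 128))) (.dc 2 7 1 (.lf 2 128)))) (.dc 0 1 1 (.ct 2 4 1 1 1 (.dc 2 7 0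
  (.lf 3 128)) (.dc 2 7 1 (.lf 3 128))))))))))))) (.dc 0 5 1 (.dc 0 6 1 (.ct 1 2 1 1 1 (.dc 0 2 0
  (.ct 1 5 1 1 1 (.ct 2 5 1 1 1 (.dc 1 7 0 (.dc 2 7 0 (.ct 0 2 1 1 1 (.dc 0 1 0 (.lf 3 144)) (.dc
  0 1 1 (.lf 3 144))))) (.dc 1 7 1 (.ct 0 5 1 1 1 (.dc 0 1 0 (.ct 2 4 1 1 1 (.dc 2 7 0 (.lf 3
  144)) (.dc 2 7 1 (.lf 3 144)))) (.ct 0 2 1 1 1 (.dc 0 1 0 (.ct 0 4 1 1 1 (.ct 2 4 1 1 1 (.dc 2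
  7 0 (.lf 3 144)) (.dc 2 7 1 (.lf 2 144))) (.dc 2 7 1 (.ct 2 6 5 1 1 (.lf 3 144) (.lf 1 144)))))
  (.dc 0 1 1 (.ct 2 4 1 1 1 (.dc 2 7 0 (.lf 3 144)) (.dc 2 7 1 (.lf 3 144)))))))) (.dc 1 7 1 (.ct
  1 4 1 1 1 (.ct 0 2 1 1 1 (.dc 0 1 0 (.ct 0 4 1 1 1 (.ct 2 4 1 1 1 (.dc 2 7 0 (.lf 2 144)) (.dc
  2 7 1 (.lf 2 144))) (.dc 2 7 1 (.lf 2 144)))) (.dc 0 1 1 (.ct 2 4 1 1 1 (.dc 2 7 0 (.lf 3 144))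
  (.dc 2 7 1 (.lf 2 144))))) (.dc 2 7 1 (.ct 0 2 1 1 1 (.dc 0 1 0 (.ct 2 6 5 3 1 (.lf 3 144) (.lf
  1 144))) (.dc 0 1 1 (.lf 2 144)))))))) (.dc 0 1 1 (.dc 0 2 1 (.ct 2 5 1 1 1 (.dc 1 7 0 (.dc 2 7
  0 (.lf 3 128))) (.dc 1 7 1 (.ct 2 4 1 1 1 (.dc 2 7 0 (.lf 3 144)) (.dc 2 7 1 (.lf 3
  144)))))))))))))))))) (.dc 0 0 0 (.dc 0 4 0 (.ct 1 5 1 1 1 (.dc 1 3 0 (.dc 2 3 0 (.dc 3 3 0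
  (.dc 3 7 0 (.ct 3 6 1 1 1 (.dc 0 2 0 (.dc 0 6 0 (.ct 0 6 1 1 1 (.dc 0 1 0 (.dc 0 5 0 (.ct 2 5 1
  1 1 (.dc 1 7 0 (.dc 2 7 0 (.ct 2 6 9 5 1 (.lf 4 128) (.lf 3 128)))) (.dc 1 7 1 (.ct 2 4 1 1 1
  (.dc 2 7 0 (.ct 2 6 3 4 1 (.lf 4 144) (.lf 3 128))) (.dc 2 7 1 (.lf 3 128))))))) (.dc 0 5 1
  (.ct 2 5 1 1 1 (.dc 1 7 0 (.dc 2 7 0 (.ct 0 2 1 1 1 (.dc 0 1 0 (.lf 3 128)) (.dc 0 1 1 (.lf 4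
  128))))) (.dc 1 7 1 (.ct 0 5 1 1 1 (.dc 0 1 0 (.ct 2 4 1 1 1 (.dc 2 7 0 (.lf 3 128)) (.dc 2 7 1
  (.lf 3 128)))) (.ct 0 2 1 1 1 (.dc 0 1 0 (.ct 0 4 1 1 1 (.ct 2 4 1 1 1 (.dc 2 7 0 (.lf 3 128))
  (.dc 2 7 1 (.lf 3 128))) (.dc 2 7 1 (.lf 3 128)))) (.dc 0 1 1 (.ct 2 4 1 1 1 (.dc 2 7 0 (.lf 3
  128)) (.dc 2 7 1 (.lf 3 128)))))))))))) (.dc 0 5 1 (.dc 0 6 1 (.ct 2 3 1 1 1 (.dc 0 1 1 (.dc 0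
  2 1 (.ct 2 5 1 1 1 (.dc 1 7 0 (.dc 2 7 0 (.lf 3 144))) (.dc 1 7 1 (.ct 2 4 1 1 1 (.dc 2 7 0
  (.lf 3 144)) (.dc 2 7 1 (.lf 3 144))))))) (.dc 0 2 0 (.ct 3 5 1 1 1 (.ct 2 5 1 1 1 (.dc 1 7 0
  (.dc 2 7 0 (.ct 0 2 1 1 1 (.dc 0 1 0 (.lf 3 144)) (.dc 0 1 1 (.lf 3 144))))) (.dc 1 7 1 (.ct 0
  5 1 1 1 (.dc 0 1 0 (.ct 2 4 1 1 1 (.dc 2 7 0 (.lf 3 144)) (.dc 2 7 1 (.lf 3 144)))) (.ct 0 2 1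
  1 1 (.dc 0 1 0 (.ct 0 4 1 1 1 (.ct 2 4 1 1 1 (.dc 2 7 0 (.lf 3 144)) (.dc 2 7 1 (.lf 3 144)))
  (.dc 2 7 1 (.lf 3 144)))) (.dc 0 1 1 (.ct 2 4 1 1 1 (.dc 2 7 0 (.lf 3 144)) (.dc 2 7 1 (.lf 3
  144)))))))) (.dc 1 7 1 (.ct 3 4 1 1 1 (.ct 0 2 1 1 1 (.dc 0 1 0 (.ct 0 4 1 1 1 (.ct 2 4 1 1 1
  (.dc 2 7 0 (.lf 3 144)) (.dc 2 7 1 (.lf 3 144))) (.dc 2 7 1 (.lf 3 144)))) (.dc 0 1 1 (.ct 2 4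
  1 1 1 (.dc 2 7 0 (.lf 3 144)) (.dc 2 7 1 (.lf 3 144))))) (.dc 2 7 1 (.ct 0 2 1 1 1 (.dc 0 1 0
  (.lf 3 144)) (.dc 0 1 1 (.lf 3 144)))))))))))))))) (.dc 1 3 1 (.dc 1 7 1 (.ct 3 6 1 1 1 (.dc 0
  2 0 (.dc 0 6 0 (.ct 1 4 1 1 1 (.dc 2 3 0 (.dc 3 3 0 (.dc 3 7 0 (.ct 0 6 1 1 1 (.dc 0 1 0 (.dc 0
  5 0 (.ct 2 4 1 1 1 (.dc 2 7 0 (.ct 2 6 3 2 1 (.lf 4 144) (.lf 3 144))) (.dc 2 7 1 (.lf 3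
  128))))) (.dc 0 5 1 (.ct 0 2 1 1 1 (.dc 0 1 0 (.ct 0 4 1 1 1 (.ct 2 4 1 1 1 (.dc 2 7 0 (.lf 3
  128)) (.dc 2 7 1 (.lf 3 128))) (.dc 2 7 1 (.lf 3 128)))) (.dc 0 1 1 (.ct 2 4 1 1 1 (.dc 2 7 0
  (.lf 3 128)) (.dc 2 7 1 (.lf 3 128)))))))))) (.dc 2 3 1 (.dc 2 7 1 (.ct 0 6 1 1 1 (.dc 0 1 0
  (.dc 0 5 0 (.ct 1 5 1 1 1 (.dc 3 3 0 (.dc 3 7 0 (.ct 2 6 2 1 1 (.lf 4 144) (.lf 3 144)))) (.dc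
  3 7 1 (.ct 1 2 1 1 1 (.dc 3 3 0 (.lf 3 128)) (.dc 3 3 1 (.ct 2 6 9 4 1 (.lf 4 144) (.lf 3
  144)))))))) (.dc 0 5 1 (.ct 1 5 1 1 1 (.dc 3 3 0 (.dc 3 7 0 (.ct 0 2 1 1 1 (.dc 0 1 0 (.lf 3
  128)) (.dc 0 1 1 (.lf 3 128))))) (.dc 3 7 1 (.ct 0 2 1 1 1 (.dc 0 1 0 (.ct 0 1 1 1 1 (.ct 1 2 1
  1 1 (.dc 3 3 0 (.lf 3 128)) (.dc 3 3 1 (.lf 3 112))) (.dc 3 3 0 (.lf 3 128)))) (.dc 0 1 1 (.ct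
  1 2 1 1 1 (.dc 3 3 0 (.lf 3 112)) (.dc 3 3 1 (.lf 3 112)))))))))))))) (.dc 0 5 1 (.dc 0 6 1
  (.ct 1 4 1 1 1 (.dc 2 3 0 (.dc 3 3 0 (.dc 3 7 0 (.ct 2 3 1 1 1 (.dc 0 1 1 (.dc 0 2 1 (.ct 2 4 1
  1 1 (.dc 2 7 0 (.lf 3 112)) (.dc 2 7 1 (.lf 3 112))))) (.dc 0 2 0 (.ct 3 4 1 1 1 (.ct 0 2 1 1 1
  (.dc 0 1 0 (.ct 0 4 1 1 1 (.ct 2 4 1 1 1 (.dc 2 7 0 (.lf 3 128)) (.dc 2 7 1 (.ct 2 5 3 1 1 (.lf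
  3 128) (.lf 2 128)))) (.dc 2 7 1 (.ct 2 5 3 1 1 (.lf 3 128) (.lf 2 128))))) (.dc 0 1 1 (.ct 2 4
  1 1 1 (.dc 2 7 0 (.lf 3 112)) (.dc 2 7 1 (.lf 3 128))))) (.dc 2 7 1 (.ct 0 2 1 1 1 (.dc 0 1 0
  (.ct 2 5 3 1 1 (.lf 3 128) (.lf 2 128))) (.dc 0 1 1 (.lf 3 128)))))))))) (.dc 2 3 1 (.dc 2 7 1
  (.ct 1 5 1 1 1 (.dc 3 3 0 (.dc 3 7 0 (.ct 2 3 1 1 1 (.dc 0 1 1 (.dc 0 2 1 (.lf 3 128))) (.dc 0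
  2 0 (.ct 0 2 1 1 1 (.dc 0 1 0 (.lf 3 128)) (.dc 0 1 1 (.lf 3 128))))))) (.dc 3 7 1 (.ct 2 3 1 1
  1 (.dc 0 1 1 (.dc 0 2 1 (.ct 1 2 1 1 1 (.dc 3 3 0 (.lf 3 128)) (.dc 3 3 1 (.lf 3 128))))) (.dc
  0 2 0 (.ct 1 3 1 1 1 (.dc 3 3 0 (.ct 0 2 1 1 1 (.dc 0 1 0 (.lf 3 128)) (.dc 0 1 1 (.lf 3
  128)))) (.ct 0 2 1 1 1 (.dc 0 1 0 (.ct 0 1 1 1 1 (.ct 1 2 1 1 1 (.dc 3 3 0 (.lf 3 128)) (.dc 3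
  3 1 (.lf 3 128))) (.dc 3 3 0 (.lf 3 128)))) (.dc 0 1 1 (.ct 1 2 1 1 1 (.dc 3 3 0 (.lf 3 128))
  (.dc 3 3 1 (.lf 3 128)))))))))))))))))))))))))

theorem dt1 : le (run cls3 3 tr1 [[1, 0, 0, 1, 0, 0, 0], [1, 1, 0, 0, 0, 0, 0], [1, 1, 1, 1, 1,
  1, 0], [0, 0, 0, 1, 0, 0, 0], [0, 0, 0, 1, 1, 0, 0], [0, 0, 0, 2, 1, 1, 0], [0, 0, 0, 1, 1, 1,
  1]] 2004317952 0) 111660042564 = true := by decide +kernel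

end Pool.Agent.Work.MP_122e00_nt.Four.Cx

end

section

set_option autoImplicit false

set_option maxRecDepth 100000

/-!
# The certificate: data
-/

namespace Pool.Agent.Work.MP_122e00_nt.Four.Cx

open Sharp.Cx

/-- data -/
noncomputable def tr2 : Ct := (.dc 1 3 0 (.dc 2 3 0 (.dc 3 3 0 (.ct 2 6 1 1 1 (.dc 0 6 0 (.dc 3
  7 0 (.ct 0 6 1 1 1 (.dc 0 1 0 (.dc 0 3 0 (.dc 0 5 0 (.ct 5 6 1 1 1 (.dc 1 7 0 (.dc 2 7 0 (.ct 2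
  6 1 1 1 (.dc 0 7 0 (.lf 4 128)) (.dc 0 7 1 (.lf 4 128))))) (.dc 0 7 1 (.ct 0 5 1 1 1 (.ct 3 5 1
  2 1 (.dc 1 7 1 (.ct 4 5 1 1 1 (.dc 2 7 1 (.ct 1 5 1 3 1 (.ct 5 6 5 3 1 (.lf 3 144) (.ct 4 5 1 4
  1 (.lf 1 144) (.lf 2 160))) (.lf 3 144))) (.dc 2 7 0 (.lf 3 144)))) (.dc 1 7 0 (.dc 2 7 0 (.ct
  1 5 3 2 1 (.ct 3 5 6 1 1 (.lf 3 144) (.ct 2 3 9 4 1 (.lf 4 176) (.ct 2 5 27 4 1 (.lf 4 176)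
  (.lf 3 160)))) (.ct 1 4 1 9 1 (.ct 2 3 9 4 1 (.lf 4 176) (.lf 3 160)) (.lf 4 160)))))) (.dc 1 7
  0 (.dc 2 7 0 (.lf 4 128))))))))) (.dc 0 3 1 (.dc 0 7 1 (.ct 0 1 1 1 1 (.dc 0 1 0 (.dc 0 5 0
  (.ct 3 5 1 2 1 (.ct 5 6 1 1 1 (.dc 1 7 0 (.dc 2 7 0 (.ct 1 3 1 1 1 (.ct 3 6 2 3 1 (.lf 4 144)
  (.lf 3 128)) (.lf 4 112)))) (.dc 1 7 1 (.ct 4 5 1 1 1 (.dc 2 7 1 (.lf 3 112)) (.dc 2 7 0 (.ct 1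
  5 8 3 1 (.lf 3 112) (.ct 1 3 1 1 1 (.lf 3 112) (.lf 4 128))))))) (.dc 1 7 0 (.dc 2 7 0 (.lf 4
  128)))))) (.dc 0 5 1 (.ct 3 5 1 2 1 (.ct 0 2 1 1 1 (.dc 0 1 0 (.ct 5 6 1 1 1 (.dc 1 7 0 (.dc 2
  7 0 (.ct 3 6 2 3 1 (.lf 4 160) (.lf 3 144)))) (.dc 1 7 1 (.ct 4 5 1 1 1 (.dc 2 7 1 (.ct 1 5 3 8
  1 (.ct 4 5 3 8 1 (.lf 1 128) (.lf 2 144)) (.lf 3 144))) (.dc 2 7 0 (.ct 1 5 1 3 1 (.lf 2 160)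
  (.lf 3 160))))))) (.ct 5 6 1 1 1 (.dc 1 7 0 (.dc 2 7 0 (.ct 0 3 2 1 1 (.dc 0 1 0 (.lf 3 160))
  (.ct 0 5 1 1 1 (.dc 0 1 0 (.lf 4 176)) (.dc 0 1 1 (.lf 4 176)))))) (.dc 1 7 1 (.ct 0 3 2 1 1
  (.dc 0 1 0 (.ct 4 5 1 1 1 (.dc 2 7 1 (.ct 1 5 1 4 1 (.lf 2 176) (.lf 3 176))) (.dc 2 7 0 (.lf 3
  160)))) (.ct 0 6 1 1 1 (.dc 0 1 0 (.ct 4 5 1 1 1 (.dc 2 7 1 (.lf 3 176)) (.dc 2 7 0 (.lf 3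
  176)))) (.ct 0 5 1 1 1 (.dc 0 1 0 (.ct 0 4 1 1 1 (.ct 4 5 1 1 1 (.dc 2 7 1 (.ct 1 5 3 8 1 (.lf
  2 192) (.lf 3 192))) (.dc 2 7 0 (.lf 3 160))) (.dc 2 7 1 (.ct 1 5 1 4 1 (.lf 1 192) (.lf 3
  176))))) (.dc 0 1 1 (.ct 4 5 1 1 1 (.dc 2 7 1 (.lf 3 160)) (.dc 2 7 0 (.lf 3 160)))))))))) (.dc
  1 7 0 (.dc 2 7 0 (.ct 0 2 1 1 1 (.dc 0 1 0 (.ct 5 6 1 1 1 (.lf 4 128) (.ct 1 5 9 4 1 (.lf 3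
  144) (.lf 4 144)))) (.ct 0 5 2 1 1 (.dc 0 1 0 (.ct 5 6 1 1 1 (.lf 4 160) (.lf 3 160))) (.dc 0 1
  1 (.lf 4 160)))))))))))))) (.dc 0 3 1 (.dc 0 7 1 (.ct 2 3 2 1 1 (.dc 3 7 0 (.ct 0 1 1 1 1 (.dc
  0 1 0 (.ct 1 2 2 1 1 (.dc 0 5 1 (.ct 3 5 1 2 1 (.dc 1 7 1 (.ct 0 2 2 1 1 (.dc 0 6 1 (.ct 4 5 1
  1 1 (.dc 2 7 1 (.lf 1 192)) (.dc 2 7 0 (.lf 2 192)))) (.dc 0 6 0 (.ct 4 5 1 1 1 (.dc 2 7 1 (.ct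
  0 5 3 8 1 (.lf 2 160) (.lf 3 160))) (.dc 2 7 0 (.lf 3 160)))))) (.dc 1 7 0 (.dc 2 7 0 (.ct 0 2
  2 1 1 (.dc 0 6 1 (.ct 2 3 6 7 1 (.ct 3 5 3 1 2 (.lf 3 192) (.lf 4 192)) (.ct 2 4 3 7 1 (.lf 2
  192) (.lf 1 192)))) (.dc 0 6 0 (.ct 0 5 3 4 1 (.lf 3 176) (.lf 4 176)))))))) (.dc 0 5 0 (.dc 0
  6 0 (.ct 3 5 1 2 1 (.dc 1 7 1 (.ct 4 5 1 1 1 (.dc 2 7 1 (.ct 1 5 1 3 1 (.ct 0 5 3 8 1 (.ct 4 5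
  3 8 1 (.lf 1 144) (.lf 2 144)) (.lf 3 144)) (.lf 3 144))) (.dc 2 7 0 (.ct 1 5 8 3 1 (.lf 3 144)
  (.lf 4 160))))) (.dc 1 7 0 (.dc 2 7 0 (.lf 4 160)))))))) (.dc 0 5 1 (.ct 3 5 1 2 1 (.dc 1 7 1
  (.ct 0 3 2 1 1 (.dc 0 1 0 (.ct 1 2 2 1 1 (.dc 0 6 1 (.ct 4 5 1 1 1 (.dc 2 7 1 (.lf 1 176)) (.dc
  2 7 0 (.lf 2 192)))) (.dc 0 6 0 (.ct 4 5 1 1 1 (.dc 2 7 1 (.ct 1 5 3 8 1 (.lf 2 160) (.lf 3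
  160))) (.dc 2 7 0 (.lf 3 160)))))) (.ct 0 6 1 1 1 (.dc 0 1 0 (.ct 1 2 2 1 1 (.dc 0 6 1 (.ct 4 5
  1 1 1 (.dc 2 7 1 (.lf 1 176)) (.dc 2 7 0 (.ct 2 4 3 7 1 (.lf 2 176) (.lf 1 176))))) (.dc 0 6 0
  (.ct 4 5 1 1 1 (.dc 2 7 1 (.ct 1 5 3 8 1 (.lf 1 160) (.lf 3 160))) (.dc 2 7 0 (.ct 1 6 1 2 1
  (.lf 2 160) (.lf 3 160))))))) (.ct 1 2 2 1 1 (.dc 0 6 1 (.ct 0 5 1 1 1 (.dc 0 1 0 (.ct 0 4 1 1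
  1 (.ct 4 5 1 1 1 (.dc 2 7 1 (.lf 1 176)) (.dc 2 7 0 (.lf 2 176))) (.dc 2 7 1 (.lf 1 176))))
  (.dc 0 1 1 (.ct 4 5 1 1 1 (.dc 2 7 1 (.lf 1 176)) (.dc 2 7 0 (.lf 2 160)))))) (.dc 0 6 0 (.ct 0
  5 1 1 1 (.dc 0 1 0 (.ct 0 4 1 1 1 (.ct 4 5 1 1 1 (.dc 2 7 1 (.lf 2 160)) (.dc 2 7 0 (.lf 3
  160))) (.dc 2 7 1 (.ct 1 5 3 8 1 (.lf 1 160) (.lf 3 160))))) (.dc 0 1 1 (.ct 4 5 1 1 1 (.dc 2 7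
  1 (.lf 3 160)) (.dc 2 7 0 (.lf 3 160)))))))))) (.dc 1 7 0 (.dc 2 7 0 (.ct 0 5 2 1 1 (.dc 0 1 0
  (.ct 1 2 2 1 1 (.dc 0 6 1 (.ct 2 3 6 7 1 (.lf 3 192) (.ct 2 4 3 7 1 (.lf 2 192) (.lf 1 176))))
  (.dc 0 6 0 (.ct 1 5 9 4 1 (.lf 3 176) (.lf 4 176))))) (.ct 0 6 1 1 1 (.dc 0 1 0 (.ct 1 2 2 1 1
  (.dc 0 6 1 (.ct 2 3 3 7 2 (.lf 3 176) (.ct 2 4 3 7 1 (.lf 2 176) (.lf 1 176)))) (.dc 0 6 0 (.ct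
  1 5 11 8 1 (.lf 3 160) (.lf 4 160))))) (.dc 0 1 1 (.ct 1 2 2 1 1 (.dc 0 6 1 (.ct 2 3 6 7 1 (.lf
  3 176) (.ct 2 4 3 7 1 (.lf 2 192) (.lf 1 176)))) (.dc 0 6 0 (.lf 4 160)))))))))))) (.dc 1 7 1
  (.ct 0 1 1 1 1 (.dc 0 1 0 (.ct 1 3 2 1 1 (.dc 0 5 1 (.ct 2 4 1 1 1 (.dc 3 7 0 (.ct 0 2 1 1 1
  (.dc 0 6 1 (.ct 4 5 1 1 1 (.dc 2 7 1 (.lf 1 160)) (.dc 2 7 0 (.ct 3 4 3 7 1 (.lf 2 160) (.ct 3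
  5 2 7 1 (.lf 2 160) (.lf 1 160)))))) (.ct 0 3 2 1 1 (.dc 0 6 1 (.ct 4 5 1 1 1 (.dc 2 7 1 (.lf 1
  176)) (.dc 2 7 0 (.lf 2 176)))) (.dc 0 6 0 (.ct 4 5 1 1 1 (.dc 2 7 1 (.lf 2 176)) (.dc 2 7 0
  (.lf 3 176))))))) (.dc 2 7 1 (.dc 3 7 1 (.ct 0 2 1 1 1 (.dc 0 6 1 (.lf 1 160)) (.ct 0 3 2 1 1
  (.dc 0 6 1 (.lf 1 176)) (.ct 0 4 1 1 1 (.dc 0 6 1 (.lf 1 176)) (.dc 0 6 0 (.lf 2 176)))))))))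
  (.ct 1 2 1 1 1 (.dc 0 5 1 (.ct 1 4 1 1 1 (.ct 2 4 1 1 1 (.dc 3 7 0 (.ct 0 2 1 1 1 (.dc 0 6 1
  (.ct 4 5 1 1 1 (.dc 2 7 1 (.ct 4 5 3 8 1 (.lf 1 160) (.lf 2 176))) (.dc 2 7 0 (.lf 2 160))))
  (.dc 0 6 0 (.ct 4 5 1 1 1 (.dc 2 7 1 (.lf 2 160)) (.dc 2 7 0 (.ct 0 5 2 1 1 (.lf 2 160) (.lf 4
  160))))))) (.dc 2 7 1 (.dc 3 7 1 (.ct 0 2 1 1 1 (.dc 0 6 1 (.lf 1 128)) (.ct 0 4 1 1 1 (.dc 0 6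
  1 (.lf 1 160)) (.dc 0 6 0 (.lf 2 160))))))) (.dc 2 7 1 (.dc 3 7 1 (.ct 0 2 1 1 1 (.dc 0 6 1
  (.lf 1 144)) (.dc 0 6 0 (.ct 0 5 3 8 1 (.lf 1 160) (.lf 3 160)))))))) (.dc 0 5 0 (.dc 0 6 0
  (.ct 2 4 1 1 1 (.dc 3 7 0 (.ct 4 5 1 1 1 (.dc 2 7 1 (.ct 1 5 1 3 1 (.ct 0 5 3 4 1 (.lf 2 144)
  (.lf 3 144)) (.lf 3 144))) (.dc 2 7 0 (.ct 1 5 4 3 1 (.ct 0 5 2 1 1 (.ct 0 6 1 9 1 (.lf 2 160)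
  (.lf 3 160)) (.lf 4 144)) (.lf 4 144))))) (.dc 2 7 1 (.dc 3 7 1 (.ct 1 5 1 1 1 (.ct 0 5 1 4 1
  (.lf 1 160) (.lf 3 176)) (.lf 4 160)))))))))) (.dc 0 5 1 (.ct 2 4 1 1 1 (.dc 3 7 0 (.ct 0 6 1 1
  1 (.dc 0 1 0 (.ct 1 2 1 1 1 (.dc 0 6 1 (.ct 4 5 1 1 1 (.dc 2 7 1 (.lf 1 144)) (.dc 2 7 0 (.ct 3
  4 3 7 1 (.lf 2 144) (.lf 1 144))))) (.ct 1 3 2 1 1 (.dc 0 6 1 (.ct 4 5 1 1 1 (.dc 2 7 1 (.lf 1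
  144)) (.dc 2 7 0 (.lf 2 144)))) (.dc 0 6 0 (.ct 4 5 1 1 1 (.dc 2 7 1 (.lf 2 144)) (.dc 2 7 0
  (.ct 1 5 2 1 1 (.lf 2 144) (.lf 4 160)))))))) (.ct 1 2 1 1 1 (.dc 0 6 1 (.ct 0 5 1 1 1 (.dc 0 1
  0 (.ct 0 4 1 1 1 (.ct 4 5 1 1 1 (.dc 2 7 1 (.lf 1 144)) (.dc 2 7 0 (.lf 2 144))) (.dc 2 7 1
  (.lf 1 144)))) (.dc 0 1 1 (.ct 4 5 1 1 1 (.dc 2 7 1 (.lf 1 144)) (.dc 2 7 0 (.ct 3 4 3 7 1 (.lf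
  2 144) (.lf 1 144))))))) (.ct 1 3 2 1 1 (.dc 0 6 1 (.ct 0 5 1 1 1 (.dc 0 1 0 (.ct 0 4 1 1 1
  (.ct 4 5 1 1 1 (.dc 2 7 1 (.ct 3 4 4 7 1 (.lf 2 160) (.lf 1 144))) (.dc 2 7 0 (.lf 2 144)))
  (.dc 2 7 1 (.lf 1 144)))) (.dc 0 1 1 (.ct 4 5 1 1 1 (.dc 2 7 1 (.lf 1 144)) (.dc 2 7 0 (.lf 2
  128)))))) (.dc 0 6 0 (.ct 0 5 1 1 1 (.dc 0 1 0 (.ct 0 4 1 1 1 (.ct 4 5 1 1 1 (.dc 2 7 1 (.lf 2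
  144)) (.dc 2 7 0 (.lf 2 144))) (.dc 2 7 1 (.lf 2 144)))) (.dc 0 1 1 (.ct 4 5 1 1 1 (.dc 2 7 1
  (.lf 3 144)) (.dc 2 7 0 (.lf 3 144)))))))))) (.dc 2 7 1 (.dc 3 7 1 (.ct 1 2 1 1 1 (.dc 0 6 1
  (.ct 0 5 1 1 1 (.dc 0 1 0 (.lf 1 128)) (.ct 0 6 1 1 1 (.dc 0 1 0 (.lf 1 144)) (.dc 0 1 1 (.lf 1
  144))))) (.ct 0 5 1 1 1 (.dc 0 1 0 (.ct 1 3 2 1 1 (.dc 0 6 1 (.lf 1 144)) (.ct 1 4 1 1 1 (.dc 0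
  6 1 (.lf 1 144)) (.dc 0 6 0 (.ct 1 5 3 4 1 (.lf 1 144) (.lf 3 160)))))) (.ct 1 3 2 1 1 (.dc 0 6
  1 (.ct 0 6 1 1 1 (.dc 0 1 0 (.lf 1 144)) (.dc 0 1 1 (.lf 1 144)))) (.ct 0 6 1 1 1 (.dc 0 1 0
  (.ct 1 4 1 1 1 (.dc 0 6 1 (.lf 1 144)) (.dc 0 6 0 (.lf 2 144)))) (.dc 0 1 1 (.ct 1 4 1 1 1 (.dc
  0 6 1 (.lf 1 144)) (.dc 0 6 0 (.lf 3 144)))))))))))))))))))))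

theorem dt2 : le (run cls3 3 tr2 [[1, 0, 0, 1, 0, 0, 0], [1, 1, 0, 1, 1, 1, 1], [1, 1, 1, 1, 0,
  0, 0], [0, 0, 0, 3, 1, 1, 1], [0, 0, 0, 1, 1, 0, 0], [1, 1, 1, 1, 1, 1, 0], [0, 0, 0, 1, 1, 1,
  1]] 2004317973 0) 2038272069594 = true := by decide +kernel

/-- data -/
noncomputable def tr3 : Ct := (.dc 0 3 1 (.dc 0 7 1 (.ct 1 3 2 1 1 (.dc 1 3 0 (.dc 2 3 0 (.dc 3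
  3 0 (.ct 2 3 2 1 1 (.dc 3 7 0 (.ct 0 6 1 1 1 (.dc 0 1 0 (.ct 2 6 1 2 1 (.dc 0 5 0 (.dc 0 6 0
  (.ct 3 5 1 2 1 (.dc 1 7 1 (.ct 4 5 1 1 1 (.dc 2 7 1 (.lf 3 160)) (.dc 2 7 0 (.ct 5 6 3 2 1 (.lf
  4 176) (.lf 3 160))))) (.dc 1 7 0 (.dc 2 7 0 (.lf 4 176)))))) (.dc 0 5 1 (.ct 3 5 1 2 1 (.dc 1
  7 1 (.ct 0 2 2 1 1 (.dc 0 6 1 (.ct 4 5 1 1 1 (.dc 2 7 1 (.ct 1 2 7 5 2 (.lf 1 192) (.lf 3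
  192))) (.dc 2 7 0 (.ct 1 2 7 5 2 (.lf 2 192) (.lf 3 192))))) (.dc 0 6 0 (.ct 4 5 1 1 1 (.dc 2 7
  1 (.lf 3 160)) (.dc 2 7 0 (.lf 3 160)))))) (.dc 1 7 0 (.dc 2 7 0 (.ct 0 2 2 1 1 (.dc 0 6 1 (.ct
  2 3 9 7 2 (.ct 3 5 1 1 2 (.lf 3 176) (.lf 4 176)) (.ct 1 2 7 5 2 (.ct 2 4 3 7 1 (.lf 2 192)
  (.lf 1 192)) (.lf 3 176)))) (.dc 0 6 0 (.lf 4 176))))))))) (.dc 0 5 1 (.ct 3 5 1 2 1 (.dc 1 7 1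
  (.ct 0 3 2 1 1 (.dc 0 1 0 (.ct 2 6 1 2 1 (.dc 0 6 0 (.ct 4 5 1 1 1 (.dc 2 7 1 (.lf 3 160)) (.dc
  2 7 0 (.lf 3 160)))) (.dc 0 6 1 (.ct 4 5 1 1 1 (.dc 2 7 1 (.ct 1 2 7 5 2 (.lf 1 176) (.lf 3
  192))) (.dc 2 7 0 (.ct 1 2 7 5 2 (.lf 2 192) (.lf 3 192))))))) (.ct 2 6 1 2 1 (.dc 0 6 0 (.ct 0
  5 1 1 1 (.dc 0 1 0 (.ct 0 4 1 1 1 (.ct 4 5 1 1 1 (.dc 2 7 1 (.lf 3 160)) (.dc 2 7 0 (.lf 3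
  160))) (.dc 2 7 1 (.lf 3 160)))) (.dc 0 1 1 (.ct 4 5 1 1 1 (.dc 2 7 1 (.lf 3 160)) (.dc 2 7 0
  (.lf 3 160)))))) (.dc 0 6 1 (.ct 0 5 1 1 1 (.dc 0 1 0 (.ct 0 4 1 1 1 (.ct 4 5 1 1 1 (.dc 2 7 1
  (.ct 1 2 7 15 2 (.lf 1 176) (.lf 2 176))) (.dc 2 7 0 (.lf 2 176))) (.dc 2 7 1 (.ct 1 2 7 5 2
  (.lf 1 176) (.lf 2 176))))) (.dc 0 1 1 (.ct 4 5 1 1 1 (.dc 2 7 1 (.lf 2 176)) (.dc 2 7 0 (.lf 2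
  160))))))))) (.dc 1 7 0 (.dc 2 7 0 (.ct 0 5 2 1 1 (.dc 0 1 0 (.ct 2 6 1 2 1 (.dc 0 6 0 (.ct 5 6
  4 3 1 (.lf 4 176) (.lf 3 176))) (.dc 0 6 1 (.ct 2 3 9 7 2 (.lf 3 176) (.ct 1 2 7 5 2 (.ct 2 4 3
  7 1 (.lf 2 192) (.lf 1 176)) (.lf 3 176)))))) (.dc 0 1 1 (.ct 2 6 1 2 1 (.dc 0 6 0 (.lf 4 160))
  (.dc 0 6 1 (.ct 2 3 6 7 1 (.lf 4 176) (.lf 2 176)))))))))))) (.dc 1 7 1 (.ct 3 6 1 2 1 (.ct 0 6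
  1 1 1 (.dc 0 1 0 (.ct 2 6 1 1 1 (.dc 0 5 0 (.dc 0 6 0 (.ct 2 4 1 1 1 (.dc 3 7 0 (.ct 4 5 1 1 1
  (.dc 2 7 1 (.ct 5 6 1 2 1 (.lf 4 176) (.lf 3 160))) (.dc 2 7 0 (.ct 5 6 9 4 1 (.lf 4 176) (.lf
  3 176))))) (.dc 2 7 1 (.dc 3 7 1 (.ct 5 6 1 1 1 (.lf 4 160) (.lf 3 160))))))) (.dc 0 5 1 (.ct 4
  6 1 1 1 (.dc 2 7 1 (.dc 3 7 1 (.ct 0 2 1 1 1 (.dc 0 6 1 (.lf 1 144)) (.dc 0 6 0 (.lf 3 160)))))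
  (.ct 2 4 1 1 1 (.dc 3 7 0 (.ct 0 2 1 1 1 (.dc 0 6 1 (.ct 4 5 1 1 1 (.dc 2 7 1 (.lf 2 176)) (.dc
  2 7 0 (.lf 2 176)))) (.dc 0 6 0 (.ct 4 5 1 1 1 (.dc 2 7 1 (.lf 3 176)) (.dc 2 7 0 (.lf 3
  176)))))) (.dc 2 7 1 (.dc 3 7 1 (.ct 0 2 1 1 1 (.dc 0 6 1 (.lf 1 144)) (.ct 0 4 1 1 1 (.dc 0 6
  1 (.lf 2 176)) (.dc 0 6 0 (.lf 3 176))))))))))) (.dc 0 5 1 (.ct 2 4 1 1 1 (.dc 3 7 0 (.ct 0 3 2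
  1 1 (.dc 0 1 0 (.ct 2 6 1 1 1 (.dc 0 6 0 (.ct 4 5 1 1 1 (.dc 2 7 1 (.lf 3 176)) (.dc 2 7 0 (.lf
  3 176)))) (.dc 0 6 1 (.ct 4 5 1 1 1 (.dc 2 7 1 (.lf 2 176)) (.dc 2 7 0 (.lf 2 176)))))) (.ct 2
  6 1 1 1 (.dc 0 6 0 (.ct 0 5 1 1 1 (.dc 0 1 0 (.ct 0 4 1 1 1 (.ct 4 5 1 1 1 (.dc 2 7 1 (.ct 5 6
  4 1 1 (.lf 3 160) (.lf 2 160))) (.dc 2 7 0 (.lf 3 144))) (.dc 2 7 1 (.ct 5 6 4 1 1 (.lf 3 160)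
  (.lf 2 160))))) (.dc 0 1 1 (.ct 4 5 1 1 1 (.dc 2 7 1 (.lf 3 144)) (.dc 2 7 0 (.lf 3 144))))))
  (.dc 0 6 1 (.ct 0 5 1 1 1 (.dc 0 1 0 (.ct 0 4 1 1 1 (.ct 4 5 1 1 1 (.dc 2 7 1 (.lf 2 144)) (.dc
  2 7 0 (.lf 2 144))) (.dc 2 7 1 (.ct 1 5 3 10 1 (.lf 1 160) (.lf 2 160))))) (.dc 0 1 1 (.ct 4 5
  1 1 1 (.dc 2 7 1 (.lf 2 144)) (.dc 2 7 0 (.lf 2 128))))))))) (.dc 2 7 1 (.dc 3 7 1 (.ct 0 3 2 1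
  1 (.dc 0 1 0 (.ct 2 6 1 1 1 (.ct 4 6 1 1 1 (.dc 0 6 0 (.lf 3 176)) (.dc 0 6 1 (.lf 2 176)))
  (.dc 0 6 1 (.lf 1 144)))) (.ct 2 6 1 1 1 (.ct 0 5 1 1 1 (.dc 0 1 0 (.ct 4 6 1 1 1 (.dc 0 6 0
  (.lf 3 144)) (.dc 0 6 1 (.lf 1 144)))) (.dc 0 1 1 (.ct 4 6 1 1 1 (.dc 0 6 0 (.lf 3 144)) (.dc 0
  6 1 (.lf 2 144))))) (.dc 0 6 1 (.ct 0 5 1 1 1 (.dc 0 1 0 (.lf 1 128)) (.dc 0 1 1 (.lf 1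
  128))))))))))) (.dc 0 5 1 (.dc 0 6 1 (.ct 2 4 1 1 1 (.dc 3 7 0 (.ct 0 6 2 1 1 (.dc 0 1 0 (.ct 4
  5 1 1 1 (.dc 2 7 1 (.ct 1 3 7 5 2 (.lf 1 176) (.lf 2 176))) (.dc 2 7 0 (.lf 2 176)))) (.ct 0 5
  1 1 1 (.dc 0 1 0 (.ct 0 4 1 1 1 (.ct 4 5 1 1 1 (.dc 2 7 1 (.ct 1 3 7 5 2 (.lf 1 144) (.lf 2
  144))) (.dc 2 7 0 (.lf 2 144))) (.dc 2 7 1 (.lf 1 144)))) (.dc 0 1 1 (.ct 4 5 1 1 1 (.dc 2 7 1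
  (.lf 1 144)) (.dc 2 7 0 (.lf 2 128))))))) (.dc 2 7 1 (.dc 3 7 1 (.ct 0 5 1 1 1 (.dc 0 1 0 (.lf
  1 176)) (.ct 0 6 2 1 1 (.dc 0 1 0 (.lf 1 176)) (.dc 0 1 1 (.lf 1 144))))))))))))))) (.dc 1 3 1
  (.dc 1 7 1 (.ct 1 4 1 1 1 (.dc 2 3 0 (.dc 3 3 0 (.ct 0 6 1 1 1 (.dc 0 1 0 (.ct 2 6 1 1 1 (.dc 0
  5 0 (.dc 0 6 0 (.ct 2 4 1 1 1 (.dc 3 7 0 (.ct 4 5 1 1 1 (.dc 2 7 1 (.lf 3 128)) (.dc 2 7 0 (.ct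
  5 6 3 2 1 (.lf 4 144) (.lf 3 144))))) (.dc 2 7 1 (.dc 3 7 1 (.ct 5 6 1 1 1 (.lf 4 128) (.lf 3
  128))))))) (.dc 0 5 1 (.ct 4 6 1 1 1 (.dc 2 7 1 (.dc 3 7 1 (.ct 0 2 1 1 1 (.dc 0 6 1 (.ct 1 2 1
  1 1 (.lf 1 128) (.lf 2 128))) (.dc 0 6 0 (.ct 0 5 1 4 1 (.lf 2 144) (.lf 3 144)))))) (.ct 2 4 1
  1 1 (.dc 3 7 0 (.ct 0 2 1 1 1 (.dc 0 6 1 (.ct 4 5 1 1 1 (.dc 2 7 1 (.lf 2 144)) (.dc 2 7 0 (.lf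
  2 144)))) (.dc 0 6 0 (.ct 4 5 1 1 1 (.dc 2 7 1 (.ct 0 5 1 4 1 (.lf 2 160) (.lf 3 160))) (.dc 2
  7 0 (.lf 3 144)))))) (.dc 2 7 1 (.dc 3 7 1 (.ct 0 2 1 1 1 (.dc 0 6 1 (.ct 1 2 2 1 1 (.lf 1 112)
  (.lf 2 112))) (.ct 0 4 1 1 1 (.dc 0 6 1 (.lf 2 144)) (.dc 0 6 0 (.lf 3 144))))))))))) (.dc 0 5
  1 (.ct 2 4 1 1 1 (.dc 3 7 0 (.ct 2 6 1 1 1 (.dc 0 6 0 (.ct 0 5 1 1 1 (.dc 0 1 0 (.ct 0 4 1 1 1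
  (.ct 4 5 1 1 1 (.dc 2 7 1 (.ct 5 6 4 1 1 (.lf 3 144) (.lf 2 160))) (.dc 2 7 0 (.lf 3 128)))
  (.dc 2 7 1 (.ct 5 6 4 1 1 (.lf 3 144) (.lf 2 160))))) (.dc 0 1 1 (.ct 4 5 1 1 1 (.dc 2 7 1 (.lf
  3 128)) (.dc 2 7 0 (.lf 3 128)))))) (.dc 0 6 1 (.ct 0 5 1 1 1 (.dc 0 1 0 (.ct 0 4 1 1 1 (.ct 4
  5 1 1 1 (.dc 2 7 1 (.lf 2 144)) (.dc 2 7 0 (.lf 2 144))) (.dc 2 7 1 (.lf 2 144)))) (.dc 0 1 1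
  (.ct 4 5 1 1 1 (.dc 2 7 1 (.lf 2 144)) (.dc 2 7 0 (.lf 2 144)))))))) (.dc 2 7 1 (.dc 3 7 1 (.ct
  2 6 1 1 1 (.ct 0 5 1 1 1 (.dc 0 1 0 (.ct 4 6 1 1 1 (.dc 0 6 0 (.ct 5 6 4 1 1 (.lf 3 160) (.lf 2
  160))) (.dc 0 6 1 (.ct 1 4 1 2 1 (.lf 1 144) (.lf 2 160))))) (.dc 0 1 1 (.ct 4 6 1 1 1 (.dc 0 6
  0 (.lf 3 144)) (.dc 0 6 1 (.lf 2 144))))) (.dc 0 6 1 (.ct 0 5 1 1 1 (.dc 0 1 0 (.ct 1 2 2 1 1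
  (.lf 1 128) (.ct 1 4 1 2 1 (.lf 1 128) (.lf 2 128)))) (.dc 0 1 1 (.ct 1 2 2 1 1 (.lf 1 128)
  (.lf 2 128))))))))))))) (.dc 2 3 1 (.dc 2 7 1 (.dc 3 7 1 (.ct 0 6 1 1 1 (.dc 0 1 0 (.ct 2 6 1 1
  1 (.dc 0 5 0 (.dc 0 6 0 (.ct 1 5 1 1 1 (.dc 3 3 0 (.lf 3 128)) (.dc 3 3 1 (.ct 5 6 3 2 1 (.lf 4
  144) (.ct 0 5 1 1 1 (.lf 3 144) (.lf 4 144))))))) (.dc 0 5 1 (.ct 0 2 1 1 1 (.dc 0 6 1 (.ct 1 5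
  1 1 1 (.dc 3 3 0 (.ct 2 4 1 2 1 (.lf 2 128) (.lf 1 128))) (.dc 3 3 1 (.ct 2 4 1 1 1 (.lf 2 128)
  (.lf 1 128))))) (.dc 0 6 0 (.ct 1 5 1 1 1 (.dc 3 3 0 (.ct 0 5 3 8 1 (.lf 2 144) (.lf 3 144)))
  (.dc 3 3 1 (.ct 0 5 1 1 1 (.lf 3 128) (.lf 4 144))))))))) (.dc 0 5 1 (.ct 2 6 1 1 1 (.dc 0 6 0
  (.ct 0 5 1 1 1 (.dc 0 1 0 (.ct 0 1 1 1 1 (.ct 1 5 1 1 1 (.dc 3 3 0 (.ct 5 6 8 3 1 (.lf 3 144)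
  (.lf 2 144))) (.dc 3 3 1 (.lf 3 128))) (.dc 3 3 0 (.ct 5 6 8 3 1 (.lf 3 144) (.lf 2 144)))))
  (.dc 0 1 1 (.ct 1 5 1 1 1 (.dc 3 3 0 (.lf 3 128)) (.dc 3 3 1 (.lf 3 128)))))) (.dc 0 6 1 (.ct 0
  5 1 1 1 (.dc 0 1 0 (.ct 0 1 1 1 1 (.ct 1 5 1 1 1 (.dc 3 3 0 (.ct 2 4 1 2 1 (.lf 2 128) (.lf 1
  128))) (.dc 3 3 1 (.ct 2 4 1 1 1 (.lf 2 128) (.lf 1 128)))) (.dc 3 3 0 (.ct 2 4 1 2 1 (.lf 2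
  128) (.lf 1 128))))) (.dc 0 1 1 (.ct 1 5 1 1 1 (.dc 3 3 0 (.lf 1 128)) (.dc 3 3 1 (.lf 1
  112))))))))))))))))))

theorem dt3 : le (run cls3 3 tr3 [[1, 0, 0, 1, 0, 0, 0], [1, 1, 0, 0, 0, 0, 0], [1, 1, 1, 1, 0,
  0, 0], [0, 0, 0, 3, 1, 1, 1], [0, 0, 0, 1, 1, 0, 0], [1, 1, 1, 1, 1, 1, 0], [1, 1, 0, 1, 1, 1,
  1]] 2004317973 0) 517042465659 = true := by decide +kernel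

end Pool.Agent.Work.MP_122e00_nt.Four.Cx

end

section

set_option autoImplicit false

set_option maxRecDepth 100000

/-!
# The certificate: data
-/

namespace Pool.Agent.Work.MP_122e00_nt.Four.Cx

open Sharp.Cx

/-- data -/
noncomputable def tr4 : Ct := (.dc 0 3 1 (.dc 0 5 1 (.dc 0 6 1 (.dc 0 7 1 (.ct 1 3 1 2 1 (.dc 1
  3 0 (.dc 2 3 0 (.dc 3 3 0 (.ct 3 5 2 1 1 (.dc 0 0 0 (.dc 0 4 0 (.ct 2 6 2 1 1 (.dc 3 7 0 (.ct 1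
  5 1 1 1 (.dc 0 2 0 (.ct 1 6 2 1 1 (.ct 5 6 2 1 1 (.dc 1 7 0 (.dc 2 7 0 (.ct 0 5 2 1 1 (.dc 0 1
  0 (.ct 2 6 6 7 1 (.lf 3 192) (.ct 2 4 3 7 1 (.lf 2 192) (.lf 1 192)))) (.dc 0 1 1 (.ct 2 6 3 7
  2 (.lf 3 192) (.ct 2 4 3 7 1 (.lf 2 192) (.lf 1 176))))))) (.dc 1 7 1 (.ct 0 6 2 1 1 (.dc 0 1 0
  (.ct 4 5 1 1 1 (.dc 2 7 1 (.lf 1 192)) (.dc 2 7 0 (.lf 2 192)))) (.ct 0 5 1 1 1 (.dc 0 1 0 (.ct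
  0 4 1 1 1 (.ct 4 5 1 1 1 (.dc 2 7 1 (.ct 2 4 2 7 1 (.lf 2 208) (.lf 1 208))) (.dc 2 7 0 (.lf 2
  192))) (.dc 2 7 1 (.lf 1 208)))) (.dc 0 1 1 (.ct 4 5 1 1 1 (.dc 2 7 1 (.lf 1 192)) (.dc 2 7 0
  (.lf 2 192)))))))) (.dc 1 7 1 (.ct 1 4 1 1 1 (.ct 0 5 1 1 1 (.dc 0 1 0 (.ct 0 4 1 1 1 (.ct 4 5
  1 1 1 (.dc 2 7 1 (.ct 2 4 2 7 1 (.lf 2 176) (.lf 1 176))) (.dc 2 7 0 (.lf 2 176))) (.dc 2 7 1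
  (.lf 1 176)))) (.dc 0 1 1 (.ct 4 5 1 1 1 (.dc 2 7 1 (.lf 1 176)) (.dc 2 7 0 (.lf 2 176)))))
  (.dc 2 7 1 (.ct 0 5 1 1 1 (.dc 0 1 0 (.lf 1 176)) (.dc 0 1 1 (.lf 1 176)))))))) (.dc 0 1 1 (.dc
  0 2 1 (.ct 5 6 2 1 1 (.dc 1 7 0 (.dc 2 7 0 (.lf 2 160))) (.dc 1 7 1 (.ct 4 5 1 1 1 (.dc 2 7 1
  (.lf 1 176)) (.dc 2 7 0 (.lf 2 160))))))))) (.dc 1 7 1 (.ct 2 4 1 1 1 (.dc 3 7 0 (.ct 1 5 1 1 1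
  (.dc 0 2 0 (.ct 1 4 1 1 1 (.ct 0 5 1 1 1 (.dc 0 1 0 (.ct 0 4 1 1 1 (.ct 4 5 1 1 1 (.dc 2 7 1
  (.lf 1 144)) (.dc 2 7 0 (.ct 4 6 7 3 1 (.ct 5 6 7 4 1 (.lf 1 144) (.lf 2 160)) (.lf 2 144))))
  (.dc 2 7 1 (.lf 1 144)))) (.dc 0 1 1 (.ct 4 5 1 1 1 (.dc 2 7 1 (.lf 1 144)) (.dc 2 7 0 (.ct 4 6
  7 3 1 (.lf 1 144) (.lf 2 144)))))) (.dc 2 7 1 (.ct 0 5 1 1 1 (.dc 0 1 0 (.lf 1 144)) (.dc 0 1 1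
  (.lf 1 144)))))) (.dc 0 1 1 (.dc 0 2 1 (.ct 4 5 1 1 1 (.dc 2 7 1 (.lf 1 144)) (.dc 2 7 0 (.lf 2
  128))))))) (.dc 2 7 1 (.ct 1 5 1 1 1 (.dc 0 2 0 (.ct 0 5 1 1 1 (.dc 0 1 0 (.ct 2 3 1 1 1 (.dc 3
  7 0 (.lf 1 144)) (.dc 3 7 1 (.lf 1 144)))) (.dc 0 1 1 (.ct 2 3 1 1 1 (.dc 3 7 0 (.lf 1 144))
  (.dc 3 7 1 (.lf 1 144)))))) (.dc 0 1 1 (.dc 0 2 1 (.ct 2 3 1 1 1 (.dc 3 7 0 (.lf 1 144)) (.dc 3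
  7 1 (.lf 1 128)))))))))))) (.dc 0 1 1 (.dc 0 2 1 (.dc 0 4 1 (.ct 2 3 1 2 1 (.dc 1 7 0 (.dc 2 7
  0 (.dc 3 7 0 (.ct 3 5 2 1 1 (.dc 0 0 0 (.ct 2 4 1 1 1 (.lf 2 128) (.lf 1 128))) (.dc 0 0 1 (.ct
  2 4 1 1 1 (.ct 2 6 3 4 1 (.lf 3 128) (.lf 2 128)) (.ct 2 6 1 2 1 (.lf 2 144) (.lf 1 128))))))))
  (.dc 0 0 0 (.ct 2 6 2 1 1 (.dc 1 7 0 (.dc 2 7 0 (.dc 3 7 0 (.ct 3 4 2 3 1 (.lf 2 144) (.lf 1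
  144))))) (.dc 1 7 1 (.ct 2 4 1 1 1 (.dc 2 7 0 (.dc 3 7 0 (.ct 3 4 1 3 1 (.lf 2 128) (.lf 1
  128)))) (.dc 2 7 1 (.ct 2 5 1 1 1 (.dc 3 7 0 (.lf 1 128)) (.dc 3 7 1 (.lf 1 112))))))))))))))))
  (.dc 0 0 0 (.dc 0 4 0 (.ct 1 6 2 1 1 (.dc 1 3 0 (.dc 2 3 0 (.dc 3 3 0 (.ct 2 6 2 1 1 (.dc 3 7 0
  (.ct 3 5 1 1 1 (.dc 0 2 0 (.ct 3 6 2 1 1 (.ct 5 6 2 1 1 (.dc 1 7 0 (.dc 2 7 0 (.ct 0 5 2 1 1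
  (.dc 0 1 0 (.ct 2 6 9 7 2 (.lf 3 208) (.ct 1 2 7 5 2 (.ct 2 4 3 7 1 (.lf 2 224) (.lf 1 208))
  (.lf 3 208)))) (.dc 0 1 1 (.ct 2 6 9 7 2 (.lf 3 192) (.lf 2 192)))))) (.dc 1 7 1 (.ct 0 6 2 1 1
  (.dc 0 1 0 (.ct 4 5 1 1 1 (.dc 2 7 1 (.ct 1 2 7 10 1 (.lf 1 208) (.lf 2 224))) (.dc 2 7 0 (.ct
  1 2 7 5 2 (.lf 2 224) (.lf 3 224))))) (.ct 0 5 1 1 1 (.dc 0 1 0 (.ct 0 4 1 1 1 (.ct 4 5 1 1 1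
  (.dc 2 7 1 (.ct 1 2 7 15 2 (.lf 1 208) (.lf 2 208))) (.dc 2 7 0 (.lf 2 192))) (.dc 2 7 1 (.ct 1
  2 7 5 2 (.lf 1 208) (.lf 2 208))))) (.dc 0 1 1 (.ct 4 5 1 1 1 (.dc 2 7 1 (.lf 2 192)) (.dc 2 7
  0 (.lf 2 176)))))))) (.dc 1 7 1 (.ct 3 4 1 1 1 (.ct 0 5 1 1 1 (.dc 0 1 0 (.ct 0 4 1 1 1 (.ct 4
  5 1 1 1 (.dc 2 7 1 (.lf 2 176)) (.dc 2 7 0 (.lf 2 176))) (.dc 2 7 1 (.ct 1 2 7 5 2 (.lf 1 176)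
  (.lf 2 176))))) (.dc 0 1 1 (.ct 4 5 1 1 1 (.dc 2 7 1 (.lf 2 176)) (.dc 2 7 0 (.lf 2 176)))))
  (.dc 2 7 1 (.ct 0 5 1 1 1 (.dc 0 1 0 (.lf 1 176)) (.dc 0 1 1 (.lf 1 176)))))))) (.dc 0 1 1 (.dc
  0 2 1 (.ct 5 6 2 1 1 (.dc 1 7 0 (.dc 2 7 0 (.lf 2 176))) (.dc 1 7 1 (.ct 4 5 1 1 1 (.dc 2 7 1
  (.lf 2 176)) (.dc 2 7 0 (.lf 2 176))))))))) (.dc 1 7 1 (.ct 2 4 1 1 1 (.dc 3 7 0 (.ct 3 5 1 1 1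
  (.dc 0 2 0 (.ct 3 4 1 1 1 (.ct 0 5 1 1 1 (.dc 0 1 0 (.ct 0 4 1 1 1 (.ct 4 5 1 1 1 (.dc 2 7 1
  (.ct 1 6 7 10 1 (.lf 1 144) (.lf 2 144))) (.dc 2 7 0 (.lf 2 144))) (.dc 2 7 1 (.ct 1 6 21 5 2
  (.lf 1 144) (.lf 2 144))))) (.dc 0 1 1 (.ct 4 5 1 1 1 (.dc 2 7 1 (.ct 1 6 7 5 2 (.lf 1 144)
  (.lf 2 144))) (.dc 2 7 0 (.lf 2 144))))) (.dc 2 7 1 (.ct 0 5 1 1 1 (.dc 0 1 0 (.lf 1 144)) (.dc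
  0 1 1 (.lf 1 144)))))) (.dc 0 1 1 (.dc 0 2 1 (.ct 4 5 1 1 1 (.dc 2 7 1 (.lf 1 128)) (.dc 2 7 0
  (.lf 2 144))))))) (.dc 2 7 1 (.dc 3 7 1 (.ct 3 5 1 1 1 (.dc 0 2 0 (.ct 0 5 1 1 1 (.dc 0 1 0
  (.lf 1 144)) (.dc 0 1 1 (.lf 1 144)))) (.dc 0 1 1 (.dc 0 2 1 (.lf 1 128)))))))))))) (.dc 1 3 1
  (.dc 1 7 1 (.ct 1 4 1 1 1 (.dc 2 3 0 (.dc 3 3 0 (.ct 2 4 1 1 1 (.dc 3 7 0 (.ct 3 5 1 1 1 (.dc 0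
  2 0 (.ct 3 4 1 1 1 (.ct 0 5 1 1 1 (.dc 0 1 0 (.ct 0 4 1 1 1 (.ct 4 5 1 1 1 (.dc 2 7 1 (.lf 2
  128)) (.dc 2 7 0 (.lf 2 128))) (.dc 2 7 1 (.lf 2 128)))) (.dc 0 1 1 (.ct 4 5 1 1 1 (.dc 2 7 1
  (.lf 2 128)) (.dc 2 7 0 (.lf 2 112))))) (.dc 2 7 1 (.ct 0 5 1 1 1 (.dc 0 1 0 (.ct 1 2 1 2 1
  (.lf 1 128) (.lf 2 128))) (.dc 0 1 1 (.lf 2 128)))))) (.dc 0 1 1 (.dc 0 2 1 (.ct 4 5 1 1 1 (.dc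
  2 7 1 (.lf 2 112)) (.dc 2 7 0 (.lf 2 112))))))) (.dc 2 7 1 (.dc 3 7 1 (.ct 3 5 1 1 1 (.dc 0 2 0
  (.ct 0 5 1 1 1 (.dc 0 1 0 (.ct 1 2 2 1 1 (.lf 1 128) (.ct 1 4 1 2 1 (.lf 1 128) (.lf 2 128))))
  (.dc 0 1 1 (.ct 1 2 2 1 1 (.lf 1 128) (.lf 2 128))))) (.dc 0 1 1 (.dc 0 2 1 (.lf 1 112)))))))))
  (.dc 2 3 1 (.dc 2 7 1 (.dc 3 7 1 (.ct 3 5 1 1 1 (.dc 0 2 0 (.ct 1 3 1 1 1 (.dc 3 3 0 (.ct 0 5 1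
  1 1 (.dc 0 1 0 (.ct 2 4 1 2 1 (.lf 2 128) (.lf 1 128))) (.dc 0 1 1 (.lf 1 128)))) (.ct 0 5 1 1
  1 (.dc 0 1 0 (.ct 0 1 1 1 1 (.ct 1 5 1 1 1 (.dc 3 3 0 (.ct 2 4 1 2 1 (.lf 2 128) (.lf 1 128)))
  (.dc 3 3 1 (.ct 2 4 1 1 1 (.lf 2 128) (.lf 1 128)))) (.dc 3 3 0 (.ct 2 4 1 2 1 (.lf 2 128) (.lf
  1 128))))) (.dc 0 1 1 (.ct 1 5 1 1 1 (.dc 3 3 0 (.lf 1 128)) (.dc 3 3 1 (.lf 1 112))))))) (.dc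
  0 1 1 (.dc 0 2 1 (.ct 1 5 1 1 1 (.dc 3 3 0 (.lf 1 112)) (.dc 3 3 1 (.ct 2 4 1 1 1 (.lf 2 128)
  (.lf 1 128)))))))))))))))))))))

theorem dt4 : le (run cls3 3 tr4 [[1, 0, 0, 1, 0, 0, 0], [1, 1, 0, 0, 0, 0, 0], [1, 1, 1, 1, 0,
  0, 0], [0, 0, 0, 1, 0, 0, 0], [0, 0, 0, 1, 1, 0, 0], [1, 1, 1, 1, 1, 1, 0], [0, 0, 0, 3, 1, 1,
  1]] 2004317952 0) 135921490588 = true := by decide +kernel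

/-- data -/
noncomputable def tr5 : Ct := (.dc 1 3 0 (.dc 2 3 0 (.dc 3 3 0 (.ct 3 6 1 1 1 (.dc 0 6 0 (.ct 2
  6 1 2 1 (.dc 3 7 0 (.ct 0 6 1 1 1 (.dc 0 1 0 (.dc 0 3 0 (.dc 0 5 0 (.ct 5 6 1 1 1 (.dc 1 7 0
  (.dc 2 7 0 (.ct 3 6 1 1 1 (.dc 0 7 0 (.lf 4 128)) (.dc 0 7 1 (.lf 4 144))))) (.dc 0 7 1 (.ct 0
  5 1 1 1 (.dc 1 7 1 (.ct 4 5 1 1 1 (.dc 2 7 1 (.lf 3 144)) (.dc 2 7 0 (.ct 1 5 8 3 1 (.lf 3 144)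
  (.lf 4 144))))) (.dc 1 7 0 (.dc 2 7 0 (.lf 4 144))))))))) (.dc 0 7 1 (.ct 0 2 2 1 1 (.dc 0 1 0
  (.dc 0 3 0 (.dc 0 5 0 (.ct 5 6 1 1 1 (.dc 1 7 0 (.dc 2 7 0 (.lf 4 160))) (.dc 1 7 1 (.ct 4 5 1
  1 1 (.dc 2 7 1 (.ct 1 5 1 3 1 (.ct 5 6 1 1 1 (.lf 3 144) (.ct 4 5 3 8 1 (.lf 1 144) (.lf 2
  144))) (.lf 3 144))) (.dc 2 7 0 (.ct 1 5 4 3 1 (.lf 3 160) (.lf 4 160))))))))) (.dc 0 3 1 (.ct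
  0 1 1 1 1 (.dc 0 1 0 (.dc 0 5 0 (.ct 5 6 1 1 1 (.dc 1 7 0 (.dc 2 7 0 (.lf 4 144))) (.dc 1 7 1
  (.ct 4 5 1 1 1 (.dc 2 7 1 (.lf 3 128)) (.dc 2 7 0 (.ct 1 5 4 3 1 (.ct 0 5 2 1 1 (.lf 3 144)
  (.lf 4 144)) (.lf 4 144)))))))) (.dc 0 5 1 (.ct 0 2 2 1 1 (.dc 0 1 0 (.ct 5 6 1 1 1 (.dc 1 7 0
  (.dc 2 7 0 (.lf 4 176))) (.dc 1 7 1 (.ct 4 5 1 1 1 (.dc 2 7 1 (.ct 1 5 1 4 1 (.lf 2 176) (.lf 3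
  176))) (.dc 2 7 0 (.lf 3 160)))))) (.ct 5 6 1 1 1 (.dc 1 7 0 (.dc 2 7 0 (.ct 0 3 1 1 1 (.dc 0 1
  0 (.lf 4 160)) (.ct 0 5 1 1 1 (.dc 0 1 0 (.lf 4 176)) (.dc 0 1 1 (.lf 4 176)))))) (.dc 1 7 1
  (.ct 0 3 1 1 1 (.dc 0 1 0 (.ct 4 5 1 1 1 (.dc 2 7 1 (.ct 1 5 3 8 1 (.lf 2 160) (.lf 3 160)))
  (.dc 2 7 0 (.lf 3 160)))) (.ct 0 6 1 1 1 (.dc 0 1 0 (.ct 4 5 1 1 1 (.dc 2 7 1 (.lf 3 176)) (.dc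
  2 7 0 (.lf 3 176)))) (.ct 0 5 1 1 1 (.dc 0 1 0 (.ct 0 4 1 1 1 (.ct 4 5 1 1 1 (.dc 2 7 1 (.ct 1
  5 3 8 1 (.lf 2 192) (.lf 3 192))) (.dc 2 7 0 (.lf 3 160))) (.dc 2 7 1 (.ct 1 5 1 4 1 (.lf 1
  192) (.lf 3 176))))) (.dc 0 1 1 (.ct 4 5 1 1 1 (.dc 2 7 1 (.lf 3 160)) (.dc 2 7 0 (.lf 3
  160))))))))))))))))) (.dc 0 7 1 (.dc 1 7 1 (.ct 0 6 2 1 1 (.dc 0 1 0 (.dc 0 3 0 (.dc 0 5 0 (.ct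
  2 4 1 2 1 (.dc 3 7 0 (.ct 4 5 1 1 1 (.dc 2 7 1 (.ct 1 2 14 3 1 (.lf 2 176) (.ct 1 5 1 3 1 (.ct
  2 5 1 21 1 (.ct 4 5 1 4 1 (.lf 1 176) (.lf 2 192)) (.lf 3 176)) (.ct 1 4 8 3 1 (.lf 3 176) (.ct
  1 5 4 3 1 (.lf 3 192) (.lf 4 192)))))) (.dc 2 7 0 (.ct 1 2 7 3 1 (.lf 2 176) (.ct 1 5 4 3 1
  (.ct 1 5 1 18 1 (.ct 2 3 2 21 1 (.lf 2 192) (.lf 3 192)) (.ct 5 6 1 32 1 (.lf 4 208) (.lf 3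
  192))) (.lf 4 176)))))) (.dc 2 7 1 (.dc 3 7 1 (.ct 1 2 5 6 1 (.ct 0 2 10 11 1 (.ct 2 3 4 15 1
  (.ct 3 5 3 8 1 (.lf 0 192) (.lf 1 192)) (.lf 0 192)) (.lf 1 176)) (.ct 1 5 1 2 1 (.lf 1 176)
  (.ct 1 4 7 3 1 (.ct 1 2 5 14 3 (.ct 2 6 1 10 1 (.lf 2 208) (.lf 1 208)) (.ct 1 4 1 2 1 (.lf 2
  192) (.lf 3 192))) (.ct 1 5 3 2 1 (.lf 3 208) (.lf 4 208))))))))))) (.dc 0 3 1 (.ct 0 1 1 1 1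
  (.dc 0 1 0 (.dc 0 5 0 (.ct 2 4 1 2 1 (.dc 3 7 0 (.ct 4 5 1 1 1 (.dc 2 7 1 (.ct 1 2 7 3 1 (.ct 0
  2 21 4 1 (.lf 2 176) (.lf 3 176)) (.lf 3 160))) (.dc 2 7 0 (.ct 1 2 7 6 1 (.ct 0 2 7 2 1 (.lf 2
  176) (.ct 0 5 1 1 1 (.lf 3 176) (.lf 4 176))) (.ct 1 5 4 3 1 (.ct 0 5 2 1 1 (.ct 0 3 1 9 1 (.lf
  2 192) (.lf 3 192)) (.lf 4 176)) (.lf 4 176)))))) (.dc 2 7 1 (.dc 3 7 1 (.ct 1 2 5 3 1 (.ct 0 2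
  5 12 1 (.ct 2 6 11 10 1 (.lf 1 192) (.lf 0 176)) (.ct 0 2 20 1 1 (.lf 1 192) (.ct 0 4 7 2 1
  (.ct 0 5 1 42 1 (.lf 1 192) (.lf 2 192)) (.lf 3 192)))) (.ct 1 4 7 6 1 (.ct 0 4 7 2 1 (.lf 2
  192) (.lf 3 192)) (.ct 1 5 1 1 1 (.ct 0 5 1 4 1 (.lf 2 208) (.lf 3 208)) (.lf 4 192)))))))))
  (.dc 0 5 1 (.ct 0 3 1 1 1 (.dc 0 1 0 (.ct 2 4 1 2 1 (.dc 3 7 0 (.ct 4 5 1 1 1 (.dc 2 7 1 (.ct 1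
  5 1 4 1 (.ct 4 5 3 4 1 (.lf 1 192) (.lf 2 192)) (.ct 1 2 7 2 1 (.lf 2 192) (.lf 3 192)))) (.dc
  2 7 0 (.ct 1 2 7 2 1 (.lf 2 176) (.ct 1 5 1 1 1 (.lf 2 176) (.lf 4 192)))))) (.dc 2 7 1 (.dc 3
  7 1 (.ct 1 2 15 4 1 (.lf 1 192) (.lf 2 192)))))) (.ct 0 6 2 1 1 (.dc 0 1 0 (.ct 2 4 1 2 1 (.dc
  3 7 0 (.ct 4 5 1 1 1 (.dc 2 7 1 (.lf 2 208)) (.dc 2 7 0 (.ct 1 2 7 4 1 (.lf 2 208) (.ct 1 5 1 1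
  1 (.lf 3 208) (.lf 4 208)))))) (.dc 2 7 1 (.dc 3 7 1 (.ct 1 2 5 2 1 (.lf 1 192) (.ct 1 4 7 4 1
  (.lf 2 208) (.lf 3 208))))))) (.ct 2 4 1 2 1 (.dc 3 7 0 (.ct 0 2 2 1 1 (.dc 0 1 0 (.ct 4 5 1 1
  1 (.dc 2 7 1 (.lf 2 192)) (.dc 2 7 0 (.lf 2 192)))) (.ct 0 5 1 1 1 (.dc 0 1 0 (.ct 0 4 1 1 1
  (.ct 4 5 1 1 1 (.dc 2 7 1 (.lf 2 160)) (.dc 2 7 0 (.lf 2 160))) (.dc 2 7 1 (.ct 1 5 1 4 1 (.lf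
  1 176) (.lf 2 176))))) (.dc 0 1 1 (.ct 4 5 1 1 1 (.dc 2 7 1 (.lf 2 160)) (.dc 2 7 0 (.lf 2
  160))))))) (.dc 2 7 1 (.dc 3 7 1 (.ct 0 2 2 1 1 (.dc 0 1 0 (.lf 1 176)) (.ct 0 4 2 1 1 (.dc 0 1
  0 (.ct 1 2 7 4 1 (.lf 1 192) (.lf 2 192))) (.ct 0 5 1 1 1 (.dc 0 1 0 (.ct 1 2 7 2 1 (.lf 1 192)
  (.lf 2 192))) (.dc 0 1 1 (.ct 1 2 7 4 1 (.lf 1 192) (.lf 2 192))))))))))))))))))) (.dc 0 3 1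
  (.dc 0 7 1 (.dc 1 7 1 (.ct 0 1 1 1 1 (.dc 0 1 0 (.ct 2 4 1 2 1 (.ct 1 3 1 1 1 (.dc 0 5 1 (.ct 1
  4 1 1 1 (.ct 3 4 1 1 1 (.dc 3 7 0 (.ct 0 3 1 1 1 (.dc 0 6 1 (.ct 4 5 1 1 1 (.dc 2 7 1 (.ct 4 5
  3 8 1 (.lf 1 144) (.lf 2 144))) (.dc 2 7 0 (.lf 2 128)))) (.dc 0 6 0 (.ct 4 5 1 1 1 (.dc 2 7 1
  (.lf 2 128)) (.dc 2 7 0 (.lf 2 128)))))) (.dc 2 7 1 (.dc 3 7 1 (.ct 0 3 1 1 1 (.dc 0 6 1 (.lf 1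
  128)) (.ct 0 4 1 1 1 (.dc 0 6 1 (.lf 1 128)) (.dc 0 6 0 (.lf 2 128))))))) (.dc 2 7 1 (.dc 3 7 1
  (.ct 0 3 1 1 1 (.dc 0 6 1 (.lf 1 144)) (.dc 0 6 0 (.ct 0 5 3 8 1 (.lf 1 160) (.lf 2 160))))))))
  (.dc 0 5 0 (.dc 0 6 0 (.ct 3 4 1 1 1 (.dc 3 7 0 (.ct 4 5 1 1 1 (.dc 2 7 1 (.ct 1 2 7 3 1 (.lf 2
  128) (.ct 1 5 1 3 1 (.ct 0 5 3 4 1 (.lf 2 144) (.lf 3 144)) (.lf 3 128)))) (.dc 2 7 0 (.ct 1 2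
  7 3 1 (.ct 0 2 7 2 1 (.lf 2 128) (.ct 0 5 1 1 1 (.lf 3 144) (.lf 4 144))) (.ct 1 5 4 3 1 (.ct 0
  5 2 1 1 (.lf 3 144) (.lf 4 144)) (.lf 4 144)))))) (.dc 2 7 1 (.dc 3 7 1 (.ct 1 2 7 3 1 (.lf 2
  144) (.ct 1 5 1 1 1 (.ct 0 5 1 4 1 (.lf 2 160) (.lf 3 160)) (.lf 4 160))))))))) (.dc 2 7 1 (.dc
  3 7 1 (.ct 1 3 1 1 1 (.dc 0 5 1 (.ct 0 3 1 1 1 (.dc 0 6 1 (.ct 0 2 5 3 1 (.lf 0 144) (.ct 0 3 1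
  9 1 (.lf 0 160) (.lf 1 160)))) (.dc 0 6 0 (.ct 0 2 5 12 1 (.ct 2 3 6 5 1 (.lf 1 160) (.lf 0
  144)) (.ct 0 2 60 1 1 (.lf 1 176) (.lf 2 176)))))) (.dc 0 5 0 (.dc 0 6 0 (.ct 1 2 5 3 1 (.ct 0
  2 5 12 1 (.ct 2 6 4 15 1 (.lf 1 160) (.lf 0 144)) (.ct 0 2 40 1 3 (.lf 1 160) (.ct 0 5 1 4 1
  (.lf 1 160) (.ct 0 4 7 4 1 (.lf 2 160) (.lf 3 160))))) (.ct 1 4 7 3 1 (.ct 0 4 21 4 1 (.ct 1 5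
  1 42 1 (.ct 0 5 3 112 1 (.lf 1 160) (.lf 2 176)) (.lf 2 160)) (.lf 3 160)) (.ct 1 5 1 1 1 (.ct
  0 5 1 4 1 (.ct 4 5 1 14 1 (.lf 1 160) (.lf 3 160)) (.lf 3 160)) (.lf 4 160))))))))))) (.dc 0 5
  1 (.ct 2 4 1 2 1 (.ct 0 2 2 1 1 (.dc 0 1 0 (.ct 3 4 1 1 1 (.dc 3 7 0 (.ct 1 3 1 1 1 (.dc 0 6 1
  (.ct 4 5 1 1 1 (.dc 2 7 1 (.ct 4 5 3 4 1 (.lf 1 144) (.lf 2 144))) (.dc 2 7 0 (.lf 2 144))))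
  (.dc 0 6 0 (.ct 4 5 1 1 1 (.dc 2 7 1 (.lf 2 144)) (.dc 2 7 0 (.lf 2 144)))))) (.dc 2 7 1 (.dc 3
  7 1 (.ct 1 3 1 1 1 (.dc 0 6 1 (.lf 1 144)) (.ct 1 4 1 1 1 (.dc 0 6 1 (.lf 1 144)) (.dc 0 6 0
  (.ct 1 5 1 4 1 (.lf 1 160) (.lf 2 160))))))))) (.ct 3 4 1 1 1 (.dc 3 7 0 (.ct 0 6 1 1 1 (.dc 0
  1 0 (.ct 1 3 1 1 1 (.dc 0 6 1 (.ct 4 5 1 1 1 (.dc 2 7 1 (.lf 1 160)) (.dc 2 7 0 (.lf 2 160))))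
  (.dc 0 6 0 (.ct 4 5 1 1 1 (.dc 2 7 1 (.lf 2 160)) (.dc 2 7 0 (.lf 2 160)))))) (.ct 1 3 1 1 1
  (.dc 0 6 1 (.ct 0 5 1 1 1 (.dc 0 1 0 (.ct 0 4 1 1 1 (.ct 4 5 1 1 1 (.dc 2 7 1 (.ct 4 5 3 8 1
  (.lf 1 160) (.lf 2 160))) (.dc 2 7 0 (.lf 2 160))) (.dc 2 7 1 (.lf 1 160)))) (.dc 0 1 1 (.ct 4
  5 1 1 1 (.dc 2 7 1 (.lf 1 160)) (.dc 2 7 0 (.lf 2 144)))))) (.dc 0 6 0 (.ct 0 5 1 1 1 (.dc 0 1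
  0 (.ct 0 4 1 1 1 (.ct 4 5 1 1 1 (.dc 2 7 1 (.lf 2 160)) (.dc 2 7 0 (.lf 2 160))) (.dc 2 7 1
  (.lf 2 160)))) (.dc 0 1 1 (.ct 4 5 1 1 1 (.dc 2 7 1 (.lf 2 160)) (.dc 2 7 0 (.lf 2 160)))))))))
  (.dc 2 7 1 (.dc 3 7 1 (.ct 0 5 1 1 1 (.dc 0 1 0 (.ct 1 3 1 1 1 (.dc 0 6 1 (.lf 1 112)) (.ct 1 4
  1 1 1 (.dc 0 6 1 (.lf 1 144)) (.dc 0 6 0 (.ct 1 5 3 8 1 (.lf 1 144) (.lf 2 144)))))) (.ct 1 3 1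
  1 1 (.dc 0 6 1 (.ct 0 6 1 1 1 (.dc 0 1 0 (.lf 1 128)) (.dc 0 1 1 (.lf 1 128)))) (.ct 0 6 1 1 1
  (.dc 0 1 0 (.ct 1 4 1 1 1 (.dc 0 6 1 (.lf 1 160)) (.dc 0 6 0 (.lf 2 160)))) (.dc 0 1 1 (.ct 1 4
  1 1 1 (.dc 0 6 1 (.lf 1 160)) (.dc 0 6 0 (.lf 2 160))))))))))) (.dc 2 7 1 (.dc 3 7 1 (.ct 0 2 2
  1 1 (.dc 0 1 0 (.ct 1 3 1 1 1 (.dc 0 6 1 (.ct 1 2 5 2 1 (.lf 0 144) (.ct 1 3 1 6 1 (.ct 3 6 1 1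
  1 (.lf 1 160) (.lf 0 160)) (.lf 1 160)))) (.dc 0 6 0 (.ct 1 2 5 12 1 (.ct 2 3 3 5 1 (.lf 1 176)
  (.lf 0 160)) (.lf 1 160))))) (.ct 0 4 2 1 1 (.dc 0 1 0 (.ct 1 3 1 1 1 (.dc 0 6 1 (.ct 1 3 1 9 1
  (.ct 0 3 4 9 1 (.lf 0 144) (.lf 1 160)) (.lf 1 144))) (.dc 0 6 0 (.ct 1 2 7 2 1 (.lf 1 144)
  (.lf 2 144))))) (.ct 0 5 1 1 1 (.dc 0 1 0 (.ct 1 3 1 1 1 (.dc 0 6 1 (.lf 1 144)) (.dc 0 6 0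
  (.lf 1 144)))) (.ct 0 6 1 1 1 (.dc 0 1 0 (.ct 1 3 1 1 1 (.dc 0 6 1 (.lf 1 160)) (.dc 0 6 0 (.lf
  1 160)))) (.dc 0 1 1 (.ct 1 3 1 1 1 (.dc 0 6 1 (.lf 1 160)) (.dc 0 6 0 (.lf 1
  160))))))))))))))))))))

theorem dt5 : le (run cls3 3 tr5 [[1, 0, 0, 1, 0, 0, 0], [1, 1, 0, 1, 1, 1, 1], [2, 2, 2, 1, 1,
  1, 1], [1, 1, 1, 1, 0, 0, 0], [0, 0, 0, 1, 1, 0, 0], [1, 1, 1, 1, 1, 1, 0], [0, 0, 0, 1, 1, 1,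
  1]] 2004317973 0) 8140668942937 = true := by decide +kernel

end Pool.Agent.Work.MP_122e00_nt.Four.Cx

end

section

set_option autoImplicit false

set_option maxRecDepth 100000

/-!
# The certificate: data
-/

namespace Pool.Agent.Work.MP_122e00_nt.Four.Cx

open Sharp.Cx

/-- data -/
noncomputable def tr6 : Ct := (.dc 0 3 1 (.dc 0 7 1 (.dc 1 3 1 (.dc 1 7 1 (.ct 1 4 1 1 1 (.dc 2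
  3 0 (.dc 3 3 0 (.ct 0 6 1 1 1 (.dc 0 1 0 (.ct 2 4 1 2 1 (.ct 3 6 1 1 1 (.dc 0 5 0 (.dc 0 6 0
  (.ct 3 4 1 1 1 (.dc 3 7 0 (.ct 4 5 1 1 1 (.dc 2 7 1 (.ct 2 6 3 7 1 (.lf 3 128) (.lf 2 128)))
  (.dc 2 7 0 (.ct 2 6 6 7 1 (.ct 5 6 3 4 1 (.lf 4 160) (.lf 3 144)) (.ct 0 2 7 2 1 (.lf 2 144)
  (.lf 3 144)))))) (.dc 2 7 1 (.dc 3 7 1 (.ct 2 6 3 7 1 (.ct 5 6 1 1 1 (.lf 4 160) (.lf 3 144))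
  (.lf 2 144))))))) (.dc 0 5 1 (.ct 4 6 1 1 1 (.dc 2 7 1 (.dc 3 7 1 (.ct 0 3 1 1 1 (.dc 0 6 1
  (.ct 1 3 2 1 1 (.lf 1 128) (.lf 2 144))) (.dc 0 6 0 (.lf 2 144))))) (.ct 3 4 1 1 1 (.dc 3 7 0
  (.ct 0 3 1 1 1 (.dc 0 6 1 (.ct 4 5 1 1 1 (.dc 2 7 1 (.lf 2 128)) (.dc 2 7 0 (.lf 2 128)))) (.dc
  0 6 0 (.ct 4 5 1 1 1 (.dc 2 7 1 (.lf 2 128)) (.dc 2 7 0 (.lf 2 128)))))) (.dc 2 7 1 (.dc 3 7 1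
  (.ct 0 3 1 1 1 (.dc 0 6 1 (.ct 1 3 2 1 1 (.lf 1 112) (.lf 2 128))) (.ct 0 4 1 1 1 (.dc 0 6 1
  (.lf 2 128)) (.dc 0 6 0 (.lf 2 128)))))))))) (.dc 2 7 1 (.dc 3 7 1 (.ct 3 6 1 1 1 (.dc 0 5 0
  (.dc 0 6 0 (.ct 1 2 5 6 1 (.ct 0 2 5 8 1 (.ct 2 6 3 10 1 (.ct 0 6 1 20 1 (.lf 2 176) (.lf 1
  160)) (.lf 0 160)) (.ct 2 6 1 10 1 (.ct 1 6 3 80 1 (.lf 3 176) (.ct 0 1 10 3 1 (.lf 1 176) (.lf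
  2 192))) (.lf 1 160))) (.ct 2 6 3 80 1 (.ct 4 6 9 7 1 (.ct 5 6 1 1 1 (.lf 4 176) (.lf 3 176))
  (.lf 2 176)) (.lf 2 176))))) (.dc 0 5 1 (.ct 0 3 1 1 1 (.dc 0 6 1 (.ct 1 2 5 4 1 (.ct 0 2 5 2 1
  (.lf 0 144) (.ct 0 3 1 6 1 (.lf 0 160) (.lf 1 160))) (.ct 1 3 2 1 1 (.ct 0 3 1 9 1 (.ct 1 3 2 3
  1 (.lf 0 160) (.lf 1 160)) (.lf 1 144)) (.ct 1 5 1 2 1 (.lf 1 144) (.lf 2 160))))) (.dc 0 6 0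
  (.ct 1 2 5 4 1 (.ct 0 2 5 12 1 (.ct 2 3 3 5 1 (.lf 1 176) (.lf 0 160)) (.lf 1 160)) (.lf 2
  144)))))))))) (.dc 0 5 1 (.ct 2 4 1 2 1 (.ct 3 4 1 1 1 (.dc 3 7 0 (.ct 0 2 2 1 1 (.dc 0 1 0
  (.ct 3 6 1 1 1 (.dc 0 6 0 (.ct 4 5 1 1 1 (.dc 2 7 1 (.lf 2 144)) (.dc 2 7 0 (.lf 2 144)))) (.dc
  0 6 1 (.ct 4 5 1 1 1 (.dc 2 7 1 (.lf 2 144)) (.dc 2 7 0 (.lf 2 144)))))) (.ct 3 6 1 1 1 (.dc 0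
  6 0 (.ct 0 5 1 1 1 (.dc 0 1 0 (.ct 0 4 1 1 1 (.ct 4 5 1 1 1 (.dc 2 7 1 (.lf 2 160)) (.dc 2 7 0
  (.lf 2 160))) (.dc 2 7 1 (.lf 2 160)))) (.dc 0 1 1 (.ct 4 5 1 1 1 (.dc 2 7 1 (.lf 2 160)) (.dc
  2 7 0 (.lf 2 160)))))) (.dc 0 6 1 (.ct 0 5 1 1 1 (.dc 0 1 0 (.ct 0 4 1 1 1 (.ct 4 5 1 1 1 (.dc
  2 7 1 (.lf 2 160)) (.dc 2 7 0 (.lf 2 160))) (.dc 2 7 1 (.ct 1 3 1 2 1 (.lf 1 160) (.lf 2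
  176))))) (.dc 0 1 1 (.ct 4 5 1 1 1 (.dc 2 7 1 (.lf 2 160)) (.dc 2 7 0 (.lf 2 160))))))))) (.dc
  2 7 1 (.dc 3 7 1 (.ct 0 2 2 1 1 (.dc 0 1 0 (.ct 3 6 1 1 1 (.ct 4 6 1 1 1 (.dc 0 6 0 (.lf 2
  144)) (.dc 0 6 1 (.ct 1 4 1 2 1 (.lf 1 144) (.lf 2 144)))) (.dc 0 6 1 (.ct 1 3 2 1 1 (.lf 1
  128) (.ct 1 4 1 2 1 (.lf 1 144) (.lf 2 144)))))) (.ct 3 6 1 1 1 (.ct 0 5 1 1 1 (.dc 0 1 0 (.ct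
  4 6 1 1 1 (.dc 0 6 0 (.lf 2 144)) (.dc 0 6 1 (.ct 1 5 1 2 1 (.lf 1 144) (.lf 2 144))))) (.dc 0
  1 1 (.ct 4 6 1 1 1 (.dc 0 6 0 (.lf 2 144)) (.dc 0 6 1 (.lf 2 144))))) (.dc 0 6 1 (.ct 0 5 1 1 1
  (.dc 0 1 0 (.ct 1 3 3 1 1 (.lf 1 128) (.ct 1 5 1 2 1 (.lf 1 128) (.lf 2 128)))) (.dc 0 1 1 (.ct
  1 3 2 1 1 (.lf 1 112) (.lf 2 112)))))))))) (.dc 2 7 1 (.dc 3 7 1 (.ct 0 2 2 1 1 (.dc 0 1 0 (.ct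
  3 6 1 1 1 (.dc 0 6 0 (.ct 1 2 5 2 1 (.ct 2 6 12 5 1 (.ct 0 6 4 21 1 (.ct 2 6 1 10 3 (.lf 2 160)
  (.lf 1 160)) (.lf 1 160)) (.ct 2 3 3 5 1 (.lf 1 176) (.lf 0 160))) (.ct 0 1 6 7 1 (.lf 2 160)
  (.ct 0 6 4 7 1 (.lf 2 160) (.lf 1 144))))) (.dc 0 6 1 (.ct 1 2 5 2 1 (.ct 2 6 2 5 1 (.ct 3 6 6
  1 1 (.lf 1 160) (.lf 0 160)) (.lf 0 144)) (.ct 1 3 3 1 1 (.ct 1 3 1 12 1 (.ct 3 6 3 2 1 (.lf 1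
  176) (.lf 0 176)) (.lf 1 160)) (.ct 0 1 6 7 1 (.lf 2 160) (.lf 1 144))))))) (.ct 0 4 2 1 1 (.dc
  0 1 0 (.ct 3 6 1 1 1 (.dc 0 6 0 (.ct 1 2 7 6 1 (.ct 2 6 2 7 1 (.lf 2 144) (.lf 1 144)) (.lf 2
  144))) (.dc 0 6 1 (.ct 1 3 3 1 1 (.lf 1 144) (.ct 1 2 7 6 1 (.lf 1 144) (.lf 2 144)))))) (.ct 0
  5 1 1 1 (.dc 0 1 0 (.ct 3 6 1 1 1 (.dc 0 6 0 (.ct 1 2 7 4 1 (.lf 1 144) (.lf 2 144))) (.dc 0 6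
  1 (.lf 1 144)))) (.dc 0 1 1 (.ct 3 6 1 1 1 (.dc 0 6 0 (.lf 2 144)) (.dc 0 6 1 (.lf 1
  144)))))))))))))) (.dc 2 3 1 (.dc 2 7 1 (.dc 3 7 1 (.ct 0 6 1 1 1 (.dc 0 1 0 (.ct 3 6 1 1 1
  (.dc 0 5 0 (.dc 0 6 0 (.ct 1 5 1 1 1 (.dc 3 3 0 (.ct 2 6 6 5 1 (.ct 5 6 3 1 1 (.lf 3 144) (.ct
  4 5 1 2 1 (.lf 1 144) (.lf 2 144))) (.ct 2 4 4 5 1 (.ct 4 5 1 2 1 (.ct 0 5 1 4 1 (.lf 0 144)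
  (.lf 1 144)) (.lf 2 144)) (.ct 0 2 5 4 1 (.lf 0 128) (.lf 1 144))))) (.dc 3 3 1 (.ct 2 6 6 5 1
  (.ct 5 6 3 4 1 (.lf 4 144) (.ct 0 2 15 4 1 (.lf 2 160) (.ct 0 5 1 1 1 (.lf 3 144) (.lf 4
  144)))) (.ct 2 4 4 5 1 (.lf 2 144) (.ct 0 2 5 4 1 (.lf 0 128) (.ct 0 6 45 4 1 (.lf 1 144) (.lf
  2 144))))))))) (.dc 0 5 1 (.ct 0 3 1 1 1 (.dc 0 6 1 (.ct 1 5 1 1 1 (.dc 3 3 0 (.ct 2 4 2 5 1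
  (.ct 3 4 1 2 1 (.lf 2 128) (.ct 0 3 1 9 1 (.lf 0 128) (.lf 1 128))) (.ct 0 2 5 2 1 (.lf 0 128)
  (.ct 0 3 1 6 1 (.lf 0 128) (.lf 1 144))))) (.dc 3 3 1 (.ct 2 4 4 5 1 (.ct 3 4 1 2 1 (.lf 2 128)
  (.lf 1 128)) (.ct 0 2 5 2 1 (.lf 0 128) (.lf 1 128)))))) (.dc 0 6 0 (.ct 1 5 1 1 1 (.dc 3 3 0
  (.ct 2 4 2 5 1 (.lf 2 128) (.ct 0 2 5 12 1 (.lf 0 128) (.lf 1 144)))) (.dc 3 3 1 (.ct 2 4 4 5 1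
  (.ct 0 2 15 1 1 (.lf 2 144) (.lf 3 144)) (.ct 0 2 5 12 1 (.lf 0 128) (.lf 1 144)))))))))) (.dc
  0 5 1 (.ct 0 2 2 1 1 (.dc 0 1 0 (.ct 3 6 1 1 1 (.dc 0 6 0 (.ct 1 5 1 1 1 (.dc 3 3 0 (.ct 2 4 2
  5 1 (.ct 0 4 6 7 1 (.lf 2 160) (.lf 1 144)) (.ct 2 6 8 5 1 (.lf 1 144) (.ct 2 3 3 5 1 (.lf 1
  160) (.lf 0 144))))) (.dc 3 3 1 (.ct 2 4 2 5 1 (.lf 2 144) (.ct 2 6 12 5 1 (.ct 0 6 2 7 1 (.lf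
  2 160) (.lf 1 160)) (.ct 2 3 3 5 1 (.lf 1 176) (.lf 0 160))))))) (.dc 0 6 1 (.ct 1 5 1 1 1 (.dc
  3 3 0 (.ct 2 4 2 5 1 (.ct 3 4 3 1 1 (.ct 3 4 1 12 1 (.lf 2 176) (.lf 1 160)) (.ct 3 6 3 2 1
  (.lf 1 160) (.lf 0 160))) (.lf 0 128))) (.dc 3 3 1 (.ct 2 4 4 5 1 (.ct 3 4 3 1 1 (.ct 3 4 1 8 3
  (.ct 0 4 6 7 1 (.lf 2 160) (.lf 1 144)) (.lf 1 144)) (.ct 3 6 3 1 1 (.lf 1 144) (.lf 0 144)))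
  (.ct 2 6 2 5 1 (.ct 3 6 6 1 1 (.lf 1 160) (.lf 0 160)) (.lf 0 144)))))))) (.ct 3 6 1 1 1 (.dc 0
  6 0 (.ct 0 5 1 1 1 (.dc 0 1 0 (.ct 0 1 1 1 1 (.ct 1 5 1 1 1 (.dc 3 3 0 (.ct 2 4 4 7 1 (.lf 2
  144) (.lf 1 144))) (.dc 3 3 1 (.ct 2 4 6 7 1 (.lf 2 160) (.lf 1 144)))) (.dc 3 3 0 (.ct 2 4 4 7
  1 (.lf 2 144) (.lf 1 144))))) (.dc 0 1 1 (.ct 1 5 1 1 1 (.dc 3 3 0 (.lf 2 144)) (.dc 3 3 1 (.lf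
  2 144)))))) (.dc 0 6 1 (.ct 0 5 1 1 1 (.dc 0 1 0 (.ct 0 1 1 1 1 (.ct 1 5 1 1 1 (.dc 3 3 0 (.ct
  3 4 3 1 1 (.lf 1 144) (.ct 3 6 3 2 1 (.lf 1 160) (.lf 0 160)))) (.dc 3 3 1 (.ct 3 4 1 3 1 (.lf
  2 160) (.lf 1 144)))) (.dc 3 3 0 (.lf 1 144)))) (.dc 0 1 1 (.ct 1 5 1 1 1 (.dc 3 3 0 (.lf 1
  144)) (.dc 3 3 1 (.lf 1 128))))))))))))))))))

theorem dt6 : le (run cls3 3 tr6 [[1, 0, 0, 1, 0, 0, 0], [1, 1, 0, 0, 0, 0, 0], [2, 2, 2, 1, 1,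
  1, 1], [1, 1, 1, 1, 0, 0, 0], [0, 0, 0, 1, 1, 0, 0], [1, 1, 1, 1, 1, 1, 0], [1, 1, 0, 1, 1, 1,
  1]] 2004317973 0) 1198229168549 = true := by decide +kernel

/-- data -/
noncomputable def tr7 : Ct := (.dc 0 3 1 (.dc 0 5 1 (.dc 0 6 1 (.dc 0 7 1 (.dc 1 3 1 (.dc 1 5 1
  (.dc 1 7 1 (.ct 2 4 2 1 1 (.dc 2 5 0 (.dc 2 6 0 (.dc 3 5 0 (.dc 3 6 0 (.ct 1 4 1 1 1 (.dc 2 3 0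
  (.dc 3 3 0 (.ct 3 4 1 1 1 (.ct 4 6 2 1 1 (.dc 2 7 1 (.dc 3 7 1 (.ct 0 2 1 1 1 (.dc 0 1 0 (.dc 1
  6 1 (.ct 1 2 6 1 1 (.lf 0 144) (.ct 1 6 5 4 1 (.lf 0 144) (.ct 0 1 2 5 1 (.lf 2 160) (.lf 1
  160)))))) (.dc 1 6 0 (.ct 0 4 2 1 1 (.dc 0 1 0 (.ct 1 6 5 4 1 (.ct 0 6 5 3 2 (.lf 0 128) (.lf 1
  144)) (.ct 1 2 5 2 1 (.ct 0 2 5 27 1 (.lf 0 144) (.lf 1 160)) (.ct 1 5 1 2 1 (.lf 1 160) (.lf 2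
  176))))) (.ct 0 5 1 1 1 (.dc 0 1 0 (.ct 1 6 5 6 1 (.ct 4 6 5 3 2 (.lf 0 128) (.lf 1 144)) (.ct
  1 2 15 2 1 (.lf 1 144) (.lf 2 144)))) (.ct 0 6 2 1 1 (.dc 0 1 0 (.ct 1 6 5 6 1 (.ct 4 6 10 9 1
  (.lf 0 176) (.lf 1 176)) (.lf 1 160))) (.dc 0 1 1 (.lf 1 160))))))))) (.ct 0 2 1 1 1 (.dc 0 1 0
  (.dc 1 6 1 (.ct 0 4 1 2 1 (.ct 2 4 1 2 1 (.dc 3 7 0 (.ct 4 5 1 1 1 (.dc 2 7 1 (.lf 2 128)) (.dc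
  2 7 0 (.lf 2 128)))) (.dc 2 7 1 (.dc 3 7 1 (.ct 1 2 2 1 1 (.ct 0 2 8 7 1 (.lf 0 128) (.lf 1
  128)) (.lf 2 144))))) (.dc 2 7 1 (.dc 3 7 1 (.ct 1 2 2 1 1 (.lf 0 144) (.ct 0 1 2 5 1 (.lf 2
  160) (.lf 1 144)))))))) (.dc 1 6 0 (.ct 2 4 1 2 1 (.dc 3 7 0 (.ct 0 6 2 1 1 (.dc 0 1 0 (.ct 4 5
  1 1 1 (.dc 2 7 1 (.lf 2 144)) (.dc 2 7 0 (.lf 2 144)))) (.ct 0 5 1 1 1 (.dc 0 1 0 (.ct 0 4 1 1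
  1 (.ct 4 5 1 1 1 (.dc 2 7 1 (.lf 2 160)) (.dc 2 7 0 (.lf 2 160))) (.dc 2 7 1 (.ct 1 5 1 2 1
  (.lf 1 160) (.lf 2 176))))) (.dc 0 1 1 (.ct 4 5 1 1 1 (.dc 2 7 1 (.lf 2 160)) (.dc 2 7 0 (.lf 2
  160))))))) (.dc 2 7 1 (.dc 3 7 1 (.ct 0 5 1 1 1 (.dc 0 1 0 (.ct 1 2 5 1 1 (.lf 1 144) (.lf 2
  144))) (.ct 0 6 2 1 1 (.dc 0 1 0 (.ct 1 2 5 2 1 (.lf 1 160) (.lf 2 160))) (.dc 0 1 1 (.lf 1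
  160)))))))))) (.dc 2 7 1 (.dc 3 7 1 (.ct 0 2 1 1 1 (.dc 0 1 0 (.dc 1 6 1 (.lf 0 112))) (.dc 1 6
  0 (.ct 0 5 1 1 1 (.dc 0 1 0 (.ct 1 6 5 2 1 (.lf 0 112) (.ct 1 3 1 2 1 (.lf 0 112) (.lf 1
  128)))) (.ct 0 6 2 1 1 (.dc 0 1 0 (.ct 1 6 5 2 1 (.lf 0 128) (.ct 1 3 1 3 1 (.ct 3 5 1 1 1 (.lf
  1 144) (.lf 0 144)) (.lf 1 144)))) (.dc 0 1 1 (.lf 1 144))))))))))) (.dc 2 3 1 (.dc 2 7 1 (.dc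
  3 7 1 (.ct 0 2 1 1 1 (.dc 0 1 0 (.dc 1 6 1 (.ct 1 5 1 1 1 (.dc 3 3 0 (.lf 0 112)) (.dc 3 3 1
  (.lf 0 96))))) (.dc 1 6 0 (.ct 0 6 2 1 1 (.dc 0 1 0 (.ct 1 5 1 1 1 (.dc 3 3 0 (.ct 4 6 15 2 1
  (.lf 0 144) (.ct 3 4 2 1 1 (.lf 1 144) (.lf 0 144)))) (.dc 3 3 1 (.ct 4 6 5 1 1 (.lf 0 128)
  (.ct 3 4 3 1 1 (.lf 1 144) (.lf 0 144)))))) (.ct 0 5 1 1 1 (.dc 0 1 0 (.ct 0 1 1 1 1 (.ct 1 5 1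
  1 1 (.dc 3 3 0 (.ct 3 4 1 1 1 (.lf 1 144) (.lf 0 128))) (.dc 3 3 1 (.ct 3 4 2 1 1 (.lf 1 144)
  (.lf 0 128)))) (.dc 3 3 0 (.ct 3 4 2 1 1 (.lf 1 144) (.lf 0 128))))) (.dc 0 1 1 (.ct 1 5 1 1 1
  (.dc 3 3 0 (.lf 1 128)) (.dc 3 3 1 (.lf 1 128)))))))))))))))) (.dc 2 3 1 (.dc 2 5 1 (.dc 2 7 1
  (.dc 3 7 1 (.ct 0 2 1 2 1 (.dc 0 1 0 (.dc 1 6 1 (.dc 2 6 1 (.ct 2 5 2 1 1 (.dc 3 6 0 (.ct 0 5 1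
  1 1 (.dc 3 5 0 (.ct 1 5 1 1 1 (.dc 3 3 0 (.lf 0 128)) (.dc 3 3 1 (.lf 0 128)))) (.dc 3 3 1 (.dc
  3 5 1 (.lf 0 128))))) (.dc 3 3 1 (.dc 3 5 1 (.dc 3 6 1 (.lf 0 112)))))))) (.dc 2 6 0 (.dc 3 6 0
  (.ct 0 4 1 1 1 (.dc 0 1 0 (.dc 1 6 1 (.ct 2 5 1 1 1 (.dc 3 5 0 (.ct 1 5 1 1 1 (.dc 3 3 0 (.lf 0
  128)) (.dc 3 3 1 (.lf 0 128)))) (.dc 3 3 1 (.dc 3 5 1 (.lf 0 128)))))) (.dc 1 6 0 (.ct 2 5 1 1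
  1 (.dc 3 5 0 (.ct 0 2 1 1 1 (.dc 0 1 0 (.ct 1 5 1 1 1 (.dc 3 3 0 (.lf 0 144)) (.dc 3 3 1 (.lf 0
  128)))) (.ct 0 6 2 1 1 (.dc 0 1 0 (.ct 1 5 1 1 1 (.dc 3 3 0 (.lf 0 144)) (.dc 3 3 1 (.lf 0
  128)))) (.ct 0 5 1 1 1 (.dc 0 1 0 (.ct 0 1 1 1 1 (.ct 1 5 1 1 1 (.dc 3 3 0 (.lf 0 144)) (.dc 3
  3 1 (.lf 0 128))) (.dc 3 3 0 (.lf 0 144)))) (.dc 0 1 1 (.ct 1 5 1 1 1 (.dc 3 3 0 (.lf 1 144))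
  (.dc 3 3 1 (.ct 0 3 2 3 1 (.lf 0 128) (.lf 1 144))))))))) (.dc 3 3 1 (.dc 3 5 1 (.ct 0 5 1 1 1
  (.dc 0 1 0 (.lf 0 128)) (.ct 0 6 2 1 1 (.dc 0 1 0 (.lf 0 128)) (.dc 0 1 1 (.ct 0 2 4 1 1 (.lf 0
  128) (.ct 0 3 2 3 1 (.lf 0 128) (.lf 1 144))))))))))))))))))))))))))

theorem dt7 : le (run cls3 3 tr7 [[1, 0, 0, 1, 0, 0, 0], [1, 1, 0, 0, 0, 0, 0], [1, 1, 1, 0, 0,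
  0, 0], [1, 1, 1, 1, 0, 0, 0], [0, 0, 0, 1, 1, 0, 0], [1, 1, 1, 1, 1, 1, 0], [2, 2, 2, 1, 1, 1,
  1]] 387389205 0) 446529061586 = true := by decide +kernel

/-- data -/
noncomputable def tr8 : Ct := (.dc 0 6 0 (.dc 1 5 0 (.dc 1 6 0 (.dc 2 5 0 (.dc 2 6 0 (.dc 3 5 0
  (.dc 3 6 0 (.ct 1 6 1 1 1 (.dc 1 3 0 (.dc 2 3 0 (.dc 3 3 0 (.dc 3 7 0 (.ct 3 5 1 2 1 (.dc 0 1 0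
  (.dc 0 3 0 (.dc 0 5 0 (.ct 2 5 1 2 1 (.dc 0 7 0 (.dc 1 7 0 (.dc 2 7 0 (.lf 4 112)))) (.ct 2 6 1
  1 1 (.dc 0 7 0 (.dc 1 7 0 (.dc 2 7 0 (.lf 4 128)))) (.dc 0 7 1 (.ct 2 3 1 1 1 (.dc 1 7 0 (.dc 2
  7 0 (.ct 0 5 2 1 1 (.ct 1 5 4 1 1 (.lf 3 160) (.ct 1 2 7 9 1 (.lf 3 160) (.lf 4 160))) (.lf 4
  160)))) (.dc 1 7 1 (.ct 2 4 1 1 1 (.dc 2 7 0 (.ct 0 2 8 3 1 (.lf 3 160) (.ct 0 5 1 1 1 (.lf 3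
  160) (.lf 4 160)))) (.dc 2 7 1 (.lf 3 144))))))))))) (.ct 3 6 1 1 1 (.dc 0 1 0 (.dc 0 3 0 (.dc
  0 5 0 (.ct 2 6 1 1 1 (.dc 0 7 0 (.dc 1 7 0 (.dc 2 7 0 (.lf 4 128)))) (.dc 0 7 1 (.ct 2 3 1 1 1
  (.dc 1 7 0 (.dc 2 7 0 (.lf 4 128))) (.ct 2 5 1 1 1 (.dc 1 7 0 (.dc 2 7 0 (.ct 0 2 7 9 1 (.ct 1
  2 7 3 1 (.lf 3 144) (.lf 4 160)) (.lf 4 160)))) (.dc 1 7 1 (.ct 2 4 1 1 1 (.dc 2 7 0 (.ct 0 2 4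
  3 1 (.ct 1 2 4 1 1 (.lf 3 160) (.ct 1 5 7 6 1 (.lf 3 176) (.lf 4 176))) (.ct 0 5 7 9 1 (.ct 1 5
  7 3 1 (.lf 3 160) (.lf 4 160)) (.lf 4 160)))) (.dc 2 7 1 (.lf 3 144))))))))))) (.dc 0 3 1 (.dc
  0 7 1 (.ct 2 5 1 1 1 (.dc 1 7 0 (.dc 2 7 0 (.ct 1 3 1 1 1 (.dc 0 5 1 (.ct 2 3 1 1 1 (.dc 0 1 1
  (.lf 4 128)) (.dc 0 1 0 (.lf 4 144)))) (.dc 0 1 0 (.dc 0 5 0 (.lf 4 128)))))) (.ct 1 3 1 1 1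
  (.dc 0 5 1 (.ct 2 6 1 1 1 (.dc 1 7 0 (.dc 2 7 0 (.ct 2 3 1 1 1 (.ct 3 5 1 1 1 (.dc 0 1 0 (.lf 4
  144)) (.dc 0 1 1 (.lf 4 144))) (.dc 0 1 0 (.lf 4 128))))) (.dc 1 7 1 (.ct 3 5 1 1 1 (.dc 0 1 0
  (.ct 2 4 1 1 1 (.dc 2 7 0 (.lf 3 144)) (.dc 2 7 1 (.lf 3 144)))) (.ct 3 6 1 1 1 (.dc 0 1 0 (.ct
  2 4 1 1 1 (.dc 2 7 0 (.ct 0 2 4 3 1 (.lf 3 144) (.lf 4 144))) (.dc 2 7 1 (.lf 3 144)))) (.ct 2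
  3 1 1 1 (.dc 0 1 1 (.ct 2 4 1 1 1 (.dc 2 7 0 (.lf 3 160)) (.dc 2 7 1 (.lf 3 160)))) (.dc 0 1 0
  (.ct 2 4 1 1 1 (.ct 3 4 1 1 1 (.dc 2 7 0 (.lf 3 160)) (.dc 2 7 1 (.lf 3 160))) (.dc 2 7 1 (.lf
  3 144)))))))))) (.dc 0 1 0 (.dc 0 5 0 (.ct 2 6 1 1 1 (.dc 1 7 0 (.dc 2 7 0 (.lf 4 128))) (.dc 1
  7 1 (.ct 2 4 1 1 1 (.dc 2 7 0 (.ct 0 2 2 3 1 (.ct 1 2 8 3 1 (.lf 3 144) (.lf 4 144)) (.lf 4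
  144))) (.dc 2 7 1 (.lf 3 128))))))))))))))))) (.ct 1 5 1 2 1 (.dc 1 3 0 (.dc 2 3 0 (.dc 3 3 0
  (.dc 3 7 0 (.ct 3 5 1 2 1 (.dc 0 1 0 (.dc 0 3 0 (.dc 0 5 0 (.ct 2 5 1 2 1 (.dc 0 7 0 (.dc 1 7 0
  (.dc 2 7 0 (.ct 0 2 2 3 1 (.ct 2 6 1 2 1 (.lf 4 128) (.lf 3 112)) (.lf 4 128))))) (.dc 0 7 1
  (.ct 2 3 1 1 1 (.dc 1 7 0 (.dc 2 7 0 (.ct 0 5 1 1 1 (.lf 3 144) (.lf 4 144)))) (.dc 1 7 1 (.ct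
  2 4 1 1 1 (.dc 2 7 0 (.ct 0 2 8 3 1 (.lf 3 144) (.lf 4 144))) (.dc 2 7 1 (.lf 3 128))))))))))
  (.dc 0 3 1 (.dc 0 7 1 (.ct 1 3 1 1 1 (.ct 3 6 1 1 1 (.dc 0 1 0 (.dc 0 5 0 (.ct 2 5 1 1 1 (.dc 1
  7 0 (.dc 2 7 0 (.lf 4 160))) (.dc 1 7 1 (.ct 2 4 1 1 1 (.dc 2 7 0 (.ct 0 2 2 3 1 (.lf 3 160)
  (.lf 4 160))) (.dc 2 7 1 (.lf 3 144))))))) (.dc 0 5 1 (.ct 2 5 1 1 1 (.dc 1 7 0 (.dc 2 7 0 (.ct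
  2 3 1 1 1 (.dc 0 1 1 (.lf 4 144)) (.dc 0 1 0 (.lf 4 160))))) (.dc 1 7 1 (.ct 3 5 1 1 1 (.dc 0 1
  0 (.ct 2 4 1 1 1 (.dc 2 7 0 (.lf 3 160)) (.dc 2 7 1 (.lf 3 160)))) (.ct 2 3 1 1 1 (.dc 0 1 1
  (.ct 2 4 1 1 1 (.dc 2 7 0 (.lf 3 128)) (.dc 2 7 1 (.lf 3 128)))) (.dc 0 1 0 (.ct 2 4 1 1 1 (.ct
  3 4 1 1 1 (.dc 2 7 0 (.lf 3 128)) (.dc 2 7 1 (.lf 3 128))) (.dc 2 7 1 (.lf 3 128)))))))))) (.dc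
  0 1 0 (.dc 0 5 0 (.ct 2 5 1 1 1 (.dc 1 7 0 (.dc 2 7 0 (.lf 4 160))) (.dc 1 7 1 (.ct 2 4 1 1 1
  (.dc 2 7 0 (.ct 0 2 4 3 1 (.lf 3 160) (.lf 4 160))) (.dc 2 7 1 (.lf 3 144))))))))))))))) (.dc 0
  3 1 (.dc 0 7 1 (.dc 1 3 1 (.dc 1 7 1 (.ct 1 4 1 1 1 (.dc 2 3 0 (.dc 3 3 0 (.dc 3 7 0 (.ct 3 5 1
  1 1 (.dc 0 1 0 (.dc 0 5 0 (.ct 2 4 1 1 1 (.dc 2 7 0 (.ct 0 2 2 3 1 (.lf 3 144) (.lf 4 144)))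
  (.dc 2 7 1 (.lf 3 128))))) (.ct 3 6 1 1 1 (.dc 0 1 0 (.dc 0 5 0 (.ct 2 4 1 1 1 (.dc 2 7 0 (.ct
  0 2 4 9 1 (.ct 2 6 3 4 1 (.lf 4 144) (.lf 3 144)) (.lf 4 144))) (.dc 2 7 1 (.ct 0 2 2 1 1 (.lf
  3 144) (.ct 0 4 4 9 1 (.lf 3 160) (.lf 4 160))))))) (.dc 0 5 1 (.ct 2 3 1 1 1 (.dc 0 1 1 (.ct 2
  4 1 1 1 (.dc 2 7 0 (.ct 0 2 5 9 1 (.lf 3 128) (.lf 4 128))) (.dc 2 7 1 (.lf 3 128)))) (.dc 0 1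
  0 (.ct 2 4 1 1 1 (.ct 3 4 1 1 1 (.dc 2 7 0 (.lf 3 128)) (.dc 2 7 1 (.lf 3 128))) (.dc 2 7 1
  (.lf 3 128))))))))))) (.dc 2 3 1 (.dc 2 7 1 (.ct 3 6 1 1 1 (.dc 0 1 0 (.dc 0 5 0 (.ct 1 5 2 1 1
  (.dc 3 3 0 (.dc 3 7 0 (.ct 0 2 1 2 1 (.lf 3 112) (.lf 4 128)))) (.dc 3 7 1 (.ct 1 2 1 1 1 (.dc
  3 3 0 (.lf 3 112)) (.dc 3 3 1 (.ct 0 2 4 9 1 (.ct 2 6 3 4 1 (.lf 4 128) (.lf 3 128)) (.lf 4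
  128)))))))) (.ct 3 5 1 1 1 (.dc 0 1 0 (.dc 0 5 0 (.ct 1 3 2 1 1 (.dc 3 3 0 (.dc 3 7 0 (.ct 0 2
  1 1 1 (.lf 3 144) (.lf 4 160)))) (.ct 1 5 2 1 1 (.dc 3 3 0 (.dc 3 7 0 (.ct 0 2 1 1 1 (.lf 3
  128) (.lf 4 128)))) (.dc 3 7 1 (.ct 1 2 1 1 1 (.dc 3 3 0 (.lf 3 128)) (.dc 3 3 1 (.ct 0 2 2 3 1
  (.lf 3 144) (.lf 4 144))))))))) (.dc 0 5 1 (.ct 1 5 2 1 1 (.dc 3 3 0 (.dc 3 7 0 (.ct 2 3 1 1 1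
  (.dc 0 1 1 (.lf 3 144)) (.dc 0 1 0 (.lf 3 144))))) (.dc 3 7 1 (.ct 2 3 1 1 1 (.dc 0 1 1 (.ct 1
  2 1 1 1 (.dc 3 3 0 (.lf 3 144)) (.dc 3 3 1 (.lf 4 160)))) (.dc 0 1 0 (.ct 1 2 1 1 1 (.dc 3 3 0
  (.lf 3 128)) (.ct 1 3 1 1 1 (.dc 3 3 0 (.lf 3 144)) (.dc 3 3 1 (.ct 0 2 8 3 1 (.lf 3 160) (.lf
  4 160))))))))))))))))))))))))))))

theorem dt8 : le (run cls3 3 tr8 [[2, 0, 0, 1, 1, 1, 1], [1, 1, 0, 0, 0, 0, 0], [1, 1, 1, 1, 1,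
  1, 0], [1, 0, 0, 1, 0, 0, 0], [0, 0, 0, 1, 1, 0, 0], [0, 0, 0, 1, 1, 1, 0], [0, 0, 0, 1, 1, 1,
  1]] 387389205 0) 393657332740 = true := by decide +kernel

end Pool.Agent.Work.MP_122e00_nt.Four.Cx

end

section

set_option autoImplicit false

set_option maxRecDepth 100000

/-!
# The certificate: data
-/

namespace Pool.Agent.Work.MP_122e00_nt.Four.Cx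

open Sharp.Cx

/-- data -/
noncomputable def tr9 : Ct := (.dc 1 3 0 (.dc 2 3 0 (.dc 3 3 0 (.ct 2 6 1 2 1 (.dc 3 7 0 (.ct 3
  6 1 1 1 (.dc 0 1 0 (.dc 0 3 0 (.dc 0 5 0 (.ct 5 6 1 1 1 (.dc 0 7 0 (.dc 1 7 0 (.dc 2 7 0 (.lf 4
  128)))) (.dc 0 7 1 (.ct 3 5 1 1 1 (.dc 1 7 1 (.ct 4 5 1 1 1 (.dc 2 7 1 (.ct 0 5 3 1 1 (.lf 3
  144) (.ct 0 4 4 9 1 (.ct 1 4 4 3 1 (.lf 3 160) (.lf 4 160)) (.lf 4 160)))) (.dc 2 7 0 (.ct 0 5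
  2 3 1 (.ct 1 5 8 3 1 (.lf 3 144) (.lf 4 144)) (.lf 4 128))))) (.dc 1 7 0 (.dc 2 7 0 (.lf 4
  128))))))))) (.dc 0 7 1 (.ct 2 3 1 2 1 (.dc 0 3 1 (.ct 1 3 1 1 1 (.dc 0 5 1 (.ct 5 6 1 1 1 (.dc
  1 7 0 (.dc 2 7 0 (.ct 2 3 1 2 1 (.ct 3 5 1 1 1 (.dc 0 1 0 (.lf 4 160)) (.dc 0 1 1 (.lf 4 160)))
  (.dc 0 1 0 (.lf 4 176))))) (.dc 1 7 1 (.ct 2 3 1 2 1 (.ct 3 6 1 1 1 (.dc 0 1 0 (.ct 4 5 1 1 1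
  (.dc 2 7 1 (.lf 3 160)) (.dc 2 7 0 (.ct 0 5 2 3 1 (.lf 3 176) (.lf 4 176))))) (.ct 3 5 1 1 1
  (.dc 0 1 0 (.ct 3 4 1 1 1 (.ct 4 5 1 1 1 (.dc 2 7 1 (.lf 3 176)) (.dc 2 7 0 (.lf 3 176))) (.dc
  2 7 1 (.lf 3 176)))) (.dc 0 1 1 (.ct 4 5 1 1 1 (.dc 2 7 1 (.lf 3 176)) (.dc 2 7 0 (.lf 4
  176)))))) (.dc 0 1 0 (.ct 4 5 1 1 1 (.dc 2 7 1 (.lf 3 160)) (.dc 2 7 0 (.ct 0 5 2 3 1 (.lf 3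
  176) (.lf 4 176))))))))) (.dc 0 1 0 (.dc 0 5 0 (.ct 5 6 1 1 1 (.dc 1 7 0 (.dc 2 7 0 (.lf 4
  144))) (.dc 1 7 1 (.ct 4 5 1 1 1 (.dc 2 7 1 (.ct 0 5 1 1 1 (.lf 3 128) (.ct 0 4 4 9 1 (.lf 3
  144) (.lf 4 160)))) (.dc 2 7 0 (.ct 0 5 4 9 1 (.ct 1 5 4 3 1 (.lf 3 144) (.lf 4 160)) (.lf 4
  160)))))))))) (.dc 0 1 0 (.dc 0 3 0 (.dc 0 5 0 (.ct 5 6 1 1 1 (.dc 1 7 0 (.dc 2 7 0 (.lf 4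
  144))) (.dc 1 7 1 (.ct 4 5 1 1 1 (.dc 2 7 1 (.ct 0 5 2 1 1 (.ct 1 5 3 1 1 (.lf 3 144) (.ct 1 4
  4 9 1 (.lf 3 160) (.lf 4 176))) (.ct 0 4 4 9 1 (.ct 1 4 4 3 1 (.lf 3 160) (.lf 4 176)) (.lf 4
  176)))) (.dc 2 7 0 (.ct 0 5 4 9 1 (.ct 1 5 4 3 1 (.lf 3 160) (.ct 0 1 3 16 1 (.lf 4 192) (.lf 3
  176))) (.lf 4 176))))))))))))) (.dc 0 7 1 (.dc 1 7 1 (.ct 3 6 2 1 1 (.dc 0 1 0 (.dc 0 3 0 (.dc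
  0 5 0 (.ct 2 4 1 2 1 (.dc 3 7 0 (.ct 4 5 1 1 1 (.dc 2 7 1 (.ct 0 2 7 9 2 (.ct 1 2 14 3 1 (.lf 2
  176) (.ct 1 5 1 3 1 (.ct 2 5 1 21 1 (.lf 2 176) (.lf 3 176)) (.ct 1 4 8 3 1 (.lf 3 176) (.lf 4
  176)))) (.ct 0 5 2 1 1 (.ct 1 5 1 3 1 (.ct 0 5 1 3 2 (.lf 2 176) (.lf 3 176)) (.ct 1 4 8 3 1
  (.lf 3 176) (.ct 1 5 4 3 1 (.lf 3 192) (.lf 4 192)))) (.ct 0 4 4 9 1 (.ct 1 4 4 3 1 (.lf 3 192)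
  (.lf 4 192)) (.lf 4 192))))) (.dc 2 7 0 (.ct 0 2 7 6 1 (.ct 1 2 7 6 1 (.lf 2 176) (.ct 1 5 4 3
  1 (.ct 1 5 1 18 1 (.lf 2 192) (.ct 5 6 1 32 1 (.lf 4 208) (.lf 3 208))) (.lf 4 176))) (.ct 0 5
  4 9 1 (.ct 1 5 4 3 1 (.lf 3 192) (.ct 0 1 3 16 1 (.lf 4 208) (.lf 3 208))) (.lf 4 192))))))
  (.dc 2 7 1 (.dc 3 7 1 (.ct 0 2 5 6 1 (.ct 1 2 5 3 1 (.ct 2 3 11 15 2 (.ct 3 5 1 11 1 (.lf 0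
  176) (.lf 1 176)) (.lf 0 160)) (.ct 1 4 7 3 1 (.ct 1 5 1 28 1 (.ct 3 5 3 22 1 (.lf 0 160) (.ct
  0 3 22 45 1 (.lf 2 192) (.lf 0 176))) (.lf 2 176)) (.ct 1 5 1 1 1 (.ct 4 5 1 42 1 (.ct 1 5 1 1
  1 (.ct 3 5 3 11 1 (.lf 0 176) (.lf 1 192)) (.lf 3 192)) (.ct 0 1 2 5 1 (.lf 3 192) (.lf 2
  192))) (.lf 4 192)))) (.ct 0 4 7 6 1 (.ct 1 4 14 3 1 (.lf 2 176) (.ct 1 5 1 1 1 (.ct 4 5 1 42 1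
  (.lf 2 192) (.lf 3 192)) (.lf 4 192))) (.ct 0 5 1 1 1 (.ct 1 5 2 1 1 (.ct 1 5 1 9 2 (.ct 0 5 1
  2 1 (.ct 4 5 1 42 1 (.ct 3 5 3 11 1 (.lf 0 192) (.lf 1 192)) (.ct 2 4 14 5 3 (.lf 2 208) (.lf 1
  192))) (.ct 0 2 15 4 1 (.lf 2 208) (.lf 3 208))) (.lf 3 176)) (.lf 4 192)) (.lf 4 192))))))))))
  (.dc 0 3 1 (.ct 1 3 1 1 1 (.dc 0 5 1 (.ct 3 6 2 1 1 (.dc 0 1 0 (.ct 2 4 1 2 1 (.dc 3 7 0 (.ct 4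
  5 1 1 1 (.dc 2 7 1 (.ct 0 2 7 6 1 (.ct 1 2 7 2 1 (.lf 2 192) (.lf 3 192)) (.lf 3 192))) (.dc 2
  7 0 (.ct 0 2 7 9 2 (.ct 1 2 7 4 1 (.lf 2 192) (.lf 3 192)) (.ct 0 5 2 3 1 (.lf 3 192) (.lf 4
  208)))))) (.dc 2 7 1 (.dc 3 7 1 (.ct 0 2 5 3 2 (.ct 1 2 5 4 1 (.ct 2 3 26 5 1 (.lf 1 208) (.ct
  2 6 11 15 2 (.lf 1 208) (.lf 0 208))) (.ct 1 4 7 4 1 (.lf 2 208) (.ct 1 5 3 4 1 (.lf 3 208)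
  (.lf 4 224)))) (.ct 0 4 7 9 2 (.ct 1 4 7 2 1 (.lf 2 192) (.lf 3 208)) (.ct 0 5 1 1 1 (.lf 3
  208) (.lf 4 208)))))))) (.ct 2 4 1 2 1 (.dc 3 7 0 (.ct 2 3 1 2 1 (.ct 3 5 1 1 1 (.dc 0 1 0 (.ct
  3 4 1 1 1 (.ct 4 5 1 1 1 (.dc 2 7 1 (.ct 0 2 3 2 1 (.lf 2 176) (.lf 3 176))) (.dc 2 7 0 (.ct 0
  2 1 1 2 (.lf 2 160) (.ct 0 5 8 3 1 (.lf 3 160) (.lf 4 176))))) (.dc 2 7 1 (.ct 0 2 3 2 1 (.lf 2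
  176) (.lf 3 176))))) (.dc 0 1 1 (.ct 4 5 1 1 1 (.dc 2 7 1 (.lf 3 160)) (.dc 2 7 0 (.ct 0 5 5 3
  1 (.lf 3 160) (.lf 4 176)))))) (.dc 0 1 0 (.ct 4 5 1 1 1 (.dc 2 7 1 (.ct 0 2 7 3 2 (.lf 2 176)
  (.ct 0 3 1 1 2 (.lf 2 176) (.lf 3 160)))) (.dc 2 7 0 (.ct 0 2 7 3 2 (.ct 1 2 7 2 1 (.lf 2 176)
  (.ct 1 3 3 4 1 (.lf 2 192) (.lf 3 176))) (.ct 0 5 4 3 1 (.ct 1 3 3 4 1 (.lf 2 192) (.ct 1 5 1 1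
  1 (.lf 3 176) (.lf 4 176))) (.lf 4 192)))))))) (.dc 2 7 1 (.dc 3 7 1 (.ct 2 3 1 2 1 (.ct 3 4 2
  1 1 (.dc 0 1 0 (.ct 0 2 7 9 2 (.ct 1 2 7 4 1 (.lf 1 176) (.lf 2 176)) (.ct 0 4 7 3 2 (.lf 2
  176) (.ct 0 3 1 1 2 (.lf 2 176) (.ct 0 5 1 1 1 (.lf 3 160) (.lf 4 160)))))) (.ct 3 5 1 1 1 (.dc
  0 1 0 (.ct 0 2 7 3 2 (.ct 1 2 7 4 1 (.lf 1 176) (.ct 1 5 3 8 1 (.lf 1 176) (.lf 3 176))) (.ct 0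
  4 1 1 2 (.lf 2 176) (.lf 3 160)))) (.dc 0 1 1 (.ct 0 2 7 6 1 (.ct 1 2 7 4 1 (.lf 1 176) (.lf 2
  176)) (.lf 3 176))))) (.dc 0 1 0 (.ct 0 2 5 3 2 (.ct 1 2 5 12 1 (.ct 2 6 13 10 1 (.lf 1 192)
  (.lf 0 176)) (.ct 1 3 21 4 1 (.lf 1 192) (.ct 1 2 10 1 3 (.lf 1 192) (.ct 1 4 7 4 1 (.lf 2 192)
  (.lf 3 192))))) (.ct 0 3 7 6 1 (.ct 1 3 7 4 1 (.lf 1 192) (.ct 1 4 7 4 1 (.lf 2 192) (.lf 3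
  192))) (.ct 0 4 7 6 1 (.ct 1 4 7 2 1 (.lf 2 176) (.lf 3 192)) (.ct 0 5 1 1 1 (.lf 3 192) (.lf 4
  192)))))))))))) (.dc 0 1 0 (.dc 0 5 0 (.ct 2 4 1 2 1 (.dc 3 7 0 (.ct 4 5 1 1 1 (.dc 2 7 1 (.ct
  0 2 7 9 2 (.ct 1 2 7 3 1 (.ct 2 3 4 21 1 (.lf 3 176) (.lf 2 176)) (.lf 3 160)) (.ct 0 5 2 1 1
  (.ct 1 5 3 1 1 (.lf 3 176) (.ct 1 4 4 9 1 (.lf 3 192) (.lf 4 192))) (.ct 0 4 4 9 1 (.lf 3 192)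
  (.lf 4 192))))) (.dc 2 7 0 (.ct 0 5 4 3 1 (.ct 1 2 7 9 1 (.ct 2 3 4 7 1 (.ct 3 5 1 1 1 (.lf 3
  160) (.lf 4 176)) (.lf 2 160)) (.ct 1 5 2 3 1 (.lf 3 176) (.lf 4 176))) (.ct 0 2 7 9 2 (.ct 1 2
  7 9 1 (.ct 2 3 4 7 1 (.lf 4 176) (.lf 2 160)) (.lf 4 176)) (.lf 4 176)))))) (.dc 2 7 1 (.dc 3 7
  1 (.ct 0 2 5 6 1 (.ct 1 2 5 3 1 (.ct 2 3 4 5 1 (.ct 3 5 3 8 1 (.lf 1 192) (.ct 3 4 7 4 1 (.lf 2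
  192) (.lf 3 192))) (.ct 2 6 11 10 1 (.ct 5 6 11 1 1 (.lf 1 192) (.lf 0 176)) (.lf 0 176))) (.ct
  1 4 7 6 1 (.lf 2 192) (.ct 1 5 1 1 1 (.ct 3 5 1 4 1 (.lf 2 208) (.lf 3 208)) (.lf 4 192))))
  (.ct 0 4 7 9 2 (.ct 1 4 7 3 1 (.lf 2 192) (.ct 1 5 1 1 1 (.ct 3 5 1 4 1 (.lf 2 208) (.lf 3
  208)) (.lf 4 192))) (.ct 0 5 1 1 1 (.ct 1 5 2 1 1 (.ct 3 5 9 4 1 (.ct 1 5 1 9 2 (.ct 3 5 1 16 1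
  (.ct 0 5 1 4 1 (.lf 1 208) (.lf 2 208)) (.lf 3 208)) (.lf 3 208)) (.lf 4 208)) (.lf 4 192))
  (.lf 4 192))))))))))))))))))

theorem dt9 : le (run cls3 3 tr9 [[2, 0, 0, 1, 1, 1, 1], [1, 1, 0, 1, 1, 1, 1], [2, 2, 2, 1, 1,
  1, 1], [1, 0, 0, 1, 0, 0, 0], [0, 0, 0, 1, 1, 0, 0], [1, 1, 1, 1, 1, 1, 0], [0, 0, 0, 1, 1, 1,
  1]] 2004318037 0) 5592883379804 = true := by decide +kernel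

/-- data -/
noncomputable def tr10 : Ct := (.dc 0 3 1 (.dc 0 7 1 (.dc 1 3 1 (.dc 1 7 1 (.ct 1 4 1 1 1 (.dc
  2 3 0 (.dc 3 3 0 (.ct 3 6 1 1 1 (.dc 0 1 0 (.dc 0 5 0 (.ct 2 4 1 2 1 (.dc 3 7 0 (.ct 4 5 1 1 1
  (.dc 2 7 1 (.ct 0 2 7 9 2 (.ct 2 6 3 7 1 (.lf 3 128) (.lf 2 128)) (.ct 0 5 2 1 1 (.lf 3 144)
  (.ct 0 4 4 9 1 (.lf 3 160) (.lf 4 160))))) (.dc 2 7 0 (.ct 0 5 4 3 1 (.ct 2 6 9 7 1 (.ct 5 6 3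
  4 1 (.lf 4 144) (.ct 3 5 2 1 1 (.lf 3 144) (.lf 4 144))) (.ct 2 3 4 7 1 (.lf 3 144) (.lf 2
  144))) (.ct 0 2 7 9 2 (.ct 2 6 9 7 1 (.lf 4 144) (.lf 2 144)) (.lf 4 144)))))) (.dc 2 7 1 (.dc
  3 7 1 (.ct 0 2 5 3 2 (.ct 1 2 5 6 1 (.ct 2 3 8 5 1 (.ct 2 6 3 20 1 (.ct 1 6 3 80 1 (.ct 4 6 9 7
  1 (.ct 5 6 1 1 1 (.lf 4 176) (.lf 3 176)) (.lf 2 176)) (.ct 1 3 3 10 1 (.ct 3 4 7 2 1 (.lf 2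
  192) (.lf 3 192)) (.ct 1 6 9 1 4 (.lf 2 192) (.lf 0 176)))) (.ct 3 5 3 8 1 (.lf 0 160) (.ct 2 3
  2 15 1 (.lf 2 176) (.lf 1 176)))) (.ct 2 6 3 10 1 (.ct 5 6 3 1 1 (.lf 2 176) (.lf 0 160)) (.lf
  0 160))) (.ct 2 6 3 40 1 (.ct 4 6 9 7 1 (.ct 5 6 1 1 1 (.lf 4 176) (.ct 3 5 3 2 1 (.ct 3 5 1 18
  1 (.lf 2 176) (.lf 3 176)) (.lf 4 176))) (.ct 3 4 7 2 1 (.lf 2 160) (.lf 3 160))) (.lf 2 160)))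
  (.ct 0 5 1 1 1 (.ct 4 6 9 7 1 (.ct 5 6 1 1 1 (.lf 4 160) (.lf 3 144)) (.ct 3 4 7 4 1 (.lf 2
  160) (.lf 3 160))) (.ct 0 4 7 9 2 (.ct 4 6 9 7 1 (.lf 4 160) (.lf 2 144)) (.lf 4 160)))))))))
  (.dc 0 5 1 (.ct 2 4 1 2 1 (.dc 3 7 0 (.ct 2 3 1 2 1 (.ct 3 5 1 1 1 (.dc 0 1 0 (.ct 3 4 1 1 1
  (.ct 4 5 1 1 1 (.dc 2 7 1 (.ct 0 2 3 1 2 (.lf 2 144) (.lf 3 144))) (.dc 2 7 0 (.ct 0 2 1 1 2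
  (.lf 2 144) (.lf 3 128)))) (.dc 2 7 1 (.ct 0 2 3 1 2 (.ct 2 6 2 9 1 (.lf 3 144) (.lf 2 144))
  (.lf 3 144))))) (.dc 0 1 1 (.ct 4 5 1 1 1 (.dc 2 7 1 (.ct 0 2 1 1 2 (.lf 2 144) (.lf 3 128)))
  (.dc 2 7 0 (.ct 0 2 3 2 1 (.lf 2 144) (.ct 0 5 5 9 1 (.lf 3 144) (.lf 4 160))))))) (.dc 0 1 0
  (.ct 4 5 1 1 1 (.dc 2 7 1 (.ct 0 2 14 3 1 (.lf 2 144) (.ct 0 3 1 1 2 (.lf 2 144) (.lf 3 144))))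
  (.dc 2 7 0 (.ct 0 2 7 3 2 (.ct 2 6 4 21 1 (.lf 3 160) (.lf 2 160)) (.ct 0 5 4 3 1 (.ct 3 6 4 3
  1 (.lf 3 144) (.lf 2 160)) (.lf 4 160)))))))) (.dc 2 7 1 (.dc 3 7 1 (.ct 2 3 1 2 1 (.ct 3 4 2 1
  1 (.dc 0 1 0 (.lf 2 144)) (.ct 3 5 1 1 1 (.dc 0 1 0 (.ct 0 2 14 3 1 (.ct 1 2 7 6 1 (.ct 2 6 4 7
  1 (.lf 2 144) (.lf 1 144)) (.lf 2 144)) (.ct 0 4 1 1 2 (.lf 2 144) (.lf 3 144)))) (.dc 0 1 1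
  (.ct 0 2 7 3 2 (.lf 2 144) (.lf 3 144))))) (.dc 0 1 0 (.ct 1 2 5 4 1 (.ct 2 6 12 5 1 (.ct 0 3 7
  3 2 (.ct 3 6 4 21 1 (.ct 2 6 1 10 3 (.lf 2 160) (.lf 1 160)) (.ct 5 6 112 1 1 (.lf 1 176) (.ct
  0 5 1 7 1 (.lf 0 160) (.lf 1 176)))) (.ct 0 2 80 9 1 (.ct 2 6 1 20 1 (.lf 2 176) (.lf 1 176))
  (.ct 0 4 7 3 2 (.lf 2 176) (.ct 0 1 10 3 1 (.lf 2 176) (.ct 0 5 1 1 1 (.lf 3 176) (.lf 4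
  192)))))) (.ct 0 2 10 3 1 (.lf 0 160) (.ct 0 3 14 3 1 (.ct 0 5 1 42 1 (.lf 0 176) (.lf 1 192))
  (.lf 2 176)))) (.lf 2 144))))))))))) (.dc 2 3 1 (.dc 2 7 1 (.dc 3 7 1 (.ct 3 6 1 1 1 (.dc 0 1 0
  (.dc 0 5 0 (.ct 1 5 1 1 1 (.dc 3 3 0 (.ct 0 2 5 6 1 (.ct 2 4 6 5 1 (.ct 2 6 3 40 1 (.ct 5 6 3 1
  1 (.lf 3 160) (.lf 2 160)) (.ct 2 4 3 20 1 (.lf 2 160) (.ct 3 5 3 8 1 (.lf 0 144) (.ct 2 3 3 10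
  1 (.lf 2 160) (.lf 0 144))))) (.ct 2 3 4 5 1 (.ct 4 6 3 40 1 (.lf 3 160) (.ct 3 5 1 4 1 (.lf 0
  144) (.ct 3 4 10 1 1 (.lf 1 144) (.lf 3 160)))) (.ct 2 6 1 5 1 (.ct 4 6 3 40 1 (.lf 3 160) (.lf
  0 144)) (.lf 0 128)))) (.ct 0 5 3 1 1 (.lf 3 144) (.ct 0 1 4 9 1 (.lf 3 160) (.lf 4 160)))))
  (.dc 3 3 1 (.ct 0 2 5 9 2 (.ct 2 6 6 5 1 (.ct 0 6 3 10 1 (.ct 5 6 3 4 1 (.lf 4 144) (.ct 2 3 4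
  15 1 (.ct 3 5 1 1 1 (.lf 3 144) (.lf 4 144)) (.lf 2 160))) (.ct 0 4 1 5 1 (.lf 2 144) (.ct 0 3
  2 15 1 (.lf 2 144) (.lf 0 128)))) (.ct 2 4 4 5 1 (.ct 0 4 1 5 1 (.lf 2 144) (.ct 0 3 2 15 1
  (.lf 2 144) (.lf 0 128))) (.ct 2 3 2 5 1 (.lf 1 128) (.lf 0 128)))) (.ct 0 5 2 3 1 (.ct 5 6 3 8
  1 (.lf 4 144) (.ct 2 6 18 5 1 (.ct 3 5 2 1 1 (.lf 3 160) (.lf 4 160)) (.ct 2 3 4 15 1 (.lf 3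
  160) (.ct 2 4 1 5 1 (.lf 2 160) (.lf 0 144))))) (.lf 4 144))))))) (.dc 0 5 1 (.ct 2 3 1 2 1
  (.ct 3 5 1 1 1 (.dc 0 1 0 (.ct 1 3 1 1 1 (.dc 3 3 0 (.ct 0 2 7 3 2 (.ct 2 4 4 7 1 (.lf 2 144)
  (.lf 1 144)) (.lf 3 144))) (.ct 1 5 1 1 1 (.dc 3 3 0 (.ct 0 2 7 3 2 (.ct 2 4 4 7 1 (.lf 2 144)
  (.ct 2 6 2 7 1 (.lf 2 144) (.lf 1 144))) (.lf 3 144))) (.dc 3 3 1 (.ct 0 2 7 6 1 (.ct 2 4 6 7 1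
  (.ct 2 6 1 14 1 (.lf 3 176) (.lf 2 176)) (.lf 1 160)) (.ct 0 5 8 3 1 (.lf 3 160) (.lf 4
  160))))))) (.dc 0 1 1 (.ct 1 5 1 1 1 (.dc 3 3 0 (.ct 0 2 7 6 1 (.lf 2 160) (.lf 3 160))) (.dc 3
  3 1 (.ct 0 2 7 6 1 (.lf 2 160) (.lf 4 160)))))) (.dc 0 1 0 (.ct 1 5 1 1 1 (.dc 3 3 0 (.ct 2 4 4
  5 1 (.ct 0 3 14 3 1 (.ct 3 4 6 7 1 (.lf 2 176) (.ct 3 6 2 7 1 (.lf 2 176) (.lf 1 160))) (.ct 0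
  2 10 3 1 (.lf 2 176) (.lf 3 176))) (.ct 2 6 8 5 1 (.ct 0 3 7 3 2 (.ct 5 6 4 1 1 (.lf 1 160)
  (.ct 0 5 1 7 1 (.lf 0 144) (.lf 1 160))) (.ct 0 2 10 1 1 (.lf 1 160) (.ct 0 4 5 1 1 (.lf 2 160)
  (.lf 3 160)))) (.ct 0 2 10 3 1 (.lf 0 144) (.ct 0 3 14 3 1 (.lf 1 160) (.lf 2 160)))))) (.dc 3
  3 1 (.ct 2 4 6 5 1 (.ct 0 2 40 3 1 (.ct 3 4 6 7 1 (.ct 2 6 1 20 1 (.lf 3 160) (.lf 2 160)) (.ct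
  3 6 4 7 1 (.lf 2 160) (.lf 1 160))) (.ct 0 3 7 9 2 (.ct 3 6 4 7 1 (.lf 3 160) (.ct 3 4 4 7 1
  (.lf 2 160) (.lf 1 160))) (.ct 0 5 2 3 1 (.lf 3 176) (.lf 4 176)))) (.ct 2 6 12 5 1 (.ct 0 3 7
  3 2 (.lf 1 160) (.ct 0 2 40 3 1 (.ct 2 6 1 20 1 (.lf 2 192) (.lf 1 176)) (.ct 0 4 40 9 1 (.lf 2
  192) (.ct 0 5 2 3 1 (.lf 3 192) (.lf 4 192))))) (.ct 0 2 10 3 1 (.lf 0 160) (.lf 1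
  176))))))))))))))))))

theorem dt10 : le (run cls3 3 tr10 [[2, 0, 0, 1, 1, 1, 1], [1, 1, 0, 0, 0, 0, 0], [2, 2, 2, 1,
  1, 1, 1], [1, 0, 0, 1, 0, 0, 0], [0, 0, 0, 1, 1, 0, 0], [1, 1, 1, 1, 1, 1, 0], [1, 1, 0, 1, 1,
  1, 1]] 2004318037 0) 965695541908 = true := by decide +kernel

end Pool.Agent.Work.MP_122e00_nt.Four.Cx

end

section

set_option autoImplicit false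

set_option maxRecDepth 100000

/-!
# The certificate: data
-/

namespace Pool.Agent.Work.MP_122e00_nt.Four.Cx

open Sharp.Cx

/-- data -/
noncomputable def tr11 : Ct := (.dc 0 3 1 (.dc 0 5 1 (.dc 0 7 1 (.dc 1 3 1 (.dc 1 5 1 (.dc 1 7
  1 (.ct 2 4 2 1 1 (.dc 2 5 0 (.dc 2 6 0 (.dc 3 5 0 (.dc 3 6 0 (.ct 1 4 1 1 1 (.dc 2 3 0 (.dc 3 3
  0 (.ct 4 6 2 1 1 (.dc 2 7 1 (.dc 3 7 1 (.ct 2 3 1 1 1 (.dc 1 6 0 (.ct 3 4 2 1 1 (.dc 0 1 0 (.ct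
  0 2 1 2 1 (.dc 0 6 1 (.ct 1 6 5 2 1 (.lf 0 176) (.ct 1 2 5 2 1 (.lf 1 192) (.lf 2 192)))) (.dc
  0 6 0 (.ct 1 6 5 6 1 (.ct 0 6 5 3 2 (.lf 0 192) (.ct 0 2 13 3 2 (.lf 1 192) (.lf 2 192))) (.ct
  1 2 13 6 1 (.ct 0 2 13 3 2 (.lf 1 192) (.lf 2 192)) (.lf 2 192)))))) (.ct 3 5 1 1 1 (.dc 0 1 0
  (.ct 0 2 1 2 1 (.dc 0 6 1 (.ct 1 6 5 4 1 (.lf 0 160) (.lf 1 160))) (.dc 0 6 0 (.ct 1 6 5 2 1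
  (.ct 0 6 5 9 2 (.ct 4 6 10 9 1 (.lf 0 160) (.lf 1 176)) (.ct 0 2 26 3 1 (.lf 1 160) (.ct 0 6 10
  3 1 (.lf 1 176) (.lf 2 176)))) (.lf 2 160))))) (.ct 3 6 2 1 1 (.dc 0 1 0 (.ct 0 2 1 2 1 (.dc 0
  6 1 (.ct 1 6 5 4 1 (.lf 0 176) (.lf 1 192))) (.dc 0 6 0 (.ct 1 6 5 2 1 (.ct 0 6 5 9 2 (.ct 4 6
  5 9 2 (.lf 0 176) (.lf 1 192)) (.ct 0 3 14 3 1 (.lf 1 192) (.ct 0 2 13 6 1 (.lf 1 192) (.lf 2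
  192)))) (.ct 1 3 7 6 1 (.ct 0 3 7 3 2 (.lf 1 192) (.lf 2 192)) (.lf 2 192)))))) (.dc 0 1 1 (.ct
  0 2 1 2 1 (.dc 0 6 1 (.lf 1 192)) (.dc 0 6 0 (.ct 1 6 7 6 1 (.lf 1 176) (.lf 2 176)))))))))
  (.dc 0 1 0 (.ct 0 2 1 2 1 (.dc 0 6 1 (.dc 1 6 1 (.lf 0 160))) (.dc 1 6 0 (.ct 0 3 1 2 1 (.dc 0
  6 1 (.ct 1 6 15 2 1 (.lf 0 208) (.ct 1 3 5 2 1 (.lf 0 208) (.lf 2 208)))) (.dc 0 6 0 (.ct 1 6 5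
  2 1 (.ct 0 6 5 1 2 (.lf 0 192) (.ct 0 2 11 6 1 (.lf 0 208) (.lf 2 224))) (.ct 1 2 11 6 1 (.ct 0
  2 11 3 2 (.lf 0 208) (.lf 2 208)) (.lf 2 208))))))))))) (.ct 2 3 1 1 1 (.dc 1 6 0 (.ct 2 4 1 2
  1 (.dc 3 7 0 (.ct 3 6 2 1 1 (.dc 0 1 0 (.ct 0 2 1 2 1 (.dc 0 6 1 (.ct 4 5 1 1 1 (.dc 2 7 1 (.lf
  2 176)) (.dc 2 7 0 (.lf 2 176)))) (.dc 0 6 0 (.ct 4 5 1 1 1 (.dc 2 7 1 (.lf 2 176)) (.dc 2 7 0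
  (.lf 2 176)))))) (.ct 0 2 1 2 1 (.dc 0 6 1 (.ct 3 5 1 1 1 (.dc 0 1 0 (.ct 3 4 1 1 1 (.ct 4 5 1
  1 1 (.dc 2 7 1 (.lf 2 192)) (.dc 2 7 0 (.lf 2 192))) (.dc 2 7 1 (.lf 2 192)))) (.dc 0 1 1 (.ct
  4 5 1 1 1 (.dc 2 7 1 (.lf 2 192)) (.dc 2 7 0 (.lf 2 192)))))) (.dc 0 6 0 (.ct 3 5 1 1 1 (.dc 0
  1 0 (.ct 3 4 1 1 1 (.ct 4 5 1 1 1 (.dc 2 7 1 (.lf 2 176)) (.dc 2 7 0 (.lf 2 176))) (.dc 2 7 1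
  (.lf 2 176)))) (.dc 0 1 1 (.ct 4 5 1 1 1 (.dc 2 7 1 (.lf 2 176)) (.dc 2 7 0 (.lf 2 160)))))))))
  (.dc 2 7 1 (.dc 3 7 1 (.ct 3 5 1 1 1 (.dc 0 1 0 (.ct 0 2 1 2 1 (.dc 0 6 1 (.ct 1 2 5 1 1 (.lf 1
  176) (.lf 2 176))) (.ct 0 4 1 2 1 (.dc 0 6 1 (.ct 1 2 13 4 1 (.lf 1 192) (.lf 2 192))) (.dc 0 6
  0 (.lf 2 192))))) (.ct 0 2 1 2 1 (.dc 0 6 1 (.ct 3 6 2 1 1 (.dc 0 1 0 (.ct 1 2 5 2 1 (.lf 1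
  192) (.lf 2 192))) (.dc 0 1 1 (.lf 1 192)))) (.ct 3 6 2 1 1 (.dc 0 1 0 (.ct 0 4 1 2 1 (.dc 0 6
  1 (.lf 2 208)) (.dc 0 6 0 (.lf 2 208)))) (.dc 0 1 1 (.ct 0 4 1 2 1 (.dc 0 6 1 (.lf 2 208)) (.dc
  0 6 0 (.lf 2 176))))))))))) (.dc 0 1 0 (.ct 3 4 1 2 1 (.ct 0 2 1 2 1 (.dc 0 6 1 (.dc 1 6 1 (.ct
  0 4 1 4 1 (.ct 2 4 1 2 1 (.dc 3 7 0 (.ct 4 5 1 1 1 (.dc 2 7 1 (.lf 2 144)) (.dc 2 7 0 (.lf 2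
  144)))) (.dc 2 7 1 (.dc 3 7 1 (.ct 1 2 2 1 1 (.lf 0 144) (.lf 2 160))))) (.dc 2 7 1 (.dc 3 7 1
  (.ct 1 2 2 1 1 (.lf 0 176) (.lf 2 176))))))) (.dc 1 6 0 (.ct 2 4 1 4 1 (.dc 3 7 0 (.ct 0 3 1 2
  1 (.dc 0 6 1 (.ct 4 5 1 1 1 (.dc 2 7 1 (.lf 2 176)) (.dc 2 7 0 (.lf 2 176)))) (.dc 0 6 0 (.ct 4
  5 1 1 1 (.dc 2 7 1 (.lf 2 176)) (.dc 2 7 0 (.lf 2 176)))))) (.dc 2 7 1 (.dc 3 7 1 (.ct 0 3 1 2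
  1 (.dc 0 6 1 (.lf 2 208)) (.dc 0 6 0 (.lf 2 208)))))))) (.dc 2 7 1 (.dc 3 7 1 (.ct 0 2 1 2 1
  (.dc 0 6 1 (.dc 1 6 1 (.ct 1 2 4 1 1 (.lf 0 160) (.lf 1 176)))) (.dc 1 6 0 (.ct 0 3 1 2 1 (.dc
  0 6 1 (.ct 1 2 11 2 1 (.lf 0 192) (.ct 1 3 5 2 1 (.lf 1 208) (.lf 2 208)))) (.ct 0 4 1 2 1 (.dc
  0 6 1 (.ct 1 2 11 4 1 (.lf 0 192) (.lf 2 208))) (.dc 0 6 0 (.ct 1 2 11 6 1 (.ct 0 2 11 3 2 (.lf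
  0 208) (.ct 0 3 13 6 1 (.lf 1 240) (.lf 2 240))) (.lf 2 224))))))))))))))) (.dc 2 3 1 (.dc 2 7
  1 (.dc 3 7 1 (.ct 2 3 1 1 1 (.dc 1 6 0 (.ct 3 6 2 1 1 (.dc 0 1 0 (.ct 0 2 1 2 1 (.dc 0 6 1 (.ct
  1 5 1 1 1 (.dc 3 3 0 (.ct 4 6 5 1 1 (.lf 0 160) (.lf 1 176))) (.dc 3 3 1 (.ct 4 6 5 2 1 (.lf 0
  160) (.lf 1 160))))) (.dc 0 6 0 (.ct 1 5 1 1 1 (.dc 3 3 0 (.ct 4 6 5 2 1 (.ct 0 6 5 3 2 (.lf 0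
  160) (.ct 0 3 14 3 1 (.ct 0 5 1 42 1 (.lf 0 192) (.lf 1 192)) (.lf 2 192))) (.ct 3 4 4 7 1 (.lf
  2 176) (.ct 0 3 14 3 1 (.lf 1 192) (.lf 2 192))))) (.dc 3 3 1 (.ct 4 6 5 4 1 (.ct 0 6 5 3 2
  (.lf 0 160) (.ct 0 3 14 3 1 (.lf 1 192) (.lf 2 192))) (.ct 3 4 4 7 1 (.lf 2 176) (.ct 0 3 14 3
  1 (.lf 1 192) (.lf 2 192))))))))) (.ct 0 2 1 2 1 (.dc 0 6 1 (.ct 3 5 1 1 1 (.dc 0 1 0 (.ct 1 3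
  1 1 1 (.dc 3 3 0 (.lf 1 176)) (.ct 1 5 1 1 1 (.dc 3 3 0 (.ct 2 4 4 5 1 (.lf 1 176) (.lf 0
  160))) (.dc 3 3 1 (.lf 1 160))))) (.dc 0 1 1 (.ct 1 5 1 1 1 (.dc 3 3 0 (.lf 1 160)) (.dc 3 3 1
  (.lf 1 160)))))) (.dc 0 6 0 (.ct 3 5 1 1 1 (.dc 0 1 0 (.ct 1 3 1 1 1 (.dc 3 3 0 (.ct 4 6 7 2 1
  (.ct 0 6 14 3 1 (.lf 1 192) (.lf 2 192)) (.lf 2 176))) (.ct 1 5 1 1 1 (.dc 3 3 0 (.ct 4 6 7 2 1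
  (.ct 0 6 14 3 1 (.lf 1 192) (.lf 2 192)) (.lf 2 176))) (.dc 3 3 1 (.ct 4 6 7 4 1 (.ct 0 6 14 3
  1 (.lf 1 192) (.lf 2 192)) (.lf 2 176)))))) (.dc 0 1 1 (.ct 1 5 1 1 1 (.dc 3 3 0 (.lf 2 176))
  (.dc 3 3 1 (.lf 2 176))))))))) (.dc 0 1 0 (.ct 0 2 1 2 1 (.dc 0 6 1 (.dc 1 6 1 (.ct 1 5 1 1 1
  (.dc 3 3 0 (.lf 0 144)) (.dc 3 3 1 (.lf 0 128))))) (.dc 1 6 0 (.ct 0 3 1 2 1 (.dc 0 6 1 (.ct 1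
  5 1 1 1 (.dc 3 3 0 (.lf 0 176)) (.dc 3 3 1 (.ct 4 6 5 1 1 (.lf 0 176) (.lf 1 176))))) (.dc 0 6
  0 (.ct 1 5 1 1 1 (.dc 3 3 0 (.ct 4 6 5 2 1 (.ct 0 6 5 1 2 (.lf 0 176) (.ct 0 2 11 6 1 (.lf 0
  176) (.lf 2 192))) (.ct 2 4 6 11 1 (.lf 2 192) (.ct 0 2 22 3 1 (.lf 0 192) (.lf 2 208))))) (.dc
  3 3 1 (.ct 4 6 5 2 1 (.ct 0 6 10 3 1 (.lf 0 176) (.ct 0 2 11 6 1 (.lf 0 176) (.lf 2 192))) (.ct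
  2 4 6 11 1 (.lf 2 192) (.ct 0 2 11 3 2 (.lf 0 176) (.lf 2 192)))))))))))))))))))) (.dc 2 3 1
  (.dc 2 5 1 (.dc 2 7 1 (.dc 3 7 1 (.ct 2 3 2 1 1 (.dc 2 6 0 (.dc 3 6 0 (.ct 3 4 1 1 1 (.dc 0 1 0
  (.ct 0 4 1 2 1 (.dc 0 6 1 (.dc 1 6 1 (.ct 2 5 1 1 1 (.dc 3 5 0 (.ct 1 5 1 1 1 (.dc 3 3 0 (.lf 0
  160)) (.dc 3 3 1 (.lf 0 144)))) (.dc 3 3 1 (.dc 3 5 1 (.lf 0 144)))))) (.dc 1 6 0 (.ct 2 5 1 1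
  1 (.dc 3 5 0 (.ct 0 2 1 2 1 (.dc 0 6 1 (.ct 1 5 1 1 1 (.dc 3 3 0 (.lf 0 192)) (.dc 3 3 1 (.lf 0
  176)))) (.ct 0 3 1 2 1 (.dc 0 6 1 (.ct 1 5 1 1 1 (.dc 3 3 0 (.lf 0 208)) (.dc 3 3 1 (.lf 0
  192)))) (.dc 0 6 0 (.ct 1 5 1 1 1 (.dc 3 3 0 (.lf 0 208)) (.dc 3 3 1 (.lf 0 208))))))) (.dc 3 3
  1 (.dc 3 5 1 (.ct 0 2 1 2 1 (.dc 0 6 1 (.lf 0 144)) (.ct 0 3 1 2 1 (.dc 0 6 1 (.lf 0 160)) (.ct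
  0 5 1 2 1 (.dc 0 6 1 (.lf 0 192)) (.dc 0 6 0 (.lf 0 192))))))))))) (.dc 1 6 0 (.ct 3 6 2 1 1
  (.dc 0 1 0 (.ct 2 5 1 1 1 (.dc 3 5 0 (.ct 0 2 1 2 1 (.dc 0 6 1 (.ct 1 5 1 1 1 (.dc 3 3 0 (.lf 0
  160)) (.dc 3 3 1 (.lf 0 160)))) (.ct 0 4 1 2 1 (.dc 0 6 1 (.ct 1 5 1 1 1 (.dc 3 3 0 (.lf 0
  192)) (.dc 3 3 1 (.lf 0 192)))) (.dc 0 6 0 (.ct 1 5 1 1 1 (.dc 3 3 0 (.ct 0 6 5 1 2 (.lf 0 192)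
  (.lf 1 208))) (.dc 3 3 1 (.ct 0 6 10 3 1 (.lf 0 208) (.lf 1 224)))))))) (.dc 3 3 1 (.dc 3 5 1
  (.ct 0 2 1 2 1 (.dc 0 6 1 (.lf 0 144)) (.ct 0 4 1 2 1 (.dc 0 6 1 (.lf 0 160)) (.ct 0 5 1 2 1
  (.dc 0 6 1 (.lf 0 192)) (.dc 0 6 0 (.lf 0 208))))))))) (.ct 0 4 1 2 1 (.dc 0 6 1 (.ct 2 5 1 1 1
  (.dc 3 5 0 (.ct 2 3 1 1 1 (.ct 3 5 1 1 1 (.dc 0 1 0 (.ct 1 3 1 1 1 (.dc 3 3 0 (.lf 0 176)) (.ct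
  1 5 1 1 1 (.dc 3 3 0 (.lf 0 176)) (.dc 3 3 1 (.lf 0 160))))) (.dc 0 1 1 (.ct 1 5 1 1 1 (.dc 3 3
  0 (.lf 1 176)) (.dc 3 3 1 (.lf 1 176))))) (.dc 0 1 0 (.ct 1 5 1 1 1 (.dc 3 3 0 (.lf 0 176))
  (.dc 3 3 1 (.lf 0 160)))))) (.dc 3 3 1 (.dc 3 5 1 (.ct 3 5 1 1 1 (.dc 0 1 0 (.lf 0 160)) (.dc 0
  1 1 (.ct 2 3 1 4 1 (.lf 1 176) (.lf 0 160)))))))) (.ct 2 5 1 1 1 (.dc 3 5 0 (.ct 2 3 1 1 1 (.ct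
  0 2 1 2 1 (.dc 0 6 1 (.ct 3 5 1 1 1 (.dc 0 1 0 (.ct 1 3 1 1 1 (.dc 3 3 0 (.lf 0 208)) (.ct 1 5
  1 1 1 (.dc 3 3 0 (.lf 0 208)) (.dc 3 3 1 (.lf 0 192))))) (.dc 0 1 1 (.ct 1 5 1 1 1 (.dc 3 3 0
  (.lf 1 208)) (.dc 3 3 1 (.lf 1 208)))))) (.dc 0 6 0 (.ct 3 5 1 1 1 (.dc 0 1 0 (.ct 1 3 1 1 1
  (.dc 3 3 0 (.lf 1 208)) (.ct 1 5 1 1 1 (.dc 3 3 0 (.lf 1 208)) (.dc 3 3 1 (.lf 1 208))))) (.dc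
  0 1 1 (.ct 1 5 1 1 1 (.dc 3 3 0 (.lf 1 208)) (.dc 3 3 1 (.lf 1 192))))))) (.dc 0 1 0 (.ct 0 2 1
  2 1 (.dc 0 6 1 (.ct 1 5 1 1 1 (.dc 3 3 0 (.lf 0 192)) (.dc 3 3 1 (.lf 0 176)))) (.ct 0 3 1 2 1
  (.dc 0 6 1 (.ct 1 5 1 1 1 (.dc 3 3 0 (.lf 0 224)) (.dc 3 3 1 (.lf 0 208)))) (.dc 0 6 0 (.ct 1 5
  1 1 1 (.dc 3 3 0 (.lf 0 208)) (.dc 3 3 1 (.lf 1 224))))))))) (.dc 3 3 1 (.dc 3 5 1 (.ct 0 2 1 2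
  1 (.dc 0 6 1 (.ct 3 5 1 1 1 (.dc 0 1 0 (.lf 0 176)) (.dc 0 1 1 (.ct 2 3 1 4 1 (.lf 1 176) (.lf
  0 176))))) (.ct 3 5 1 1 1 (.dc 0 1 0 (.ct 0 3 1 2 1 (.dc 0 6 1 (.lf 0 208)) (.ct 0 5 1 2 1 (.dc
  0 6 1 (.lf 0 208)) (.dc 0 6 0 (.lf 0 224))))) (.dc 0 1 1 (.ct 0 5 1 2 1 (.dc 0 6 1 (.lf 1 208))
  (.dc 0 6 0 (.lf 1 208))))))))))))))) (.dc 0 1 0 (.ct 0 2 1 4 1 (.dc 0 6 1 (.dc 1 6 1 (.dc 2 6 1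
  (.ct 2 5 2 1 1 (.dc 3 6 0 (.ct 0 5 1 2 1 (.ct 3 5 1 1 1 (.dc 3 5 0 (.ct 1 5 1 1 1 (.dc 3 3 0
  (.lf 0 128)) (.dc 3 3 1 (.lf 0 128)))) (.dc 3 3 1 (.dc 3 5 1 (.lf 0 128)))) (.dc 3 3 1 (.dc 3 5
  1 (.lf 0 128))))) (.dc 3 3 1 (.dc 3 5 1 (.dc 3 6 1 (.lf 0 128)))))))) (.dc 2 6 0 (.dc 3 6 0
  (.ct 2 5 1 2 1 (.ct 0 4 1 2 1 (.dc 0 6 1 (.dc 1 6 1 (.ct 3 5 1 1 1 (.dc 3 5 0 (.ct 1 5 1 1 1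
  (.dc 3 3 0 (.lf 0 160)) (.dc 3 3 1 (.lf 0 160)))) (.dc 3 3 1 (.dc 3 5 1 (.lf 0 160)))))) (.dc 1
  6 0 (.ct 3 5 1 1 1 (.dc 3 5 0 (.ct 0 3 1 2 1 (.dc 0 6 1 (.ct 1 5 1 1 1 (.dc 3 3 0 (.lf 0 192))
  (.dc 3 3 1 (.lf 0 192)))) (.dc 0 6 0 (.ct 1 5 1 1 1 (.dc 3 3 0 (.lf 0 176)) (.dc 3 3 1 (.lf 0
  176)))))) (.dc 3 3 1 (.dc 3 5 1 (.ct 0 3 1 2 1 (.dc 0 6 1 (.lf 0 160)) (.ct 0 5 1 2 1 (.dc 0 6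
  1 (.lf 0 176)) (.dc 0 6 0 (.lf 0 160))))))))) (.dc 3 3 1 (.dc 3 5 1 (.ct 0 4 1 2 1 (.dc 0 6 1
  (.dc 1 6 1 (.lf 0 160))) (.dc 1 6 0 (.ct 0 3 1 2 1 (.dc 0 6 1 (.lf 0 160)) (.dc 0 6 0 (.lf 0
  144))))))))))))))))))))))))

theorem dt11 : le (run cls3 3 tr11 [[2, 0, 0, 1, 1, 1, 1], [1, 1, 0, 0, 0, 0, 0], [1, 1, 1, 0,
  0, 0, 0], [1, 0, 0, 1, 0, 0, 0], [0, 0, 0, 1, 1, 0, 0], [1, 1, 1, 1, 1, 1, 0], [2, 2, 2, 1, 1,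
  1, 1]] 387389205 0) 648626356754 = true := by decide +kernel

/-- data -/
noncomputable def tr12 : Ct := (.dc 0 6 0 (.dc 1 6 0 (.dc 2 6 0 (.dc 3 6 0 (.ct 0 5 1 1 1 (.dc
  1 1 0 (.dc 1 5 0 (.dc 2 1 0 (.dc 2 5 0 (.dc 3 1 0 (.dc 3 5 0 (.ct 1 5 1 2 1 (.dc 1 3 0 (.dc 2 3
  0 (.dc 3 3 0 (.dc 3 7 0 (.ct 3 5 1 2 1 (.dc 0 1 0 (.dc 0 3 0 (.dc 0 5 0 (.ct 2 5 1 2 1 (.dc 0 7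
  0 (.dc 1 7 0 (.dc 2 7 0 (.ct 2 6 1 1 1 (.lf 4 128) (.lf 3 112))))) (.dc 0 7 1 (.ct 2 3 1 1 1
  (.dc 1 7 0 (.dc 2 7 0 (.lf 3 128))) (.dc 1 7 1 (.ct 2 4 1 1 1 (.dc 2 7 0 (.lf 3 128)) (.dc 2 7
  1 (.lf 3 128)))))))))) (.dc 0 3 1 (.dc 0 7 1 (.ct 1 3 1 1 1 (.dc 0 5 1 (.ct 2 5 1 1 1 (.dc 1 7
  0 (.dc 2 7 0 (.ct 2 3 1 1 1 (.dc 0 1 1 (.lf 4 144)) (.dc 0 1 0 (.lf 3 160))))) (.dc 1 7 1 (.ct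
  3 5 1 1 1 (.dc 0 1 0 (.ct 2 4 1 1 1 (.dc 2 7 0 (.lf 3 160)) (.dc 2 7 1 (.lf 3 160)))) (.ct 2 3
  1 1 1 (.dc 0 1 1 (.ct 2 4 1 1 1 (.dc 2 7 0 (.lf 3 128)) (.dc 2 7 1 (.lf 3 128)))) (.dc 0 1 0
  (.ct 2 4 1 1 1 (.ct 3 4 1 1 1 (.dc 2 7 0 (.lf 3 128)) (.dc 2 7 1 (.lf 3 128))) (.dc 2 7 1 (.lf
  3 128))))))))) (.dc 0 1 0 (.dc 0 5 0 (.ct 2 5 1 1 1 (.dc 1 7 0 (.dc 2 7 0 (.lf 4 160))) (.dc 1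
  7 1 (.ct 2 4 1 1 1 (.dc 2 7 0 (.lf 3 144)) (.dc 2 7 1 (.lf 3 144))))))))))))))) (.dc 0 3 1 (.dc
  0 7 1 (.dc 1 3 1 (.dc 1 7 1 (.ct 1 4 1 1 1 (.dc 2 3 0 (.dc 3 3 0 (.dc 3 7 0 (.ct 3 5 1 1 1 (.dc
  0 1 0 (.dc 0 5 0 (.ct 2 4 1 1 1 (.dc 2 7 0 (.lf 3 128)) (.dc 2 7 1 (.lf 3 128))))) (.dc 0 5 1
  (.ct 2 3 1 1 1 (.dc 0 1 1 (.ct 2 4 1 1 1 (.dc 2 7 0 (.lf 3 112)) (.dc 2 7 1 (.lf 3 128)))) (.dc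
  0 1 0 (.ct 2 4 1 1 1 (.ct 3 4 1 1 1 (.dc 2 7 0 (.lf 3 128)) (.dc 2 7 1 (.lf 3 128))) (.dc 2 7 1
  (.lf 3 128)))))))))) (.dc 2 3 1 (.dc 2 7 1 (.ct 0 1 1 1 1 (.ct 3 5 1 1 1 (.dc 0 1 0 (.dc 0 5 0
  (.ct 1 3 2 1 1 (.dc 3 3 0 (.dc 3 7 0 (.lf 3 144))) (.ct 1 5 2 1 1 (.dc 3 3 0 (.dc 3 7 0 (.lf 3
  128))) (.dc 3 7 1 (.ct 1 2 1 1 1 (.dc 3 3 0 (.lf 3 128)) (.dc 3 3 1 (.ct 2 6 3 4 1 (.lf 4 144)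
  (.lf 3 144))))))))) (.dc 0 5 1 (.ct 1 5 2 1 1 (.dc 3 3 0 (.dc 3 7 0 (.ct 2 3 1 1 1 (.dc 0 1 1
  (.lf 3 144)) (.dc 0 1 0 (.lf 3 144))))) (.dc 3 7 1 (.ct 2 3 1 1 1 (.dc 0 1 1 (.ct 1 2 1 1 1
  (.dc 3 3 0 (.lf 3 144)) (.dc 3 3 1 (.lf 3 144)))) (.dc 0 1 0 (.ct 1 2 1 1 1 (.dc 3 3 0 (.lf 3
  128)) (.ct 1 3 1 1 1 (.dc 3 3 0 (.lf 3 144)) (.dc 3 3 1 (.lf 3 144)))))))))) (.dc 3 3 0 (.dc 3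
  7 0 (.ct 3 5 1 1 1 (.dc 0 1 0 (.dc 0 5 0 (.lf 3 128))) (.dc 0 5 1 (.ct 2 3 1 1 1 (.dc 0 1 1
  (.lf 3 128)) (.dc 0 1 0 (.lf 3 128)))))))))))))))))))))) (.dc 0 3 1 (.dc 0 5 1 (.dc 0 7 1 (.dc
  1 3 1 (.dc 1 5 1 (.dc 1 7 1 (.ct 0 4 2 1 1 (.dc 2 1 0 (.dc 2 5 0 (.dc 3 1 0 (.dc 3 5 0 (.ct 1 4
  1 1 1 (.dc 2 3 0 (.dc 3 3 0 (.dc 3 7 0 (.ct 0 2 1 1 1 (.dc 1 1 0 (.ct 0 4 1 1 1 (.ct 2 3 1 1 1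
  (.dc 0 1 1 (.ct 2 4 1 1 1 (.dc 2 7 0 (.lf 3 112)) (.dc 2 7 1 (.lf 3 128)))) (.dc 0 1 0 (.ct 2 4
  1 1 1 (.ct 3 4 1 1 1 (.dc 2 7 0 (.lf 3 128)) (.dc 2 7 1 (.lf 3 128))) (.dc 2 7 1 (.ct 2 5 2 1 1
  (.lf 3 112) (.ct 2 6 2 1 1 (.lf 3 128) (.lf 2 128))))))) (.dc 2 7 1 (.ct 2 3 1 1 1 (.dc 0 1 1
  (.lf 3 128)) (.dc 0 1 0 (.lf 3 128)))))) (.dc 0 1 1 (.dc 1 1 1 (.ct 2 4 1 1 1 (.dc 2 7 0 (.lf 3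
  96)) (.dc 2 7 1 (.lf 3 112))))))))) (.dc 2 3 1 (.dc 2 7 1 (.ct 1 5 1 1 1 (.dc 3 3 0 (.dc 3 7 0
  (.ct 0 2 1 1 1 (.dc 1 1 0 (.ct 2 3 1 1 1 (.dc 0 1 1 (.lf 3 128)) (.dc 0 1 0 (.lf 3 128)))) (.dc
  0 1 1 (.dc 1 1 1 (.lf 3 112)))))) (.dc 3 7 1 (.ct 0 2 1 1 1 (.dc 1 1 0 (.ct 0 1 1 1 1 (.ct 2 3
  1 1 1 (.dc 0 1 1 (.ct 1 2 1 1 1 (.dc 3 3 0 (.lf 3 128)) (.dc 3 3 1 (.lf 3 112)))) (.dc 0 1 0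
  (.ct 1 2 1 1 1 (.dc 3 3 0 (.ct 2 6 3 1 1 (.lf 3 112) (.lf 2 112))) (.ct 1 3 1 1 1 (.dc 3 3 0
  (.lf 3 128)) (.dc 3 3 1 (.lf 3 128)))))) (.dc 3 3 0 (.ct 2 3 1 1 1 (.dc 0 1 1 (.lf 3 128)) (.dc
  0 1 0 (.lf 3 128)))))) (.dc 0 1 1 (.dc 1 1 1 (.ct 1 2 1 1 1 (.dc 3 3 0 (.lf 3 112)) (.dc 3 3 1
  (.ct 2 6 1 1 1 (.lf 4 112) (.lf 3 112)))))))))))))))) (.dc 2 3 1 (.dc 2 5 1 (.dc 2 7 1 (.ct 0 2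
  2 1 1 (.dc 2 1 0 (.dc 3 1 0 (.dc 3 5 0 (.ct 1 5 1 1 1 (.dc 3 3 0 (.ct 2 4 1 1 1 (.dc 0 1 1 (.dc
  1 1 1 (.ct 0 5 1 1 1 (.dc 3 7 0 (.lf 3 112)) (.dc 3 7 1 (.lf 3 128))))) (.dc 1 1 0 (.ct 2 3 1 1
  1 (.dc 0 1 1 (.ct 0 5 1 1 1 (.dc 3 7 0 (.lf 3 128)) (.dc 3 7 1 (.lf 3 128)))) (.dc 0 1 0 (.ct 0
  5 1 1 1 (.dc 3 7 0 (.lf 3 128)) (.dc 3 7 1 (.lf 3 128)))))))) (.dc 3 7 1 (.ct 2 4 1 1 1 (.dc 0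
  1 1 (.dc 1 1 1 (.ct 1 2 1 1 1 (.dc 3 3 0 (.lf 3 128)) (.dc 3 3 1 (.lf 3 112))))) (.dc 1 1 0
  (.ct 1 4 1 1 1 (.dc 3 3 0 (.ct 2 3 1 1 1 (.dc 0 1 1 (.lf 3 128)) (.dc 0 1 0 (.lf 3 128)))) (.ct
  2 3 1 1 1 (.dc 0 1 1 (.ct 1 2 1 1 1 (.dc 3 3 0 (.lf 3 128)) (.dc 3 3 1 (.lf 3 128)))) (.dc 0 1
  0 (.ct 1 2 1 1 1 (.dc 3 3 0 (.ct 2 6 3 1 1 (.lf 3 112) (.lf 2 112))) (.ct 1 3 1 1 1 (.dc 3 3 0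
  (.lf 3 128)) (.dc 3 3 1 (.lf 3 128)))))))))))))) (.dc 0 1 1 (.dc 1 1 1 (.dc 2 1 1 (.ct 0 5 2 1
  1 (.dc 3 1 0 (.dc 3 5 0 (.ct 1 5 1 1 1 (.dc 3 3 0 (.ct 2 5 1 1 1 (.dc 3 7 0 (.lf 3 96)) (.dc 3
  7 1 (.lf 3 112)))) (.dc 3 3 1 (.dc 3 7 1 (.ct 2 6 3 4 1 (.lf 4 128) (.lf 3 112))))))) (.dc 3 3
  1 (.dc 3 5 1 (.dc 3 7 1 (.ct 0 2 2 1 1 (.dc 3 1 0 (.lf 3 128)) (.dc 3 1 1 (.ct 2 6 6 5 1 (.lf 4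
  128) (.lf 3 128)))))))))))))))))))))))))))

theorem dt12 : le (run cls3 3 tr12 [[1, 0, 0, 0, 0, 0, 0], [1, 1, 0, 0, 0, 0, 0], [1, 1, 1, 1,
  1, 1, 0], [1, 0, 0, 1, 0, 0, 0], [0, 0, 0, 1, 1, 0, 0], [0, 0, 0, 1, 1, 1, 0], [2, 0, 0, 1, 1,
  1, 1]] 353703189 0) 113630013601 = true := by decide +kernel

end Pool.Agent.Work.MP_122e00_nt.Four.Cx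

end

section

set_option autoImplicit false

set_option maxRecDepth 100000

/-!
# The certificate: data
-/

namespace Pool.Agent.Work.MP_122e00_nt.Four.Cx

open Sharp.Cx

/-- data -/
noncomputable def tr13 : Ct := (.dc 1 1 0 (.dc 2 1 0 (.dc 3 1 0 (.ct 2 4 2 1 1 (.dc 2 6 0 (.dc
  3 6 0 (.ct 0 4 1 1 1 (.dc 2 5 0 (.dc 3 5 0 (.ct 1 4 1 1 1 (.dc 2 3 0 (.dc 3 3 0 (.ct 0 4 1 1 1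
  (.ct 2 3 1 1 1 (.dc 1 6 0 (.ct 2 4 1 2 1 (.dc 3 7 0 (.ct 2 6 2 1 1 (.dc 0 6 0 (.ct 3 5 1 1 1
  (.dc 0 1 0 (.ct 3 4 1 1 1 (.ct 4 5 1 1 1 (.dc 2 7 1 (.lf 2 160)) (.dc 2 7 0 (.lf 2 160))) (.dc
  2 7 1 (.lf 2 160)))) (.dc 0 1 1 (.ct 4 5 1 1 1 (.dc 2 7 1 (.lf 2 160)) (.dc 2 7 0 (.lf 2
  160)))))) (.dc 0 6 1 (.ct 3 5 1 1 1 (.dc 0 1 0 (.ct 3 4 1 1 1 (.ct 4 5 1 1 1 (.dc 2 7 1 (.lf 2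
  176)) (.dc 2 7 0 (.lf 2 160))) (.dc 2 7 1 (.lf 2 176)))) (.dc 0 1 1 (.ct 4 5 1 1 1 (.dc 2 7 1
  (.lf 2 160)) (.dc 2 7 0 (.lf 2 160)))))))) (.dc 2 7 1 (.dc 3 7 1 (.ct 2 6 2 1 1 (.ct 3 5 1 1 1
  (.dc 0 1 0 (.ct 4 6 2 1 1 (.dc 0 6 0 (.lf 2 176)) (.dc 0 6 1 (.lf 2 192)))) (.dc 0 1 1 (.ct 4 6
  2 1 1 (.dc 0 6 0 (.lf 2 176)) (.dc 0 6 1 (.lf 2 176))))) (.dc 0 6 1 (.ct 3 5 1 1 1 (.dc 0 1 0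
  (.ct 1 2 5 2 1 (.lf 1 176) (.lf 2 176))) (.dc 0 1 1 (.lf 1 160))))))))) (.dc 0 1 0 (.ct 3 4 1 2
  1 (.ct 2 6 2 1 1 (.dc 1 6 0 (.ct 2 4 1 4 1 (.dc 3 7 0 (.ct 3 6 2 1 1 (.dc 0 6 0 (.ct 4 5 1 1 1
  (.dc 2 7 1 (.lf 2 160)) (.dc 2 7 0 (.lf 2 160)))) (.dc 0 6 1 (.ct 4 5 1 1 1 (.dc 2 7 1 (.lf 2
  176)) (.dc 2 7 0 (.lf 2 176)))))) (.dc 2 7 1 (.dc 3 7 1 (.ct 3 6 2 1 1 (.dc 0 6 0 (.lf 2 192))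
  (.dc 0 6 1 (.lf 2 208))))))) (.dc 0 6 1 (.dc 1 6 1 (.ct 2 4 1 2 1 (.ct 4 6 4 1 1 (.dc 2 7 1
  (.dc 3 7 1 (.lf 2 176))) (.dc 3 7 0 (.ct 4 5 1 1 1 (.dc 2 7 1 (.lf 2 144)) (.dc 2 7 0 (.lf 2
  144))))) (.dc 2 7 1 (.dc 3 7 1 (.ct 1 2 2 1 1 (.lf 0 160) (.lf 2 160)))))))) (.dc 2 7 1 (.dc 3
  7 1 (.ct 2 6 2 1 1 (.dc 1 6 0 (.ct 3 6 2 1 1 (.ct 4 6 2 1 1 (.dc 0 6 0 (.ct 1 2 11 6 1 (.ct 2 6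
  6 11 1 (.ct 3 6 6 13 1 (.lf 2 224) (.lf 1 208)) (.lf 0 208)) (.lf 2 208))) (.dc 0 6 1 (.ct 1 2
  11 4 1 (.lf 1 208) (.lf 2 224)))) (.dc 0 6 1 (.ct 1 2 11 4 1 (.lf 0 192) (.ct 1 3 5 2 1 (.lf 1
  208) (.lf 2 208)))))) (.dc 0 6 1 (.dc 1 6 1 (.ct 1 2 4 1 1 (.lf 0 160) (.lf 1 176))))))))))
  (.dc 2 7 1 (.dc 3 7 1 (.ct 2 3 1 1 1 (.dc 1 6 0 (.ct 3 5 1 1 1 (.dc 0 1 0 (.ct 2 6 2 1 1 (.dc 0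
  6 0 (.ct 1 2 13 6 1 (.ct 2 6 3 13 2 (.lf 2 144) (.lf 1 144)) (.lf 2 144))) (.dc 0 6 1 (.ct 1 2
  5 6 1 (.lf 0 144) (.ct 1 6 13 2 1 (.lf 1 160) (.lf 2 160)))))) (.dc 0 1 1 (.ct 2 6 2 1 1 (.dc 0
  6 0 (.lf 2 144)) (.dc 0 6 1 (.lf 1 144)))))) (.dc 0 1 0 (.ct 2 6 2 1 1 (.dc 1 6 0 (.ct 3 6 2 1
  1 (.dc 0 6 0 (.ct 1 2 11 6 1 (.ct 2 6 3 22 1 (.ct 3 6 6 13 1 (.lf 2 192) (.lf 1 176)) (.lf 0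
  176)) (.ct 1 3 13 6 1 (.ct 5 6 2 1 1 (.ct 3 6 6 13 1 (.lf 2 192) (.lf 1 176)) (.lf 0 176)) (.lf
  2 176)))) (.dc 0 6 1 (.ct 1 2 11 2 1 (.lf 0 176) (.ct 1 3 5 4 1 (.lf 0 176) (.lf 2 176))))))
  (.dc 0 6 1 (.dc 1 6 1 (.ct 1 2 6 1 1 (.lf 0 160) (.lf 1 160)))))))))))) (.dc 2 3 1 (.dc 2 7 1
  (.dc 3 7 1 (.ct 2 3 1 1 1 (.dc 1 6 0 (.ct 2 6 2 1 1 (.dc 0 6 0 (.ct 3 5 1 1 1 (.dc 0 1 0 (.ct 1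
  3 1 1 1 (.dc 3 3 0 (.ct 2 4 4 13 1 (.lf 2 160) (.ct 2 6 3 26 1 (.lf 2 160) (.lf 1 160)))) (.ct
  1 5 1 1 1 (.dc 3 3 0 (.ct 2 4 4 13 1 (.lf 2 160) (.ct 5 6 3 1 1 (.ct 2 6 3 13 2 (.lf 2 160)
  (.lf 1 144)) (.lf 0 144)))) (.dc 3 3 1 (.ct 2 4 6 13 1 (.lf 2 160) (.ct 2 6 3 13 2 (.lf 2 160)
  (.lf 1 160))))))) (.dc 0 1 1 (.ct 1 5 1 1 1 (.dc 3 3 0 (.lf 2 160)) (.dc 3 3 1 (.lf 2 144))))))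
  (.dc 0 6 1 (.ct 3 5 1 1 1 (.dc 0 1 0 (.ct 1 3 1 1 1 (.dc 3 3 0 (.ct 2 4 6 5 1 (.lf 1 160) (.lf
  0 144))) (.ct 1 5 1 1 1 (.dc 3 3 0 (.ct 2 4 2 5 1 (.lf 1 144) (.lf 0 144))) (.dc 3 3 1 (.ct 2 4
  4 5 1 (.lf 1 144) (.lf 0 144)))))) (.dc 0 1 1 (.ct 1 5 1 1 1 (.dc 3 3 0 (.lf 1 144)) (.dc 3 3 1
  (.lf 1 144)))))))) (.dc 0 1 0 (.ct 2 6 2 1 1 (.dc 1 6 0 (.ct 3 6 2 1 1 (.dc 0 6 0 (.ct 1 5 1 1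
  1 (.dc 3 3 0 (.ct 2 4 4 11 1 (.ct 3 4 6 13 1 (.lf 2 176) (.ct 5 6 1 1 1 (.lf 2 176) (.lf 0
  160))) (.ct 2 6 3 22 1 (.ct 5 6 2 1 1 (.lf 2 176) (.lf 0 160)) (.lf 0 160)))) (.dc 3 3 1 (.ct 2
  4 6 11 1 (.ct 3 4 6 13 1 (.lf 2 176) (.ct 0 6 2 1 1 (.ct 3 6 6 13 1 (.lf 2 192) (.lf 1 176))
  (.lf 0 176))) (.ct 2 6 3 22 1 (.lf 2 192) (.lf 0 176)))))) (.dc 0 6 1 (.ct 1 5 1 1 1 (.dc 3 3 0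
  (.lf 0 176)) (.dc 3 3 1 (.ct 2 4 2 11 1 (.lf 1 176) (.lf 0 176))))))) (.dc 0 6 1 (.dc 1 6 1
  (.ct 1 5 1 1 1 (.dc 3 3 0 (.lf 0 144)) (.dc 3 3 1 (.lf 0 144)))))))))))))) (.dc 2 3 1 (.dc 2 5
  1 (.dc 2 7 1 (.dc 3 7 1 (.ct 2 3 1 1 1 (.dc 1 6 0 (.ct 0 5 1 1 1 (.dc 3 5 0 (.ct 0 3 1 1 1 (.ct
  2 6 2 1 1 (.dc 0 6 0 (.ct 3 5 1 1 1 (.dc 0 1 0 (.ct 1 3 1 1 1 (.dc 3 3 0 (.lf 1 144)) (.ct 1 5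
  1 1 1 (.dc 3 3 0 (.ct 5 6 1 1 1 (.lf 1 144) (.lf 0 144))) (.dc 3 3 1 (.ct 0 6 1 1 1 (.lf 1 160)
  (.lf 0 160)))))) (.dc 0 1 1 (.ct 1 5 1 1 1 (.dc 3 3 0 (.lf 1 144)) (.dc 3 3 1 (.lf 1 144))))))
  (.dc 0 6 1 (.ct 3 5 1 1 1 (.dc 0 1 0 (.ct 1 3 1 1 1 (.dc 3 3 0 (.lf 0 144)) (.ct 1 5 1 1 1 (.dc
  3 3 0 (.lf 0 144)) (.dc 3 3 1 (.lf 0 144))))) (.dc 0 1 1 (.ct 1 5 1 1 1 (.dc 3 3 0 (.lf 1 144))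
  (.dc 3 3 1 (.lf 1 144))))))) (.dc 0 1 0 (.ct 2 6 2 1 1 (.dc 0 6 0 (.ct 1 5 1 1 1 (.dc 3 3 0
  (.lf 0 144)) (.dc 3 3 1 (.ct 0 6 3 10 1 (.lf 1 160) (.lf 0 160))))) (.dc 0 6 1 (.ct 1 5 1 1 1
  (.dc 3 3 0 (.lf 0 144)) (.dc 3 3 1 (.lf 0 144)))))))) (.dc 3 3 1 (.dc 3 5 1 (.ct 3 5 1 1 1 (.dc
  0 1 0 (.ct 2 6 2 1 1 (.dc 0 6 0 (.lf 0 128)) (.dc 0 6 1 (.lf 0 128)))) (.dc 0 1 1 (.ct 2 6 2 1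
  1 (.dc 0 6 0 (.ct 0 3 1 1 1 (.lf 1 128) (.lf 0 112))) (.dc 0 6 1 (.ct 0 3 1 2 1 (.ct 2 3 3 5 1
  (.lf 1 144) (.lf 0 144)) (.lf 0 144)))))))))) (.dc 0 1 0 (.ct 2 6 2 1 1 (.dc 1 6 0 (.ct 0 5 1 1
  1 (.dc 3 5 0 (.ct 3 6 2 1 1 (.dc 0 6 0 (.ct 1 5 1 1 1 (.dc 3 3 0 (.lf 0 176)) (.dc 3 3 1 (.lf 0
  176)))) (.dc 0 6 1 (.ct 1 5 1 1 1 (.dc 3 3 0 (.lf 0 176)) (.dc 3 3 1 (.lf 0 176)))))) (.dc 3 3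
  1 (.dc 3 5 1 (.ct 3 6 2 1 1 (.dc 0 6 0 (.lf 0 160)) (.dc 0 6 1 (.lf 0 160))))))) (.dc 0 6 1
  (.dc 1 6 1 (.ct 0 5 1 1 1 (.dc 3 5 0 (.ct 1 5 1 1 1 (.dc 3 3 0 (.lf 0 144)) (.dc 3 3 1 (.lf 0
  144)))) (.dc 3 3 1 (.dc 3 5 1 (.lf 0 144)))))))))))))))) (.dc 2 3 1 (.dc 2 5 1 (.dc 2 7 1 (.dc
  3 7 1 (.ct 2 3 2 1 1 (.dc 2 6 0 (.dc 3 6 0 (.ct 0 5 1 1 1 (.ct 3 4 1 1 1 (.dc 0 1 0 (.ct 4 6 2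
  1 1 (.dc 1 6 0 (.ct 2 5 1 1 1 (.dc 3 5 0 (.ct 2 6 2 1 1 (.ct 3 6 2 1 1 (.dc 0 6 0 (.ct 1 5 1 1
  1 (.dc 3 3 0 (.lf 0 208)) (.dc 3 3 1 (.lf 0 208)))) (.dc 0 6 1 (.ct 1 5 1 1 1 (.dc 3 3 0 (.lf 0
  208)) (.dc 3 3 1 (.lf 0 192))))) (.dc 0 6 1 (.ct 1 5 1 1 1 (.dc 3 3 0 (.lf 0 192)) (.dc 3 3 1
  (.lf 0 176)))))) (.dc 3 3 1 (.dc 3 5 1 (.ct 2 6 2 1 1 (.ct 3 6 2 1 1 (.ct 5 6 2 1 1 (.dc 0 6 0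
  (.lf 0 192)) (.dc 0 6 1 (.lf 0 192))) (.dc 0 6 1 (.lf 0 160))) (.dc 0 6 1 (.lf 0 144)))))))
  (.dc 0 6 1 (.dc 1 6 1 (.ct 2 5 1 1 1 (.dc 3 5 0 (.ct 1 5 1 1 1 (.dc 3 3 0 (.lf 0 160)) (.dc 3 3
  1 (.lf 0 144)))) (.dc 3 3 1 (.dc 3 5 1 (.lf 0 144)))))))) (.dc 1 6 0 (.ct 0 3 1 1 1 (.ct 4 6 2
  1 1 (.ct 2 5 1 1 1 (.dc 3 5 0 (.ct 2 3 1 1 1 (.ct 2 6 2 1 1 (.dc 0 6 0 (.ct 3 5 1 1 1 (.dc 0 1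
  0 (.ct 1 3 1 1 1 (.dc 3 3 0 (.lf 1 192)) (.ct 1 5 1 1 1 (.dc 3 3 0 (.lf 1 192)) (.dc 3 3 1 (.lf
  1 192))))) (.dc 0 1 1 (.ct 1 5 1 1 1 (.dc 3 3 0 (.lf 1 192)) (.dc 3 3 1 (.lf 1 176)))))) (.dc 0
  6 1 (.ct 3 5 1 1 1 (.dc 0 1 0 (.ct 1 3 1 1 1 (.dc 3 3 0 (.lf 0 192)) (.ct 1 5 1 1 1 (.dc 3 3 0
  (.lf 0 192)) (.dc 3 3 1 (.lf 0 192))))) (.dc 0 1 1 (.ct 1 5 1 1 1 (.dc 3 3 0 (.lf 1 192)) (.dc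
  3 3 1 (.lf 1 192))))))) (.dc 0 1 0 (.ct 2 6 2 1 1 (.ct 3 6 2 1 1 (.dc 0 6 0 (.ct 1 5 1 1 1 (.dc
  3 3 0 (.lf 0 192)) (.dc 3 3 1 (.lf 0 192)))) (.dc 0 6 1 (.ct 1 5 1 1 1 (.dc 3 3 0 (.lf 0 192))
  (.dc 3 3 1 (.lf 0 192))))) (.dc 0 6 1 (.ct 1 5 1 1 1 (.dc 3 3 0 (.lf 0 192)) (.dc 3 3 1 (.lf 0
  192)))))))) (.dc 3 3 1 (.dc 3 5 1 (.ct 2 6 2 1 1 (.ct 3 5 1 1 1 (.dc 0 1 0 (.ct 3 6 2 1 1 (.ct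
  5 6 2 1 1 (.dc 0 6 0 (.lf 0 208)) (.dc 0 6 1 (.lf 0 240))) (.dc 0 6 1 (.lf 0 208)))) (.dc 0 1 1
  (.ct 5 6 2 1 1 (.dc 0 6 0 (.lf 1 192)) (.dc 0 6 1 (.lf 1 208))))) (.dc 0 6 1 (.ct 3 5 1 1 1
  (.dc 0 1 0 (.lf 0 176)) (.dc 0 1 1 (.ct 2 3 1 4 1 (.lf 1 160) (.lf 0 160))))))))) (.dc 0 6 1
  (.ct 2 5 1 1 1 (.dc 3 5 0 (.ct 2 3 1 1 1 (.ct 3 5 1 1 1 (.dc 0 1 0 (.ct 1 3 1 1 1 (.dc 3 3 0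
  (.lf 0 144)) (.ct 1 5 1 1 1 (.dc 3 3 0 (.lf 0 144)) (.dc 3 3 1 (.lf 0 144))))) (.dc 0 1 1 (.ct
  1 5 1 1 1 (.dc 3 3 0 (.lf 1 160)) (.dc 3 3 1 (.lf 1 160))))) (.dc 0 1 0 (.ct 1 5 1 1 1 (.dc 3 3
  0 (.lf 0 176)) (.dc 3 3 1 (.lf 0 176)))))) (.dc 3 3 1 (.dc 3 5 1 (.ct 3 5 1 1 1 (.dc 0 1 0 (.lf
  0 176)) (.dc 0 1 1 (.ct 2 3 1 4 1 (.lf 1 160) (.lf 0 144))))))))) (.dc 0 1 0 (.ct 2 5 1 1 1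
  (.dc 3 5 0 (.ct 2 6 2 1 1 (.ct 4 6 2 1 1 (.dc 0 6 0 (.ct 1 5 1 1 1 (.dc 3 3 0 (.lf 0 176)) (.dc
  3 3 1 (.lf 0 176)))) (.dc 0 6 1 (.ct 1 5 1 1 1 (.dc 3 3 0 (.lf 0 176)) (.dc 3 3 1 (.lf 0
  176))))) (.dc 0 6 1 (.ct 1 5 1 1 1 (.dc 3 3 0 (.lf 0 160)) (.dc 3 3 1 (.lf 0 160)))))) (.dc 3 3
  1 (.dc 3 5 1 (.ct 2 6 2 1 1 (.ct 4 6 2 1 1 (.ct 5 6 2 1 1 (.dc 0 6 0 (.lf 0 192)) (.dc 0 6 1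
  (.lf 0 224))) (.dc 0 6 1 (.lf 0 192))) (.dc 0 6 1 (.lf 0 160)))))))))) (.dc 3 3 1 (.dc 3 5 1
  (.ct 3 4 1 1 1 (.dc 0 1 0 (.ct 4 6 2 1 1 (.dc 1 6 0 (.ct 2 6 2 1 1 (.ct 3 6 2 1 1 (.dc 0 6 0
  (.lf 0 160)) (.dc 0 6 1 (.lf 0 144))) (.dc 0 6 1 (.lf 0 128)))) (.dc 0 6 1 (.dc 1 6 1 (.lf 0
  128))))) (.dc 1 6 0 (.ct 2 6 2 1 1 (.ct 3 5 1 1 1 (.dc 0 1 0 (.ct 4 6 2 1 1 (.dc 0 6 0 (.lf 0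
  160)) (.dc 0 6 1 (.lf 0 160)))) (.dc 0 1 1 (.ct 4 6 2 1 1 (.dc 0 6 0 (.ct 0 3 1 1 1 (.lf 1 144)
  (.lf 0 144))) (.dc 0 6 1 (.ct 0 3 1 4 1 (.lf 1 176) (.lf 0 160)))))) (.dc 0 6 1 (.ct 3 5 1 1 1
  (.dc 0 1 0 (.lf 0 144)) (.dc 0 1 1 (.ct 0 3 1 6 1 (.ct 2 3 1 2 1 (.lf 1 160) (.lf 0 144)) (.lf
  0 144))))))))))))) (.dc 0 1 0 (.ct 2 6 4 1 1 (.dc 2 6 0 (.dc 3 6 0 (.ct 0 5 1 1 1 (.ct 2 5 1 2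
  1 (.ct 4 6 2 1 1 (.dc 1 6 0 (.ct 3 5 1 1 1 (.dc 3 5 0 (.ct 3 6 2 1 1 (.dc 0 6 0 (.ct 1 5 1 1 1
  (.dc 3 3 0 (.lf 0 176)) (.dc 3 3 1 (.lf 0 176)))) (.dc 0 6 1 (.ct 1 5 1 1 1 (.dc 3 3 0 (.lf 0
  192)) (.dc 3 3 1 (.lf 0 192)))))) (.dc 3 3 1 (.dc 3 5 1 (.ct 3 6 2 1 1 (.ct 5 6 2 1 1 (.dc 0 6
  0 (.lf 0 160)) (.dc 0 6 1 (.lf 0 176))) (.dc 0 6 1 (.lf 0 160))))))) (.dc 0 6 1 (.dc 1 6 1 (.ct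
  3 5 1 1 1 (.dc 3 5 0 (.ct 1 5 1 1 1 (.dc 3 3 0 (.lf 0 160)) (.dc 3 3 1 (.lf 0 160)))) (.dc 3 3
  1 (.dc 3 5 1 (.lf 0 160))))))) (.dc 3 3 1 (.dc 3 5 1 (.ct 4 6 2 1 1 (.dc 1 6 0 (.ct 3 6 2 1 1
  (.dc 0 6 0 (.lf 0 144)) (.dc 0 6 1 (.lf 0 160)))) (.dc 0 6 1 (.dc 1 6 1 (.lf 0 160))))))) (.dc
  3 3 1 (.dc 3 5 1 (.ct 4 6 2 1 1 (.dc 1 6 0 (.ct 3 6 2 1 1 (.dc 0 6 0 (.lf 0 144)) (.dc 0 6 1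
  (.lf 0 160)))) (.dc 0 6 1 (.dc 1 6 1 (.lf 0 160))))))))) (.dc 0 6 1 (.dc 1 6 1 (.dc 2 6 1 (.ct
  2 5 2 1 1 (.dc 3 6 0 (.ct 0 5 1 1 1 (.ct 3 5 1 1 1 (.ct 5 6 2 1 1 (.dc 3 3 1 (.dc 3 5 1 (.lf 0
  144))) (.dc 3 5 0 (.ct 1 5 1 1 1 (.dc 3 3 0 (.lf 0 128)) (.dc 3 3 1 (.lf 0 128))))) (.dc 3 3 1
  (.dc 3 5 1 (.lf 0 144)))) (.dc 3 3 1 (.dc 3 5 1 (.lf 0 128))))) (.dc 3 3 1 (.dc 3 5 1 (.dc 3 6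
  1 (.lf 0 112)))))))))))))))))))

theorem dt13 : le (run cls3 3 tr13 [[2, 1, 1, 0, 0, 0, 0], [1, 1, 0, 0, 0, 0, 0], [1, 1, 1, 0,
  0, 0, 0], [1, 0, 0, 1, 0, 0, 0], [0, 0, 0, 1, 1, 0, 0], [1, 1, 1, 1, 1, 1, 0], [2, 0, 0, 1, 1,
  1, 1]] 353746365 14) 318686775504 = true := by decide +kernel

/-- data -/
noncomputable def tr14 : Ct := (.dc 0 6 0 (.dc 1 6 0 (.dc 2 6 0 (.dc 3 6 0 (.ct 0 4 2 1 1 (.dc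
  2 1 0 (.dc 3 1 0 (.ct 2 4 1 1 1 (.dc 2 5 0 (.dc 3 5 0 (.ct 1 4 1 1 1 (.dc 2 3 0 (.dc 3 3 0 (.ct
  2 4 1 1 1 (.dc 3 7 0 (.ct 0 5 1 1 1 (.dc 1 1 0 (.ct 0 4 1 1 1 (.ct 3 5 1 1 1 (.dc 0 1 0 (.ct 3
  4 1 1 1 (.ct 4 5 1 1 1 (.dc 2 7 1 (.lf 2 128)) (.dc 2 7 0 (.ct 2 6 3 8 1 (.lf 3 144) (.lf 2
  144)))) (.dc 2 7 1 (.lf 2 128)))) (.dc 0 1 1 (.ct 4 5 1 1 1 (.dc 2 7 1 (.lf 2 128)) (.dc 2 7 0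
  (.ct 2 6 3 4 1 (.lf 3 128) (.lf 2 128)))))) (.dc 2 7 1 (.ct 3 5 1 1 1 (.dc 0 1 0 (.lf 2 128))
  (.dc 0 1 1 (.lf 2 128)))))) (.dc 0 1 1 (.dc 1 1 1 (.ct 4 5 1 1 1 (.dc 2 7 1 (.lf 2 128)) (.dc 2
  7 0 (.lf 2 112))))))) (.dc 2 7 1 (.dc 3 7 1 (.ct 0 5 1 1 1 (.dc 1 1 0 (.ct 3 5 1 1 1 (.dc 0 1 0
  (.lf 2 128)) (.dc 0 1 1 (.lf 2 128)))) (.dc 0 1 1 (.dc 1 1 1 (.lf 2 128))))))))) (.dc 2 3 1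
  (.dc 2 7 1 (.dc 3 7 1 (.ct 0 5 1 1 1 (.dc 1 1 0 (.ct 0 1 1 1 1 (.ct 3 5 1 1 1 (.dc 0 1 0 (.ct 1
  3 1 1 1 (.dc 3 3 0 (.lf 2 128)) (.ct 1 5 1 1 1 (.dc 3 3 0 (.lf 2 128)) (.dc 3 3 1 (.ct 2 6 1 2
  1 (.lf 3 144) (.lf 2 144)))))) (.dc 0 1 1 (.ct 1 5 1 1 1 (.dc 3 3 0 (.lf 2 128)) (.dc 3 3 1
  (.lf 2 112))))) (.dc 3 3 0 (.ct 3 5 1 1 1 (.dc 0 1 0 (.lf 2 128)) (.dc 0 1 1 (.lf 2 128))))))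
  (.dc 0 1 1 (.dc 1 1 1 (.ct 1 5 1 1 1 (.dc 3 3 0 (.lf 2 112)) (.dc 3 3 1 (.ct 2 6 1 2 1 (.lf 4
  112) (.lf 2 112))))))))))))) (.dc 2 3 1 (.dc 2 5 1 (.dc 2 7 1 (.dc 3 7 1 (.ct 0 5 1 1 1 (.dc 1
  1 0 (.ct 0 2 1 1 1 (.ct 2 5 1 1 1 (.dc 3 5 0 (.ct 2 3 1 1 1 (.ct 3 5 1 1 1 (.dc 0 1 0 (.ct 1 3
  1 1 1 (.dc 3 3 0 (.ct 5 6 2 1 1 (.lf 1 160) (.lf 0 144))) (.ct 1 5 1 1 1 (.dc 3 3 0 (.ct 5 6 1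
  1 1 (.lf 1 144) (.lf 0 128))) (.dc 3 3 1 (.ct 2 6 1 2 1 (.lf 2 144) (.lf 0 128)))))) (.dc 0 1 1
  (.ct 1 5 1 1 1 (.dc 3 3 0 (.lf 1 144)) (.dc 3 3 1 (.lf 1 128))))) (.dc 0 1 0 (.ct 1 5 1 1 1
  (.dc 3 3 0 (.lf 0 128)) (.dc 3 3 1 (.lf 0 128)))))) (.dc 3 3 1 (.dc 3 5 1 (.ct 3 5 1 1 1 (.dc 0
  1 0 (.lf 0 128)) (.dc 0 1 1 (.ct 2 3 1 1 1 (.lf 1 112) (.lf 0 112))))))) (.dc 3 5 0 (.ct 0 1 1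
  1 1 (.ct 3 5 1 1 1 (.dc 0 1 0 (.ct 1 3 1 1 1 (.dc 3 3 0 (.ct 5 6 1 1 1 (.lf 2 144) (.lf 1
  144))) (.ct 1 5 1 1 1 (.dc 3 3 0 (.ct 5 6 2 1 1 (.lf 2 160) (.lf 0 144))) (.dc 3 3 1 (.lf 2
  144))))) (.dc 0 1 1 (.ct 1 5 1 1 1 (.dc 3 3 0 (.lf 2 144)) (.dc 3 3 1 (.lf 2 144))))) (.dc 3 3
  0 (.ct 3 5 1 1 1 (.dc 0 1 0 (.lf 2 144)) (.dc 0 1 1 (.lf 2 144)))))))) (.dc 0 1 1 (.dc 1 1 1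
  (.ct 2 5 1 1 1 (.dc 3 5 0 (.ct 1 5 1 1 1 (.dc 3 3 0 (.lf 2 144)) (.dc 3 3 1 (.ct 4 6 1 3 1 (.ct
  2 6 3 7 1 (.lf 4 128) (.lf 2 128)) (.lf 2 128))))) (.dc 3 3 1 (.dc 3 5 1 (.ct 0 2 1 1 1 (.ct 2
  3 1 1 1 (.ct 2 6 1 3 1 (.ct 4 6 3 1 1 (.lf 2 128) (.lf 1 128)) (.lf 1 128)) (.ct 2 6 1 2 1 (.ct
  3 6 1 1 1 (.ct 4 6 3 1 1 (.lf 2 144) (.lf 0 128)) (.lf 0 128)) (.lf 0 128))) (.lf 2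
  128))))))))))))))) (.dc 2 3 1 (.dc 2 5 1 (.dc 2 7 1 (.dc 3 7 1 (.ct 0 5 2 1 1 (.dc 2 1 0 (.dc 3
  1 0 (.ct 4 5 1 1 1 (.dc 1 1 0 (.ct 2 4 1 1 1 (.dc 3 5 0 (.ct 1 4 1 1 1 (.dc 3 3 0 (.ct 3 5 1 1
  1 (.dc 0 1 0 (.lf 2 144)) (.dc 0 1 1 (.lf 2 144)))) (.ct 3 5 1 1 1 (.dc 0 1 0 (.ct 1 3 1 1 1
  (.dc 3 3 0 (.ct 5 6 1 1 1 (.lf 2 144) (.lf 1 144))) (.ct 1 5 1 1 1 (.dc 3 3 0 (.ct 5 6 2 1 1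
  (.lf 2 160) (.lf 0 144))) (.dc 3 3 1 (.lf 2 144))))) (.dc 0 1 1 (.ct 1 5 1 1 1 (.dc 3 3 0 (.lf
  2 144)) (.dc 3 3 1 (.lf 2 144))))))) (.ct 2 5 1 1 1 (.dc 3 5 0 (.ct 2 3 1 1 1 (.ct 3 5 1 1 1
  (.dc 0 1 0 (.ct 1 3 1 1 1 (.dc 3 3 0 (.lf 1 144)) (.ct 1 5 1 1 1 (.dc 3 3 0 (.ct 5 6 1 1 1 (.lf
  1 144) (.lf 0 128))) (.dc 3 3 1 (.ct 2 6 1 2 1 (.lf 2 144) (.lf 0 128)))))) (.dc 0 1 1 (.ct 1 5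
  1 1 1 (.dc 3 3 0 (.lf 1 144)) (.dc 3 3 1 (.lf 1 144))))) (.dc 0 1 0 (.ct 1 5 1 1 1 (.dc 3 3 0
  (.lf 0 128)) (.dc 3 3 1 (.lf 0 128)))))) (.dc 3 3 1 (.dc 3 5 1 (.ct 3 5 1 1 1 (.dc 0 1 0 (.lf 0
  128)) (.dc 0 1 1 (.ct 2 3 1 1 1 (.lf 1 128) (.lf 0 112))))))))) (.dc 0 1 1 (.dc 1 1 1 (.ct 2 5
  1 1 1 (.dc 3 5 0 (.ct 1 5 1 1 1 (.dc 3 3 0 (.lf 2 144)) (.dc 3 3 1 (.ct 2 6 3 7 1 (.lf 3 128)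
  (.lf 2 128))))) (.dc 3 3 1 (.dc 3 5 1 (.ct 2 4 1 1 1 (.ct 2 6 1 4 1 (.ct 5 6 6 7 1 (.lf 3 160)
  (.lf 2 160)) (.lf 2 128)) (.ct 2 3 1 1 1 (.ct 2 6 1 2 1 (.ct 4 6 3 8 1 (.lf 3 144) (.ct 5 6 72
  7 1 (.lf 2 160) (.lf 1 144))) (.lf 1 144)) (.ct 2 6 1 2 1 (.ct 3 6 1 1 1 (.lf 2 144) (.lf 0
  128)) (.lf 0 128)))))))))))) (.dc 0 1 1 (.dc 1 1 1 (.dc 2 1 1 (.dc 3 3 1 (.dc 3 5 1 (.ct 0 5 2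
  1 1 (.dc 3 1 0 (.ct 2 4 1 1 1 (.ct 2 6 3 4 1 (.ct 5 6 9 4 1 (.ct 0 6 3 5 1 (.ct 5 6 3 16 1 (.lf
  4 160) (.lf 3 160)) (.lf 3 144)) (.lf 2 144)) (.lf 2 128)) (.ct 2 3 1 1 1 (.ct 2 6 1 2 1 (.ct 4
  6 3 4 1 (.ct 5 6 3 8 1 (.lf 4 144) (.lf 3 144)) (.ct 5 6 12 1 1 (.lf 2 144) (.lf 1 144))) (.lf
  1 128)) (.ct 2 6 1 2 1 (.ct 3 6 1 1 1 (.ct 4 6 3 4 1 (.lf 3 128) (.lf 2 128)) (.ct 3 6 1 1 1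
  (.lf 1 144) (.lf 0 128))) (.lf 0 128))))) (.dc 3 1 1 (.ct 2 6 3 2 1 (.ct 2 6 3 4 1 (.ct 5 6 6 5
  1 (.lf 4 160) (.ct 5 6 27 1 1 (.lf 3 160) (.lf 2 160))) (.ct 2 4 1 2 1 (.lf 2 144) (.ct 2 3 1 4
  1 (.lf 1 144) (.ct 2 3 4 3 1 (.lf 1 144) (.lf 0 144))))) (.ct 2 3 1 1 1 (.ct 2 4 2 3 1 (.ct 4 6
  2 1 1 (.ct 2 6 2 1 1 (.lf 1 144) (.lf 2 160)) (.lf 2 144)) (.lf 1 128)) (.ct 2 4 1 2 1 (.ct 3 4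
  2 3 1 (.lf 2 128) (.ct 4 6 1 2 1 (.ct 2 6 6 1 1 (.lf 0 144) (.ct 2 3 1 4 1 (.lf 0 144) (.lf 1
  144))) (.ct 2 3 3 2 1 (.ct 3 4 12 1 1 (.lf 1 144) (.lf 0 144)) (.ct 2 6 3 1 1 (.lf 1 160) (.lf
  2 160))))) (.lf 0 112)))))))))))))))))))))

theorem dt14 : le (run cls3 3 tr14 [[1, 0, 0, 0, 0, 0, 0], [1, 1, 0, 0, 0, 0, 0], [2, 1, 1, 0,
  0, 0, 0], [1, 0, 0, 1, 0, 0, 0], [0, 0, 0, 1, 1, 0, 0], [1, 1, 1, 1, 1, 1, 0], [2, 0, 0, 1, 1,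
  1, 1]] 353746365 14) 627938993973 = true := by decide +kernel

end Pool.Agent.Work.MP_122e00_nt.Four.Cx

end

section

set_option autoImplicit false

set_option maxRecDepth 100000

/-!
# The certificate: data
-/

namespace Pool.Agent.Work.MP_122e00_nt.Four.Cx

open Sharp.Cx

/-- data -/
noncomputable def trs1 : Ct := (.dc 1 0 0 (.dc 2 0 0 (.dc 3 0 0 (.ct 0 1 1 1 1 (.dc 1 1 0 (.dc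
  2 1 0 (.dc 3 1 0 (.ct 1 3 1 1 1 (.dc 0 0 0 (.ct 0 3 1 2 1 (.dc 0 1 0 (.lf 0 80)) (.ct 0 4 1 1 1
  (.dc 0 1 0 (.lf 0 80)) (.dc 0 1 1 (.lf 0 80))))) (.ct 1 4 2 1 1 (.dc 0 0 0 (.ct 0 4 1 1 1 (.dc
  0 1 0 (.lf 0 64)) (.dc 0 1 1 (.lf 0 64)))) (.dc 0 0 1 (.dc 0 1 1 (.lf 0 64)))))))) (.dc 0 0 0
  (.ct 0 4 2 1 1 (.dc 1 1 0 (.dc 2 1 0 (.dc 3 1 0 (.ct 1 3 1 2 1 (.dc 0 1 0 (.lf 0 80)) (.ct 1 4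
  1 1 1 (.dc 0 1 0 (.lf 0 80)) (.dc 0 1 1 (.lf 0 80))))))) (.ct 0 3 1 1 1 (.dc 1 1 0 (.dc 2 1 0
  (.dc 3 1 0 (.ct 1 3 1 2 1 (.dc 0 1 0 (.lf 0 80)) (.dc 0 1 1 (.lf 0 80)))))) (.dc 0 1 1 (.dc 1 1
  1 (.ct 0 2 2 1 1 (.dc 2 1 0 (.dc 3 1 0 (.lf 0 64))) (.dc 2 1 1 (.ct 0 3 2 1 1 (.dc 3 1 0 (.lf 0
  64)) (.dc 3 1 1 (.lf 0 64))))))))))))))

theorem dts1 : le (run cls1 1 trs1 [[1, 0, 0, 0, 0], [0, 1, 0, 0, 0], [0, 1, 1, 0, 0], [0, 1,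
  1, 1, 0], [0, 1, 1, 1, 1]] 0 0) 82451988 = true := by decide +kernel

/-- data -/
noncomputable def trs2 : Ct := (.dc 1 0 0 (.dc 1 2 0 (.dc 2 0 0 (.dc 2 2 0 (.dc 3 0 0 (.dc 3 2
  0 (.ct 0 2 1 1 1 (.dc 1 1 0 (.dc 2 1 0 (.dc 3 1 0 (.ct 2 4 1 1 1 (.dc 0 0 0 (.dc 0 2 0 (.ct 1 5
  1 1 1 (.dc 1 3 0 (.dc 2 3 0 (.dc 3 3 0 (.ct 0 4 1 2 1 (.dc 0 1 0 (.dc 0 3 0 (.lf 0 80))) (.ct 0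
  5 1 1 1 (.dc 0 1 0 (.dc 0 3 0 (.lf 0 80))) (.dc 0 3 1 (.ct 0 1 1 1 1 (.dc 0 1 0 (.lf 0 80))
  (.dc 0 1 1 (.lf 0 80))))))))) (.ct 1 4 1 2 1 (.dc 1 3 0 (.dc 2 3 0 (.dc 3 3 0 (.ct 0 4 1 2 1
  (.dc 0 1 0 (.dc 0 3 0 (.lf 0 80))) (.dc 0 3 1 (.ct 0 1 1 1 1 (.dc 0 1 0 (.lf 0 96)) (.ct 0 5 1
  1 1 (.dc 0 1 0 (.lf 0 96)) (.dc 0 1 1 (.lf 0 96))))))))) (.dc 0 3 1 (.ct 1 2 1 1 1 (.dc 1 3 0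
  (.dc 2 3 0 (.dc 3 3 0 (.ct 0 4 1 1 1 (.dc 0 1 0 (.lf 0 96)) (.ct 0 5 1 1 1 (.dc 0 1 0 (.lf 0
  96)) (.dc 0 1 1 (.lf 0 96))))))) (.dc 1 3 1 (.ct 1 3 1 1 1 (.dc 2 3 0 (.dc 3 3 0 (.ct 0 4 1 1 1
  (.dc 0 1 0 (.lf 0 96)) (.ct 0 5 1 1 1 (.dc 0 1 0 (.lf 0 96)) (.dc 0 1 1 (.lf 0 96)))))) (.dc 2
  3 1 (.ct 0 5 1 1 1 (.dc 0 1 0 (.ct 1 2 1 1 1 (.dc 3 3 0 (.lf 0 80)) (.ct 1 4 2 1 1 (.dc 3 3 0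
  (.lf 0 80)) (.dc 3 3 1 (.lf 0 80))))) (.ct 1 2 1 1 1 (.dc 3 3 0 (.ct 0 4 1 1 1 (.dc 0 1 0 (.lf
  0 96)) (.dc 0 1 1 (.lf 0 96)))) (.ct 0 4 1 1 1 (.dc 0 1 0 (.ct 0 1 1 2 1 (.ct 1 4 2 1 1 (.dc 3
  3 0 (.lf 0 112)) (.dc 3 3 1 (.lf 0 112))) (.dc 3 3 0 (.lf 0 112)))) (.dc 0 1 1 (.ct 1 4 2 1 1
  (.dc 3 3 0 (.lf 0 112)) (.dc 3 3 1 (.lf 0 96)))))))))))))))) (.ct 1 2 1 2 1 (.dc 1 3 0 (.dc 2 3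
  0 (.dc 3 3 0 (.ct 2 5 2 1 1 (.dc 0 0 0 (.ct 1 5 1 1 1 (.dc 0 2 0 (.ct 0 5 1 1 1 (.dc 0 1 0 (.ct
  1 5 1 1 1 (.dc 0 3 0 (.lf 0 80)) (.dc 0 3 1 (.lf 0 80)))) (.dc 0 1 1 (.dc 0 3 1 (.lf 0 80)))))
  (.dc 0 1 1 (.dc 0 2 1 (.dc 0 3 1 (.lf 0 80)))))) (.dc 0 0 1 (.dc 0 1 1 (.dc 0 2 1 (.dc 0 3 1
  (.lf 0 80))))))))) (.dc 0 0 0 (.ct 1 5 1 1 1 (.dc 1 3 0 (.dc 2 3 0 (.dc 3 3 0 (.ct 2 5 1 1 1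
  (.dc 0 2 0 (.ct 0 5 1 1 1 (.dc 0 1 0 (.ct 2 5 1 1 1 (.dc 0 3 0 (.lf 0 80)) (.dc 0 3 1 (.lf 0
  80)))) (.dc 0 3 1 (.ct 0 1 1 1 1 (.dc 0 1 0 (.lf 0 80)) (.dc 0 1 1 (.lf 0 80)))))) (.dc 0 3 1
  (.ct 1 2 1 1 1 (.dc 0 1 1 (.dc 0 2 1 (.lf 0 96))) (.dc 0 2 0 (.ct 0 1 1 1 1 (.dc 0 1 0 (.lf 0
  96)) (.dc 0 1 1 (.lf 0 96)))))))))) (.dc 0 3 1 (.ct 1 4 1 1 1 (.dc 1 3 0 (.dc 2 3 0 (.dc 3 3 0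
  (.ct 2 5 1 1 1 (.dc 0 2 0 (.ct 0 5 1 1 1 (.dc 0 1 0 (.lf 0 96)) (.dc 0 1 1 (.lf 0 96)))) (.dc 0
  1 1 (.dc 0 2 1 (.lf 0 96))))))) (.dc 1 3 1 (.ct 2 5 1 1 1 (.dc 0 2 0 (.ct 1 3 1 1 1 (.dc 2 3 0
  (.dc 3 3 0 (.ct 0 5 1 1 1 (.dc 0 1 0 (.lf 0 96)) (.dc 0 1 1 (.lf 0 96))))) (.dc 2 3 1 (.ct 0 5
  1 1 1 (.dc 0 1 0 (.ct 1 4 1 1 1 (.dc 3 3 0 (.lf 0 96)) (.dc 3 3 1 (.lf 0 96)))) (.dc 0 1 1 (.ct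
  1 4 1 1 1 (.dc 3 3 0 (.lf 0 96)) (.dc 3 3 1 (.lf 0 96)))))))) (.dc 0 1 1 (.dc 0 2 1 (.ct 1 3 1
  1 1 (.dc 2 3 0 (.dc 3 3 0 (.lf 0 96))) (.dc 2 3 1 (.ct 1 4 1 1 1 (.dc 3 3 0 (.lf 0 96)) (.dc 3
  3 1 (.lf 0 96)))))))))))))))))) (.dc 0 0 0 (.dc 0 2 0 (.ct 0 5 2 1 1 (.dc 1 1 0 (.dc 2 1 0 (.dc
  3 1 0 (.ct 1 5 1 1 1 (.dc 1 3 0 (.dc 2 3 0 (.dc 3 3 0 (.ct 2 4 1 2 1 (.dc 0 1 0 (.dc 0 3 0 (.lf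
  0 80))) (.ct 2 5 1 1 1 (.dc 0 1 0 (.dc 0 3 0 (.lf 0 80))) (.dc 0 3 1 (.ct 1 2 1 1 1 (.dc 0 1 1
  (.lf 0 80)) (.dc 0 1 0 (.lf 0 80))))))))) (.ct 1 4 1 2 1 (.dc 1 3 0 (.dc 2 3 0 (.dc 3 3 0 (.ct
  2 4 1 2 1 (.dc 0 1 0 (.dc 0 3 0 (.lf 0 80))) (.dc 0 3 1 (.ct 1 2 1 1 1 (.ct 2 5 1 1 1 (.dc 0 1
  0 (.lf 0 96)) (.dc 0 1 1 (.lf 0 96))) (.dc 0 1 0 (.lf 0 96)))))))) (.dc 0 3 1 (.dc 1 3 1 (.ct 1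
  3 1 1 1 (.dc 2 3 0 (.dc 3 3 0 (.ct 2 4 1 1 1 (.dc 0 1 0 (.lf 0 96)) (.ct 2 5 1 1 1 (.dc 0 1 0
  (.lf 0 96)) (.dc 0 1 1 (.lf 0 96)))))) (.dc 2 3 1 (.ct 2 5 1 1 1 (.dc 0 1 0 (.ct 1 4 2 1 1 (.dc
  3 3 0 (.lf 0 80)) (.dc 3 3 1 (.lf 0 80)))) (.ct 2 4 1 1 1 (.dc 0 1 0 (.ct 1 2 2 1 1 (.dc 3 3 0
  (.lf 0 128)) (.ct 1 4 2 1 1 (.dc 3 3 0 (.lf 0 112)) (.dc 3 3 1 (.lf 0 112))))) (.dc 0 1 1 (.ct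
  1 4 2 1 1 (.dc 3 3 0 (.lf 0 128)) (.dc 3 3 1 (.lf 0 112))))))))))))))) (.ct 0 4 1 1 1 (.dc 1 1
  0 (.dc 2 1 0 (.dc 3 1 0 (.ct 1 4 1 2 1 (.dc 1 3 0 (.dc 2 3 0 (.dc 3 3 0 (.ct 2 4 1 2 1 (.dc 0 1
  0 (.dc 0 3 0 (.lf 0 80))) (.dc 0 3 1 (.ct 1 2 1 1 1 (.dc 0 1 1 (.lf 0 96)) (.dc 0 1 0 (.lf 0
  96)))))))) (.dc 0 3 1 (.dc 1 3 1 (.ct 1 3 1 1 1 (.dc 2 3 0 (.dc 3 3 0 (.ct 2 4 1 1 1 (.dc 0 1 0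
  (.lf 0 96)) (.dc 0 1 1 (.lf 0 96))))) (.dc 2 3 1 (.ct 0 1 1 1 1 (.ct 2 4 1 1 1 (.dc 0 1 0 (.ct
  1 2 2 1 1 (.dc 3 3 0 (.lf 0 128)) (.ct 1 4 2 1 1 (.dc 3 3 0 (.lf 0 112)) (.dc 3 3 1 (.lf 0
  96))))) (.dc 0 1 1 (.ct 1 4 2 1 1 (.dc 3 3 0 (.lf 0 112)) (.dc 3 3 1 (.lf 0 96))))) (.dc 3 3 0
  (.ct 2 4 1 1 1 (.dc 0 1 0 (.lf 0 96)) (.dc 0 1 1 (.lf 0 96))))))))))))) (.dc 0 1 1 (.dc 0 3 1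
  (.dc 1 1 1 (.dc 1 3 1 (.ct 0 3 2 1 1 (.dc 2 1 0 (.dc 3 1 0 (.ct 1 3 1 1 1 (.dc 2 3 0 (.dc 3 3 0
  (.lf 0 80))) (.dc 2 3 1 (.ct 1 4 1 1 1 (.dc 3 3 0 (.lf 0 80)) (.dc 3 3 1 (.lf 0 80))))))) (.dc
  2 1 1 (.dc 2 3 1 (.ct 0 4 2 1 1 (.dc 3 1 0 (.ct 1 4 1 1 1 (.dc 3 3 0 (.lf 0 80)) (.dc 3 3 1
  (.lf 0 80)))) (.dc 3 1 1 (.dc 3 3 1 (.lf 0 80))))))))))))))))))))))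

theorem dts2 : le (run cls2 2 trs2 [[1, 0, 0, 0, 0, 0], [1, 1, 0, 0, 0, 0], [0, 0, 1, 0, 0, 0],
  [0, 0, 1, 1, 0, 0], [0, 0, 1, 1, 1, 0], [0, 0, 1, 1, 1, 1]] 0 0) 1574024765 = true := by
  decide +kernel

end Pool.Agent.Work.MP_122e00_nt.Four.Cx

end
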