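import Pool.Agent.Work.MP_122e00_nt.Four.StmtsTail
import Pool.Agent.Work.MP_122e00_nt.Four.Stmts

/-! Bundle of small proof modules (one section per former module). -/

section

set_option autoImplicit false

/-!
# Four parts: item A1 (measurability)
-/

namespace Pool.Agent.Work.MP_122e00_nt.Four

open Finset Filter Topology MeasureTheory

open scoped ENNReal

open Two Gen Sharp

namespace IA1

theorem wt_meas : Measurable fun p : ℝ × ℝ => wt p.1 p.2 := by
  unfold wt
  exact ENNReal.measurable_ofReal.comp (by fun_prop)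

theorem PW_meas : ∀ k : ℕ, Measurable fun p : ℝ × (Fin k → ℝ) => PW k p.1 p.2 := by
  intro k
  induction k with
  | zero => exact measurable_const
  | succ k ih =>
    have h0 : Measurable fun p : ℝ × (Fin (k + 1) → ℝ) => p.2 0 :=
      (measurable_pi_apply 0).comp measurable_snd
    have h1 : Measurable fun p : ℝ × (Fin (k + 1) → ℝ) => Fin.tail p.2 :=
      measurable_pi_lambda _ fun i => (measurable_pi_apply i.succ).comp measurable_snd
    have h2 : Measurable fun p : ℝ × (Fin (k + 1) → ℝ) =>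
        wt p.1 (p.2 0) * PW k (p.1 - p.2 0) (Fin.tail p.2) :=
      (wt_meas.comp (measurable_fst.prodMk h0)).mul
        (ih.comp ((measurable_fst.sub h0).prodMk h1))
    have h3 : MeasurableSet {p : ℝ × (Fin (k + 1) → ℝ) | 0 < p.2 0 ∧ p.2 0 < p.1} :=
      (measurableSet_lt measurable_const h0).inter (measurableSet_lt h0 measurable_fst)
    exact Measurable.ite h3 h2 measurable_const

theorem AA_succ (z R : ℝ) (k : ℕ) : AA z (k + 1) R =
    ∫⁻ y, (Set.Ioo 0 R ∩ Set.Iic z).indicator (fun y => wt R y * AA z k (R - y)) y := by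
  rw [lintegral_indicator (measurableSet_Ioo.inter measurableSet_Iic)]
  rfl

theorem AA_meas : ∀ k : ℕ, Measurable fun p : ℝ × ℝ => AA p.1 k p.2 := by
  classical
  intro k
  induction k with
  | zero => exact measurable_const
  | succ k ih =>
    have h1 : ∀ p : ℝ × ℝ, AA p.1 (k + 1) p.2 =
        ∫⁻ y, (fun q : (ℝ × ℝ) × ℝ => if (0 < q.2 ∧ q.2 < q.1.2) ∧ q.2 ≤ q.1.1 then
          wt q.1.2 q.2 * AA q.1.1 k (q.1.2 - q.2) else 0) (p, y) := by
      intro p
      rw [AA_succ]
      refine lintegral_congr fun y => ?_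
      simp only [Set.indicator, Set.mem_inter_iff, Set.mem_Ioo, Set.mem_Iic]
    rw [show (fun p : ℝ × ℝ => AA p.1 (k + 1) p.2) = _ from funext h1]
    refine Measurable.lintegral_prod_right' (f := fun q : (ℝ × ℝ) × ℝ =>
      if (0 < q.2 ∧ q.2 < q.1.2) ∧ q.2 ≤ q.1.1 then
          wt q.1.2 q.2 * AA q.1.1 k (q.1.2 - q.2) else 0) ?_
    refine Measurable.ite ?_ ?_ measurable_const
    · exact ((measurableSet_lt measurable_const measurable_snd).inter
        (measurableSet_lt measurable_snd measurable_fst.snd)).inter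
        (measurableSet_le measurable_snd measurable_fst.fst)
    · exact (wt_meas.comp (measurable_fst.snd.prodMk measurable_snd)).mul
        (ih.comp (measurable_fst.fst.prodMk (measurable_fst.snd.sub measurable_snd)))

theorem Ind_meas (k i : ℕ) :
    Measurable fun p : ℝ × ℝ × (Fin k → ℝ) => Ind p.1 i p.2.1 p.2.2 := by
  classical
  have hx : ∀ l : Fin k, Measurable fun p : ℝ × ℝ × (Fin k → ℝ) => p.2.2 l := fun l =>
    (measurable_pi_apply l).comp (measurable_snd.comp measurable_snd)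
  have hl : ∀ l : Fin k, MeasurableSet {p : ℝ × ℝ × (Fin k → ℝ) | p.1 < p.2.2 l} := fun l =>
    measurableSet_lt measurable_fst (hx l)
  have h1 : Measurable fun p : ℝ × ℝ × (Fin k → ℝ) =>
      (Finset.univ.filter fun l => p.1 < p.2.2 l).card := by
    have h2 : (fun p : ℝ × ℝ × (Fin k → ℝ) => (Finset.univ.filter fun l => p.1 < p.2.2 l).card)
        = fun p => ∑ l : Fin k, if p.1 < p.2.2 l then 1 else 0 := by
      funext p
      rw [Finset.card_filter]
    rw [h2]
    exact Finset.measurable_sum _ fun l _ => Measurable.ite (hl l) measurable_const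
      measurable_const
  have h3 : Measurable fun p : ℝ × ℝ × (Fin k → ℝ) =>
      ∑ l ∈ Finset.univ.filter (fun l => p.1 < p.2.2 l), p.2.2 l := by
    have h2 : (fun p : ℝ × ℝ × (Fin k → ℝ) =>
        ∑ l ∈ Finset.univ.filter (fun l => p.1 < p.2.2 l), p.2.2 l)
        = fun p => ∑ l : Fin k, if p.1 < p.2.2 l then p.2.2 l else 0 := by
      funext p
      rw [Finset.sum_filter]
    rw [h2]
    exact Finset.measurable_sum _ fun l _ => Measurable.ite (hl l) (hx l) measurable_const
  have h4 : MeasurableSet {p : ℝ × ℝ × (Fin k → ℝ) |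
      (Finset.univ.filter fun l => p.1 < p.2.2 l).card = i ∧
        ∑ l ∈ Finset.univ.filter (fun l => p.1 < p.2.2 l), p.2.2 l < p.2.1} :=
    (h1 (measurableSet_singleton i)).inter
      (measurableSet_lt h3 (measurable_fst.comp measurable_snd))
  unfold Ind
  refine Measurable.ite ?_ measurable_const measurable_const
  convert h4

theorem Wo_meas (i : ℕ) : ∀ (α : Type) [MeasurableSpace α] (z c : α → ℝ) (φ : α → ℝ → ℝ≥0∞),
    Measurable z → Measurable c → Measurable (Function.uncurry φ) →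
    Measurable fun a => Wo (z a) i (c a) (φ a) := by
  classical
  induction i with
  | zero =>
    intro α _ z c φ hz hc hφ
    have h1 : Measurable fun a => φ a 0 := hφ.comp (measurable_id.prodMk measurable_const)
    have h2 : MeasurableSet {a | 0 < c a} := measurableSet_lt measurable_const hc
    exact Measurable.ite h2 h1 measurable_const
  | succ i ih =>
    intro α _ z c φ hz hc hφ
    have h1 : Measurable fun p : α × ℝ =>
        Wo (z p.1) i (c p.1 - p.2) (fun σ => φ p.1 (σ + p.2)) := by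
      refine ih (α × ℝ) (fun p => z p.1) (fun p => c p.1 - p.2)
        (fun p σ => φ p.1 (σ + p.2)) (hz.comp measurable_fst)
        ((hc.comp measurable_fst).sub measurable_snd) ?_
      exact hφ.comp (measurable_fst.fst.prodMk (measurable_snd.add measurable_fst.snd))
    have h2 : ∀ a, Wo (z a) (i + 1) (c a) (φ a) = ENNReal.ofReal (1 / ((i : ℝ) + 1)) *
        ∫⁻ y, (fun p : α × ℝ => if z p.1 < p.2 then ENNReal.ofReal (1 / p.2) *
          Wo (z p.1) i (c p.1 - p.2) (fun σ => φ p.1 (σ + p.2)) else 0) (a, y) := by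
      intro a
      show ENNReal.ofReal (1 / ((i : ℝ) + 1)) * ∫⁻ y in Set.Ioi (z a), ENNReal.ofReal (1 / y) *
        Wo (z a) i (c a - y) (fun σ => φ a (σ + y)) = _
      rw [← lintegral_indicator measurableSet_Ioi]
      rfl
    rw [show (fun a => Wo (z a) (i + 1) (c a) (φ a)) = _ from funext h2]
    refine Measurable.const_mul ?_ _
    refine Measurable.lintegral_prod_right' (f := fun p : α × ℝ => if z p.1 < p.2 then
      ENNReal.ofReal (1 / p.2) * Wo (z p.1) i (c p.1 - p.2) (fun σ => φ p.1 (σ + p.2)) else 0) ?_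
    refine Measurable.ite (measurableSet_lt (hz.comp measurable_fst) measurable_snd) ?_
      measurable_const
    exact (ENNReal.measurable_ofReal.comp (measurable_const.div measurable_snd)).mul h1

end IA1

theorem prfA1 : claimA1 :=
  ⟨IA1.PW_meas, IA1.AA_meas, IA1.Ind_meas, fun α _ i z c φ hz hc hφ =>
    IA1.Wo_meas i α z c φ hz hc hφ⟩

end Pool.Agent.Work.MP_122e00_nt.Four

end

section

set_option autoImplicit false

/-!
# Four parts: item A10 (monotonicity and scaling of `AA`)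
-/

namespace Pool.Agent.Work.MP_122e00_nt.Four

open Finset Filter Topology MeasureTheory

open scoped ENNReal

open Two Gen Sharp

namespace IA10

/-- linear substitution -/
theorem subst {R : ℝ} (hR : 0 < R) (F : ℝ → ℝ≥0∞) :
    ∫⁻ y, F y = ENNReal.ofReal R * ∫⁻ t, F (R * t) := by
  have h1 := Real.smul_map_volume_mul_left (ne_of_gt hR)
  have h2 : ∫⁻ y, F y = ∫⁻ y, F y ∂(ENNReal.ofReal |R| • Measure.map (R * ·) volume) := by
    rw [h1]
  rw [h2, lintegral_smul_measure, abs_of_pos hR,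
    (measurableEmbedding_mulLeft₀ (ne_of_gt hR)).lintegral_map]
  rfl

theorem dom_meas (R z : ℝ) : MeasurableSet (Set.Ioo (0 : ℝ) 1 ∩ {t : ℝ | R * t ≤ z}) :=
  measurableSet_Ioo.inter (measurableSet_le (measurable_const.mul measurable_id) measurable_const)

/-- the recursion, normalised -/
theorem rec {R : ℝ} (hR : 0 < R) (z : ℝ) (k : ℕ) : AA z (k + 1) R =
    ∫⁻ t in Set.Ioo (0 : ℝ) 1 ∩ {t : ℝ | R * t ≤ z},
      ENNReal.ofReal (4 * (1 - t) ^ 3) * AA z k (R * (1 - t)) := by
  have h1 : AA z (k + 1) R = ∫⁻ y in Set.Ioo 0 R ∩ Set.Iic z, wt R y * AA z k (R - y) := rfl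
  rw [h1, ← lintegral_indicator (measurableSet_Ioo.inter measurableSet_Iic),
    ← lintegral_indicator (dom_meas R z), subst hR, ← lintegral_const_mul' _ _ ENNReal.ofReal_ne_top]
  refine lintegral_congr fun t => ?_
  have h2 : R * t ∈ Set.Ioo 0 R ∩ Set.Iic z ↔ t ∈ Set.Ioo (0 : ℝ) 1 ∩ {t : ℝ | R * t ≤ z} := by
    constructor
    · rintro ⟨⟨h3, h4⟩, h5⟩
      refine ⟨⟨pos_of_mul_pos_right h3 hR.le, ?_⟩, h5⟩
      by_contra h6
      push Not at h6
      have := mul_le_mul_of_nonneg_left h6 hR.le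
      linarith
    · rintro ⟨⟨h3, h4⟩, h5⟩
      refine ⟨⟨mul_pos hR h3, ?_⟩, h5⟩
      have := mul_lt_mul_of_pos_left h4 hR
      linarith
  by_cases ht : t ∈ Set.Ioo (0 : ℝ) 1 ∩ {t : ℝ | R * t ≤ z}
  · rw [Set.indicator_of_mem (h2.2 ht), Set.indicator_of_mem ht, ← mul_assoc]
    have h3 : ENNReal.ofReal R * wt R (R * t) = ENNReal.ofReal (4 * (1 - t) ^ 3) := by
      unfold wt
      rw [← ENNReal.ofReal_mul hR.le]
      congr 1
      field_simp
    have h4 : R - R * t = R * (1 - t) := by ring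
    rw [h3, h4]
  · rw [Set.indicator_of_notMem (fun h => ht (h2.1 h)), Set.indicator_of_notMem ht, mul_zero]

theorem mono (z : ℝ) (k : ℕ) : ∀ R R' : ℝ, 0 < R → R ≤ R' → AA z k R' ≤ AA z k R := by
  induction k with
  | zero => intro R R' _ _; exact le_rfl
  | succ k ih =>
    intro R R' hR hRR'
    have hR' : 0 < R' := lt_of_lt_of_le hR hRR'
    rw [rec hR, rec hR']
    refine le_trans (setLIntegral_mono' (dom_meas R' z) (g := fun t =>
      ENNReal.ofReal (4 * (1 - t) ^ 3) * AA z k (R * (1 - t))) fun t ht => ?_)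
      (lintegral_mono_set fun t ht => ⟨ht.1, ?_⟩)
    · refine mul_le_mul_right ?_ _
      have h1 : 0 < 1 - t := by linarith [ht.1.2]
      exact ih _ _ (mul_pos hR h1) (mul_le_mul_of_nonneg_right hRR' h1.le)
    · have h1 : R' * t ≤ z := ht.2
      have h2 := mul_le_mul_of_nonneg_right hRR' ht.1.1.le
      exact le_trans h2 h1

theorem int_one : ∫⁻ t in Set.Ioo (0 : ℝ) 1, ENNReal.ofReal (4 * (1 - t) ^ 3) ≤ 1 := by
  have hc : Continuous fun t : ℝ => 4 * (1 - t) ^ 3 := by fun_prop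
  have hi : IntegrableOn (fun t : ℝ => 4 * (1 - t) ^ 3) (Set.Ioo 0 1) :=
    (hc.integrableOn_Icc (a := 0) (b := 1)).mono_set Set.Ioo_subset_Icc_self
  rw [← ofReal_integral_eq_lintegral_ofReal hi]
  · rw [← integral_Ioc_eq_integral_Ioo, ← intervalIntegral.integral_of_le zero_le_one,
      intervalIntegral.integral_const_mul,
      intervalIntegral.integral_comp_sub_left (fun t : ℝ => t ^ 3) 1, integral_pow]
    norm_num
  · refine (ae_restrict_iff' measurableSet_Ioo).2 (ae_of_all _ fun t ht => ?_)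
    have : 0 ≤ 1 - t := by linarith [ht.2]
    show 0 ≤ 4 * (1 - t) ^ 3
    positivity

theorem step (z : ℝ) (k : ℕ) : ∀ R : ℝ, 0 < R → AA z (k + 1) R ≤ AA z k R := by
  induction k with
  | zero =>
    intro R hR
    rw [rec hR]
    refine le_trans (le_trans (lintegral_mono_set Set.inter_subset_left) (le_of_eq ?_)) int_one
    refine lintegral_congr fun t => ?_
    show ENNReal.ofReal (4 * (1 - t) ^ 3) * 1 = _
    rw [mul_one]
  | succ k ih =>
    intro R hR
    rw [rec hR, rec hR z k]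
    refine setLIntegral_mono' (dom_meas R z) fun t ht => ?_
    refine mul_le_mul_right ?_ _
    exact ih _ (mul_pos hR (by linarith [ht.1.2]))

theorem le_one (z : ℝ) (k : ℕ) (R : ℝ) (hR : 0 < R) : AA z k R ≤ 1 := by
  induction k with
  | zero => exact le_rfl
  | succ k ih => exact (step z k R hR).trans ih

theorem scale (z a : ℝ) (ha : 0 < a) (k : ℕ) : ∀ R : ℝ, 0 < R →
    AA (a * z) k (a * R) = AA z k R := by
  induction k with
  | zero => intro R _; rfl
  | succ k ih =>
    intro R hR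
    rw [rec (mul_pos ha hR), rec hR]
    have h1 : (Set.Ioo (0 : ℝ) 1 ∩ {t : ℝ | a * R * t ≤ a * z}) =
        Set.Ioo (0 : ℝ) 1 ∩ {t : ℝ | R * t ≤ z} := by
      ext t
      constructor
      · rintro ⟨h2, h3⟩
        refine ⟨h2, ?_⟩
        have h4 : a * (R * t) ≤ a * z := by
          have h5 : a * R * t ≤ a * z := h3
          linarith
        exact le_of_mul_le_mul_left h4 ha
      · rintro ⟨h2, h3⟩
        refine ⟨h2, ?_⟩
        have h4 : R * t ≤ z := h3
        have h5 := mul_le_mul_of_nonneg_left h4 ha.le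
        show a * R * t ≤ a * z
        linarith
    rw [h1]
    refine setLIntegral_congr_fun (dom_meas R z) fun t ht => ?_
    have h2 : a * R * (1 - t) = a * (R * (1 - t)) := by ring
    show ENNReal.ofReal (4 * (1 - t) ^ 3) * AA (a * z) k (a * R * (1 - t)) =
      ENNReal.ofReal (4 * (1 - t) ^ 3) * AA z k (R * (1 - t))
    rw [h2, ih _ (mul_pos hR (by linarith [ht.1.2]))]

end IA10

theorem prfA10 : claimA10 :=
  ⟨fun k z R R' _ hR hRR' => IA10.mono z k R R' hR hRR',
    fun k z R _ hR => ⟨IA10.le_one z k R hR, IA10.step z k R hR⟩,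
    fun k z R a ha _ hR => IA10.scale z a ha k R hR⟩

end Pool.Agent.Work.MP_122e00_nt.Four

end

section

set_option autoImplicit false

/-!
# A13: the bound for the tail
-/

namespace Pool.Agent.Work.MP_122e00_nt.Four

open Finset Filter Topology MeasureTheory

open scoped ENNReal

open Two Gen Sharp

namespace IA13

theorem PW_pos : ∀ (k : ℕ) (R : ℝ) (x : Fin k → ℝ), PW k R x ≠ 0 → ∀ l, 0 < x l := by
  intro k
  induction k with
  | zero => intro R x _ l; exact l.elim0
  | succ k ih =>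
    intro R x h l
    unfold PW at h
    split_ifs at h with hx
    · have h2 : PW k (R - x 0) (Fin.tail x) ≠ 0 := right_ne_zero_of_mul h
      refine Fin.cases hx.1 (fun l' => ?_) l
      exact ih _ _ h2 l'
    · exact absurd rfl h

theorem Tj_mono {k j j' : ℕ} {c c₀ : ℝ} {x : Fin k → ℝ} (hx : ∀ l, 0 < x l) (hj : j' ≤ j)
    (hk : j ≤ k) (hc : c ≤ c₀) (h : Tj j c x) : Tj j' c₀ x := by
  intro S hS
  obtain ⟨u, hSu, -, hu⟩ := Finset.exists_subsuperset_card_eq (Finset.subset_univ S)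
    (hS.le.trans hj) (by rw [Finset.card_univ, Fintype.card_fin]; exact hk)
  calc ∑ i ∈ S, x i ≤ ∑ i ∈ u, x i :=
        Finset.sum_le_sum_of_subset_of_nonneg hSu (fun l _ _ => (hx l).le)
    _ < c := h u hu
    _ ≤ c₀ := hc

theorem sum_lintegral_le {ι α : Type*} [MeasurableSpace α] (μ : Measure α) (s : Finset ι)
    (f : ι → α → ℝ≥0∞) : ∑ i ∈ s, ∫⁻ a, f i a ∂μ ≤ ∫⁻ a, ∑ i ∈ s, f i a ∂μ := by
  classical
  induction s using Finset.induction_on with
  | empty => simp
  | insert a s ha ih =>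
    rw [Finset.sum_insert ha]
    calc ∫⁻ b, f a b ∂μ + ∑ i ∈ s, ∫⁻ b, f i b ∂μ
        ≤ ∫⁻ b, f a b ∂μ + ∫⁻ b, ∑ i ∈ s, f i b ∂μ := by gcongr
      _ ≤ ∫⁻ b, f a b + ∑ i ∈ s, f i b ∂μ := le_lintegral_add _ _
      _ = ∫⁻ b, ∑ i ∈ insert a s, f i b ∂μ := by
          congr 1; funext b; rw [Finset.sum_insert ha]

theorem AA_anti (h10 : claimA10) {z R : ℝ} (hz : 0 < z) (hR : 0 < R) {m n : ℕ} (h : m ≤ n) :
    AA z n R ≤ AA z m R := by
  induction n, h using Nat.le_induction with
  | base => exact le_rfl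
  | succ n _ ih => exact (h10.2.1 n z R hz hR).2.trans ih

end IA13

open IA13 in
theorem prfA13 : claimA1 → claimA2 → claimA4 → claimA5 → claimA8 → claimA10 → claimA12 →
    claimA13 := by
  classical
  intro _ h2 h4 h5 h8 h10 h12 j j' k m c c₀ hj'1 hj'j hjk hmk hc hcc hc1
  obtain ⟨i, rfl⟩ : ∃ i, j' = i + 1 := ⟨j' - 1, by omega⟩
  obtain ⟨k', rfl⟩ : ∃ k', k = k' + 1 := ⟨k - 1, by omega⟩
  have hik : i ≤ k' := by omega
  have hc₀ : 0 < c₀ := hc.trans_le hcc
  refine (h2 j (k' + 1) c).trans (mul_le_mul_right ?_ _)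
  -- replace `j` and `c`
  have hA : ∫⁻ x : Fin (k' + 1) → ℝ, (if Tj j c x then 1 else 0) * PW (k' + 1) 1 x ≤
      ∫⁻ x : Fin (k' + 1) → ℝ, (if Tj (i + 1) c₀ x then 1 else 0) * PW (k' + 1) 1 x := by
    refine lintegral_mono fun x => ?_
    by_cases hP : PW (k' + 1) 1 x = 0
    · simp [hP]
    · have hx := PW_pos _ _ _ hP
      by_cases hT : Tj j c x
      · rw [if_pos hT, if_pos (Tj_mono hx hj'j hjk hcc hT)]
      · rw [if_neg hT, zero_mul]
        exact zero_le
  refine hA.trans ((h4 k' i c₀ hik).trans ?_)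
  refine (sum_lintegral_le _ _ _).trans ?_
  -- the integrand
  set S : Set ℝ := Set.Ioo 0 (c₀ / ((i + 1 : ℕ) : ℝ)) with hS
  set h : ℝ → ℝ≥0∞ := fun z =>
    ENNReal.ofReal ((c₀ - ((i + 1 : ℕ) : ℝ) * z) ^ (i + 1 - 1) / z ^ (i + 1) *
      (1 - ((i + 1 : ℕ) : ℝ) * z) ^ 3) * AA z m (1 - c₀) with hh
  set C : ℝ≥0∞ := ENNReal.ofReal (4 ^ (i + 1) / ((i + 1 - 1).factorial : ℝ) ^ 2) with hC
  have hpt : ∀ z ∈ Set.Ioi (0 : ℝ), ∑ i₀ : Fin (k' + 1), ∫⁻ x : Fin k' → ℝ,
      Ind z i (c₀ - z) x * PW (k' + 1) 1 (i₀.insertNth (α := fun _ => ℝ) z x) ≤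
      S.indicator (fun z => C * h z) z := by
    intro z hz
    have hz0 : (0 : ℝ) < z := hz
    refine (h12 k' i z 1 (c₀ - z) hz0 one_pos).trans ?_
    by_cases hzc : c₀ - z ≤ i * z
    · -- the integral is zero
      have h0 : Wo z i (c₀ - z) (fun σ => if σ + z < 1 then
          ENNReal.ofReal (((1 - σ - z) / 1) ^ 3) * AA z (k' - i) (1 - σ - z) else 0) = 0 := by
        refine le_antisymm ?_ zero_le
        calc _ ≤ Wo z i (c₀ - z) (fun _ => 1) := by
              refine (h5 i z (c₀ - z) hz0.le).2.2 _ _ fun σ h1 h2 => ?_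
              exact absurd (h1.trans_lt h2) (not_lt.2 hzc)
          _ = 0 := (h8 i z (c₀ - z) hz0).1 hzc
      rw [h0, mul_zero]
      exact zero_le
    · push Not at hzc
      have hzS : z ∈ S := by
        refine ⟨hz0, ?_⟩
        rw [lt_div_iff₀ (by positivity)]
        push_cast
        linarith
      rw [Set.indicator_of_mem hzS]
      set D : ℝ≥0∞ := ENNReal.ofReal ((1 - ((i + 1 : ℕ) : ℝ) * z) ^ 3) * AA z m (1 - c₀) with hD
      have hW : Wo z i (c₀ - z) (fun σ => if σ + z < 1 then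
          ENNReal.ofReal (((1 - σ - z) / 1) ^ 3) * AA z (k' - i) (1 - σ - z) else 0) ≤
          D * ENNReal.ofReal (((c₀ - z - i * z) / z) ^ i / (i.factorial : ℝ) ^ 2) := by
        calc _ ≤ Wo z i (c₀ - z) (fun _ => D * 1) := by
              refine (h5 i z (c₀ - z) hz0.le).2.2 _ _ fun σ h1 h2 => ?_
              have hσ : σ + z < 1 := by linarith
              rw [if_pos hσ, mul_one, hD]
              refine mul_le_mul' (ENNReal.ofReal_le_ofReal ?_) ?_
              · rw [div_one]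
                refine pow_le_pow_left₀ (by linarith) ?_ 3
                push_cast
                linarith
              · refine (h10.1 (k' - i) z (1 - c₀) (1 - σ - z) hz0 (by linarith)
                  (by linarith)).trans ?_
                exact AA_anti h10 hz0 (by linarith) (by omega)
          _ = D * Wo z i (c₀ - z) (fun _ => 1) :=
              (h5 i z (c₀ - z) hz0.le).1 D (fun _ => 1) measurable_const
          _ ≤ _ := mul_le_mul_right ((h8 i z (c₀ - z) hz0).2 hzc.le) _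
      refine (mul_le_mul_right hW _).trans (le_of_eq ?_)
      have hi1 : i + 1 - 1 = i := by omega
      have h4i : (4 : ℝ≥0∞) ^ i = ENNReal.ofReal (4 ^ i) := by
        rw [ENNReal.ofReal_pow (by norm_num)]
        norm_num
      have hnz : (0 : ℝ) ≤ c₀ - z - i * z := by linarith
      have hA1 : (0 : ℝ) ≤ 4 / z := by positivity
      have hA2 : (0 : ℝ) ≤ (4 : ℝ) ^ i := by positivity
      have hA3 : (0 : ℝ) ≤ (1 - ((i + 1 : ℕ) : ℝ) * z) ^ 3 := by
        refine pow_nonneg ?_ 3
        push_cast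
        linarith
      have hA4 : (0 : ℝ) ≤ ((c₀ - z - i * z) / z) ^ i / (i.factorial : ℝ) ^ 2 := by positivity
      have hA5 : (0 : ℝ) ≤ 4 ^ (i + 1) / (i.factorial : ℝ) ^ 2 := by positivity
      have hreal : 4 / z * 4 ^ i * (1 - ((i + 1 : ℕ) : ℝ) * z) ^ 3 *
          (((c₀ - z - i * z) / z) ^ i / (i.factorial : ℝ) ^ 2) =
          4 ^ (i + 1) / (i.factorial : ℝ) ^ 2 *
          ((c₀ - ((i + 1 : ℕ) : ℝ) * z) ^ i / z ^ (i + 1) * (1 - ((i + 1 : ℕ) : ℝ) * z) ^ 3) := by
        have e : c₀ - ((i + 1 : ℕ) : ℝ) * z = c₀ - z - i * z := by push_cast; ring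
        rw [e, div_pow, pow_succ z i, pow_succ (4 : ℝ) i]
        field_simp
      simp only [hh, hC, hi1]
      rw [hD, h4i]
      calc ENNReal.ofReal (4 / z) * ENNReal.ofReal (4 ^ i) *
            (ENNReal.ofReal ((1 - ((i + 1 : ℕ) : ℝ) * z) ^ 3) * AA z m (1 - c₀) *
              ENNReal.ofReal (((c₀ - z - i * z) / z) ^ i / (i.factorial : ℝ) ^ 2))
          = (ENNReal.ofReal (4 / z) * ENNReal.ofReal (4 ^ i) *
            ENNReal.ofReal ((1 - ((i + 1 : ℕ) : ℝ) * z) ^ 3) *
              ENNReal.ofReal (((c₀ - z - i * z) / z) ^ i / (i.factorial : ℝ) ^ 2)) *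
              AA z m (1 - c₀) := by ring
        _ = ENNReal.ofReal (4 / z * 4 ^ i * (1 - ((i + 1 : ℕ) : ℝ) * z) ^ 3 *
              (((c₀ - z - i * z) / z) ^ i / (i.factorial : ℝ) ^ 2)) * AA z m (1 - c₀) := by
            rw [← ENNReal.ofReal_mul hA1, ← ENNReal.ofReal_mul (mul_nonneg hA1 hA2),
              ← ENNReal.ofReal_mul (mul_nonneg (mul_nonneg hA1 hA2) hA3)]
        _ = _ := by
            rw [hreal, ENNReal.ofReal_mul hA5, mul_assoc]
  calc ∫⁻ z in Set.Ioi (0 : ℝ), ∑ i₀ : Fin (k' + 1), ∫⁻ x : Fin k' → ℝ,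
        Ind z i (c₀ - z) x * PW (k' + 1) 1 (i₀.insertNth (α := fun _ => ℝ) z x)
      ≤ ∫⁻ z in Set.Ioi (0 : ℝ), S.indicator (fun z => C * h z) z :=
        setLIntegral_mono' measurableSet_Ioi hpt
    _ ≤ ∫⁻ z, S.indicator (fun z => C * h z) z := setLIntegral_le_lintegral _ _
    _ = ∫⁻ z in S, C * h z := lintegral_indicator measurableSet_Ioo _
    _ = C * ∫⁻ z in S, h z := lintegral_const_mul' _ _ ENNReal.ofReal_ne_top
    _ = Fj (i + 1) m c₀ := rfl

end Pool.Agent.Work.MP_122e00_nt.Four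

end

section

set_option autoImplicit false

/-!
# Item A2: the probability as an integral over the picks
-/

namespace Pool.Agent.Work.MP_122e00_nt.Four

open Finset Filter Topology MeasureTheory

open scoped ENNReal

open Two Gen Sharp

namespace IA2

/-- the sum over the indices below `j.succ` -/
theorem sum_lt_succ {k : ℕ} (x : Fin (k + 1) → ℝ) (j : Fin k) :
    ∑ i ∈ Finset.univ.filter (fun i : Fin (k + 1) => i < j.succ), x i =
      x 0 + ∑ i ∈ Finset.univ.filter (fun i : Fin k => i < j), Fin.tail x i := by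
  rw [Finset.sum_filter, Fin.sum_univ_succ, Finset.sum_filter, if_pos (Fin.succ_pos j)]
  congr 1
  refine Finset.sum_congr rfl fun i _ => ?_
  simp only [Fin.succ_lt_succ_iff]
  rfl

open Classical in
theorem PW_eq (k : ℕ) : ∀ (R : ℝ) (x : Fin k → ℝ), 0 < R →
    PW k R x = if (∀ i, 0 < x i) ∧ ∑ i, x i < R then
      ENNReal.ofReal ((∏ j : Fin k,
        (4 / (R - ∑ i ∈ Finset.univ.filter (fun i : Fin k => i < j), x i))) *
          ((R - ∑ i, x i) / R) ^ 3) else 0 := by
  induction k with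
  | zero =>
    intro R x hR
    have h : (∀ i : Fin 0, 0 < x i) ∧ ∑ i, x i < R := ⟨fun i => i.elim0, by simpa using hR⟩
    rw [if_pos h]
    show (1 : ℝ≥0∞) = _
    simp [div_self hR.ne']
  | succ k ih =>
    intro R x hR
    show (if 0 < x 0 ∧ x 0 < R then wt R (x 0) * PW k (R - x 0) (Fin.tail x) else 0) = _
    by_cases h0 : 0 < x 0 ∧ x 0 < R
    · rw [if_pos h0, ih (R - x 0) (Fin.tail x) (by linarith [h0.2])]
      have hsum : ∑ i, x i = x 0 + ∑ i, Fin.tail x i := by
        rw [Fin.sum_univ_succ]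
        rfl
      by_cases h1 : (∀ i, 0 < Fin.tail x i) ∧ ∑ i, Fin.tail x i < R - x 0
      · have h2 : (∀ i, 0 < x i) ∧ ∑ i, x i < R := by
          refine ⟨fun i => ?_, by rw [hsum]; linarith [h1.2]⟩
          refine Fin.cases h0.1 (fun i => h1.1 i) i
        rw [if_pos h1, if_pos h2]
        unfold wt
        have hR' : 0 < R - x 0 := by linarith [h0.2]
        rw [← ENNReal.ofReal_mul (by positivity)]
        congr 1
        rw [Fin.prod_univ_succ]
        have h3 : ∑ i ∈ Finset.univ.filter (fun i : Fin (k + 1) => i < 0), x i = 0 := by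
          simp
        rw [h3, sub_zero]
        have h4 : ∀ j : Fin k,
            R - ∑ i ∈ Finset.univ.filter (fun i : Fin (k + 1) => i < j.succ), x i =
            R - x 0 - ∑ i ∈ Finset.univ.filter (fun i : Fin k => i < j), Fin.tail x i := by
          intro j
          rw [sum_lt_succ]
          ring
        simp_rw [h4]
        rw [hsum]
        have h5 : (R - (x 0 + ∑ i, Fin.tail x i)) / R =
            (R - x 0) / R * ((R - x 0 - ∑ i, Fin.tail x i) / (R - x 0)) := by
          field_simp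
          ring
        rw [h5, mul_pow]
        ring
      · have h2 : ¬ ((∀ i, 0 < x i) ∧ ∑ i, x i < R) := by
          rintro ⟨h2, h3⟩
          refine h1 ⟨fun i => h2 i.succ, ?_⟩
          rw [hsum] at h3
          linarith
        rw [if_neg h1, if_neg h2, mul_zero]
    · have h2 : ¬ ((∀ i, 0 < x i) ∧ ∑ i, x i < R) := by
        rintro ⟨h2, h3⟩
        refine h0 ⟨h2 0, ?_⟩
        have h4 : x 0 ≤ ∑ i, x i :=
          Finset.single_le_sum (f := x) (fun i _ => (h2 i).le) (Finset.mem_univ 0)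
        linarith
      rw [if_neg h0, if_neg h2]

theorem meas_Tj (j k : ℕ) (c : ℝ) : MeasurableSet {x : Fin k → ℝ | Tj j c x} := by
  have h : {x : Fin k → ℝ | Tj j c x} =
      ⋂ S : Finset (Fin k), ⋂ _ : S.card = j, {x | ∑ i ∈ S, x i < c} := by
    ext x
    simp [Tj]
  rw [h]
  refine MeasurableSet.iInter fun S => MeasurableSet.iInter fun _ => ?_
  exact measurableSet_lt (Finset.measurable_sum _ fun i _ => measurable_pi_apply i)
    measurable_const

end IA2

open IA2 in
open Classical in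
theorem prfA2 : Gen.claimB8 → claimA2 := by
  intro hB j k c
  have hTm := meas_Tj j k c
  have hfm : Measurable fun x : Fin k → ℝ => if Tj j c x then (1 : ℝ) else 0 :=
    Measurable.ite hTm measurable_const measurable_const
  have hB' := hB 3 k (fun x => if Tj j c x then (1 : ℝ) else 0) 1 hfm (by
    intro x
    split_ifs <;> norm_num)
  have hDm : MeasurableSet {x : Fin k → ℝ | (∀ i, 0 < x i) ∧ ∑ i, x i < 1} := by
    refine MeasurableSet.inter ?_ ?_
    · have h : {x : Fin k → ℝ | ∀ i, 0 < x i} = ⋂ i, {x | 0 < x i} := by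
        ext x
        simp
      show MeasurableSet {x : Fin k → ℝ | ∀ i, 0 < x i}
      rw [h]
      exact MeasurableSet.iInter fun i => measurableSet_lt measurable_const (measurable_pi_apply i)
    · exact measurableSet_lt (Finset.measurable_sum _ fun i _ => measurable_pi_apply i)
        measurable_const
  let g : (Fin k → ℝ) → ℝ := fun x => (if Tj j c x then (1 : ℝ) else 0) *
    (∏ j : Fin k, (1 - ∑ i ∈ Finset.univ.filter (fun i : Fin k => i < j), x i)⁻¹) *
      ((1 - ∑ i, x i) ^ 3 / ((3 : ℕ).factorial : ℝ))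
  have hgm : Measurable g := by
    refine (hfm.mul (Finset.measurable_prod _ fun i _ => ?_)).mul ?_
    · exact (measurable_const.sub (Finset.measurable_sum _ fun i _ => measurable_pi_apply i)).inv
    · exact ((measurable_const.sub (Finset.measurable_sum _ fun i _ =>
        measurable_pi_apply i)).pow_const 3).div_const _
  have hV : Vf 3 j k c = 4 ^ k * ∫ x in {x : Fin k → ℝ | (∀ i, 0 < x i) ∧ ∑ i, x i < 1}, g x := by
    unfold Vf
    have h4 : ((3 : ℕ) : ℝ) + 1 = 4 := by norm_num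
    rw [h4]
    congr 1
  -- positivity on the domain
  have hpos : ∀ x ∈ {x : Fin k → ℝ | (∀ i, 0 < x i) ∧ ∑ i, x i < 1}, ∀ j : Fin k,
      0 < 1 - ∑ i ∈ Finset.univ.filter (fun i : Fin k => i < j), x i := by
    rintro x ⟨h1, h2⟩ j
    have h3 : ∑ i ∈ Finset.univ.filter (fun i : Fin k => i < j), x i ≤ ∑ i, x i :=
      Finset.sum_le_sum_of_subset_of_nonneg (Finset.filter_subset _ _) fun i _ _ => (h1 i).le
    linarith
  have hg0 : ∀ x ∈ {x : Fin k → ℝ | (∀ i, 0 < x i) ∧ ∑ i, x i < 1}, 0 ≤ g x := by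
    intro x hx
    have h1 : 0 ≤ 1 - ∑ i, x i := by linarith [hx.2]
    refine mul_nonneg (mul_nonneg ?_ (Finset.prod_nonneg fun j _ => ?_)) (by positivity)
    · split_ifs <;> norm_num
    · exact (inv_pos.2 (hpos x hx j)).le
  have h1 : ∫ x in {x : Fin k → ℝ | (∀ i, 0 < x i) ∧ ∑ i, x i < 1}, g x =
      (∫⁻ x in {x : Fin k → ℝ | (∀ i, 0 < x i) ∧ ∑ i, x i < 1}, ENNReal.ofReal (g x)).toReal :=
    integral_eq_lintegral_of_nonneg_ae
      ((ae_restrict_iff' hDm).2 (ae_of_all _ fun x hx => hg0 x hx))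
      hgm.aestronglyMeasurable
  rw [hV, ENNReal.ofReal_mul (by positivity), h1]
  refine (mul_le_mul' le_rfl ENNReal.ofReal_toReal_le).trans ?_
  rw [← lintegral_const_mul' _ _ ENNReal.ofReal_ne_top,
    ← lintegral_const_mul' _ _ ENNReal.ofReal_ne_top, ← lintegral_indicator hDm]
  refine lintegral_mono fun x => ?_
  by_cases hx : x ∈ {x : Fin k → ℝ | (∀ i, 0 < x i) ∧ ∑ i, x i < 1}
  · rw [Set.indicator_of_mem hx]
    dsimp only
    rw [PW_eq k 1 x one_pos, if_pos (show (∀ i, 0 < x i) ∧ ∑ i, x i < 1 from hx)]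
    by_cases hT : Tj j c x
    · rw [if_pos hT, one_mul, ← ENNReal.ofReal_mul (by positivity),
        ← ENNReal.ofReal_mul (by positivity)]
      refine ENNReal.ofReal_le_ofReal (le_of_eq ?_)
      show 4 ^ k * ((if Tj j c x then (1 : ℝ) else 0) *
        (∏ j : Fin k, (1 - ∑ i ∈ Finset.univ.filter (fun i : Fin k => i < j), x i)⁻¹) *
          ((1 - ∑ i, x i) ^ 3 / ((3 : ℕ).factorial : ℝ))) = _
      rw [if_pos hT, one_mul]
      simp_rw [div_eq_mul_inv (4 : ℝ)]
      rw [Finset.prod_mul_distrib, Finset.prod_const, Finset.card_univ, Fintype.card_fin]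
      have h6 : ((3 : ℕ).factorial : ℝ) = 6 := by norm_num [Nat.factorial]
      rw [h6]
      ring
    · rw [if_neg hT, zero_mul, mul_zero]
      show ENNReal.ofReal (4 ^ k) * ENNReal.ofReal ((if Tj j c x then (1 : ℝ) else 0) *
        (∏ j : Fin k, (1 - ∑ i ∈ Finset.univ.filter (fun i : Fin k => i < j), x i)⁻¹) *
          ((1 - ∑ i, x i) ^ 3 / ((3 : ℕ).factorial : ℝ))) ≤ 0
      rw [if_neg hT, zero_mul, zero_mul, ENNReal.ofReal_zero, mul_zero]
  · rw [Set.indicator_of_notMem hx]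
    exact bot_le

end Pool.Agent.Work.MP_122e00_nt.Four

end

section

set_option autoImplicit false

/-!
# Item A3: the `(i + 1)`-st largest mark
-/

namespace Pool.Agent.Work.MP_122e00_nt.Four

open Finset Filter Topology MeasureTheory

open scoped ENNReal

open Two Gen Sharp

theorem prfA3 : claimA3 := by
  intro k i c x hx hi hT
  have hmono : StrictMono (x ∘ Tuple.sort x) :=
    (Tuple.monotone_sort x).strictMono_of_injective
      (hx.comp (Tuple.sort x).injective)
  obtain ⟨j0, hj0⟩ : ∃ j0 : Fin (k + 1), j0 = ⟨k - i, by omega⟩ := ⟨_, rfl⟩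
  refine ⟨Tuple.sort x j0, ?_⟩
  have hS : (Finset.univ.filter fun l => x (Tuple.sort x j0) < x l) =
      (Finset.Ioi j0).map (Tuple.sort x).toEmbedding := by
    ext l
    rw [mem_filter, Finset.mem_map]
    constructor
    · rintro ⟨-, hl⟩
      refine ⟨(Tuple.sort x).symm l, mem_Ioi.2 ?_, Equiv.apply_symm_apply _ l⟩
      rw [← hmono.lt_iff_lt]
      simpa using hl
    · rintro ⟨m, hm, rfl⟩
      exact ⟨mem_univ _, hmono (mem_Ioi.1 hm)⟩
  have hcard : (Finset.univ.filter fun l => x (Tuple.sort x j0) < x l).card = i := by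
    rw [hS, card_map, Fin.card_Ioi, hj0]
    show k + 1 - 1 - (k - i) = i
    omega
  have hnot : Tuple.sort x j0 ∉ Finset.univ.filter fun l => x (Tuple.sort x j0) < x l := by
    rw [mem_filter]
    exact fun h => lt_irrefl _ h.2
  have hsum := hT (insert (Tuple.sort x j0)
    (Finset.univ.filter fun l => x (Tuple.sort x j0) < x l)) (by
      rw [card_insert_of_notMem hnot, hcard])
  rw [sum_insert hnot] at hsum
  have h : ∑ l ∈ Finset.univ.filter (fun l => x (Tuple.sort x j0) < x l), x l <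
      c - x (Tuple.sort x j0) := by linarith
  exact if_pos ⟨hcard, h⟩

end Pool.Agent.Work.MP_122e00_nt.Four

end

section

set_option autoImplicit false

/-!
# Item A4: decomposition with respect to the `(i + 1)`-st largest mark
-/

namespace Pool.Agent.Work.MP_122e00_nt.Four

open Finset Filter Topology MeasureTheory

open scoped ENNReal

open Two Gen Sharp

namespace IA4

lemma null_eq {k : ℕ} (i j : Fin k) (h : i ≠ j) :
    volume {x : Fin k → ℝ | x i = x j} = 0 := by
  set f : (Fin k → ℝ) →ₗ[ℝ] ℝ :=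
    (LinearMap.proj i : (Fin k → ℝ) →ₗ[ℝ] ℝ) - LinearMap.proj j with hf
  have e : {x : Fin k → ℝ | x i = x j} =
      ((LinearMap.ker f : Submodule ℝ (Fin k → ℝ)) : Set (Fin k → ℝ)) := by
    ext x
    rw [SetLike.mem_coe, LinearMap.mem_ker]
    simp [hf, sub_eq_zero]
  rw [e]
  apply Measure.addHaar_submodule
  intro htop
  have h1 : (Pi.single i (1 : ℝ) : Fin k → ℝ) ∈ LinearMap.ker f := by
    rw [htop]
    trivial
  rw [LinearMap.mem_ker] at h1
  simp [hf, Ne.symm h] at h1

lemma ae_inj (k : ℕ) : ∀ᵐ x : Fin k → ℝ, Function.Injective x := by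
  have h : ∀ᵐ x : Fin k → ℝ, ∀ i j : Fin k, i ≠ j → x i ≠ x j := by
    rw [ae_all_iff]
    intro i
    rw [ae_all_iff]
    intro j
    by_cases hij : i = j
    · exact Eventually.of_forall fun x h => absurd hij h
    · rw [ae_iff]
      refine measure_mono_null ?_ (null_eq i j hij)
      intro x hx
      have hx' : ¬ (i ≠ j → x i ≠ x j) := hx
      by_contra hne
      exact hx' fun _ => hne
  filter_upwards [h] with x hx i j hij
  by_contra hne
  exact hx i j hne hij

lemma PW_pos : ∀ (k : ℕ) (R : ℝ) (x : Fin k → ℝ), PW k R x ≠ 0 → ∀ l, 0 < x l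
  | 0, _, _, _, l => l.elim0
  | k + 1, R, x, h, l => by
    simp only [PW] at h
    by_cases h1 : 0 < x 0 ∧ x 0 < R
    · rw [if_pos h1] at h
      have h2 : PW k (R - x 0) (Fin.tail x) ≠ 0 := right_ne_zero_of_mul h
      exact Fin.cases h1.1 (fun l => PW_pos k _ _ h2 l) l
    · rw [if_neg h1] at h
      exact absurd rfl h

lemma Ind_ins {k : ℕ} (z : ℝ) (i : ℕ) (c : ℝ) (i₀ : Fin (k + 1)) (x : Fin k → ℝ) :
    Ind z i c (i₀.insertNth (α := fun _ => ℝ) z x) = Ind z i c x := by
  have e1 : (Finset.univ.filter fun l => z < i₀.insertNth (α := fun _ => ℝ) z x l).card =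
      (Finset.univ.filter fun l => z < x l).card := by
    rw [Finset.card_filter, Finset.card_filter, Fin.sum_univ_succAbove _ i₀]
    simp
  have e2 : ∑ l ∈ Finset.univ.filter (fun l => z < i₀.insertNth (α := fun _ => ℝ) z x l),
      i₀.insertNth (α := fun _ => ℝ) z x l = ∑ l ∈ Finset.univ.filter (fun l => z < x l), x l := by
    rw [Finset.sum_filter, Finset.sum_filter, Fin.sum_univ_succAbove _ i₀]
    simp
  unfold Ind
  rw [e1, e2]

end IA4

open IA4

theorem prfA4 : claimA1 → claimA3 → claimA4 := by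
  intro h1 h3 k i c hik
  obtain ⟨hPW, -, hInd, -⟩ := h1
  have mPW : Measurable (fun x : Fin (k + 1) → ℝ => PW (k + 1) 1 x) :=
    (hPW (k + 1)).comp (measurable_const.prodMk measurable_id)
  set G : Fin (k + 1) → (Fin (k + 1) → ℝ) → ℝ≥0∞ := fun i₀ x =>
    (if 0 < x i₀ then 1 else 0) * (Ind (x i₀) i (c - x i₀) x * PW (k + 1) 1 x) with hG
  have mG : ∀ i₀, Measurable (G i₀) := by
    intro i₀
    have m1 : Measurable (fun x : Fin (k + 1) → ℝ => (if 0 < x i₀ then (1 : ℝ≥0∞) else 0)) :=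
      Measurable.ite (measurableSet_lt measurable_const (measurable_pi_apply i₀))
        measurable_const measurable_const
    have m3 : Measurable (fun x : Fin (k + 1) → ℝ =>
        ((x i₀, c - x i₀, x) : ℝ × ℝ × (Fin (k + 1) → ℝ))) :=
      (measurable_pi_apply i₀).prodMk
        ((measurable_const.sub (measurable_pi_apply i₀)).prodMk measurable_id)
    have m2 : Measurable (fun x : Fin (k + 1) → ℝ => Ind (x i₀) i (c - x i₀) x) :=
      (hInd (k + 1) i).comp m3
    exact m1.mul (m2.mul mPW)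
  have step : ∀ᵐ x : Fin (k + 1) → ℝ,
      (open Classical in (if Tj (i + 1) c x then (1 : ℝ≥0∞) else 0) * PW (k + 1) 1 x) ≤
        ∑ i₀, G i₀ x := by
    filter_upwards [ae_inj (k + 1)] with x hx
    by_cases hT : Tj (i + 1) c x
    · rw [if_pos hT, one_mul]
      by_cases h0 : PW (k + 1) 1 x = 0
      · rw [h0]
        exact zero_le
      · obtain ⟨i₀, hi₀⟩ := h3 k i c x hx hik hT
        refine le_trans (le_of_eq ?_) (Finset.single_le_sum (f := fun i₀ => G i₀ x)
          (fun _ _ => zero_le) (Finset.mem_univ i₀))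
        simp only [hG]
        rw [if_pos (PW_pos _ _ _ h0 i₀), hi₀, one_mul, one_mul]
    · rw [if_neg hT, zero_mul]
      exact zero_le
  refine (lintegral_mono_ae step).trans ?_
  rw [lintegral_finsetSum _ fun i₀ _ => mG i₀]
  refine Finset.sum_le_sum fun i₀ _ => le_of_eq ?_
  have hmp := (volume_preserving_piFinSuccAbove (fun _ : Fin (k + 1) => ℝ) i₀).symm
  rw [← hmp.lintegral_comp (mG i₀)]
  have mG' : Measurable (fun a : ℝ × (Fin k → ℝ) => G i₀ ((MeasurableEquiv.piFinSuccAbove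
      (fun _ : Fin (k + 1) => ℝ) i₀).symm a)) := (mG i₀).comp (MeasurableEquiv.measurable _)
  rw [Measure.volume_eq_prod, lintegral_prod _ mG'.aemeasurable,
    ← lintegral_indicator measurableSet_Ioi]
  refine lintegral_congr fun z => ?_
  have hins : ∀ x : Fin k → ℝ, G i₀ ((MeasurableEquiv.piFinSuccAbove (fun _ : Fin (k + 1) => ℝ)
      i₀).symm (z, x)) = (if 0 < z then 1 else 0) *
        (Ind z i (c - z) x * PW (k + 1) 1 (i₀.insertNth (α := fun _ => ℝ) z x)) := by
    intro x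
    show G i₀ (i₀.insertNth (α := fun _ => ℝ) z x) = _
    simp only [hG, Fin.insertNth_apply_same, Ind_ins]
  simp only [hins]
  by_cases hz : 0 < z
  · rw [Set.indicator_of_mem (Set.mem_Ioi.2 hz)]
    simp only [if_pos hz, one_mul]
  · have hz' : z ∉ Set.Ioi (0 : ℝ) := hz
    rw [Set.indicator_of_notMem hz']
    simp only [if_neg hz, zero_mul, lintegral_zero]

end Pool.Agent.Work.MP_122e00_nt.Four

end

section

set_option autoImplicit false

/-!
# Four parts: item A5 (linearity and monotonicity of `Wo`)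
-/

namespace Pool.Agent.Work.MP_122e00_nt.Four

open Finset Filter Topology MeasureTheory

open scoped ENNReal

open Two Gen Sharp

namespace IA5

theorem Wo_succ (z : ℝ) (i : ℕ) (c : ℝ) (φ : ℝ → ℝ≥0∞) :
    Wo z (i + 1) c φ = ENNReal.ofReal (1 / ((i : ℝ) + 1)) *
      ∫⁻ y in Set.Ioi z, ENNReal.ofReal (1 / y) * Wo z i (c - y) fun σ => φ (σ + y) := rfl

/-- the integrand is measurable -/
theorem meas (h : claimA1) (z c : ℝ) (i : ℕ) (φ : ℝ → ℝ≥0∞) (hφ : Measurable φ) :
    Measurable fun y : ℝ => ENNReal.ofReal (1 / y) * Wo z i (c - y) fun σ => φ (σ + y) := by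
  refine (ENNReal.measurable_ofReal.comp (measurable_const.div measurable_id)).mul ?_
  refine h.2.2.2 ℝ i (fun _ => z) (fun y => c - y) (fun y σ => φ (σ + y)) measurable_const
    (measurable_const.sub measurable_id) ?_
  exact hφ.comp (measurable_snd.add measurable_fst)

theorem smul (h : claimA1) (z : ℝ) (i : ℕ) : ∀ (c : ℝ) (a : ℝ≥0∞) (φ : ℝ → ℝ≥0∞),
    Measurable φ → Wo z i c (fun σ => a * φ σ) = a * Wo z i c φ := by
  induction i with
  | zero =>
    intro c a φ _
    unfold Wo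
    split_ifs
    · rfl
    · rw [mul_zero]
  | succ i ih =>
    intro c a φ hφ
    rw [Wo_succ, Wo_succ]
    have h1 : ∀ y : ℝ, (ENNReal.ofReal (1 / y) * Wo z i (c - y) fun σ => a * φ (σ + y)) =
        a * (ENNReal.ofReal (1 / y) * Wo z i (c - y) fun σ => φ (σ + y)) := by
      intro y
      rw [ih (c - y) a (fun σ => φ (σ + y)) (hφ.comp (measurable_id.add_const y))]
      ring
    rw [lintegral_congr h1, lintegral_const_mul a (meas h z c i φ hφ)]
    ring

theorem add (h : claimA1) (z : ℝ) (i : ℕ) : ∀ (c : ℝ) (φ ψ : ℝ → ℝ≥0∞),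
    Measurable φ → Measurable ψ →
    Wo z i c (fun σ => φ σ + ψ σ) = Wo z i c φ + Wo z i c ψ := by
  induction i with
  | zero =>
    intro c φ ψ _ _
    unfold Wo
    split_ifs
    · rfl
    · rw [add_zero]
  | succ i ih =>
    intro c φ ψ hφ hψ
    rw [Wo_succ, Wo_succ, Wo_succ]
    have h1 : ∀ y : ℝ, (ENNReal.ofReal (1 / y) * Wo z i (c - y)
          fun σ => φ (σ + y) + ψ (σ + y)) =
        (ENNReal.ofReal (1 / y) * Wo z i (c - y) fun σ => φ (σ + y)) +
          (ENNReal.ofReal (1 / y) * Wo z i (c - y) fun σ => ψ (σ + y)) := by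
      intro y
      rw [ih (c - y) (fun σ => φ (σ + y)) (fun σ => ψ (σ + y))
        (hφ.comp (measurable_id.add_const y)) (hψ.comp (measurable_id.add_const y)), mul_add]
    rw [lintegral_congr h1, lintegral_add_left (meas h z c i φ hφ), mul_add]

theorem mono (z : ℝ) (i : ℕ) : ∀ (c : ℝ) (φ ψ : ℝ → ℝ≥0∞),
    (∀ σ, i * z ≤ σ → σ < c → φ σ ≤ ψ σ) → Wo z i c φ ≤ Wo z i c ψ := by
  induction i with
  | zero =>
    intro c φ ψ hle
    unfold Wo
    split_ifs with hc
    · exact hle 0 (by simp) hc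
    · exact le_rfl
  | succ i ih =>
    intro c φ ψ hle
    rw [Wo_succ, Wo_succ]
    refine mul_le_mul_right ?_ _
    refine setLIntegral_mono' measurableSet_Ioi fun y hy => ?_
    refine mul_le_mul_right ?_ _
    refine ih (c - y) _ _ fun σ h1 h2 => hle (σ + y) ?_ (by linarith)
    have hy' : z < y := hy
    push_cast
    linarith

end IA5

theorem prfA5 : claimA1 → claimA5 := fun h i z c _ =>
  ⟨fun a φ hφ => IA5.smul h z i c a φ hφ, fun φ ψ hφ hψ => IA5.add h z i c φ ψ hφ hψ,
    fun φ ψ hle => IA5.mono z i c φ ψ hle⟩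

end Pool.Agent.Work.MP_122e00_nt.Four

end

section

set_option autoImplicit false

/-!
# Item A6: the sum of the marks
-/

namespace Pool.Agent.Work.MP_122e00_nt.Four

open Finset Filter Topology MeasureTheory

open scoped ENNReal

open Two Gen Sharp

namespace IA6

theorem wo_succ (z : ℝ) (i : ℕ) (c : ℝ) (φ : ℝ → ℝ≥0∞) :
    Wo z (i + 1) c φ = ENNReal.ofReal (1 / ((i : ℝ) + 1)) *
      ∫⁻ y in Set.Ioi z, ENNReal.ofReal (1 / y) * Wo z i (c - y) fun σ => φ (σ + y) := rfl

theorem inv_mul (y : ℝ) (hy : 0 < y) : ENNReal.ofReal (1 / y) * ENNReal.ofReal y = 1 := by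
  rw [← ENNReal.ofReal_mul (by positivity), one_div_mul_cancel hy.ne', ENNReal.ofReal_one]

theorem meas (h1 : claimA1) (z : ℝ) (i : ℕ) (c : ℝ) (φ : ℝ → ℝ≥0∞) (hφ : Measurable φ) :
    Measurable fun y : ℝ => Wo z i (c - y) fun σ => φ (σ + y) :=
  h1.2.2.2 ℝ i (fun _ => z) (fun y => c - y) (fun y σ => φ (σ + y)) measurable_const
    (by fun_prop) (hφ.comp (by fun_prop))

theorem meas2 (h1 : claimA1) (z : ℝ) (i : ℕ) (c : ℝ) (φ : ℝ → ℝ≥0∞) (hφ : Measurable φ) :
    Measurable fun p : ℝ × ℝ => Wo z i (c - p.1 - p.2) fun σ => φ (σ + p.2 + p.1) :=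
  h1.2.2.2 (ℝ × ℝ) i (fun _ => z) (fun p => c - p.1 - p.2) (fun p σ => φ (σ + p.2 + p.1))
    measurable_const (by fun_prop) (hφ.comp (by fun_prop))

end IA6

open IA6 in
theorem prfA6 : claimA1 → claimA5 → claimA6 := by
  intro h1 h5 i
  induction i with
  | zero =>
    intro z c hz φ hφ
    rw [wo_succ]
    simp only [Nat.cast_zero, zero_add, div_one, ENNReal.ofReal_one, one_mul]
    refine setLIntegral_congr_fun measurableSet_Ioi fun y hy => ?_
    have hy0 : 0 < y := lt_of_le_of_lt hz hy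
    simp only [Wo]
    split_ifs with h
    · rw [zero_add, ← mul_assoc, inv_mul y hy0, one_mul]
    · rw [mul_zero]
  | succ i ih =>
    intro z c hz φ hφ
    rw [wo_succ]
    -- the inner function
    have hin : ∀ y ∈ Set.Ioi z, ENNReal.ofReal (1 / y) *
        (Wo z (i + 1) (c - y) fun σ => ENNReal.ofReal (σ + y) * φ (σ + y)) =
        (∫⁻ y' in Set.Ioi z, ENNReal.ofReal (1 / y) *
          Wo z i (c - y - y') fun σ => φ (σ + y' + y)) +
        Wo z (i + 1) (c - y) fun σ => φ (σ + y) := by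
      intro y hy
      have hy0 : 0 < y := lt_of_le_of_lt hz hy
      have hm : Measurable fun σ => φ (σ + y) := hφ.comp (by fun_prop)
      have hm1 : Measurable fun σ => ENNReal.ofReal σ * φ (σ + y) :=
        (ENNReal.measurable_ofReal).mul hm
      obtain ⟨hs, ha, hmo⟩ := h5 (i + 1) z (c - y) hz
      have heq : ∀ σ : ℝ, ((i + 1 : ℕ) : ℝ) * z ≤ σ → σ < c - y →
          ENNReal.ofReal (σ + y) * φ (σ + y) =
            ENNReal.ofReal σ * φ (σ + y) + ENNReal.ofReal y * φ (σ + y) := by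
        intro σ h _
        have hσ : 0 ≤ σ := le_trans (by positivity) h
        rw [ENNReal.ofReal_add hσ hy0.le, add_mul]
      have e1 : (Wo z (i + 1) (c - y) fun σ => ENNReal.ofReal (σ + y) * φ (σ + y)) =
          Wo z (i + 1) (c - y) fun σ =>
            ENNReal.ofReal σ * φ (σ + y) + ENNReal.ofReal y * φ (σ + y) :=
        le_antisymm (hmo _ _ fun σ h h' => (heq σ h h').le)
          (hmo _ _ fun σ h h' => (heq σ h h').ge)
      rw [e1, ha _ _ hm1 (hm.const_mul _), hs _ _ hm, ih z (c - y) hz _ hm, mul_add,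
        ← mul_assoc, inv_mul y hy0, one_mul]
      congr 1
      rw [lintegral_const_mul]
      have h2 : Measurable fun y' : ℝ => Wo z i (c - y - y') fun σ => φ (σ + y' + y) :=
        h1.2.2.2 ℝ i (fun _ => z) (fun y' => c - y - y') (fun y' σ => φ (σ + y' + y))
          measurable_const (by fun_prop) (hφ.comp (by fun_prop))
      exact h2
    rw [setLIntegral_congr_fun measurableSet_Ioi hin, lintegral_add_right _ (meas h1 z _ c φ hφ)]
    -- exchange
    have hsw : (∫⁻ y in Set.Ioi z, ∫⁻ y' in Set.Ioi z, ENNReal.ofReal (1 / y) *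
          Wo z i (c - y - y') fun σ => φ (σ + y' + y)) =
        ENNReal.ofReal ((i : ℝ) + 1) * ∫⁻ y in Set.Ioi z,
          Wo z (i + 1) (c - y) fun σ => φ (σ + y) := by
      rw [lintegral_lintegral_swap]
      · rw [← lintegral_const_mul _ (meas h1 z _ c φ hφ)]
        refine lintegral_congr fun y' => ?_
        rw [wo_succ, ← mul_assoc, ← ENNReal.ofReal_mul (by positivity)]
        have h3 : ((i : ℝ) + 1) * (1 / ((i : ℝ) + 1)) = 1 := by
          have : (i : ℝ) + 1 ≠ 0 := by positivity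
          field_simp
        rw [h3, ENNReal.ofReal_one, one_mul]
        refine lintegral_congr fun y => ?_
        congr 1
        have h4 : c - y - y' = c - y' - y := by ring
        rw [h4]
        congr 1
        funext σ
        congr 1
        ring
      · have h5' : Measurable fun p : ℝ × ℝ => ENNReal.ofReal (1 / p.1) *
            (Wo z i (c - p.1 - p.2) fun σ => φ (σ + p.2 + p.1)) :=
          (ENNReal.measurable_ofReal.comp (by fun_prop)).mul (meas2 h1 z i c φ hφ)
        exact h5'.aemeasurable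
    rw [hsw]
    set I := ∫⁻ y in Set.Ioi z, Wo z (i + 1) (c - y) fun σ => φ (σ + y) with hI
    have h6 : ENNReal.ofReal (1 / (((i + 1 : ℕ) : ℝ) + 1)) *
        (ENNReal.ofReal ((i : ℝ) + 1) * I + I) =
        (ENNReal.ofReal (1 / (((i + 1 : ℕ) : ℝ) + 1)) *
          (ENNReal.ofReal ((i : ℝ) + 1) + ENNReal.ofReal 1)) * I := by
      rw [ENNReal.ofReal_one]
      ring
    rw [h6, ← ENNReal.ofReal_add (by positivity) zero_le_one, ← ENNReal.ofReal_mul (by positivity)]
    have h7 : 1 / (((i + 1 : ℕ) : ℝ) + 1) * ((i : ℝ) + 1 + 1) = 1 := by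
      push_cast
      have : (i : ℝ) + 1 + 1 ≠ 0 := by positivity
      field_simp
    rw [h7, ENNReal.ofReal_one, one_mul]

end Pool.Agent.Work.MP_122e00_nt.Four

end

section

set_option autoImplicit false

/-!
# Four parts: item A7 (exchange of integrals)
-/

namespace Pool.Agent.Work.MP_122e00_nt.Four

open Finset Filter Topology MeasureTheory

open scoped ENNReal

open Two Gen Sharp

namespace IA7

theorem exch (h : claimA1) (z : ℝ) (S : Set ℝ) (i : ℕ) :
    ∀ (c : ℝ) (φ : ℝ → ℝ → ℝ≥0∞), Measurable (Function.uncurry φ) →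
    Wo z i c (fun σ => ∫⁻ y in S, φ σ y) = ∫⁻ y in S, Wo z i c fun σ => φ σ y := by
  induction i with
  | zero =>
    intro c φ _
    unfold Wo
    by_cases hc : 0 < c
    · simp only [if_pos hc]
    · simp only [if_neg hc, lintegral_zero]
  | succ i ih =>
    intro c φ hφ
    show ENNReal.ofReal (1 / ((i : ℝ) + 1)) * ∫⁻ y in Set.Ioi z, ENNReal.ofReal (1 / y) *
        Wo z i (c - y) (fun σ => ∫⁻ y' in S, φ (σ + y) y') =
      ∫⁻ y' in S, ENNReal.ofReal (1 / ((i : ℝ) + 1)) * ∫⁻ y in Set.Ioi z,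
        ENNReal.ofReal (1 / y) * Wo z i (c - y) fun σ => φ (σ + y) y'
    have hm : Measurable fun p : ℝ × ℝ => ENNReal.ofReal (1 / p.1) *
        Wo z i (c - p.1) fun σ => φ (σ + p.1) p.2 := by
      refine (ENNReal.measurable_ofReal.comp (measurable_const.div measurable_fst)).mul ?_
      refine h.2.2.2 (ℝ × ℝ) i (fun _ => z) (fun p => c - p.1) (fun p σ => φ (σ + p.1) p.2)
        measurable_const (measurable_const.sub measurable_fst) ?_
      exact hφ.comp ((measurable_snd.add measurable_fst.fst).prodMk measurable_fst.snd)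
    have h1 : ∀ y : ℝ, ENNReal.ofReal (1 / y) *
        Wo z i (c - y) (fun σ => ∫⁻ y' in S, φ (σ + y) y') =
        ∫⁻ y' in S, ENNReal.ofReal (1 / y) * Wo z i (c - y) fun σ => φ (σ + y) y' := by
      intro y
      rw [ih (c - y) (fun σ => φ (σ + y))
        (hφ.comp ((measurable_fst.add_const y).prodMk measurable_snd)), lintegral_const_mul]
      refine h.2.2.2 ℝ i (fun _ => z) (fun _ => c - y) (fun y' σ => φ (σ + y) y')
        measurable_const measurable_const ?_
      exact hφ.comp ((measurable_snd.add_const y).prodMk measurable_fst)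
    rw [lintegral_congr h1, lintegral_const_mul, lintegral_lintegral_swap hm.aemeasurable]
    exact Measurable.lintegral_prod_left' (f := fun p : ℝ × ℝ => ENNReal.ofReal (1 / p.1) *
        Wo z i (c - p.1) fun σ => φ (σ + p.1) p.2) hm

end IA7

theorem prfA7 : claimA1 → claimA7 := fun h i z c S φ _ hφ => IA7.exch h z S i c φ hφ

end Pool.Agent.Work.MP_122e00_nt.Four

end

section

set_option autoImplicit false

/-!
# Item A8: the volume
-/

namespace Pool.Agent.Work.MP_122e00_nt.Four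

open Finset Filter Topology MeasureTheory

open scoped ENNReal

open Two Gen Sharp

namespace IA8

/-- the integral of the power -/
theorem integ (i : ℕ) (z c : ℝ) (hz : 0 < z) (hc : ((i : ℝ) + 1) * z ≤ c) :
    ∫⁻ y in Set.Ioo z (c - i * z),
      ENNReal.ofReal (1 / z * (((c - y - i * z) / z) ^ i / (i.factorial : ℝ) ^ 2)) =
      ENNReal.ofReal (((c - (i + 1) * z) / z) ^ (i + 1) / ((i + 1) * (i.factorial : ℝ) ^ 2)) := by
  have hle : z ≤ c - i * z := by nlinarith
  have hcont : Continuous fun y : ℝ =>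
      1 / z * (((c - y - i * z) / z) ^ i / (i.factorial : ℝ) ^ 2) := by
    fun_prop
  have hint : IntegrableOn (fun y : ℝ =>
      1 / z * (((c - y - i * z) / z) ^ i / (i.factorial : ℝ) ^ 2)) (Set.Ioo z (c - i * z)) :=
    (hcont.integrableOn_Icc).mono_set Set.Ioo_subset_Icc_self
  rw [← ofReal_integral_eq_lintegral_ofReal hint]
  · congr 1
    rw [← integral_Ioc_eq_integral_Ioo, ← intervalIntegral.integral_of_le hle]
    have h1 : ∀ y : ℝ, 1 / z * (((c - y - i * z) / z) ^ i / (i.factorial : ℝ) ^ 2) =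
        (1 / z * (1 / z) ^ i / (i.factorial : ℝ) ^ 2) * ((c - i * z) - y) ^ i := by
      intro y
      rw [div_pow, one_div, inv_pow]
      have : c - y - i * z = c - i * z - y := by ring
      rw [this]
      ring
    simp_rw [h1]
    rw [intervalIntegral.integral_const_mul,
      intervalIntegral.integral_comp_sub_left (fun u => u ^ i) (c - i * z), sub_self,
      integral_pow]
    rw [zero_pow (Nat.succ_ne_zero i), sub_zero]
    have h2 : c - i * z - z = c - (i + 1) * z := by ring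
    rw [h2, div_pow, div_pow, one_pow]
    have h3 : (i.factorial : ℝ) ≠ 0 := by positivity
    have h4 : (i : ℝ) + 1 ≠ 0 := by positivity
    field_simp
    ring
  · refine (ae_restrict_iff' measurableSet_Ioo).2 (ae_of_all _ fun y hy => ?_)
    have h1 : 0 ≤ c - y - i * z := by linarith [hy.2]
    show (0 : ℝ) ≤ 1 / z * (((c - y - i * z) / z) ^ i / (i.factorial : ℝ) ^ 2)
    positivity

end IA8

open IA8 in
theorem prfA8 : claimA8 := by
  intro i
  induction i with
  | zero =>
    intro z c hz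
    refine ⟨fun hc => ?_, fun hc => ?_⟩
    · show (if 0 < c then (1 : ℝ≥0∞) else 0) = 0
      rw [if_neg]
      simpa using hc
    · show (if 0 < c then (1 : ℝ≥0∞) else 0) ≤ _
      have h : ENNReal.ofReal (((c - ((0 : ℕ) : ℝ) * z) / z) ^ 0 /
          (((0 : ℕ).factorial : ℕ) : ℝ) ^ 2) = 1 := by
        simp
      rw [h]
      split_ifs
      · exact le_rfl
      · exact zero_le_one
  | succ i ih =>
    intro z c hz
    refine ⟨fun hc => ?_, fun hc => ?_⟩
    · show ENNReal.ofReal (1 / ((i : ℝ) + 1)) *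
        ∫⁻ y in Set.Ioi z, ENNReal.ofReal (1 / y) * Wo z i (c - y) (fun _ => 1) = 0
      rw [setLIntegral_congr_fun measurableSet_Ioi (g := fun _ => 0)]
      · simp
      · intro y hy
        have hy' : z < y := hy
        show ENNReal.ofReal (1 / y) * Wo z i (c - y) (fun _ => 1) = 0
        rw [(ih z (c - y) hz).1 (by push_cast at hc; nlinarith), mul_zero]
    · show ENNReal.ofReal (1 / ((i : ℝ) + 1)) *
        ∫⁻ y in Set.Ioi z, ENNReal.ofReal (1 / y) * Wo z i (c - y) (fun _ => 1) ≤ _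
      push_cast at hc
      have h1 : ∫⁻ y in Set.Ioi z, ENNReal.ofReal (1 / y) * Wo z i (c - y) (fun _ => 1) ≤
          ∫⁻ y in Set.Ioo z (c - i * z),
            ENNReal.ofReal (1 / z * (((c - y - i * z) / z) ^ i / (i.factorial : ℝ) ^ 2)) := by
        rw [← lintegral_indicator measurableSet_Ioi, ← lintegral_indicator measurableSet_Ioo]
        refine lintegral_mono fun y => ?_
        by_cases hy : z < y
        · rw [Set.indicator_of_mem (show y ∈ Set.Ioi z from hy)]
          by_cases hy2 : y < c - i * z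
          · rw [Set.indicator_of_mem (show y ∈ Set.Ioo z (c - i * z) from ⟨hy, hy2⟩),
              ENNReal.ofReal_mul (by positivity)]
            refine mul_le_mul' (ENNReal.ofReal_le_ofReal ?_) ((ih z (c - y) hz).2 (by linarith))
            exact one_div_le_one_div_of_le hz hy.le
          · rw [(ih z (c - y) hz).1 (by linarith), mul_zero]
            exact bot_le
        · rw [Set.indicator_of_notMem (show y ∉ Set.Ioi z from hy)]
          exact bot_le
      refine (mul_le_mul' le_rfl h1).trans ?_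
      rw [integ i z c hz hc, ← ENNReal.ofReal_mul (by positivity)]
      refine ENNReal.ofReal_le_ofReal (le_of_eq ?_)
      rw [Nat.factorial_succ]
      push_cast
      have h3 : (i.factorial : ℝ) ≠ 0 := by positivity
      have h4 : (i : ℝ) + 1 ≠ 0 := by positivity
      field_simp

end Pool.Agent.Work.MP_122e00_nt.Four

end

section

set_option autoImplicit false

/-!
# Four parts: the recursion for `AA`, multiplied with `R ^ 4` (item A9)
-/

namespace Pool.Agent.Work.MP_122e00_nt.Four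

open Finset Filter Topology MeasureTheory

open scoped ENNReal

open Two Gen Sharp

theorem prfA9 : claimA9 := by
  intro k z R hR
  have hAA : AA z (k + 1) R =
      ∫⁻ y in Set.Ioo 0 R ∩ Set.Iic z, wt R y * AA z k (R - y) := rfl
  rw [hAA, ← lintegral_const_mul' _ _ ENNReal.ofReal_ne_top]
  refine setLIntegral_congr_fun (measurableSet_Ioo.inter measurableSet_Iic) ?_
  rintro y ⟨⟨_, hy⟩, _⟩
  have h1 : ENNReal.ofReal (R ^ 4) * wt R y = ENNReal.ofReal (4 * (R - y) ^ 3) := by
    unfold wt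
    rw [← ENNReal.ofReal_mul (by positivity)]
    congr 1
    field_simp
  show ENNReal.ofReal (4 * (R - y) ^ 3) * AA z k (R - y) =
    ENNReal.ofReal (R ^ 4) * (wt R y * AA z k (R - y))
  rw [← mul_assoc, h1]

end Pool.Agent.Work.MP_122e00_nt.Four

end

section

set_option autoImplicit false

/-!
# Four parts, item B1: a table for `AA 1 k (a / N)`
-/

namespace Pool.Agent.Work.MP_122e00_nt.Four

open Finset Filter Topology MeasureTheory

open scoped ENNReal

open Two Gen Sharp

namespace IB1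

/-- the recursion (compare A9) -/
lemma rec9 (k : ℕ) (z R : ℝ) (hR : 0 < R) :
    ENNReal.ofReal (R ^ 4) * AA z (k + 1) R =
    ∫⁻ y in Set.Ioo 0 R ∩ Set.Iic z, ENNReal.ofReal (4 * (R - y) ^ 3) * AA z k (R - y) := by
  rw [AA, ← lintegral_const_mul' _ _ ENNReal.ofReal_ne_top]
  apply lintegral_congr
  intro y
  rw [← mul_assoc, wt, ← ENNReal.ofReal_mul (by positivity)]
  congr 2
  field_simp

/-- the substitution -/
lemma subst1 (u : ℝ) (hu : 1 < u) (F : ℝ → ℝ≥0∞) :
    ∫⁻ y in Set.Ioo 0 u ∩ Set.Iic 1, F (u - y) = ∫⁻ w in Set.Ico (u - 1) u, F w := by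
  have e1 : Set.Ioo 0 u ∩ Set.Iic 1 = Set.Ioc 0 1 := by
    ext y
    simp only [Set.mem_inter_iff, Set.mem_Ioo, Set.mem_Iic, Set.mem_Ioc]
    constructor
    · rintro ⟨⟨h1, h2⟩, h3⟩
      exact ⟨h1, h3⟩
    · rintro ⟨h1, h2⟩
      exact ⟨⟨h1, by linarith⟩, h2⟩
  rw [e1, ← lintegral_indicator measurableSet_Ioc, ← lintegral_indicator measurableSet_Ico,
    ← lintegral_sub_left_eq_self (Set.indicator (Set.Ico (u - 1) u) F) u]
  apply lintegral_congr
  intro y
  by_cases hy : y ∈ Set.Ioc (0 : ℝ) 1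
  · have hy2 : u - y ∈ Set.Ico (u - 1) u := ⟨by linarith [hy.2], by linarith [hy.1]⟩
    rw [Set.indicator_of_mem hy, Set.indicator_of_mem hy2]
  · have hy2 : u - y ∉ Set.Ico (u - 1) u := by
      intro h
      exact hy ⟨by linarith [h.2], by linarith [h.1]⟩
    rw [Set.indicator_of_notMem hy, Set.indicator_of_notMem hy2]

/-- cutting an interval into cells -/
lemma cells (N : ℕ) (hN : 1 ≤ N) (F : ℝ → ℝ≥0∞) (p n : ℕ) :
    ∫⁻ w in Set.Ico ((p : ℝ) / N) (((p + n : ℕ) : ℝ) / N), F w ≤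
      ∑ b ∈ Finset.Ico p (p + n), ∫⁻ w in Set.Ico ((b : ℝ) / N) (((b : ℝ) + 1) / N), F w := by
  induction n with
  | zero => simp
  | succ n ih =>
    rw [← add_assoc, Finset.sum_Ico_succ_top (by omega)]
    have hsub : Set.Ico ((p : ℝ) / N) (((p + n + 1 : ℕ) : ℝ) / N) ⊆
        Set.Ico ((p : ℝ) / N) (((p + n : ℕ) : ℝ) / N) ∪
        Set.Ico (((p + n : ℕ) : ℝ) / N) ((((p + n : ℕ) : ℝ) + 1) / N) := by
      intro w hw
      by_cases h : w < ((p + n : ℕ) : ℝ) / N
      · exact Or.inl ⟨hw.1, h⟩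
      · refine Or.inr ⟨not_lt.mp h, ?_⟩
        have := hw.2
        push_cast at this ⊢
        exact this
    calc ∫⁻ w in Set.Ico ((p : ℝ) / N) (((p + n + 1 : ℕ) : ℝ) / N), F w
        ≤ ∫⁻ w in Set.Ico ((p : ℝ) / N) (((p + n : ℕ) : ℝ) / N) ∪
        Set.Ico (((p + n : ℕ) : ℝ) / N) ((((p + n : ℕ) : ℝ) + 1) / N), F w :=
          lintegral_mono_set hsub
      _ ≤ _ := lintegral_union_le _ _ _
      _ ≤ _ := add_le_add ih le_rfl

lemma cellint (N b : ℕ) (hN : 1 ≤ N) :
    ∫⁻ w in Set.Ico ((b : ℝ) / N) (((b : ℝ) + 1) / N), ENNReal.ofReal (4 * w ^ 3) =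
      ENNReal.ofReal ((((b : ℝ) + 1) ^ 4 - (b : ℝ) ^ 4) / (N : ℝ) ^ 4) := by
  have hN0 : (0 : ℝ) < N := by exact_mod_cast hN
  have hle : (b : ℝ) / N ≤ ((b : ℝ) + 1) / N := by
    gcongr
    linarith
  rw [← ofReal_integral_eq_lintegral_ofReal]
  · congr 1
    rw [MeasureTheory.integral_Ico_eq_integral_Ioc, ← intervalIntegral.integral_of_le hle,
      intervalIntegral.integral_const_mul, integral_pow, div_pow, div_pow]
    have hN4 : (N : ℝ) ^ (3 + 1) ≠ 0 := by positivity
    have h34 : (((3 : ℕ) : ℝ) + 1) = 4 := by norm_num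
    rw [h34, ← sub_div]
    norm_num
    ring
  · apply (Continuous.integrableOn_Icc (by fun_prop)).mono_set Set.Ico_subset_Icc_self
  · rw [Filter.EventuallyLE, ae_restrict_iff' measurableSet_Ico]
    filter_upwards with w hw
    have hw0 : 0 ≤ w := le_trans (by positivity) hw.1
    simp only [Pi.zero_apply]
    positivity

end IB1

theorem prfB1 (hA10 : claimA10) : claimB1 := by
  intro N Sc M U hN hSc h0 h1 h2 k
  obtain ⟨m1, m2, _⟩ := hA10
  have hN0 : (0 : ℝ) < N := by exact_mod_cast hN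
  have hSc0 : (0 : ℝ) < Sc := by exact_mod_cast hSc
  induction k with
  | zero =>
    intro a _ haM
    rw [AA, ← ENNReal.ofReal_one]
    apply ENNReal.ofReal_le_ofReal
    rw [le_div_iff₀ hSc0, one_mul]
    exact_mod_cast h0 a haM
  | succ k ih =>
    intro a ha haM
    have ha0 : (0 : ℝ) < a := by exact_mod_cast ha
    by_cases haN : a ≤ N
    · refine le_trans (m2 (k + 1) 1 ((a : ℝ) / N) one_pos (by positivity)).1 ?_
      rw [← ENNReal.ofReal_one]
      apply ENNReal.ofReal_le_ofReal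
      rw [le_div_iff₀ hSc0, one_mul]
      exact_mod_cast h1 k a haN haM
    · push Not at haN
      set u : ℝ := (a : ℝ) / N with hu
      have hu1 : 1 < u := by
        rw [hu, one_lt_div hN0]
        exact_mod_cast haN
      have hu0 : 0 < u := by linarith
      have hu4 : ENNReal.ofReal (u ^ 4) ≠ 0 := by
        rw [Ne, ENNReal.ofReal_eq_zero, not_le]
        positivity
      rw [← ENNReal.mul_le_mul_iff_right hu4 ENNReal.ofReal_ne_top, IB1.rec9 k 1 u hu0,
        IB1.subst1 u hu1 (fun w => ENNReal.ofReal (4 * w ^ 3) * AA 1 k w)]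
      have e1 : u - 1 = ((a - N : ℕ) : ℝ) / N := by
        rw [hu, Nat.cast_sub haN.le, sub_div, div_self hN0.ne']
      have e2 : u = ((a - N + N : ℕ) : ℝ) / N := by
        rw [hu, Nat.sub_add_cancel haN.le]
      have e3 : ∫⁻ w in Set.Ico (u - 1) u, ENNReal.ofReal (4 * w ^ 3) * AA 1 k w ≤
          ∑ b ∈ Finset.Ico (a - N) a, ∫⁻ w in Set.Ico ((b : ℝ) / N) (((b : ℝ) + 1) / N),
            ENNReal.ofReal (4 * w ^ 3) * AA 1 k w := by
        have := IB1.cells N hN (fun w => ENNReal.ofReal (4 * w ^ 3) * AA 1 k w) (a - N) N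
        rw [← e1, ← e2, Nat.sub_add_cancel haN.le] at this
        exact this
      refine le_trans e3 ?_
      have e4 : ∀ b ∈ Finset.Ico (a - N) a,
          ∫⁻ w in Set.Ico ((b : ℝ) / N) (((b : ℝ) + 1) / N),
            ENNReal.ofReal (4 * w ^ 3) * AA 1 k w ≤
          ENNReal.ofReal ((((b : ℝ) + 1) ^ 4 - (b : ℝ) ^ 4) / (N : ℝ) ^ 4 * ((U k b : ℝ) / Sc)) := by
        intro b hb
        rw [Finset.mem_Ico] at hb
        have hb1 : 1 ≤ b := by omega
        have hb0 : (0 : ℝ) < b := by exact_mod_cast hb1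
        have hpos : (0 : ℝ) ≤ (((b : ℝ) + 1) ^ 4 - (b : ℝ) ^ 4) / (N : ℝ) ^ 4 := by
          apply div_nonneg _ (by positivity)
          rw [sub_nonneg]
          gcongr
          linarith
        rw [ENNReal.ofReal_mul hpos, ← IB1.cellint N b hN,
          ← lintegral_mul_const' _ _ ENNReal.ofReal_ne_top]
        apply setLIntegral_mono' measurableSet_Ico
        intro w hw
        gcongr
        refine le_trans (m1 k 1 ((b : ℝ) / N) w one_pos (by positivity) hw.1) ?_
        exact ih b hb1 (by omega)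
      refine le_trans (Finset.sum_le_sum e4) ?_
      rw [← ENNReal.ofReal_sum_of_nonneg, ← ENNReal.ofReal_mul (by positivity)]
      · apply ENNReal.ofReal_le_ofReal
        have h3 := h2 k a haN haM
        have h4 : (∑ b ∈ Finset.Ico (a - N) a, (((b : ℝ) + 1) ^ 4 - (b : ℝ) ^ 4) * (U k b : ℝ)) ≤
            (U (k + 1) a : ℝ) * (a : ℝ) ^ 4 := by
          have h5 : ((∑ b ∈ Finset.Ico (a - N) a, ((b + 1) ^ 4 - b ^ 4) * U k b : ℕ) : ℝ) ≤
              ((U (k + 1) a * a ^ 4 : ℕ) : ℝ) := by exact_mod_cast h3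
          push_cast at h5
          refine le_trans (le_of_eq ?_) h5
          apply Finset.sum_congr rfl
          intro b _
          rw [Nat.cast_sub (Nat.pow_le_pow_left (Nat.le_succ b) 4)]
          push_cast
          ring
        have h6 : ∑ b ∈ Finset.Ico (a - N) a,
            (((b : ℝ) + 1) ^ 4 - (b : ℝ) ^ 4) / (N : ℝ) ^ 4 * ((U k b : ℝ) / Sc) =
            1 / ((N : ℝ) ^ 4 * Sc) *
              ∑ b ∈ Finset.Ico (a - N) a, (((b : ℝ) + 1) ^ 4 - (b : ℝ) ^ 4) * (U k b : ℝ) := by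
          rw [Finset.mul_sum]
          apply Finset.sum_congr rfl
          intro b _
          field_simp
        rw [h6]
        have h7 : u ^ 4 * ((U (k + 1) a : ℝ) / Sc) =
            1 / ((N : ℝ) ^ 4 * Sc) * ((U (k + 1) a : ℝ) * (a : ℝ) ^ 4) := by
          rw [hu]
          field_simp
        rw [h7]
        gcongr
      · intro b _
        have : (0 : ℝ) ≤ ((b : ℝ) + 1) ^ 4 - (b : ℝ) ^ 4 := by
          rw [sub_nonneg]
          gcongr
          linarith
        positivity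

end Pool.Agent.Work.MP_122e00_nt.Four

end

section

set_option autoImplicit false

/-!
# The tail for four parts, item B2: all picks small
-/

namespace Pool.Agent.Work.MP_122e00_nt.Four

open Finset Filter Topology MeasureTheory

open scoped ENNReal

namespace IB2

lemma wt_le {R y : ℝ} (hR : 0 < R) (hy : 0 < y) (hyR : y < R) :
    wt R y ≤ ENNReal.ofReal (4 / R) := by
  unfold wt
  apply ENNReal.ofReal_le_ofReal
  have h1 : (R - y) / R ≤ 1 := by
    rw [div_le_one hR]
    linarith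
  have h2 : 0 ≤ (R - y) / R := div_nonneg (by linarith) hR.le
  have h3 : ((R - y) / R) ^ 3 ≤ 1 := pow_le_one₀ h2 h1
  have h4 : 0 ≤ 4 / R := by positivity
  calc 4 / R * ((R - y) / R) ^ 3 ≤ 4 / R * 1 := mul_le_mul_of_nonneg_left h3 h4
    _ = 4 / R := mul_one _

end IB2

theorem prfB2 (hA10 : claimA10) : claimB2 := by
  intro m
  induction m with
  | zero =>
    intro z R _ _
    show (1 : ℝ≥0∞) ≤ _
    simp
  | succ m ih =>
    intro z R hz hR
    have hR' : ((m : ℝ) + 1) * z < R := by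
      have h := hR
      push_cast at h
      exact h
    have hmz : 0 ≤ (m : ℝ) * z := by positivity
    have hRz : 0 < R - z := by linarith
    have hR0 : 0 < R := by linarith
    have hzR : z < R := by linarith
    have h1 : AA z (m + 1) R = ∫⁻ y in Set.Ioo 0 R ∩ Set.Iic z, wt R y * AA z m (R - y) := rfl
    have hS : MeasurableSet (Set.Ioo 0 R ∩ Set.Iic z) := measurableSet_Ioo.inter measurableSet_Iic
    have h2 : ∫⁻ y in Set.Ioo 0 R ∩ Set.Iic z, wt R y * AA z m (R - y) ≤
        ∫⁻ _y in Set.Ioo 0 R ∩ Set.Iic z, ENNReal.ofReal (4 / R) * AA z m (R - z) := by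
      refine setLIntegral_mono' hS fun y hy => ?_
      obtain ⟨⟨hy0, hyR⟩, hyz⟩ := hy
      have hyz' : y ≤ z := hyz
      exact mul_le_mul' (IB2.wt_le hR0 hy0 hyR)
        (hA10.1 m z (R - z) (R - y) hz hRz (by linarith))
    have h3 : volume (Set.Ioo 0 R ∩ Set.Iic z) ≤ ENNReal.ofReal z := by
      have h4 : Set.Ioo 0 R ∩ Set.Iic z ⊆ Set.Icc 0 z := fun y hy => ⟨hy.1.1.le, hy.2⟩
      refine le_trans (measure_mono h4) ?_
      rw [Real.volume_Icc, sub_zero]
    have h5 : AA z m (R - z) ≤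
        ENNReal.ofReal (∏ l ∈ Finset.range m, 4 * z / (R - z - l * z)) := by
      apply ih z (R - z) hz
      linarith
    have hprod : 0 ≤ ∏ l ∈ Finset.range m, 4 * z / (R - z - l * z) := by
      apply Finset.prod_nonneg
      intro l hl
      have h6 : l < m := Finset.mem_range.mp hl
      have h7 : ((l : ℝ) + 1) ≤ m := by exact_mod_cast h6
      have h8 : ((l : ℝ) + 1) * z ≤ m * z := mul_le_mul_of_nonneg_right h7 hz.le
      apply div_nonneg (by linarith)
      linarith
    rw [h1]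
    calc ∫⁻ y in Set.Ioo 0 R ∩ Set.Iic z, wt R y * AA z m (R - y)
        ≤ ∫⁻ _y in Set.Ioo 0 R ∩ Set.Iic z, ENNReal.ofReal (4 / R) * AA z m (R - z) := h2
      _ = ENNReal.ofReal (4 / R) * AA z m (R - z) * volume (Set.Ioo 0 R ∩ Set.Iic z) := by
        rw [setLIntegral_const]
      _ ≤ ENNReal.ofReal (4 / R) * ENNReal.ofReal (∏ l ∈ Finset.range m,
          4 * z / (R - z - l * z)) * ENNReal.ofReal z :=
        mul_le_mul' (mul_le_mul' le_rfl h5) h3
      _ = ENNReal.ofReal (∏ l ∈ Finset.range (m + 1), 4 * z / (R - l * z)) := by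
        rw [← ENNReal.ofReal_mul (by positivity), ← ENNReal.ofReal_mul (by positivity),
          Finset.prod_range_succ']
        congr 1
        have h9 : ∏ l ∈ Finset.range m, 4 * z / (R - z - l * z) =
            ∏ l ∈ Finset.range m, 4 * z / (R - ((l + 1 : ℕ) : ℝ) * z) := by
          apply Finset.prod_congr rfl
          intro l _
          congr 1
          push_cast
          ring
        rw [h9]
        push_cast
        rw [zero_mul, sub_zero]
        ring

end Pool.Agent.Work.MP_122e00_nt.Four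

end

section

set_option autoImplicit false

/-!
# Four parts: the bound for `Fj` by cells (item B3)
-/

namespace Pool.Agent.Work.MP_122e00_nt.Four

open Finset Filter Topology MeasureTheory

open scoped ENNReal

open Two Gen Sharp

namespace IB3

/-- The end points of the cells. -/
noncomputable def zz (N a : ℕ) : ℝ := 199 * N / (299 * a)

theorem zz_pos {N a : ℕ} (hN : 1 ≤ N) (ha : 1 ≤ a) : 0 < zz N a := by
  have h1 : (0 : ℝ) < N := by exact_mod_cast hN
  have h2 : (0 : ℝ) < a := by exact_mod_cast ha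
  unfold zz
  positivity

theorem zz_anti {N a b : ℕ} (ha : 1 ≤ a) (hab : a ≤ b) : zz N b ≤ zz N a := by
  have h2 : (0 : ℝ) < a := by exact_mod_cast ha
  have h3 : (a : ℝ) ≤ b := by exact_mod_cast hab
  unfold zz
  apply div_le_div_of_nonneg_left (by positivity) (by positivity)
  linarith

/-- The integrand without `AA`. -/
noncomputable def gg (j : ℕ) (z : ℝ) : ℝ :=
  (100 / 299 - j * z) ^ (j - 1) / z ^ j * (1 - j * z) ^ 3

theorem gg_anti {j : ℕ} {b z : ℝ} (hb : 0 < b) (hbz : b ≤ z) (hz : j * z ≤ 100 / 299) :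
    gg j z ≤ gg j b := by
  have hj : (0 : ℝ) ≤ j := Nat.cast_nonneg j
  have h1 : j * b ≤ j * z := mul_le_mul_of_nonneg_left hbz hj
  have hz0 : 0 < z := hb.trans_le hbz
  unfold gg
  have a1 : (0 : ℝ) ≤ 100 / 299 - j * z := by linarith
  have a2 : (0 : ℝ) ≤ 1 - j * z := by linarith
  have a3 : (100 / 299 - j * z) ^ (j - 1) ≤ (100 / 299 - j * b) ^ (j - 1) :=
    pow_le_pow_left₀ a1 (by linarith) _
  have a4 : (1 - j * z) ^ 3 ≤ (1 - j * b) ^ 3 := pow_le_pow_left₀ a2 (by linarith) _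
  have a5 : b ^ j ≤ z ^ j := pow_le_pow_left₀ hb.le hbz _
  have a6 : (100 / 299 - j * z) ^ (j - 1) / z ^ j ≤ (100 / 299 - j * b) ^ (j - 1) / b ^ j :=
    div_le_div₀ (pow_nonneg (by linarith) _) a3 (by positivity) a5
  exact mul_le_mul a6 a4 (pow_nonneg a2 _) (div_nonneg (pow_nonneg (by linarith) _)
    (by positivity))

theorem gg_nonneg {j : ℕ} {z : ℝ} (hz0 : 0 < z) (hz : j * z ≤ 100 / 299) : 0 ≤ gg j z := by
  unfold gg
  have a1 : (0 : ℝ) ≤ 100 / 299 - j * z := by linarith
  have a2 : (0 : ℝ) ≤ 1 - j * z := by linarith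
  positivity

theorem gg_small {j : ℕ} {z : ℝ} (hz0 : 0 < z) (hz : j * z ≤ 100 / 299) :
    gg j z ≤ (100 / 299) ^ (j - 1) / z ^ j := by
  have hj : (0 : ℝ) ≤ j * z := mul_nonneg (Nat.cast_nonneg j) hz0.le
  unfold gg
  have a1 : (0 : ℝ) ≤ 100 / 299 - j * z := by linarith
  have a2 : (0 : ℝ) ≤ 1 - j * z := by linarith
  have a3 : (100 / 299 - j * z) ^ (j - 1) ≤ (100 / 299) ^ (j - 1) :=
    pow_le_pow_left₀ a1 (by linarith) _
  have a4 : (1 - j * z) ^ 3 ≤ 1 := pow_le_one₀ a2 (by linarith)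
  have a6 : (100 / 299 - j * z) ^ (j - 1) / z ^ j ≤ (100 / 299) ^ (j - 1) / z ^ j :=
    div_le_div_of_nonneg_right a3 (by positivity)
  have := mul_le_mul a6 a4 (pow_nonneg a2 _) (by positivity)
  rwa [mul_one] at this

theorem cover {N M a₀ : ℕ} {z : ℝ} (ha₀ : 1 ≤ a₀) (hM : a₀ ≤ M)
    (hz : z < zz N a₀) (hzM : zz N M ≤ z) :
    ∃ a ∈ Finset.Ico a₀ M, zz N (a + 1) ≤ z ∧ z < zz N a := by
  classical
  have hex : ∃ b, a₀ ≤ b ∧ zz N b ≤ z := ⟨M, hM, hzM⟩
  have hb := Nat.find_spec hex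
  have hmin := fun c h => Nat.find_min hex (m := c) h
  have hbM : Nat.find hex ≤ M := Nat.find_min' hex ⟨hM, hzM⟩
  set b := Nat.find hex with hbd
  have hb0 : b ≠ a₀ := by
    intro h
    rw [h] at hb
    exact absurd hb.2 (not_le.2 hz)
  have hb1 : a₀ < b := lt_of_le_of_ne hb.1 (Ne.symm hb0)
  refine ⟨b - 1, Finset.mem_Ico.2 ⟨by omega, by omega⟩, ?_, ?_⟩
  · rw [show b - 1 + 1 = b by omega]
    exact hb.2
  · by_contra hcon
    exact hmin (b - 1) (by omega) ⟨by omega, not_lt.1 hcon⟩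

/-- The value of a cell. -/
theorem cell_eq {j N a : ℕ} (hj : 1 ≤ j) (hN : 1 ≤ N) (ha : 1 ≤ a)
    (h : 199 * N * j ≤ 100 * (a + 1)) :
    4 ^ j / ((j - 1).factorial : ℝ) ^ 2 * (gg j (zz N (a + 1)) * (zz N a - zz N (a + 1))) =
      cell j N a := by
  have h1 : (0 : ℝ) < N := by exact_mod_cast hN
  have h2 : (0 : ℝ) < a := by exact_mod_cast ha
  have h3 : (0 : ℝ) < (a : ℝ) + 1 := by positivity
  have e1 : ((100 * (a + 1) - 199 * N * j : ℕ) : ℝ) = 100 * ((a : ℝ) + 1) - 199 * N * j := by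
    rw [Nat.cast_sub h]; push_cast; ring
  have e2 : ((299 * (a + 1) - 199 * N * j : ℕ) : ℝ) = 299 * ((a : ℝ) + 1) - 199 * N * j := by
    rw [Nat.cast_sub (by omega)]; push_cast; ring
  unfold cell gg zz
  rw [e1, e2]
  push_cast
  obtain ⟨i, rfl⟩ : ∃ i, j = i + 1 := ⟨j - 1, by omega⟩
  rw [show i + 1 - 1 = i by omega]
  have e3 : (100 / 299 - ((i + 1 : ℕ) : ℝ) * (199 * (N : ℝ) / (299 * ((a : ℝ) + 1)))) =
      (100 * ((a : ℝ) + 1) - 199 * N * ((i + 1 : ℕ) : ℝ)) / (299 * ((a : ℝ) + 1)) := by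
    field_simp
  have e4 : (1 - ((i + 1 : ℕ) : ℝ) * (199 * (N : ℝ) / (299 * ((a : ℝ) + 1)))) =
      (299 * ((a : ℝ) + 1) - 199 * N * ((i + 1 : ℕ) : ℝ)) / (299 * ((a : ℝ) + 1)) := by
    field_simp
  have e5 : 199 * (N : ℝ) / (299 * (a : ℝ)) - 199 * (N : ℝ) / (299 * ((a : ℝ) + 1)) =
      199 * N / (299 * (a * ((a : ℝ) + 1))) := by
    field_simp
    ring
  rw [e3, e4, e5]
  set X := 100 * ((a : ℝ) + 1) - 199 * N * ((i + 1 : ℕ) : ℝ)
  set Y := 299 * ((a : ℝ) + 1) - 199 * N * ((i + 1 : ℕ) : ℝ)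
  have hf : ((i.factorial : ℕ) : ℝ) ≠ 0 := by positivity
  rw [div_pow, div_pow, div_pow, pow_succ (199 * (N : ℝ)) i, pow_succ (299 * ((a : ℝ) + 1)) i]
  field_simp

/-- The integral of a power. -/
theorem lint_pow {A t : ℝ} (n : ℕ) (hA : 0 ≤ A) (ht : 0 ≤ t) :
    ∫⁻ z in Set.Ioo 0 t, ENNReal.ofReal (A * z ^ n) =
      ENNReal.ofReal (A * (t ^ (n + 1) / ((n : ℝ) + 1))) := by
  have hint : IntegrableOn (fun z : ℝ => A * z ^ n) (Set.Ioo 0 t) := by
    have hc : Continuous fun z : ℝ => A * z ^ n := by fun_prop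
    exact (hc.integrableOn_Icc (a := 0) (b := t)).mono_set Set.Ioo_subset_Icc_self
  rw [← ofReal_integral_eq_lintegral_ofReal hint]
  · congr 1
    rw [← integral_Ioc_eq_integral_Ioo, ← intervalIntegral.integral_of_le ht,
      intervalIntegral.integral_const_mul, integral_pow]
    simp
  · refine (ae_restrict_iff' measurableSet_Ioo).2 (ae_of_all _ fun z hz => ?_)
    exact mul_nonneg hA (pow_nonneg hz.1.le _)

/-- One cell. -/
theorem cell_bd (h10 : claimA10) {j N a : ℕ} {u : ℝ} (hj : 1 ≤ j) (hN : 1 ≤ N) (ha : 1 ≤ a)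
    (hu0 : 0 ≤ u) (hu : AA 1 16 ((a : ℝ) / N) ≤ ENNReal.ofReal u) :
    ENNReal.ofReal (4 ^ j / ((j - 1).factorial : ℝ) ^ 2) *
      ∫⁻ z in Set.Ioo 0 (100 / 299 / (j : ℝ)) ∩ Set.Ico (zz N (a + 1)) (zz N a),
        ENNReal.ofReal (gg j z) * AA z 16 (199 / 299) ≤ ENNReal.ofReal (cell j N a * u) := by
  have hj' : (0 : ℝ) < j := by exact_mod_cast hj
  have hN' : (0 : ℝ) < N := by exact_mod_cast hN
  have ha' : (0 : ℝ) < a := by exact_mod_cast ha
  by_cases h : 199 * N * j ≤ 100 * (a + 1)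
  · have hb0 : 0 < zz N (a + 1) := zz_pos hN (by omega)
    have hbc : j * zz N (a + 1) ≤ 100 / 299 := by
      unfold zz
      have h' : (199 : ℝ) * N * j ≤ 100 * (a + 1) := by exact_mod_cast h
      have h3 : (0 : ℝ) < (a : ℝ) + 1 := by positivity
      push_cast
      rw [mul_div_assoc', div_le_div_iff₀ (by positivity) (by norm_num)]
      linarith
    have hg0 := gg_nonneg hb0 hbc
    have hmeas : MeasurableSet
        (Set.Ioo 0 (100 / 299 / (j : ℝ)) ∩ Set.Ico (zz N (a + 1)) (zz N a)) :=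
      measurableSet_Ioo.inter measurableSet_Ico
    have hstep : ∫⁻ z in Set.Ioo 0 (100 / 299 / (j : ℝ)) ∩ Set.Ico (zz N (a + 1)) (zz N a),
        ENNReal.ofReal (gg j z) * AA z 16 (199 / 299) ≤
        ENNReal.ofReal (gg j (zz N (a + 1)) * u) * ENNReal.ofReal (zz N a - zz N (a + 1)) := by
      calc _ ≤ ∫⁻ z in Set.Ioo 0 (100 / 299 / (j : ℝ)) ∩ Set.Ico (zz N (a + 1)) (zz N a),
            ENNReal.ofReal (gg j (zz N (a + 1)) * u) := by
            refine setLIntegral_mono' hmeas ?_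
            rintro z ⟨⟨hz0, hz1⟩, hz2, hz3⟩
            have hjz : j * z ≤ 100 / 299 := by
              rw [lt_div_iff₀ hj'] at hz1
              linarith
            rw [ENNReal.ofReal_mul hg0]
            refine mul_le_mul' (ENNReal.ofReal_le_ofReal (gg_anti hb0 hz2 hjz)) ?_
            have hsc := h10.2.2 16 1 (199 / 299 / z) z hz0 one_pos (by positivity)
            rw [mul_one, mul_div_cancel₀ _ hz0.ne'] at hsc
            rw [hsc]
            refine (h10.1 16 1 ((a : ℝ) / N) (199 / 299 / z) one_pos (by positivity) ?_).trans hu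
            unfold zz at hz3
            rw [lt_div_iff₀ (by positivity)] at hz3
            rw [div_div, div_le_div_iff₀ hN' (by positivity)]
            linarith
        _ = ENNReal.ofReal (gg j (zz N (a + 1)) * u) * volume
            (Set.Ioo 0 (100 / 299 / (j : ℝ)) ∩ Set.Ico (zz N (a + 1)) (zz N a)) := by
            rw [setLIntegral_const]
        _ ≤ _ := by
            refine mul_le_mul' le_rfl ?_
            refine (measure_mono Set.inter_subset_right).trans ?_
            rw [Real.volume_Ico]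
    refine (mul_le_mul' le_rfl hstep).trans ?_
    have hd : 0 ≤ zz N a - zz N (a + 1) := sub_nonneg.2 (zz_anti ha (by omega))
    rw [← ENNReal.ofReal_mul (mul_nonneg hg0 hu0), ← ENNReal.ofReal_mul (by positivity)]
    refine ENNReal.ofReal_le_ofReal (le_of_eq ?_)
    rw [← cell_eq hj hN ha h]
    ring
  · push Not at h
    have hemp : Set.Ioo 0 (100 / 299 / (j : ℝ)) ∩ Set.Ico (zz N (a + 1)) (zz N a) = ∅ := by
      rw [Set.eq_empty_iff_forall_notMem]
      rintro z ⟨⟨_, hz1⟩, hz2, _⟩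
      have h' : (100 : ℝ) * (a + 1) < 199 * N * j := by exact_mod_cast h
      have h4 : 100 / 299 / (j : ℝ) ≤ zz N (a + 1) := by
        unfold zz
        push_cast
        rw [div_div, div_le_div_iff₀ (by positivity) (by positivity)]
        linarith
      linarith
    rw [hemp]
    simp

/-- The product for large arguments. -/
noncomputable def P16 : ℝ :=
  ∏ l ∈ Finset.range 16, (4 : ℝ) / (199 / 299 - l * (199 / (299 * 40)))

theorem fac_pos {l : ℕ} (hl : l ∈ Finset.range 16) :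
    (0 : ℝ) < 199 / 299 - l * (199 / (299 * 40)) := by
  have h1 : l ≤ 15 := by
    have := Finset.mem_range.1 hl
    omega
  have h2 : (l : ℝ) ≤ 15 := by exact_mod_cast h1
  linarith

theorem P16_nonneg : 0 ≤ P16 :=
  Finset.prod_nonneg fun _ hl => div_nonneg (by norm_num) (fac_pos hl).le

theorem prod_bd {z : ℝ} (hz0 : 0 < z) (hz : z < 199 / (299 * 40)) :
    ∏ l ∈ Finset.range 16, 4 * z / (199 / 299 - l * z) ≤ z ^ 16 * P16 := by
  have h1 : z ^ 16 * P16 = ∏ l ∈ Finset.range 16,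
      z * ((4 : ℝ) / (199 / 299 - l * (199 / (299 * 40)))) := by
    rw [Finset.prod_mul_distrib, Finset.prod_const, Finset.card_range]
    rfl
  rw [h1]
  refine Finset.prod_le_prod (fun l hl => ?_) (fun l hl => ?_)
  · have h2 := fac_pos hl
    have h3 : (l : ℝ) * z ≤ l * (199 / (299 * 40)) :=
      mul_le_mul_of_nonneg_left hz.le (Nat.cast_nonneg l)
    exact div_nonneg (by positivity) (by linarith)
  · have h2 := fac_pos hl
    have h3 : (l : ℝ) * z ≤ l * (199 / (299 * 40)) :=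
      mul_le_mul_of_nonneg_left hz.le (Nat.cast_nonneg l)
    rw [mul_div_assoc', mul_comm z 4]
    exact div_le_div_of_nonneg_left (by positivity) h2 (by linarith)

/-- The part near `0`. -/
theorem small_bd (h2 : claimB2) {j : ℕ} (hj : 1 ≤ j) (hj2 : j ≤ 16) :
    ENNReal.ofReal (4 ^ j / ((j - 1).factorial : ℝ) ^ 2) *
      ∫⁻ z in Set.Ioo 0 (100 / 299 / (j : ℝ)) ∩ Set.Ioo 0 (199 / (299 * 40)),
        ENNReal.ofReal (gg j z) * AA z 16 (199 / 299) ≤
      ENNReal.ofReal (4 ^ j / ((j - 1).factorial : ℝ) ^ 2 * (100 / 299) ^ (j - 1) * P16 *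
        ((199 / (299 * 40)) ^ (17 - j) / (17 - j))) := by
  have hj' : (0 : ℝ) < j := by exact_mod_cast hj
  have hA : (0 : ℝ) ≤ (100 / 299) ^ (j - 1) * P16 := mul_nonneg (by positivity) P16_nonneg
  have hmeas : MeasurableSet
      (Set.Ioo 0 (100 / 299 / (j : ℝ)) ∩ Set.Ioo 0 (199 / (299 * 40) : ℝ)) :=
    measurableSet_Ioo.inter measurableSet_Ioo
  have hstep : ∫⁻ z in Set.Ioo 0 (100 / 299 / (j : ℝ)) ∩ Set.Ioo 0 (199 / (299 * 40)),
        ENNReal.ofReal (gg j z) * AA z 16 (199 / 299) ≤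
      ENNReal.ofReal ((100 / 299) ^ (j - 1) * P16 *
        ((199 / (299 * 40)) ^ (16 - j + 1) / (((16 - j : ℕ) : ℝ) + 1))) := by
    calc _ ≤ ∫⁻ z in Set.Ioo 0 (100 / 299 / (j : ℝ)) ∩ Set.Ioo 0 (199 / (299 * 40)),
          ENNReal.ofReal ((100 / 299) ^ (j - 1) * P16 * z ^ (16 - j)) := by
          refine setLIntegral_mono' hmeas ?_
          rintro z ⟨⟨hz0, hz1⟩, _, hz3⟩
          have hjz : j * z ≤ 100 / 299 := by
            rw [lt_div_iff₀ hj'] at hz1
            linarith
          have hAA : AA z 16 (199 / 299) ≤ ENNReal.ofReal (z ^ 16 * P16) := by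
            refine (h2 16 z (199 / 299) hz0 (by push_cast; linarith)).trans ?_
            exact ENNReal.ofReal_le_ofReal (prod_bd hz0 hz3)
          calc ENNReal.ofReal (gg j z) * AA z 16 (199 / 299) ≤
              ENNReal.ofReal ((100 / 299) ^ (j - 1) / z ^ j) * ENNReal.ofReal (z ^ 16 * P16) :=
                mul_le_mul' (ENNReal.ofReal_le_ofReal (gg_small hz0 hjz)) hAA
            _ = _ := by
                rw [← ENNReal.ofReal_mul (by positivity)]
                congr 1
                have hzz : z ^ 16 = z ^ (16 - j) * z ^ j := by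
                  rw [← pow_add]
                  congr 1
                  omega
                rw [hzz]
                field_simp
      _ ≤ ∫⁻ z in Set.Ioo 0 (199 / (299 * 40)),
          ENNReal.ofReal ((100 / 299) ^ (j - 1) * P16 * z ^ (16 - j)) :=
          lintegral_mono_set Set.inter_subset_right
      _ = _ := lint_pow _ hA (by norm_num)
  refine (mul_le_mul' le_rfl hstep).trans ?_
  rw [← ENNReal.ofReal_mul (by positivity)]
  refine ENNReal.ofReal_le_ofReal (le_of_eq ?_)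
  have h3 : ((16 - j : ℕ) : ℝ) + 1 = 17 - j := by
    rw [Nat.cast_sub hj2]
    push_cast
    ring
  have h4 : 16 - j + 1 = 17 - j := by omega
  rw [h3, h4]
  ring

theorem cell_nonneg (j N a : ℕ) : 0 ≤ cell j N a := by
  unfold cell
  positivity

end IB3

open IB3 in
theorem prfB3 : claimA10 → claimB2 → claimB3 := by
  intro h10 h2 j N a₀ M u hj hj2 hN ha₀ h100 haM hM hu0 hu
  have hj' : (0 : ℝ) < j := by
    have : 0 < j := by omega
    exact_mod_cast this
  have hN' : (0 : ℝ) < N := by exact_mod_cast hN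
  have ha₀' : (0 : ℝ) < a₀ := by exact_mod_cast ha₀
  have hzM : zz N M = 199 / (299 * 40) := by
    unfold zz
    rw [hM]
    push_cast
    field_simp
  have hz0 : 100 / 299 / (j : ℝ) ≤ zz N a₀ := by
    unfold zz
    have h' : (100 : ℝ) * a₀ ≤ 199 * N * j := by exact_mod_cast h100
    rw [div_div, div_le_div_iff₀ (by positivity) (by positivity)]
    linarith
  have h1c : (1 : ℝ) - 100 / 299 = 199 / 299 := by norm_num
  set K : ℝ≥0∞ := ENNReal.ofReal (4 ^ j / ((j - 1).factorial : ℝ) ^ 2) with hK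
  have hFj : Fj j 16 (100 / 299) = K * ∫⁻ z in Set.Ioo 0 (100 / 299 / (j : ℝ)),
      ENNReal.ofReal (gg j z) * AA z 16 (199 / 299) := by
    unfold Fj
    rw [h1c]
    rfl
  set F : ℝ → ℝ≥0∞ := fun z => ENNReal.ofReal (gg j z) * AA z 16 (199 / 299) with hF
  have hcov : Set.Ioo 0 (100 / 299 / (j : ℝ)) ⊆
      (Set.Ioo 0 (100 / 299 / (j : ℝ)) ∩ Set.Ioo 0 (199 / (299 * 40))) ∪
      ⋃ a : Finset.Ico a₀ M, (Set.Ioo 0 (100 / 299 / (j : ℝ)) ∩
        Set.Ico (zz N (a.1 + 1)) (zz N a.1)) := by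
    intro z hz
    by_cases hc : z < 199 / (299 * 40)
    · exact Or.inl ⟨hz, hz.1, hc⟩
    · right
      push Not at hc
      obtain ⟨a, ha, hb⟩ := cover ha₀ haM (hz.2.trans_le hz0) (by rw [hzM]; exact hc)
      exact Set.mem_iUnion.2 ⟨⟨a, ha⟩, hz, hb⟩
  have hsum : (∫⁻ z in Set.Ioo 0 (100 / 299 / (j : ℝ)), F z) ≤
      (∫⁻ z in Set.Ioo 0 (100 / 299 / (j : ℝ)) ∩ Set.Ioo 0 (199 / (299 * 40)), F z) +
      ∑ a ∈ Finset.Ico a₀ M, (∫⁻ z in Set.Ioo 0 (100 / 299 / (j : ℝ)) ∩
        Set.Ico (zz N (a + 1)) (zz N a), F z) := by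
    refine (lintegral_mono_set hcov).trans ((lintegral_union_le _ _ _).trans ?_)
    have hU : (∫⁻ z in ⋃ a : Finset.Ico a₀ M, (Set.Ioo 0 (100 / 299 / (j : ℝ)) ∩
        Set.Ico (zz N (a.1 + 1)) (zz N a.1)), F z) ≤
        ∑' a : Finset.Ico a₀ M, ∫⁻ z in (Set.Ioo 0 (100 / 299 / (j : ℝ)) ∩
        Set.Ico (zz N (a.1 + 1)) (zz N a.1)), F z :=
      lintegral_iUnion_le (fun a : Finset.Ico a₀ M => (Set.Ioo 0 (100 / 299 / (j : ℝ)) ∩
        Set.Ico (zz N (a.1 + 1)) (zz N a.1))) F
    refine add_le_add le_rfl (hU.trans (le_of_eq ?_))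
    rw [tsum_fintype]
    exact Finset.sum_coe_sort (Finset.Ico a₀ M) fun a => ∫⁻ z in
      Set.Ioo 0 (100 / 299 / (j : ℝ)) ∩ Set.Ico (zz N (a + 1)) (zz N a), F z
  rw [hFj]
  refine (mul_le_mul' le_rfl hsum).trans ?_
  rw [mul_add, Finset.mul_sum, add_comm]
  have hR1 : 0 ≤ ∑ a ∈ Finset.Ico a₀ M, cell j N a * u a :=
    Finset.sum_nonneg fun a _ => mul_nonneg (cell_nonneg _ _ _) (hu0 a)
  have hP := P16_nonneg
  have h17 : (0 : ℝ) ≤ 17 - j := by
    have : (j : ℝ) ≤ 16 := by exact_mod_cast hj2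
    linarith
  have hR2 : 0 ≤ 4 ^ j / ((j - 1).factorial : ℝ) ^ 2 * (100 / 299) ^ (j - 1) * P16 *
      ((199 / (299 * 40)) ^ (17 - j) / (17 - j)) := by positivity
  change _ ≤ ENNReal.ofReal (∑ a ∈ Finset.Ico a₀ M, cell j N a * u a +
      4 ^ j / ((j - 1).factorial : ℝ) ^ 2 * (100 / 299) ^ (j - 1) * P16 *
        ((199 / (299 * 40)) ^ (17 - j) / (17 - j)))
  rw [ENNReal.ofReal_add hR1 hR2]
  refine add_le_add ?_ (small_bd h2 (by omega) hj2)
  rw [ENNReal.ofReal_sum_of_nonneg fun a _ => mul_nonneg (cell_nonneg _ _ _) (hu0 a)]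
  refine Finset.sum_le_sum fun a ha => ?_
  obtain ⟨h3, h4⟩ := Finset.mem_Ico.1 ha
  exact cell_bd h10 (by omega) hN (by omega) (hu0 a) (hu a h3 h4)

end Pool.Agent.Work.MP_122e00_nt.Four

end

section

set_option autoImplicit false

/-!
# Four parts: the numerical values of the tail (item B4)
-/

namespace Pool.Agent.Work.MP_122e00_nt.Four

open Finset Filter Topology MeasureTheory

open scoped ENNReal

open Two Gen Sharp

namespace IB4

theorem cdiv_eq (x y : ℕ) : Tb.cdiv x y = (x + (y - 1)) / y := rfl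

theorem le_cdiv_mul (x y : ℕ) (hy : 0 < y) : x ≤ Tb.cdiv x y * y := by
  rw [cdiv_eq, mul_comm]
  have h2 := Nat.div_add_mod (x + (y - 1)) y
  have h3 := Nat.mod_lt (x + (y - 1)) hy
  omega

theorem dr_eq (n : ℕ) : ∀ l : List ℕ, Tb.dr n l = l.drop n := by
  induction n with
  | zero => intro l; rfl
  | succ n ih =>
    intro l
    have e : Tb.dr (n + 1) l = Tb.dr n (Tb.tl l) := rfl
    rw [e, ih]
    cases l with
    | nil =>
      have e2 : Tb.tl ([] : List ℕ) = [] := rfl
      rw [e2, List.drop_nil, List.drop_nil]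
    | cons a l => rfl

theorem getD_dr (n i : ℕ) (l : List ℕ) : (Tb.dr n l).getD i 0 = l.getD (n + i) 0 := by
  rw [dr_eq, List.getD_eq_getElem?_getD, List.getD_eq_getElem?_getD, List.getElem?_drop]

theorem length_dr (n : ℕ) (l : List ℕ) : (Tb.dr n l).length = l.length - n := by
  rw [dr_eq, List.length_drop]

theorem cell_nonneg (j N a : ℕ) : 0 ≤ cell j N a := by
  unfold cell
  positivity

/-- The bound from the table. -/
theorem core (hT1 : claimT1) (hT2 : claimT2) (hB1 : claimB1) (hB3 : claimB3)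
    (N Sc M j a₀ r : ℕ) (hN : 1 ≤ N) (hNM : N ≤ M) (hM : M + 1 = 40 * N) (hSc : 1 ≤ Sc)
    (hj : 2 ≤ j) (hj' : j ≤ 16) (ha : 1 ≤ a₀) (ha' : 100 * a₀ ≤ 199 * N * j) (ha2 : a₀ ≤ M + 1)
    (hs : Tb.sums j N Sc (Tb.dr a₀ (Tb.tbl N Sc M 16)) a₀ 0 r = true) :
    Fj j 16 (100 / 299) ≤ ENNReal.ofReal (4 ^ j / ((j - 1).factorial : ℝ) ^ 2 *
        ((r : ℝ) / 10 ^ 20) +
      4 ^ j / ((j - 1).factorial : ℝ) ^ 2 * (100 / 299) ^ (j - 1) *
        (∏ l ∈ Finset.range 16, (4 : ℝ) / (199 / 299 - l * (199 / (299 * 40)))) *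
        ((199 / (299 * 40)) ^ (17 - j) / (17 - j))) := by
  obtain ⟨h1, h2, h3, h4⟩ := hT1 N Sc M hN hNM hSc
  have hScr : (0 : ℝ) < (Sc : ℝ) := by exact_mod_cast hSc
  have hAA := hB1 N Sc M (fun k a => (Tb.tbl N Sc M k).getD a 0) hN hSc
    (fun a ha => (h2 a ha).ge) (fun k a ha _ => (h3 k a ha).ge) (fun k a ha haM => by
      show ∑ b ∈ Finset.Ico (a - N) a, ((b + 1) ^ 4 - b ^ 4) * (Tb.tbl N Sc M k).getD b 0 ≤
        (Tb.tbl N Sc M (k + 1)).getD a 0 * a ^ 4
      rw [h4 k a ha (by omega)]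
      exact le_cdiv_mul _ _ (by have : 0 < a := by omega
                                positivity))
  have hF := hB3 j N a₀ (M + 1) (fun a => ((Tb.tbl N Sc M 16).getD a 0 : ℝ) / Sc) hj hj' hN ha ha'
    ha2 hM (fun a => by positivity) (fun a ha1 ha3 => hAA 16 a (by omega) (by omega))
  refine hF.trans (ENNReal.ofReal_le_ofReal ?_)
  have hsum := hT2 j N Sc hN hSc (by omega) (Tb.dr a₀ (Tb.tbl N Sc M 16)) a₀ 0 r ha hs
  have hlen : (Tb.dr a₀ (Tb.tbl N Sc M 16)).length = M + 1 + 16 - a₀ := by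
    rw [length_dr, h1]
  rw [hlen] at hsum
  have hle : ∑ a ∈ Finset.Ico a₀ (M + 1), cell j N a * (((Tb.tbl N Sc M 16).getD a 0 : ℝ) / Sc) ≤
      4 ^ j / ((j - 1).factorial : ℝ) ^ 2 * ((r : ℝ) / 10 ^ 20) := by
    rw [Finset.sum_Ico_eq_sum_range]
    have e0 : ((r : ℝ) - ((0 : ℕ) : ℝ)) / 10 ^ 20 = (r : ℝ) / 10 ^ 20 := by
      rw [Nat.cast_zero, sub_zero]
    rw [e0] at hsum
    refine le_trans ?_ hsum
    have e1 : ∀ i ∈ Finset.range (M + 1 - a₀),
        cell j N (a₀ + i) * (((Tb.tbl N Sc M 16).getD (a₀ + i) 0 : ℝ) / Sc) =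
        cell j N (a₀ + i) * (((Tb.dr a₀ (Tb.tbl N Sc M 16)).getD i 0 : ℝ) / Sc) := by
      intro i _
      rw [getD_dr]
    rw [Finset.sum_congr rfl e1]
    refine Finset.sum_le_sum_of_subset_of_nonneg ?_ fun i _ _ => ?_
    · intro i hi
      rw [Finset.mem_range] at hi ⊢
      omega
    · exact mul_nonneg (cell_nonneg _ _ _) (by positivity)
  exact add_le_add hle le_rfl

end IB4

open IB4 in
theorem prfB4 (hT1 : claimT1) (hT2 : claimT2) (hT3 : claimT3) (hB1 : claimB1) (hB3 : claimB3) :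
    claimB4 := by
  obtain ⟨t4, t5, t6⟩ := hT3
  refine ⟨?_, ?_, ?_⟩
  · refine (core hT1 hT2 hB1 hB3 40 1000000000000000 1599 4 318 497000000000000 (by norm_num)
      (by norm_num) (by norm_num) (by norm_num) (by norm_num) (by norm_num) (by norm_num)
      (by norm_num) (by norm_num) t4).trans (ENNReal.ofReal_le_ofReal ?_)
    norm_num [Finset.prod_range_succ, Nat.factorial]
  · refine (core hT1 hT2 hB1 hB3 40 1000000000000000 1599 5 398 17800000000000 (by norm_num)
      (by norm_num) (by norm_num) (by norm_num) (by norm_num) (by norm_num) (by norm_num)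
      (by norm_num) (by norm_num) t5).trans (ENNReal.ofReal_le_ofReal ?_)
    norm_num [Finset.prod_range_succ, Nat.factorial]
  · refine (core hT1 hT2 hB1 hB3 40 1000000000000000 1599 6 477 2320000000000 (by norm_num)
      (by norm_num) (by norm_num) (by norm_num) (by norm_num) (by norm_num) (by norm_num)
      (by norm_num) (by norm_num) t6).trans (ENNReal.ofReal_le_ofReal ?_)
    norm_num [Finset.prod_range_succ, Nat.factorial]

end Pool.Agent.Work.MP_122e00_nt.Four

end

section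

set_option autoImplicit false

/-!
# Four parts, B5: a crude bound for `Vf 3` for large `j`
-/

namespace Pool.Agent.Work.MP_122e00_nt.Four

open Finset Filter Topology MeasureTheory

open scoped ENNReal

open Two Gen Sharp

namespace IB5

lemma meas_Tj (j k : ℕ) (c : ℝ) : MeasurableSet {x : Fin k → ℝ | Tj j c x} := by
  have : {x : Fin k → ℝ | Tj j c x} = ⋂ S : {S : Finset (Fin k) // S.card = j},
      {x : Fin k → ℝ | ∑ i ∈ S.1, x i < c} := by
    ext x
    simp only [Set.mem_ofPred_eq, Set.mem_iInter, Subtype.forall]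
    rfl
  rw [this]
  refine MeasurableSet.iInter fun S => ?_
  exact measurableSet_lt (Finset.measurable_sum _ fun i _ => measurable_pi_apply i)
    measurable_const

/-- averaging over the cyclic windows -/
lemma cyc (n j : ℕ) (X : Fin (n + 1) → ℝ) (c : ℝ) (hj : j ≤ n + 1)
    (h : ∀ S : Finset (Fin (n + 1)), S.card = j → ∑ i ∈ S, X i < c) :
    (j : ℝ) * ∑ i, X i ≤ (n + 1 : ℝ) * c := by
  classical
  set U : Finset (Fin (n + 1)) := (Finset.range j).attachFin (fun m hm => by
    rw [Finset.mem_range] at hm; omega) with hU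
  have hUc : U.card = j := by rw [hU, Finset.card_attachFin, Finset.card_range]
  have h1 : ∀ t : Fin (n + 1), ∑ u ∈ U, X (t + u) ≤ c := by
    intro t
    have h2 := h (U.map (Equiv.addLeft t).toEmbedding) (by rw [Finset.card_map, hUc])
    rw [Finset.sum_map] at h2
    exact h2.le
  have h3 : ∑ t : Fin (n + 1), ∑ u ∈ U, X (t + u) = (j : ℝ) * ∑ i, X i := by
    rw [Finset.sum_comm]
    have h4 : ∀ u ∈ U, ∑ t : Fin (n + 1), X (t + u) = ∑ i, X i := fun u _ =>
      Equiv.sum_comp (Equiv.addRight u) X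
    rw [Finset.sum_congr rfl h4, Finset.sum_const, hUc, nsmul_eq_mul]
  rw [← h3]
  refine (Finset.sum_le_sum fun t _ => h1 t).trans ?_
  rw [Finset.sum_const, Finset.card_univ, Fintype.card_fin, nsmul_eq_mul]
  push_cast
  exact le_rfl

/-- the marks as a sequence -/
noncomputable def sq {k : ℕ} (x : Fin k → ℝ) (m : ℕ) : ℝ := if h : m < k then x ⟨m, h⟩ else 0

lemma sq_coe {k : ℕ} (x : Fin k → ℝ) (i : Fin k) : sq x i = x i := by
  unfold sq
  rw [dif_pos i.2]

lemma sq_nonneg' {k : ℕ} {x : Fin k → ℝ} (hx : ∀ i, 0 < x i) (m : ℕ) : 0 ≤ sq x m := by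
  unfold sq
  split_ifs with h
  · exact (hx _).le
  · exact le_rfl

lemma sum_S {k j : ℕ} {c : ℝ} {x : Fin k → ℝ} (hT : Tj j c x) (S : Finset ℕ)
    (hS : ∀ m ∈ S, m < k) (hc : S.card = j) : ∑ m ∈ S, sq x m < c := by
  have h1 := hT (S.attachFin hS) (by rw [Finset.card_attachFin, hc])
  refine lt_of_eq_of_lt ?_ h1
  have h2 : S = (S.attachFin hS).map Fin.valEmbedding := (Finset.map_valEmbedding_attachFin hS).symm
  conv_lhs => rw [h2]
  rw [Finset.sum_map]
  exact Finset.sum_congr rfl fun i _ => sq_coe x i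

lemma sum_lt {k : ℕ} (x : Fin k → ℝ) (a : Fin k) :
    ∑ i ∈ Finset.univ.filter (fun i : Fin k => i < a), x i = ∑ m ∈ Finset.range a, sq x m := by
  have h2 : Finset.range a = (Finset.univ.filter (fun i : Fin k => i < a)).map Fin.valEmbedding := by
    ext m
    simp only [Finset.mem_range, Finset.mem_map, Finset.mem_filter, Finset.mem_univ, true_and,
      Fin.valEmbedding_apply]
    constructor
    · intro h
      exact ⟨⟨m, h.trans a.2⟩, h, rfl⟩
    · rintro ⟨i, hi, rfl⟩
      exact hi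
  rw [h2, Finset.sum_map]
  exact Finset.sum_congr rfl fun i _ => (sq_coe x i).symm

lemma sum_all {k : ℕ} (x : Fin k → ℝ) : ∑ i, x i = ∑ m ∈ Finset.range k, sq x m := by
  rw [← Fin.sum_univ_eq_sum_range (fun m => sq x m) k]
  exact Finset.sum_congr rfl fun i _ => (sq_coe x i).symm

lemma De_meas (k : ℕ) :
    MeasurableSet {x : Fin k → ℝ | (∀ i, 0 < x i) ∧ ∑ i, x i < 1} := by
  have h1 : MeasurableSet {x : Fin k → ℝ | ∀ i, 0 < x i} := by
    rw [Set.ofPred_forall]
    exact MeasurableSet.iInter (fun i => measurableSet_lt measurable_const (measurable_pi_apply i))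
  have h2 : MeasurableSet {x : Fin k → ℝ | ∑ i, x i < 1} :=
    measurableSet_lt (Finset.measurable_sum _ (fun i _ => measurable_pi_apply i)) measurable_const
  exact h1.inter h2

/-- the pointwise bound -/
lemma pointwise (j : ℕ) (c : ℝ) (hj : 9 ≤ j) (hc : 0 < c) (hc' : c ≤ 100 / 299)
    (x : Fin (j + 16) → ℝ) (hx : ∀ i, 0 < x i) (hx1 : ∑ i, x i < 1) (hT : Tj j c x) :
    (∏ a : Fin (j + 16), (1 - ∑ i ∈ Finset.univ.filter (fun i : Fin (j + 16) => i < a), x i)⁻¹) *
      ((1 - ∑ i, x i) ^ 3 / ((3 : ℕ).factorial : ℝ)) ≤ (1 - c)⁻¹ ^ j * 3140000 := by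
  have hj0 : (0 : ℝ) < j := by exact_mod_cast (show 0 < j by omega)
  have hj5 : (9 : ℝ) ≤ j := by exact_mod_cast hj
  set S : ℕ → ℝ := fun n => ∑ m ∈ Finset.range n, sq x m with hS
  have hmono : ∀ a b, a ≤ b → S a ≤ S b := by
    intro a b hab
    apply Finset.sum_le_sum_of_subset_of_nonneg (Finset.range_mono hab)
    intro m _ _
    exact sq_nonneg' hx m
  have hS0 : S 0 = 0 := by simp [hS]
  have hSk : S (j + 16) < 1 := by
    simp only [hS]
    rw [← sum_all]; exact hx1
  have hSlt : ∀ a, a ≤ j + 16 → 0 < 1 - S a := by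
    intro a ha
    have := hmono a (j + 16) ha
    linarith
  have h1 : ∀ a, a ≤ j → S a ≤ c := by
    intro a ha
    refine (hmono a j ha).trans (sum_S hT (Finset.range j) ?_ (Finset.card_range j)).le
    intro m hm
    rw [Finset.mem_range] at hm; omega
  have h2 : ∀ a, a + 1 ≤ 16 → (j : ℝ) * S (j + a + 1) ≤ ((j : ℝ) + a + 1) * c := by
    intro a ha
    have h3 := cyc (j + a) j (fun i => sq x i) c (by omega) (by
      intro T hTc
      have h4 := sum_S hT (T.map Fin.valEmbedding) (by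
        intro m hm
        rw [Finset.mem_map] at hm
        obtain ⟨i, _, rfl⟩ := hm
        have := i.2
        simp only [Fin.valEmbedding_apply]
        omega) (by rw [Finset.card_map, hTc])
      rw [Finset.sum_map] at h4
      exact h4)
    rw [Fin.sum_univ_eq_sum_range (fun m => sq x m) (j + a + 1)] at h3
    push_cast at h3
    exact h3
  have h2' : ∀ a : ℕ, a + 1 ≤ 16 → S (j + a + 1) ≤ c + (a + 1) * c / 9 := by
    intro a ha
    have h3 := h2 a ha
    have h4 : S (j + a + 1) ≤ ((j : ℝ) + a + 1) * c / j := by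
      rw [le_div_iff₀ hj0]; linarith
    refine h4.trans ?_
    have h5 : ((j : ℝ) + a + 1) * c / j = c + (a + 1) * c / j := by
      field_simp
      ring
    rw [h5]
    have h6 : ((a : ℝ) + 1) * c / j ≤ (a + 1) * c / 9 :=
      div_le_div_of_nonneg_left (by positivity) (by norm_num) hj5
    linarith
  have hprod : (∏ a : Fin (j + 16),
      (1 - ∑ i ∈ Finset.univ.filter (fun i : Fin (j + 16) => i < a), x i)⁻¹) =
      ∏ m ∈ Finset.range (j + 16), (1 - S m)⁻¹ := by
    rw [← Fin.prod_univ_eq_prod_range (fun m => (1 - S m)⁻¹) (j + 16)]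
    exact Finset.prod_congr rfl fun a _ => by rw [sum_lt x a]
  rw [hprod, sum_all x]
  change _ * ((1 - S (j + 16)) ^ 3 / _) ≤ _
  have hfirst : ∏ m ∈ Finset.range (j + 1), (1 - S m)⁻¹ ≤ (1 - c)⁻¹ ^ j := by
    rw [Finset.prod_range_succ', hS0, sub_zero, inv_one, mul_one]
    calc ∏ m ∈ Finset.range j, (1 - S (m + 1))⁻¹ ≤ ∏ _m ∈ Finset.range j, (1 - c)⁻¹ := by
          apply Finset.prod_le_prod
          · intro m hm
            rw [Finset.mem_range] at hm
            exact (inv_pos.2 (hSlt _ (by omega))).le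
          · intro m hm
            rw [Finset.mem_range] at hm
            have := h1 (m + 1) (by omega)
            exact inv_anti₀ (by linarith) (by linarith)
      _ = (1 - c)⁻¹ ^ j := by rw [Finset.prod_const, Finset.card_range]
  have e8 : ∏ m ∈ Finset.range (j + 16), (1 - S m)⁻¹ =
      (∏ m ∈ Finset.range (j + 1), (1 - S m)⁻¹) *
        ∏ a ∈ Finset.range 15, (1 - S (j + 1 + a))⁻¹ := by
    rw [← Finset.prod_range_add]
  rw [e8]
  have p0 : 0 ≤ ∏ m ∈ Finset.range (j + 1), (1 - S m)⁻¹ := by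
    apply Finset.prod_nonneg
    intro m hm
    rw [Finset.mem_range] at hm
    exact (inv_pos.2 (hSlt _ (by omega))).le
  have hmid0 : 0 ≤ ∏ a ∈ Finset.range 15, (1 - S (j + 1 + a))⁻¹ := by
    apply Finset.prod_nonneg
    intro m hm
    rw [Finset.mem_range] at hm
    exact (inv_pos.2 (hSlt _ (by omega))).le
  have hmid : ∏ a ∈ Finset.range 15, (1 - S (j + 1 + a))⁻¹ ≤ 6 * 3140000 := by
    calc ∏ a ∈ Finset.range 15, (1 - S (j + 1 + a))⁻¹
        ≤ ∏ a ∈ Finset.range 15, (1 - (100 / 299 + ((a : ℝ) + 1) * (100 / 299) / 9))⁻¹ := by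
          apply Finset.prod_le_prod
          · intro m hm
            rw [Finset.mem_range] at hm
            exact (inv_pos.2 (hSlt _ (by omega))).le
          · intro m hm
            rw [Finset.mem_range] at hm
            have h3 := h2' m (by omega)
            have h4 : j + 1 + m = j + m + 1 := by omega
            rw [h4]
            have hm' : (m : ℝ) ≤ 14 := by exact_mod_cast (show m ≤ 14 by omega)
            have hm0 : (0 : ℝ) ≤ m := Nat.cast_nonneg m
            apply inv_anti₀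
            · linarith
            · have h5 : ((m : ℝ) + 1) * c / 9 ≤ (m + 1) * (100 / 299) / 9 := by
                gcongr
              linarith
      _ ≤ 6 * 3140000 := by
          simp only [Finset.prod_range_succ, Finset.prod_range_zero]
          norm_num
  have hc1 : 0 ≤ (1 - c)⁻¹ := inv_nonneg.2 (by linarith)
  have hlast : (1 - S (j + 16)) ^ 3 ≤ 1 := by
    have r8 := hSlt (j + 16) (by omega)
    have r9 : 0 ≤ S (j + 16) := by
      rw [← hS0]; exact hmono 0 (j + 16) (by omega)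
    exact pow_le_one₀ r8.le (by linarith)
  have hl0 : 0 ≤ (1 - S (j + 16)) ^ 3 := pow_nonneg (hSlt (j + 16) (by omega)).le 3
  calc (∏ m ∈ Finset.range (j + 1), (1 - S m)⁻¹) *
        (∏ a ∈ Finset.range 15, (1 - S (j + 1 + a))⁻¹) *
        ((1 - S (j + 16)) ^ 3 / ((3 : ℕ).factorial : ℝ))
      = (∏ m ∈ Finset.range (j + 1), (1 - S m)⁻¹) *
        (∏ a ∈ Finset.range 15, (1 - S (j + 1 + a))⁻¹) * (1 - S (j + 16)) ^ 3 / 6 := by
        norm_num [Nat.factorial]
        ring
    _ ≤ (1 - c)⁻¹ ^ j * (6 * 3140000) * 1 / 6 := by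
        gcongr
    _ = (1 - c)⁻¹ ^ j * 3140000 := by ring

end IB5

open IB5 in
theorem prfB5 : Gen.claimB8 → Gen.claimE9 → claimB5 := by
  classical
  intro h8' h9 j c hj hc hc'
  unfold Vf
  have hmf : Measurable (fun x : Fin (j + 16) → ℝ => if Tj j c x then (1 : ℝ) else 0) :=
    Measurable.ite (meas_Tj j (j + 16) c) measurable_const measurable_const
  have h8 := h8' 3 (j + 16) (fun x => if Tj j c x then (1 : ℝ) else 0) 1 hmf (by
    intro x
    split_ifs <;> norm_num)
  rw [h8]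
  set A : Set (Fin (j + 16) → ℝ) := {x | (∀ i, 0 < x i) ∧ Tj j c x} with hA
  set De : Set (Fin (j + 16) → ℝ) := {x | (∀ i, 0 < x i) ∧ ∑ i, x i < 1} with hDe
  have hDem : MeasurableSet De := De_meas (j + 16)
  have hTm := meas_Tj j (j + 16) c
  have hvol := h9 j (j + 16) c (by omega) (by omega) hc
  rw [show j + 16 - j = 16 by omega] at hvol
  set K : ℝ := (1 - c)⁻¹ ^ j * 3140000 with hK
  have hK0 : 0 ≤ K := by
    have : 0 ≤ (1 - c)⁻¹ := inv_nonneg.2 (by linarith)
    positivity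
  have hsub : De ∩ {x | Tj j c x} ⊆ A := fun x hx => ⟨hx.1.1, hx.2⟩
  have hfin : volume (De ∩ {x | Tj j c x}) ≤
      ENNReal.ofReal (c ^ (j + 16) / ((j.factorial : ℝ) * (j : ℝ) ^ 16)) :=
    (measure_mono hsub).trans hvol
  have hint : ∫ x in De, (if Tj j c x then (1 : ℝ) else 0) *
      (∏ a : Fin (j + 16),
        (1 - ∑ i ∈ Finset.univ.filter (fun i : Fin (j + 16) => i < a), x i)⁻¹) *
        ((1 - ∑ i, x i) ^ 3 / ((3 : ℕ).factorial : ℝ)) ≤
      ∫ x in De, K * ({x | Tj j c x}.indicator (fun _ => (1 : ℝ)) x) := by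
    apply integral_mono_of_nonneg
    · refine (ae_restrict_iff' hDem).mpr (Eventually.of_forall (fun x hx => ?_))
      have hx0 : 0 < 1 - ∑ i, x i := by linarith [hx.2]
      refine mul_nonneg (mul_nonneg ?_ ?_) (by positivity)
      · split_ifs <;> norm_num
      · apply Finset.prod_nonneg
        intro a _
        rw [inv_nonneg]
        have : ∑ i ∈ Finset.univ.filter (fun i : Fin (j + 16) => i < a), x i ≤ ∑ i, x i :=
          Finset.sum_le_sum_of_subset_of_nonneg (Finset.filter_subset _ _)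
            fun i _ _ => (hx.1 i).le
        linarith
    · apply Integrable.const_mul
      rw [integrable_indicator_iff hTm]
      have : (volume.restrict De) {x | Tj j c x} ≠ ⊤ := by
        rw [Measure.restrict_apply hTm, Set.inter_comm]
        exact ne_top_of_le_ne_top ENNReal.ofReal_ne_top hfin
      exact integrableOn_const this (by simp)
    · refine (ae_restrict_iff' hDem).mpr (Eventually.of_forall (fun x hx => ?_))
      simp only
      by_cases hT : Tj j c x
      · rw [if_pos hT, one_mul, Set.indicator_of_mem (show x ∈ {x | Tj j c x} from hT), mul_one]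
        exact IB5.pointwise j c hj hc hc' x hx.1 hx.2 hT
      · rw [if_neg hT, zero_mul, zero_mul,
          Set.indicator_of_notMem (show x ∉ {x | Tj j c x} from hT), mul_zero]
  have hval : ∫ x in De, K * ({x | Tj j c x}.indicator (fun _ => (1 : ℝ)) x) ≤
      K * (c ^ (j + 16) / ((j.factorial : ℝ) * (j : ℝ) ^ 16)) := by
    rw [integral_const_mul]
    apply mul_le_mul_of_nonneg_left _ hK0
    rw [integral_indicator_const (1 : ℝ) hTm, smul_eq_mul, mul_one, measureReal_def,
      Measure.restrict_apply hTm, Set.inter_comm]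
    exact ENNReal.toReal_le_of_le_ofReal (by positivity) hfin
  have h3 : ((3 : ℕ) + 1 : ℝ) ^ (j + 16) = 4 ^ (j + 16) := by norm_num
  rw [h3]
  calc (4 : ℝ) ^ (j + 16) * ∫ x in De, (if Tj j c x then (1 : ℝ) else 0) *
      (∏ a : Fin (j + 16),
        (1 - ∑ i ∈ Finset.univ.filter (fun i : Fin (j + 16) => i < a), x i)⁻¹) *
        ((1 - ∑ i, x i) ^ 3 / ((3 : ℕ).factorial : ℝ))
      ≤ 4 ^ (j + 16) * (K * (c ^ (j + 16) / ((j.factorial : ℝ) * (j : ℝ) ^ 16))) :=
        mul_le_mul_of_nonneg_left (hint.trans hval) (by positivity)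
    _ = 4 ^ (j + 16) * (1 - c)⁻¹ ^ j * 3140000 *
      (c ^ (j + 16) / ((j.factorial : ℝ) * (j : ℝ) ^ 16)) := by rw [hK]; ring

end Pool.Agent.Work.MP_122e00_nt.Four

end

section

set_option autoImplicit false

/-!
# B6: the sum over large `j`
-/

namespace Pool.Agent.Work.MP_122e00_nt.Four

open Finset Filter Topology MeasureTheory

open Two Gen Sharp

namespace IB6

/-- The terms at `c = 100 / 299`. -/
noncomputable def tt (j : ℕ) : ℝ :=
  4 ^ (j + 1) * (4 ^ (j + 16) * (299 / 199) ^ j * 3140000 *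
    ((100 / 299) ^ (j + 16) / ((j.factorial : ℝ) * (j : ℝ) ^ 16)))

lemma tt_nonneg (j : ℕ) : 0 ≤ tt j := by
  unfold tt; positivity

lemma term_le (c : ℝ) (hc : 0 < c) (hc' : c ≤ 100 / 299) (j : ℕ) :
    (4 : ℝ) ^ (j + 1) * (4 ^ (j + 16) * (1 - c)⁻¹ ^ j * 3140000 *
      (c ^ (j + 16) / ((j.factorial : ℝ) * (j : ℝ) ^ 16))) ≤ tt j := by
  have h1 : (1 - c)⁻¹ ≤ 299 / 199 := by
    rw [inv_le_comm₀ (by linarith) (by norm_num)]
    norm_num
    linarith
  have h0 : 0 ≤ (1 - c)⁻¹ := inv_nonneg.2 (by linarith)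
  unfold tt
  gcongr

lemma fact_ge (i : ℕ) : 6227020800 * 14 ^ i ≤ (13 + i).factorial := by
  induction i with
  | zero => decide
  | succ i ih =>
    have h : (13 + (i + 1)).factorial = (13 + i + 1) * (13 + i).factorial :=
      Nat.factorial_succ (13 + i)
    rw [h, pow_succ]
    nlinarith [Nat.zero_le i, Nat.factorial_pos (13 + i)]

lemma tail_le (i : ℕ) : tt (13 + i) ≤ 19 / 10 ^ 8 * (58 / 100) ^ i := by
  have hf : (6227020800 * 14 ^ i : ℝ) ≤ ((13 + i).factorial : ℝ) := by exact_mod_cast fact_ge i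
  have h5 : (13 : ℝ) ≤ ((13 + i : ℕ) : ℝ) := by push_cast; linarith [Nat.cast_nonneg (α := ℝ) i]
  have hden : (6227020800 * 14 ^ i : ℝ) * 13 ^ 16 ≤
      ((13 + i).factorial : ℝ) * ((13 + i : ℕ) : ℝ) ^ 16 := by
    gcongr
  calc tt (13 + i) ≤ (4 : ℝ) ^ (13 + i + 1) * (4 ^ (13 + i + 16) * (299 / 199) ^ (13 + i) *
        3140000 * ((100 / 299) ^ (13 + i + 16) / ((6227020800 * 14 ^ i : ℝ) * 13 ^ 16))) := by
        unfold tt
        gcongr
    _ = (4 ^ 43 * 3140000 * (299 / 199) ^ 13 * (100 / 299) ^ 29 / (6227020800 * 13 ^ 16)) *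
        (16 * (299 / 199) * (100 / 299) / 14) ^ i := by
        have e : (16 * (299 / 199) * (100 / 299) / 14 : ℝ) ^ i =
            4 ^ i * 4 ^ i * (299 / 199) ^ i * (100 / 299) ^ i / 14 ^ i := by
          rw [div_pow, mul_pow, mul_pow, show (16 : ℝ) = 4 * 4 by norm_num, mul_pow]
        rw [e]
        have e1 : (4 : ℝ) ^ (13 + i + 1) = 4 ^ 14 * 4 ^ i := by
          rw [← pow_add]; congr 1; omega
        have e2 : (4 : ℝ) ^ (13 + i + 16) = 4 ^ 29 * 4 ^ i := by
          rw [← pow_add]; congr 1; omega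
        have e3 : (299 / 199 : ℝ) ^ (13 + i) = (299 / 199) ^ 13 * (299 / 199) ^ i := pow_add _ _ _
        have e4 : (100 / 299 : ℝ) ^ (13 + i + 16) = (100 / 299) ^ 29 * (100 / 299) ^ i := by
          rw [← pow_add]; congr 1; omega
        rw [e1, e2, e3, e4]
        have h6 : (14 : ℝ) ^ i ≠ 0 := by positivity
        generalize (4 : ℝ) ^ i = a
        generalize (299 / 199 : ℝ) ^ i = b
        generalize (100 / 299 : ℝ) ^ i = d
        generalize (14 : ℝ) ^ i = e at h6
        field_simp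
    _ ≤ 19 / 10 ^ 8 * (58 / 100) ^ i := by
        apply mul_le_mul
        · norm_num
        · exact pow_le_pow_left₀ (by norm_num) (by norm_num) i
        · positivity
        · norm_num

lemma head_le : ∑ j ∈ Finset.Ico 9 13, tt j ≤ 32485 / 10 ^ 8 := by
  have e : Finset.Ico 9 13 = {9, 10, 11, 12} := by decide
  rw [e]
  unfold tt
  norm_num [Finset.sum_insert, Nat.factorial]

lemma sum_tt_le (J : ℕ) : ∑ j ∈ Finset.Ico 9 J, tt j ≤ 326 / 1000000 := by
  have h1 : ∑ j ∈ Finset.Ico 9 J, tt j ≤ ∑ j ∈ Finset.Ico 9 (13 + J), tt j := by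
    apply Finset.sum_le_sum_of_subset_of_nonneg
    · exact Finset.Ico_subset_Ico_right (by omega)
    · intro j _ _
      exact tt_nonneg j
  refine h1.trans ?_
  rw [← Finset.sum_Ico_consecutive tt (show 9 ≤ 13 by norm_num) (show 13 ≤ 13 + J by omega),
    Finset.sum_Ico_eq_sum_range tt 13, Nat.add_sub_cancel_left]
  have h2 : ∑ i ∈ Finset.range J, tt (13 + i) ≤
      ∑ i ∈ Finset.range J, 19 / 10 ^ 8 * ((58 : ℝ) / 100) ^ i :=
    Finset.sum_le_sum fun i _ => tail_le i
  rw [← Finset.mul_sum] at h2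
  have hg : ∑ i ∈ Finset.range J, ((58 : ℝ) / 100) ^ i ≤ 100 / 42 := by
    rw [geom_sum_eq (by norm_num)]
    rw [div_le_iff_of_neg (by norm_num)]
    have : (0 : ℝ) ≤ (58 / 100) ^ J := by positivity
    linarith
  have h3 : 19 / 10 ^ 8 * ∑ i ∈ Finset.range J, ((58 : ℝ) / 100) ^ i ≤
      19 / 10 ^ 8 * (100 / 42) := by gcongr
  have h4 := head_le
  have h5 : (32485 / 10 ^ 8 + 19 / 10 ^ 8 * (100 / 42) : ℝ) ≤ 326 / 1000000 := by norm_num
  linarith

end IB6

open IB6 in
theorem prfB6 : claimB5 → claimB6 := by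
  intro h5 c hc hc' J
  refine le_trans (Finset.sum_le_sum fun j hj => ?_) (sum_tt_le J)
  have h := h5 j c (Finset.mem_Ico.mp hj).1 hc hc'
  refine le_trans ?_ (term_le c hc hc' j)
  rw [show ((3 : ℕ) + 1 : ℝ) = 4 by norm_num]
  exact mul_le_mul_of_nonneg_left h (by positivity)

end Pool.Agent.Work.MP_122e00_nt.Four

end

section

set_option autoImplicit false

/-!
# MP_122e00_nt, four parts, item B7: the sum over all `j`
-/

namespace Pool.Agent.Work.MP_122e00_nt.Four

open Finset Filter Topology MeasureTheory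

open scoped ENNReal

open Two Gen Sharp

namespace IB7

/-- one term -/
theorem term (hA : claimA13) (j j' : ℕ) (c B : ℝ) (hc : 0 < c) (hc' : c ≤ 100 / 299)
    (h1 : 1 ≤ j') (h2 : j' ≤ j) (hB : 0 ≤ B)
    (hF : Fj j' 16 (100 / 299) ≤ ENNReal.ofReal B) : Vf 3 j (j + 16) c ≤ 1 / 6 * B := by
  have h := hA j j' (j + 16) 16 c (100 / 299) h1 h2 (by omega) (by omega) hc hc' (by norm_num)
  have h3 : ENNReal.ofReal (Vf 3 j (j + 16) c) ≤ ENNReal.ofReal (1 / 6 * B) := by
    refine h.trans ?_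
    rw [ENNReal.ofReal_mul (by norm_num)]
    exact mul_le_mul_right hF _
  exact (ENNReal.ofReal_le_ofReal_iff (by positivity)).1 h3

/-- the bounds -/
noncomputable def bd (j : ℕ) : ℝ :=
  if j = 4 then 354 / 10 ^ 7 else if j = 5 then 317 / 10 ^ 9 else 69 / 10 ^ 10

theorem bd_nonneg (j : ℕ) : 0 ≤ bd j := by
  unfold bd
  split_ifs <;> norm_num

theorem le_bd (hA : claimA13) (hB : claimB4) (j : ℕ) (c : ℝ) (hc : 0 < c) (hc' : c ≤ 100 / 299)
    (hj : 4 ≤ j) : Vf 3 j (j + 16) c ≤ 1 / 6 * bd j := by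
  obtain ⟨h4, h5, h6⟩ := hB
  unfold bd
  split_ifs with e1 e2
  · subst e1
    exact term hA 4 4 c _ hc hc' (by norm_num) le_rfl (by norm_num) h4
  · subst e2
    exact term hA 5 5 c _ hc hc' (by norm_num) le_rfl (by norm_num) h5
  · exact term hA j 6 c _ hc hc' (by norm_num) (by omega) (by norm_num) h6

theorem sum_le (hA : claimA13) (hB : claimB4) (c : ℝ) (hc : 0 < c) (hc' : c ≤ 100 / 299)
    (J : ℕ) (hJ : J ≤ 9) :
    ∑ j ∈ Finset.Ico 4 J, ((3 : ℕ) + 1 : ℝ) ^ (j + 1) * Vf 3 j (j + 16) c ≤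
      66537 / 10000000 := by
  have h1 : ∑ j ∈ Finset.Ico 4 J, ((3 : ℕ) + 1 : ℝ) ^ (j + 1) * Vf 3 j (j + 16) c ≤
      ∑ j ∈ Finset.Ico 4 J, ((3 : ℕ) + 1 : ℝ) ^ (j + 1) * (1 / 6 * bd j) := by
    refine Finset.sum_le_sum fun j hj => ?_
    exact mul_le_mul_of_nonneg_left
      (le_bd hA hB j c hc hc' (Finset.mem_Ico.1 hj).1) (by positivity)
  have h2 : ∑ j ∈ Finset.Ico 4 J, ((3 : ℕ) + 1 : ℝ) ^ (j + 1) * (1 / 6 * bd j) ≤
      ∑ j ∈ Finset.Ico 4 9, ((3 : ℕ) + 1 : ℝ) ^ (j + 1) * (1 / 6 * bd j) := by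
    refine Finset.sum_le_sum_of_subset_of_nonneg (Finset.Ico_subset_Ico_right hJ)
      fun j _ _ => ?_
    have := bd_nonneg j
    positivity
  have h3 : ∑ j ∈ Finset.Ico 4 9, ((3 : ℕ) + 1 : ℝ) ^ (j + 1) * (1 / 6 * bd j) ≤
      66537 / 10000000 := by
    rw [Finset.sum_Ico_eq_sum_range]
    simp only [Finset.sum_range_succ, Finset.sum_range_zero, bd]
    norm_num
  exact h1.trans (h2.trans h3)

end IB7

theorem prfB7 : claimA13 → claimB4 → claimB6 → claimB7 := by
  intro hA hB hB6 c hc hc' J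
  rcases Nat.le_total J 9 with hJ | hJ
  · exact (IB7.sum_le hA hB c hc hc' J hJ).trans (by norm_num)
  · rw [← Finset.sum_Ico_consecutive _ (by norm_num : 4 ≤ 9) hJ]
    have h1 := IB7.sum_le hA hB c hc hc' 9 le_rfl
    have h2 := hB6 c hc hc' J
    refine (add_le_add h1 h2).trans (by norm_num)

end Pool.Agent.Work.MP_122e00_nt.Four

end

section

set_option autoImplicit false

/-!
# I15: the final bound for at most `T` marks, four parts (helper64, adapted from helper18)
-/

namespace Pool.Agent.Work.MP_122e00_nt.Four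

open Finset Filter Topology MeasureTheory

open scoped ENNReal ArithmeticFunction.vonMangoldt ArithmeticFunction.zeta

open Two Gen Sharp

namespace I15

theorem psw_meas (a b : ℝ) (s : ℕ) (θ : ℝ) : Measurable (psw a b s θ) := by
  unfold psw
  have hsum : Measurable (fun y : Fin s → ℝ => ∑ i, y i) :=
    Finset.measurable_sum _ fun i _ => measurable_pi_apply i
  have h1 : MeasurableSet {y : Fin s → ℝ | ∀ i, 0 ≤ y i} := by
    rw [show {y : Fin s → ℝ | ∀ i, 0 ≤ y i} = ⋂ i, {y | 0 ≤ y i} by ext; simp]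
    exact MeasurableSet.iInter fun i => measurableSet_le measurable_const (measurable_pi_apply i)
  have h2 : MeasurableSet {y : Fin s → ℝ | ∑ i, y i ≤ 1 / 2 - θ} :=
    measurableSet_le hsum measurable_const
  exact ((hsum.const_mul b).const_add a).indicator (h1.inter h2)

theorem gs_meas {s : ℕ} {ψ : (Fin s → ℝ) → ℝ} (h : Measurable ψ) : Measurable (gs ψ) := by
  unfold gs
  refine Finset.measurable_sum _ fun i _ => h.comp ?_
  exact measurable_pi_lambda _ fun j => measurable_pi_apply _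

theorem g4_meas (θ : ℝ) : Measurable (g4 θ) := gs_meas (psw_meas _ _ _ _)

theorem psw_symm (a b : ℝ) (s : ℕ) (θ : ℝ) (y : Fin s → ℝ) (τ : Equiv.Perm (Fin s)) :
    psw a b s θ (fun i => y (τ i)) = psw a b s θ y := by
  unfold psw
  have hsum : ∑ i, y (τ i) = ∑ i, y i := Equiv.sum_comp τ y
  by_cases h : y ∈ {y : Fin s → ℝ | (∀ i, 0 ≤ y i) ∧ ∑ i, y i ≤ 1 / 2 - θ}
  · have h' : (fun i => y (τ i)) ∈
        {y : Fin s → ℝ | (∀ i, 0 ≤ y i) ∧ ∑ i, y i ≤ 1 / 2 - θ} := by
      refine ⟨fun i => h.1 _, ?_⟩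
      show ∑ i, y (τ i) ≤ 1 / 2 - θ
      rw [hsum]
      exact h.2
    rw [Set.indicator_of_mem h, Set.indicator_of_mem h']
    show a + b * ∑ i, y (τ i) = _
    rw [hsum]
  · have h' : (fun i => y (τ i)) ∉
        {y : Fin s → ℝ | (∀ i, 0 ≤ y i) ∧ ∑ i, y i ≤ 1 / 2 - θ} := by
      intro hc
      apply h
      refine ⟨fun i => ?_, ?_⟩
      · have := hc.1 (τ.symm i)
        simpa using this
      · have h2 : ∑ i, y (τ i) ≤ 1 / 2 - θ := hc.2
        rw [hsum] at h2
        exact h2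
    rw [Set.indicator_of_notMem h, Set.indicator_of_notMem h']

theorem px_append {k : ℕ} (x : Fin k → ℝ) (v : Fin 4 → ℝ) : px (Fin.append x v) = x := by
  funext i
  exact Fin.append_left x v i

theorem ph_append {k : ℕ} (x : Fin k → ℝ) (v : Fin 4 → ℝ) : ph (Fin.append x v) = v := by
  funext i
  exact Fin.append_right x v i

theorem Jf_append {k : ℕ} (m : ℕ) (R : ℝ) (x : Fin k → ℝ) (v : Fin 4 → ℝ) :
    Jf m k R (Fin.append x v) = Qs k m x * pg R (4 ^ k) (Pl (g4 0) x v) := by
  unfold Jf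
  rw [px_append, ph_append]

theorem meas2 {k : ℕ} (f : (Fin k → ℝ) → (Fin 4 → ℝ) → ℝ)
    (hf : Measurable (fun p : (Fin k → ℝ) × (Fin 4 → ℝ) => f p.1 p.2)) :
    Measurable (fun p : Fin (k + 4) → ℝ => f (px p) (ph p)) := by
  have hpx : Measurable (fun p : Fin (k + 4) → ℝ => px p) :=
    measurable_pi_lambda _ fun i => measurable_pi_apply _
  have hph : Measurable (fun p : Fin (k + 4) → ℝ => ph p) :=
    measurable_pi_lambda _ fun i => measurable_pi_apply _
  exact hf.comp (hpx.prodMk hph)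

theorem Jf_meas (h6 : Sharp.claimI6) (h3 : Sharp.claimQ3) (m k : ℕ) (R : ℝ) :
    Measurable (Jf m k R) := by
  have hpx : Measurable (fun p : Fin (k + 4) → ℝ => px p) :=
    measurable_pi_lambda _ fun i => measurable_pi_apply _
  have h6a := h6 3 k 0 R (g4 0) (g4_meas 0)
  have hPl := h6a.2.1
  have hpg := h6a.2.2.1 ((4 : ℝ) ^ k)
  have e1 : Measurable (fun p : Fin (k + 4) → ℝ => Pl (g4 0) (px p) (ph p)) := meas2 _ hPl
  have e2 : Measurable (fun p : Fin (k + 4) → ℝ => pg R (4 ^ k) (Pl (g4 0) (px p) (ph p))) :=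
    hpg.comp e1
  have e3 : Measurable (Qs k m) := (h3.2.1 k m).2.measurable
  have e4 : Measurable (fun p : Fin (k + 4) → ℝ => Qs k m (px p)) := e3.comp hpx
  exact e4.mul e2

end I15

open I15 in
theorem prfI15 (h6 : Sharp.claimI6) (h7 : Sharp.claimI7) (h12 : Sharp.claimI12) (h13 : claimI13) (h14 : claimI14)
    (h3 : Sharp.claimQ3) : claimI15 := by
  intro m T k R hk hR
  have hG : Measurable (fun p : Fin (k + 4) → ℝ => ENNReal.ofReal (Jf m k R p)) :=
    (Jf_meas h6 h3 m k R).ennreal_ofReal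
  rw [h7 3 k m T R (g4 0) (g4_meas 0) hk hR]
  have e1 : ∫⁻ y in Sim k 3 ∩ {y | xs y ∈ Srt k},
      ENNReal.ofReal (Qs k m (xs y) * pg R (((3 : ℕ) + 1 : ℝ) ^ k) (Pl (g4 0) (xs y) (vs y))) =
      ∫⁻ y in Sim k 3 ∩ {y | xs y ∈ Srt k},
        (fun p : Fin (k + 4) → ℝ => ENNReal.ofReal (Jf m k R p)) (Fin.append (xs y) (vs y)) := by
    apply lintegral_congr
    intro y
    show _ = ENNReal.ofReal (Jf m k R (Fin.append (xs y) (vs y)))
    rw [Jf_append]
    norm_num
  rw [e1, h13 k _ hG, h14 k _ hG]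
  · unfold Jk
    exact le_rfl
  · intro x v σ
    show ENNReal.ofReal (Jf m k R (Fin.append x fun i => v (σ i))) =
      ENNReal.ofReal (Jf m k R (Fin.append x v))
    rw [Jf_append, Jf_append]
    unfold g4
    rw [h12.2 3 k _ (psw_symm _ _ _ _) x v σ]

end Pool.Agent.Work.MP_122e00_nt.Four

end

section

set_option autoImplicit false

/-!
# Four parts: the table computed by `Tb.tbl` (item T1)
-/

namespace Pool.Agent.Work.MP_122e00_nt.Four

open Finset

namespace IT1

open Tb

theorem ps_nil (a s : ℕ) : ps [] a s = [s] := rfl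

theorem ps_cons (u : ℕ) (U : List ℕ) (a s : ℕ) :
    ps (u :: U) a s = s :: ps U (a + 1) (s + w4 a * u) := rfl

theorem tl_eq (l : List ℕ) : tl l = l.tail := by cases l <;> rfl

theorem hd_eq (l : List ℕ) : hd l = l.getD 0 0 := by cases l <;> rfl

theorem dr_zero (l : List ℕ) : dr 0 l = l := rfl

theorem dr_succ (n : ℕ) (l : List ℕ) : dr (n + 1) l = dr n (tl l) := rfl

theorem dr_eq (n : ℕ) (l : List ℕ) : dr n l = l.drop n := by
  induction n generalizing l with
  | zero => rfl
  | succ n ih => rw [dr_succ, ih, tl_eq, List.drop_tail]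

theorem qs_nil (Q : List ℕ) (a : ℕ) : qs [] Q a = [] := rfl

theorem qs_cons (s : ℕ) (P Q : List ℕ) (a : ℕ) :
    qs (s :: P) Q a = cdiv (s - hd Q) (a ^ 4) :: qs P (tl Q) (a + 1) := rfl

theorem rp_zero (c : ℕ) (l : List ℕ) : rp c 0 l = l := rfl

theorem rp_succ (c n : ℕ) (l : List ℕ) : rp c (n + 1) l = c :: rp c n l := rfl

theorem nx_eq (N Sc : ℕ) (U : List ℕ) :
    nx N Sc U = rp Sc (N + 1) (qs (dr (N + 1) (ps U 0 0)) (tl (ps U 0 0)) (N + 1)) := rfl

theorem tbl_zero (N Sc M : ℕ) : tbl N Sc M 0 = rp Sc (M + 1) [] := rfl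

theorem tbl_succ (N Sc M k : ℕ) : tbl N Sc M (k + 1) = nx N Sc (tbl N Sc M k) := rfl

theorem ps_length (U : List ℕ) (a s : ℕ) : (ps U a s).length = U.length + 1 := by
  induction U generalizing a s with
  | nil => rfl
  | cons u U ih => rw [ps_cons, List.length_cons, ih, List.length_cons]

theorem ps_getD (U : List ℕ) (a s i : ℕ) (hi : i ≤ U.length) :
    (ps U a s).getD i 0 = s + ∑ b ∈ range i, w4 (a + b) * U.getD b 0 := by
  induction U generalizing a s i with
  | nil =>
    have : i = 0 := by simpa using hi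
    subst this
    rfl
  | cons u U ih =>
    rw [ps_cons]
    cases i with
    | zero => simp
    | succ i =>
      rw [List.getD_cons_succ, ih (a + 1) (s + w4 a * u) i (by simpa using hi),
        sum_range_succ']
      simp only [List.getD_cons_succ, List.getD_cons_zero, add_zero]
      have : ∀ b, w4 (a + 1 + b) = w4 (a + (b + 1)) := fun b => by
        rw [show a + 1 + b = a + (b + 1) by ring]
      simp only [this]
      ring

theorem qs_length (P Q : List ℕ) (a : ℕ) : (qs P Q a).length = P.length := by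
  induction P generalizing Q a with
  | nil => rfl
  | cons s P ih => rw [qs_cons, List.length_cons, ih, List.length_cons]

theorem tail_getD (Q : List ℕ) (i : ℕ) : Q.tail.getD i 0 = Q.getD (i + 1) 0 := by
  cases Q <;> simp

theorem qs_getD (P Q : List ℕ) (a i : ℕ) (hi : i < P.length) :
    (qs P Q a).getD i 0 = cdiv (P.getD i 0 - Q.getD i 0) ((a + i) ^ 4) := by
  induction P generalizing Q a i with
  | nil => simp at hi
  | cons s P ih =>
    rw [qs_cons]
    cases i with
    | zero => rw [List.getD_cons_zero, List.getD_cons_zero, hd_eq, add_zero]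
    | succ i =>
      rw [List.getD_cons_succ, ih (tl Q) (a + 1) i (by simpa using hi), List.getD_cons_succ,
        tl_eq, tail_getD, show a + 1 + i = a + (i + 1) by ring]

theorem rp_length (c n : ℕ) (l : List ℕ) : (rp c n l).length = n + l.length := by
  induction n with
  | zero => rw [rp_zero]; omega
  | succ n ih => rw [rp_succ, List.length_cons, ih]; omega

theorem rp_getD_lt (c n : ℕ) (l : List ℕ) (i : ℕ) (hi : i < n) : (rp c n l).getD i 0 = c := by
  induction n generalizing i with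
  | zero => omega
  | succ n ih =>
    rw [rp_succ]
    cases i with
    | zero => rfl
    | succ i => rw [List.getD_cons_succ, ih i (by omega)]

theorem rp_getD_add (c n : ℕ) (l : List ℕ) (i : ℕ) : (rp c n l).getD (n + i) 0 = l.getD i 0 := by
  induction n with
  | zero => rw [rp_zero, zero_add]
  | succ n ih => rw [rp_succ, show n + 1 + i = (n + i) + 1 by ring, List.getD_cons_succ, ih]

theorem drop_getD (l : List ℕ) (n i : ℕ) : (l.drop n).getD i 0 = l.getD (n + i) 0 := by
  rw [List.getD_eq_getElem?_getD, List.getD_eq_getElem?_getD, List.getElem?_drop]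

theorem nx_length (N Sc : ℕ) (U : List ℕ) (hN : N ≤ U.length) :
    (nx N Sc U).length = U.length + 1 := by
  rw [nx_eq, rp_length, qs_length, dr_eq, List.length_drop, ps_length]
  omega

theorem nx_le (N Sc : ℕ) (U : List ℕ) (a : ℕ) (ha : a ≤ N) : (nx N Sc U).getD a 0 = Sc := by
  rw [nx_eq, rp_getD_lt _ _ _ _ (by omega)]

theorem w4_eq (b : ℕ) : w4 b = (b + 1) ^ 4 - b ^ 4 := rfl

theorem nx_gt (N Sc : ℕ) (U : List ℕ) (a : ℕ) (ha : N < a) (ha2 : a ≤ U.length) :
    (nx N Sc U).getD a 0 =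
      cdiv (∑ b ∈ Ico (a - N) a, ((b + 1) ^ 4 - b ^ 4) * U.getD b 0) (a ^ 4) := by
  obtain ⟨i, rfl⟩ : ∃ i, a = (N + 1) + i := ⟨a - (N + 1), by omega⟩
  rw [nx_eq, rp_getD_add, qs_getD _ _ _ _ (by
    rw [dr_eq, List.length_drop, ps_length]; omega), dr_eq, drop_getD, tl_eq, tail_getD,
    ps_getD U 0 0 _ ha2, ps_getD U 0 0 (i + 1) (by omega)]
  congr 1
  have h1 : N + 1 + i - N = i + 1 := by omega
  rw [h1, zero_add, zero_add]
  simp only [zero_add, w4_eq]
  rw [← sum_range_add_sum_Ico (fun b => ((b + 1) ^ 4 - b ^ 4) * U.getD b 0)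
    (show i + 1 ≤ N + 1 + i by omega)]
  omega

end IT1

open IT1 in
theorem prfT1 : claimT1 := by
  intro N Sc M hN hNM hSc
  have hlen : ∀ k : ℕ, (Tb.tbl N Sc M k).length = M + 1 + k := by
    intro k
    induction k with
    | zero => rw [tbl_zero, rp_length]; rfl
    | succ k ih =>
      rw [tbl_succ, nx_length _ _ _ (by rw [ih]; omega), ih]
      omega
  refine ⟨hlen, ?_, ?_, ?_⟩
  · intro a ha
    rw [tbl_zero, rp_getD_lt _ _ _ _ (by omega)]
  · intro k a ha
    rw [tbl_succ, nx_le _ _ _ _ ha]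
  · intro k a ha ha2
    rw [tbl_succ, nx_gt _ _ _ _ ha (by rw [hlen]; omega)]

end Pool.Agent.Work.MP_122e00_nt.Four

end

section

set_option autoImplicit false

/-!
# Four parts, item T2: the sum program
-/

namespace Pool.Agent.Work.MP_122e00_nt.Four

open Finset Filter Topology MeasureTheory

open Two Gen Sharp

namespace IT2

/-- the numerator of a summand -/
def nX (j N a u : ℕ) : ℕ :=
  (10 ^ 20 * u) * ((100 * (a + 1) - 199 * N * j) ^ (j - 1) * (299 * (a + 1) - 199 * N * j) ^ 3)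

/-- the denominator of a summand -/
def dY (j N Sc a : ℕ) : ℕ :=
  (Sc * (a * (a + 1) ^ 3)) * (299 ^ 3 * (199 * N) ^ (j - 1))

theorem sums_nil (j N Sc a s r : ℕ) : Tb.sums j N Sc [] a s r = Nat.ble s r := rfl

theorem sums_cons (j N Sc u : ℕ) (U : List ℕ) (a s r : ℕ) :
    Tb.sums j N Sc (u :: U) a s r =
      cond (Nat.ble s r) (Tb.sums j N Sc U (a + 1) (s + Tb.cdiv (nX j N a u) (dY j N Sc a)) r)
        false := rfl

theorem cdiv_ge (x y : ℕ) (hy : 0 < y) : (x : ℝ) / y ≤ (Tb.cdiv x y : ℝ) := by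
  have h : Tb.cdiv x y = (x + (y - 1)) / y := rfl
  have h1 : x ≤ Tb.cdiv x y * y := by
    rw [h]
    have h2 := Nat.div_add_mod (x + (y - 1)) y
    have h3 := Nat.mod_lt (x + (y - 1)) hy
    have h4 : (x + (y - 1)) / y * y = y * ((x + (y - 1)) / y) := Nat.mul_comm _ _
    omega
  have hy' : (0 : ℝ) < y := by exact_mod_cast hy
  rw [div_le_iff₀ hy']
  exact_mod_cast h1

theorem cell_eq (j N Sc a u : ℕ) (hN : 1 ≤ N) (hSc : 1 ≤ Sc) (ha : 1 ≤ a) :
    cell j N a * ((u : ℝ) / Sc) =
      4 ^ j / ((j - 1).factorial : ℝ) ^ 2 * (((nX j N a u : ℝ) / dY j N Sc a) / 10 ^ 20) := by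
  have hN' : (N : ℝ) ≠ 0 := by
    have : (0 : ℝ) < N := by exact_mod_cast hN
    exact this.ne'
  have hS' : (Sc : ℝ) ≠ 0 := by
    have : (0 : ℝ) < Sc := by exact_mod_cast hSc
    exact this.ne'
  have ha' : (a : ℝ) ≠ 0 := by
    have : (0 : ℝ) < a := by exact_mod_cast ha
    exact this.ne'
  have ha1 : (a : ℝ) + 1 ≠ 0 := by positivity
  have hf : ((j - 1).factorial : ℝ) ≠ 0 := by exact_mod_cast (Nat.factorial_ne_zero _)
  have hX : (nX j N a u : ℝ) = (10 ^ 20 * (u : ℝ)) *
      (((100 * (a + 1) - 199 * N * j : ℕ) : ℝ) ^ (j - 1) *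
        ((299 * (a + 1) - 199 * N * j : ℕ) : ℝ) ^ 3) := by
    unfold nX
    push_cast
    ring
  have hY : (dY j N Sc a : ℝ) = ((Sc : ℝ) * ((a : ℝ) * ((a : ℝ) + 1) ^ 3)) *
      (299 ^ 3 * (199 * (N : ℝ)) ^ (j - 1)) := by
    unfold dY
    push_cast
    ring
  have hp : (199 * (N : ℝ)) ^ (j - 1) ≠ 0 := pow_ne_zero _ (by positivity)
  rw [hX, hY]
  unfold cell
  generalize ((100 * (a + 1) - 199 * N * j : ℕ) : ℝ) ^ (j - 1) = A
  generalize ((299 * (a + 1) - 199 * N * j : ℕ) : ℝ) ^ 3 = B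
  generalize (4 : ℝ) ^ j / ((j - 1).factorial : ℝ) ^ 2 = K
  generalize (199 * (N : ℝ)) ^ (j - 1) = W at hp ⊢
  field_simp

theorem main (j N Sc : ℕ) (hN : 1 ≤ N) (hSc : 1 ≤ Sc) (U : List ℕ) : ∀ (a s r : ℕ),
    1 ≤ a → Tb.sums j N Sc U a s r = true →
    ∑ i ∈ Finset.range U.length, cell j N (a + i) * ((U.getD i 0 : ℝ) / Sc) ≤
      4 ^ j / ((j - 1).factorial : ℝ) ^ 2 * (((r : ℝ) - s) / 10 ^ 20) := by
  induction U with
  | nil =>
    intro a s r _ h
    rw [sums_nil] at h
    have h1 : s ≤ r := Nat.le_of_ble_eq_true h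
    have h2 : (s : ℝ) ≤ r := by exact_mod_cast h1
    simp only [List.length_nil, Finset.range_zero, Finset.sum_empty]
    have h3 : (0 : ℝ) ≤ (r : ℝ) - s := by linarith
    positivity
  | cons u U ih =>
    intro a s r ha h
    rw [sums_cons] at h
    have h1 : Tb.sums j N Sc U (a + 1) (s + Tb.cdiv (nX j N a u) (dY j N Sc a)) r = true := by
      cases hb : Nat.ble s r with
      | false => rw [hb] at h; exact absurd h (by simp)
      | true => rw [hb] at h; exact h
    have h2 := ih (a + 1) _ r (by omega) h1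
    rw [List.length_cons, Finset.sum_range_succ']
    have h3 : ∀ i : ℕ, cell j N (a + (i + 1)) * (((u :: U).getD (i + 1) 0 : ℝ) / Sc) =
        cell j N (a + 1 + i) * ((U.getD i 0 : ℝ) / Sc) := by
      intro i
      rw [List.getD_cons_succ, show a + (i + 1) = a + 1 + i by ring]
    rw [Finset.sum_congr rfl (fun i _ => h3 i)]
    rw [List.getD_cons_zero, show a + 0 = a from rfl, cell_eq j N Sc a u hN hSc ha]
    have hY : 0 < dY j N Sc a := by
      unfold dY
      positivity
    have h4 := cdiv_ge (nX j N a u) (dY j N Sc a) hY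
    have hK : (0 : ℝ) ≤ 4 ^ j / ((j - 1).factorial : ℝ) ^ 2 := by positivity
    have h5 : (4 : ℝ) ^ j / ((j - 1).factorial : ℝ) ^ 2 *
        (((nX j N a u : ℝ) / dY j N Sc a) / 10 ^ 20) ≤
        4 ^ j / ((j - 1).factorial : ℝ) ^ 2 *
          ((Tb.cdiv (nX j N a u) (dY j N Sc a) : ℝ) / 10 ^ 20) :=
      mul_le_mul_of_nonneg_left (div_le_div_of_nonneg_right h4 (by positivity)) hK
    push_cast at h2
    calc _ ≤ 4 ^ j / ((j - 1).factorial : ℝ) ^ 2 *
          (((r : ℝ) - (s + (Tb.cdiv (nX j N a u) (dY j N Sc a) : ℝ))) / 10 ^ 20) +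
          4 ^ j / ((j - 1).factorial : ℝ) ^ 2 *
          ((Tb.cdiv (nX j N a u) (dY j N Sc a) : ℝ) / 10 ^ 20) := add_le_add h2 h5
      _ = _ := by ring

end IT2

theorem prfT2 : claimT2 := fun j N Sc hN hSc _ U a s r ha h =>
  IT2.main j N Sc hN hSc U a s r ha h

end Pool.Agent.Work.MP_122e00_nt.Four

end
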