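import Pool.Agent.Work.MP_122e00_nt.Four.Cert.Stmts
import Pool.Agent.Work.MP_122e00_nt.Bd.B54

/-! Bundle of small proof modules (one section per former module). -/

section

set_option autoImplicit false

/-!
# E1: the integral of the density of a leaf (four parts)
-/

namespace Pool.Agent.Work.MP_122e00_nt.Four.Cx

open Finset MeasureTheory

open scoped ENNReal

open Gen Sharp Sharp.Cx

namespace IE1

theorem lcms_cons (a : ℕ) (l : List ℕ) : lcms (a :: l) = Nat.lcm a (lcms l) := rfl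

theorem mpL_cons (f : List ℕ → ℕ) (a : List ℕ) (l : List (List ℕ)) :
    mpL f (a :: l) = f a :: mpL f l := rfl

theorem lcms_pos : ∀ (S : List (List ℕ)), (∀ p ∈ S, 0 < sm p) → 0 < lcms (mpL sm S)
  | [], _ => Nat.one_pos
  | a :: l, h => by
      rw [mpL_cons, lcms_cons]
      exact Nat.lcm_pos (h a List.mem_cons_self)
        (lcms_pos l fun p hp => h p (List.mem_cons_of_mem _ hp))

theorem dl_pos (S : List (List ℕ)) (h : ∀ p ∈ S, 0 < sm p) : 0 < dl S := lcms_pos S h

end IE1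

theorem prfE1 (h1 : claimE1a) (h2 : claimE1b) (h9 : Sharp.Cx.claimC9) : claimE1 := by
  intro k c bits S hC hS hdiv hok
  obtain ⟨C, hC1, hC2⟩ := h1 k c bits S hC hS hdiv hok
  have hdl : 0 < dl S := IE1.dl_pos S fun p hp => (hS.2 p hp).2
  have hdlr : (dl S : ℝ) ≠ 0 := by positivity
  obtain ⟨-, -, hlf, -, hint, -, -, -⟩ := h9
  rw [hC2]
  -- the integrand
  set L : Fin (k + 1) → (Fin (k + 3) → ℝ) → ℝ :=
    fun j => lf (k + 3) (fun v => (av k c S v j : ℝ)) with hL
  have hfac : ∀ α : Fin (k + 1) → ℕ, (∏ j, ((α j).factorial : ℝ)) ≠ 0 := fun α =>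
    Finset.prod_ne_zero_iff.mpr fun j _ => by positivity
  have hEq : ∀ y : Fin (k + 3) → ℝ, dpoly k c (Chamber.bar (pts (k + 3) S) y) =
      ∑ α ∈ Finset.Nat.antidiagonalTuple (k + 1) c.D,
        ((c.cn : ℝ) / (c.cd : ℝ) * ((gw c.fx c.fz (sm c.us) k α : ℝ) /
          ((dl S : ℝ) ^ c.D * ∏ j, ((α j).factorial : ℝ)))) *
          (∏ j, L j y ^ α j) := by
    intro y
    rw [h2 k c S y hC hS hdl hdiv, Finset.mul_sum]
    refine sum_congr rfl fun α hα => ?_
    have hsum : ∑ j, α j = c.D := Finset.Nat.mem_antidiagonalTuple.mp hα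
    have hp : ∏ j, (L j y / (dl S : ℝ)) ^ α j / ((α j).factorial : ℝ) =
        (∏ j, L j y ^ α j) / ((dl S : ℝ) ^ c.D * ∏ j, ((α j).factorial : ℝ)) := by
      rw [Finset.prod_div_distrib]
      simp only [div_pow]
      rw [Finset.prod_div_distrib, Finset.prod_pow_eq_pow_sum, hsum, div_div]
    change (c.cn : ℝ) / (c.cd : ℝ) * ((gw c.fx c.fz (sm c.us) k α : ℝ) *
      ∏ j, (L j y / (dl S : ℝ)) ^ α j / ((α j).factorial : ℝ)) = _
    rw [hp]
    ring
  have hI : ∀ α ∈ Finset.Nat.antidiagonalTuple (k + 1) c.D,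
      IntegrableOn (fun y => ((c.cn : ℝ) / (c.cd : ℝ) * ((gw c.fx c.fz (sm c.us) k α : ℝ) /
          ((dl S : ℝ) ^ c.D * ∏ j, ((α j).factorial : ℝ)))) *
          (∏ j, L j y ^ α j)) (Chamber.T (Fin (k + 3))) := by
    intro α _
    apply hint
    have hLc : ∀ j, Continuous (L j) := fun j => hlf (k + 3) _
    exact continuous_const.mul (continuous_finsetProd _ fun j _ => (hLc j).pow _)
  have hval : ∀ α ∈ Finset.Nat.antidiagonalTuple (k + 1) c.D,
      ∫ y in Chamber.T (Fin (k + 3)), (∏ j, L j y ^ α j) =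
        (C α : ℝ) * (∏ j, ((α j).factorial : ℝ)) / ((k + 3 + c.D).factorial : ℝ) := by
    intro α hα
    rw [hC1 α hα, mul_comm, mul_div_assoc, div_self, mul_one]
    positivity
  calc ∫ y in Chamber.T (Fin (k + 3)), dpoly k c (Chamber.bar (pts (k + 3) S) y)
      = ∫ y in Chamber.T (Fin (k + 3)), ∑ α ∈ Finset.Nat.antidiagonalTuple (k + 1) c.D,
        ((c.cn : ℝ) / (c.cd : ℝ) * ((gw c.fx c.fz (sm c.us) k α : ℝ) /
          ((dl S : ℝ) ^ c.D * ∏ j, ((α j).factorial : ℝ)))) *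
          (∏ j, L j y ^ α j) := by
        simp_rw [hEq]
    _ = ∑ α ∈ Finset.Nat.antidiagonalTuple (k + 1) c.D,
        ((c.cn : ℝ) / (c.cd : ℝ) * ((gw c.fx c.fz (sm c.us) k α : ℝ) /
          ((dl S : ℝ) ^ c.D * ∏ j, ((α j).factorial : ℝ)))) *
          ((C α : ℝ) * (∏ j, ((α j).factorial : ℝ)) / ((k + 3 + c.D).factorial : ℝ)) := by
        rw [integral_finsetSum _ hI]
        refine sum_congr rfl fun α hα => ?_
        rw [integral_const_mul, hval α hα]
    _ = _ := by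
        push_cast
        rw [Finset.sum_div, Finset.mul_sum]
        refine sum_congr rfl fun α _ => ?_
        have h3 := hfac α
        have h4 : ((k + 3 + c.D).factorial : ℝ) ≠ 0 := by positivity
        have h5 : (dl S : ℝ) ^ c.D ≠ 0 := pow_ne_zero _ hdlr
        set A : ℝ := (c.cn : ℝ) / (c.cd : ℝ)
        set P : ℝ := ∏ j, ((α j).factorial : ℝ)
        set Dd : ℝ := (dl S : ℝ) ^ c.D
        set F : ℝ := ((k + 3 + c.D).factorial : ℝ)
        field_simp

end Pool.Agent.Work.MP_122e00_nt.Four.Cx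

end

section

set_option autoImplicit false

/-!
# The certificate for four parts: the value of a leaf
-/

namespace Pool.Agent.Work.MP_122e00_nt.Four.Cx

open Finset MeasureTheory

open scoped ENNReal

open Gen Sharp Sharp.Cx

namespace IE3

theorem allL_cons (f : List ℕ → Bool) (p : List ℕ) (S : List (List ℕ)) :
    allL f (p :: S) = cond (f p) (allL f S) false := rfl

theorem allL_all (f : List ℕ → Bool) : ∀ S : List (List ℕ), allL f S = true →
    ∀ p ∈ S, f p = true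
  | [], _, p, hp => by simp at hp
  | q :: S, h, p, hp => by
    rw [allL_cons] at h
    cases hq : f q with
    | false => rw [hq] at h; exact absurd h (by simp)
    | true =>
      rw [hq] at h
      rcases List.mem_cons.1 hp with rfl | hp
      · exact hq
      · exact allL_all f S h p hp

theorem mpL_cons (f : List ℕ → ℕ) (p : List ℕ) (S : List (List ℕ)) :
    mpL f (p :: S) = f p :: mpL f S := rfl

theorem mem_mpL (f : List ℕ → ℕ) (a : ℕ) : ∀ S : List (List ℕ), a ∈ mpL f S → ∃ p ∈ S, f p = a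
  | [], h => by
    have h' : a ∈ ([] : List ℕ) := h
    simp at h'
  | p :: S, h => by
    rw [mpL_cons] at h
    rcases List.mem_cons.1 h with rfl | h
    · exact ⟨p, List.mem_cons_self, rfl⟩
    · obtain ⟨q, hq, e⟩ := mem_mpL f a S h
      exact ⟨q, List.mem_cons_of_mem _ hq, e⟩

theorem lcms_cons (a : ℕ) (l : List ℕ) :
    lcms (a :: l) = (a * lcms l) / Nat.gcd a (lcms l) := rfl

theorem lcms_pos : ∀ l : List ℕ, (∀ a ∈ l, 0 < a) → 0 < lcms l
  | [], _ => Nat.one_pos
  | a :: l, h => by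
    rw [lcms_cons]
    have h1 := lcms_pos l fun b hb => h b (List.mem_cons_of_mem _ hb)
    have h2 := h a List.mem_cons_self
    exact Nat.lcm_pos h2 h1

theorem cond_none {A : Type} {b : Bool} {x : Option A} {r : A} (h : cond b x none = some r) :
    b = true ∧ x = some r := by
  cases b with
  | false => exact absurd h (by simp)
  | true => exact ⟨rfl, h⟩

theorem leafv_eq (c : Cl) (bits : ℕ) (S : List (List ℕ)) (G : ℕ) :
    leafv c bits S G =
      cond (allL (fun p => cond (Nat.beq (sm p) 0) false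
          (Nat.beq (Nat.mul (Nat.div (dl S) (sm p)) (sm p)) (dl S))) S)
        (cond (okb c bits (dl S))
          (some (fin c (dl S) G (slot (gt c bits) c.mx bits (rw4 c bits S))))
          none) none := rfl

/-- The program for a leaf. -/
theorem leaf_spec {k : ℕ} {c : Cl} {bits : ℕ} {S : List (List ℕ)} {G r : ℕ} (hS : Sv k S)
    (h : leafv c bits S G = some r) :
    0 < dl S ∧ (∀ p ∈ S, dl S / sm p * sm p = dl S) ∧ okb c bits (dl S) = true ∧
      r = fin c (dl S) G (slot (gt c bits) c.mx bits (rw4 c bits S)) := by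
  rw [leafv_eq] at h
  obtain ⟨h1, h⟩ := cond_none h
  obtain ⟨h2, h⟩ := cond_none h
  refine ⟨?_, ?_, h2, (Option.some.inj h).symm⟩
  · refine lcms_pos _ ?_
    intro a ha
    obtain ⟨p, hp, rfl⟩ := mem_mpL sm a S ha
    exact (hS.2 p hp).2
  · intro p hp
    have h5 := allL_all _ S h1 p hp
    cases h6 : Nat.beq (sm p) 0 with
    | true =>
      rw [h6] at h5
      exact absurd h5 (by simp)
    | false =>
      rw [h6] at h5
      exact Nat.eq_of_beq_eq_true h5

/-! ### arithmetic -/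

theorem fac_eq (n : ℕ) : fac n = n.factorial := by
  induction n with
  | zero => rfl
  | succ n ih =>
    have h : fac (n + 1) = (n + 1) * fac n := rfl
    rw [h, ih, Nat.factorial_succ]

theorem cdiv_eq (x y : ℕ) : cdiv x y = (x + (y - 1)) / y := rfl

theorem le_cdiv (x y : ℕ) (hy : 0 < y) : (x : ℝ) / (y : ℝ) ≤ (cdiv x y : ℝ) := by
  have h1 : x ≤ y * cdiv x y := by
    rw [cdiv_eq]
    have h2 := Nat.div_add_mod (x + (y - 1)) y
    have h3 := Nat.mod_lt (x + (y - 1)) hy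
    omega
  have hy' : (0 : ℝ) < (y : ℝ) := by exact_mod_cast hy
  rw [div_le_iff₀ hy']
  have h2 : (x : ℝ) ≤ (y : ℝ) * (cdiv x y : ℝ) := by exact_mod_cast h1
  linarith

theorem ad_sq (a b : ℕ) : (ad a b : ℝ) * (ad a b : ℝ) = ((a : ℝ) - (b : ℝ)) ^ 2 := by
  have e : ad a b = (a - b) + (b - a) := rfl
  rw [e]
  rcases le_total a b with h | h
  · rw [Nat.sub_eq_zero_of_le h, zero_add, Nat.cast_sub h]
    ring
  · rw [Nat.sub_eq_zero_of_le h, add_zero, Nat.cast_sub h]
    ring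

theorem fin_zero (cl : Cl) (Dl Y : ℕ) :
    fin cl Dl 0 Y = cdiv (Sc * cl.cn * (254 * 4 ^ cl.k * Y))
      (cl.cd * (Dl ^ cl.D * fac (cl.k + 3 + cl.D))) := rfl

theorem fin_succ (cl : Cl) (Dl G Y : ℕ) :
    fin cl Dl (G + 1) Y =
      cdiv (Sc * cl.cn * (ad (4 ^ cl.k) (2 * (G + 1)) * ad (4 ^ cl.k) (2 * (G + 1)) * Y))
      (2 * (G + 1) * (cl.cd * (Dl ^ cl.D * fac (cl.k + 3 + cl.D)))) := rfl

/-- The arithmetic of a leaf. -/
theorem arith (cl : Cl) (Dl G Y : ℕ) (hcd : 0 < cl.cd) (hDl : 0 < Dl) :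
    pg 128 (4 ^ cl.k) (2 * (G : ℝ)) * ((cl.cn : ℝ) / (cl.cd : ℝ) *
      (1 / ((cl.k + 3 + cl.D).factorial : ℝ)) * ((Y : ℝ) / (Dl : ℝ) ^ cl.D)) ≤
      (fin cl Dl G Y : ℝ) / (Sc : ℝ) := by
  have hS : (0 : ℝ) < (Sc : ℝ) := by
    have : (0 : ℕ) < Sc := by unfold Sc; norm_num
    exact_mod_cast this
  have hcd' : (0 : ℝ) < (cl.cd : ℝ) := by exact_mod_cast hcd
  have hDl' : (0 : ℝ) < (Dl : ℝ) := by exact_mod_cast hDl
  have hDD : (0 : ℝ) < (Dl : ℝ) ^ cl.D := by positivity
  have hF0 : 0 < (cl.k + 3 + cl.D).factorial := Nat.factorial_pos _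
  have hF : (0 : ℝ) < ((cl.k + 3 + cl.D).factorial : ℝ) := by exact_mod_cast hF0
  rw [le_div_iff₀ hS]
  rcases G with _ | G
  · rw [fin_zero]
    have hd : 0 < cl.cd * (Dl ^ cl.D * fac (cl.k + 3 + cl.D)) := by
      rw [fac_eq]
      positivity
    refine le_trans (le_of_eq ?_) (le_cdiv _ _ hd)
    have hp : pg 128 (4 ^ cl.k) (2 * ((0 : ℕ) : ℝ)) = 254 * 4 ^ cl.k := by
      unfold pg
      rw [if_neg (by simp)]
      ring
    rw [hp, fac_eq]
    push_cast
    field_simp
  · rw [fin_succ]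
    have hd : 0 < 2 * (G + 1) * (cl.cd * (Dl ^ cl.D * fac (cl.k + 3 + cl.D))) := by
      rw [fac_eq]
      positivity
    refine le_trans (le_of_eq ?_) (le_cdiv _ _ hd)
    have hG : (0 : ℝ) < (G : ℝ) + 1 := by positivity
    have hp : pg 128 (4 ^ cl.k) (2 * ((G + 1 : ℕ) : ℝ)) =
        (4 ^ cl.k - 2 * ((G : ℝ) + 1)) ^ 2 / (2 * ((G : ℝ) + 1)) := by
      unfold pg
      rw [if_pos (by positivity)]
      push_cast
      rfl
    have ha := ad_sq (4 ^ cl.k) (2 * (G + 1))
    push_cast at ha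
    rw [hp, fac_eq]
    push_cast
    rw [ha]
    field_simp

theorem pg_nonneg (k G : ℕ) : 0 ≤ pg 128 (4 ^ k) (2 * (G : ℝ)) := by
  unfold pg
  split_ifs with h
  · positivity
  · have : (0 : ℝ) ≤ 4 ^ k := by positivity
    linarith

end IE3

open IE3 in
theorem prfE3 (h1 : claimE1) (h9 : claimC9) (h9' : Sharp.Cx.claimC9) : claimE3 := by
  intro k c bits S G r hc hS hr
  obtain ⟨hdl, hdiv, hok, hrr⟩ := leaf_spec hS hr
  obtain ⟨hcd, hpos, hbar⟩ := h9
  obtain ⟨-, hbc, -, -, hint, -, -, -⟩ := h9'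
  set P : ℝ := pg 128 (4 ^ k) (2 * (G : ℝ)) with hP
  have hP0 : 0 ≤ P := pg_nonneg k G
  have hcont : Continuous (fun y : Fin (k + 3) → ℝ =>
      dpoly k c (Chamber.bar (pts (k + 3) S) y) * P) :=
    ((hcd k c).comp (hbc (k + 3) S)).mul continuous_const
  have hI : IntegrableOn (fun y : Fin (k + 3) → ℝ =>
      dpoly k c (Chamber.bar (pts (k + 3) S) y) * P) (Chamber.T (Fin (k + 3))) :=
    hint (k + 3) _ hcont
  have hnn : 0 ≤ᵐ[volume.restrict (Chamber.T (Fin (k + 3)))] (fun y : Fin (k + 3) → ℝ =>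
      dpoly k c (Chamber.bar (pts (k + 3) S) y) * P) := by
    rw [Filter.EventuallyLE, ae_restrict_iff' (Chamber.measurableSet_T _)]
    filter_upwards with y hy
    exact mul_nonneg (hpos k c _ (hbar k S y hS hy).1) hP0
  have hEV : Chamber.EV (pts (k + 3) S) (fun p => ENNReal.ofReal (dpoly k c p * P)) =
      ENNReal.ofReal (∫ y in Chamber.T (Fin (k + 3)),
        dpoly k c (Chamber.bar (pts (k + 3) S) y) * P) := by
    rw [ofReal_integral_eq_lintegral_ofReal hI hnn]
    rfl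
  rw [hEV]
  apply ENNReal.ofReal_le_ofReal
  rw [integral_mul_const, h1 k c bits S hc hS hdiv hok, mul_comm, hP, hrr]
  have h := arith c (dl S) G (slot (gt c bits) c.mx bits (rw4 c bits S)) hc.cd_pos hdl
  rw [hc.k_eq] at h
  exact h

end Pool.Agent.Work.MP_122e00_nt.Four.Cx

end
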