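import Pool.Agent.Work.MP_122e00_nt.Sharp.Stmts
import Pool.Agent.Work.MP_122e00_nt.Bd.B40
import Pool.Agent.Work.MP_122e00_nt.Two.ItemT8
import Pool.Agent.Work.MP_122e00_nt.Bd.B54
import Pool.Agent.Work.MP_122e00_nt.Bd.B03

/-! Bundle of small proof modules (one section per former module). -/

section

/-! Bundle of small proof modules (one section per former module). -/

section

set_option autoImplicit false

/-!
# I0: the limit functionals for `θ → 0`
-/

namespace Pool.Agent.Work.MP_122e00_nt.Sharp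

open Finset Filter Topology MeasureTheory

open scoped ENNReal ArithmeticFunction.vonMangoldt ArithmeticFunction.zeta

open Two Gen

namespace II0

/-- the weight is eventually constant in `θ`, off the hyperplane -/
theorem psw_ev (a b : ℝ) (s : ℕ) (z : Fin s → ℝ) (hz : ∑ i, z i ≠ 1 / 2) :
    ∀ᶠ θ in 𝓝[>] (0:ℝ), psw a b s θ z = psw a b s 0 z := by
  rcases lt_or_gt_of_ne hz with h | h
  · have h3 : ∀ᶠ θ in 𝓝[>] (0:ℝ), θ < 1 / 2 - ∑ i, z i :=
      (eventually_lt_nhds (by linarith)).filter_mono nhdsWithin_le_nhds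
    filter_upwards [h3] with θ hθ
    unfold psw
    by_cases hn : ∀ i, 0 ≤ z i
    · rw [Set.indicator_of_mem (show z ∈ {y : Fin s → ℝ | (∀ i, 0 ≤ y i) ∧
          ∑ i, y i ≤ 1 / 2 - θ} from ⟨hn, by linarith⟩),
        Set.indicator_of_mem (show z ∈ {y : Fin s → ℝ | (∀ i, 0 ≤ y i) ∧
          ∑ i, y i ≤ 1 / 2 - 0} from ⟨hn, by linarith⟩)]
    · rw [Set.indicator_of_notMem (fun h' => hn h'.1), Set.indicator_of_notMem (fun h' => hn h'.1)]
  · filter_upwards [self_mem_nhdsWithin] with θ hθ
    have hθ0 : (0:ℝ) < θ := hθ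
    unfold psw
    rw [Set.indicator_of_notMem, Set.indicator_of_notMem]
    · intro h'
      have := h'.2
      linarith
    · intro h'
      have := h'.2
      linarith

theorem gs_ev (a b : ℝ) (s : ℕ) (w : Fin (s + 1) → ℝ) (hs : ∑ q, w q = 1)
    (hw : ∀ q, w q ≠ 1 / 2) :
    ∀ᶠ θ in 𝓝[>] (0:ℝ), gs (psw a b s θ) w = gs (psw a b s 0) w := by
  have h : ∀ᶠ θ in 𝓝[>] (0:ℝ), ∀ i : Fin (s + 1),
      psw a b s θ (fun j => w (i.succAbove j)) = psw a b s 0 (fun j => w (i.succAbove j)) := by
    rw [eventually_all]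
    intro i
    refine psw_ev a b s _ ?_
    intro h
    rw [Fin.sum_univ_succAbove w i, h] at hs
    exact hw i (by linarith)
  filter_upwards [h] with θ hθ
  unfold gs
  exact Finset.sum_congr rfl fun i _ => hθ i

theorem sum_plc {s k : ℕ} (x : Fin k → ℝ) (v : Fin (s + 1) → ℝ) (c : Fin k → Fin (s + 1)) :
    ∑ q, plc x v c q = ∑ j, x j + ∑ q, v q := by
  unfold plc
  rw [Finset.sum_add_distrib, Finset.sum_comm]
  simp
  ring

/-- `FS` depends only on the values of `g` at the placements -/
theorem FS_congr {s : ℕ} (m T : ℕ) (R : ℝ) (g g' : (Fin (s + 1) → ℝ) → ℝ) (k : ℕ)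
    (x : Fin k → ℝ) (v : Fin (s + 1) → ℝ) (h : ∀ c, g (plc x v c) = g' (plc x v c)) :
    FS m T R g k x v = FS m T R g' k x v := by
  unfold FS HC Gr
  simp only [h]

theorem FS_ev (a b : ℝ) {s : ℕ} (m T : ℕ) (R : ℝ) (k : ℕ) (x : Fin k → ℝ)
    (v : Fin (s + 1) → ℝ) (hs : ∑ j, x j + ∑ q, v q = 1) (hw : ∀ c q, plc x v c q ≠ 1 / 2) :
    ∀ᶠ θ in 𝓝[>] (0:ℝ), FS m T R (gs (psw a b s θ)) k x v =
      FS m T R (gs (psw a b s 0)) k x v := by
  have h : ∀ᶠ θ in 𝓝[>] (0:ℝ), ∀ c : Fin k → Fin (s + 1),
      gs (psw a b s θ) (plc x v c) = gs (psw a b s 0) (plc x v c) := by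
    rw [eventually_all]
    intro c
    exact gs_ev a b s _ (by rw [sum_plc]; exact hs) (hw c)
  filter_upwards [h] with θ hθ
  exact FS_congr m T R _ _ k x v hθ

/-- the parts of a point of the simplex -/
theorem sum_vs {k s : ℕ} (y : Fin k ⊕ Fin s → ℝ) : ∑ j, xs y j + ∑ q, vs y q = 1 := by
  unfold xs vs
  rw [Fin.sum_univ_castSucc]
  simp only [Fin.snoc_castSucc, Fin.snoc_last, Fintype.sum_sum_type]
  ring

/-- the hyperplanes -/
theorem ae_plc {k s : ℕ} (hs : 1 ≤ s) :
    ∀ᵐ y : Fin k ⊕ Fin s → ℝ, ∀ c q, plc (xs y) (vs y) c q ≠ 1 / 2 := by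
  rw [ae_all_iff]
  intro c
  rw [ae_all_iff]
  intro q
  refine Fin.lastCases ?_ (fun i => ?_) q
  · have h := Two.prfL6 (Fin k ⊕ Fin s)
      (Sum.elim (fun j => if c j = Fin.last s then (0:ℝ) else 1) (fun _ => 1)) (1 / 2) (by
        intro h0
        have := congrFun h0 (Sum.inr ⟨0, hs⟩)
        simp at this)
    rw [ae_iff]
    refine measure_mono_null ?_ h
    intro y hy
    simp only [Set.mem_ofPred_eq, not_not, ne_eq] at hy ⊢
    unfold plc vs xs at hy
    simp only [Fin.snoc_last, Fintype.sum_sum_type] at hy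
    simp only [Fintype.sum_sum_type, Sum.elim_inl, Sum.elim_inr, one_mul, ite_mul, zero_mul]
    have e : ∑ j : Fin k, (if c j = Fin.last s then (0:ℝ) else y (Sum.inl j)) =
        ∑ j : Fin k, y (Sum.inl j) - ∑ j : Fin k, (if c j = Fin.last s then y (Sum.inl j) else 0) := by
      rw [← Finset.sum_sub_distrib]
      refine Finset.sum_congr rfl fun j _ => ?_
      split_ifs <;> ring
    rw [e]
    linarith
  · have h := Two.prfL6 (Fin k ⊕ Fin s)
      (Sum.elim (fun j => if c j = Fin.castSucc i then (1:ℝ) else 0)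
        (fun i' => if i' = i then 1 else 0)) (1 / 2) (by
        intro h0
        have := congrFun h0 (Sum.inr i)
        simp at this)
    rw [ae_iff]
    refine measure_mono_null ?_ h
    intro y hy
    simp only [Set.mem_ofPred_eq, not_not, ne_eq] at hy ⊢
    unfold plc vs xs at hy
    simp only [Fin.snoc_castSucc] at hy
    simp only [Fintype.sum_sum_type, Sum.elim_inl, Sum.elim_inr, one_mul, ite_mul, zero_mul,
      Finset.sum_ite_eq', Finset.mem_univ, if_true]
    linarith

theorem measurable_xs {k s : ℕ} : Measurable (xs : (Fin k ⊕ Fin s → ℝ) → Fin k → ℝ) := by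
  unfold xs
  fun_prop

theorem measurable_vs {k s : ℕ} : Measurable (vs : (Fin k ⊕ Fin s → ℝ) → Fin (s + 1) → ℝ) := by
  rw [measurable_pi_iff]
  intro q
  unfold vs
  refine Fin.lastCases ?_ (fun i => ?_) q
  · simp only [Fin.snoc_last]
    fun_prop
  · simp only [Fin.snoc_castSucc]
    fun_prop

theorem measurable_psw (a b : ℝ) (s : ℕ) (θ : ℝ) : Measurable (psw a b s θ) := by
  unfold psw
  refine Measurable.indicator (by fun_prop) ?_
  have h1 : MeasurableSet {y : Fin s → ℝ | ∀ i, 0 ≤ y i} := by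
    rw [Set.ofPred_forall]
    exact MeasurableSet.iInter fun i => measurableSet_le measurable_const (measurable_pi_apply i)
  have h2 : MeasurableSet {y : Fin s → ℝ | ∑ i, y i ≤ 1 / 2 - θ} :=
    measurableSet_le (by fun_prop) measurable_const
  exact h1.inter h2

theorem measurable_gs (a b : ℝ) (s : ℕ) (θ : ℝ) : Measurable (gs (psw a b s θ)) := by
  unfold gs
  refine Finset.measurable_sum _ fun i _ => ?_
  exact (measurable_psw a b s θ).comp (by fun_prop)

theorem measurable_rest {k s : ℕ} :
    Measurable (fun p : (Fin k → ℝ) × (Fin (s + 1) → ℝ) => rest p.1 p.2) := by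
  unfold rest
  fun_prop

theorem measurableSet_Rg {k s : ℕ} :
    MeasurableSet {p : (Fin k → ℝ) × (Fin (s + 1) → ℝ) | Rg p.1 p.2} := by
  unfold Rg
  have h1 : MeasurableSet {p : (Fin k → ℝ) × (Fin (s + 1) → ℝ) | ∀ j, 0 ≤ p.1 j} := by
    rw [Set.ofPred_forall]
    exact MeasurableSet.iInter fun i => measurableSet_le measurable_const (by fun_prop)
  have h2 : MeasurableSet {p : (Fin k → ℝ) × (Fin (s + 1) → ℝ) | ∀ j, 0 ≤ p.2 j} := by
    rw [Set.ofPred_forall]
    exact MeasurableSet.iInter fun i => measurableSet_le measurable_const (by fun_prop)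
  have h3 : MeasurableSet {p : (Fin k → ℝ) × (Fin (s + 1) → ℝ) |
      ∑ j, p.1 j + ∑ i, p.2 i ≤ 2} :=
    measurableSet_le (by fun_prop) measurable_const
  exact h1.inter (h2.inter h3)

theorem measurable_FS (hQ3 : claimQ3) (hI6 : claimI6) (s m T : ℕ) (R : ℝ)
    (g : (Fin (s + 1) → ℝ) → ℝ) (hg : Measurable g) (k : ℕ) :
    Measurable (fun p : (Fin k → ℝ) × (Fin (s + 1) → ℝ) => FS m T R g k p.1 p.2) := by
  unfold FS
  refine Measurable.ite measurableSet_Rg ?_ measurable_const
  refine Measurable.mul (Measurable.mul ?_ measurable_rest) (hI6 s k T R g hg).1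
  exact (hQ3.2.1 k m).1.measurable.comp measurable_fst

theorem ext_eq {k s : ℕ} (F : (Fin k → ℝ) → (Fin (s + 1) → ℝ) → ℝ) (y : Fin k ⊕ Fin s → ℝ) :
    ext F (y, 1 - ∑ i, y i) = F (xs y) (vs y) := rfl

theorem den_nonneg {k s : ℕ} (y : Fin k ⊕ Fin s → ℝ) (hy : y ∈ Sim k s) : 0 ≤ den y := by
  unfold den
  refine Finset.prod_nonneg fun j _ => inv_nonneg.2 ?_
  have h1 : ∑ i ∈ Finset.univ.filter (fun i : Fin k => i < j), y (Sum.inl i) ≤
      ∑ i : Fin k, y (Sum.inl i) :=
    Finset.sum_le_sum_of_subset_of_nonneg (Finset.filter_subset _ _)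
      fun i _ _ => (hy.1 (Sum.inl i)).le
  have h2 : ∑ i, y i = ∑ i : Fin k, y (Sum.inl i) + ∑ i : Fin s, y (Sum.inr i) :=
    Fintype.sum_sum_type _
  have h3 : 0 ≤ ∑ i : Fin s, y (Sum.inr i) := Finset.sum_nonneg fun i _ => (hy.1 (Sum.inr i)).le
  have h4 := hy.2
  linarith

theorem measurableSet_Sim (k s : ℕ) : MeasurableSet (Sim k s) := by
  unfold Sim
  have h1 : MeasurableSet {y : Fin k ⊕ Fin s → ℝ | ∀ i, 0 < y i} := by
    rw [Set.ofPred_forall]
    exact MeasurableSet.iInter fun i => measurableSet_lt measurable_const (measurable_pi_apply i)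
  have h2 : MeasurableSet {y : Fin k ⊕ Fin s → ℝ | ∑ i, y i < 1} :=
    measurableSet_lt (by fun_prop) measurable_const
  exact h1.inter h2

end II0

open II0 in
theorem prfI0 : claimF1 → claimQ3 → claimI6 → claimI0 := by
  intro hF1 hQ3 hI6 s m T k R a b hs ha hb hR
  obtain ⟨B, hB⟩ := hF1 s m T R a b ha hb hR
  have hT8 := (Two.prfT8 k s).1
  unfold IK
  refine tendsto_integral_filter_of_dominated_convergence (fun y => B * den y) ?_ ?_ ?_ ?_
  · refine Eventually.of_forall fun θ => ?_
    refine AEStronglyMeasurable.mul ?_ hT8.aestronglyMeasurable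
    have h := (measurable_FS hQ3 hI6 s m T R _ (measurable_gs a b s θ) k).comp
      ((measurable_xs (k := k) (s := s)).prodMk measurable_vs)
    exact h.aestronglyMeasurable
  · filter_upwards [self_mem_nhdsWithin] with θ hθ
    have hθ0 : (0:ℝ) < θ := hθ
    filter_upwards [ae_restrict_mem (measurableSet_Sim k s)] with y hy
    have h1 := hB θ hθ0.le k (xs y) (vs y)
    have h2 := den_nonneg y hy
    rw [ext_eq, Real.norm_eq_abs, abs_of_nonneg (mul_nonneg h1.1 h2)]
    exact mul_le_mul_of_nonneg_right h1.2 h2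
  · exact hT8.const_mul B
  · filter_upwards [ae_restrict_of_ae (ae_plc (k := k) hs)] with y hy
    simp only [ext_eq]
    refine tendsto_const_nhds.congr' ?_
    filter_upwards [FS_ev a b m T R k (xs y) (vs y) (sum_vs y) hy] with θ hθ
    rw [hθ]

end Pool.Agent.Work.MP_122e00_nt.Sharp

end

section

set_option autoImplicit false

/-!
# Sharp scheme, item I1 (helper43): Lebesgue integrals
-/

namespace Pool.Agent.Work.MP_122e00_nt.Sharp

open Finset Filter Topology MeasureTheory

open scoped ENNReal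

open Two Gen

namespace II1

theorem ofReal_integral_le {X : Type} [MeasurableSpace X] (μ : Measure X) (f : X → ℝ) :
    ENNReal.ofReal (∫ x, f x ∂μ) ≤ ∫⁻ x, ENNReal.ofReal (f x) ∂μ := by
  by_cases hf : Integrable f μ
  · have h1 : Integrable (fun x => max (f x) 0) μ := hf.pos_part
    have h2 : ∫ x, f x ∂μ ≤ ∫ x, max (f x) 0 ∂μ :=
      integral_mono hf h1 fun x => le_max_left _ _
    calc ENNReal.ofReal (∫ x, f x ∂μ) ≤ ENNReal.ofReal (∫ x, max (f x) 0 ∂μ) :=
          ENNReal.ofReal_le_ofReal h2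
      _ = ∫⁻ x, ENNReal.ofReal (max (f x) 0) ∂μ :=
          ofReal_integral_eq_lintegral_ofReal h1
            (Eventually.of_forall fun x => le_max_right _ _)
      _ = ∫⁻ x, ENNReal.ofReal (f x) ∂μ := by
          congr 1
          funext x
          rw [ENNReal.ofReal_max]
          simp
  · rw [integral_undef hf]
    simp

theorem sim_meas (k s : ℕ) : MeasurableSet (Sim k s) := by
  have : Sim k s = (⋂ i, {y : Fin k ⊕ Fin s → ℝ | 0 < y i}) ∩ {y | ∑ i, y i < 1} := by
    ext y
    simp [Sim]
  rw [this]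
  refine MeasurableSet.inter (MeasurableSet.iInter fun i => ?_) ?_
  · exact measurableSet_lt measurable_const (measurable_pi_apply i)
  · exact measurableSet_lt (Finset.measurable_sum _ fun i _ => measurable_pi_apply i)
      measurable_const

theorem key {k s : ℕ} {y : Fin k ⊕ Fin s → ℝ} (hy : y ∈ Sim k s) :
    Rg (xs y) (vs y) ∧ rest (xs y) (vs y) * den y = 1 := by
  have hsum : ∑ i, y i = ∑ i, y (Sum.inl i) + ∑ i, y (Sum.inr i) := Fintype.sum_sum_type y
  have hvs : ∑ i, vs y i = ∑ i, y (Sum.inr i) + (1 - ∑ i, y i) := by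
    unfold vs
    rw [Fin.sum_univ_castSucc]
    simp only [Fin.snoc_castSucc, Fin.snoc_last]
  have htot : ∑ i, xs y i + ∑ i, vs y i = 1 := by
    rw [hvs, hsum]
    unfold xs
    ring
  have h0 : ∀ i, 0 < y i := hy.1
  have h1 : ∑ i, y i < 1 := hy.2
  have hr : 0 ≤ ∑ i, y (Sum.inr i : Fin k ⊕ Fin s) := Finset.sum_nonneg fun i _ => (h0 _).le
  refine ⟨⟨fun j => (h0 _).le, ?_, ?_⟩, ?_⟩
  · intro i
    unfold vs
    refine Fin.lastCases ?_ (fun i => ?_) i
    · rw [Fin.snoc_last]
      linarith
    · rw [Fin.snoc_castSucc]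
      exact (h0 _).le
  · linarith
  · unfold rest den
    rw [← Finset.prod_mul_distrib]
    refine Finset.prod_eq_one fun j _ => ?_
    rw [htot]
    have hle : ∑ i ∈ Finset.univ.filter (fun i : Fin k => i < j), xs y i ≤ ∑ i, xs y i :=
      Finset.sum_le_sum_of_subset_of_nonneg (Finset.filter_subset _ _)
        fun i _ _ => (h0 _).le
    have hlt : ∑ i, xs y i < 1 := by
      have : ∑ i, xs y i = ∑ i, y (Sum.inl i) := rfl
      linarith
    have hne : (1 - ∑ i ∈ Finset.univ.filter (fun i : Fin k => i < j), y (Sum.inl i)) ≠ 0 := by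
      have : ∑ i ∈ Finset.univ.filter (fun i : Fin k => i < j), y (Sum.inl i) =
        ∑ i ∈ Finset.univ.filter (fun i : Fin k => i < j), xs y i := rfl
      rw [this]
      linarith
    exact mul_inv_cancel₀ hne

end II1

theorem prfI1 (_ : claimQ3) : claimI1 := by
  classical
  intro s m T k R a b _ _ _ _
  unfold IK IL
  refine (II1.ofReal_integral_le _ _).trans (le_of_eq ?_)
  refine setLIntegral_congr_fun (II1.sim_meas k s) fun y hy => ?_
  obtain ⟨hR, hd⟩ := II1.key hy
  have : ext (FS m T R (gs (psw a b s 0)) k) (y, 1 - ∑ i, y i) * den y =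
      Qo k m (xs y) * HC T R (gs (psw a b s 0)) (xs y) (vs y) := by
    change FS m T R (gs (psw a b s 0)) k (xs y) (vs y) * den y = _
    unfold FS
    rw [if_pos hR]
    calc _ = Qo k m (xs y) * HC T R (gs (psw a b s 0)) (xs y) (vs y) *
          (rest (xs y) (vs y) * den y) := by ring
      _ = _ := by rw [hd, mul_one]
  rw [this]

end Pool.Agent.Work.MP_122e00_nt.Sharp

end

section

set_option autoImplicit false

namespace Pool.Agent.Work.MP_122e00_nt.Sharp

open Finset Filter Topology MeasureTheory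

open scoped ENNReal

open Two Gen

namespace II10

theorem be_zero (b : ℕ) : be b 0 = 1 := by
  rw [be]

theorem be_succ (b t : ℕ) : be b (t + 1) = b * ∑ i ∈ Finset.range (t + 1),
    (t.choose i : ℝ) * be b (t - i) / ((i : ℝ) + 1) := by
  rw [be, Finset.sum_attach (Finset.range (t + 1))
    (fun i => (t.choose i : ℝ) * be b (t - i) / ((i : ℝ) + 1))]

theorem be_nonneg (b t : ℕ) : 0 ≤ be b t := by
  induction t using Nat.strong_induction_on with
  | _ t ih =>
    cases t with
    | zero => rw [be_zero]; norm_num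
    | succ t =>
      rw [be_succ]
      refine mul_nonneg (Nat.cast_nonneg _) (Finset.sum_nonneg fun i hi => ?_)
      have := ih (t - i) (by omega)
      positivity

theorem Bt_nonneg (b t : ℕ) (S z : ℝ) (hS : 0 ≤ S) (hz : 0 ≤ z) : 0 ≤ Bt b t S z := by
  unfold Bt
  refine Finset.sum_nonneg fun j _ => ?_
  have := be_nonneg b j
  positivity

theorem choose_id (t b j : ℕ) (h : b + j ≤ t) :
    t.choose b * (t - b).choose j = t.choose j * (t - j).choose b := by
  have h1 := Nat.choose_mul (n := t) (k := t - b) (s := j) (by omega)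
  rw [Nat.choose_symm (by omega : b ≤ t)] at h1
  have h2 : (t - j).choose (t - b - j) = (t - j).choose b := by
    rw [← Nat.choose_symm (by omega : b ≤ t - j)]
    congr 1; omega
  rw [h1, h2]

/-- reindexing of a triangular double sum -/
theorem tri (t : ℕ) (f : ℕ → ℕ → ℝ) :
    ∑ b ∈ Finset.range (t + 1), ∑ j ∈ Finset.range (t - b + 1), f b j =
      ∑ j ∈ Finset.range (t + 1), ∑ b ∈ Finset.range (t - j + 1), f b j := by
  apply Finset.sum_comm'
  intro x y
  simp only [Finset.mem_range]
  omega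

theorem identA (B t : ℕ) (S y z : ℝ) :
    ∑ b ∈ Finset.range (t + 1), (t.choose b : ℝ) * (y ^ b * Bt B (t - b) (S - y) z) =
      Bt B t S z := by
  have h1 : ∀ b ∈ Finset.range (t + 1), (t.choose b : ℝ) * (y ^ b * Bt B (t - b) (S - y) z) =
      ∑ j ∈ Finset.range (t - b + 1), (t.choose j : ℝ) * (be B j * z ^ j) *
        (((t - j).choose b : ℝ) * y ^ b * (S - y) ^ (t - j - b)) := by
    intro b hb
    unfold Bt
    rw [Finset.mul_sum, Finset.mul_sum]
    refine Finset.sum_congr rfl fun j hj => ?_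
    rw [Finset.mem_range] at hb hj
    have h2 : (t.choose b : ℝ) * ((t - b).choose j : ℝ) =
        (t.choose j : ℝ) * ((t - j).choose b : ℝ) := by
      exact_mod_cast choose_id t b j (by omega)
    have h3 : t - b - j = t - j - b := by omega
    rw [h3]
    linear_combination (y ^ b * (S - y) ^ (t - j - b) * (be B j * z ^ j)) * h2
  rw [Finset.sum_congr rfl h1, tri]
  unfold Bt
  refine Finset.sum_congr rfl fun j hj => ?_
  rw [← Finset.mul_sum]
  have h4 : S ^ (t - j) = ∑ b ∈ Finset.range (t - j + 1),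
      ((t - j).choose b : ℝ) * y ^ b * (S - y) ^ (t - j - b) := by
    have := add_pow y (S - y) (t - j)
    rw [show y + (S - y) = S by ring] at this
    rw [this]
    refine Finset.sum_congr rfl fun b _ => by ring
  rw [← h4]
  ring

theorem identB (B t : ℕ) (S z : ℝ) :
    (B : ℝ) * ∑ b ∈ Finset.range (t + 1), (t.choose b : ℝ) *
      (z ^ (b + 1) / ((b : ℝ) + 1) * Bt B (t - b) S z) =
      ∑ i ∈ Finset.range (t + 1), (t.choose i : ℝ) * S ^ (t - i) *
        (be B (i + 1) * z ^ (i + 1)) := by
  -- write both sides as double sums over (b, j) with i = b + j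
  have h1 : ∀ b ∈ Finset.range (t + 1), (t.choose b : ℝ) *
      (z ^ (b + 1) / ((b : ℝ) + 1) * Bt B (t - b) S z) =
      ∑ k ∈ Finset.range (t - b + 1), ((t.choose (t - k) : ℝ) * S ^ k * z ^ (t - k + 1)) *
        (((t - k).choose b : ℝ) * be B (t - k - b) / ((b : ℝ) + 1)) := by
    intro b hb
    rw [Finset.mem_range] at hb
    unfold Bt
    rw [Finset.mul_sum, Finset.mul_sum, ← Finset.sum_range_reflect]
    refine Finset.sum_congr rfl fun k hk => ?_
    rw [Finset.mem_range] at hk
    have e1 : t - b + 1 - 1 - k = t - b - k := by omega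
    rw [e1]
    have e2 : t - b - (t - b - k) = k := by omega
    have e3 : t - k - b = t - b - k := by omega
    rw [e2, e3]
    have h2 : (t.choose b : ℝ) * ((t - b).choose (t - b - k) : ℝ) =
        (t.choose (t - k) : ℝ) * ((t - k).choose b : ℝ) := by
      have h5 := choose_id t b k (by omega)
      rw [Nat.choose_symm (by omega : k ≤ t - b), Nat.choose_symm (by omega : k ≤ t)]
      exact_mod_cast h5
    have h6 : z ^ (t - k + 1) = z ^ (b + 1) * z ^ (t - b - k) := by
      rw [← pow_add]; congr 1; omega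
    rw [h6]
    have hb1 : ((b : ℝ) + 1) ≠ 0 := by positivity
    field_simp
    linear_combination (S ^ k * be B (t - b - k) * z ^ (b + 1) * z ^ (t - b - k)) * h2
  rw [Finset.sum_congr rfl h1, tri, ← Finset.sum_range_reflect, Finset.mul_sum]
  refine Finset.sum_congr rfl fun i hi => ?_
  rw [Finset.mem_range] at hi
  have e1 : t + 1 - 1 - i = t - i := by omega
  rw [e1]
  have e2 : t - (t - i) = i := by omega
  rw [e2, be_succ, ← Finset.mul_sum]
  ring

theorem identC (B t : ℕ) (S z : ℝ) :
    S * Bt B t S z + (B : ℝ) * ∑ b ∈ Finset.range (t + 1), (t.choose b : ℝ) *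
      (z ^ (b + 1) / ((b : ℝ) + 1) * Bt B (t - b) S z) = Bt B (t + 1) S z := by
  rw [identB]
  unfold Bt
  rw [Finset.sum_range_succ' (fun j => ((t + 1).choose j : ℝ) * S ^ (t + 1 - j) *
    (be B j * z ^ j)) (t + 1)]
  have h1 : ∀ i ∈ Finset.range (t + 1), ((t + 1).choose (i + 1) : ℝ) * S ^ (t + 1 - (i + 1)) *
      (be B (i + 1) * z ^ (i + 1)) =
      (t.choose i : ℝ) * S ^ (t - i) * (be B (i + 1) * z ^ (i + 1)) +
        (t.choose (i + 1) : ℝ) * S ^ (t - i) * (be B (i + 1) * z ^ (i + 1)) := by
    intro i _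
    rw [Nat.choose_succ_succ, show t + 1 - (i + 1) = t - i by omega]
    push_cast
    ring
  rw [Finset.sum_congr rfl h1, Finset.sum_add_distrib]
  have h2 : S * ∑ j ∈ Finset.range (t + 1), (t.choose j : ℝ) * S ^ (t - j) *
      (be B j * z ^ j) =
      ∑ i ∈ Finset.range (t + 1), (t.choose (i + 1) : ℝ) * S ^ (t - i) *
        (be B (i + 1) * z ^ (i + 1)) +
      ((t + 1).choose 0 : ℝ) * S ^ (t + 1 - 0) * (be B 0 * z ^ 0) := by
    rw [Finset.sum_range_succ (fun i => (t.choose (i + 1) : ℝ) * S ^ (t - i) *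
        (be B (i + 1) * z ^ (i + 1))) t, Finset.sum_range_succ' (fun j => (t.choose j : ℝ) *
        S ^ (t - j) * (be B j * z ^ j)) t, mul_add, Finset.mul_sum]
    simp only [Nat.choose_succ_self, Nat.cast_zero, zero_mul, add_zero, Nat.choose_zero_right,
      Nat.cast_one, one_mul, pow_zero, mul_one, Nat.sub_zero]
    congr 1
    · refine Finset.sum_congr rfl fun i hi => ?_
      rw [Finset.mem_range] at hi
      have : S ^ (t - i) = S * S ^ (t - (i + 1)) := by
        rw [← pow_succ']; congr 1; omega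
      rw [this]; ring
    · rw [pow_succ]; ring
  rw [h2]
  ring

open Classical in
/-- the vector after the removal of a mark -/
theorem sumA {s : ℕ} (h : Fin (s + 1) → ℝ) (A : Finset (Fin (s + 1))) (q : Fin (s + 1)) (y : ℝ) :
    ∑ i ∈ A, (if i = q then h i - y else h i) =
      if q ∈ A then (∑ i ∈ A, h i) - y else ∑ i ∈ A, h i := by
  have h1 : ∀ i ∈ A, (if i = q then h i - y else h i) = h i - (if i = q then y else 0) := by
    intro i _
    split_ifs <;> ring
  rw [Finset.sum_congr rfl h1, Finset.sum_sub_distrib, Finset.sum_ite_eq']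
  split_ifs <;> ring

theorem muzero {s : ℕ} (h : Fin (s + 1) → ℝ) (z : ℝ) : mu 0 h z ≤ 1 := by
  unfold mu muL
  rw [Finset.sum_range_one]
  have hc : (Finset.univ : Finset (Fin 0 → Fin (s + 1))) = {fun i => i.elim0} := by
    ext c
    simp only [Finset.mem_univ, Finset.mem_singleton, true_iff]
    funext i
    exact i.elim0
  rw [hc, Finset.sum_singleton]
  calc _ ≤ ∫⁻ y : Fin 0 → ℝ, ENNReal.ofReal (Qo 0 0 y) := setLIntegral_le_lintegral _ _
    _ = 1 := by
      simp only [Qo, if_true, ENNReal.ofReal_one]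
      rw [lintegral_one, Measure.volume_pi_eq_dirac (fun i => i.elim0)]
      simp

/-- the integral of a power -/
theorem powint (b : ℕ) (z : ℝ) (hz : 0 ≤ z) :
    ∫⁻ y in Set.Ioo 0 z, ENNReal.ofReal (y ^ b) = ENNReal.ofReal (z ^ (b + 1) / ((b : ℝ) + 1)) := by
  rw [← ofReal_integral_eq_lintegral_ofReal]
  · congr 1
    rw [← integral_Ioc_eq_integral_Ioo, ← intervalIntegral.integral_of_le hz, integral_pow]
    simp
  · exact ((continuous_pow b).integrableOn_Icc).mono_set Set.Ioo_subset_Icc_self
  · refine (ae_restrict_iff' measurableSet_Ioo).2 (Filter.Eventually.of_forall fun y hy => ?_)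
    exact pow_nonneg hy.1.le b

theorem main (h9 : claimI9) (s : ℕ) (z : ℝ) (hz : 0 ≤ z) (A : Finset (Fin (s + 1))) (t : ℕ) :
    ∀ h : Fin (s + 1) → ℝ, (∀ q, 0 ≤ h q) →
      mu t h z ≤ ENNReal.ofReal (Bt (s + 1 - A.card) t (∑ q ∈ A, h q) z) := by
  classical
  induction t using Nat.strong_induction_on with
  | _ t ih =>
    intro h hh
    cases t with
    | zero =>
      refine (muzero h z).trans ?_
      unfold Bt
      simp [be_zero]
    | succ t =>
      set B := s + 1 - A.card with hB
      set S := ∑ q ∈ A, h q with hS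
      have hS0 : 0 ≤ S := Finset.sum_nonneg fun q _ => hh q
      rw [h9]
      -- the terms
      have key : ∀ b ∈ Finset.range (t + 1), ∀ q : Fin (s + 1),
          ENNReal.ofReal (t.choose b : ℝ) * ∫⁻ y in {y : ℝ | 0 < y ∧ y < z ∧ y < h q},
            ENNReal.ofReal (y ^ b) * mu (t - b) (fun i => if i = q then h i - y else h i) z ≤
          if q ∈ A then ∫⁻ y in Set.Ioo 0 (h q), ENNReal.ofReal ((t.choose b : ℝ) *
              (y ^ b * Bt B (t - b) (S - y) z))
          else ENNReal.ofReal ((t.choose b : ℝ) *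
            (z ^ (b + 1) / ((b : ℝ) + 1) * Bt B (t - b) S z)) := by
        intro b hb q
        rw [Finset.mem_range] at hb
        have hms : MeasurableSet {y : ℝ | 0 < y ∧ y < z ∧ y < h q} := by
          have : {y : ℝ | 0 < y ∧ y < z ∧ y < h q} = Set.Ioo 0 z ∩ Set.Ioo 0 (h q) := by
            ext y; simp only [Set.mem_ofPred_eq, Set.mem_inter_iff, Set.mem_Ioo]; tauto
          rw [this]
          exact measurableSet_Ioo.inter measurableSet_Ioo
        have step : ∀ y ∈ {y : ℝ | 0 < y ∧ y < z ∧ y < h q},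
            mu (t - b) (fun i => if i = q then h i - y else h i) z ≤
              ENNReal.ofReal (Bt B (t - b) (if q ∈ A then S - y else S) z) := by
          intro y hy
          have h1 := ih (t - b) (by omega) (fun i => if i = q then h i - y else h i) (by
            intro i
            split_ifs with hi
            · rw [hi]; linarith [hy.2.2]
            · exact hh i)
          rwa [sumA] at h1
        split_ifs with hq
        · simp only [if_pos hq] at step
          calc _ ≤ ENNReal.ofReal (t.choose b : ℝ) *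
                ∫⁻ y in {y : ℝ | 0 < y ∧ y < z ∧ y < h q},
                  ENNReal.ofReal (y ^ b) * ENNReal.ofReal (Bt B (t - b) (S - y) z) := by
                refine mul_le_mul' le_rfl ?_
                exact setLIntegral_mono' hms fun y hy => by have := step y hy; gcongr
            _ ≤ ENNReal.ofReal (t.choose b : ℝ) *
                ∫⁻ y in Set.Ioo 0 (h q),
                  ENNReal.ofReal (y ^ b) * ENNReal.ofReal (Bt B (t - b) (S - y) z) := by
                refine mul_le_mul' le_rfl ?_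
                exact lintegral_mono_set (show {y : ℝ | 0 < y ∧ y < z ∧ y < h q} ⊆ Set.Ioo 0 (h q)
                  from fun y hy => ⟨hy.1, hy.2.2⟩)
            _ = _ := by
                rw [← lintegral_const_mul' _ _ ENNReal.ofReal_ne_top]
                refine setLIntegral_congr_fun measurableSet_Ioo fun y hy => ?_
                rw [← ENNReal.ofReal_mul (pow_nonneg hy.1.le b),
                  ← ENNReal.ofReal_mul (Nat.cast_nonneg _)]
        · simp only [if_neg hq] at step
          calc _ ≤ ENNReal.ofReal (t.choose b : ℝ) *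
                ∫⁻ y in {y : ℝ | 0 < y ∧ y < z ∧ y < h q},
                  ENNReal.ofReal (y ^ b) * ENNReal.ofReal (Bt B (t - b) S z) := by
                refine mul_le_mul' le_rfl ?_
                exact setLIntegral_mono' hms fun y hy => by have := step y hy; gcongr
            _ ≤ ENNReal.ofReal (t.choose b : ℝ) *
                ∫⁻ y in Set.Ioo 0 z,
                  ENNReal.ofReal (y ^ b) * ENNReal.ofReal (Bt B (t - b) S z) := by
                refine mul_le_mul' le_rfl ?_
                exact lintegral_mono_set (show {y : ℝ | 0 < y ∧ y < z ∧ y < h q} ⊆ Set.Ioo 0 z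
                  from fun y hy => ⟨hy.1, hy.2.1⟩)
            _ = _ := by
                rw [lintegral_mul_const' _ _ ENNReal.ofReal_ne_top, powint b z hz,
                  ← ENNReal.ofReal_mul (by positivity), ← ENNReal.ofReal_mul (Nat.cast_nonneg _)]
      calc _ ≤ ∑ b ∈ Finset.range (t + 1), ∑ q : Fin (s + 1),
            (if q ∈ A then ∫⁻ y in Set.Ioo 0 (h q), ENNReal.ofReal ((t.choose b : ℝ) *
              (y ^ b * Bt B (t - b) (S - y) z))
            else ENNReal.ofReal ((t.choose b : ℝ) *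
              (z ^ (b + 1) / ((b : ℝ) + 1) * Bt B (t - b) S z))) :=
            Finset.sum_le_sum fun b hb => Finset.sum_le_sum fun q _ => key b hb q
        _ = ∑ q : Fin (s + 1), ∑ b ∈ Finset.range (t + 1),
            (if q ∈ A then ∫⁻ y in Set.Ioo 0 (h q), ENNReal.ofReal ((t.choose b : ℝ) *
              (y ^ b * Bt B (t - b) (S - y) z))
            else ENNReal.ofReal ((t.choose b : ℝ) *
              (z ^ (b + 1) / ((b : ℝ) + 1) * Bt B (t - b) S z))) := Finset.sum_comm
        _ ≤ ∑ q : Fin (s + 1), ENNReal.ofReal (if q ∈ A then h q * Bt B t S z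
            else ∑ b ∈ Finset.range (t + 1), (t.choose b : ℝ) *
              (z ^ (b + 1) / ((b : ℝ) + 1) * Bt B (t - b) S z)) := by
            refine Finset.sum_le_sum fun q _ => ?_
            by_cases hq : q ∈ A
            · simp only [if_pos hq]
              have hqS : h q ≤ S := Finset.single_le_sum (f := h) (fun i _ => hh i) hq
              rw [← lintegral_finsetSum']
              · calc _ = ∫⁻ _ in Set.Ioo 0 (h q), ENNReal.ofReal (Bt B t S z) := by
                      refine setLIntegral_congr_fun measurableSet_Ioo fun y hy => ?_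
                      rw [← ENNReal.ofReal_sum_of_nonneg, identA]
                      intro b _
                      have h1 := Bt_nonneg B (t - b) (S - y) z (by linarith [hy.2]) hz
                      have h2 := pow_nonneg hy.1.le b
                      positivity
                  _ = ENNReal.ofReal (Bt B t S z) * ENNReal.ofReal (h q) := by
                      rw [setLIntegral_const, Real.volume_Ioo, sub_zero]
                  _ ≤ _ := by
                      rw [← ENNReal.ofReal_mul (Bt_nonneg B t S z hS0 hz), mul_comm]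
              · intro b _
                refine Measurable.aemeasurable ?_
                refine ENNReal.measurable_ofReal.comp ?_
                unfold Bt
                fun_prop
            · simp only [if_neg hq]
              rw [ENNReal.ofReal_sum_of_nonneg]
              intro b _
              have h1 := Bt_nonneg B (t - b) S z hS0 hz
              positivity
        _ = ENNReal.ofReal (∑ q : Fin (s + 1), (if q ∈ A then h q * Bt B t S z
            else ∑ b ∈ Finset.range (t + 1), (t.choose b : ℝ) *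
              (z ^ (b + 1) / ((b : ℝ) + 1) * Bt B (t - b) S z))) := by
            rw [ENNReal.ofReal_sum_of_nonneg]
            intro q _
            split_ifs
            · exact mul_nonneg (hh q) (Bt_nonneg B t S z hS0 hz)
            · refine Finset.sum_nonneg fun b _ => ?_
              have h1 := Bt_nonneg B (t - b) S z hS0 hz
              positivity
        _ = _ := by
            congr 1
            rw [Finset.sum_ite, Finset.sum_const, ← Finset.sum_mul, nsmul_eq_mul,
              ← identC B t S z]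
            congr 1
            · congr 1
              rw [hS]
              congr 1
              ext q; simp
            · congr 1
              have : (Finset.univ.filter fun q : Fin (s + 1) => ¬ q ∈ A) = Aᶜ := by
                ext q; simp
              rw [this, Finset.card_compl, Fintype.card_fin]

end II10

theorem prfI10 : claimI9 → claimI10 := fun h9 s t h z A hz hh => II10.main h9 s z hz A t h hh

end Pool.Agent.Work.MP_122e00_nt.Sharp

end

section

set_option autoImplicit false

/-!
# I11: all hidden marks together (helper69)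
-/

namespace Pool.Agent.Work.MP_122e00_nt.Sharp

open Finset Filter Topology MeasureTheory

open scoped ENNReal ArithmeticFunction.vonMangoldt ArithmeticFunction.zeta

open Two Gen

namespace II11

theorem sum_lintegral_le {α : Type} [MeasurableSpace α] (μ : Measure α) (f : ℕ → α → ℝ≥0∞)
    (K : ℕ) : ∑ l ∈ Finset.range K, ∫⁻ y, f l y ∂μ ≤ ∫⁻ y, ∑ l ∈ Finset.range K, f l y ∂μ := by
  induction K with
  | zero => simp
  | succ K ih =>
    rw [Finset.sum_range_succ]
    simp only [Finset.sum_range_succ]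
    refine le_trans (add_le_add_left ih _) ?_
    exact le_lintegral_add _ _

theorem muL_zero (hQ3 : claimQ3) {s : ℕ} {l t : ℕ} (hlt : t < l) (h : Fin (s + 1) → ℝ) (z : ℝ) :
    muL l t h z = 0 := by
  unfold muL
  refine Finset.sum_eq_zero fun c _ => ?_
  have : ∀ y : Fin l → ℝ, ENNReal.ofReal (Qo l t y) = 0 := by
    intro y
    rw [(hQ3.2.2.1 l t y hlt).1, ENNReal.ofReal_zero]
  simp only [this]
  exact lintegral_zero

theorem sum_muL_le (hQ3 : claimQ3) {s : ℕ} (K t : ℕ) (h : Fin (s + 1) → ℝ) (z : ℝ) :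
    ∑ l ∈ Finset.range K, muL l t h z ≤ mu t h z := by
  unfold mu
  refine Finset.sum_le_sum_of_ne_zero fun l _ hl => ?_
  by_contra hc
  rw [Finset.mem_range, not_lt] at hc
  exact hl (muL_zero hQ3 (by omega) h z)

end II11

open II11 in
theorem prfI11 : claimI8 → claimQ3 → claimI11 := by
  intro hI8 hQ3 s m T R g hg hR K
  have h1 : ∀ l, IL s m (T + 1) R g (T + 1 + l) =
      ∫⁻ y in Sim (T + 1) s ∩ {y | xs y ∈ Srt (T + 1)},
      ENNReal.ofReal (pg R (((s : ℝ) + 1) ^ (T + 1)) (Pl g (xs y) (vs y))) *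
      ∑ t ∈ Finset.range (m + 1), ENNReal.ofReal ((m.choose t : ℝ) * Qs (T + 1) (m - t) (xs y)) *
        muL l t (vs y) (xs y (Fin.last T)) := fun l => hI8 s m T l R g hg hR
  simp only [h1]
  refine (sum_lintegral_le _ _ K).trans ?_
  refine lintegral_mono fun y => ?_
  simp only
  rw [← Finset.mul_sum]
  refine mul_le_mul_right ?_ _
  rw [Finset.sum_comm]
  refine Finset.sum_le_sum fun t _ => ?_
  rw [← Finset.mul_sum]
  exact mul_le_mul_right (sum_muL_le hQ3 K t _ _) _

end Pool.Agent.Work.MP_122e00_nt.Sharp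

end

section

set_option autoImplicit false

/-!
# I12: permutations of the parts
-/

namespace Pool.Agent.Work.MP_122e00_nt.Sharp

open Finset Filter Topology MeasureTheory

open scoped ENNReal ArithmeticFunction.vonMangoldt ArithmeticFunction.zeta

open Two Gen

namespace II12

theorem muL_perm {s : ℕ} (l t : ℕ) (h : Fin (s + 1) → ℝ) (z : ℝ)
    (σ : Equiv.Perm (Fin (s + 1))) : muL l t (fun i => h (σ i)) z = muL l t h z := by
  unfold muL
  refine Fintype.sum_equiv (Equiv.arrowCongr (Equiv.refl (Fin l)) σ) _ _ fun c => ?_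
  have e1 : (Equiv.arrowCongr (Equiv.refl (Fin l)) σ) c = fun i => σ (c i) := rfl
  rw [e1]
  congr 2
  ext y
  simp only [Set.mem_ofPred_eq]
  refine and_congr_right fun _ => ?_
  constructor
  · intro hq q
    have h1 := hq (σ.symm q)
    rw [Equiv.apply_symm_apply] at h1
    refine lt_of_eq_of_lt (Finset.sum_congr rfl fun i _ => ?_) h1
    have : σ (c i) = q ↔ c i = σ.symm q := by
      rw [Equiv.eq_symm_apply]
    simp only [this]
  · intro hq q
    have h1 := hq (σ q)
    refine lt_of_eq_of_lt (Finset.sum_congr rfl fun i _ => ?_) h1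
    have : σ (c i) = σ q ↔ c i = q := σ.injective.eq_iff
    simp only [this]

theorem exists_tau {s : ℕ} (σ : Equiv.Perm (Fin (s + 1))) (i : Fin (s + 1)) :
    ∃ τ : Equiv.Perm (Fin s), ∀ j, σ (i.succAbove j) = (σ i).succAbove (τ j) := by
  let e : {x : Fin (s + 1) // x ≠ i} ≃ {x : Fin (s + 1) // x ≠ σ i} :=
    σ.subtypeEquiv fun a => by simp
  refine ⟨((finSuccAboveEquiv i).trans e).trans (finSuccAboveEquiv (σ i)).symm, fun j => ?_⟩
  have h : finSuccAboveEquiv (σ i) ((finSuccAboveEquiv (σ i)).symm (e (finSuccAboveEquiv i j))) =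
      e (finSuccAboveEquiv i j) := Equiv.apply_symm_apply _ _
  exact (congrArg Subtype.val h).symm

theorem gs_perm {s : ℕ} (ψ : (Fin s → ℝ) → ℝ) (hψ : ∀ (y : Fin s → ℝ) (τ : Equiv.Perm (Fin s)),
      ψ (fun i => y (τ i)) = ψ y) (w : Fin (s + 1) → ℝ) (σ : Equiv.Perm (Fin (s + 1))) :
    gs ψ (fun i => w (σ i)) = gs ψ w := by
  unfold gs
  refine Fintype.sum_equiv σ _ _ fun i => ?_
  obtain ⟨τ, hτ⟩ := exists_tau σ i
  have : (fun j => w (σ (i.succAbove j))) = fun j => (fun j => w ((σ i).succAbove j)) (τ j) := by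
    funext j
    rw [hτ j]
  rw [this]
  exact hψ (fun j => w ((σ i).succAbove j)) τ

end II12

open II12 in
theorem prfI12 : claimI12 := by
  refine ⟨fun s t h z σ => ?_, fun s k ψ hψ x v σ => ?_⟩
  · unfold mu
    exact Finset.sum_congr rfl fun l _ => muL_perm l t h z σ
  · unfold Pl
    refine Fintype.sum_equiv (Equiv.arrowCongr (Equiv.refl (Fin k)) σ) _ _ fun c => ?_
    have e1 : (Equiv.arrowCongr (Equiv.refl (Fin k)) σ) c = fun i => σ (c i) := rfl
    rw [e1, ← gs_perm ψ hψ (fun q => v q + ∑ j, if σ (c j) = q then x j else 0) σ]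
    have h1 : (fun q => v (σ q) + ∑ j, if c j = q then x j else 0) =
        fun i => v (σ i) + ∑ j, if σ (c j) = σ i then x j else 0 := by
      funext q
      have h2 : (∑ j, if c j = q then x j else 0) = ∑ j, if σ (c j) = σ q then x j else 0 := by
        refine Finset.sum_congr rfl fun j _ => ?_
        have : σ (c j) = σ q ↔ c j = q := σ.injective.eq_iff
        simp only [this]
      rw [h2]
    rw [h1]

end Pool.Agent.Work.MP_122e00_nt.Sharp

end

section

set_option autoImplicit false

/-!
# I15: the final bound for at most `T` marks (helper18)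
-/

namespace Pool.Agent.Work.MP_122e00_nt.Sharp

open Finset Filter Topology MeasureTheory

open scoped ENNReal ArithmeticFunction.vonMangoldt ArithmeticFunction.zeta

open Two Gen

namespace II15

theorem psw_meas (a b : ℝ) (s : ℕ) (θ : ℝ) : Measurable (psw a b s θ) := by
  unfold psw
  have hsum : Measurable (fun y : Fin s → ℝ => ∑ i, y i) :=
    Finset.measurable_sum _ fun i _ => measurable_pi_apply i
  have h1 : MeasurableSet {y : Fin s → ℝ | ∀ i, 0 ≤ y i} := by
    rw [show {y : Fin s → ℝ | ∀ i, 0 ≤ y i} = ⋂ i, {y | 0 ≤ y i} by ext; simp]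
    exact MeasurableSet.iInter fun i => measurableSet_le measurable_const (measurable_pi_apply i)
  have h2 : MeasurableSet {y : Fin s → ℝ | ∑ i, y i ≤ 1 / 2 - θ} :=
    measurableSet_le hsum measurable_const
  exact ((hsum.const_mul b).const_add a).indicator (h1.inter h2)

theorem gs_meas {s : ℕ} {ψ : (Fin s → ℝ) → ℝ} (h : Measurable ψ) : Measurable (gs ψ) := by
  unfold gs
  refine Finset.measurable_sum _ fun i _ => h.comp ?_
  exact measurable_pi_lambda _ fun j => measurable_pi_apply _

theorem g3_meas (θ : ℝ) : Measurable (g3 θ) := gs_meas (psw_meas _ _ _ _)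

theorem psw_symm (a b : ℝ) (s : ℕ) (θ : ℝ) (y : Fin s → ℝ) (τ : Equiv.Perm (Fin s)) :
    psw a b s θ (fun i => y (τ i)) = psw a b s θ y := by
  unfold psw
  have hsum : ∑ i, y (τ i) = ∑ i, y i := Equiv.sum_comp τ y
  by_cases h : y ∈ {y : Fin s → ℝ | (∀ i, 0 ≤ y i) ∧ ∑ i, y i ≤ 1 / 2 - θ}
  · have h' : (fun i => y (τ i)) ∈
        {y : Fin s → ℝ | (∀ i, 0 ≤ y i) ∧ ∑ i, y i ≤ 1 / 2 - θ} := by
      refine ⟨fun i => h.1 _, ?_⟩
      show ∑ i, y (τ i) ≤ 1 / 2 - θ
      rw [hsum]
      exact h.2
    rw [Set.indicator_of_mem h, Set.indicator_of_mem h']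
    show a + b * ∑ i, y (τ i) = _
    rw [hsum]
  · have h' : (fun i => y (τ i)) ∉
        {y : Fin s → ℝ | (∀ i, 0 ≤ y i) ∧ ∑ i, y i ≤ 1 / 2 - θ} := by
      intro hc
      apply h
      refine ⟨fun i => ?_, ?_⟩
      · have := hc.1 (τ.symm i)
        simpa using this
      · have h2 : ∑ i, y (τ i) ≤ 1 / 2 - θ := hc.2
        rw [hsum] at h2
        exact h2
    rw [Set.indicator_of_notMem h, Set.indicator_of_notMem h']

theorem px_append {k : ℕ} (x : Fin k → ℝ) (v : Fin 3 → ℝ) : px (Fin.append x v) = x := by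
  funext i
  exact Fin.append_left x v i

theorem ph3_append {k : ℕ} (x : Fin k → ℝ) (v : Fin 3 → ℝ) : ph3 (Fin.append x v) = v := by
  funext i
  exact Fin.append_right x v i

theorem Jf_append {k : ℕ} (m : ℕ) (R : ℝ) (x : Fin k → ℝ) (v : Fin 3 → ℝ) :
    Jf m k R (Fin.append x v) = Qs k m x * pg R (3 ^ k) (Pl (g3 0) x v) := by
  unfold Jf
  rw [px_append, ph3_append]

theorem meas2 {k : ℕ} (f : (Fin k → ℝ) → (Fin 3 → ℝ) → ℝ)
    (hf : Measurable (fun p : (Fin k → ℝ) × (Fin 3 → ℝ) => f p.1 p.2)) :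
    Measurable (fun p : Fin (k + 3) → ℝ => f (px p) (ph3 p)) := by
  have hpx : Measurable (fun p : Fin (k + 3) → ℝ => px p) :=
    measurable_pi_lambda _ fun i => measurable_pi_apply _
  have hph : Measurable (fun p : Fin (k + 3) → ℝ => ph3 p) :=
    measurable_pi_lambda _ fun i => measurable_pi_apply _
  exact hf.comp (hpx.prodMk hph)

theorem Jf_meas (h6 : claimI6) (h3 : claimQ3) (m k : ℕ) (R : ℝ) : Measurable (Jf m k R) := by
  have hpx : Measurable (fun p : Fin (k + 3) → ℝ => px p) :=
    measurable_pi_lambda _ fun i => measurable_pi_apply _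
  have h6a := h6 2 k 0 R (g3 0) (g3_meas 0)
  have hPl := h6a.2.1
  have hpg := h6a.2.2.1 ((3 : ℝ) ^ k)
  have e1 : Measurable (fun p : Fin (k + 3) → ℝ => Pl (g3 0) (px p) (ph3 p)) := meas2 _ hPl
  have e2 : Measurable (fun p : Fin (k + 3) → ℝ => pg R (3 ^ k) (Pl (g3 0) (px p) (ph3 p))) :=
    hpg.comp e1
  have e3 : Measurable (Qs k m) := (h3.2.1 k m).2.measurable
  have e4 : Measurable (fun p : Fin (k + 3) → ℝ => Qs k m (px p)) := e3.comp hpx
  exact e4.mul e2

end II15

open II15 in
theorem prfI15 (h6 : claimI6) (h7 : claimI7) (h12 : claimI12) (h13 : claimI13) (h14 : claimI14)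
    (h3 : claimQ3) : claimI15 := by
  intro m T k R hk hR
  have hG : Measurable (fun p : Fin (k + 3) → ℝ => ENNReal.ofReal (Jf m k R p)) :=
    (Jf_meas h6 h3 m k R).ennreal_ofReal
  rw [h7 2 k m T R (g3 0) (g3_meas 0) hk hR]
  have e1 : ∫⁻ y in Sim k 2 ∩ {y | xs y ∈ Srt k},
      ENNReal.ofReal (Qs k m (xs y) * pg R (((2 : ℕ) + 1 : ℝ) ^ k) (Pl (g3 0) (xs y) (vs y))) =
      ∫⁻ y in Sim k 2 ∩ {y | xs y ∈ Srt k},
        (fun p : Fin (k + 3) → ℝ => ENNReal.ofReal (Jf m k R p)) (Fin.append (xs y) (vs y)) := by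
    apply lintegral_congr
    intro y
    show _ = ENNReal.ofReal (Jf m k R (Fin.append (xs y) (vs y)))
    rw [Jf_append]
    norm_num
  rw [e1, h13 k _ hG, h14 k _ hG]
  · unfold Jk
    exact le_rfl
  · intro x v σ
    show ENNReal.ofReal (Jf m k R (Fin.append x fun i => v (σ i))) =
      ENNReal.ofReal (Jf m k R (Fin.append x v))
    rw [Jf_append, Jf_append]
    unfold g3
    rw [h12.2 2 k _ (psw_symm _ _ _ _) x v σ]

end Pool.Agent.Work.MP_122e00_nt.Sharp

end

end

section

/-! Bundle of small proof modules (one section per former module). -/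

section

set_option autoImplicit false

/-!
# Item I2: sorting
-/

namespace Pool.Agent.Work.MP_122e00_nt.Sharp

open Finset MeasureTheory

open scoped ENNReal

namespace I2

lemma meas_Srt (k : ℕ) : MeasurableSet (Srt k) := by
  have h : Srt k = ⋂ i : Fin k, ⋂ j : Fin k, {x : Fin k → ℝ | i < j → x j < x i} := by
    ext x
    simp only [Srt, Set.mem_ofPred_eq, Set.mem_iInter]
    constructor
    · intro hx i j hij
      exact hx hij
    · intro hx i j hij
      exact hx i j hij
  rw [h]
  refine MeasurableSet.iInter fun i => MeasurableSet.iInter fun j => ?_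
  by_cases hij : i < j
  · simp only [hij, forall_true_left]
    exact measurableSet_lt (measurable_pi_apply j) (measurable_pi_apply i)
  · simp only [hij, false_imp_iff]
    exact MeasurableSet.univ

lemma mp (k : ℕ) (σ : Equiv.Perm (Fin k)) :
    MeasurePreserving (fun (x : Fin k → ℝ) (i : Fin k) => x (σ i)) volume volume := by
  have h := volume_measurePreserving_piCongrLeft (fun _ : Fin k => ℝ) σ.symm
  convert h using 1
  funext x i
  have := Equiv.piCongrLeft_apply_apply (fun _ : Fin k => ℝ) σ.symm x (σ i)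
  rw [Equiv.symm_apply_apply] at this
  exact this.symm

lemma null_inj (k : ℕ) : ∀ᵐ x : Fin k → ℝ, Function.Injective x := by
  have h : ∀ i j : Fin k, i ≠ j → ∀ᵐ x : Fin k → ℝ, x i ≠ x j := by
    intro i j hij
    have h1 := Two.prfL6 (Fin k) (fun l => if l = i then 1 else if l = j then -1 else 0) 0
      (by
        intro h0
        have := congrFun h0 i
        simp at this)
    rw [ae_iff]
    refine measure_mono_null ?_ h1
    intro x hx
    simp only [ne_eq, not_not, Set.mem_ofPred_eq] at hx ⊢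
    have e1 : ∀ l : Fin k, (if l = i then (1 : ℝ) else if l = j then -1 else 0) * x l =
        (if l = i then x l else 0) - (if l = j then x l else 0) := by
      intro l
      by_cases h1 : l = i
      · have h2 : l ≠ j := fun h => hij (h1.symm.trans h)
        rw [if_pos h1, if_pos h1, if_neg h2]
        ring
      · rw [if_neg h1, if_neg h1]
        by_cases h2 : l = j
        · rw [if_pos h2, if_pos h2]
          ring
        · rw [if_neg h2, if_neg h2]
          ring
    simp only [e1]
    rw [Finset.sum_sub_distrib, Finset.sum_ite_eq' Finset.univ i x,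
      Finset.sum_ite_eq' Finset.univ j x]
    simp [hx]
  have h2 : ∀ᵐ x : Fin k → ℝ, ∀ i j : Fin k, i ≠ j → x i ≠ x j := by
    rw [ae_all_iff]
    intro i
    rw [ae_all_iff]
    intro j
    by_cases hij : i = j
    · exact Filter.Eventually.of_forall fun x h => absurd hij h
    · filter_upwards [h i j hij] with x hx _
      exact hx
  filter_upwards [h2] with x hx i j hij
  by_contra hne
  exact hx i j hne hij

end I2

open I2 in
theorem prfI2 : claimI2 := by
  intro k f hf
  set T : Equiv.Perm (Fin k) → (Fin k → ℝ) → (Fin k → ℝ) := fun σ x i => x (σ i) with hT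
  set A : Equiv.Perm (Fin k) → Set (Fin k → ℝ) := fun σ => T σ ⁻¹' Srt k with hA
  have hmA : ∀ σ, MeasurableSet (A σ) := fun σ => (mp k σ).measurable (meas_Srt k)
  have hdisj : Pairwise (Function.onFun Disjoint A) := by
    intro σ τ hst
    rw [Function.onFun, Set.disjoint_left]
    intro x h1 h2
    apply hst
    have h1' : StrictAnti (fun i => x (σ i)) := h1
    have h2' : StrictAnti (fun i => x (τ i)) := h2
    have hinj : Function.Injective x := by
      intro i j hij
      have : σ.symm i = σ.symm j := h1'.injective (by simpa using hij)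
      exact σ.symm.injective this
    have hs1 : StrictMono (fun i => -(x (σ i))) := fun i j hij => neg_lt_neg (h1' hij)
    have hs2 : StrictMono (fun i => -(x (τ i))) := fun i j hij => neg_lt_neg (h2' hij)
    have e := (hs1.range_inj hs2).1 (by
        have e1 : Set.range (fun i => -(x (σ i))) = Set.range (fun i => -(x i)) :=
          σ.surjective.range_comp (fun i => -(x i))
        have e2 : Set.range (fun i => -(x (τ i))) = Set.range (fun i => -(x i)) :=
          τ.surjective.range_comp (fun i => -(x i))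
        rw [e1, e2])
    ext i
    have := congrFun e i
    simp only [neg_inj] at this
    rw [hinj this]
  have hcov : (⋃ σ, A σ) =ᵐ[volume] (Set.univ : Set (Fin k → ℝ)) := by
    rw [ae_eq_univ]
    have h0 := null_inj k
    rw [ae_iff] at h0
    refine measure_mono_null ?_ h0
    intro x hx hinj
    apply hx
    rw [Set.mem_iUnion]
    refine ⟨Tuple.sort (fun i => -(x i)), ?_⟩
    have hm := Tuple.monotone_sort (fun i => -(x i))
    have hs : StrictMono ((fun i => -(x i)) ∘ Tuple.sort (fun i => -(x i))) := by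
      refine hm.strictMono_of_injective ?_
      refine Function.Injective.comp ?_ (Equiv.injective _)
      intro i j hij
      exact hinj (neg_injective hij)
    intro i j hij
    exact neg_lt_neg_iff.1 (hs hij)
  have h1 : ∫⁻ x, f x = ∑ σ : Equiv.Perm (Fin k), ∫⁻ x in A σ, f x := by
    rw [← setLIntegral_univ, ← setLIntegral_congr hcov, lintegral_iUnion hmA hdisj, tsum_fintype]
  have h2 : ∀ σ : Equiv.Perm (Fin k), ∫⁻ x in A σ, f x =
      ∫⁻ y in Srt k, f (fun i => y (σ.symm i)) := by
    intro σ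
    have hmf : Measurable (fun y : Fin k → ℝ => f (fun i => y (σ.symm i))) :=
      hf.comp (mp k σ.symm).measurable
    rw [← (mp k σ).setLIntegral_comp_preimage (meas_Srt k) hmf]
    refine lintegral_congr fun x => ?_
    simp
  rw [h1, Finset.sum_congr rfl fun σ _ => h2 σ, lintegral_finsetSum]
  · exact Equiv.sum_comp (Equiv.inv (Equiv.Perm (Fin k)))
      (fun σ => ∫⁻ y in Srt k, f (fun i => y (σ i)))
  · intro σ _
    exact hf.comp (mp k σ).measurable

end Pool.Agent.Work.MP_122e00_nt.Sharp

end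

section

set_option autoImplicit false

/-!
# Item I3: permutations of the marks
-/

namespace Pool.Agent.Work.MP_122e00_nt.Sharp

open Finset

namespace I3

lemma rk_perm {k : ℕ} (x : Fin k → ℝ) (σ : Equiv.Perm (Fin k)) (hx : Function.Injective x)
    (j : Fin k) : rk (fun i => x (σ i)) j = rk x (σ j) := by
  classical
  unfold rk
  apply Finset.card_equiv σ
  intro i
  simp only [Finset.mem_filter, Finset.mem_univ, true_and]
  constructor
  · rintro (h | ⟨h, h2⟩)
    · exact Or.inl h
    · have := σ.injective (hx h)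
      subst this
      exact absurd h2 (lt_irrefl _)
  · rintro (h | ⟨h, h2⟩)
    · exact Or.inl h
    · have := hx h
      rw [this] at h2
      exact absurd h2 (lt_irrefl _)

lemma plc_perm {s k : ℕ} (x : Fin k → ℝ) (v : Fin (s + 1) → ℝ) (σ : Equiv.Perm (Fin k))
    (c : Fin k → Fin (s + 1)) :
    plc (fun i => x (σ i)) v c = plc x v (c ∘ σ.symm) := by
  funext q
  unfold plc
  congr 1
  rw [← Equiv.sum_comp σ (fun j => if (c ∘ σ.symm) j = q then x j else 0)]
  refine Finset.sum_congr rfl fun j _ => ?_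
  simp

lemma Gr_perm {s k : ℕ} (T : ℕ) (g : (Fin (s + 1) → ℝ) → ℝ) (x : Fin k → ℝ)
    (v : Fin (s + 1) → ℝ) (σ : Equiv.Perm (Fin k)) (hx : Function.Injective x)
    (c : Fin k → Fin (s + 1)) :
    Gr T g (fun i => x (σ i)) v c = Gr T g x v (c ∘ σ.symm) := by
  classical
  unfold Gr
  refine Fintype.sum_equiv (Equiv.arrowCongr σ (Equiv.refl (Fin (s + 1)))) _ _ fun c' => ?_
  have e1 : (Equiv.arrowCongr σ (Equiv.refl (Fin (s + 1)))) c' = c' ∘ σ.symm := rfl
  rw [e1, plc_perm]
  have e2 : (∀ j, T ≤ rk (fun i => x (σ i)) j → c' j = c j) ↔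
      (∀ j, T ≤ rk x j → (c' ∘ σ.symm) j = (c ∘ σ.symm) j) := by
    constructor
    · intro h j hj
      have := h (σ.symm j) (by rw [rk_perm x σ hx]; simpa using hj)
      simpa using this
    · intro h j hj
      rw [rk_perm x σ hx] at hj
      have := h (σ j) hj
      simpa using this
  by_cases h : ∀ j, T ≤ rk (fun i => x (σ i)) j → c' j = c j
  · rw [if_pos h, if_pos (e2.1 h)]
  · rw [if_neg h, if_neg (fun h' => h (e2.2 h'))]

end I3

open I3 in
theorem prfI3 : claimI3 := by
  intro s k T R g x v σ hx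
  unfold HC
  refine Fintype.sum_equiv (Equiv.arrowCongr σ (Equiv.refl (Fin (s + 1)))) _ _ fun c => ?_
  have e1 : (Equiv.arrowCongr σ (Equiv.refl (Fin (s + 1)))) c = c ∘ σ.symm := rfl
  rw [e1, Gr_perm T g x v σ hx c]

end Pool.Agent.Work.MP_122e00_nt.Sharp

end

section

set_option autoImplicit false

/-!
# I4: at most `T` marks
-/

namespace Pool.Agent.Work.MP_122e00_nt.Sharp

open Finset Filter Topology MeasureTheory

open scoped ENNReal ArithmeticFunction.vonMangoldt ArithmeticFunction.zeta

open Two Gen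

namespace II4

theorem rk_lt {k : ℕ} (x : Fin k → ℝ) (j : Fin k) : rk x j < k := by
  classical
  unfold rk
  have h : (Finset.univ.filter fun i => x j < x i ∨ (x i = x j ∧ i < j)) ⊂ Finset.univ := by
    refine Finset.filter_ssubset.2 ⟨j, Finset.mem_univ _, ?_⟩
    simp
  calc _ < (Finset.univ : Finset (Fin k)).card := Finset.card_lt_card h
    _ = k := by simp

theorem Gr_eq {s k T : ℕ} (hkT : k ≤ T) (g : (Fin (s + 1) → ℝ) → ℝ) (x : Fin k → ℝ)
    (v : Fin (s + 1) → ℝ) (c : Fin k → Fin (s + 1)) : Gr T g x v c = Pl g x v := by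
  classical
  unfold Gr Pl
  refine Finset.sum_congr rfl fun c' _ => ?_
  rw [if_pos]
  · rfl
  · intro j hj
    have := rk_lt x j
    omega

end II4

open II4 in
theorem prfI4 : claimI4 := by
  intro s k T R g x v hkT
  unfold HC
  rw [Finset.sum_congr rfl fun c _ => by rw [Gr_eq hkT g x v c]]
  rw [Finset.sum_const, Finset.card_univ, nsmul_eq_mul, Fintype.card_fun, Fintype.card_fin,
    Fintype.card_fin]
  unfold NN
  rw [min_eq_right hkT]
  unfold ph pg
  have hN : ((s : ℝ) + 1) ^ k ≠ 0 := by positivity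
  split_ifs with h
  · push_cast
    field_simp
  · push_cast
    ring

end Pool.Agent.Work.MP_122e00_nt.Sharp

end

section

set_option autoImplicit false

/-!
# Sharp scheme, item I5 (helper43): visible and hidden marks
-/

namespace Pool.Agent.Work.MP_122e00_nt.Sharp

open Finset Filter Topology MeasureTheory

open Two Gen

namespace II5

theorem rk_left {T l : ℕ} (x : Fin T → ℝ) (y : Fin l → ℝ) (h : ∀ i j, y j < x i) (i : Fin T) :
    rk (Fin.append x y) (Fin.castAdd l i) < T := by
  classical
  unfold rk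
  have hsub : (Finset.univ.filter fun i' => Fin.append x y (Fin.castAdd l i) < Fin.append x y i' ∨
      (Fin.append x y i' = Fin.append x y (Fin.castAdd l i) ∧ i' < Fin.castAdd l i)) ⊆
      (Finset.univ.erase i).map (Fin.castAddEmb l) := by
    intro i'
    refine Fin.addCases (fun i1 => ?_) (fun j => ?_) i'
    · intro hi
      rw [Finset.mem_filter, Fin.append_left, Fin.append_left] at hi
      rw [Finset.mem_map]
      refine ⟨i1, ?_, rfl⟩
      rw [Finset.mem_erase]
      refine ⟨?_, Finset.mem_univ _⟩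
      rintro rfl
      rcases hi.2 with h1 | h1
      · exact lt_irrefl _ h1
      · exact lt_irrefl _ h1.2
    · intro hi
      rw [Finset.mem_filter, Fin.append_left, Fin.append_right] at hi
      rcases hi.2 with h1 | h1
      · exact absurd (h i j) (not_lt.2 h1.le)
      · exact absurd (h i j) (by rw [h1.1]; exact lt_irrefl _)
  have hT : 0 < T := i.pos
  calc _ ≤ ((Finset.univ.erase i).map (Fin.castAddEmb l)).card := Finset.card_le_card (by
        convert hsub)
    _ = T - 1 := by
        rw [Finset.card_map, Finset.card_erase_of_mem (Finset.mem_univ i), Finset.card_univ,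
          Fintype.card_fin]
    _ < T := by omega

theorem rk_right {T l : ℕ} (x : Fin T → ℝ) (y : Fin l → ℝ) (h : ∀ i j, y j < x i) (j : Fin l) :
    T ≤ rk (Fin.append x y) (Fin.natAdd T j) := by
  classical
  unfold rk
  have hsub : (Finset.univ : Finset (Fin T)).map (Fin.castAddEmb l) ⊆
      (Finset.univ.filter fun i' => Fin.append x y (Fin.natAdd T j) < Fin.append x y i' ∨
      (Fin.append x y i' = Fin.append x y (Fin.natAdd T j) ∧ i' < Fin.natAdd T j)) := by
    intro i' hi
    rw [Finset.mem_map] at hi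
    obtain ⟨i, -, rfl⟩ := hi
    rw [Finset.mem_filter]
    refine ⟨Finset.mem_univ _, Or.inl ?_⟩
    rw [Fin.append_right]
    show y j < Fin.append x y (Fin.castAdd l i)
    rw [Fin.append_left]
    exact h i j
  calc T = ((Finset.univ : Finset (Fin T)).map (Fin.castAddEmb l)).card := by
        rw [Finset.card_map, Finset.card_univ, Fintype.card_fin]
    _ ≤ _ := Finset.card_le_card (by convert hsub)

theorem app_apply {T l : ℕ} {A : Type} (p : (Fin T → A) × (Fin l → A)) :
    Fin.appendEquiv T l p = Fin.append p.1 p.2 := rfl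

theorem plc_append {s T l : ℕ} (x : Fin T → ℝ) (y : Fin l → ℝ) (v : Fin (s + 1) → ℝ)
    (c1 : Fin T → Fin (s + 1)) (c2 : Fin l → Fin (s + 1)) :
    plc (Fin.append x y) v (Fin.append c1 c2) =
      fun q => plc y v c2 q + ∑ j, if c1 j = q then x j else 0 := by
  funext q
  unfold plc
  rw [Fin.sum_univ_add]
  simp only [Fin.append_left, Fin.append_right]
  ring

theorem Gr_append {s T l : ℕ} (g : (Fin (s + 1) → ℝ) → ℝ) (x : Fin T → ℝ) (y : Fin l → ℝ)
    (v : Fin (s + 1) → ℝ) (h : ∀ i j, y j < x i) (c1 : Fin T → Fin (s + 1))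
    (c2 : Fin l → Fin (s + 1)) :
    Gr T g (Fin.append x y) v (Fin.append c1 c2) = Pl g x (plc y v c2) := by
  classical
  unfold Gr Pl
  rw [← (Fin.appendEquiv T l).sum_comp, Fintype.sum_prod_type]
  refine Finset.sum_congr rfl fun c1' _ => ?_
  rw [Finset.sum_eq_single c2]
  · rw [if_pos]
    · simp only [app_apply, plc_append]
    · intro j hj
      refine Fin.addCases (fun i => ?_) (fun j => ?_) j hj
      · intro hh
        exact absurd (rk_left x y h i) (not_lt.2 hh)
      · intro _
        simp only [app_apply, Fin.append_right]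
  · intro c2' _ hne
    rw [if_neg]
    intro hh
    apply hne
    funext j
    have := hh (Fin.natAdd T j) (rk_right x y h j)
    simpa only [app_apply, Fin.append_right] using this
  · intro hh
    exact absurd (Finset.mem_univ _) hh

end II5

theorem prfI5 : claimI5 := by
  classical
  intro s T l R g x y v h
  have hN : NN s (T + l) T = ((s : ℝ) + 1) ^ T := by
    unfold NN
    rw [min_eq_left (Nat.le_add_right T l)]
  have hpos : (0 : ℝ) < ((s : ℝ) + 1) ^ T := by positivity
  unfold HC
  rw [hN, ← (Fin.appendEquiv T l).sum_comp, Fintype.sum_prod_type, Finset.sum_comm]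
  refine Finset.sum_congr rfl fun c2 _ => ?_
  simp only [II5.app_apply, II5.Gr_append g x y v h]
  rw [Finset.sum_const, Finset.card_univ, Fintype.card_fun, Fintype.card_fin, Fintype.card_fin,
    nsmul_eq_mul]
  push_cast
  unfold ph pg
  split_ifs with h1
  · field_simp
  · ring

end Pool.Agent.Work.MP_122e00_nt.Sharp

end

section

set_option autoImplicit false

/-!
# Sharp scheme, item I6 (helper43): measurability
-/

namespace Pool.Agent.Work.MP_122e00_nt.Sharp

open Finset Filter Topology MeasureTheory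

open scoped ENNReal

open Two Gen

namespace II6

theorem Qo_cont (k : ℕ) : ∀ (m : ℕ), Continuous (Qo k m) := by
  induction k with
  | zero =>
    intro m
    have : Qo 0 m = fun _ => if m = 0 then 1 else 0 := by
      funext x
      rw [Qo]
    rw [this]
    exact continuous_const
  | succ k ih =>
    intro m
    have ht : Continuous (fun x : Fin (k + 1) → ℝ => Fin.tail x) :=
      continuous_pi fun i => continuous_apply i.succ
    have : Qo (k + 1) m = fun x => ∑ b ∈ Finset.range m,
        ((m - 1).choose b : ℝ) * x 0 ^ b * Qo k (m - 1 - b) (Fin.tail x) := by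
      funext x
      rw [Qo]
    rw [this]
    refine continuous_finsetSum _ fun b _ => ?_
    exact (continuous_const.mul ((continuous_apply 0).pow b)).mul ((ih _).comp ht)

theorem part_meas {X : Type} [MeasurableSpace X] {s k : ℕ} (c : Fin k → Fin (s + 1))
    (q : Fin (s + 1)) {f : X → Fin k → ℝ} (hf : Measurable f) :
    Measurable (fun p : X => ∑ j, if c j = q then f p j else 0) := by
  refine Finset.measurable_sum _ fun j _ => ?_
  split_ifs
  · exact (measurable_pi_apply j).comp hf
  · exact measurable_const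

theorem plc_meas {s k : ℕ} (c : Fin k → Fin (s + 1)) :
    Measurable (fun p : (Fin k → ℝ) × (Fin (s + 1) → ℝ) => plc p.1 p.2 c) := by
  rw [measurable_pi_iff]
  intro q
  exact ((measurable_pi_apply q).comp measurable_snd).add (part_meas c q measurable_fst)

theorem rk_meas (k : ℕ) (j : Fin k) : Measurable (fun x : Fin k → ℝ => rk x j) := by
  classical
  unfold rk
  simp only [Finset.card_filter]
  refine Finset.measurable_sum _ fun i _ => ?_
  refine Measurable.ite ?_ measurable_const measurable_const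
  refine MeasurableSet.union ?_ (MeasurableSet.inter ?_ ?_)
  · exact measurableSet_lt (measurable_pi_apply j) (measurable_pi_apply i)
  · exact measurableSet_eq_fun (measurable_pi_apply i) (measurable_pi_apply j)
  · exact MeasurableSet.const _

theorem Gr_meas {s k : ℕ} (T : ℕ) {g : (Fin (s + 1) → ℝ) → ℝ} (hg : Measurable g)
    (c : Fin k → Fin (s + 1)) :
    Measurable (fun p : (Fin k → ℝ) × (Fin (s + 1) → ℝ) => Gr T g p.1 p.2 c) := by
  classical
  unfold Gr
  refine Finset.measurable_sum _ fun c' _ => ?_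
  refine Measurable.ite ?_ (hg.comp (plc_meas c')) measurable_const
  have : {p : (Fin k → ℝ) × (Fin (s + 1) → ℝ) | ∀ j, T ≤ rk p.1 j → c' j = c j} =
      ⋂ j, ({p : (Fin k → ℝ) × (Fin (s + 1) → ℝ) | T ≤ rk p.1 j}ᶜ ∪
        {_p : (Fin k → ℝ) × (Fin (s + 1) → ℝ) | c' j = c j}) := by
    ext p
    simp only [Set.mem_ofPred_eq, Set.mem_iInter, Set.mem_union, Set.mem_compl_iff]
    exact forall_congr' fun j => by tauto
  rw [this]
  refine MeasurableSet.iInter fun j => MeasurableSet.union (MeasurableSet.compl ?_)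
    (MeasurableSet.const _)
  exact ((rk_meas k j).comp measurable_fst) (measurableSet_Ici (a := T))

theorem ph_meas (R N : ℝ) : Measurable (ph R N) := by
  unfold ph
  refine Measurable.ite (measurableSet_lt measurable_const measurable_id) ?_ measurable_const
  exact ((measurable_const.sub measurable_id).pow_const 2).div
    (measurable_const.mul measurable_id)

theorem pg_meas (R N : ℝ) : Measurable (pg R N) := by
  unfold pg
  refine Measurable.ite (measurableSet_lt measurable_const measurable_id) ?_ measurable_const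
  exact ((measurable_const.sub measurable_id).pow_const 2).div measurable_id

end II6

theorem prfI6 : claimI6 := by
  classical
  intro s k T R g hg
  refine ⟨?_, ?_, II6.pg_meas R, ?_⟩
  · unfold HC
    refine Finset.measurable_sum _ fun c _ => ?_
    exact (II6.ph_meas R _).comp (II6.Gr_meas T hg c)
  · unfold Pl
    refine Finset.measurable_sum _ fun c _ => ?_
    exact hg.comp (II6.plc_meas c)
  · intro l t
    unfold muL
    refine Finset.measurable_sum _ fun c _ => ?_
    set S : Set (((Fin (s + 1) → ℝ) × ℝ) × (Fin l → ℝ)) :=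
      {q | (∀ i, 0 < q.2 i ∧ q.2 i < q.1.2) ∧
        ∀ r, (∑ i, if c i = r then q.2 i else 0) < q.1.1 r} with hS
    have hSm : MeasurableSet S := by
      have : S = (⋂ i, {q : ((Fin (s + 1) → ℝ) × ℝ) × (Fin l → ℝ) |
          0 < q.2 i ∧ q.2 i < q.1.2}) ∩ ⋂ r, {q : ((Fin (s + 1) → ℝ) × ℝ) × (Fin l → ℝ) |
          (∑ i, if c i = r then q.2 i else 0) < q.1.1 r} := by
        ext q
        simp [hS]
      rw [this]
      refine MeasurableSet.inter (MeasurableSet.iInter fun i => MeasurableSet.inter ?_ ?_)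
        (MeasurableSet.iInter fun r => ?_)
      · exact measurableSet_lt measurable_const ((measurable_pi_apply i).comp measurable_snd)
      · exact measurableSet_lt ((measurable_pi_apply i).comp measurable_snd)
          (measurable_snd.comp measurable_fst)
      · exact measurableSet_lt (II6.part_meas c r measurable_snd)
          ((measurable_pi_apply r).comp (measurable_fst.comp measurable_fst))
    have hf : Measurable (S.indicator fun q => ENNReal.ofReal (Qo l t q.2)) :=
      (((II6.Qo_cont l t).measurable.comp measurable_snd).ennreal_ofReal).indicator hSm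
    have := Measurable.lintegral_prod_right' (ν := (volume : Measure (Fin l → ℝ))) hf
    convert this using 2 with p
    rw [← lintegral_indicator]
    · rfl
    · exact measurable_prodMk_left hSm

end Pool.Agent.Work.MP_122e00_nt.Sharp

end

section

set_option autoImplicit false

/-!
# I7: at most `T` marks, sorted (helper69)
-/

namespace Pool.Agent.Work.MP_122e00_nt.Sharp

open Finset Filter Topology MeasureTheory

open scoped ENNReal ArithmeticFunction.vonMangoldt ArithmeticFunction.zeta

open Two Gen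

namespace II7

/-- the integral over `Fin k ⊕ Fin s → ℝ` as an iterated integral -/
theorem split {k s : ℕ} (G : (Fin k ⊕ Fin s → ℝ) → ℝ≥0∞) (hG : Measurable G) :
    ∫⁻ y, G y = ∫⁻ x : Fin k → ℝ, ∫⁻ w : Fin s → ℝ, G (Sum.elim x w) := by
  have h := volume_measurePreserving_sumPiEquivProdPi_symm (fun _ : Fin k ⊕ Fin s => ℝ)
  rw [← h.lintegral_comp hG]
  rw [show (volume : Measure ((Fin k → ℝ) × (Fin s → ℝ))) = volume.prod volume from rfl]
  rw [lintegral_prod]
  swap
  · exact (hG.comp (MeasurableEquiv.measurable _)).aemeasurable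
  refine lintegral_congr fun x => lintegral_congr fun w => ?_
  have : ((MeasurableEquiv.sumPiEquivProdPi fun _ : Fin k ⊕ Fin s => ℝ).symm (x, w)) =
      Sum.elim x w := by
    funext i
    rcases i with i | i <;> rfl
  rw [this]

theorem elim_meas (k s : ℕ) :
    Measurable (fun p : (Fin k → ℝ) × (Fin s → ℝ) => (Sum.elim p.1 p.2 : Fin k ⊕ Fin s → ℝ)) := by
  refine measurable_pi_lambda _ fun i => ?_
  rcases i with i | i
  · exact (measurable_pi_apply i).comp measurable_fst
  · exact (measurable_pi_apply i).comp measurable_snd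

theorem xs_meas (k s : ℕ) : Measurable (xs : (Fin k ⊕ Fin s → ℝ) → Fin k → ℝ) :=
  measurable_pi_lambda _ fun i => measurable_pi_apply _

theorem vs_meas (k s : ℕ) : Measurable (vs : (Fin k ⊕ Fin s → ℝ) → Fin (s + 1) → ℝ) := by
  refine measurable_pi_lambda _ fun i => ?_
  refine Fin.lastCases ?_ (fun i => ?_) i
  · have : (fun y : Fin k ⊕ Fin s → ℝ => vs y (Fin.last s)) = fun y => 1 - ∑ i, y i := by
      funext y
      simp [vs]
    rw [this]
    exact measurable_const.sub (Finset.measurable_sum _ fun i _ => measurable_pi_apply i)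
  · have : (fun y : Fin k ⊕ Fin s → ℝ => vs y i.castSucc) = fun y => y (Sum.inr i) := by
      funext y
      simp [vs]
    rw [this]
    exact measurable_pi_apply _

theorem Sim_meas (k s : ℕ) : MeasurableSet (Sim k s) := by
  have h1 : Sim k s = (⋂ i, {y : Fin k ⊕ Fin s → ℝ | 0 < y i}) ∩ {y | ∑ i, y i < 1} := by
    ext y
    simp [Sim]
  rw [h1]
  refine MeasurableSet.inter (MeasurableSet.iInter fun i => ?_) ?_
  · exact measurableSet_lt measurable_const (measurable_pi_apply i)
  · exact measurableSet_lt (Finset.measurable_sum _ fun i _ => measurable_pi_apply i)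
      measurable_const

theorem Srt_meas (k : ℕ) : MeasurableSet (Srt k) := by
  have h1 : Srt k = ⋂ i : Fin k, ⋂ j : Fin k, {x : Fin k → ℝ | i < j → x j < x i} := by
    ext x
    simp only [Srt, Set.mem_ofPred_eq, Set.mem_iInter]
    exact ⟨fun h i j hij => h hij, fun h i j hij => h i j hij⟩
  rw [h1]
  refine MeasurableSet.iInter fun i => MeasurableSet.iInter fun j => ?_
  by_cases hij : i < j
  · simp only [hij, forall_const]
    exact measurableSet_lt (measurable_pi_apply j) (measurable_pi_apply i)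
  · simp [hij]

theorem HC_nonneg {s k : ℕ} (T : ℕ) {R : ℝ} (hR : 1 ≤ R) (g : (Fin (s + 1) → ℝ) → ℝ)
    (x : Fin k → ℝ) (v : Fin (s + 1) → ℝ) : 0 ≤ HC T R g x v := by
  unfold HC
  refine Finset.sum_nonneg fun c _ => ?_
  have hN : 0 ≤ NN s k T := by
    unfold NN
    positivity
  unfold ph
  split_ifs with h
  · positivity
  · linarith

theorem xs_elim {k s : ℕ} (x : Fin k → ℝ) (w : Fin s → ℝ) : xs (Sum.elim x w) = x := rfl

theorem vs_perm {k s : ℕ} (x : Fin k → ℝ) (w : Fin s → ℝ) (σ : Equiv.Perm (Fin k)) :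
    vs (Sum.elim (fun i => x (σ i)) w) = vs (Sum.elim x w) := by
  unfold vs
  simp only [Fintype.sum_sum_type, Sum.elim_inl, Sum.elim_inr]
  rw [Equiv.sum_comp σ x]

theorem mem_Sim {k s : ℕ} (x : Fin k → ℝ) (w : Fin s → ℝ) :
    (Sum.elim x w : Fin k ⊕ Fin s → ℝ) ∈ Sim k s ↔
      ((∀ i, 0 < x i) ∧ (∀ i, 0 < w i)) ∧ ∑ i, x i + ∑ i, w i < 1 := by
  unfold Sim
  simp only [Set.mem_ofPred_eq, Fintype.sum_sum_type, Sum.forall, Sum.elim_inl, Sum.elim_inr]

theorem mem_Sim_perm {k s : ℕ} (x : Fin k → ℝ) (w : Fin s → ℝ) (σ : Equiv.Perm (Fin k)) :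
    (Sum.elim (fun i => x (σ i)) w : Fin k ⊕ Fin s → ℝ) ∈ Sim k s ↔
      (Sum.elim x w : Fin k ⊕ Fin s → ℝ) ∈ Sim k s := by
  rw [mem_Sim, mem_Sim, Equiv.sum_comp σ x]
  constructor
  · rintro ⟨⟨h1, h2⟩, h3⟩
    refine ⟨⟨fun i => ?_, h2⟩, h3⟩
    have := h1 (σ.symm i)
    simpa using this
  · rintro ⟨⟨h1, h2⟩, h3⟩
    exact ⟨⟨fun i => h1 _, h2⟩, h3⟩

end II7

open II7 in
theorem prfI7 : claimQ1 → claimQ3 → claimI2 → claimI3 → claimI4 → claimI6 → claimI7 := by
  intro hQ1 hQ3 hI2 hI3 hI4 hI6 s k m T R g hg hkT hR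
  have hHC := (hI6 s k T R g hg).1
  have hPl := (hI6 s k T R g hg).2.1
  have hpg := (hI6 s k T R g hg).2.2.1
  have hxv : Measurable (fun y : Fin k ⊕ Fin s → ℝ => (xs y, vs y)) :=
    (xs_meas k s).prodMk (vs_meas k s)
  have hQoM : Measurable (Qo k m) := (hQ3.2.1 k m).1.measurable
  have hQsM : Measurable (Qs k m) := (hQ3.2.1 k m).2.measurable
  have hHCx := hHC.comp hxv
  have hPlx := hPl.comp hxv
  simp only [Function.comp_def] at hHCx hPlx
  obtain ⟨H1, hH1⟩ : ∃ H1 : (Fin k ⊕ Fin s → ℝ) → ℝ≥0∞, H1 = fun y =>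
    ENNReal.ofReal (Qo k m (xs y) * HC T R g (xs y) (vs y)) := ⟨_, rfl⟩
  obtain ⟨H2, hH2⟩ : ∃ H2 : (Fin k ⊕ Fin s → ℝ) → ℝ≥0∞, H2 = fun y =>
    ENNReal.ofReal (Qs k m (xs y) * pg R (((s : ℝ) + 1) ^ k) (Pl g (xs y) (vs y))) := ⟨_, rfl⟩
  have hH1m : Measurable H1 := by
    rw [hH1]
    exact ENNReal.measurable_ofReal.comp ((hQoM.comp (xs_meas k s)).mul hHCx)
  have hH2m : Measurable H2 := by
    rw [hH2]
    exact ENNReal.measurable_ofReal.comp ((hQsM.comp (xs_meas k s)).mul ((hpg _).comp hPlx))
  have hS1m : Measurable ((Sim k s).indicator H1) := hH1m.indicator (Sim_meas k s)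
  have hS3 : MeasurableSet (Sim k s ∩ {y | xs y ∈ Srt k}) :=
    (Sim_meas k s).inter ((xs_meas k s) (Srt_meas k))
  have hS2m : Measurable ((Sim k s ∩ {y | xs y ∈ Srt k}).indicator H2) := hH2m.indicator hS3
  have hL : IL s m T R g k = ∫⁻ x : Fin k → ℝ, ∫⁻ w : Fin s → ℝ,
      (Sim k s).indicator H1 (Sum.elim x w) := by
    have : IL s m T R g k = ∫⁻ y in Sim k s, H1 y := by
      rw [hH1]
      rfl
    rw [this, ← lintegral_indicator (Sim_meas k s)]
    exact split _ hS1m
  have hRR : ∫⁻ y in Sim k s ∩ {y | xs y ∈ Srt k}, H2 y = ∫⁻ x : Fin k → ℝ, ∫⁻ w : Fin s → ℝ,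
      (Sim k s ∩ {y | xs y ∈ Srt k}).indicator H2 (Sum.elim x w) := by
    rw [← lintegral_indicator hS3]
    exact split _ hS2m
  have hfm : Measurable (fun x : Fin k → ℝ => ∫⁻ w : Fin s → ℝ,
      (Sim k s).indicator H1 (Sum.elim x w)) :=
    (hS1m.comp (elim_meas k s)).lintegral_prod_right'
  have hgoal : ∫⁻ y in Sim k s ∩ {y | xs y ∈ Srt k},
      ENNReal.ofReal (Qs k m (xs y) * pg R (((s : ℝ) + 1) ^ k) (Pl g (xs y) (vs y))) =
      ∫⁻ y in Sim k s ∩ {y | xs y ∈ Srt k}, H2 y := by
    rw [hH2]
  rw [hgoal, hL, hRR, hI2 k _ hfm, ← lintegral_indicator (Srt_meas k)]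
  refine lintegral_congr fun x => ?_
  by_cases hx : x ∈ Srt k
  · rw [Set.indicator_of_mem hx]
    have hinj : Function.Injective x := StrictAnti.injective hx
    rw [← lintegral_finset_sum]
    swap
    · intro σ _
      exact hS1m.comp ((elim_meas k s).comp (measurable_const.prodMk measurable_id))
    refine lintegral_congr fun w => ?_
    by_cases hs : (Sum.elim x w : Fin k ⊕ Fin s → ℝ) ∈ Sim k s
    · have hx' : (Sum.elim x w : Fin k ⊕ Fin s → ℝ) ∈ {y | xs y ∈ Srt k} := hx
      have hmem : (Sum.elim x w : Fin k ⊕ Fin s → ℝ) ∈ Sim k s ∩ {y | xs y ∈ Srt k} :=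
        Set.mem_inter hs hx'
      rw [Set.indicator_of_mem hmem]
      have hpos := ((mem_Sim x w).1 hs).1.1
      have e1 : ∀ σ : Equiv.Perm (Fin k),
          (Sim k s).indicator H1 (Sum.elim (fun i => x (σ i)) w) =
          ENNReal.ofReal (Qo k m (fun i => x (σ i)) * HC T R g x (vs (Sum.elim x w))) := by
        intro σ
        rw [Set.indicator_of_mem ((mem_Sim_perm x w σ).2 hs)]
        rw [hH1]
        show ENNReal.ofReal (Qo k m (fun i => x (σ i)) * HC T R g (fun i => x (σ i))
          (vs (Sum.elim (fun i => x (σ i)) w))) = _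
        rw [vs_perm, hI3 s k T R g x _ σ hinj]
      rw [Finset.sum_congr rfl fun σ _ => e1 σ]
      have hHC0 : 0 ≤ HC T R g x (vs (Sum.elim x w)) := HC_nonneg T hR g _ _
      rw [← ENNReal.ofReal_sum_of_nonneg]
      swap
      · intro σ _
        exact mul_nonneg (hQ3.1 k m _ fun i => (hpos _).le).1 hHC0
      rw [← Finset.sum_mul, hQ1 k m x, hI4 s k T R g x _ hkT, hH2]
      simp only [xs_elim]
    · have hs' : (Sum.elim x w : Fin k ⊕ Fin s → ℝ) ∉ Sim k s ∩ {y | xs y ∈ Srt k} :=
        fun h => hs h.1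
      rw [Set.indicator_of_notMem hs']
      refine Finset.sum_eq_zero fun σ _ => ?_
      exact Set.indicator_of_notMem (fun h => hs ((mem_Sim_perm x w σ).1 h)) _
  · rw [Set.indicator_of_notMem hx]
    have : ∀ w : Fin s → ℝ, (Sim k s ∩ {y | xs y ∈ Srt k}).indicator H2 (Sum.elim x w) = 0 := by
      intro w
      exact Set.indicator_of_notMem (fun h => hx h.2) _
    simp only [this]
    exact lintegral_zero.symm

end Pool.Agent.Work.MP_122e00_nt.Sharp

end

end

section

/-! Bundle of small proof modules (one section per former module). -/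

section

set_option autoImplicit false

/-!
# The certificate: the classes
-/

namespace Pool.Agent.Work.MP_122e00_nt.Sharp.Cx

open Finset MeasureTheory

open scoped ENNReal

open Gen

noncomputable section

/-! ### the classes are valid -/

theorem inj_of_nodup {A : Type} (l : List A) (f : A → ℕ) (h : (l.map f).Nodup) :
    ∀ a ∈ l, ∀ b ∈ l, f a = f b → a = b := fun a ha b hb hab =>
  List.inj_on_of_nodup_map h ha hb hab

theorem mem_list (K D : ℕ) (β : Fin K → ℕ) :
    β ∈ Finset.Nat.antidiagonalTuple K D ↔ β ∈ List.Nat.antidiagonalTuple K D := by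
  rw [Finset.Nat.mem_antidiagonalTuple, List.Nat.mem_antidiagonalTuple]

/-- The Boolean test for the slots. -/
def tst (ws : List ℕ) (wS mx K D : ℕ) (s : ℕ) : Bool :=
  let l := ((List.Nat.antidiagonalTuple (K + 1) D).filter
    fun β => decide (s = 0 → β (Fin.last K) = 0)).map (fun β => sl ws wS K β)
  l.Nodup && l.all (fun x => Nat.ble x mx)

theorem tst_spec (ws : List ℕ) (wS mx K D s : ℕ) (h : tst ws wS mx K D s = true) :
    (∀ β ∈ Finset.Nat.antidiagonalTuple (K + 1) D, (s = 0 → β (Fin.last K) = 0) →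
      sl ws wS K β ≤ mx) ∧
    (∀ β ∈ Finset.Nat.antidiagonalTuple (K + 1) D, ∀ β' ∈ Finset.Nat.antidiagonalTuple (K + 1) D,
      (s = 0 → β (Fin.last K) = 0) → (s = 0 → β' (Fin.last K) = 0) →
      sl ws wS K β = sl ws wS K β' → β = β') := by
  unfold tst at h
  simp only [Bool.and_eq_true, decide_eq_true_eq, List.all_eq_true, Nat.ble_eq] at h
  obtain ⟨h1, h2⟩ := h
  constructor
  · intro β hβ h0
    refine h2 _ (List.mem_map_of_mem ?_)
    rw [List.mem_filter]
    exact ⟨(mem_list _ _ _).1 hβ, decide_eq_true h0⟩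
  · intro β hβ β' hβ' h0 h0' he
    refine inj_of_nodup _ _ h1 β ?_ β' ?_ he
    · rw [List.mem_filter]
      exact ⟨(mem_list _ _ _).1 hβ, decide_eq_true h0⟩
    · rw [List.mem_filter]
      exact ⟨(mem_list _ _ _).1 hβ', decide_eq_true h0'⟩

theorem t1 : tst [0] 0 0 1 9 0 = true := by decide +kernel

theorem t2 : tst [0, 1] 0 8 2 8 0 = true := by decide +kernel

theorem t3 : tst [0, 1, 8] 0 56 3 7 0 = true := by decide +kernel

theorem t40 (s : ℕ) (hs : s ≠ 0) : tst [0, 3, 21, 100] 110 660 4 6 s = true := by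
  have h : tst [0, 3, 21, 100] 110 660 4 6 1 = true := by decide +kernel
  have h2 : tst [0, 3, 21, 100] 110 660 4 6 s = tst [0, 3, 21, 100] 110 660 4 6 1 := by
    unfold tst
    simp [hs]
  rw [h2, h]

theorem t43 : tst [0, 1, 22, 28] 0 168 4 6 0 = true := by decide +kernel

theorem us_le3 (a b c : ℕ) (ha : a ≤ 1) (hb : b ≤ 1) (hc : c ≤ 1) (q : ℕ) :
    nthN [a, b, c] q ≤ 1 := by
  match q with
  | 0 => exact ha
  | 1 => exact hb
  | 2 => exact hc
  | 3 => exact Nat.zero_le _
  | n + 4 =>
    have : ∀ n : ℕ, nthN [] n = 0 := by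
      intro n
      induction n with
      | zero => rfl
      | succ n ih => exact ih
    show nthN [] (n + 1) ≤ 1
    rw [this]
    exact Nat.zero_le _

theorem clv1 : Clv 1 cl1 := by
  obtain ⟨h1, h2⟩ := tst_spec [0] 0 0 1 9 0 t1
  exact ⟨rfl, le_rfl, rfl, rfl, us_le3 _ _ _ (by norm_num) (by norm_num) (by norm_num),
    by decide, by decide, by decide, h1, h2⟩

theorem clv2 : Clv 2 cl2 := by
  obtain ⟨h1, h2⟩ := tst_spec [0, 1] 0 8 2 8 0 t2
  exact ⟨rfl, by norm_num, rfl, rfl, us_le3 _ _ _ (by norm_num) (by norm_num) (by norm_num),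
    by decide, by decide, by decide, h1, h2⟩

theorem clv3 : Clv 3 cl3 := by
  obtain ⟨h1, h2⟩ := tst_spec [0, 1, 8] 0 56 3 7 0 t3
  exact ⟨rfl, by norm_num, rfl, rfl, us_le3 _ _ _ (by norm_num) (by norm_num) (by norm_num),
    by decide, by decide, by decide, h1, h2⟩

theorem clv40 : Clv 4 cl40 := by
  obtain ⟨h1, h2⟩ := tst_spec [0, 3, 21, 100] 110 660 4 6 3 (t40 3 (by norm_num))
  exact ⟨rfl, by norm_num, rfl, rfl, us_le3 _ _ _ (by norm_num) (by norm_num) (by norm_num),
    by decide, by decide, by decide, h1, h2⟩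

theorem clv41 : Clv 4 cl41 := by
  obtain ⟨h1, h2⟩ := tst_spec [0, 3, 21, 100] 110 660 4 6 2 (t40 2 (by norm_num))
  exact ⟨rfl, by norm_num, rfl, rfl, us_le3 _ _ _ (by norm_num) (by norm_num) (by norm_num),
    by decide, by decide, by decide, h1, h2⟩

theorem clv42 : Clv 4 cl42 := by
  obtain ⟨h1, h2⟩ := tst_spec [0, 3, 21, 100] 110 660 4 6 1 (t40 1 (by norm_num))
  exact ⟨rfl, by norm_num, rfl, rfl, us_le3 _ _ _ (by norm_num) (by norm_num) (by norm_num),
    by decide, by decide, by decide, h1, h2⟩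

theorem clv43 : Clv 4 cl43 := by
  obtain ⟨h1, h2⟩ := tst_spec [0, 1, 22, 28] 0 168 4 6 0 t43
  exact ⟨rfl, by norm_num, rfl, rfl, us_le3 _ _ _ (by norm_num) (by norm_num) (by norm_num),
    by decide, by decide, by decide, h1, h2⟩

end

end Pool.Agent.Work.MP_122e00_nt.Sharp.Cx

end

section

set_option autoImplicit false

/-!
# Item C8: the packed linear form
-/

namespace Pool.Agent.Work.MP_122e00_nt.Sharp.Cx

namespace IC8

theorem dot_cons (a : ℕ) (p w : List ℕ) : dot (a :: p) w = a * hd w + dot p (tl w) := rfl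

theorem dot_nil (w : List ℕ) : dot [] w = 0 := rfl

theorem hd_cons (a : ℕ) (p : List ℕ) : hd (a :: p) = a := rfl

theorem tl_cons (a : ℕ) (p : List ℕ) : tl (a :: p) = p := rfl

theorem nthN_zero (a : ℕ) (p : List ℕ) : nthN (a :: p) 0 = a := rfl

theorem nthN_succ (a : ℕ) (p : List ℕ) (i : ℕ) : nthN (a :: p) (i + 1) = nthN p i := rfl

theorem wl_nil (bits wS : ℕ) (us : List ℕ) :
    wl bits wS us [] = mp (fun u => u * 2 ^ (bits * wS)) us := rfl

theorem wl_cons (bits wS : ℕ) (us : List ℕ) (w : ℕ) (ws : List ℕ) :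
    wl bits wS us (w :: ws) = 2 ^ (bits * w) :: wl bits wS us ws := rfl

theorem mp_nil (f : ℕ → ℕ) : mp f [] = [] := rfl

theorem mp_cons (f : ℕ → ℕ) (a : ℕ) (l : List ℕ) : mp f (a :: l) = f a :: mp f l := rfl

end IC8

open IC8 in
/-- C8. -/
theorem prfC8 : claimC8 := by
  intro p ws
  induction ws generalizing p with
  | nil =>
    intro us wS bits hus hp
    obtain ⟨u, v, w, rfl⟩ : ∃ u v w, us = [u, v, w] := List.length_eq_three.mp hus
    obtain ⟨a, b, c, rfl⟩ : ∃ a b c, p = [a, b, c] := List.length_eq_three.mp (by simpa using hp)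
    rw [wl_nil]
    simp only [mp_cons, mp_nil, dot_cons, dot_nil, hd_cons, tl_cons, List.length_nil,
      Finset.range_zero, Finset.sum_empty, Finset.sum_range_succ, zero_add]
    have e1 : nthN [u, v, w] 0 = u := rfl
    have e2 : nthN [u, v, w] 1 = v := rfl
    have e3 : nthN [u, v, w] 2 = w := rfl
    have e4 : nthN [a, b, c] 0 = a := rfl
    have e5 : nthN [a, b, c] 1 = b := rfl
    have e6 : nthN [a, b, c] 2 = c := rfl
    rw [e1, e2, e3, e4, e5, e6]
    ring
  | cons w ws ih =>
    intro us wS bits hus hp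
    match p, hp with
    | a :: p, hp =>
      have hp' : p.length = ws.length + 3 := by
        simp only [List.length_cons] at hp
        omega
      have h := ih p us wS bits hus hp'
      rw [wl_cons, dot_cons, hd_cons, tl_cons, h, List.length_cons,
        Finset.sum_range_succ' (fun j => nthN (a :: p) j * 2 ^ (bits * nthN (w :: ws) j)) ws.length]
      have e1 : ∀ q, nthN (a :: p) (ws.length + 1 + q) = nthN p (ws.length + q) := by
        intro q
        rw [show ws.length + 1 + q = ws.length + q + 1 by ring]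
        exact nthN_succ _ _ _
      simp only [e1, nthN_succ, nthN_zero]
      ring

end Pool.Agent.Work.MP_122e00_nt.Sharp.Cx

end

section

set_option autoImplicit false

/-!
# C9: continuity and positivity
-/

namespace Pool.Agent.Work.MP_122e00_nt.Sharp.Cx

open Finset MeasureTheory

namespace IC9

theorem nth_mem (l : List (List ℕ)) : ∀ i, i < l.length → nth l i ∈ l := by
  induction l with
  | nil => intro i hi; simp at hi
  | cons a l ih =>
    intro i hi
    rcases i with _ | i
    · have h : nth (a :: l) 0 = a := rfl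
      rw [h]
      exact List.mem_cons_self
    · have h : nth (a :: l) (i + 1) = nth l i := rfl
      rw [h]
      exact List.mem_cons_of_mem _ (ih i (by simpa using hi))

theorem sum_nthN (p : List ℕ) : ∑ i ∈ range p.length, nthN p i = sm p := by
  induction p with
  | nil => rfl
  | cons a p ih =>
    have h1 : sm (a :: p) = a + sm p := rfl
    have h2 : nthN (a :: p) 0 = a := rfl
    have h3 : ∀ i, nthN (a :: p) (i + 1) = nthN p i := fun _ => rfl
    rw [List.length_cons, Finset.sum_range_succ', h1, ← ih, h2, add_comm]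
    congr 1

theorem pt_nonneg (N : ℕ) (p : List ℕ) (i : Fin N) : 0 ≤ pt N p i := by
  unfold pt
  positivity

theorem pt_sum (N : ℕ) (p : List ℕ) (h : p.length = N) (h0 : 0 < sm p) : ∑ i, pt N p i = 1 := by
  unfold pt
  rw [← Finset.sum_div]
  have h1 : ∑ i : Fin N, (nthN p i.val : ℝ) = (sm p : ℝ) := by
    rw [Fin.sum_univ_eq_sum_range (fun i => (nthN p i : ℝ)) N, ← sum_nthN p, h]
    push_cast
    rfl
  rw [h1, div_self]
  exact_mod_cast h0.ne'

theorem cont_vr (k : ℕ) (c : Cl) (i : Fin (k + 1)) : Continuous (fun p => vr k c p i) := by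
  unfold vr
  by_cases h : i.val < k
  · simp only [h, if_true]
    exact continuous_apply _
  · simp only [h, if_false]
    exact continuous_finsetSum _ fun q _ => continuous_const.mul (continuous_apply _)

theorem cont_dpoly (k : ℕ) (c : Cl) : Continuous (dpoly k c) := by
  unfold dpoly
  refine continuous_const.mul (continuous_finsetSum _ fun β _ => ?_)
  refine continuous_const.mul (continuous_finsetProd _ fun i _ => ?_)
  exact ((cont_vr k c i).pow _).div_const _

theorem cont_bar (n : ℕ) (S : List (List ℕ)) : Continuous (Chamber.bar (pts n S)) := by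
  unfold Chamber.bar
  refine Continuous.add (continuous_finsetSum _ fun i _ => ?_) ?_
  · exact (continuous_apply i).smul continuous_const
  · exact (continuous_const.sub (continuous_finsetSum _ fun i _ => continuous_apply i)).smul
      continuous_const

theorem cont_lf (n : ℕ) (a : ℕ → ℝ) : Continuous (lf n a) := by
  unfold lf
  refine Continuous.add (continuous_finsetSum _ fun i _ => ?_) ?_
  · exact (continuous_apply i).mul continuous_const
  · exact (continuous_const.sub (continuous_finsetSum _ fun i _ => continuous_apply i)).mul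
      continuous_const

theorem compact_T (n : ℕ) : IsCompact (Chamber.T (Fin n)) := by
  have hcl : IsClosed (Chamber.T (Fin n)) := by
    unfold Chamber.T
    refine IsClosed.inter (s₁ := {y : Fin n → ℝ | ∀ i, 0 ≤ y i})
      (s₂ := {y : Fin n → ℝ | ∑ i, y i ≤ 1}) ?_ ?_
    · rw [show {y : Fin n → ℝ | ∀ i, 0 ≤ y i} = ⋂ i, {y | 0 ≤ y i} by ext; simp]
      exact isClosed_iInter fun i => isClosed_le continuous_const (continuous_apply i)
    · exact isClosed_le (continuous_finsetSum _ fun i _ => continuous_apply i) continuous_const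
  refine (isCompact_Icc (a := (fun _ => 0 : Fin n → ℝ)) (b := fun _ => 1)).of_isClosed_subset hcl ?_
  rintro y ⟨h1, h2⟩
  refine ⟨fun i => h1 i, fun i => ?_⟩
  exact (Finset.single_le_sum (f := y) (fun j _ => h1 j) (Finset.mem_univ i)).trans h2

theorem vr_nonneg (k : ℕ) (c : Cl) (p : Fin (k + 3) → ℝ) (hp : ∀ i, 0 ≤ p i) (i : Fin (k + 1)) :
    0 ≤ vr k c p i := by
  unfold vr
  split_ifs
  · exact hp _
  · exact Finset.sum_nonneg fun q _ => mul_nonneg (Nat.cast_nonneg _) (hp _)

theorem dpoly_nonneg (k : ℕ) (c : Cl) (p : Fin (k + 3) → ℝ) (hp : ∀ i, 0 ≤ p i) :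
    0 ≤ dpoly k c p := by
  unfold dpoly
  refine mul_nonneg (by positivity) (Finset.sum_nonneg fun β _ => ?_)
  refine mul_nonneg (Nat.cast_nonneg _) (Finset.prod_nonneg fun i _ => ?_)
  exact div_nonneg (pow_nonneg (vr_nonneg k c p hp i) _) (Nat.cast_nonneg _)

theorem lf_bd (n : ℕ) (a : ℕ → ℝ) (u v : ℝ) (y : Fin n → ℝ)
    (ha : ∀ i, i ≤ n → u ≤ a i ∧ a i ≤ v) (hy : y ∈ Chamber.T (Fin n)) :
    u ≤ lf n a y ∧ lf n a y ≤ v := by
  obtain ⟨h1, h2⟩ := hy
  unfold lf
  constructor
  · have e1 : ∑ i, y i * u ≤ ∑ i, y i * a i.val :=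
      Finset.sum_le_sum fun i _ => mul_le_mul_of_nonneg_left (ha _ i.2.le).1 (h1 i)
    have e2 : (1 - ∑ i, y i) * u ≤ (1 - ∑ i, y i) * a n :=
      mul_le_mul_of_nonneg_left (ha _ le_rfl).1 (by linarith)
    rw [← Finset.sum_mul] at e1
    linarith
  · have e1 : ∑ i, y i * a i.val ≤ ∑ i, y i * v :=
      Finset.sum_le_sum fun i _ => mul_le_mul_of_nonneg_left (ha _ i.2.le).2 (h1 i)
    have e2 : (1 - ∑ i, y i) * a n ≤ (1 - ∑ i, y i) * v :=
      mul_le_mul_of_nonneg_left (ha _ le_rfl).2 (by linarith)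
    rw [← Finset.sum_mul] at e1
    linarith

theorem bar_pts (k : ℕ) (S : List (List ℕ)) (y : Fin (k + 2) → ℝ) (hS : Sv k S)
    (hy : y ∈ Chamber.T (Fin (k + 2))) :
    (∀ i, 0 ≤ Chamber.bar (pts (k + 2) S) y i) ∧
      ∑ i, Chamber.bar (pts (k + 2) S) y i = 1 := by
  obtain ⟨h1, h2⟩ := hy
  have hb : ∀ i, Chamber.bar (pts (k + 2) S) y i =
      ∑ j, y j * pt (k + 2 + 1) (nth S j.val) i +
        (1 - ∑ j, y j) * pt (k + 2 + 1) (nth S (k + 2)) i := by
    intro i
    unfold Chamber.bar
    rw [Pi.add_apply, Finset.sum_apply]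
    rfl
  have hs : ∀ v, v < k + 3 → ∑ i, pt (k + 2 + 1) (nth S v) i = 1 := by
    intro v hv
    obtain ⟨h3, h4⟩ := hS.2 (nth S v) (nth_mem S v (by rw [hS.1]; exact hv))
    exact pt_sum _ _ h3 h4
  constructor
  · intro i
    rw [hb i]
    refine add_nonneg (Finset.sum_nonneg fun j _ => mul_nonneg (h1 j) (pt_nonneg _ _ _)) ?_
    exact mul_nonneg (by linarith) (pt_nonneg _ _ _)
  · rw [Finset.sum_congr rfl fun i _ => hb i, Finset.sum_add_distrib, Finset.sum_comm,
      ← Finset.mul_sum, hs _ (by omega)]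
    have h5 : ∑ j : Fin (k + 2), ∑ i, y j * pt (k + 2 + 1) (nth S j.val) i = ∑ j, y j := by
      refine Finset.sum_congr rfl fun j _ => ?_
      rw [← Finset.mul_sum, hs _ (by omega), mul_one]
    rw [h5]
    ring

end IC9

theorem prfC9 : claimC9 :=
  ⟨IC9.cont_dpoly, IC9.cont_bar, IC9.cont_lf, IC9.compact_T,
    fun n _ hf => hf.continuousOn.integrableOn_compact (IC9.compact_T n),
    IC9.dpoly_nonneg, IC9.lf_bd, IC9.bar_pts⟩

end Pool.Agent.Work.MP_122e00_nt.Sharp.Cx

end

section

set_option autoImplicit false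

/-!
# E1: the integral of a leaf
-/

namespace Pool.Agent.Work.MP_122e00_nt.Sharp.Cx

open Finset MeasureTheory

open scoped ENNReal

open Gen

namespace IE1

theorem lcms_cons (a : ℕ) (l : List ℕ) : lcms (a :: l) = Nat.lcm a (lcms l) := rfl

theorem mpL_cons (f : List ℕ → ℕ) (a : List ℕ) (l : List (List ℕ)) :
    mpL f (a :: l) = f a :: mpL f l := rfl

theorem lcms_pos : ∀ (S : List (List ℕ)), (∀ p ∈ S, 0 < sm p) → 0 < lcms (mpL sm S)
  | [], _ => Nat.one_pos
  | a :: l, h => by
      rw [mpL_cons, lcms_cons]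
      exact Nat.lcm_pos (h a List.mem_cons_self)
        (lcms_pos l fun p hp => h p (List.mem_cons_of_mem _ hp))

theorem dl_pos (S : List (List ℕ)) (h : ∀ p ∈ S, 0 < sm p) : 0 < dl S := lcms_pos S h

end IE1

open IE1 in
theorem prfE1 (h1 : claimE1a) (h2 : claimE1b) (h9 : claimC9) : claimE1 := by
  intro k c bits S gf hC hS hgf hdiv hok e he
  obtain ⟨C, hC1, hC2⟩ := h1 k c bits S gf hC hS hgf hdiv hok e he
  have hdl : 0 < dl S := dl_pos S fun p hp => (hS.2 p hp).2
  have hdlr : (dl S : ℝ) ≠ 0 := by positivity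
  obtain ⟨-, -, hlf, -, hint, -, -, -⟩ := h9
  rw [hC2]
  -- the integrand
  set G : (Fin (k + 2) → ℝ) → ℝ := lf (k + 2) (fun v => (nthN (gsl S gf) v : ℝ)) with hG
  set L : Fin (k + 1) → (Fin (k + 2) → ℝ) → ℝ :=
    fun j => lf (k + 2) (fun v => (av k c S v j : ℝ)) with hL
  have hfac : ∀ α : Fin (k + 1) → ℕ, (∏ j, ((α j).factorial : ℝ)) ≠ 0 := fun α =>
    Finset.prod_ne_zero_iff.mpr fun j _ => by positivity
  have hEq : ∀ y : Fin (k + 2) → ℝ, dpoly k c (Chamber.bar (pts (k + 2) S) y) * G y ^ e =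
      ∑ α ∈ Finset.Nat.antidiagonalTuple (k + 1) c.D,
        ((c.cn : ℝ) / (c.cd : ℝ) * ((gw c.fx c.fz (sm c.us) k α : ℝ) /
          ((dl S : ℝ) ^ c.D * ∏ j, ((α j).factorial : ℝ)))) *
          ((∏ j, L j y ^ α j) * G y ^ e) := by
    intro y
    rw [h2 k c S y hC hS hdl hdiv, Finset.mul_sum, Finset.sum_mul]
    refine sum_congr rfl fun α hα => ?_
    have hsum : ∑ j, α j = c.D := Finset.Nat.mem_antidiagonalTuple.mp hα
    have hp : ∏ j, (L j y / (dl S : ℝ)) ^ α j / ((α j).factorial : ℝ) =
        (∏ j, L j y ^ α j) / ((dl S : ℝ) ^ c.D * ∏ j, ((α j).factorial : ℝ)) := by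
      rw [Finset.prod_div_distrib]
      simp only [div_pow]
      rw [Finset.prod_div_distrib, Finset.prod_pow_eq_pow_sum, hsum, div_div]
    change (c.cn : ℝ) / (c.cd : ℝ) * ((gw c.fx c.fz (sm c.us) k α : ℝ) *
      ∏ j, (L j y / (dl S : ℝ)) ^ α j / ((α j).factorial : ℝ)) * G y ^ e = _
    rw [hp]
    ring
  have hI : ∀ α ∈ Finset.Nat.antidiagonalTuple (k + 1) c.D,
      IntegrableOn (fun y => ((c.cn : ℝ) / (c.cd : ℝ) * ((gw c.fx c.fz (sm c.us) k α : ℝ) /
          ((dl S : ℝ) ^ c.D * ∏ j, ((α j).factorial : ℝ)))) *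
          ((∏ j, L j y ^ α j) * G y ^ e)) (Chamber.T (Fin (k + 2))) := by
    intro α _
    apply hint
    have hLc : ∀ j, Continuous (L j) := fun j => hlf (k + 2) _
    have hGc : Continuous G := hlf (k + 2) _
    exact continuous_const.mul ((continuous_finsetProd _ fun j _ => (hLc j).pow _).mul
      (hGc.pow e))
  have hval : ∀ α ∈ Finset.Nat.antidiagonalTuple (k + 1) c.D,
      ∫ y in Chamber.T (Fin (k + 2)), ((∏ j, L j y ^ α j) * G y ^ e) =
        (C α : ℝ) * ((∏ j, ((α j).factorial : ℝ)) * (e.factorial : ℝ)) /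
          ((k + 2 + c.D + e).factorial : ℝ) := by
    intro α hα
    rw [hC1 α hα, mul_comm, mul_div_assoc, div_self, mul_one]
    positivity
  calc ∫ y in Chamber.T (Fin (k + 2)), dpoly k c (Chamber.bar (pts (k + 2) S) y) * G y ^ e
      = ∫ y in Chamber.T (Fin (k + 2)), ∑ α ∈ Finset.Nat.antidiagonalTuple (k + 1) c.D,
        ((c.cn : ℝ) / (c.cd : ℝ) * ((gw c.fx c.fz (sm c.us) k α : ℝ) /
          ((dl S : ℝ) ^ c.D * ∏ j, ((α j).factorial : ℝ)))) *
          ((∏ j, L j y ^ α j) * G y ^ e) := by
        simp_rw [hEq]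
    _ = ∑ α ∈ Finset.Nat.antidiagonalTuple (k + 1) c.D,
        ((c.cn : ℝ) / (c.cd : ℝ) * ((gw c.fx c.fz (sm c.us) k α : ℝ) /
          ((dl S : ℝ) ^ c.D * ∏ j, ((α j).factorial : ℝ)))) *
          ((C α : ℝ) * ((∏ j, ((α j).factorial : ℝ)) * (e.factorial : ℝ)) /
          ((k + 2 + c.D + e).factorial : ℝ)) := by
        rw [integral_finsetSum _ hI]
        refine sum_congr rfl fun α hα => ?_
        rw [integral_const_mul, hval α hα]
    _ = _ := by
        push_cast
        rw [Finset.sum_div, Finset.mul_sum]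
        refine sum_congr rfl fun α _ => ?_
        have h3 := hfac α
        have h4 : ((k + 2 + c.D + e).factorial : ℝ) ≠ 0 := by positivity
        have h5 : (dl S : ℝ) ^ c.D ≠ 0 := pow_ne_zero _ hdlr
        set A : ℝ := (c.cn : ℝ) / (c.cd : ℝ)
        set P : ℝ := ∏ j, ((α j).factorial : ℝ)
        set Dd : ℝ := (dl S : ℝ) ^ c.D
        set F : ℝ := ((k + 2 + c.D + e).factorial : ℝ)
        field_simp

end Pool.Agent.Work.MP_122e00_nt.Sharp.Cx

end

section

set_option autoImplicit false

/-!
# Item E1a: the slot of a leaf as a sum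
-/

namespace Pool.Agent.Work.MP_122e00_nt.Sharp.Cx

open Finset MeasureTheory

namespace IE1a

theorem nth_cons_zero (a : List ℕ) (l : List (List ℕ)) : nth (a :: l) 0 = a := rfl

theorem nth_cons_succ (a : List ℕ) (l : List (List ℕ)) (i : ℕ) :
    nth (a :: l) (i + 1) = nth l i := rfl

theorem nthN_cons_zero (a : ℕ) (l : List ℕ) : nthN (a :: l) 0 = a := rfl

theorem nthN_cons_succ (a : ℕ) (l : List ℕ) (i : ℕ) : nthN (a :: l) (i + 1) = nthN l i := rfl

theorem mpL_cons (f : List ℕ → ℕ) (a : List ℕ) (l : List (List ℕ)) :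
    mpL f (a :: l) = f a :: mpL f l := rfl

theorem sm_cons (a : ℕ) (l : List ℕ) : sm (a :: l) = a + sm l := rfl

theorem mxs_cons (a : ℕ) (l : List ℕ) : mxs (a :: l) = cond (Nat.ble a (mxs l)) (mxs l) a := rfl

theorem length_mpL (f : List ℕ → ℕ) (l : List (List ℕ)) : (mpL f l).length = l.length := by
  induction l with
  | nil => rfl
  | cons a l ih => rw [mpL_cons, List.length_cons, List.length_cons, ih]

theorem nthN_mpL (f : List ℕ → ℕ) (l : List (List ℕ)) (v : ℕ) (hv : v < l.length) :
    nthN (mpL f l) v = f (nth l v) := by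
  induction l generalizing v with
  | nil => simp at hv
  | cons a l ih =>
    rw [mpL_cons]
    cases v with
    | zero => rfl
    | succ v =>
      rw [nthN_cons_succ, nth_cons_succ]
      exact ih v (by simpa using hv)

theorem nth_mem (l : List (List ℕ)) (v : ℕ) (hv : v < l.length) : nth l v ∈ l := by
  induction l generalizing v with
  | nil => simp at hv
  | cons a l ih =>
    cases v with
    | zero => rw [nth_cons_zero]; exact List.mem_cons_self
    | succ v =>
      rw [nth_cons_succ]
      exact List.mem_cons_of_mem _ (ih v (by simpa using hv))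

theorem sm_eq (p : List ℕ) : sm p = ∑ i ∈ Finset.range p.length, nthN p i := by
  induction p with
  | nil => rfl
  | cons a p ih =>
    rw [List.length_cons, Finset.sum_range_succ', sm_cons, ih, add_comm]
    rfl

theorem le_mxs (l : List ℕ) (v : ℕ) (hv : v < l.length) : nthN l v ≤ mxs l := by
  induction l generalizing v with
  | nil => simp at hv
  | cons a l ih =>
    rw [mxs_cons]
    cases h : Nat.ble a (mxs l) with
    | true =>
      rw [Nat.ble_eq] at h
      cases v with
      | zero => exact h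
      | succ v => exact ih v (by simpa using hv)
    | false =>
      have h' : ¬ a ≤ mxs l := by
        intro hc
        rw [← Nat.ble_eq, h] at hc
        exact Bool.false_ne_true hc
      cases v with
      | zero => exact le_refl a
      | succ v =>
        have := ih v (by simpa using hv)
        show nthN l v ≤ a
        omega

theorem h2_congr {A : Type} [CommSemiring A] (a g a' g' : ℕ → A) (N d e : ℕ)
    (ha : ∀ v, v < N → a v = a' v) (hg : ∀ v, v < N → g v = g' v) :
    h2 a g N d e = h2 a' g' N d e := by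
  induction N generalizing d e with
  | zero => rw [h2, h2]
  | succ N ihN =>
    have hN : ∀ d e, h2 a g N d e = h2 a' g' N d e := fun d e =>
      ihN d e (fun v hv => ha v (by omega)) (fun v hv => hg v (by omega))
    have h1 : ∀ m, ∀ d e, d + e = m → h2 a g (N + 1) d e = h2 a' g' (N + 1) d e := by
      intro m
      induction m with
      | zero =>
        intro d e hde
        obtain ⟨rfl, rfl⟩ : d = 0 ∧ e = 0 := by omega
        rw [h2, h2, hN]
      | succ m ihm =>
        intro d e hde
        match d, e with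
        | 0, 0 => omega
        | d + 1, 0 =>
          rw [h2, h2, hN, ihm d 0 (by omega), ha N (by omega)]
        | 0, e + 1 =>
          rw [h2, h2, hN, ihm 0 e (by omega), hg N (by omega)]
        | d + 1, e + 1 =>
          rw [h2, h2, hN, ihm d (e + 1) (by omega), ihm (d + 1) e (by omega), ha N (by omega),
            hg N (by omega)]
    exact h1 _ d e rfl

theorem fac_eq (n : ℕ) : fac n = n.factorial := by
  induction n with
  | zero => rfl
  | succ n ih =>
    have h : fac (n + 1) = (n + 1) * fac n := rfl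
    rw [h, ih, Nat.factorial_succ]

theorem bin_eq (n j : ℕ) : bin n j = (n + j).choose j := by
  have h : bin n j = fac (n + j) / (fac n * fac j) := rfl
  rw [h, fac_eq, fac_eq, fac_eq, Nat.add_choose]

theorem bin_eq' (n j : ℕ) : bin n j = (n + j).choose n := by
  rw [bin_eq, Nat.choose_symm_add]

theorem okb_lt {cl : Cl} {bits Dl g1 : ℕ} (h : okb cl bits Dl g1 = true) :
    gt cl 0 * (bin cl.D 3 * bin (cl.D + 3) (cl.k + 2)) * (Dl ^ cl.D * (g1 + 1) ^ 3) < 2 ^ bits := by
  have h1 : okb cl bits Dl g1 = Nat.blt (gt cl 0 * (bin cl.D 3 * bin (cl.D + 3) (cl.k + 2)) *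
    (Dl ^ cl.D * (g1 + 1) ^ 3)) (2 ^ bits) := rfl
  rw [h1] at h
  exact Nat.le_of_ble_eq_true h

theorem us_zero (us : List ℕ) (h3 : us.length = 3) (h : sm us = 0) (q : ℕ) (hq : q < 3) :
    nthN us q = 0 := by
  rw [sm_eq, h3, Finset.sum_eq_zero_iff] at h
  exact h q (Finset.mem_range.2 hq)

/-- The packed variables. -/
noncomputable def Wp (c : Cl) (bits k : ℕ) (j : Fin (k + 1)) : ℕ :=
  if j.val < k then 2 ^ (bits * nthN c.ws j.val) else 2 ^ (bits * c.wS)

theorem prod_Wp (c : Cl) (bits k : ℕ) (α : Fin (k + 1) → ℕ) :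
    ∏ j, Wp c bits k j ^ α j = 2 ^ (bits * sl c.ws c.wS k α) := by
  rw [Fin.prod_univ_castSucc]
  have h1 : ∀ j : Fin k, Wp c bits k j.castSucc ^ α j.castSucc =
      2 ^ (bits * (nthN c.ws j.val * α j.castSucc)) := by
    intro j
    unfold Wp
    rw [if_pos (by simp), ← pow_mul, mul_assoc]
    rfl
  have h2 : Wp c bits k (Fin.last k) ^ α (Fin.last k) = 2 ^ (bits * (c.wS * α (Fin.last k))) := by
    unfold Wp
    rw [if_neg (by simp), ← pow_mul, mul_assoc]
  rw [h2, Finset.prod_congr rfl (fun j _ => h1 j), Finset.prod_pow_eq_pow_sum, ← pow_add]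
  unfold sl
  rw [← Finset.mul_sum, mul_add]

theorem pack (hC8 : claimC8) (k : ℕ) (c : Cl) (bits : ℕ) (S : List (List ℕ)) (hc : Clv k c)
    (hS : Sv k S) (v : ℕ) (hv : v < k + 3) :
    dl S / sm (nth S v) * dot (nth S v) (wl bits c.wS c.us c.ws) =
      ∑ j, Wp c bits k j * av k c S v j := by
  have hm := nth_mem S v (by rw [hS.1]; exact hv)
  have hl := (hS.2 _ hm).1
  have h8 := hC8 (nth S v) c.ws c.us c.wS bits hc.us_len (by rw [hl, hc.ws_len])
  rw [h8, hc.ws_len, Fin.sum_univ_castSucc, Finset.sum_range]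
  have h1 : ∀ j : Fin k, Wp c bits k j.castSucc * av k c S v j.castSucc =
      dl S / sm (nth S v) * (nthN (nth S v) j.val * 2 ^ (bits * nthN c.ws j.val)) := by
    intro j
    unfold Wp av
    rw [if_pos (by simp), if_pos (by simp)]
    simp only [Fin.val_castSucc]
    ring
  have h2 : Wp c bits k (Fin.last k) * av k c S v (Fin.last k) = dl S / sm (nth S v) *
      ((∑ q ∈ Finset.range 3, nthN c.us q * nthN (nth S v) (k + q)) * 2 ^ (bits * c.wS)) := by
    unfold Wp av
    rw [if_neg (by simp), if_neg (by simp)]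
    ring
  rw [h2, Finset.sum_congr rfl (fun j _ => h1 j), ← Finset.mul_sum, mul_add]

theorem av_sum_le (k : ℕ) (c : Cl) (S : List (List ℕ)) (hc : Clv k c) (hS : Sv k S)
    (hd : ∀ p ∈ S, dl S / sm p * sm p = dl S) (v : ℕ) (hv : v < k + 3) :
    ∑ j, 1 * av k c S v j ≤ dl S := by
  have hm := nth_mem S v (by rw [hS.1]; exact hv)
  have hl := (hS.2 _ hm).1
  rw [← hd _ hm]
  have h3 : sm (nth S v) = ∑ j ∈ Finset.range k, nthN (nth S v) j +
      ∑ q ∈ Finset.range 3, nthN (nth S v) (k + q) := by
    rw [sm_eq, hl, Finset.sum_range_add]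
  have h1 : ∀ j : Fin k, 1 * av k c S v j.castSucc =
      dl S / sm (nth S v) * nthN (nth S v) j.val := by
    intro j
    unfold av
    rw [if_pos (by simp), one_mul]
    rfl
  have h2 : 1 * av k c S v (Fin.last k) = dl S / sm (nth S v) *
      ∑ q ∈ Finset.range 3, nthN c.us q * nthN (nth S v) (k + q) := by
    unfold av
    rw [if_neg (by simp), one_mul]
  rw [Fin.sum_univ_castSucc, h2, Finset.sum_congr rfl (fun j _ => h1 j), ← Finset.mul_sum,
    ← mul_add]
  refine Nat.mul_le_mul_left _ ?_
  rw [h3, Finset.sum_range (fun j => nthN (nth S v) j)]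
  refine Nat.add_le_add_left (Finset.sum_le_sum fun q _ => ?_) _
  calc nthN c.us q * nthN (nth S v) (k + q) ≤ 1 * nthN (nth S v) (k + q) :=
        Nat.mul_le_mul_right _ (hc.us_le q)
    _ = nthN (nth S v) (k + q) := one_mul _

end IE1a

open IE1a in
theorem prfE1a : claimC2 → claimC3 → claimC4 → claimC5 → claimC6 → claimC7 → claimC8 →
    claimE1a := by
  intro _ hC3 hC4 hC5 hC6 hC7 hC8 k c bits S gf hc hS hgf hd hok e he
  obtain ⟨C, hC1, hC2⟩ := hC6 (k + 2) (k + 1) c.D e (av k c S) (nthN (gsl S gf))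
  refine ⟨C, hC2, ?_⟩
  have hlen : (gsl S gf).length = k + 3 := by
    unfold gsl
    rw [length_mpL, hS.1]
  -- the row
  have hrow : ∀ b, nthN (rws c b S gf) e = ∑ α ∈ Finset.Nat.antidiagonalTuple (k + 1) c.D,
      C α * 2 ^ (b * sl c.ws c.wS k α) := by
    intro b
    unfold rws
    rw [hC3 _ _ c.D e (by rw [hlen, length_mpL, hS.1]) he, length_mpL, hS.1]
    rw [h2_congr _ (nthN (gsl S gf)) (fun v => ∑ j, Wp c b k j * av k c S v j)
      (nthN (gsl S gf)) (k + 3) c.D e (fun v hv => ?_) (fun v hv => rfl)]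
    · have h := hC1 (Wp c b k)
      rw [show k + 2 + 1 = k + 3 from rfl] at h
      rw [h]
      exact Finset.sum_congr rfl fun α _ => by rw [prod_Wp]
    · rw [nthN_mpL _ _ _ (by rw [hS.1]; exact hv)]
      exact pack hC8 k c b S hc hS v hv
  -- the density
  have hgt : ∀ b, gt c b = ∑ β ∈ Finset.Nat.antidiagonalTuple (k + 1) c.D,
      gw c.fx c.fz (sm c.us) k β * 2 ^ (b * (c.mx - sl c.ws c.wS k β)) := by
    intro b
    have hne : c.ws ≠ [] := by
      intro h0
      have h1 := hc.ws_len
      have h2 := hc.k_pos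
      rw [h0] at h1
      simp at h1
      omega
    have h7 := hC7 c.fx c.fz c.wS c.mx b (sm c.us) c.ws c.D 0 1 hne hc.fx_len hc.fz_len
    unfold gt
    rw [h7, hc.ws_len]
    exact Finset.sum_congr rfl fun β _ => by rw [one_mul, Nat.zero_add]
  -- the vanishing coefficients
  have hzero : ∀ α ∈ Finset.Nat.antidiagonalTuple (k + 1) c.D,
      ¬ (sm c.us = 0 → α (Fin.last k) = 0) → C α = 0 ∧ gw c.fx c.fz (sm c.us) k α = 0 := by
    intro α hα hn
    have hs : sm c.us = 0 := by
      by_contra hs
      exact hn fun h => absurd h hs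
    have ha : α (Fin.last k) ≠ 0 := fun h => hn fun _ => h
    refine ⟨?_, ?_⟩
    · have h2 := hC2 α hα
      have hav : ∀ v, av k c S v (Fin.last k) = 0 := by
        intro v
        unfold av
        rw [if_neg (by simp)]
        rw [Finset.sum_eq_zero fun q hq => by
          rw [us_zero c.us hc.us_len hs q (Finset.mem_range.1 hq), Nat.zero_mul], Nat.mul_zero]
      have hint : ∀ y : Fin (k + 2) → ℝ,
          (∏ j, lf (k + 2) (fun v => (av k c S v j : ℝ)) y ^ α j) = 0 := by
        intro y
        refine Finset.prod_eq_zero (Finset.mem_univ (Fin.last k)) ?_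
        have : lf (k + 2) (fun v => (av k c S v (Fin.last k) : ℝ)) y = 0 := by
          unfold lf
          simp [hav]
        rw [this, zero_pow ha]
      have h3 : (C α : ℝ) * ((∏ j, ((α j).factorial : ℝ)) * (e.factorial : ℝ)) = 0 := by
        rw [h2]
        simp [hint]
      have h4 : ((∏ j, ((α j).factorial : ℝ)) * (e.factorial : ℝ)) ≠ 0 := by
        refine mul_ne_zero (Finset.prod_ne_zero_iff.2 fun j _ => ?_) ?_
        · exact_mod_cast (Nat.factorial_pos _).ne'
        · exact_mod_cast (Nat.factorial_pos _).ne'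
      rcases mul_eq_zero.1 h3 with h5 | h5
      · exact_mod_cast h5
      · exact absurd h5 h4
    · unfold gw
      rw [if_pos ⟨hs, ha⟩]
  set s : Finset (Fin (k + 1) → ℕ) := (Finset.Nat.antidiagonalTuple (k + 1) c.D).filter
    (fun α => sm c.us = 0 → α (Fin.last k) = 0) with hsdef
  have hsub : s ⊆ Finset.Nat.antidiagonalTuple (k + 1) c.D := Finset.filter_subset _ _
  have hout : ∀ α ∈ Finset.Nat.antidiagonalTuple (k + 1) c.D, α ∉ s →
      C α = 0 ∧ gw c.fx c.fz (sm c.us) k α = 0 := by
    intro α hα hn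
    refine hzero α hα fun h => hn ?_
    rw [hsdef, Finset.mem_filter]
    exact ⟨hα, h⟩
  have hin : ∀ α ∈ s, α ∈ Finset.Nat.antidiagonalTuple (k + 1) c.D ∧
      (sm c.us = 0 → α (Fin.last k) = 0) := by
    intro α hα
    rw [hsdef, Finset.mem_filter] at hα
    exact hα
  rw [hrow bits, hgt bits]
  rw [← Finset.sum_subset hsub (f := fun α => C α * 2 ^ (bits * sl c.ws c.wS k α))
    (fun α h1 h2 => by rw [(hout α h1 h2).1, Nat.zero_mul])]
  rw [← Finset.sum_subset hsub (f := fun β => gw c.fx c.fz (sm c.us) k β *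
    2 ^ (bits * (c.mx - sl c.ws c.wS k β)))
    (fun α h1 h2 => by rw [(hout α h1 h2).2, Nat.zero_mul])]
  rw [← Finset.sum_subset hsub (f := fun α => C α * gw c.fx c.fz (sm c.us) k α)
    (fun α h1 h2 => by rw [(hout α h1 h2).1, Nat.zero_mul])]
  refine hC5 _ s (sl c.ws c.wS k) C (gw c.fx c.fz (sm c.us) k) c.mx bits
    (fun α hα => hc.sl_le α (hin α hα).1 (hin α hα).2)
    (fun α hα β hβ h => hc.sl_inj α (hin α hα).1 β (hin β hβ).1 (hin α hα).2 (hin β hβ).2 h) ?_
  -- the size condition
  have hb1 : ∑ α ∈ s, C α ≤ bin c.D e * bin (c.D + e) (k + 2) *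
      (dl S ^ c.D * mxs (gsl S gf) ^ e) := by
    have h1 := hC1 (fun _ => 1)
    simp only [one_pow, Finset.prod_const_one, Nat.mul_one] at h1
    refine le_trans (Finset.sum_le_sum_of_subset hsub) ?_
    rw [← h1]
    exact hC4 _ _ (dl S) (mxs (gsl S gf)) (k + 2) c.D e
      (fun v hv => av_sum_le k c S hc hS hd v (by omega))
      (fun v hv => le_mxs _ v (by rw [hlen]; omega))
  have hb2 : ∑ β ∈ s, gw c.fx c.fz (sm c.us) k β ≤ gt c 0 := by
    rw [hgt 0]
    simp only [Nat.zero_mul, pow_zero, Nat.mul_one]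
    exact Finset.sum_le_sum_of_subset hsub
  refine lt_of_le_of_lt (Nat.mul_le_mul hb1 hb2) (lt_of_le_of_lt ?_ (okb_lt hok))
  rw [hc.k_eq]
  have e1 : bin c.D e ≤ bin c.D 3 := by
    rw [bin_eq', bin_eq']
    exact Nat.choose_le_choose _ (by omega)
  have e2 : bin (c.D + e) (k + 2) ≤ bin (c.D + 3) (k + 2) := by
    rw [bin_eq, bin_eq]
    exact Nat.choose_le_choose _ (by omega)
  have e3 : mxs (gsl S gf) ^ e ≤ (mxs (gsl S gf) + 1) ^ 3 :=
    le_trans (Nat.pow_le_pow_left (Nat.le_succ _) e) (Nat.pow_le_pow_right (Nat.succ_pos _) (by omega))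
  calc bin c.D e * bin (c.D + e) (k + 2) * (dl S ^ c.D * mxs (gsl S gf) ^ e) * gt c 0
      ≤ bin c.D 3 * bin (c.D + 3) (k + 2) * (dl S ^ c.D * (mxs (gsl S gf) + 1) ^ 3) * gt c 0 := by
        gcongr
    _ = gt c 0 * (bin c.D 3 * bin (c.D + 3) (k + 2)) *
        (dl S ^ c.D * (mxs (gsl S gf) + 1) ^ 3) := by ring

end Pool.Agent.Work.MP_122e00_nt.Sharp.Cx

end

section

set_option autoImplicit false

/-!
# E1b: the density in barycentric coordinates
-/

namespace Pool.Agent.Work.MP_122e00_nt.Sharp.Cx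

open Finset MeasureTheory

open scoped ENNReal

open Gen

namespace IE1b

theorem nth_mem : ∀ (v : ℕ) (S : List (List ℕ)), v < S.length → nth S v ∈ S
  | 0, [], h => absurd h (by simp)
  | 0, a :: l, _ => by
      have : nth (a :: l) 0 = a := rfl
      rw [this]; exact List.mem_cons_self
  | v + 1, [], h => absurd h (by simp)
  | v + 1, a :: l, h => by
      have h1 : nth (a :: l) (v + 1) = nth l v := rfl
      rw [h1]
      exact List.mem_cons_of_mem _ (nth_mem v l (by simpa using h))

theorem vr_bar (k : ℕ) (c : Cl) (V : Option (Fin (k + 2)) → Fin (k + 3) → ℝ)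
    (y : Fin (k + 2) → ℝ) (j : Fin (k + 1)) :
    vr k c (Chamber.bar V y) j =
      ∑ v, y v * vr k c (V (some v)) j + (1 - ∑ v, y v) * vr k c (V none) j := by
  unfold vr Chamber.bar
  split_ifs with hj
  · simp [Finset.sum_apply]
  · simp only [Pi.add_apply, Finset.sum_apply, Pi.smul_apply, smul_eq_mul]
    simp only [mul_add, Finset.sum_add_distrib, Finset.mul_sum]
    congr 1
    · rw [Finset.sum_comm]
      exact sum_congr rfl fun v _ => sum_congr rfl fun q _ => by ring
    · exact sum_congr rfl fun q _ => by ring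

theorem vr_pt (k : ℕ) (c : Cl) (p : List ℕ) (q d : ℕ) (hq : q * sm p = d) (hd : 0 < d)
    (j : Fin (k + 1)) :
    vr k c (pt (k + 3) p) j =
      ((q * (if j.val < k then nthN p j.val
        else ∑ r ∈ Finset.range 3, nthN c.us r * nthN p (k + r)) : ℕ) : ℝ) / (d : ℝ) := by
  have hsm : (sm p : ℝ) ≠ 0 := by
    intro h
    have h0 : sm p = 0 := by exact_mod_cast h
    rw [h0, mul_zero] at hq
    omega
  have hdr : (d : ℝ) ≠ 0 := by positivity
  have hqr : (q : ℝ) * (sm p : ℝ) = (d : ℝ) := by exact_mod_cast hq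
  have key : ∀ x : ℝ, x / (sm p : ℝ) = (q : ℝ) * x / (d : ℝ) := by
    intro x
    rw [div_eq_div_iff hsm hdr, ← hqr]
    ring
  unfold vr pt
  split_ifs with hj
  · rw [key]
    push_cast
    rfl
  · rw [Finset.sum_range (f := fun r => nthN c.us r * nthN p (k + r))]
    push_cast
    rw [Finset.mul_sum, Finset.sum_div]
    refine sum_congr rfl fun r _ => ?_
    rw [key]
    simp only [Fin.val_natAdd]
    ring

end IE1b

open IE1b in
theorem prfE1b : claimE1b := by
  intro k c S y hC hS hd hdiv
  have hvr : ∀ j, vr k c (Chamber.bar (pts (k + 2) S) y) j =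
      lf (k + 2) (fun v => (av k c S v j : ℝ)) y / (dl S : ℝ) := by
    intro j
    have hv : ∀ v, v < k + 3 → vr k c (pt (k + 3) (nth S v)) j =
        (av k c S v j : ℝ) / (dl S : ℝ) := by
      intro v hv
      have hm : nth S v ∈ S := nth_mem v S (by rw [hS.1]; exact hv)
      rw [vr_pt k c (nth S v) (dl S / sm (nth S v)) (dl S) (hdiv _ hm) hd j]
      rfl
    rw [vr_bar k c (pts (k + 2) S) y j]
    unfold lf
    rw [add_div, Finset.sum_div]
    congr 1
    · refine sum_congr rfl fun v _ => ?_
      have h1 : vr k c (pts (k + 2) S (some v)) j = (av k c S v.val j : ℝ) / (dl S : ℝ) :=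
        hv v.val (by have := v.isLt; omega)
      rw [h1]; ring
    · have h1 : vr k c (pts (k + 2) S none) j = (av k c S (k + 2) j : ℝ) / (dl S : ℝ) :=
        hv (k + 2) (by omega)
      rw [h1]; ring
  unfold dpoly
  congr 1
  refine sum_congr rfl fun α _ => ?_
  congr 1
  exact prod_congr rfl fun j _ => by rw [hvr j]

end Pool.Agent.Work.MP_122e00_nt.Sharp.Cx

end

end
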