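import Pool.Agent.Work.MP_122e00_nt.Bdx.B06
import Pool.Agent.Work.MP_122e00_nt.Bdx.B03
import Pool.Agent.Work.MP_122e00_nt.Four.Cert.ItemG4
import Pool.Agent.Work.MP_122e00_nt.Four.Cert.ItemK2
import Pool.Agent.Work.MP_122e00_nt.Sharp.Cert.ItemC1
import Pool.Agent.Work.MP_122e00_nt.Bdx.B05
import Pool.Agent.Work.MP_122e00_nt.Bd.B52
import Pool.Agent.Work.MP_122e00_nt.Bd.B53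
import Pool.Agent.Work.MP_122e00_nt.Bd.B54
import Pool.Agent.Work.MP_122e00_nt.Bdx.B01

/-! Bundle of small proof modules (one section per former module). -/

section

set_option autoImplicit false

/-!
# The certificate for four parts: the rules
-/

namespace Pool.Agent.Work.MP_122e00_nt.Four.Cx

open Finset MeasureTheory

open scoped ENNReal

open Gen Sharp Sharp.Cx

noncomputable section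

theorem q2 : Sharp.Cx.claimC2 := Sharp.Cx.prfC2 Sharp.Cx.prfC1

theorem q3 : claimE3 :=
  prfE3 (prfE1 (prfE1a q2 prfC3 Sharp.Cx.prfC4 Sharp.Cx.prfC5 (Sharp.Cx.prfC6 q2)
    Sharp.Cx.prfC7 prfC8) prfE1b Sharp.Cx.prfC9) prfC9 Sharp.Cx.prfC9

theorem q5 : claimG5 := prfG5 Sharp.prfI6 q3 prfG1 prfG3 prfG4

theorem qA : claimLA := prfLA Sharp.Cx.prfK1

theorem qB : claimLB := prfLB (prfK2 Sharp.Cx.prfK1) prfLR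

theorem dm1 : Dom 1 Dn1 cls1 := dom1 prfCV prfC9 qA

theorem dm2 : Dom 2 Dn2 cls2 := dom2 prfCV prfC9 qA

theorem dm3 : Dom 3 Dn3 cls3 := dom3 prfCV prfC9 qB

theorem run3 (c : Ct) (S : List (List ℕ)) (m G r : ℕ) (h : le (run cls3 3 c S m G) r = true) :
    Ok 3 Dn3 S m G r :=
  ok_run 3 Dn3 cls3 q5 dm3 c S m G r h

theorem cut3 (i j A B g : ℕ) (S S1 S2 : List (List ℕ)) (m G r1 r2 r : ℕ)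
    (h : ckc 3 i j A B g S S1 S2 r1 r2 r) (h1 : Ok 3 Dn3 S1 m G r1) (h2 : Ok 3 Dn3 S2 m G r2) :
    Ok 3 Dn3 S m G r :=
  ok_cut Sharp.prfI6 prfG4 3 Dn3 dm3.1 i j A B g S S1 S2 m G r1 r2 r h h1 h2

theorem dec3 (q F st : ℕ) (S : List (List ℕ)) (m m' G G' r : ℕ)
    (h : ckd 3 q F st S m m' G G') (h1 : Ok 3 Dn3 S m' G' r) : Ok 3 Dn3 S m G r :=
  ok_dec prfG3 3 Dn3 q F st S m m' G G' r h h1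

end

end Pool.Agent.Work.MP_122e00_nt.Four.Cx

end

section

set_option autoImplicit false

set_option maxRecDepth 100000

/-!
# The certificate: data
-/

namespace Pool.Agent.Work.MP_122e00_nt.Four.Cx

open Sharp.Cx

theorem ok0 : Ok 3 Dn3 [[1, 0, 0, 1, 0, 0, 0], [1, 1, 0, 0, 0, 0, 0], [1, 1, 1, 1, 1, 1, 0],
  [0, 0, 0, 2, 1, 1, 0], [0, 0, 0, 1, 1, 0, 0], [0, 0, 0, 1, 1, 1, 0], [0, 0, 0, 1, 1, 1, 1]]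
  2004317952 0 300928205936 :=
  run3 tr0 _ _ _ _ dt0

theorem ok1 : Ok 3 Dn3 [[1, 0, 0, 1, 0, 0, 0], [1, 1, 0, 0, 0, 0, 0], [1, 1, 1, 1, 1, 1, 0],
  [0, 0, 0, 1, 0, 0, 0], [0, 0, 0, 1, 1, 0, 0], [0, 0, 0, 2, 1, 1, 0], [0, 0, 0, 1, 1, 1, 1]]
  2004317952 0 111660042564 :=
  run3 tr1 _ _ _ _ dt1

theorem ok2 : Ok 3 Dn3 [[1, 0, 0, 1, 0, 0, 0], [1, 1, 0, 1, 1, 1, 1], [1, 1, 1, 1, 0, 0, 0],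
  [0, 0, 0, 3, 1, 1, 1], [0, 0, 0, 1, 1, 0, 0], [1, 1, 1, 1, 1, 1, 0], [0, 0, 0, 1, 1, 1, 1]]
  2004317973 0 2038272069594 :=
  run3 tr2 _ _ _ _ dt2

theorem ok3 : Ok 3 Dn3 [[1, 0, 0, 1, 0, 0, 0], [1, 1, 0, 0, 0, 0, 0], [1, 1, 1, 1, 0, 0, 0],
  [0, 0, 0, 3, 1, 1, 1], [0, 0, 0, 1, 1, 0, 0], [1, 1, 1, 1, 1, 1, 0], [1, 1, 0, 1, 1, 1, 1]]
  2004317973 0 517042465659 :=
  run3 tr3 _ _ _ _ dt3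

theorem ok4 : Ok 3 Dn3 [[1, 0, 0, 1, 0, 0, 0], [1, 1, 0, 0, 0, 0, 0], [1, 1, 1, 1, 0, 0, 0],
  [0, 0, 0, 1, 0, 0, 0], [0, 0, 0, 1, 1, 0, 0], [1, 1, 1, 1, 1, 1, 0], [0, 0, 0, 3, 1, 1, 1]]
  2004317952 0 135921490588 :=
  run3 tr4 _ _ _ _ dt4

theorem ok5 : Ok 3 Dn3 [[1, 0, 0, 1, 0, 0, 0], [1, 1, 0, 1, 1, 1, 1], [2, 2, 2, 1, 1, 1, 1],
  [1, 1, 1, 1, 0, 0, 0], [0, 0, 0, 1, 1, 0, 0], [1, 1, 1, 1, 1, 1, 0], [0, 0, 0, 1, 1, 1, 1]]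
  2004317973 0 8140668942937 :=
  run3 tr5 _ _ _ _ dt5

theorem ok6 : Ok 3 Dn3 [[1, 0, 0, 1, 0, 0, 0], [1, 1, 0, 0, 0, 0, 0], [2, 2, 2, 1, 1, 1, 1],
  [1, 1, 1, 1, 0, 0, 0], [0, 0, 0, 1, 1, 0, 0], [1, 1, 1, 1, 1, 1, 0], [1, 1, 0, 1, 1, 1, 1]]
  2004317973 0 1198229168549 :=
  run3 tr6 _ _ _ _ dt6

theorem ok7 : Ok 3 Dn3 [[1, 0, 0, 1, 0, 0, 0], [1, 1, 0, 0, 0, 0, 0], [1, 1, 1, 0, 0, 0, 0],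
  [1, 1, 1, 1, 0, 0, 0], [0, 0, 0, 1, 1, 0, 0], [1, 1, 1, 1, 1, 1, 0], [2, 2, 2, 1, 1, 1, 1]]
  387389205 0 446529061586 :=
  run3 tr7 _ _ _ _ dt7

theorem ok8 : Ok 3 Dn3 [[2, 0, 0, 1, 1, 1, 1], [1, 1, 0, 0, 0, 0, 0], [1, 1, 1, 1, 1, 1, 0],
  [1, 0, 0, 1, 0, 0, 0], [0, 0, 0, 1, 1, 0, 0], [0, 0, 0, 1, 1, 1, 0], [0, 0, 0, 1, 1, 1, 1]]
  387389205 0 393657332740 :=
  run3 tr8 _ _ _ _ dt8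

theorem ok9 : Ok 3 Dn3 [[2, 0, 0, 1, 1, 1, 1], [1, 1, 0, 1, 1, 1, 1], [2, 2, 2, 1, 1, 1, 1],
  [1, 0, 0, 1, 0, 0, 0], [0, 0, 0, 1, 1, 0, 0], [1, 1, 1, 1, 1, 1, 0], [0, 0, 0, 1, 1, 1, 1]]
  2004318037 0 5592883379804 :=
  run3 tr9 _ _ _ _ dt9

theorem ok10 : Ok 3 Dn3 [[2, 0, 0, 1, 1, 1, 1], [1, 1, 0, 0, 0, 0, 0], [2, 2, 2, 1, 1, 1, 1],
  [1, 0, 0, 1, 0, 0, 0], [0, 0, 0, 1, 1, 0, 0], [1, 1, 1, 1, 1, 1, 0], [1, 1, 0, 1, 1, 1, 1]]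
  2004318037 0 965695541908 :=
  run3 tr10 _ _ _ _ dt10

theorem ok11 : Ok 3 Dn3 [[2, 0, 0, 1, 1, 1, 1], [1, 1, 0, 0, 0, 0, 0], [1, 1, 1, 0, 0, 0, 0],
  [1, 0, 0, 1, 0, 0, 0], [0, 0, 0, 1, 1, 0, 0], [1, 1, 1, 1, 1, 1, 0], [2, 2, 2, 1, 1, 1, 1]]
  387389205 0 648626356754 :=
  run3 tr11 _ _ _ _ dt11

theorem ok12 : Ok 3 Dn3 [[1, 0, 0, 0, 0, 0, 0], [1, 1, 0, 0, 0, 0, 0], [1, 1, 1, 1, 1, 1, 0],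
  [1, 0, 0, 1, 0, 0, 0], [0, 0, 0, 1, 1, 0, 0], [0, 0, 0, 1, 1, 1, 0], [2, 0, 0, 1, 1, 1, 1]]
  353703189 0 113630013601 :=
  run3 tr12 _ _ _ _ dt12

theorem ok13 : Ok 3 Dn3 [[2, 1, 1, 0, 0, 0, 0], [1, 1, 0, 0, 0, 0, 0], [1, 1, 1, 0, 0, 0, 0],
  [1, 0, 0, 1, 0, 0, 0], [0, 0, 0, 1, 1, 0, 0], [1, 1, 1, 1, 1, 1, 0], [2, 0, 0, 1, 1, 1, 1]]
  353746365 14 318686775504 :=
  run3 tr13 _ _ _ _ dt13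

theorem ok14 : Ok 3 Dn3 [[1, 0, 0, 0, 0, 0, 0], [1, 1, 0, 0, 0, 0, 0], [2, 1, 1, 0, 0, 0, 0],
  [1, 0, 0, 1, 0, 0, 0], [0, 0, 0, 1, 1, 0, 0], [1, 1, 1, 1, 1, 1, 0], [2, 0, 0, 1, 1, 1, 1]]
  353746365 14 627938993973 :=
  run3 tr14 _ _ _ _ dt14

theorem nd0 : Ok 3 Dn3 [[1, 0, 0, 1, 0, 0, 0], [1, 1, 0, 0, 0, 0, 0], [1, 1, 1, 1, 1, 1, 0],
  [0, 0, 0, 1, 0, 0, 0], [0, 0, 0, 1, 1, 0, 0], [0, 0, 0, 1, 1, 1, 0], [0, 0, 0, 1, 1, 1, 1]]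
  2004317952 0 158977083407 :=
  cut3 3 5 1 1 1 _ [[1, 0, 0, 1, 0, 0, 0], [1, 1, 0, 0, 0, 0, 0], [1, 1, 1, 1, 1, 1, 0], [0, 0,
  0, 2, 1, 1, 0], [0, 0, 0, 1, 1, 0, 0], [0, 0, 0, 1, 1, 1, 0], [0, 0, 0, 1, 1, 1, 1]] [[1, 0, 0,
  1, 0, 0, 0], [1, 1, 0, 0, 0, 0, 0], [1, 1, 1, 1, 1, 1, 0], [0, 0, 0, 1, 0, 0, 0], [0, 0, 0, 1,
  1, 0, 0], [0, 0, 0, 2, 1, 1, 0], [0, 0, 0, 1, 1, 1, 1]] _ _ 300928205936 111660042564 _ (by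
  decide +kernel) ok0 ok1

theorem nd1 : Ok 3 Dn3 [[1, 0, 0, 1, 0, 0, 0], [1, 1, 0, 0, 0, 0, 0], [1, 1, 1, 1, 1, 1, 0],
  [0, 0, 0, 1, 0, 0, 0], [0, 0, 0, 1, 1, 0, 0], [0, 0, 0, 1, 1, 1, 0], [0, 0, 0, 1, 1, 1, 1]]
  930576128 0 158977083407 :=
  dec3 3 6 0 _ _ 2004317952 _ 0 _ (by decide +kernel) nd0

theorem nd2 : Ok 3 Dn3 [[1, 0, 0, 1, 0, 0, 0], [1, 1, 0, 0, 0, 0, 0], [1, 1, 1, 1, 1, 1, 0],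
  [0, 0, 0, 1, 0, 0, 0], [0, 0, 0, 1, 1, 0, 0], [0, 0, 0, 1, 1, 1, 0], [0, 0, 0, 1, 1, 1, 1]]
  393705216 0 158977083407 :=
  dec3 3 5 0 _ _ 930576128 _ 0 _ (by decide +kernel) nd1

theorem nd3 : Ok 3 Dn3 [[1, 0, 0, 1, 0, 0, 0], [1, 1, 0, 0, 0, 0, 0], [1, 1, 1, 1, 1, 1, 0],
  [0, 0, 0, 1, 0, 0, 0], [0, 0, 0, 1, 1, 0, 0], [0, 0, 0, 1, 1, 1, 0], [0, 0, 0, 1, 1, 1, 1]]
  389510912 0 158977083407 :=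
  dec3 2 6 0 _ _ 393705216 _ 0 _ (by decide +kernel) nd2

theorem nd4 : Ok 3 Dn3 [[1, 0, 0, 1, 0, 0, 0], [1, 1, 0, 0, 0, 0, 0], [1, 1, 1, 1, 1, 1, 0],
  [0, 0, 0, 1, 0, 0, 0], [0, 0, 0, 1, 1, 0, 0], [0, 0, 0, 1, 1, 1, 0], [0, 0, 0, 1, 1, 1, 1]]
  387413760 0 158977083407 :=
  dec3 2 5 0 _ _ 389510912 _ 0 _ (by decide +kernel) nd3

theorem nd5 : Ok 3 Dn3 [[1, 0, 0, 1, 0, 0, 0], [1, 1, 0, 0, 0, 0, 0], [1, 1, 1, 1, 1, 1, 0],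
  [0, 0, 0, 1, 0, 0, 0], [0, 0, 0, 1, 1, 0, 0], [0, 0, 0, 1, 1, 1, 0], [0, 0, 0, 1, 1, 1, 1]]
  387397376 0 158977083407 :=
  dec3 1 6 0 _ _ 387413760 _ 0 _ (by decide +kernel) nd4

theorem nd6 : Ok 3 Dn3 [[1, 0, 0, 1, 0, 0, 0], [1, 1, 0, 0, 0, 0, 0], [1, 1, 1, 1, 1, 1, 0],
  [0, 0, 0, 1, 0, 0, 0], [0, 0, 0, 1, 1, 0, 0], [0, 0, 0, 1, 1, 1, 0], [0, 0, 0, 1, 1, 1, 1]]
  387389184 0 158977083407 :=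
  dec3 1 5 0 _ _ 387397376 _ 0 _ (by decide +kernel) nd5

theorem nd7 : Ok 3 Dn3 [[1, 0, 0, 1, 0, 0, 0], [1, 1, 0, 0, 0, 0, 0], [1, 1, 1, 1, 0, 0, 0],
  [0, 0, 0, 3, 1, 1, 1], [0, 0, 0, 1, 1, 0, 0], [1, 1, 1, 1, 1, 1, 0], [0, 0, 0, 1, 1, 1, 1]]
  2004317973 0 1024119000304 :=
  cut3 1 6 1 1 1 _ [[1, 0, 0, 1, 0, 0, 0], [1, 1, 0, 1, 1, 1, 1], [1, 1, 1, 1, 0, 0, 0], [0, 0,
  0, 3, 1, 1, 1], [0, 0, 0, 1, 1, 0, 0], [1, 1, 1, 1, 1, 1, 0], [0, 0, 0, 1, 1, 1, 1]] [[1, 0, 0,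
  1, 0, 0, 0], [1, 1, 0, 0, 0, 0, 0], [1, 1, 1, 1, 0, 0, 0], [0, 0, 0, 3, 1, 1, 1], [0, 0, 0, 1,
  1, 0, 0], [1, 1, 1, 1, 1, 1, 0], [1, 1, 0, 1, 1, 1, 1]] _ _ 2038272069594 517042465659 _ (by
  decide +kernel) ok2 ok3

theorem nd8 : Ok 3 Dn3 [[1, 0, 0, 1, 0, 0, 0], [1, 1, 0, 0, 0, 0, 0], [1, 1, 1, 1, 0, 0, 0],
  [0, 0, 0, 3, 1, 1, 1], [0, 0, 0, 1, 1, 0, 0], [1, 1, 1, 1, 1, 1, 0], [0, 0, 0, 1, 1, 1, 1]]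
  2004317957 0 1024119000304 :=
  dec3 0 4 0 _ _ 2004317973 _ 0 _ (by decide +kernel) nd7

theorem nd9 : Ok 3 Dn3 [[1, 0, 0, 1, 0, 0, 0], [1, 1, 0, 0, 0, 0, 0], [1, 1, 1, 1, 0, 0, 0],
  [0, 0, 0, 3, 1, 1, 1], [0, 0, 0, 1, 1, 0, 0], [1, 1, 1, 1, 1, 1, 0], [0, 0, 0, 1, 1, 1, 1]]
  2004317953 0 1024119000304 :=
  dec3 0 2 0 _ _ 2004317957 _ 0 _ (by decide +kernel) nd8

theorem nd10 : Ok 3 Dn3 [[1, 0, 0, 1, 0, 0, 0], [1, 1, 0, 0, 0, 0, 0], [1, 1, 1, 1, 0, 0, 0],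
  [0, 0, 0, 3, 1, 1, 1], [0, 0, 0, 1, 1, 0, 0], [1, 1, 1, 1, 1, 1, 0], [0, 0, 0, 1, 1, 1, 1]]
  2004317952 0 1024119000304 :=
  dec3 0 0 0 _ _ 2004317953 _ 0 _ (by decide +kernel) nd9

theorem nd11 : Ok 3 Dn3 [[1, 0, 0, 1, 0, 0, 0], [1, 1, 0, 0, 0, 0, 0], [1, 1, 1, 1, 0, 0, 0],
  [0, 0, 0, 1, 0, 0, 0], [0, 0, 0, 1, 1, 0, 0], [1, 1, 1, 1, 1, 1, 0], [0, 0, 0, 1, 1, 1, 1]]
  2004317952 0 431987327160 :=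
  cut3 3 6 2 1 1 _ [[1, 0, 0, 1, 0, 0, 0], [1, 1, 0, 0, 0, 0, 0], [1, 1, 1, 1, 0, 0, 0], [0, 0,
  0, 3, 1, 1, 1], [0, 0, 0, 1, 1, 0, 0], [1, 1, 1, 1, 1, 1, 0], [0, 0, 0, 1, 1, 1, 1]] [[1, 0, 0,
  1, 0, 0, 0], [1, 1, 0, 0, 0, 0, 0], [1, 1, 1, 1, 0, 0, 0], [0, 0, 0, 1, 0, 0, 0], [0, 0, 0, 1,
  1, 0, 0], [1, 1, 1, 1, 1, 1, 0], [0, 0, 0, 3, 1, 1, 1]] _ _ 1024119000304 135921490588 _ (by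
  decide +kernel) nd10 ok4

theorem nd12 : Ok 3 Dn3 [[1, 0, 0, 1, 0, 0, 0], [1, 1, 0, 0, 0, 0, 0], [1, 1, 1, 1, 0, 0, 0],
  [0, 0, 0, 1, 0, 0, 0], [0, 0, 0, 1, 1, 0, 0], [1, 1, 1, 1, 1, 1, 0], [0, 0, 0, 1, 1, 1, 1]]
  930576128 0 431987327160 :=
  dec3 3 6 0 _ _ 2004317952 _ 0 _ (by decide +kernel) nd11

theorem nd13 : Ok 3 Dn3 [[1, 0, 0, 1, 0, 0, 0], [1, 1, 0, 0, 0, 0, 0], [1, 1, 1, 1, 0, 0, 0],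
  [0, 0, 0, 1, 0, 0, 0], [0, 0, 0, 1, 1, 0, 0], [1, 1, 1, 1, 1, 1, 0], [0, 0, 0, 1, 1, 1, 1]]
  393705216 0 431987327160 :=
  dec3 3 5 0 _ _ 930576128 _ 0 _ (by decide +kernel) nd12

theorem nd14 : Ok 3 Dn3 [[1, 0, 0, 1, 0, 0, 0], [1, 1, 0, 0, 0, 0, 0], [1, 1, 1, 1, 0, 0, 0],
  [0, 0, 0, 1, 0, 0, 0], [0, 0, 0, 1, 1, 0, 0], [1, 1, 1, 1, 1, 1, 0], [0, 0, 0, 1, 1, 1, 1]]
  389510912 0 431987327160 :=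
  dec3 2 6 0 _ _ 393705216 _ 0 _ (by decide +kernel) nd13

theorem nd15 : Ok 3 Dn3 [[1, 0, 0, 1, 0, 0, 0], [1, 1, 0, 0, 0, 0, 0], [1, 1, 1, 1, 0, 0, 0],
  [0, 0, 0, 1, 0, 0, 0], [0, 0, 0, 1, 1, 0, 0], [1, 1, 1, 1, 1, 1, 0], [0, 0, 0, 1, 1, 1, 1]]
  387413760 0 431987327160 :=
  dec3 2 5 0 _ _ 389510912 _ 0 _ (by decide +kernel) nd14

theorem nd16 : Ok 3 Dn3 [[1, 0, 0, 1, 0, 0, 0], [1, 1, 0, 0, 0, 0, 0], [1, 1, 1, 1, 0, 0, 0],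
  [0, 0, 0, 1, 0, 0, 0], [0, 0, 0, 1, 1, 0, 0], [1, 1, 1, 1, 1, 1, 0], [0, 0, 0, 1, 1, 1, 1]]
  387397376 0 431987327160 :=
  dec3 1 6 0 _ _ 387413760 _ 0 _ (by decide +kernel) nd15

theorem nd17 : Ok 3 Dn3 [[1, 0, 0, 1, 0, 0, 0], [1, 1, 0, 0, 0, 0, 0], [1, 1, 1, 1, 0, 0, 0],
  [0, 0, 0, 1, 0, 0, 0], [0, 0, 0, 1, 1, 0, 0], [1, 1, 1, 1, 1, 1, 0], [0, 0, 0, 1, 1, 1, 1]]
  387389184 0 431987327160 :=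
  dec3 1 5 0 _ _ 387397376 _ 0 _ (by decide +kernel) nd16

theorem nd18 : Ok 3 Dn3 [[1, 0, 0, 1, 0, 0, 0], [1, 1, 0, 0, 0, 0, 0], [2, 2, 2, 1, 1, 1, 1],
  [1, 1, 1, 1, 0, 0, 0], [0, 0, 0, 1, 1, 0, 0], [1, 1, 1, 1, 1, 1, 0], [0, 0, 0, 1, 1, 1, 1]]
  2004317973 0 3512375760012 :=
  cut3 1 6 1 1 1 _ [[1, 0, 0, 1, 0, 0, 0], [1, 1, 0, 1, 1, 1, 1], [2, 2, 2, 1, 1, 1, 1], [1, 1,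
  1, 1, 0, 0, 0], [0, 0, 0, 1, 1, 0, 0], [1, 1, 1, 1, 1, 1, 0], [0, 0, 0, 1, 1, 1, 1]] [[1, 0, 0,
  1, 0, 0, 0], [1, 1, 0, 0, 0, 0, 0], [2, 2, 2, 1, 1, 1, 1], [1, 1, 1, 1, 0, 0, 0], [0, 0, 0, 1,
  1, 0, 0], [1, 1, 1, 1, 1, 1, 0], [1, 1, 0, 1, 1, 1, 1]] _ _ 8140668942937 1198229168549 _ (by
  decide +kernel) ok5 ok6

theorem nd19 : Ok 3 Dn3 [[1, 0, 0, 1, 0, 0, 0], [1, 1, 0, 0, 0, 0, 0], [2, 2, 2, 1, 1, 1, 1],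
  [1, 1, 1, 1, 0, 0, 0], [0, 0, 0, 1, 1, 0, 0], [1, 1, 1, 1, 1, 1, 0], [0, 0, 0, 1, 1, 1, 1]]
  930576149 0 3512375760012 :=
  dec3 3 6 0 _ _ 2004317973 _ 0 _ (by decide +kernel) nd18

theorem nd20 : Ok 3 Dn3 [[1, 0, 0, 1, 0, 0, 0], [1, 1, 0, 0, 0, 0, 0], [2, 2, 2, 1, 1, 1, 1],
  [1, 1, 1, 1, 0, 0, 0], [0, 0, 0, 1, 1, 0, 0], [1, 1, 1, 1, 1, 1, 0], [0, 0, 0, 1, 1, 1, 1]]
  393705237 0 3512375760012 :=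
  dec3 3 5 0 _ _ 930576149 _ 0 _ (by decide +kernel) nd19

theorem nd21 : Ok 3 Dn3 [[1, 0, 0, 1, 0, 0, 0], [1, 1, 0, 0, 0, 0, 0], [2, 2, 2, 1, 1, 1, 1],
  [1, 1, 1, 1, 0, 0, 0], [0, 0, 0, 1, 1, 0, 0], [1, 1, 1, 1, 1, 1, 0], [0, 0, 0, 1, 1, 1, 1]]
  389510933 0 3512375760012 :=
  dec3 2 6 0 _ _ 393705237 _ 0 _ (by decide +kernel) nd20

theorem nd22 : Ok 3 Dn3 [[1, 0, 0, 1, 0, 0, 0], [1, 1, 0, 0, 0, 0, 0], [2, 2, 2, 1, 1, 1, 1],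
  [1, 1, 1, 1, 0, 0, 0], [0, 0, 0, 1, 1, 0, 0], [1, 1, 1, 1, 1, 1, 0], [0, 0, 0, 1, 1, 1, 1]]
  387413781 0 3512375760012 :=
  dec3 2 5 0 _ _ 389510933 _ 0 _ (by decide +kernel) nd21

theorem nd23 : Ok 3 Dn3 [[1, 0, 0, 1, 0, 0, 0], [1, 1, 0, 0, 0, 0, 0], [2, 2, 2, 1, 1, 1, 1],
  [1, 1, 1, 1, 0, 0, 0], [0, 0, 0, 1, 1, 0, 0], [1, 1, 1, 1, 1, 1, 0], [0, 0, 0, 1, 1, 1, 1]]
  387397397 0 3512375760012 :=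
  dec3 1 6 0 _ _ 387413781 _ 0 _ (by decide +kernel) nd22

theorem nd24 : Ok 3 Dn3 [[1, 0, 0, 1, 0, 0, 0], [1, 1, 0, 0, 0, 0, 0], [2, 2, 2, 1, 1, 1, 1],
  [1, 1, 1, 1, 0, 0, 0], [0, 0, 0, 1, 1, 0, 0], [1, 1, 1, 1, 1, 1, 0], [0, 0, 0, 1, 1, 1, 1]]
  387389205 0 3512375760012 :=
  dec3 1 5 0 _ _ 387397397 _ 0 _ (by decide +kernel) nd23

theorem nd25 : Ok 3 Dn3 [[1, 0, 0, 1, 0, 0, 0], [1, 1, 0, 0, 0, 0, 0], [1, 1, 1, 0, 0, 0, 0],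
  [1, 1, 1, 1, 0, 0, 0], [0, 0, 0, 1, 1, 0, 0], [1, 1, 1, 1, 1, 1, 0], [0, 0, 0, 1, 1, 1, 1]]
  387389205 0 2286037080642 :=
  cut3 2 6 2 1 1 _ [[1, 0, 0, 1, 0, 0, 0], [1, 1, 0, 0, 0, 0, 0], [2, 2, 2, 1, 1, 1, 1], [1, 1,
  1, 1, 0, 0, 0], [0, 0, 0, 1, 1, 0, 0], [1, 1, 1, 1, 1, 1, 0], [0, 0, 0, 1, 1, 1, 1]] [[1, 0, 0,
  1, 0, 0, 0], [1, 1, 0, 0, 0, 0, 0], [1, 1, 1, 0, 0, 0, 0], [1, 1, 1, 1, 0, 0, 0], [0, 0, 0, 1,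
  1, 0, 0], [1, 1, 1, 1, 1, 1, 0], [2, 2, 2, 1, 1, 1, 1]] _ _ 3512375760012 446529061586 _ (by
  decide +kernel) nd24 ok7

theorem nd26 : Ok 3 Dn3 [[1, 0, 0, 1, 0, 0, 0], [1, 1, 0, 0, 0, 0, 0], [1, 1, 1, 0, 0, 0, 0],
  [1, 1, 1, 1, 0, 0, 0], [0, 0, 0, 1, 1, 0, 0], [1, 1, 1, 1, 1, 1, 0], [0, 0, 0, 1, 1, 1, 1]]
  387389189 0 2286037080642 :=
  dec3 0 4 0 _ _ 387389205 _ 0 _ (by decide +kernel) nd25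

theorem nd27 : Ok 3 Dn3 [[1, 0, 0, 1, 0, 0, 0], [1, 1, 0, 0, 0, 0, 0], [1, 1, 1, 0, 0, 0, 0],
  [1, 1, 1, 1, 0, 0, 0], [0, 0, 0, 1, 1, 0, 0], [1, 1, 1, 1, 1, 1, 0], [0, 0, 0, 1, 1, 1, 1]]
  387389185 0 2286037080642 :=
  dec3 0 2 0 _ _ 387389189 _ 0 _ (by decide +kernel) nd26

theorem nd28 : Ok 3 Dn3 [[1, 0, 0, 1, 0, 0, 0], [1, 1, 0, 0, 0, 0, 0], [1, 1, 1, 0, 0, 0, 0],
  [1, 1, 1, 1, 0, 0, 0], [0, 0, 0, 1, 1, 0, 0], [1, 1, 1, 1, 1, 1, 0], [0, 0, 0, 1, 1, 1, 1]]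
  387389184 0 2286037080642 :=
  dec3 0 0 0 _ _ 387389185 _ 0 _ (by decide +kernel) nd27

theorem nd29 : Ok 3 Dn3 [[1, 0, 0, 1, 0, 0, 0], [1, 1, 0, 0, 0, 0, 0], [1, 1, 1, 0, 0, 0, 0],
  [0, 0, 0, 1, 0, 0, 0], [0, 0, 0, 1, 1, 0, 0], [1, 1, 1, 1, 1, 1, 0], [0, 0, 0, 1, 1, 1, 1]]
  387389184 0 895499765531 :=
  cut3 2 3 1 1 1 _ [[1, 0, 0, 1, 0, 0, 0], [1, 1, 0, 0, 0, 0, 0], [1, 1, 1, 1, 0, 0, 0], [0, 0,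
  0, 1, 0, 0, 0], [0, 0, 0, 1, 1, 0, 0], [1, 1, 1, 1, 1, 1, 0], [0, 0, 0, 1, 1, 1, 1]] [[1, 0, 0,
  1, 0, 0, 0], [1, 1, 0, 0, 0, 0, 0], [1, 1, 1, 0, 0, 0, 0], [1, 1, 1, 1, 0, 0, 0], [0, 0, 0, 1,
  1, 0, 0], [1, 1, 1, 1, 1, 1, 0], [0, 0, 0, 1, 1, 1, 1]] _ _ 431987327160 2286037080642 _ (by
  decide +kernel) nd17 nd28

theorem nd30 : Ok 3 Dn3 [[1, 0, 0, 1, 0, 0, 0], [1, 1, 0, 0, 0, 0, 0], [1, 1, 1, 0, 0, 0, 0],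
  [0, 0, 0, 1, 0, 0, 0], [0, 0, 0, 1, 1, 0, 0], [0, 0, 0, 1, 1, 1, 0], [0, 0, 0, 1, 1, 1, 1]]
  387389184 0 527238424469 :=
  cut3 2 5 1 1 1 _ [[1, 0, 0, 1, 0, 0, 0], [1, 1, 0, 0, 0, 0, 0], [1, 1, 1, 1, 1, 1, 0], [0, 0,
  0, 1, 0, 0, 0], [0, 0, 0, 1, 1, 0, 0], [0, 0, 0, 1, 1, 1, 0], [0, 0, 0, 1, 1, 1, 1]] [[1, 0, 0,
  1, 0, 0, 0], [1, 1, 0, 0, 0, 0, 0], [1, 1, 1, 0, 0, 0, 0], [0, 0, 0, 1, 0, 0, 0], [0, 0, 0, 1,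
  1, 0, 0], [1, 1, 1, 1, 1, 1, 0], [0, 0, 0, 1, 1, 1, 1]] _ _ 158977083407 895499765531 _ (by
  decide +kernel) nd6 nd29

theorem nd31 : Ok 3 Dn3 [[1, 0, 0, 1, 0, 0, 0], [1, 1, 0, 0, 0, 0, 0], [1, 1, 1, 0, 0, 0, 0],
  [0, 0, 0, 1, 0, 0, 0], [0, 0, 0, 1, 1, 0, 0], [0, 0, 0, 1, 1, 1, 0], [0, 0, 0, 1, 1, 1, 1]]
  353834752 0 527238424469 :=
  dec3 3 1 0 _ _ 387389184 _ 0 _ (by decide +kernel) nd30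

theorem nd32 : Ok 3 Dn3 [[1, 0, 0, 1, 0, 0, 0], [1, 1, 0, 0, 0, 0, 0], [1, 1, 1, 0, 0, 0, 0],
  [0, 0, 0, 1, 0, 0, 0], [0, 0, 0, 1, 1, 0, 0], [0, 0, 0, 1, 1, 1, 0], [0, 0, 0, 1, 1, 1, 1]]
  353703680 0 527238424469 :=
  dec3 2 1 0 _ _ 353834752 _ 0 _ (by decide +kernel) nd31

theorem nd33 : Ok 3 Dn3 [[1, 0, 0, 1, 0, 0, 0], [1, 1, 0, 0, 0, 0, 0], [1, 1, 1, 0, 0, 0, 0],
  [0, 0, 0, 1, 0, 0, 0], [0, 0, 0, 1, 1, 0, 0], [0, 0, 0, 1, 1, 1, 0], [0, 0, 0, 1, 1, 1, 1]]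
  353703168 0 527238424469 :=
  dec3 1 1 0 _ _ 353703680 _ 0 _ (by decide +kernel) nd32

theorem nd34 : Ok 3 Dn3 [[2, 0, 0, 1, 1, 1, 1], [1, 1, 0, 0, 0, 0, 0], [2, 2, 2, 1, 1, 1, 1],
  [1, 0, 0, 1, 0, 0, 0], [0, 0, 0, 1, 1, 0, 0], [1, 1, 1, 1, 1, 1, 0], [0, 0, 0, 1, 1, 1, 1]]
  2004318037 0 2508091487874 :=
  cut3 1 6 1 1 1 _ [[2, 0, 0, 1, 1, 1, 1], [1, 1, 0, 1, 1, 1, 1], [2, 2, 2, 1, 1, 1, 1], [1, 0,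
  0, 1, 0, 0, 0], [0, 0, 0, 1, 1, 0, 0], [1, 1, 1, 1, 1, 1, 0], [0, 0, 0, 1, 1, 1, 1]] [[2, 0, 0,
  1, 1, 1, 1], [1, 1, 0, 0, 0, 0, 0], [2, 2, 2, 1, 1, 1, 1], [1, 0, 0, 1, 0, 0, 0], [0, 0, 0, 1,
  1, 0, 0], [1, 1, 1, 1, 1, 1, 0], [1, 1, 0, 1, 1, 1, 1]] _ _ 5592883379804 965695541908 _ (by
  decide +kernel) ok9 ok10

theorem nd35 : Ok 3 Dn3 [[2, 0, 0, 1, 1, 1, 1], [1, 1, 0, 0, 0, 0, 0], [2, 2, 2, 1, 1, 1, 1],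
  [1, 0, 0, 1, 0, 0, 0], [0, 0, 0, 1, 1, 0, 0], [1, 1, 1, 1, 1, 1, 0], [0, 0, 0, 1, 1, 1, 1]]
  930576213 0 2508091487874 :=
  dec3 3 6 0 _ _ 2004318037 _ 0 _ (by decide +kernel) nd34

theorem nd36 : Ok 3 Dn3 [[2, 0, 0, 1, 1, 1, 1], [1, 1, 0, 0, 0, 0, 0], [2, 2, 2, 1, 1, 1, 1],
  [1, 0, 0, 1, 0, 0, 0], [0, 0, 0, 1, 1, 0, 0], [1, 1, 1, 1, 1, 1, 0], [0, 0, 0, 1, 1, 1, 1]]
  393705301 0 2508091487874 :=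
  dec3 3 5 0 _ _ 930576213 _ 0 _ (by decide +kernel) nd35

theorem nd37 : Ok 3 Dn3 [[2, 0, 0, 1, 1, 1, 1], [1, 1, 0, 0, 0, 0, 0], [2, 2, 2, 1, 1, 1, 1],
  [1, 0, 0, 1, 0, 0, 0], [0, 0, 0, 1, 1, 0, 0], [1, 1, 1, 1, 1, 1, 0], [0, 0, 0, 1, 1, 1, 1]]
  389510997 0 2508091487874 :=
  dec3 2 6 0 _ _ 393705301 _ 0 _ (by decide +kernel) nd36

theorem nd38 : Ok 3 Dn3 [[2, 0, 0, 1, 1, 1, 1], [1, 1, 0, 0, 0, 0, 0], [2, 2, 2, 1, 1, 1, 1],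
  [1, 0, 0, 1, 0, 0, 0], [0, 0, 0, 1, 1, 0, 0], [1, 1, 1, 1, 1, 1, 0], [0, 0, 0, 1, 1, 1, 1]]
  387413845 0 2508091487874 :=
  dec3 2 5 0 _ _ 389510997 _ 0 _ (by decide +kernel) nd37

theorem nd39 : Ok 3 Dn3 [[2, 0, 0, 1, 1, 1, 1], [1, 1, 0, 0, 0, 0, 0], [2, 2, 2, 1, 1, 1, 1],
  [1, 0, 0, 1, 0, 0, 0], [0, 0, 0, 1, 1, 0, 0], [1, 1, 1, 1, 1, 1, 0], [0, 0, 0, 1, 1, 1, 1]]
  387397461 0 2508091487874 :=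
  dec3 1 6 0 _ _ 387413845 _ 0 _ (by decide +kernel) nd38

theorem nd40 : Ok 3 Dn3 [[2, 0, 0, 1, 1, 1, 1], [1, 1, 0, 0, 0, 0, 0], [2, 2, 2, 1, 1, 1, 1],
  [1, 0, 0, 1, 0, 0, 0], [0, 0, 0, 1, 1, 0, 0], [1, 1, 1, 1, 1, 1, 0], [0, 0, 0, 1, 1, 1, 1]]
  387389269 0 2508091487874 :=
  dec3 1 5 0 _ _ 387397461 _ 0 _ (by decide +kernel) nd39

theorem nd41 : Ok 3 Dn3 [[2, 0, 0, 1, 1, 1, 1], [1, 1, 0, 0, 0, 0, 0], [2, 2, 2, 1, 1, 1, 1],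
  [1, 0, 0, 1, 0, 0, 0], [0, 0, 0, 1, 1, 0, 0], [1, 1, 1, 1, 1, 1, 0], [0, 0, 0, 1, 1, 1, 1]]
  387389205 0 2508091487874 :=
  dec3 0 6 0 _ _ 387389269 _ 0 _ (by decide +kernel) nd40

theorem nd42 : Ok 3 Dn3 [[2, 0, 0, 1, 1, 1, 1], [1, 1, 0, 0, 0, 0, 0], [1, 1, 1, 0, 0, 0, 0],
  [1, 0, 0, 1, 0, 0, 0], [0, 0, 0, 1, 1, 0, 0], [1, 1, 1, 1, 1, 1, 0], [0, 0, 0, 1, 1, 1, 1]]
  387389205 0 1764305435426 :=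
  cut3 2 6 2 1 1 _ [[2, 0, 0, 1, 1, 1, 1], [1, 1, 0, 0, 0, 0, 0], [2, 2, 2, 1, 1, 1, 1], [1, 0,
  0, 1, 0, 0, 0], [0, 0, 0, 1, 1, 0, 0], [1, 1, 1, 1, 1, 1, 0], [0, 0, 0, 1, 1, 1, 1]] [[2, 0, 0,
  1, 1, 1, 1], [1, 1, 0, 0, 0, 0, 0], [1, 1, 1, 0, 0, 0, 0], [1, 0, 0, 1, 0, 0, 0], [0, 0, 0, 1,
  1, 0, 0], [1, 1, 1, 1, 1, 1, 0], [2, 2, 2, 1, 1, 1, 1]] _ _ 2508091487874 648626356754 _ (by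
  decide +kernel) nd41 ok11

theorem nd43 : Ok 3 Dn3 [[2, 0, 0, 1, 1, 1, 1], [1, 1, 0, 0, 0, 0, 0], [1, 1, 1, 0, 0, 0, 0],
  [1, 0, 0, 1, 0, 0, 0], [0, 0, 0, 1, 1, 0, 0], [0, 0, 0, 1, 1, 1, 0], [0, 0, 0, 1, 1, 1, 1]]
  387389205 0 1078981384083 :=
  cut3 2 5 1 1 1 _ [[2, 0, 0, 1, 1, 1, 1], [1, 1, 0, 0, 0, 0, 0], [1, 1, 1, 1, 1, 1, 0], [1, 0,
  0, 1, 0, 0, 0], [0, 0, 0, 1, 1, 0, 0], [0, 0, 0, 1, 1, 1, 0], [0, 0, 0, 1, 1, 1, 1]] [[2, 0, 0,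
  1, 1, 1, 1], [1, 1, 0, 0, 0, 0, 0], [1, 1, 1, 0, 0, 0, 0], [1, 0, 0, 1, 0, 0, 0], [0, 0, 0, 1,
  1, 0, 0], [1, 1, 1, 1, 1, 1, 0], [0, 0, 0, 1, 1, 1, 1]] _ _ 393657332740 1764305435426 _ (by
  decide +kernel) ok8 nd42

theorem nd44 : Ok 3 Dn3 [[2, 0, 0, 1, 1, 1, 1], [1, 1, 0, 0, 0, 0, 0], [1, 1, 1, 0, 0, 0, 0],
  [1, 0, 0, 1, 0, 0, 0], [0, 0, 0, 1, 1, 0, 0], [0, 0, 0, 1, 1, 1, 0], [0, 0, 0, 1, 1, 1, 1]]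
  353834773 0 1078981384083 :=
  dec3 3 1 0 _ _ 387389205 _ 0 _ (by decide +kernel) nd43

theorem nd45 : Ok 3 Dn3 [[2, 0, 0, 1, 1, 1, 1], [1, 1, 0, 0, 0, 0, 0], [1, 1, 1, 0, 0, 0, 0],
  [1, 0, 0, 1, 0, 0, 0], [0, 0, 0, 1, 1, 0, 0], [0, 0, 0, 1, 1, 1, 0], [0, 0, 0, 1, 1, 1, 1]]
  353703701 0 1078981384083 :=
  dec3 2 1 0 _ _ 353834773 _ 0 _ (by decide +kernel) nd44

theorem nd46 : Ok 3 Dn3 [[2, 0, 0, 1, 1, 1, 1], [1, 1, 0, 0, 0, 0, 0], [1, 1, 1, 0, 0, 0, 0],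
  [1, 0, 0, 1, 0, 0, 0], [0, 0, 0, 1, 1, 0, 0], [0, 0, 0, 1, 1, 1, 0], [0, 0, 0, 1, 1, 1, 1]]
  353703189 0 1078981384083 :=
  dec3 1 1 0 _ _ 353703701 _ 0 _ (by decide +kernel) nd45

theorem nd47 : Ok 3 Dn3 [[1, 0, 0, 0, 0, 0, 0], [1, 1, 0, 0, 0, 0, 0], [1, 1, 1, 0, 0, 0, 0],
  [1, 0, 0, 1, 0, 0, 0], [0, 0, 0, 1, 1, 0, 0], [1, 1, 1, 1, 1, 1, 0], [2, 0, 0, 1, 1, 1, 1]]
  353746365 14 550625939356 :=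
  cut3 0 2 1 1 1 _ [[2, 1, 1, 0, 0, 0, 0], [1, 1, 0, 0, 0, 0, 0], [1, 1, 1, 0, 0, 0, 0], [1, 0,
  0, 1, 0, 0, 0], [0, 0, 0, 1, 1, 0, 0], [1, 1, 1, 1, 1, 1, 0], [2, 0, 0, 1, 1, 1, 1]] [[1, 0, 0,
  0, 0, 0, 0], [1, 1, 0, 0, 0, 0, 0], [2, 1, 1, 0, 0, 0, 0], [1, 0, 0, 1, 0, 0, 0], [0, 0, 0, 1,
  1, 0, 0], [1, 1, 1, 1, 1, 1, 0], [2, 0, 0, 1, 1, 1, 1]] _ _ 318686775504 627938993973 _ (by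
  decide +kernel) ok13 ok14

theorem nd48 : Ok 3 Dn3 [[1, 0, 0, 0, 0, 0, 0], [1, 1, 0, 0, 0, 0, 0], [1, 1, 1, 0, 0, 0, 0],
  [1, 0, 0, 1, 0, 0, 0], [0, 0, 0, 1, 1, 0, 0], [1, 1, 1, 1, 1, 1, 0], [2, 0, 0, 1, 1, 1, 1]]
  353713597 13 550625939356 :=
  dec3 1 7 1 _ _ 353746365 _ 14 _ (by decide +kernel) nd47

theorem nd49 : Ok 3 Dn3 [[1, 0, 0, 0, 0, 0, 0], [1, 1, 0, 0, 0, 0, 0], [1, 1, 1, 0, 0, 0, 0],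
  [1, 0, 0, 1, 0, 0, 0], [0, 0, 0, 1, 1, 0, 0], [1, 1, 1, 1, 1, 1, 0], [2, 0, 0, 1, 1, 1, 1]]
  353705405 10 550625939356 :=
  dec3 1 5 1 _ _ 353713597 _ 13 _ (by decide +kernel) nd48

theorem nd50 : Ok 3 Dn3 [[1, 0, 0, 0, 0, 0, 0], [1, 1, 0, 0, 0, 0, 0], [1, 1, 1, 0, 0, 0, 0],
  [1, 0, 0, 1, 0, 0, 0], [0, 0, 0, 1, 1, 0, 0], [1, 1, 1, 1, 1, 1, 0], [2, 0, 0, 1, 1, 1, 1]]
  353703357 7 550625939356 :=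
  dec3 1 3 1 _ _ 353705405 _ 10 _ (by decide +kernel) nd49

theorem nd51 : Ok 3 Dn3 [[1, 0, 0, 0, 0, 0, 0], [1, 1, 0, 0, 0, 0, 0], [1, 1, 1, 0, 0, 0, 0],
  [1, 0, 0, 1, 0, 0, 0], [0, 0, 0, 1, 1, 0, 0], [1, 1, 1, 1, 1, 1, 0], [2, 0, 0, 1, 1, 1, 1]]
  353703229 6 550625939356 :=
  dec3 0 7 1 _ _ 353703357 _ 7 _ (by decide +kernel) nd50

theorem nd52 : Ok 3 Dn3 [[1, 0, 0, 0, 0, 0, 0], [1, 1, 0, 0, 0, 0, 0], [1, 1, 1, 0, 0, 0, 0],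
  [1, 0, 0, 1, 0, 0, 0], [0, 0, 0, 1, 1, 0, 0], [1, 1, 1, 1, 1, 1, 0], [2, 0, 0, 1, 1, 1, 1]]
  353703197 3 550625939356 :=
  dec3 0 5 1 _ _ 353703229 _ 6 _ (by decide +kernel) nd51

theorem nd53 : Ok 3 Dn3 [[1, 0, 0, 0, 0, 0, 0], [1, 1, 0, 0, 0, 0, 0], [1, 1, 1, 0, 0, 0, 0],
  [1, 0, 0, 1, 0, 0, 0], [0, 0, 0, 1, 1, 0, 0], [1, 1, 1, 1, 1, 1, 0], [2, 0, 0, 1, 1, 1, 1]]
  353703189 0 550625939356 :=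
  dec3 0 3 1 _ _ 353703197 _ 3 _ (by decide +kernel) nd52

theorem nd54 : Ok 3 Dn3 [[1, 0, 0, 0, 0, 0, 0], [1, 1, 0, 0, 0, 0, 0], [1, 1, 1, 0, 0, 0, 0],
  [1, 0, 0, 1, 0, 0, 0], [0, 0, 0, 1, 1, 0, 0], [0, 0, 0, 1, 1, 1, 0], [2, 0, 0, 1, 1, 1, 1]]
  353703189 0 332127976479 :=
  cut3 2 5 1 1 1 _ [[1, 0, 0, 0, 0, 0, 0], [1, 1, 0, 0, 0, 0, 0], [1, 1, 1, 1, 1, 1, 0], [1, 0,
  0, 1, 0, 0, 0], [0, 0, 0, 1, 1, 0, 0], [0, 0, 0, 1, 1, 1, 0], [2, 0, 0, 1, 1, 1, 1]] [[1, 0, 0,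
  0, 0, 0, 0], [1, 1, 0, 0, 0, 0, 0], [1, 1, 1, 0, 0, 0, 0], [1, 0, 0, 1, 0, 0, 0], [0, 0, 0, 1,
  1, 0, 0], [1, 1, 1, 1, 1, 1, 0], [2, 0, 0, 1, 1, 1, 1]] _ _ 113630013601 550625939356 _ (by
  decide +kernel) ok12 nd53

theorem nd55 : Ok 3 Dn3 [[1, 0, 0, 0, 0, 0, 0], [1, 1, 0, 0, 0, 0, 0], [1, 1, 1, 0, 0, 0, 0],
  [1, 0, 0, 1, 0, 0, 0], [0, 0, 0, 1, 1, 0, 0], [0, 0, 0, 1, 1, 1, 0], [0, 0, 0, 1, 1, 1, 1]]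
  353703189 0 581079112347 :=
  cut3 0 6 2 1 1 _ [[2, 0, 0, 1, 1, 1, 1], [1, 1, 0, 0, 0, 0, 0], [1, 1, 1, 0, 0, 0, 0], [1, 0,
  0, 1, 0, 0, 0], [0, 0, 0, 1, 1, 0, 0], [0, 0, 0, 1, 1, 1, 0], [0, 0, 0, 1, 1, 1, 1]] [[1, 0, 0,
  0, 0, 0, 0], [1, 1, 0, 0, 0, 0, 0], [1, 1, 1, 0, 0, 0, 0], [1, 0, 0, 1, 0, 0, 0], [0, 0, 0, 1,
  1, 0, 0], [0, 0, 0, 1, 1, 1, 0], [2, 0, 0, 1, 1, 1, 1]] _ _ 1078981384083 332127976479 _ (by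
  decide +kernel) nd46 nd54

theorem nd56 : Ok 3 Dn3 [[1, 0, 0, 0, 0, 0, 0], [1, 1, 0, 0, 0, 0, 0], [1, 1, 1, 0, 0, 0, 0],
  [1, 0, 0, 1, 0, 0, 0], [0, 0, 0, 1, 1, 0, 0], [0, 0, 0, 1, 1, 1, 0], [0, 0, 0, 1, 1, 1, 1]]
  353703173 0 581079112347 :=
  dec3 0 4 0 _ _ 353703189 _ 0 _ (by decide +kernel) nd55

theorem nd57 : Ok 3 Dn3 [[1, 0, 0, 0, 0, 0, 0], [1, 1, 0, 0, 0, 0, 0], [1, 1, 1, 0, 0, 0, 0],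
  [1, 0, 0, 1, 0, 0, 0], [0, 0, 0, 1, 1, 0, 0], [0, 0, 0, 1, 1, 1, 0], [0, 0, 0, 1, 1, 1, 1]]
  353703169 0 581079112347 :=
  dec3 0 2 0 _ _ 353703173 _ 0 _ (by decide +kernel) nd56

theorem nd58 : Ok 3 Dn3 [[1, 0, 0, 0, 0, 0, 0], [1, 1, 0, 0, 0, 0, 0], [1, 1, 1, 0, 0, 0, 0],
  [1, 0, 0, 1, 0, 0, 0], [0, 0, 0, 1, 1, 0, 0], [0, 0, 0, 1, 1, 1, 0], [0, 0, 0, 1, 1, 1, 1]]
  353703168 0 581079112347 :=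
  dec3 0 0 0 _ _ 353703169 _ 0 _ (by decide +kernel) nd57

theorem nd59 : Ok 3 Dn3 [[1, 0, 0, 0, 0, 0, 0], [1, 1, 0, 0, 0, 0, 0], [1, 1, 1, 0, 0, 0, 0],
  [0, 0, 0, 1, 0, 0, 0], [0, 0, 0, 1, 1, 0, 0], [0, 0, 0, 1, 1, 1, 0], [0, 0, 0, 1, 1, 1, 1]]
  353703168 0 554158768408 :=
  cut3 0 3 1 1 1 _ [[1, 0, 0, 1, 0, 0, 0], [1, 1, 0, 0, 0, 0, 0], [1, 1, 1, 0, 0, 0, 0], [0, 0,
  0, 1, 0, 0, 0], [0, 0, 0, 1, 1, 0, 0], [0, 0, 0, 1, 1, 1, 0], [0, 0, 0, 1, 1, 1, 1]] [[1, 0, 0,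
  0, 0, 0, 0], [1, 1, 0, 0, 0, 0, 0], [1, 1, 1, 0, 0, 0, 0], [1, 0, 0, 1, 0, 0, 0], [0, 0, 0, 1,
  1, 0, 0], [0, 0, 0, 1, 1, 1, 0], [0, 0, 0, 1, 1, 1, 1]] _ _ 527238424469 581079112347 _ (by
  decide +kernel) nd33 nd58

theorem nd60 : Ok 3 Dn3 [[1, 0, 0, 0, 0, 0, 0], [1, 1, 0, 0, 0, 0, 0], [1, 1, 1, 0, 0, 0, 0],
  [0, 0, 0, 1, 0, 0, 0], [0, 0, 0, 1, 1, 0, 0], [0, 0, 0, 1, 1, 1, 0], [0, 0, 0, 1, 1, 1, 1]]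
  85267712 0 554158768408 :=
  dec3 3 4 0 _ _ 353703168 _ 0 _ (by decide +kernel) nd59

theorem nd61 : Ok 3 Dn3 [[1, 0, 0, 0, 0, 0, 0], [1, 1, 0, 0, 0, 0, 0], [1, 1, 1, 0, 0, 0, 0],
  [0, 0, 0, 1, 0, 0, 0], [0, 0, 0, 1, 1, 0, 0], [0, 0, 0, 1, 1, 1, 0], [0, 0, 0, 1, 1, 1, 1]]
  18158848 0 554158768408 :=
  dec3 3 2 0 _ _ 85267712 _ 0 _ (by decide +kernel) nd60

theorem nd62 : Ok 3 Dn3 [[1, 0, 0, 0, 0, 0, 0], [1, 1, 0, 0, 0, 0, 0], [1, 1, 1, 0, 0, 0, 0],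
  [0, 0, 0, 1, 0, 0, 0], [0, 0, 0, 1, 1, 0, 0], [0, 0, 0, 1, 1, 1, 0], [0, 0, 0, 1, 1, 1, 1]]
  1381632 0 554158768408 :=
  dec3 3 0 0 _ _ 18158848 _ 0 _ (by decide +kernel) nd61

theorem nd63 : Ok 3 Dn3 [[1, 0, 0, 0, 0, 0, 0], [1, 1, 0, 0, 0, 0, 0], [1, 1, 1, 0, 0, 0, 0],
  [0, 0, 0, 1, 0, 0, 0], [0, 0, 0, 1, 1, 0, 0], [0, 0, 0, 1, 1, 1, 0], [0, 0, 0, 1, 1, 1, 1]]
  333056 0 554158768408 :=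
  dec3 2 4 0 _ _ 1381632 _ 0 _ (by decide +kernel) nd62

theorem nd64 : Ok 3 Dn3 [[1, 0, 0, 0, 0, 0, 0], [1, 1, 0, 0, 0, 0, 0], [1, 1, 1, 0, 0, 0, 0],
  [0, 0, 0, 1, 0, 0, 0], [0, 0, 0, 1, 1, 0, 0], [0, 0, 0, 1, 1, 1, 0], [0, 0, 0, 1, 1, 1, 1]]
  70912 0 554158768408 :=
  dec3 2 2 0 _ _ 333056 _ 0 _ (by decide +kernel) nd63

theorem nd65 : Ok 3 Dn3 [[1, 0, 0, 0, 0, 0, 0], [1, 1, 0, 0, 0, 0, 0], [1, 1, 1, 0, 0, 0, 0],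
  [0, 0, 0, 1, 0, 0, 0], [0, 0, 0, 1, 1, 0, 0], [0, 0, 0, 1, 1, 1, 0], [0, 0, 0, 1, 1, 1, 1]]
  5376 0 554158768408 :=
  dec3 2 0 0 _ _ 70912 _ 0 _ (by decide +kernel) nd64

theorem nd66 : Ok 3 Dn3 [[1, 0, 0, 0, 0, 0, 0], [1, 1, 0, 0, 0, 0, 0], [1, 1, 1, 0, 0, 0, 0],
  [0, 0, 0, 1, 0, 0, 0], [0, 0, 0, 1, 1, 0, 0], [0, 0, 0, 1, 1, 1, 0], [0, 0, 0, 1, 1, 1, 1]]
  1280 0 554158768408 :=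
  dec3 1 4 0 _ _ 5376 _ 0 _ (by decide +kernel) nd65

theorem nd67 : Ok 3 Dn3 [[1, 0, 0, 0, 0, 0, 0], [1, 1, 0, 0, 0, 0, 0], [1, 1, 1, 0, 0, 0, 0],
  [0, 0, 0, 1, 0, 0, 0], [0, 0, 0, 1, 1, 0, 0], [0, 0, 0, 1, 1, 1, 0], [0, 0, 0, 1, 1, 1, 1]] 256
  0 554158768408 :=
  dec3 1 2 0 _ _ 1280 _ 0 _ (by decide +kernel) nd66

theorem nd68 : Ok 3 Dn3 [[1, 0, 0, 0, 0, 0, 0], [1, 1, 0, 0, 0, 0, 0], [1, 1, 1, 0, 0, 0, 0],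
  [0, 0, 0, 1, 0, 0, 0], [0, 0, 0, 1, 1, 0, 0], [0, 0, 0, 1, 1, 1, 0], [0, 0, 0, 1, 1, 1, 1]] 0 0
  554158768408 :=
  dec3 1 0 0 _ _ 256 _ 0 _ (by decide +kernel) nd67

theorem root3 : Ok 3 Dn3 (bs 3) 0 0 554158768408 := nd68

end Pool.Agent.Work.MP_122e00_nt.Four.Cx

end

section

set_option autoImplicit false

/-!
# The certificate for four parts: the bound
-/

namespace Pool.Agent.Work.MP_122e00_nt.Four.Cx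

open Finset MeasureTheory

open scoped ENNReal

open Gen Sharp Sharp.Cx

noncomputable section

theorem bd1 : Bd 1 Dn1 (bs 1) 82451988 :=
  ok_run 1 Dn1 cls1 q5 dm1 trs1 (bs 1) 0 0 82451988 dts1
    (prfK3 1 (by norm_num) (by norm_num)).1 (prfG2 1 (bs 1))

theorem bd2 : Bd 2 Dn2 (bs 2) 1574024765 :=
  ok_run 2 Dn2 cls2 q5 dm2 trs2 (bs 2) 0 0 1574024765 dts2
    (prfK3 2 (by norm_num) (by norm_num)).1 (prfG2 2 (bs 2))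

theorem bd3 : Bd 3 Dn3 (bs 3) 554158768408 :=
  root3 (prfK3 3 (by norm_num) (by norm_num)).1 (prfG2 3 (bs 3))

theorem jk1 : Four.Jk 11 1 128 ≤ ENNReal.ofReal (82451988 / 1000000000000) := by
  have h := bd1
  unfold Bd at h
  rw [(prfK3 1 (by norm_num) (by norm_num)).2] at h
  unfold Four.Jk
  calc _ ≤ ENNReal.ofReal (1 / ((1 : ℕ).factorial : ℝ)) *
        ENNReal.ofReal ((82451988 : ℕ) / (Sc : ℝ)) := by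
        gcongr
        exact h
    _ ≤ _ := by
        rw [← ENNReal.ofReal_mul (by positivity)]
        refine ENNReal.ofReal_le_ofReal ?_
        norm_num [Sc, Nat.factorial]

theorem jk2 : Four.Jk 11 2 128 ≤ ENNReal.ofReal (1574024765 / 1000000000000 / 2) := by
  have h := bd2
  unfold Bd at h
  rw [(prfK3 2 (by norm_num) (by norm_num)).2] at h
  unfold Four.Jk
  calc _ ≤ ENNReal.ofReal (1 / ((2 : ℕ).factorial : ℝ)) *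
        ENNReal.ofReal ((1574024765 : ℕ) / (Sc : ℝ)) := by
        gcongr
        exact h
    _ ≤ _ := by
        rw [← ENNReal.ofReal_mul (by positivity)]
        refine ENNReal.ofReal_le_ofReal ?_
        norm_num [Sc, Nat.factorial]

theorem jh3 : Four.JH 11 2 128 ≤ ENNReal.ofReal (554158768408 / 1000000000000 / 6) := by
  have h := bd3
  unfold Bd at h
  rw [(prfK3 3 (by norm_num) (by norm_num)).2] at h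
  unfold Four.JH
  calc _ ≤ ENNReal.ofReal (1 / ((2 + 1 : ℕ).factorial : ℝ)) *
        ENNReal.ofReal ((554158768408 : ℕ) / (Sc : ℝ)) := by
        gcongr
        exact h
    _ ≤ _ := by
        rw [← ENNReal.ofReal_mul (by positivity)]
        refine ENNReal.ofReal_le_ofReal ?_
        norm_num [Sc, Nat.factorial]

/-- The certificate. -/
theorem certBound : ∑ k ∈ Finset.range 2, Four.Jk 11 (k + 1) 128 + Four.JH 11 2 128 ≤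
    ENNReal.ofReal (9323 / 100000) := by
  rw [Finset.sum_range_succ, Finset.sum_range_succ, Finset.sum_range_zero, zero_add]
  calc _ ≤ ENNReal.ofReal (82451988 / 1000000000000) +
        ENNReal.ofReal (1574024765 / 1000000000000 / 2) +
        ENNReal.ofReal (554158768408 / 1000000000000 / 6) := by
        gcongr
        · exact jk1
        · exact jk2
        · exact jh3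
    _ = ENNReal.ofReal (82451988 / 1000000000000 + 1574024765 / 1000000000000 / 2 +
        554158768408 / 1000000000000 / 6) := by
        rw [ENNReal.ofReal_add (by norm_num) (by norm_num),
          ENNReal.ofReal_add (by norm_num) (by norm_num)]
    _ ≤ _ := ENNReal.ofReal_le_ofReal (by norm_num)

end

end Pool.Agent.Work.MP_122e00_nt.Four.Cx

end
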