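import Pool.Agent.Work.MP_122e00_nt.Sharp.Stmts
import Pool.Agent.Work.MP_122e00_nt.Bd.B44
import Pool.Agent.Work.MP_122e00_nt.Bd.B54

/-! Bundle of small proof modules (one section per former module). -/

section

/-! Bundle of small proof modules (one section per former module). -/

section

set_option autoImplicit false

/-!
# D2: ranks
-/

namespace Pool.Agent.Work.MP_122e00_nt.Sharp

open Finset Filter Topology MeasureTheory

open scoped ENNReal ArithmeticFunction.vonMangoldt ArithmeticFunction.zeta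

open Two Gen

namespace ID2

variable {k : ℕ}

/-- `i` comes before `j`. -/
def Bf (x : Fin k → ℝ) (i j : Fin k) : Prop := x j < x i ∨ (x i = x j ∧ i < j)

open Classical in
theorem rk_eq (x : Fin k → ℝ) (j : Fin k) :
    rk x j = (Finset.univ.filter fun i => Bf x i j).card := by
  unfold rk
  apply congrArg Finset.card
  ext i
  simp only [Finset.mem_filter, Finset.mem_univ, true_and]
  rfl

theorem irrefl (x : Fin k → ℝ) (i : Fin k) : ¬ Bf x i i := by
  rintro (h | ⟨-, h⟩)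
  · exact lt_irrefl _ h
  · exact lt_irrefl _ h

theorem trans' (x : Fin k → ℝ) {a b c : Fin k} (h1 : Bf x a b) (h2 : Bf x b c) : Bf x a c := by
  rcases h1 with h1 | ⟨h1, h1'⟩ <;> rcases h2 with h2 | ⟨h2, h2'⟩
  · exact Or.inl (h2.trans h1)
  · exact Or.inl (by rw [← h2]; exact h1)
  · exact Or.inl (by rw [h1]; exact h2)
  · exact Or.inr ⟨h1.trans h2, h1'.trans h2'⟩

theorem tot (x : Fin k → ℝ) {i j : Fin k} (h : i ≠ j) : Bf x i j ∨ Bf x j i := by
  rcases lt_trichotomy (x i) (x j) with h1 | h1 | h1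
  · exact Or.inr (Or.inl h1)
  · rcases lt_or_gt_of_ne h with h2 | h2
    · exact Or.inl (Or.inr ⟨h1, h2⟩)
    · exact Or.inr (Or.inr ⟨h1.symm, h2⟩)
  · exact Or.inl (Or.inl h1)

theorem rk_lt_of_bf (x : Fin k → ℝ) {i j : Fin k} (h : Bf x i j) : rk x i < rk x j := by
  classical
  rw [rk_eq, rk_eq]
  apply Finset.card_lt_card
  rw [Finset.ssubset_iff_of_subset]
  · refine ⟨i, ?_, ?_⟩
    · simpa using h
    · simpa using irrefl x i
  · intro a ha
    simp only [Finset.mem_filter, Finset.mem_univ, true_and] at ha ⊢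
    exact trans' x ha h

theorem rk_inj (x : Fin k → ℝ) : Function.Injective (rk x) := by
  intro i j hij
  by_contra hne
  rcases tot x hne with h | h
  · exact (rk_lt_of_bf x h).ne hij
  · exact (rk_lt_of_bf x h).ne' hij

theorem rk_lt (x : Fin k → ℝ) (j : Fin k) : rk x j < k := by
  classical
  rw [rk_eq]
  calc (Finset.univ.filter fun i => Bf x i j).card < (Finset.univ : Finset (Fin k)).card := by
        apply Finset.card_lt_card
        rw [Finset.ssubset_iff_of_subset (Finset.filter_subset _ _)]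
        exact ⟨j, Finset.mem_univ _, by simpa using irrefl x j⟩
    _ = k := by simp

theorem image_rk (x : Fin k → ℝ) : Finset.univ.image (rk x) = Finset.range k := by
  apply Finset.eq_of_subset_of_card_le
  · intro a ha
    obtain ⟨j, -, rfl⟩ := Finset.mem_image.1 ha
    exact Finset.mem_range.2 (rk_lt x j)
  · rw [Finset.card_image_of_injective _ (rk_inj x)]
    simp

end ID2

theorem prfD2 : claimD2 := by
  intro k T x
  have h1 : (Finset.univ.filter fun j => rk x j < T).image (rk x) =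
      (Finset.range k).filter fun a => a < T := by
    rw [← ID2.image_rk x]
    ext a
    simp only [Finset.mem_image, Finset.mem_filter, Finset.mem_univ, true_and]
    constructor
    · rintro ⟨j, hj, rfl⟩
      exact ⟨⟨j, rfl⟩, hj⟩
    · rintro ⟨⟨j, rfl⟩, hj⟩
      exact ⟨j, hj, rfl⟩
  have h2 : (Finset.univ.filter fun j => rk x j < T).card =
      ((Finset.range k).filter fun a => a < T).card := by
    rw [← h1, Finset.card_image_of_injective _ (ID2.rk_inj x)]
  rw [h2]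
  have h3 : (Finset.range k).filter (fun a => a < T) = Finset.range (min T k) := by
    ext a
    simp only [Finset.mem_filter, Finset.mem_range, lt_min_iff]
    exact and_comm
  rw [h3, Finset.card_range]

end Pool.Agent.Work.MP_122e00_nt.Sharp

end

section

set_option autoImplicit false

/-!
# D3: every placement is in `NN s k T` groups
-/

namespace Pool.Agent.Work.MP_122e00_nt.Sharp

open Finset Filter Topology MeasureTheory

open scoped ENNReal ArithmeticFunction.vonMangoldt ArithmeticFunction.zeta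

open Two Gen

namespace ID3

open Classical in
theorem card_fiber {s k T : ℕ} (hD2 : claimD2) (x : Fin k → ℝ) (c' : Fin k → Fin (s + 1)) :
    ((Finset.univ.filter fun c : Fin k → Fin (s + 1) =>
      ∀ j, T ≤ rk x j → c' j = c j).card : ℝ) = NN s k T := by
  have h1 : (Finset.univ.filter fun c : Fin k → Fin (s + 1) => ∀ j, T ≤ rk x j → c' j = c j) =
      Fintype.piFinset (fun j => if T ≤ rk x j then {c' j} else Finset.univ) := by
    ext c
    simp only [Finset.mem_filter, Finset.mem_univ, true_and, Fintype.mem_piFinset]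
    refine forall_congr' fun j => ?_
    by_cases h : T ≤ rk x j
    · simp [h, eq_comm]
    · simp [h]
  rw [h1, Fintype.card_piFinset]
  have h2 : ∀ j : Fin k, (if T ≤ rk x j then ({c' j} : Finset (Fin (s + 1))) else
      Finset.univ).card = if rk x j < T then s + 1 else 1 := by
    intro j
    by_cases h : T ≤ rk x j
    · rw [if_pos h, if_neg (not_lt.2 h), Finset.card_singleton]
    · rw [if_neg h, if_pos (not_le.1 h), Finset.card_univ, Fintype.card_fin]
  rw [Finset.prod_congr rfl fun j _ => h2 j, Finset.prod_ite, Finset.prod_const,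
    Finset.prod_const_one, mul_one, hD2 k T x]
  unfold NN
  push_cast
  rfl

end ID3

theorem prfD3 (hD2 : claimD2) : claimD3 := by
  classical
  intro s k T g x v
  unfold Gr
  rw [Finset.sum_comm]
  have h1 : ∀ c' : Fin k → Fin (s + 1), (∑ c : Fin k → Fin (s + 1),
      if (∀ j, T ≤ rk x j → c' j = c j) then g (plc x v c') else 0) =
      NN s k T * g (plc x v c') := by
    intro c'
    rw [← Finset.sum_filter, Finset.sum_const, nsmul_eq_mul, ID3.card_fiber hD2 x c']
  rw [Finset.sum_congr rfl fun c' _ => h1 c', ← Finset.mul_sum]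
  rfl

end Pool.Agent.Work.MP_122e00_nt.Sharp

end

section

set_option autoImplicit false

/-!
# Sharp scheme, item D4 (helper43): the inequality for one tuple of marks
-/

namespace Pool.Agent.Work.MP_122e00_nt.Sharp

open Finset Filter Topology MeasureTheory

open Two Gen

namespace ID4

theorem NN_pos (s k T : ℕ) : 0 < NN s k T := by
  unfold NN
  positivity

theorem Gr_nonneg {s k : ℕ} (T : ℕ) {g : (Fin (s + 1) → ℝ) → ℝ} (hg : ∀ w, 0 ≤ g w)
    (x : Fin k → ℝ) (v : Fin (s + 1) → ℝ) (c : Fin k → Fin (s + 1)) : 0 ≤ Gr T g x v c := by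
  unfold Gr
  refine Finset.sum_nonneg fun c' _ => ?_
  split_ifs
  · exact hg _
  · exact le_rfl

end ID4

theorem prfD4 (h3 : claimD3) : claimD4 := by
  classical
  intro s k T R g x v hg
  have hN : 0 < NN s k T := ID4.NN_pos s k T
  have hG : ∀ c, 0 ≤ Gr T g x v c := fun c => ID4.Gr_nonneg T hg x v c
  have hsum : ∑ c, Gr T g x v c / NN s k T = Pl g x v := by
    rw [← Finset.sum_div, h3 s k T g x v, mul_div_cancel_left₀ _ hN.ne']
  have hHC : HC T R g x v - 2 * (R - 1) * Zc T g x v =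
      ∑ c, if 0 < Gr T g x v c then
        (NN s k T - Gr T g x v c) ^ 2 / (NN s k T * Gr T g x v c) else 0 := by
    unfold HC Zc
    rw [Finset.mul_sum, ← Finset.sum_sub_distrib]
    refine Finset.sum_congr rfl fun c _ => ?_
    unfold ph
    split_ifs <;> ring
  have hf : ∀ c, 0 ≤ (if 0 < Gr T g x v c then
        (NN s k T - Gr T g x v c) ^ 2 / (NN s k T * Gr T g x v c) else 0 : ℝ) := by
    intro c
    split_ifs with h
    · positivity
    · exact le_rfl
  refine ⟨?_, ?_, ?_, ?_⟩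
  · have hcard : ((s : ℝ) + 1) ^ k = ∑ _c : Fin k → Fin (s + 1), (1 : ℝ) := by
      simp
    rw [hcard, ← hsum, ← Finset.sum_sub_distrib]
    unfold Up Zc
    rw [← Finset.sum_add_distrib]
    refine Finset.sum_congr rfl fun c _ => ?_
    split_ifs with h
    · field_simp
      ring
    · have : Gr T g x v c = 0 := le_antisymm (not_lt.1 h) (hG c)
      rw [this]
      simp
  · unfold Zc
    refine Finset.sum_nonneg fun c _ => ?_
    split_ifs <;> norm_num
  · rw [hHC]
    exact Finset.sum_nonneg fun c _ => hf c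
  · rw [hHC, ← hsum]
    unfold Up
    refine Finset.sum_sq_le_sum_mul_sum_of_sq_eq_mul _ (fun c _ => hf c)
      (fun c _ => div_nonneg (hG c) hN.le) fun c _ => ?_
    split_ifs with h
    · have := hN.ne'
      have := h.ne'
      field_simp
    · simp

end Pool.Agent.Work.MP_122e00_nt.Sharp

end

section

set_option autoImplicit false

/-!
# D5: the inequality for the structure sums
-/

namespace Pool.Agent.Work.MP_122e00_nt.Sharp

open Finset Filter Topology MeasureTheory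

open scoped ENNReal ArithmeticFunction.vonMangoldt ArithmeticFunction.zeta

open Two Gen

namespace ID5

theorem rest_nonneg {s k : ℕ} (x : Fin k → ℝ) (v : Fin (s + 1) → ℝ) (hx : ∀ j, 0 < x j)
    (hv : ∀ i, 0 ≤ v i) : 0 ≤ rest x v := by
  unfold rest
  refine Finset.prod_nonneg fun j _ => ?_
  have h1 : ∑ i ∈ Finset.univ.filter (fun i : Fin k => i < j), x i ≤ ∑ i, x i :=
    Finset.sum_le_sum_of_subset_of_nonneg (Finset.filter_subset _ _) fun i _ _ => (hx i).le
  have h2 : 0 ≤ ∑ i, v i := Finset.sum_nonneg fun i _ => hv i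
  linarith

theorem Pl_one {s k : ℕ} (x : Fin k → ℝ) (v : Fin (s + 1) → ℝ) :
    Pl (fun _ => (1 : ℝ)) x v = ((s : ℝ) + 1) ^ k := by
  unfold Pl
  simp

theorem Qo_zero {m : ℕ} (hm : 1 ≤ m) (x : Fin 0 → ℝ) : Qo 0 m x = 0 := by
  unfold Qo
  rw [if_neg (by omega)]

theorem TS_zero (L : ℝ) (s k n : ℕ) : TS L s k n (fun _ _ => (0 : ℝ)) = 0 := by
  have h := (Two.prfT1 L s k n (fun _ _ => (0 : ℝ)) (fun _ _ => (0 : ℝ)) 0).2
  rw [zero_mul] at h
  simpa using h

theorem TS_neg (L : ℝ) (s k n : ℕ) (F : (Fin k → ℝ) → (Fin (s + 1) → ℝ) → ℝ) :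
    TS L s k n (fun x v => -F x v) = -TS L s k n F := by
  have h := (Two.prfT1 L s k n F F (-1)).2
  rw [neg_one_mul] at h
  rw [← h]
  congr 1
  funext x v
  ring

theorem final {N d W UP Z H H' A R : ℝ} (hA : A = N * W) (hd : N * d = A + UP + Z)
    (hH : H = H' + 2 * (R - 1) * Z) (hZ : 0 ≤ Z) (hR : 1 ≤ R) (hN : 0 ≤ N)
    (hdR : d ≤ R * W) (hUP : UP ^ 2 ≤ H' * A) (hH' : 0 ≤ H') :
    0 ≤ H ∧ (N * (d - W)) ^ 2 ≤ H * (N * W) := by
  have hR1 : 0 ≤ R - 1 := by linarith
  refine ⟨?_, ?_⟩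
  · rw [hH]; positivity
  · have h1 : N * (d - W) = UP + Z := by rw [mul_sub, hd, hA]; ring
    have h2 : N * (d - W) ≤ (R - 1) * A := by
      rw [hA]
      have := mul_le_mul_of_nonneg_left hdR hN
      nlinarith
    have h3 : UP ≤ N * (d - W) := by rw [h1]; linarith
    have h4 : (N * (d - W)) ^ 2 = UP ^ 2 + Z * (UP + N * (d - W)) := by
      rw [h1]; ring
    rw [h4, ← hA, hH]
    have h5 : Z * (UP + N * (d - W)) ≤ Z * (2 * ((R - 1) * A)) :=
      mul_le_mul_of_nonneg_left (by linarith) hZ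
    nlinarith

end ID5

theorem prfD5 (h1 : claimD1) (h4 : claimD4) (hQ : claimQ3) (h3 : Gen.claimB3)
    (h5 : Gen.claimB5) : claimD5 := by
  intro L s m T n R g hL hn hm hR hg hd
  have hN : 0 ≤ (Real.log n / L) ^ m := by
    have : (1 : ℝ) ≤ n := by exact_mod_cast Nat.one_le_iff_ne_zero.2 hn
    have := Real.log_nonneg this
    positivity
  have hR1 : 0 ≤ R - 1 := by linarith
  -- the weight
  have hw : ∀ (k : ℕ) (x : Fin k → ℝ) (v : Fin (s + 1) → ℝ), (∀ j, 0 < x j) → (∀ i, 0 ≤ v i) →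
      0 ≤ Qo k m x * rest x v := fun k x v hx hv =>
    mul_nonneg (hQ.1 k m x fun i => (hx i).le).1 (ID5.rest_nonneg x v hx hv)
  have hPl0 : ∀ (k : ℕ) (x : Fin k → ℝ) (v : Fin (s + 1) → ℝ), 0 ≤ Pl g x v := fun k x v =>
    Finset.sum_nonneg fun c _ => hg _
  -- the sums
  have hnn : ∀ (k : ℕ) (F : (Fin k → ℝ) → (Fin (s + 1) → ℝ) → ℝ), (∀ x v, 0 ≤ F x v) →
      0 ≤ TS L s k n (fun x v => Qo k m x * rest x v * F x v) := fun k F hF =>
    Gen.IB5.TS_nonneg h3 L s k n _ hL hn fun x v hx hv _ =>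
      mul_nonneg (hw k x v hx hv) (hF x v)
  have hA := h1 L s m n g hL hn
  have hD := h1 L s m n (fun _ => (1 : ℝ)) hL hn
  rw [h3.2 L s n hn] at hD
  have hD' : (Real.log n / L) ^ m * dd s n =
      ∑ k ∈ Finset.range (m + 1), TS L s k n (fun x v => Qo k m x * rest x v * Pl g x v) +
      ∑ k ∈ Finset.range (m + 1), TS L s k n (fun x v => Qo k m x * rest x v * Up T g x v) +
      ∑ k ∈ Finset.range (m + 1), TS L s k n (fun x v => Qo k m x * rest x v * Zc T g x v) := by
    rw [← Finset.sum_add_distrib, ← Finset.sum_add_distrib]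
    unfold dd
    rw [hD]
    refine Finset.sum_congr rfl fun k _ => ?_
    rw [← (Two.prfT1 L s k n (fun x v => Qo k m x * rest x v * Pl g x v)
      (fun x v => Qo k m x * rest x v * Up T g x v) 0).1,
      ← (Two.prfT1 L s k n _ (fun x v => Qo k m x * rest x v * Zc T g x v) 0).1]
    congr 1
    funext x v
    rw [ID5.Pl_one]
    have := (h4 s k T R g x v hg).1
    linear_combination (Qo k m x * rest x v) * this
  have hH : ∑ k ∈ Finset.range (m + 1), TS L s k n (fun x v => Qo k m x * rest x v * HC T R g x v) =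
      ∑ k ∈ Finset.range (m + 1), TS L s k n (fun x v => Qo k m x * rest x v *
        (HC T R g x v - 2 * (R - 1) * Zc T g x v)) + 2 * (R - 1) *
      ∑ k ∈ Finset.range (m + 1), TS L s k n (fun x v => Qo k m x * rest x v * Zc T g x v) := by
    rw [Finset.mul_sum, ← Finset.sum_add_distrib]
    refine Finset.sum_congr rfl fun k _ => ?_
    rw [← (Two.prfT1 L s k n (fun x v => Qo k m x * rest x v * Zc T g x v)
      (fun x v => Qo k m x * rest x v * Zc T g x v) (2 * (R - 1))).2,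
      ← (Two.prfT1 L s k n (fun x v => Qo k m x * rest x v *
        (HC T R g x v - 2 * (R - 1) * Zc T g x v)) _ 0).1]
    congr 1
    funext x v
    ring
  have hUP : (∑ k ∈ Finset.range (m + 1), TS L s k n
        (fun x v => Qo k m x * rest x v * Up T g x v)) ^ 2 ≤
      (∑ k ∈ Finset.range (m + 1), TS L s k n (fun x v => Qo k m x * rest x v *
        (HC T R g x v - 2 * (R - 1) * Zc T g x v))) *
      ∑ k ∈ Finset.range (m + 1), TS L s k n (fun x v => Qo k m x * rest x v * Pl g x v) := by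
    have hz : ∀ F : (Fin 0 → ℝ) → (Fin (s + 1) → ℝ) → ℝ,
        TS L s 0 n (fun x v => Qo 0 m x * rest x v * F x v) = 0 := by
      intro F
      have : (fun (x : Fin 0 → ℝ) (v : Fin (s + 1) → ℝ) => Qo 0 m x * rest x v * F x v) =
          fun _ _ => (0 : ℝ) := by
        funext x v
        rw [ID5.Qo_zero hm, zero_mul, zero_mul]
      rw [this, ID5.TS_zero]
    rw [Finset.sum_range_succ', Finset.sum_range_succ', Finset.sum_range_succ', hz, hz, hz,
      add_zero, add_zero, add_zero]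
    have hcs := h5 L s n m
      (fun k x v => Qo (k + 1) m x * rest x v * (HC T R g x v - 2 * (R - 1) * Zc T g x v))
      (fun k x v => Qo (k + 1) m x * rest x v * Pl g x v)
      (fun k x v => Qo (k + 1) m x * rest x v * |Up T g x v|) hL hn (by
        intro k x v hx hv _
        have h6 := hw (k + 1) x v hx hv
        have h7 := h4 s (k + 1) T R g x v hg
        refine ⟨mul_nonneg h6 (abs_nonneg _), mul_nonneg h6 h7.2.2.1,
          mul_nonneg h6 (hPl0 _ x v), ?_⟩
        have h8 := h7.2.2.2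
        have h9 : (Qo (k + 1) m x * rest x v * |Up T g x v|) ^ 2 =
            (Qo (k + 1) m x * rest x v) ^ 2 * Up T g x v ^ 2 := by
          rw [mul_pow, sq_abs]
        rw [h9]
        calc _ ≤ (Qo (k + 1) m x * rest x v) ^ 2 *
              ((HC T R g x v - 2 * (R - 1) * Zc T g x v) * Pl g x v) :=
              mul_le_mul_of_nonneg_left h8 (sq_nonneg _)
          _ = _ := by ring)
    refine le_trans ?_ hcs
    refine sq_le_sq' ?_ ?_
    · rw [← Finset.sum_neg_distrib]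
      refine Finset.sum_le_sum fun k _ => ?_
      rw [← ID5.TS_neg]
      refine h3.1 L s (k + 1) n _ _ hL hn fun x v hx hv _ => ?_
      have h6 := hw (k + 1) x v hx hv
      have h7 := mul_le_mul_of_nonneg_left (neg_abs_le (Up T g x v)) h6
      linarith
    · refine Finset.sum_le_sum fun k _ => ?_
      refine h3.1 L s (k + 1) n _ _ hL hn fun x v hx hv _ => ?_
      exact mul_le_mul_of_nonneg_left (le_abs_self _) (hw (k + 1) x v hx hv)
  exact ID5.final hA.symm hD' hH
    (Finset.sum_nonneg fun k _ => hnn k _ fun x v => (h4 s k T R g x v hg).2.1) hR hN hd hUP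
    (Finset.sum_nonneg fun k _ => hnn k _ fun x v => (h4 s k T R g x v hg).2.2.1)

end Pool.Agent.Work.MP_122e00_nt.Sharp

end

section

set_option autoImplicit false

/-!
# D6: the inequality for the integers which are not exceptional (helper69)
-/

namespace Pool.Agent.Work.MP_122e00_nt.Sharp

open Finset Filter Topology MeasureTheory

open scoped ENNReal ArithmeticFunction.vonMangoldt ArithmeticFunction.zeta

open Two Gen

namespace ID6

theorem TS_zero (L : ℝ) (s : ℕ) : ∀ (k n : ℕ), TS L s k n (fun _ _ => 0) = 0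
  | 0, n => by simp [TS]
  | k + 1, n => by
      unfold TS
      refine Finset.sum_eq_zero fun d _ => ?_
      rw [TS_zero L s k (n / d), mul_zero]

theorem psw_nonneg {a b : ℝ} (ha : 0 < a) (hb : 0 ≤ b) (s : ℕ) (θ : ℝ) (y : Fin s → ℝ) :
    0 ≤ psw a b s θ y := by
  unfold psw
  refine Set.indicator_nonneg (fun y hy => ?_) y
  have h1 : 0 ≤ ∑ i, y i := Finset.sum_nonneg fun i _ => hy.1 i
  positivity

theorem gs_nonneg {a b : ℝ} (ha : 0 < a) (hb : 0 ≤ b) (s : ℕ) (θ : ℝ) (v : Fin (s + 1) → ℝ) :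
    0 ≤ gs (psw a b s θ) v :=
  Finset.sum_nonneg fun _ _ => psw_nonneg ha hb s θ _

theorem ph_nonneg {R N : ℝ} (hR : 1 ≤ R) (hN : 0 ≤ N) (G : ℝ) : 0 ≤ ph R N G := by
  unfold ph
  split_ifs with h
  · positivity
  · linarith

theorem HC_nonneg {s k : ℕ} (T : ℕ) {R : ℝ} (hR : 1 ≤ R) (g : (Fin (s + 1) → ℝ) → ℝ)
    (x : Fin k → ℝ) (v : Fin (s + 1) → ℝ) : 0 ≤ HC T R g x v := by
  unfold HC
  refine Finset.sum_nonneg fun c _ => ph_nonneg hR ?_ _
  unfold NN
  positivity

theorem rest_nonneg {s k : ℕ} {x : Fin k → ℝ} {v : Fin (s + 1) → ℝ} (hx : ∀ j, 0 ≤ x j)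
    (hv : ∀ i, 0 ≤ v i) : 0 ≤ rest x v := by
  unfold rest
  refine Finset.prod_nonneg fun j _ => ?_
  have h1 : ∑ i ∈ Finset.univ.filter (fun i : Fin k => i < j), x i ≤ ∑ i, x i :=
    Finset.sum_le_sum_of_subset_of_nonneg (Finset.filter_subset _ _) (fun i _ _ => hx i)
  have h2 : 0 ≤ ∑ i, v i := Finset.sum_nonneg fun i _ => hv i
  linarith

theorem FS_nonneg (hQ3 : claimQ3) {s : ℕ} (m T : ℕ) {R : ℝ} (hR : 1 ≤ R)
    (g : (Fin (s + 1) → ℝ) → ℝ) (k : ℕ) (x : Fin k → ℝ) (v : Fin (s + 1) → ℝ) :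
    0 ≤ FS m T R g k x v := by
  unfold FS
  split_ifs with h
  · exact mul_nonneg (mul_nonneg (hQ3.1 k m x h.1).1 (rest_nonneg h.1 h.2.1))
      (HC_nonneg T hR g x v)
  · exact le_rfl

theorem tau_tendsto (m : ℕ) (δ : ℝ) :
    Tendsto (fun X : ℝ => (1 - Real.log (Real.log X) / Real.log X) ^ m * (1 + δ)) atTop
      (𝓝 (1 + δ)) := by
  have h1 : Tendsto (fun y : ℝ => Real.log y / y) atTop (𝓝 0) :=
    Real.isLittleO_log_id_atTop.tendsto_div_nhds_zero
  have h2 := h1.comp Real.tendsto_log_atTop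
  have h3 : Tendsto (fun X : ℝ => 1 - Real.log (Real.log X) / Real.log X) atTop (𝓝 (1 - 0)) :=
    tendsto_const_nhds.sub h2
  have h4 := (h3.pow m).mul_const (1 + δ)
  simpa using h4

end ID6

open ID6 in
theorem prfD6 : claimD5 → claimQ3 → Gen.claimB3 → claimD6 := by
  intro hD5 hQ3 hB3 s m T R a b θ δ hs hm hR ha hb hθ hθ2 hδ
  have hev1 : ∀ᶠ X : ℝ in atTop,
      1 < (1 - Real.log (Real.log X) / Real.log X) ^ m * (1 + δ) :=
    (tau_tendsto m δ).eventually (lt_mem_nhds (by linarith))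
  have hev2 : ∀ᶠ X : ℝ in atTop, (0 : ℝ) < (1 - Real.log (Real.log X) / Real.log X) ^ 1 * 1 := by
    have := tau_tendsto 1 0
    simp only [add_zero] at this
    exact this.eventually (lt_mem_nhds one_pos)
  have hev3 : ∀ᶠ X : ℝ in atTop, (1 : ℝ) < Real.log X :=
    Real.tendsto_log_atTop.eventually (eventually_gt_atTop 1)
  filter_upwards [hev1, hev2, hev3, eventually_gt_atTop (1 : ℝ)] with X h1 h2 h3 h4
  intro n hn1 hn2
  rw [pow_one, mul_one] at h2
  have hX0 : 0 < X := by linarith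
  have hL0 : 0 < Real.log X := by linarith
  have hnpos : (0 : ℝ) < n := lt_of_lt_of_le (by positivity) hn1
  have hn0 : n ≠ 0 := by
    rintro rfl
    simp at hnpos
  have hlogn : Real.log X - Real.log (Real.log X) ≤ Real.log n := by
    rw [← Real.log_div hX0.ne' hL0.ne']
    exact Real.log_le_log (by positivity) hn1
  have hN1 : 1 - Real.log (Real.log X) / Real.log X ≤ Real.log n / Real.log X := by
    rw [le_div_iff₀ hL0, sub_mul, one_mul, div_mul_cancel₀ _ hL0.ne']
    exact hlogn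
  have hN2 : Real.log n / Real.log X ≤ 1 := by
    rw [div_le_one hL0]
    exact Real.log_le_log hnpos hn2
  have hNpos : 0 < Real.log n / Real.log X := h2.trans_le hN1
  have hNm : 1 ≤ (Real.log n / Real.log X) ^ m * (1 + δ) := by
    refine h1.le.trans ?_
    exact mul_le_mul_of_nonneg_right (pow_le_pow_left₀ h2.le hN1 m) (by linarith)
  have hg : ∀ w, 0 ≤ gs (psw a b s θ) w := gs_nonneg ha hb s θ
  have hH0 : 0 ≤ ∑ k ∈ Finset.range (m + 1),
      TS (Real.log X) s k n (FS m T R (gs (psw a b s θ)) k) := by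
    refine Finset.sum_nonneg fun k _ => ?_
    have := hB3.1 (Real.log X) s k n (fun _ _ => 0) (FS m T R (gs (psw a b s θ)) k) hL0 hn0
      (fun x v _ _ _ => FS_nonneg hQ3 m T hR _ k x v)
    rw [TS_zero] at this
    exact this
  refine ⟨hH0, fun hdd => ?_⟩
  have hFS : ∀ k, TS (Real.log X) s k n (FS m T R (gs (psw a b s θ)) k) =
      TS (Real.log X) s k n
        (fun x v => Qo k m x * rest x v * HC T R (gs (psw a b s θ)) x v) := by
    intro k
    have hrg : ∀ (x : Fin k → ℝ) (v : Fin (s + 1) → ℝ), (∀ m, 0 < x m) → (∀ i, 0 ≤ v i) →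
        ∑ m, x m + ∑ i, v i = Real.log n / Real.log X → Rg x v := by
      intro x v hx hv hsum
      exact ⟨fun j => (hx j).le, hv, by rw [hsum]; linarith⟩
    refine le_antisymm ?_ ?_
    · refine hB3.1 _ s k n _ _ hL0 hn0 ?_
      intro x v hx hv hsum
      unfold FS
      rw [if_pos (hrg x v hx hv hsum)]
    · refine hB3.1 _ s k n _ _ hL0 hn0 ?_
      intro x v hx hv hsum
      unfold FS
      rw [if_pos (hrg x v hx hv hsum)]
  have hsumFS := Finset.sum_congr (rfl : Finset.range (m + 1) = Finset.range (m + 1))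
    (fun k _ => hFS k)
  have h5 := (hD5 (Real.log X) s m T n R (gs (psw a b s θ)) hL0 hn0 hm hR hg hdd).2
  rw [← hsumFS] at h5
  set H := ∑ k ∈ Finset.range (m + 1),
      TS (Real.log X) s k n (FS m T R (gs (psw a b s θ)) k) with hH
  have hW : WW (psw a b s θ) (Real.log X) n =
      TS (Real.log X) s 0 n (fun _ v => gs (psw a b s θ) v) := rfl
  rw [hW]
  set W := TS (Real.log X) s 0 n (fun _ v => gs (psw a b s θ) v) with hW'
  set P := (Real.log n / Real.log X) ^ m with hP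
  have hPpos : 0 < P := pow_pos hNpos m
  have h6 : P * (dd s n - W) ^ 2 ≤ H * W := by
    have h7 : P * (P * (dd s n - W) ^ 2) ≤ P * (H * W) := by
      calc P * (P * (dd s n - W) ^ 2) = (P * (dd s n - W)) ^ 2 := by ring
        _ ≤ H * (P * W) := h5
        _ = P * (H * W) := by ring
    exact le_of_mul_le_mul_left h7 hPpos
  calc (dd s n - W) ^ 2 = 1 * (dd s n - W) ^ 2 := (one_mul _).symm
    _ ≤ (P * (1 + δ)) * (dd s n - W) ^ 2 := mul_le_mul_of_nonneg_right hNm (sq_nonneg _)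
    _ = (1 + δ) * (P * (dd s n - W) ^ 2) := by ring
    _ ≤ (1 + δ) * (H * W) := mul_le_mul_of_nonneg_left h6 (by linarith)
    _ = ((1 + δ) * H) * W := by ring

end Pool.Agent.Work.MP_122e00_nt.Sharp

end

section

set_option autoImplicit false

/-!
# Sharp scheme, item F1 (helper43): bounds for the structure function
-/

namespace Pool.Agent.Work.MP_122e00_nt.Sharp

open Finset Filter Topology MeasureTheory

open Two Gen

namespace IF1

/-- a value is `0` or in `[a, c]` -/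
def Zi (a c t : ℝ) : Prop := t = 0 ∨ (a ≤ t ∧ t ≤ c)

theorem psw_zi (a b : ℝ) (s : ℕ) (θ : ℝ) (hb : 0 ≤ b) (hθ : 0 ≤ θ) (y : Fin s → ℝ) :
    Zi a (a + b / 2) (psw a b s θ y) := by
  unfold psw
  by_cases h : y ∈ {y : Fin s → ℝ | (∀ i, 0 ≤ y i) ∧ ∑ i, y i ≤ 1 / 2 - θ}
  · rw [Set.indicator_of_mem h]
    have h0 : 0 ≤ ∑ i, y i := Finset.sum_nonneg fun i _ => h.1 i
    have h1 : ∑ i, y i ≤ 1 / 2 := by linarith [h.2]
    right
    constructor
    · nlinarith
    · nlinarith
  · rw [Set.indicator_of_notMem h]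
    exact Or.inl rfl

theorem sum_zi {ι : Type} (S : Finset ι) (f : ι → ℝ) {a c : ℝ} (ha : 0 < a) (hc : 0 ≤ c)
    (h : ∀ i ∈ S, Zi a c (f i)) : Zi a (S.card * c) (∑ i ∈ S, f i) := by
  have h0 : ∀ i ∈ S, 0 ≤ f i := by
    intro i hi
    rcases h i hi with h | h
    · rw [h]
    · linarith [h.1]
  by_cases hz : ∀ i ∈ S, f i = 0
  · left
    exact Finset.sum_eq_zero hz
  · push Not at hz
    obtain ⟨i, hi, hne⟩ := hz
    right
    constructor
    · rcases h i hi with h' | h'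
      · exact absurd h' hne
      · exact h'.1.trans (Finset.single_le_sum h0 hi)
    · rw [← nsmul_eq_mul]
      refine Finset.sum_le_card_nsmul _ _ _ fun i hi => ?_
      rcases h i hi with h' | h'
      · rw [h']
        exact hc
      · exact h'.2

theorem gs_zi (a b : ℝ) (s : ℕ) (θ : ℝ) (ha : 0 < a) (hb : 0 ≤ b) (hθ : 0 ≤ θ)
    (w : Fin (s + 1) → ℝ) :
    Zi a (((s : ℝ) + 1) * (a + b / 2)) (gs (psw a b s θ) w) := by
  have h := sum_zi (Finset.univ : Finset (Fin (s + 1)))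
    (fun i => psw a b s θ (fun j => w (i.succAbove j))) ha (c := a + b / 2) (by positivity)
    (fun i _ => psw_zi a b s θ hb hθ _)
  rw [Finset.card_univ, Fintype.card_fin] at h
  push_cast at h
  exact h

theorem Gr_zi (a b : ℝ) (s k T : ℕ) (θ : ℝ) (ha : 0 < a) (hb : 0 ≤ b) (hθ : 0 ≤ θ)
    (x : Fin k → ℝ) (v : Fin (s + 1) → ℝ) (c : Fin k → Fin (s + 1)) :
    Zi a (((s : ℝ) + 1) ^ k * (((s : ℝ) + 1) * (a + b / 2)))
      (Gr T (gs (psw a b s θ)) x v c) := by
  classical
  have h := sum_zi (Finset.univ : Finset (Fin k → Fin (s + 1)))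
    (fun c' => if (∀ j, T ≤ rk x j → c' j = c j) then gs (psw a b s θ) (plc x v c') else 0) ha
    (c := ((s : ℝ) + 1) * (a + b / 2)) (by positivity) (fun i _ => by
      split_ifs
      · exact gs_zi a b s θ ha hb hθ _
      · exact Or.inl rfl)
  rw [Finset.card_univ, Fintype.card_fun, Fintype.card_fin, Fintype.card_fin] at h
  push_cast at h
  unfold Gr
  convert h

theorem ph_bd {R N G a M C : ℝ} (ha : 0 < a) (hR : 1 ≤ R) (hN : 1 ≤ N) (hNM : N ≤ M)
    (hG : Zi a C G) (hC : 0 ≤ C) :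
    0 ≤ ph R N G ∧ ph R N G ≤ 2 * (R - 1) + (M + C) ^ 2 / a := by
  have h1 : 0 ≤ 2 * (R - 1) := by linarith
  have h2 : 0 ≤ (M + C) ^ 2 / a := by positivity
  unfold ph
  split_ifs with h
  · have hGa : a ≤ G ∧ G ≤ C := by
      rcases hG with h' | h'
      · rw [h'] at h
        exact absurd h (lt_irrefl _)
      · exact h'
    refine ⟨by positivity, ?_⟩
    have hNG : a ≤ N * G := by nlinarith
    have hsq : (N - G) ^ 2 ≤ (M + C) ^ 2 := by
      apply sq_le_sq'
      · linarith [hGa.2]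
      · linarith [hGa.1]
    calc (N - G) ^ 2 / (N * G) ≤ (M + C) ^ 2 / a := by
          apply div_le_div₀ (by positivity) hsq ha hNG
      _ ≤ _ := by linarith
  · exact ⟨h1, by linarith⟩

theorem HC_bd (s k m T : ℕ) (hkm : k ≤ m) (R a b θ : ℝ) (ha : 0 < a) (hb : 0 ≤ b) (hR : 1 ≤ R)
    (hθ : 0 ≤ θ) (x : Fin k → ℝ) (v : Fin (s + 1) → ℝ) :
    0 ≤ HC T R (gs (psw a b s θ)) x v ∧ HC T R (gs (psw a b s θ)) x v ≤
      ((s : ℝ) + 1) ^ m * (2 * (R - 1) + (((s : ℝ) + 1) ^ m +
        ((s : ℝ) + 1) ^ m * (((s : ℝ) + 1) * (a + b / 2))) ^ 2 / a) := by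
  have hs1 : (1 : ℝ) ≤ (s : ℝ) + 1 := by
    have : (0 : ℝ) ≤ s := Nat.cast_nonneg s
    linarith
  have hpow : ((s : ℝ) + 1) ^ k ≤ ((s : ℝ) + 1) ^ m := pow_le_pow_right₀ hs1 hkm
  have hN1 : 1 ≤ NN s k T := one_le_pow₀ hs1
  have hNM : NN s k T ≤ ((s : ℝ) + 1) ^ m :=
    pow_le_pow_right₀ hs1 ((min_le_right _ _).trans hkm)
  have hph : ∀ c : Fin k → Fin (s + 1),
      0 ≤ ph R (NN s k T) (Gr T (gs (psw a b s θ)) x v c) ∧
      ph R (NN s k T) (Gr T (gs (psw a b s θ)) x v c) ≤ 2 * (R - 1) + (((s : ℝ) + 1) ^ m +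
        ((s : ℝ) + 1) ^ m * (((s : ℝ) + 1) * (a + b / 2))) ^ 2 / a := by
    intro c
    refine ph_bd ha hR hN1 hNM ?_ (by positivity)
    rcases Gr_zi a b s k T θ ha hb hθ x v c with h | h
    · exact Or.inl h
    · exact Or.inr ⟨h.1, h.2.trans (mul_le_mul_of_nonneg_right hpow (by positivity))⟩
  have hQ : 0 ≤ 2 * (R - 1) + (((s : ℝ) + 1) ^ m +
        ((s : ℝ) + 1) ^ m * (((s : ℝ) + 1) * (a + b / 2))) ^ 2 / a := by
    have : 0 ≤ 2 * (R - 1) := by linarith
    positivity
  unfold HC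
  refine ⟨Finset.sum_nonneg fun c _ => (hph c).1, ?_⟩
  have h := Finset.sum_le_card_nsmul (Finset.univ : Finset (Fin k → Fin (s + 1)))
    (fun c => ph R (NN s k T) (Gr T (gs (psw a b s θ)) x v c)) _ (fun c _ => (hph c).2)
  rw [nsmul_eq_mul, Finset.card_univ, Fintype.card_fun, Fintype.card_fin, Fintype.card_fin] at h
  push_cast at h
  exact h.trans (mul_le_mul_of_nonneg_right hpow hQ)

theorem rest_bd {s k : ℕ} {x : Fin k → ℝ} {v : Fin (s + 1) → ℝ} (h : Rg x v) :
    0 ≤ rest x v ∧ rest x v ≤ 2 ^ k := by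
  have hv : 0 ≤ ∑ i, v i := Finset.sum_nonneg fun i _ => h.2.1 i
  have hf : ∀ j : Fin k, 0 ≤ (∑ i, x i + ∑ i, v i -
      ∑ i ∈ Finset.univ.filter (fun i : Fin k => i < j), x i) ∧
      (∑ i, x i + ∑ i, v i - ∑ i ∈ Finset.univ.filter (fun i : Fin k => i < j), x i) ≤ 2 := by
    intro j
    have h1 : ∑ i ∈ Finset.univ.filter (fun i : Fin k => i < j), x i ≤ ∑ i, x i :=
      Finset.sum_le_sum_of_subset_of_nonneg (Finset.filter_subset _ _) fun i _ _ => h.1 i
    have h2 : 0 ≤ ∑ i ∈ Finset.univ.filter (fun i : Fin k => i < j), x i :=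
      Finset.sum_nonneg fun i _ => h.1 i
    have h3 := h.2.2
    constructor <;> linarith
  unfold rest
  refine ⟨Finset.prod_nonneg fun j _ => (hf j).1, ?_⟩
  calc _ ≤ ∏ _j : Fin k, (2 : ℝ) := Finset.prod_le_prod (fun j _ => (hf j).1) fun j _ => (hf j).2
    _ = 2 ^ k := by simp

end IF1

theorem prfF1 (hQ : claimQ3) : claimF1 := by
  classical
  intro s m T R a b ha hb hR
  obtain ⟨B, hB⟩ := hQ.2.2.2 m
  set H : ℝ := ((s : ℝ) + 1) ^ m * (2 * (R - 1) + (((s : ℝ) + 1) ^ m +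
        ((s : ℝ) + 1) ^ m * (((s : ℝ) + 1) * (a + b / 2))) ^ 2 / a) with hH
  have hH0 : 0 ≤ H := by
    have : 0 ≤ 2 * (R - 1) := by linarith
    rw [hH]
    positivity
  refine ⟨|B| * 2 ^ m * H, fun θ hθ k x v => ?_⟩
  have hpos : 0 ≤ |B| * 2 ^ m * H := by positivity
  unfold FS
  split_ifs with hRg
  · rcases Nat.lt_or_ge m k with hk | hk
    · rw [(hQ.2.2.1 k m x hk).1, zero_mul, zero_mul]
      exact ⟨le_rfl, hpos⟩
    · have hx2 : ∀ i, 0 ≤ x i ∧ x i ≤ 2 := by
        intro i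
        refine ⟨hRg.1 i, ?_⟩
        have h1 : x i ≤ ∑ j, x j :=
          Finset.single_le_sum (fun j _ => hRg.1 j) (Finset.mem_univ i)
        have h2 : 0 ≤ ∑ i, v i := Finset.sum_nonneg fun i _ => hRg.2.1 i
        linarith [hRg.2.2]
      have hq0 := (hQ.1 k m x hRg.1).1
      have hq1 : Qo k m x ≤ |B| := (hB k x hx2).trans (le_abs_self B)
      have hr := IF1.rest_bd hRg
      have hr2 : rest x v ≤ 2 ^ m := hr.2.trans (pow_le_pow_right₀ (by norm_num) hk)
      have hh := IF1.HC_bd s k m T hk R a b θ ha hb hR hθ x v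
      refine ⟨mul_nonneg (mul_nonneg hq0 hr.1) hh.1, ?_⟩
      exact mul_le_mul (mul_le_mul hq1 hr2 hr.1 (abs_nonneg _)) hh.2 hh.1 (by positivity)
  · exact ⟨le_rfl, hpos⟩

end Pool.Agent.Work.MP_122e00_nt.Sharp

end

end

section

/-! Bundle of small proof modules (one section per former module). -/

section

set_option autoImplicit false

/-!
# The certificate: the value of a leaf
-/

namespace Pool.Agent.Work.MP_122e00_nt.Sharp.Cx

open Finset MeasureTheory

open scoped ENNReal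

open Gen

theorem prfE3 : claimE1 → claimE3a → claimE3b → claimE3c → claimE3z → claimE3d → claimE3 := by
  intro hE1 ha hb hcc hz hd k c t bits S gf r hc hS hgf hr
  obtain ⟨hdl, hdiv, hok, g0, g1, hg1, hg01, hgv, hg, hrr⟩ := ha k c t bits S gf r hS hr
  have hG := fun y => hb k S gf y hS hgf hdl hdiv
  have hM : ∀ e, e < 4 → Mm k c S gf e =
      Mv c (dl S) e (slot (gt c bits) c.mx bits (nthN (rws c bits S gf) e)) := by
    intro e he
    unfold Mm Mv
    rw [hE1 k c bits S gf hc hS hgf hdiv hok e he, hc.k_eq]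
  obtain ⟨hd1, hd2⟩ := hd c t (dl S) g0 g1
    (slot (gt c bits) c.mx bits (nthN (rws c bits S gf) 0))
    (slot (gt c bits) c.mx bits (nthN (rws c bits S gf) 1))
    (slot (gt c bits) c.mx bits (nthN (rws c bits S gf) 2))
    (slot (gt c bits) c.mx bits (nthN (rws c bits S gf) 3)) hc.cd_pos hdl
  rw [← hrr] at hd1 hd2
  rw [hc.k_eq] at hd1 hd2
  by_cases h0 : g1 = 0
  · refine (hz k c S gf hc hS (fun v hv => ?_) hG).trans ?_
    · have := (hgv v hv).2
      omega
    · apply ENNReal.ofReal_le_ofReal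
      rw [hM 0 (by norm_num)]
      exact hd1 h0
  · have hg0 : 0 < g0 := by
      rcases hg with h | h
      · exact absurd h h0
      · exact h
    refine (hcc k c S gf (g0 : ℝ) (g1 : ℝ) ((g0 + (g1 - g0) * t / 16 : ℕ) : ℝ) hc hS hdl
      (by exact_mod_cast hg0) (by exact_mod_cast Nat.le_add_right _ _) (fun v hv => ?_) hG).trans ?_
    · exact ⟨by exact_mod_cast (hgv v hv).1, by exact_mod_cast (hgv v hv).2⟩
    · apply ENNReal.ofReal_le_ofReal
      rw [hM 0 (by norm_num), hM 1 (by norm_num), hM 2 (by norm_num), hM 3 (by norm_num)]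
      exact hd2 hg0 hg01

end Pool.Agent.Work.MP_122e00_nt.Sharp.Cx

end

section

set_option autoImplicit false

/-!
# The certificate: the program for a leaf
-/

namespace Pool.Agent.Work.MP_122e00_nt.Sharp.Cx

namespace IE3a

theorem allL_cons (f : List ℕ → Bool) (p : List ℕ) (S : List (List ℕ)) :
    allL f (p :: S) = cond (f p) (allL f S) false := rfl

theorem allL_all (f : List ℕ → Bool) : ∀ S : List (List ℕ), allL f S = true →
    ∀ p ∈ S, f p = true
  | [], _, p, hp => by simp at hp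
  | q :: S, h, p, hp => by
    rw [allL_cons] at h
    cases hq : f q with
    | false => rw [hq] at h; exact absurd h (by simp)
    | true =>
      rw [hq] at h
      rcases List.mem_cons.1 hp with rfl | hp
      · exact hq
      · exact allL_all f S h p hp

theorem mpL_cons (f : List ℕ → ℕ) (p : List ℕ) (S : List (List ℕ)) :
    mpL f (p :: S) = f p :: mpL f S := rfl

theorem mpL_length (f : List ℕ → ℕ) : ∀ S : List (List ℕ), (mpL f S).length = S.length
  | [] => rfl
  | p :: S => by rw [mpL_cons, List.length_cons, List.length_cons, mpL_length f S]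

theorem mem_mpL (f : List ℕ → ℕ) (a : ℕ) : ∀ S : List (List ℕ), a ∈ mpL f S → ∃ p ∈ S, f p = a
  | [], h => by
    have h' : a ∈ ([] : List ℕ) := h
    simp at h'
  | p :: S, h => by
    rw [mpL_cons] at h
    rcases List.mem_cons.1 h with rfl | h
    · exact ⟨p, List.mem_cons_self, rfl⟩
    · obtain ⟨q, hq, e⟩ := mem_mpL f a S h
      exact ⟨q, List.mem_cons_of_mem _ hq, e⟩

theorem lcms_cons (a : ℕ) (l : List ℕ) :
    lcms (a :: l) = (a * lcms l) / Nat.gcd a (lcms l) := rfl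

theorem lcms_pos : ∀ l : List ℕ, (∀ a ∈ l, 0 < a) → 0 < lcms l
  | [], _ => Nat.one_pos
  | a :: l, h => by
    rw [lcms_cons]
    have h1 := lcms_pos l fun b hb => h b (List.mem_cons_of_mem _ hb)
    have h2 := h a List.mem_cons_self
    exact Nat.lcm_pos h2 h1

theorem mxs_cons (a : ℕ) (l : List ℕ) : mxs (a :: l) = cond (Nat.ble a (mxs l)) (mxs l) a := rfl

theorem mns_cons (b a : ℕ) (l : List ℕ) :
    mns b (a :: l) = cond (Nat.ble a (mns b l)) a (mns b l) := rfl

theorem le_mxs (x : ℕ) : ∀ l : List ℕ, x ∈ l → x ≤ mxs l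
  | [], h => by simp at h
  | a :: l, h => by
    rw [mxs_cons]
    cases hb : Nat.ble a (mxs l) with
    | true =>
      have h1 := Nat.le_of_ble_eq_true hb
      rcases List.mem_cons.1 h with rfl | h
      · exact h1
      · exact le_mxs x l h
    | false =>
      have h1 : ¬ a ≤ mxs l := fun h2 => by
        rw [Nat.ble_eq_true_of_le h2] at hb
        exact absurd hb (by simp)
      rcases List.mem_cons.1 h with rfl | h
      · exact le_rfl
      · have := le_mxs x l h
        show x ≤ a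
        omega

theorem mns_le (b x : ℕ) : ∀ l : List ℕ, x ∈ l → mns b l ≤ x
  | [], h => by simp at h
  | a :: l, h => by
    rw [mns_cons]
    cases hb : Nat.ble a (mns b l) with
    | true =>
      have h1 := Nat.le_of_ble_eq_true hb
      rcases List.mem_cons.1 h with rfl | h
      · exact le_rfl
      · have := mns_le b x l h
        show a ≤ x
        omega
    | false =>
      have h1 : ¬ a ≤ mns b l := fun h2 => by
        rw [Nat.ble_eq_true_of_le h2] at hb
        exact absurd hb (by simp)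
      rcases List.mem_cons.1 h with rfl | h
      · show mns b l ≤ x
        omega
      · exact mns_le b x l h

theorem nthN_mem : ∀ (l : List ℕ) (v : ℕ), v < l.length → nthN l v ∈ l
  | [], v, h => by simp at h
  | a :: l, 0, _ => List.mem_cons_self
  | a :: l, v + 1, h => by
    have h1 : nthN (a :: l) (v + 1) = nthN l v := rfl
    rw [h1]
    exact List.mem_cons_of_mem _ (nthN_mem l v (by simpa using h))

theorem leafv_eq (c : Cl) (t bits : ℕ) (S : List (List ℕ)) (gf : List ℕ) :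
    leafv c t bits S gf =
      cond (allL (fun p => cond (Nat.beq (sm p) 0) false
          (Nat.beq (Nat.mul (Nat.div (dl S) (sm p)) (sm p)) (dl S))) S)
        (cond (cond (Nat.beq (mns (hd (gsl S gf)) (gsl S gf)) 0) (cond (Nat.beq (mxs (gsl S gf)) 0)
            (okb c bits (dl S) (mxs (gsl S gf))) false) (okb c bits (dl S) (mxs (gsl S gf))))
          (some (lrow c t bits (dl S) (mns (hd (gsl S gf)) (gsl S gf)) (mxs (gsl S gf))
            (rws c bits S gf)))
          none) none := rfl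

theorem cond_none {A : Type} {b : Bool} {x : Option A} {r : A} (h : cond b x none = some r) :
    b = true ∧ x = some r := by
  cases b with
  | false => exact absurd h (by simp)
  | true => exact ⟨rfl, h⟩

end IE3a

open IE3a in
theorem prfE3a : claimE3a := by
  intro k c t bits S gf r hS h
  rw [leafv_eq] at h
  obtain ⟨h1, h⟩ := cond_none h
  obtain ⟨h2, h⟩ := cond_none h
  have h3 := Option.some.inj h
  have hlen : (gsl S gf).length = k + 3 := by
    rw [gsl, mpL_length, hS.1]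
  have hb : ∀ v, v ≤ k + 2 → mns (hd (gsl S gf)) (gsl S gf) ≤ nthN (gsl S gf) v ∧
      nthN (gsl S gf) v ≤ mxs (gsl S gf) := by
    intro v hv
    have hm := nthN_mem (gsl S gf) v (by omega)
    exact ⟨mns_le _ _ _ hm, le_mxs _ _ hm⟩
  have hok : okb c bits (dl S) (mxs (gsl S gf)) = true ∧
      (mxs (gsl S gf) = 0 ∨ 0 < mns (hd (gsl S gf)) (gsl S gf)) := by
    cases h0 : Nat.beq (mns (hd (gsl S gf)) (gsl S gf)) 0 with
    | true =>
      rw [h0] at h2
      cases h5 : Nat.beq (mxs (gsl S gf)) 0 with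
      | true =>
        rw [h5] at h2
        exact ⟨h2, Or.inl (Nat.eq_of_beq_eq_true h5)⟩
      | false =>
        rw [h5] at h2
        exact absurd h2 (by simp)
    | false =>
      rw [h0] at h2
      exact ⟨h2, Or.inr (Nat.pos_of_ne_zero (Nat.ne_of_beq_eq_false h0))⟩
  refine ⟨?_, ?_, hok.1, mns (hd (gsl S gf)) (gsl S gf), mxs (gsl S gf), rfl, ?_, hb, hok.2, ?_⟩
  · refine lcms_pos _ ?_
    intro a ha
    obtain ⟨p, hp, rfl⟩ := mem_mpL sm a S ha
    exact (hS.2 p hp).2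
  · intro p hp
    have h5 := allL_all _ S h1 p hp
    cases h6 : Nat.beq (sm p) 0 with
    | true =>
      rw [h6] at h5
      exact absurd h5 (by simp)
    | false =>
      rw [h6] at h5
      exact Nat.eq_of_beq_eq_true h5
  · exact (hb 0 (by omega)).1.trans (hb 0 (by omega)).2
  · exact h3.symm

end Pool.Agent.Work.MP_122e00_nt.Sharp.Cx

end

section

set_option autoImplicit false

/-!
# E3b: the linear form in barycentric coordinates
-/

namespace Pool.Agent.Work.MP_122e00_nt.Sharp.Cx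

open Finset MeasureTheory

namespace IE3b

theorem dot_nil (w : List ℕ) : dot [] w = 0 := rfl

theorem dot_cons (a : ℕ) (p w : List ℕ) : dot (a :: p) w = a * hd w + dot p (tl w) := rfl

theorem nthN_zero (l : List ℕ) : nthN l 0 = hd l := rfl

theorem nthN_succ (l : List ℕ) (i : ℕ) : nthN l (i + 1) = nthN (tl l) i := rfl

theorem nth_zero (l : List (List ℕ)) : nth l 0 = hdL l := rfl

theorem nth_succ (l : List (List ℕ)) (i : ℕ) : nth l (i + 1) = nth (tlL l) i := rfl

theorem dot_eq : ∀ (p w : List ℕ), dot p w = ∑ i ∈ range p.length, nthN p i * nthN w i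
  | [], w => by simp [dot_nil]
  | a :: p, w => by
    rw [dot_cons, dot_eq p (tl w), List.length_cons, sum_range_succ']
    simp only [nthN_succ, nthN_zero]
    rw [add_comm]
    rfl

theorem nthN_mpL (f : List ℕ → ℕ) : ∀ (S : List (List ℕ)) (v : ℕ), v < S.length →
    nthN (mpL f S) v = f (nth S v)
  | [], v => fun h => absurd h (by simp)
  | a :: S, 0 => fun _ => rfl
  | a :: S, v + 1 => fun h => by
    rw [nthN_succ, nth_succ]
    exact nthN_mpL f S v (by simpa using h)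

theorem nth_mem : ∀ (S : List (List ℕ)) (v : ℕ), v < S.length → nth S v ∈ S
  | [], v => fun h => absurd h (by simp)
  | a :: S, 0 => fun _ => by
    show a ∈ a :: S
    simp
  | a :: S, v + 1 => fun h => by
    rw [nth_succ]
    exact List.mem_cons_of_mem a (nth_mem S v (by simpa using h))

/-- one vertex -/
theorem vert (k : ℕ) (S : List (List ℕ)) (gf : List ℕ) (hS : Sv k S) (hd0 : 0 < dl S)
    (hdl : ∀ p ∈ S, dl S / sm p * sm p = dl S) (v : ℕ) (hv : v < k + 3) :
    ∑ j : Fin (k + 2 + 1), (nthN gf j.val : ℝ) * pt (k + 2 + 1) (nth S v) j =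
      (nthN (gsl S gf) v : ℝ) / (dl S : ℝ) := by
  have hvS : v < S.length := by rw [hS.1]; exact hv
  have hm := nth_mem S v hvS
  obtain ⟨hl, hs⟩ := hS.2 _ hm
  have h1 : nthN (gsl S gf) v = dl S / sm (nth S v) * dot (nth S v) gf := by
    unfold gsl
    rw [nthN_mpL _ S v hvS]
    rfl
  have h2 := hdl _ hm
  rw [h1, dot_eq, hl]
  have h3 : (0 : ℝ) < (sm (nth S v) : ℝ) := by exact_mod_cast hs
  have h4 : (0 : ℝ) < (dl S : ℝ) := by exact_mod_cast hd0
  have h5 : ((dl S / sm (nth S v) : ℕ) : ℝ) * (sm (nth S v) : ℝ) = (dl S : ℝ) := by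
    exact_mod_cast h2
  have h6 : ∑ j : Fin (k + 2 + 1), (nthN gf j.val : ℝ) * pt (k + 2 + 1) (nth S v) j =
      (∑ i ∈ range (k + 3), (nthN (nth S v) i : ℝ) * (nthN gf i : ℝ)) / (sm (nth S v) : ℝ) := by
    rw [Finset.sum_range (n := k + 3), Finset.sum_div]
    refine Finset.sum_congr rfl fun j _ => ?_
    unfold pt
    rw [mul_comm (nthN (nth S v) j.val : ℝ), mul_div_assoc]
  rw [h6]
  push_cast
  rw [div_eq_div_iff h3.ne' h4.ne', ← h5]
  ring

end IE3b

open IE3b in
/-- E3b: the linear form in barycentric coordinates. -/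
theorem prfE3b : claimE3b := by
  intro k S gf y hS _ hd0 hdl
  unfold Gf Chamber.bar lf
  congr 1
  have hv := vert k S gf hS hd0 hdl
  have h1 : ∀ j : Fin (k + 2 + 1), (∑ i : Fin (k + 2), y i • pts (k + 2) S (some i) +
      (1 - ∑ i, y i) • pts (k + 2) S none) j =
      ∑ i : Fin (k + 2), y i * pt (k + 2 + 1) (nth S i.val) j +
        (1 - ∑ i, y i) * pt (k + 2 + 1) (nth S (k + 2)) j := by
    intro j
    simp only [Pi.add_apply, Finset.sum_apply, Pi.smul_apply, smul_eq_mul]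
    rfl
  simp only [h1, mul_add, Finset.sum_add_distrib, Finset.mul_sum]
  rw [Finset.sum_comm, add_div, Finset.sum_div]
  congr 1
  · refine Finset.sum_congr rfl fun i _ => ?_
    rw [mul_div_assoc, ← hv i.val (by omega), Finset.mul_sum]
    refine Finset.sum_congr rfl fun j _ => ?_
    ring
  · rw [mul_div_assoc, ← hv (k + 2) (by omega), Finset.mul_sum]
    refine Finset.sum_congr rfl fun j _ => ?_
    ring

end Pool.Agent.Work.MP_122e00_nt.Sharp.Cx

end

section

set_option autoImplicit false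

/-!
# E3c: the integral over a leaf, by the cubic bound
-/

namespace Pool.Agent.Work.MP_122e00_nt.Sharp.Cx

open Finset MeasureTheory

open scoped ENNReal

open Gen

theorem prfE3c : claimE2 → claimC9 → claimE3c := by
  intro hE2 hC9 k c S gf g0 g1 cc hcl hS hdl hg0 hgc hv hG
  obtain ⟨c1, c2, c3, c4, c5, c6, c7, c8⟩ := hC9
  obtain ⟨Dl, hDl⟩ : ∃ Dl : ℝ, Dl = (dl S : ℝ) := ⟨_, rfl⟩
  have hDl0 : 0 < Dl := by rw [hDl]; exact_mod_cast hdl
  obtain ⟨N, hN⟩ : ∃ N : ℝ, N = (3 : ℝ) ^ k := ⟨_, rfl⟩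
  have hN0 : 0 < N := by rw [hN]; positivity
  have hcc : 0 < cc := lt_of_lt_of_le hg0 hgc
  have hg1 : 0 < g1 := lt_of_lt_of_le hg0 ((hv 0 (by omega)).1.trans (hv 0 (by omega)).2)
  obtain ⟨L, hL⟩ : ∃ L : (Fin (k + 2) → ℝ) → ℝ,
      L = fun y => lf (k + 2) (fun v => (nthN (gsl S gf) v : ℝ)) y := ⟨_, rfl⟩
  obtain ⟨B, hB⟩ : ∃ B : (Fin (k + 2) → ℝ) → ℝ,
      B = fun y => dpoly k c (Chamber.bar (pts (k + 2) S) y) := ⟨_, rfl⟩
  have hLc : Continuous L := by rw [hL]; exact c3 _ _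
  have hBc : Continuous B := by rw [hB]; exact (c1 k c).comp (c2 _ S)
  obtain ⟨κ, hκd⟩ : ∃ κ : ℝ, κ = 4 / (9 * Dl) := ⟨_, rfl⟩
  have hκ : 0 < κ := by rw [hκd]; positivity
  obtain ⟨A0, hA0⟩ : ∃ A0 : ℝ, A0 = N ^ 2 / (κ * (g0 * g1 * cc ^ 2)) := ⟨_, rfl⟩
  obtain ⟨P, hP⟩ : ∃ P : ℝ → ℝ, P = fun x => A0 *
      ((2 * cc * g0 * g1 + cc ^ 2 * (g0 + g1)) - (g0 * g1 + 2 * cc * (g0 + g1) + cc ^ 2) * x +
        (g0 + g1 + 2 * cc) * x ^ 2 - x ^ 3) - 2 * N + κ * x := ⟨_, rfl⟩
  have hGL : ∀ y, Gf gf (Chamber.bar (pts (k + 2) S) y) = κ * L y := by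
    intro y
    rw [hG y, hκd, hL, hDl]
    have : (dl S : ℝ) ≠ 0 := by rw [← hDl]; exact hDl0.ne'
    field_simp
  have hpt : ∀ y ∈ Chamber.T (Fin (k + 2)),
      dpoly k c (Chamber.bar (pts (k + 2) S) y) *
        pg (2187 / 4) (3 ^ k) (Gf gf (Chamber.bar (pts (k + 2) S) y)) ≤ B y * P (L y) ∧
      0 ≤ B y * P (L y) := by
    intro y hy
    have hb0 : 0 ≤ B y := by rw [hB]; exact c6 k c _ (c8 k S y hS hy).1
    have hl : g0 ≤ L y ∧ L y ≤ g1 := by
      rw [hL]
      exact c7 (k + 2) _ g0 g1 y (fun i hi => hv i hi) hy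
    have hLy : 0 < L y := lt_of_lt_of_le hg0 hl.1
    have h1 : pg (2187 / 4) N (κ * L y) ≤ P (L y) := by
      rw [hP, hA0]
      exact hE2 (2187 / 4) N κ g0 g1 cc (L y) hκ hg0 hgc hl.1 hl.2
    have h2 : 0 ≤ pg (2187 / 4) N (κ * L y) := by
      unfold pg
      rw [if_pos (mul_pos hκ hLy)]
      have := mul_pos hκ hLy
      positivity
    rw [hGL y, ← hN]
    refine ⟨?_, mul_nonneg hb0 (h2.trans h1)⟩
    rw [hB]
    rw [hB] at hb0
    exact mul_le_mul_of_nonneg_left h1 hb0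
  have hPc : Continuous P := by rw [hP]; fun_prop
  have hcont : Continuous fun y => B y * P (L y) := hBc.mul (hPc.comp hLc)
  have hint : ∀ e : ℕ, IntegrableOn (fun y => B y * L y ^ e) (Chamber.T (Fin (k + 2))) :=
    fun e => c5 _ _ (hBc.mul (hLc.pow e))
  have hM : ∀ e : ℕ, ∫ y in Chamber.T (Fin (k + 2)), B y * L y ^ e = Mm k c S gf e := by
    intro e
    rw [hB, hL]
    rfl
  have hlin : ∫ y in Chamber.T (Fin (k + 2)), B y * P (L y) =
      cubR Dl N g0 g1 cc (Mm k c S gf 0) (Mm k c S gf 1) (Mm k c S gf 2) (Mm k c S gf 3) := by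
    have e1 : (fun y => B y * P (L y)) = fun y =>
        (((A0 * (2 * cc * g0 * g1 + cc ^ 2 * (g0 + g1)) - 2 * N) * (B y * L y ^ 0) +
        (κ - A0 * (g0 * g1 + 2 * cc * (g0 + g1) + cc ^ 2)) * (B y * L y ^ 1)) +
        (A0 * (g0 + g1 + 2 * cc)) * (B y * L y ^ 2)) + (-A0) * (B y * L y ^ 3) := by
      funext y
      rw [hP]
      ring
    rw [e1, integral_add, integral_add, integral_add, integral_const_mul, integral_const_mul,
      integral_const_mul, integral_const_mul, hM, hM, hM, hM]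
    · unfold cubR
      have hA : A0 = 9 * Dl * N ^ 2 / (4 * (g0 * g1 * cc ^ 2)) := by
        rw [hA0, hκd]
        field_simp
      rw [← hA, ← hκd]
      ring
    · exact (hint 0).const_mul _
    · exact (hint 1).const_mul _
    · exact ((hint 0).const_mul _).add ((hint 1).const_mul _)
    · exact (hint 2).const_mul _
    · exact (((hint 0).const_mul _).add ((hint 1).const_mul _)).add ((hint 2).const_mul _)
    · exact (hint 3).const_mul _
  rw [← hDl, ← hN] 
  unfold Chamber.EV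
  rw [← hlin, ofReal_integral_eq_lintegral_ofReal (c5 _ _ hcont)
    ((ae_restrict_mem (Chamber.measurableSet_T _)).mono fun y hy => (hpt y hy).2)]
  refine setLIntegral_mono' (Chamber.measurableSet_T _) fun y hy =>
    ENNReal.ofReal_le_ofReal ?_
  have := (hpt y hy).1
  rwa [← hN] at this

end Pool.Agent.Work.MP_122e00_nt.Sharp.Cx

end

section

set_option autoImplicit false

/-!
# Item E3d: the arithmetic of a leaf
-/

namespace Pool.Agent.Work.MP_122e00_nt.Sharp.Cx

namespace IE3d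

theorem fac_eq (n : ℕ) : fac n = n.factorial := by
  induction n with
  | zero => rfl
  | succ n ih =>
    have h : fac (n + 1) = (n + 1) * fac n := rfl
    rw [h, ih, Nat.factorial_succ]

theorem cdiv_eq (x y : ℕ) : cdiv x y = (x + (y - 1)) / y := rfl

theorem le_cdiv (x y : ℕ) (hy : 0 < y) : (x : ℝ) / (y : ℝ) ≤ (cdiv x y : ℝ) := by
  have h1 : x ≤ y * cdiv x y := by
    rw [cdiv_eq]
    have h2 := Nat.div_add_mod (x + (y - 1)) y
    have h3 := Nat.mod_lt (x + (y - 1)) hy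
    omega
  have hy' : (0 : ℝ) < (y : ℝ) := by exact_mod_cast hy
  rw [div_le_iff₀ hy']
  have h2 : (x : ℝ) ≤ (y : ℝ) * (cdiv x y : ℝ) := by exact_mod_cast h1
  linarith

/-- The numerator of the first case. -/
def n1 (cl : Cl) (Y0 : ℕ) : ℕ :=
  Sc * cl.cn * (2183 * 3 ^ cl.k * ((cl.k + 2 + cl.D + 3) * ((cl.k + 2 + cl.D + 2) *
    (cl.k + 2 + cl.D + 1)) * Y0))

/-- The denominator of the first case. -/
def d1 (cl : Cl) (Dl : ℕ) : ℕ := 2 * cl.cd * (Dl ^ cl.D * fac (cl.k + 2 + cl.D + 3))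

/-- The node. -/
def nd (g0 g1 t : ℕ) : ℕ := g0 + (g1 - g0) * t / 16

/-- The numerator of the second case. -/
def n2 (cl : Cl) (t Dl g0 g1 Y0 Y1 Y2 Y3 : ℕ) : ℕ :=
  Sc * cl.cn * cub Dl (3 ^ cl.k) ((cl.k + 2 + cl.D + 3) * ((cl.k + 2 + cl.D + 2) *
    (cl.k + 2 + cl.D + 1))) ((cl.k + 2 + cl.D + 3) * (cl.k + 2 + cl.D + 2))
    (2 * (cl.k + 2 + cl.D + 3)) Y0 Y1 Y2 Y3 g0 g1 (nd g0 g1 t)

/-- The denominator of the second case. -/
def d2 (cl : Cl) (t Dl g0 g1 : ℕ) : ℕ :=
  36 * Dl * (g0 * g1 * (nd g0 g1 t * nd g0 g1 t)) * (cl.cd * (Dl ^ cl.D *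
    fac (cl.k + 2 + cl.D + 3)))

theorem fin_zero (cl : Cl) (t Dl g0 Y0 Y1 Y2 Y3 : ℕ) :
    fin cl t Dl g0 0 Y0 Y1 Y2 Y3 = cdiv (n1 cl Y0) (d1 cl Dl) := rfl

theorem fin_pos (cl : Cl) (t Dl g0 g1 Y0 Y1 Y2 Y3 : ℕ) :
    fin cl t Dl g0 (g1 + 1) Y0 Y1 Y2 Y3 =
      cdiv (n2 cl t Dl g0 (g1 + 1) Y0 Y1 Y2 Y3) (d2 cl t Dl g0 (g1 + 1)) := rfl

theorem cub_eq (Dl N F0 F1 F2 Y0 Y1 Y2 Y3 g0 g1 c : ℕ) :
    cub Dl N F0 F1 F2 Y0 Y1 Y2 Y3 g0 g1 c =
      (81 * (Dl * Dl * (N * N)) * ((2 * c * (g0 * g1) + c * c * (g0 + g1)) * (F0 * Y0) +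
        (g0 + g1 + 2 * c) * (F2 * Y2)) + 16 * (g0 * g1 * (c * c)) * (F1 * Y1)) -
      (81 * (Dl * Dl * (N * N)) * ((g0 * g1 + 2 * c * (g0 + g1) + c * c) * (F1 * Y1) + 6 * Y3) +
        72 * (Dl * (N * (g0 * g1 * (c * c)))) * (F0 * Y0)) := rfl

theorem le_cub (Dl N F0 F1 F2 Y0 Y1 Y2 Y3 g0 g1 c : ℕ) :
    (81 * ((Dl : ℝ) * Dl * ((N : ℝ) * N)) * ((2 * c * (g0 * g1) + c * c * (g0 + g1)) * (F0 * Y0) +
        (g0 + g1 + 2 * c) * (F2 * Y2)) + 16 * (g0 * g1 * (c * c)) * (F1 * Y1)) -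
      (81 * ((Dl : ℝ) * Dl * ((N : ℝ) * N)) * ((g0 * g1 + 2 * c * (g0 + g1) + c * c) * (F1 * Y1) +
        6 * Y3) + 72 * (Dl * (N * (g0 * g1 * (c * c)))) * (F0 * Y0)) ≤
      (cub Dl N F0 F1 F2 Y0 Y1 Y2 Y3 g0 g1 c : ℝ) := by
  rw [cub_eq]
  have h := le_tsub_add (b := (81 * (Dl * Dl * (N * N)) * ((2 * c * (g0 * g1) + c * c * (g0 + g1)) * (F0 * Y0) +
        (g0 + g1 + 2 * c) * (F2 * Y2)) + 16 * (g0 * g1 * (c * c)) * (F1 * Y1)))
        (a := (81 * (Dl * Dl * (N * N)) * ((g0 * g1 + 2 * c * (g0 + g1) + c * c) * (F1 * Y1) + 6 * Y3) +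
        72 * (Dl * (N * (g0 * g1 * (c * c)))) * (F0 * Y0)))
  have h2 := (Nat.cast_le (α := ℝ)).2 h
  push_cast at h2 ⊢
  linarith

end IE3d

open IE3d in
theorem prfE3d : claimE3d := by
  intro cl t Dl g0 g1 Y0 Y1 Y2 Y3 hcd hDl
  have hS : (0 : ℝ) < (Sc : ℝ) := by
    have : (0 : ℕ) < Sc := by unfold Sc; norm_num
    exact_mod_cast this
  have hcd' : (0 : ℝ) < (cl.cd : ℝ) := by exact_mod_cast hcd
  have hDl' : (0 : ℝ) < (Dl : ℝ) := by exact_mod_cast hDl
  have hDD : (0 : ℝ) < (Dl : ℝ) ^ cl.D := by positivity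
  set e : ℕ := cl.k + 2 + cl.D with he
  have hE : (0 : ℝ) < (e.factorial : ℝ) := by exact_mod_cast Nat.factorial_pos _
  have f1 : ((e + 1).factorial : ℝ) = (e + 1) * (e.factorial : ℝ) := by
    rw [Nat.factorial_succ]; push_cast; ring
  have f2 : ((e + 2).factorial : ℝ) = (e + 2) * ((e + 1) * (e.factorial : ℝ)) := by
    rw [Nat.factorial_succ, Nat.cast_mul, f1]; push_cast; ring
  have f3 : ((e + 3).factorial : ℝ) = (e + 3) * ((e + 2) * ((e + 1) * (e.factorial : ℝ))) := by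
    rw [Nat.factorial_succ, Nat.cast_mul, f2]; push_cast; ring
  have fc : (fac (e + 3) : ℝ) = (e + 3) * ((e + 2) * ((e + 1) * (e.factorial : ℝ))) := by
    rw [fac_eq, f3]
  refine ⟨fun hg => ?_, fun hg0 hg01 => ?_⟩
  · subst hg
    rw [fin_zero, le_div_iff₀ hS]
    have hd : 0 < d1 cl Dl := by
      unfold d1
      rw [fac_eq]
      have := Nat.factorial_pos (cl.k + 2 + cl.D + 3)
      positivity
    refine le_trans (le_of_eq ?_) (le_cdiv _ _ hd)
    unfold n1 d1 Mv
    rw [← he]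
    push_cast
    rw [fc]
    simp only [Nat.factorial_zero, Nat.cast_one, Nat.add_zero]
    field_simp
  · obtain ⟨g1, rfl⟩ : ∃ g, g1 = g + 1 := ⟨g1 - 1, by omega⟩
    rw [fin_pos, le_div_iff₀ hS]
    have hc : nd g0 (g1 + 1) t = g0 + (g1 + 1 - g0) * t / 16 := rfl
    rw [← hc]
    have hcp : 0 < nd g0 (g1 + 1) t := by rw [hc]; omega
    have hd : 0 < d2 cl t Dl g0 (g1 + 1) := by
      unfold d2
      rw [fac_eq]
      have := Nat.factorial_pos (cl.k + 2 + cl.D + 3)
      positivity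
    refine le_trans ?_ (le_cdiv _ _ hd)
    have hdr : (0 : ℝ) < (d2 cl t Dl g0 (g1 + 1) : ℝ) := by exact_mod_cast hd
    rw [le_div_iff₀ hdr]
    have hm := le_cub Dl (3 ^ cl.k) ((e + 3) * ((e + 2) * (e + 1))) ((e + 3) * (e + 2)) (2 * (e + 3))
      Y0 Y1 Y2 Y3 g0 (g1 + 1) (nd g0 (g1 + 1) t)
    have hm2 : (n2 cl t Dl g0 (g1 + 1) Y0 Y1 Y2 Y3 : ℝ) = (Sc : ℝ) * cl.cn *
        (cub Dl (3 ^ cl.k) ((e + 3) * ((e + 2) * (e + 1))) ((e + 3) * (e + 2)) (2 * (e + 3))
      Y0 Y1 Y2 Y3 g0 (g1 + 1) (nd g0 (g1 + 1) t) : ℝ) := by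
      unfold n2
      push_cast
      rfl
    rw [hm2]
    refine le_trans (le_of_eq ?_) (mul_le_mul_of_nonneg_left hm (by positivity))
    have hg0' : (0 : ℝ) < (g0 : ℝ) := by exact_mod_cast hg0
    have hg1' : (0 : ℝ) < ((g1 + 1 : ℕ) : ℝ) := by positivity
    have hcp' : (0 : ℝ) < (nd g0 (g1 + 1) t : ℝ) := by exact_mod_cast hcp
    have hd2 : d2 cl t Dl g0 (g1 + 1) = 36 * Dl * (g0 * (g1 + 1) * (nd g0 (g1 + 1) t *
      nd g0 (g1 + 1) t)) * (cl.cd * (Dl ^ cl.D * fac (cl.k + 2 + cl.D + 3))) := rfl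
    rw [hd2]
    clear hd2 hm2 hdr hd hc
    generalize (nd g0 (g1 + 1) t) = c at *
    unfold Mv cubR
    rw [← he]
    simp only [Nat.cast_mul, Nat.cast_add, Nat.cast_pow, Nat.cast_ofNat, Nat.cast_one] at *
    rw [fc, f1, f2, f3]
    simp only [Nat.factorial, Nat.cast_one, Nat.add_zero, Nat.cast_ofNat, Nat.cast_mul, Nat.cast_succ]
    field_simp
    ring

end Pool.Agent.Work.MP_122e00_nt.Sharp.Cx

end

section

set_option autoImplicit false

/-!
# The certificate: a leaf of weight zero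
-/

namespace Pool.Agent.Work.MP_122e00_nt.Sharp.Cx

open Finset MeasureTheory

open scoped ENNReal

open Gen

namespace IE3z

theorem lf_zero (n : ℕ) (a : ℕ → ℝ) (ha : ∀ v, v ≤ n → a v = 0) (y : Fin n → ℝ) :
    lf n a y = 0 := by
  unfold lf
  rw [ha n le_rfl, mul_zero, add_zero]
  refine Finset.sum_eq_zero fun i _ => ?_
  rw [ha i.val i.isLt.le, mul_zero]

end IE3z

theorem prfE3z : claimC9 → claimE3z := by
  intro h9 k c S gf hc hS hz hG
  obtain ⟨h1, h2, h3, h4, h5, h6, h7, h8⟩ := h9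
  have hl : ∀ y : Fin (k + 2) → ℝ, lf (k + 2) (fun v => (nthN (gsl S gf) v : ℝ)) y = 0 := by
    intro y
    refine IE3z.lf_zero _ _ (fun v hv => ?_) y
    simp only [hz v hv, Nat.cast_zero]
  have hg0 : ∀ y : Fin (k + 2) → ℝ, Gf gf (Chamber.bar (pts (k + 2) S) y) = 0 := by
    intro y
    rw [hG y, hl y]
    simp
  have hpg : pg (2187 / 4) (3 ^ k) 0 = 2183 / 2 * 3 ^ k := by
    unfold pg
    rw [if_neg (lt_irrefl _)]
    ring
  have hcont : Continuous fun y : Fin (k + 2) → ℝ =>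
      dpoly k c (Chamber.bar (pts (k + 2) S) y) * (2183 / 2 * 3 ^ k) :=
    ((h1 k c).comp (h2 (k + 2) S)).mul continuous_const
  have hint := h5 (k + 2) _ hcont
  unfold Chamber.EV
  have e1 : ∀ y : Fin (k + 2) → ℝ, ENNReal.ofReal (dpoly k c (Chamber.bar (pts (k + 2) S) y) *
      pg (2187 / 4) (3 ^ k) (Gf gf (Chamber.bar (pts (k + 2) S) y))) =
      ENNReal.ofReal (dpoly k c (Chamber.bar (pts (k + 2) S) y) * (2183 / 2 * 3 ^ k)) := by
    intro y
    rw [hg0 y, hpg]
  simp only [e1]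
  rw [← ofReal_integral_eq_lintegral_ofReal hint]
  · apply ENNReal.ofReal_le_ofReal
    apply le_of_eq
    rw [integral_mul_const]
    unfold Mm
    simp only [pow_zero, mul_one]
    ring
  · filter_upwards [ae_restrict_mem (Chamber.measurableSet_T (Fin (k + 2)))] with y hy
    have h := h6 k c (Chamber.bar (pts (k + 2) S) y) (h8 k S y hS hy).1
    simp only [Pi.zero_apply]
    positivity

end Pool.Agent.Work.MP_122e00_nt.Sharp.Cx

end

end
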