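import Pool.Agent.Work.MP_122e00_nt.Four.Cert.Stmts
import Pool.Agent.Work.MP_122e00_nt.Sharp.Cert.GB
import Pool.Agent.Work.MP_122e00_nt.Bdx.B01

/-! Bundle of small proof modules (one section per former module). -/

section

set_option autoImplicit false

/-!
# C3: the tables
-/

namespace Pool.Agent.Work.MP_122e00_nt.Four.Cx

open Gen Sharp Sharp.Cx

namespace IC3

/-- the inner loop of `stp` -/
noncomputable def aux (L : ℕ) (tab : List ℕ) : ℕ → List ℕ :=
  @List.rec ℕ (fun _ => ℕ → List ℕ) (fun _ => [])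
    (fun a _ ih c => (fun n => List.cons n (ih n)) (Nat.add a (Nat.mul L c))) tab

theorem aux_nil (L c : ℕ) : aux L [] c = [] := rfl

theorem aux_cons (L a : ℕ) (t : List ℕ) (c : ℕ) :
    aux L (a :: t) c = (a + L * c) :: aux L t (a + L * c) := rfl

theorem stp_eq (L : ℕ) (tab : List ℕ) : stp L tab = aux L tab 0 := rfl

theorem tb_nil (t : List ℕ) : tb [] t = t := rfl

theorem tb_cons (L : ℕ) (Ls t : List ℕ) : tb (L :: Ls) t = tb Ls (stp L t) := rfl

/-- `[H d, H (d + 1), .., H (d + n)]` -/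
def rg (H : ℕ → ℕ) : ℕ → ℕ → List ℕ
  | d, 0 => [H d]
  | d, n + 1 => H d :: rg H (d + 1) n

theorem aux_succ (a g : ℕ → ℕ) (N : ℕ) : ∀ n d : ℕ,
    aux (a N) (rg (fun d => h2 a g N d 0) (d + 1) n) (h2 a g (N + 1) d 0) =
      rg (fun d => h2 a g (N + 1) d 0) (d + 1) n := by
  intro n
  induction n with
  | zero =>
    intro d
    have e : h2 a g (N + 1) (d + 1) 0 = h2 a g N (d + 1) 0 + a N * h2 a g (N + 1) d 0 := by rw [h2]
    simp only [rg]
    rw [aux_cons, aux_nil, ← e]
  | succ n ih =>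
    intro d
    have e : h2 a g (N + 1) (d + 1) 0 = h2 a g N (d + 1) 0 + a N * h2 a g (N + 1) d 0 := by rw [h2]
    simp only [rg]
    rw [aux_cons, ← e, ih (d + 1)]

theorem stp_rg (a g : ℕ → ℕ) (N n : ℕ) :
    stp (a N) (rg (fun d => h2 a g N d 0) 0 n) = rg (fun d => h2 a g (N + 1) d 0) 0 n := by
  have e : h2 a g (N + 1) 0 0 = h2 a g N 0 0 := by rw [h2]
  rw [stp_eq]
  cases n with
  | zero =>
    simp only [rg]
    rw [aux_cons, aux_nil, mul_zero, add_zero, e]
  | succ n =>
    simp only [rg]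
    rw [aux_cons, mul_zero, add_zero, ← e]
    exact congrArg _ (aux_succ a g N n 0)

theorem tb_rg (a g : ℕ → ℕ) (n : ℕ) : ∀ (Ls : List ℕ) (N : ℕ),
    (∀ i, i < Ls.length → nthN Ls i = a (N + i)) →
    tb Ls (rg (fun d => h2 a g N d 0) 0 n) = rg (fun d => h2 a g (N + Ls.length) d 0) 0 n := by
  intro Ls
  induction Ls with
  | nil => intro N _; rfl
  | cons L Ls ih =>
    intro N h1
    have hL : L = a N := h1 0 (Nat.succ_pos _)
    rw [tb_cons, hL, stp_rg, ih (N + 1)]
    · rw [List.length_cons, show N + 1 + Ls.length = N + (Ls.length + 1) by omega]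
    · intro i hi
      have h3 : nthN (L :: Ls) (i + 1) = a (N + (i + 1)) :=
        h1 (i + 1) (by rw [List.length_cons]; omega)
      rw [show N + 1 + i = N + (i + 1) by omega, ← h3]
      rfl

theorem zr_succ (n : ℕ) : zr (n + 1) = 0 :: zr n := rfl

theorem rg_zero (a g : ℕ → ℕ) : ∀ n d : ℕ,
    rg (fun d => h2 a g 0 d 0) (d + 1) n = zr (n + 1) := by
  have hz : ∀ d, h2 a g 0 (d + 1) 0 = 0 := by
    intro d
    rw [h2, if_neg (by omega)]
  intro n
  induction n with
  | zero =>
    intro d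
    simp only [rg]
    rw [hz]
    rfl
  | succ n ih =>
    intro d
    simp only [rg]
    rw [hz, ih (d + 1), zr_succ (n + 1)]

theorem i0_eq (a g : ℕ → ℕ) (D : ℕ) : i0 D = rg (fun d => h2 a g 0 d 0) 0 D := by
  have h0 : h2 a g 0 0 0 = 1 := by rw [h2, if_pos ⟨rfl, rfl⟩]
  have h1 : i0 D = 1 :: zr D := rfl
  rw [h1]
  cases D with
  | zero =>
    simp only [rg]
    rw [h0]
    rfl
  | succ n =>
    simp only [rg]
    rw [h0]
    exact congrArg _ (rg_zero a g n 0).symm

/-- the last entry with a default value -/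
noncomputable def la (l : List ℕ) : ℕ → ℕ :=
  @List.rec ℕ (fun _ => ℕ → ℕ) (fun d => d) (fun a _ ih _ => ih a) l

theorem lastN_eq (l : List ℕ) : lastN l = la l 0 := rfl

theorem la_rg (H : ℕ → ℕ) : ∀ n d c : ℕ, la (rg H d n) c = H (d + n) := by
  intro n
  induction n with
  | zero => intro d c; rfl
  | succ n ih =>
    intro d c
    have h : la (rg H d (n + 1)) c = la (rg H (d + 1) n) (H d) := rfl
    rw [h, ih (d + 1), show d + 1 + n = d + (n + 1) by omega]

end IC3

open IC3 in
theorem prfC3 : claimC3 := by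
  intro Ls D
  rw [i0_eq (nthN Ls) (fun _ => 0) D,
    tb_rg (nthN Ls) (fun _ => 0) D Ls 0 (fun i _ => by rw [Nat.zero_add]), Nat.zero_add,
    lastN_eq, la_rg, Nat.zero_add]

end Pool.Agent.Work.MP_122e00_nt.Four.Cx

end

section

set_option autoImplicit false

/-!
# Item C8: the packed linear form
-/

namespace Pool.Agent.Work.MP_122e00_nt.Four.Cx

open Sharp.Cx

namespace IC8

theorem dot_cons (a : ℕ) (p w : List ℕ) : dot (a :: p) w = a * hd w + dot p (tl w) := rfl

theorem dot_nil (w : List ℕ) : dot [] w = 0 := rfl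

theorem hd_cons (a : ℕ) (p : List ℕ) : hd (a :: p) = a := rfl

theorem tl_cons (a : ℕ) (p : List ℕ) : tl (a :: p) = p := rfl

theorem nthN_zero (a : ℕ) (p : List ℕ) : nthN (a :: p) 0 = a := rfl

theorem nthN_succ (a : ℕ) (p : List ℕ) (i : ℕ) : nthN (a :: p) (i + 1) = nthN p i := rfl

theorem wl_nil4 (bits wS a b c d : ℕ) :
    wl bits wS [a, b, c, d] [] = [a * 2 ^ (bits * wS), b * 2 ^ (bits * wS),
      c * 2 ^ (bits * wS), d * 2 ^ (bits * wS)] := rfl

theorem wl_cons (bits wS : ℕ) (us : List ℕ) (w : ℕ) (ws : List ℕ) :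
    wl bits wS us (w :: ws) = 2 ^ (bits * w) :: wl bits wS us ws := rfl

theorem len4 {α : Type} {l : List α} (h : l.length = 4) : ∃ a b c d, l = [a, b, c, d] := by
  match l, h with
  | [a, b, c, d], _ => exact ⟨a, b, c, d, rfl⟩

end IC8

open IC8 in
/-- C8. -/
theorem prfC8 : claimC8 := by
  intro p ws
  induction ws generalizing p with
  | nil =>
    intro us wS bits hus hp
    obtain ⟨u, v, w, x, rfl⟩ := len4 hus
    obtain ⟨a, b, c, d, rfl⟩ := len4 (by simpa using hp : p.length = 4)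
    rw [wl_nil4]
    simp only [dot_cons, dot_nil, hd_cons, tl_cons, List.length_nil,
      Finset.range_zero, Finset.sum_empty, Finset.sum_range_succ, zero_add]
    have e1 : nthN [u, v, w, x] 0 = u := rfl
    have e2 : nthN [u, v, w, x] 1 = v := rfl
    have e3 : nthN [u, v, w, x] 2 = w := rfl
    have e4 : nthN [u, v, w, x] 3 = x := rfl
    have e5 : nthN [a, b, c, d] 0 = a := rfl
    have e6 : nthN [a, b, c, d] 1 = b := rfl
    have e7 : nthN [a, b, c, d] 2 = c := rfl
    have e8 : nthN [a, b, c, d] 3 = d := rfl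
    rw [e1, e2, e3, e4, e5, e6, e7, e8]
    ring
  | cons w ws ih =>
    intro us wS bits hus hp
    match p, hp with
    | a :: p, hp =>
      have hp' : p.length = ws.length + 4 := by
        simp only [List.length_cons] at hp
        omega
      have h := ih p us wS bits hus hp'
      rw [wl_cons, dot_cons, hd_cons, tl_cons, h, List.length_cons,
        Finset.sum_range_succ' (fun j => nthN (a :: p) j * 2 ^ (bits * nthN (w :: ws) j)) ws.length]
      have e1 : ∀ q, nthN (a :: p) (ws.length + 1 + q) = nthN p (ws.length + q) := by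
        intro q
        rw [show ws.length + 1 + q = ws.length + q + 1 by ring]
        exact nthN_succ _ _ _
      simp only [e1, nthN_succ, nthN_zero]
      ring

end Pool.Agent.Work.MP_122e00_nt.Four.Cx

end

section

set_option autoImplicit false

/-!
# C9: continuity and positivity (four parts)
-/

namespace Pool.Agent.Work.MP_122e00_nt.Four.Cx

open Finset MeasureTheory

open Gen Sharp Sharp.Cx

namespace IC9

theorem nth_mem (l : List (List ℕ)) : ∀ i, i < l.length → nth l i ∈ l := by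
  induction l with
  | nil => intro i hi; simp at hi
  | cons a l ih =>
    intro i hi
    rcases i with _ | i
    · have h : nth (a :: l) 0 = a := rfl
      rw [h]
      exact List.mem_cons_self
    · have h : nth (a :: l) (i + 1) = nth l i := rfl
      rw [h]
      exact List.mem_cons_of_mem _ (ih i (by simpa using hi))

theorem sum_nthN (p : List ℕ) : ∑ i ∈ range p.length, nthN p i = sm p := by
  induction p with
  | nil => rfl
  | cons a p ih =>
    have h1 : sm (a :: p) = a + sm p := rfl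
    have h2 : nthN (a :: p) 0 = a := rfl
    have h3 : ∀ i, nthN (a :: p) (i + 1) = nthN p i := fun _ => rfl
    rw [List.length_cons, Finset.sum_range_succ', h1, ← ih, h2, add_comm]
    congr 1

theorem pt_nonneg (N : ℕ) (p : List ℕ) (i : Fin N) : 0 ≤ pt N p i := by
  unfold pt
  positivity

theorem pt_sum (N : ℕ) (p : List ℕ) (h : p.length = N) (h0 : 0 < sm p) : ∑ i, pt N p i = 1 := by
  unfold pt
  rw [← Finset.sum_div]
  have h1 : ∑ i : Fin N, (nthN p i.val : ℝ) = (sm p : ℝ) := by
    rw [Fin.sum_univ_eq_sum_range (fun i => (nthN p i : ℝ)) N, ← sum_nthN p, h]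
    push_cast
    rfl
  rw [h1, div_self]
  exact_mod_cast h0.ne'

theorem cont_vr (k : ℕ) (c : Cl) (i : Fin (k + 1)) : Continuous (fun p => vr k c p i) := by
  unfold vr
  by_cases h : i.val < k
  · simp only [h, if_true]
    exact continuous_apply _
  · simp only [h, if_false]
    exact continuous_finsetSum _ fun q _ => continuous_const.mul (continuous_apply _)

theorem cont_dpoly (k : ℕ) (c : Cl) : Continuous (dpoly k c) := by
  unfold dpoly
  refine continuous_const.mul (continuous_finsetSum _ fun β _ => ?_)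
  refine continuous_const.mul (continuous_finsetProd _ fun i _ => ?_)
  exact ((cont_vr k c i).pow _).div_const _

theorem vr_nonneg (k : ℕ) (c : Cl) (p : Fin (k + 4) → ℝ) (hp : ∀ i, 0 ≤ p i) (i : Fin (k + 1)) :
    0 ≤ vr k c p i := by
  unfold vr
  split_ifs
  · exact hp _
  · exact Finset.sum_nonneg fun q _ => mul_nonneg (Nat.cast_nonneg _) (hp _)

theorem dpoly_nonneg (k : ℕ) (c : Cl) (p : Fin (k + 4) → ℝ) (hp : ∀ i, 0 ≤ p i) :
    0 ≤ dpoly k c p := by
  unfold dpoly
  refine mul_nonneg (by positivity) (Finset.sum_nonneg fun β _ => ?_)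
  refine mul_nonneg (Nat.cast_nonneg _) (Finset.prod_nonneg fun i _ => ?_)
  exact div_nonneg (pow_nonneg (vr_nonneg k c p hp i) _) (Nat.cast_nonneg _)

theorem bar_pts (k : ℕ) (S : List (List ℕ)) (y : Fin (k + 3) → ℝ) (hS : Sv k S)
    (hy : y ∈ Chamber.T (Fin (k + 3))) :
    (∀ i, 0 ≤ Chamber.bar (pts (k + 3) S) y i) ∧
      ∑ i, Chamber.bar (pts (k + 3) S) y i = 1 := by
  obtain ⟨h1, h2⟩ := hy
  have hb : ∀ i, Chamber.bar (pts (k + 3) S) y i =
      ∑ j, y j * pt (k + 3 + 1) (nth S j.val) i +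
        (1 - ∑ j, y j) * pt (k + 3 + 1) (nth S (k + 3)) i := by
    intro i
    unfold Chamber.bar
    rw [Pi.add_apply, Finset.sum_apply]
    rfl
  have hs : ∀ v, v < k + 4 → ∑ i, pt (k + 3 + 1) (nth S v) i = 1 := by
    intro v hv
    obtain ⟨h3, h4⟩ := hS.2 (nth S v) (nth_mem S v (by rw [hS.1]; exact hv))
    exact pt_sum _ _ h3 h4
  constructor
  · intro i
    rw [hb i]
    refine add_nonneg (Finset.sum_nonneg fun j _ => mul_nonneg (h1 j) (pt_nonneg _ _ _)) ?_
    exact mul_nonneg (by linarith) (pt_nonneg _ _ _)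
  · rw [Finset.sum_congr rfl fun i _ => hb i, Finset.sum_add_distrib, Finset.sum_comm,
      ← Finset.mul_sum, hs _ (by omega)]
    have h5 : ∑ j : Fin (k + 3), ∑ i, y j * pt (k + 3 + 1) (nth S j.val) i = ∑ j, y j := by
      refine Finset.sum_congr rfl fun j _ => ?_
      rw [← Finset.mul_sum, hs _ (by omega), mul_one]
    rw [h5]
    ring

end IC9

theorem prfC9 : claimC9 :=
  ⟨IC9.cont_dpoly, IC9.dpoly_nonneg, IC9.bar_pts⟩

end Pool.Agent.Work.MP_122e00_nt.Four.Cx

end

section

set_option autoImplicit false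

/-!
# Item E1a, four parts: the slot of a leaf as a sum
-/

namespace Pool.Agent.Work.MP_122e00_nt.Four.Cx

open Finset MeasureTheory

open Gen Sharp Sharp.Cx

namespace IE1a

theorem nth_cons_zero (a : List ℕ) (l : List (List ℕ)) : nth (a :: l) 0 = a := rfl

theorem nth_cons_succ (a : List ℕ) (l : List (List ℕ)) (i : ℕ) :
    nth (a :: l) (i + 1) = nth l i := rfl

theorem nthN_cons_zero (a : ℕ) (l : List ℕ) : nthN (a :: l) 0 = a := rfl

theorem nthN_cons_succ (a : ℕ) (l : List ℕ) (i : ℕ) : nthN (a :: l) (i + 1) = nthN l i := rfl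

theorem mpL_cons (f : List ℕ → ℕ) (a : List ℕ) (l : List (List ℕ)) :
    mpL f (a :: l) = f a :: mpL f l := rfl

theorem sm_cons (a : ℕ) (l : List ℕ) : sm (a :: l) = a + sm l := rfl

theorem length_mpL (f : List ℕ → ℕ) (l : List (List ℕ)) : (mpL f l).length = l.length := by
  induction l with
  | nil => rfl
  | cons a l ih => rw [mpL_cons, List.length_cons, List.length_cons, ih]

theorem nthN_mpL (f : List ℕ → ℕ) (l : List (List ℕ)) (v : ℕ) (hv : v < l.length) :
    nthN (mpL f l) v = f (nth l v) := by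
  induction l generalizing v with
  | nil => simp at hv
  | cons a l ih =>
    rw [mpL_cons]
    cases v with
    | zero => rfl
    | succ v =>
      rw [nthN_cons_succ, nth_cons_succ]
      exact ih v (by simpa using hv)

theorem nth_mem (l : List (List ℕ)) (v : ℕ) (hv : v < l.length) : nth l v ∈ l := by
  induction l generalizing v with
  | nil => simp at hv
  | cons a l ih =>
    cases v with
    | zero => rw [nth_cons_zero]; exact List.mem_cons_self
    | succ v =>
      rw [nth_cons_succ]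
      exact List.mem_cons_of_mem _ (ih v (by simpa using hv))

theorem sm_eq (p : List ℕ) : sm p = ∑ i ∈ Finset.range p.length, nthN p i := by
  induction p with
  | nil => rfl
  | cons a p ih =>
    rw [List.length_cons, Finset.sum_range_succ', sm_cons, ih, add_comm]
    rfl

theorem h2_congr {A : Type} [CommSemiring A] (a g a' g' : ℕ → A) (N d e : ℕ)
    (ha : ∀ v, v < N → a v = a' v) (hg : ∀ v, v < N → g v = g' v) :
    h2 a g N d e = h2 a' g' N d e := by
  induction N generalizing d e with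
  | zero => rw [h2, h2]
  | succ N ihN =>
    have hN : ∀ d e, h2 a g N d e = h2 a' g' N d e := fun d e =>
      ihN d e (fun v hv => ha v (by omega)) (fun v hv => hg v (by omega))
    have h1 : ∀ m, ∀ d e, d + e = m → h2 a g (N + 1) d e = h2 a' g' (N + 1) d e := by
      intro m
      induction m with
      | zero =>
        intro d e hde
        obtain ⟨rfl, rfl⟩ : d = 0 ∧ e = 0 := by omega
        rw [h2, h2, hN]
      | succ m ihm =>
        intro d e hde
        match d, e with
        | 0, 0 => omega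
        | d + 1, 0 =>
          rw [h2, h2, hN, ihm d 0 (by omega), ha N (by omega)]
        | 0, e + 1 =>
          rw [h2, h2, hN, ihm 0 e (by omega), hg N (by omega)]
        | d + 1, e + 1 =>
          rw [h2, h2, hN, ihm d (e + 1) (by omega), ihm (d + 1) e (by omega), ha N (by omega),
            hg N (by omega)]
    exact h1 _ d e rfl

theorem fac_eq (n : ℕ) : fac n = n.factorial := by
  induction n with
  | zero => rfl
  | succ n ih =>
    have h : fac (n + 1) = (n + 1) * fac n := rfl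
    rw [h, ih, Nat.factorial_succ]

theorem bin_eq (n j : ℕ) : bin n j = (n + j).choose j := by
  have h : bin n j = fac (n + j) / (fac n * fac j) := rfl
  rw [h, fac_eq, fac_eq, fac_eq, Nat.add_choose]

theorem bin_eq' (n j : ℕ) : bin n j = (n + j).choose n := by
  rw [bin_eq, Nat.choose_symm_add]

theorem bin_zero (n : ℕ) : bin n 0 = 1 := by
  rw [bin_eq, Nat.choose_zero_right]

theorem okb_lt {cl : Cl} {bits Dl : ℕ} (h : okb cl bits Dl = true) :
    gt cl 0 * bin cl.D (cl.k + 3) * Dl ^ cl.D < 2 ^ bits := by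
  have h1 : okb cl bits Dl = Nat.blt (gt cl 0 * bin cl.D (cl.k + 3) * Dl ^ cl.D) (2 ^ bits) := rfl
  rw [h1] at h
  exact Nat.le_of_ble_eq_true h

theorem us_zero (us : List ℕ) (h3 : us.length = 4) (h : sm us = 0) (q : ℕ) (hq : q < 4) :
    nthN us q = 0 := by
  rw [sm_eq, h3, Finset.sum_eq_zero_iff] at h
  exact h q (Finset.mem_range.2 hq)

/-- The packed variables. -/
noncomputable def Wp (c : Cl) (bits k : ℕ) (j : Fin (k + 1)) : ℕ :=
  if j.val < k then 2 ^ (bits * nthN c.ws j.val) else 2 ^ (bits * c.wS)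

theorem prod_Wp (c : Cl) (bits k : ℕ) (α : Fin (k + 1) → ℕ) :
    ∏ j, Wp c bits k j ^ α j = 2 ^ (bits * sl c.ws c.wS k α) := by
  rw [Fin.prod_univ_castSucc]
  have h1 : ∀ j : Fin k, Wp c bits k j.castSucc ^ α j.castSucc =
      2 ^ (bits * (nthN c.ws j.val * α j.castSucc)) := by
    intro j
    unfold Wp
    rw [if_pos (by simp), ← pow_mul, mul_assoc]
    rfl
  have h2 : Wp c bits k (Fin.last k) ^ α (Fin.last k) = 2 ^ (bits * (c.wS * α (Fin.last k))) := by
    unfold Wp
    rw [if_neg (by simp), ← pow_mul, mul_assoc]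
  rw [h2, Finset.prod_congr rfl (fun j _ => h1 j), Finset.prod_pow_eq_pow_sum, ← pow_add]
  unfold sl
  rw [← Finset.mul_sum, mul_add]

theorem pack (hC8 : claimC8) (k : ℕ) (c : Cl) (bits : ℕ) (S : List (List ℕ)) (hc : Clv k c)
    (hS : Sv k S) (v : ℕ) (hv : v < k + 4) :
    dl S / sm (nth S v) * dot (nth S v) (wl bits c.wS c.us c.ws) =
      ∑ j, Wp c bits k j * av k c S v j := by
  have hm := nth_mem S v (by rw [hS.1]; exact hv)
  have hl := (hS.2 _ hm).1
  have h8 := hC8 (nth S v) c.ws c.us c.wS bits hc.us_len (by rw [hl, hc.ws_len])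
  rw [h8, hc.ws_len, Fin.sum_univ_castSucc, Finset.sum_range]
  have h1 : ∀ j : Fin k, Wp c bits k j.castSucc * av k c S v j.castSucc =
      dl S / sm (nth S v) * (nthN (nth S v) j.val * 2 ^ (bits * nthN c.ws j.val)) := by
    intro j
    unfold Wp av
    rw [if_pos (by simp), if_pos (by simp)]
    simp only [Fin.val_castSucc]
    ring
  have h2 : Wp c bits k (Fin.last k) * av k c S v (Fin.last k) = dl S / sm (nth S v) *
      ((∑ q ∈ Finset.range 4, nthN c.us q * nthN (nth S v) (k + q)) * 2 ^ (bits * c.wS)) := by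
    unfold Wp av
    rw [if_neg (by simp), if_neg (by simp)]
    ring
  rw [h2, Finset.sum_congr rfl (fun j _ => h1 j), ← Finset.mul_sum, mul_add]

theorem av_sum_le (k : ℕ) (c : Cl) (S : List (List ℕ)) (hc : Clv k c) (hS : Sv k S)
    (hd : ∀ p ∈ S, dl S / sm p * sm p = dl S) (v : ℕ) (hv : v < k + 4) :
    ∑ j, 1 * av k c S v j ≤ dl S := by
  have hm := nth_mem S v (by rw [hS.1]; exact hv)
  have hl := (hS.2 _ hm).1
  rw [← hd _ hm]
  have h3 : sm (nth S v) = ∑ j ∈ Finset.range k, nthN (nth S v) j +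
      ∑ q ∈ Finset.range 4, nthN (nth S v) (k + q) := by
    rw [sm_eq, hl, Finset.sum_range_add]
  have h1 : ∀ j : Fin k, 1 * av k c S v j.castSucc =
      dl S / sm (nth S v) * nthN (nth S v) j.val := by
    intro j
    unfold av
    rw [if_pos (by simp), one_mul]
    rfl
  have h2 : 1 * av k c S v (Fin.last k) = dl S / sm (nth S v) *
      ∑ q ∈ Finset.range 4, nthN c.us q * nthN (nth S v) (k + q) := by
    unfold av
    rw [if_neg (by simp), one_mul]
  rw [Fin.sum_univ_castSucc, h2, Finset.sum_congr rfl (fun j _ => h1 j), ← Finset.mul_sum,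
    ← mul_add]
  refine Nat.mul_le_mul_left _ ?_
  rw [h3, Finset.sum_range (fun j => nthN (nth S v) j)]
  refine Nat.add_le_add_left (Finset.sum_le_sum fun q _ => ?_) _
  calc nthN c.us q * nthN (nth S v) (k + q) ≤ 1 * nthN (nth S v) (k + q) :=
        Nat.mul_le_mul_right _ (hc.us_le q)
    _ = nthN (nth S v) (k + q) := one_mul _

end IE1a

open IE1a in
theorem prfE1a : Sharp.Cx.claimC2 → claimC3 → Sharp.Cx.claimC4 → Sharp.Cx.claimC5 →
    Sharp.Cx.claimC6 → Sharp.Cx.claimC7 → claimC8 → claimE1a := by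
  intro _ hC3 hC4 hC5 hC6 hC7 hC8 k c bits S hc hS hd hok
  obtain ⟨C, hC1, hC2'⟩ := hC6 (k + 3) (k + 1) c.D 0 (av k c S) (fun _ => 0)
  have hC2 : ∀ α ∈ Finset.Nat.antidiagonalTuple (k + 1) c.D,
      (C α : ℝ) * (∏ j, ((α j).factorial : ℝ)) =
        ((k + 3 + c.D).factorial : ℝ) * ∫ y in Chamber.T (Fin (k + 3)),
          ∏ j, lf (k + 3) (fun v => (av k c S v j : ℝ)) y ^ α j := by
    intro α hα
    have h := hC2' α hα
    simp only [pow_zero, mul_one, Nat.factorial_zero, Nat.cast_one, Nat.add_zero] at h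
    exact h
  refine ⟨C, hC2, ?_⟩
  -- the row
  have hrow : ∀ b, rw4 c b S = ∑ α ∈ Finset.Nat.antidiagonalTuple (k + 1) c.D,
      C α * 2 ^ (b * sl c.ws c.wS k α) := by
    intro b
    unfold rw4
    rw [hC3 _ c.D, length_mpL, hS.1]
    rw [h2_congr _ (fun _ => 0) (fun v => ∑ j, Wp c b k j * av k c S v j)
      (fun _ => 0) (k + 4) c.D 0 (fun v hv => ?_) (fun v hv => rfl)]
    · have h := hC1 (Wp c b k)
      rw [show k + 3 + 1 = k + 4 from rfl] at h
      rw [h]
      exact Finset.sum_congr rfl fun α _ => by rw [prod_Wp]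
    · rw [nthN_mpL _ _ _ (by rw [hS.1]; exact hv)]
      exact pack hC8 k c b S hc hS v hv
  -- the density
  have hgt : ∀ b, gt c b = ∑ β ∈ Finset.Nat.antidiagonalTuple (k + 1) c.D,
      gw c.fx c.fz (sm c.us) k β * 2 ^ (b * (c.mx - sl c.ws c.wS k β)) := by
    intro b
    have hne : c.ws ≠ [] := by
      intro h0
      have h1 := hc.ws_len
      have h2 := hc.k_pos
      rw [h0] at h1
      simp at h1
      omega
    have h7 := hC7 c.fx c.fz c.wS c.mx b (sm c.us) c.ws c.D 0 1 hne hc.fx_len hc.fz_len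
    unfold gt
    rw [h7, hc.ws_len]
    exact Finset.sum_congr rfl fun β _ => by rw [one_mul, Nat.zero_add]
  -- the vanishing coefficients
  have hzero : ∀ α ∈ Finset.Nat.antidiagonalTuple (k + 1) c.D,
      ¬ (sm c.us = 0 → α (Fin.last k) = 0) → C α = 0 ∧ gw c.fx c.fz (sm c.us) k α = 0 := by
    intro α hα hn
    have hs : sm c.us = 0 := by
      by_contra hs
      exact hn fun h => absurd h hs
    have ha : α (Fin.last k) ≠ 0 := fun h => hn fun _ => h
    refine ⟨?_, ?_⟩
    · have h2 := hC2 α hα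
      have hav : ∀ v, av k c S v (Fin.last k) = 0 := by
        intro v
        unfold av
        rw [if_neg (by simp)]
        rw [Finset.sum_eq_zero fun q hq => by
          rw [us_zero c.us hc.us_len hs q (Finset.mem_range.1 hq), Nat.zero_mul], Nat.mul_zero]
      have hint : ∀ y : Fin (k + 3) → ℝ,
          (∏ j, lf (k + 3) (fun v => (av k c S v j : ℝ)) y ^ α j) = 0 := by
        intro y
        refine Finset.prod_eq_zero (Finset.mem_univ (Fin.last k)) ?_
        have : lf (k + 3) (fun v => (av k c S v (Fin.last k) : ℝ)) y = 0 := by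
          unfold lf
          simp [hav]
        rw [this, zero_pow ha]
      have h3 : (C α : ℝ) * (∏ j, ((α j).factorial : ℝ)) = 0 := by
        rw [h2]
        simp [hint]
      have h4 : (∏ j, ((α j).factorial : ℝ)) ≠ 0 := by
        refine Finset.prod_ne_zero_iff.2 fun j _ => ?_
        exact_mod_cast (Nat.factorial_pos _).ne'
      rcases mul_eq_zero.1 h3 with h5 | h5
      · exact_mod_cast h5
      · exact absurd h5 h4
    · unfold gw
      rw [if_pos ⟨hs, ha⟩]
  set s : Finset (Fin (k + 1) → ℕ) := (Finset.Nat.antidiagonalTuple (k + 1) c.D).filter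
    (fun α => sm c.us = 0 → α (Fin.last k) = 0) with hsdef
  have hsub : s ⊆ Finset.Nat.antidiagonalTuple (k + 1) c.D := Finset.filter_subset _ _
  have hout : ∀ α ∈ Finset.Nat.antidiagonalTuple (k + 1) c.D, α ∉ s →
      C α = 0 ∧ gw c.fx c.fz (sm c.us) k α = 0 := by
    intro α hα hn
    refine hzero α hα fun h => hn ?_
    rw [hsdef, Finset.mem_filter]
    exact ⟨hα, h⟩
  have hin : ∀ α ∈ s, α ∈ Finset.Nat.antidiagonalTuple (k + 1) c.D ∧
      (sm c.us = 0 → α (Fin.last k) = 0) := by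
    intro α hα
    rw [hsdef, Finset.mem_filter] at hα
    exact hα
  rw [hrow bits, hgt bits]
  rw [← Finset.sum_subset hsub (f := fun α => C α * 2 ^ (bits * sl c.ws c.wS k α))
    (fun α h1 h2 => by rw [(hout α h1 h2).1, Nat.zero_mul])]
  rw [← Finset.sum_subset hsub (f := fun β => gw c.fx c.fz (sm c.us) k β *
    2 ^ (bits * (c.mx - sl c.ws c.wS k β)))
    (fun α h1 h2 => by rw [(hout α h1 h2).2, Nat.zero_mul])]
  rw [← Finset.sum_subset hsub (f := fun α => C α * gw c.fx c.fz (sm c.us) k α)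
    (fun α h1 h2 => by rw [(hout α h1 h2).1, Nat.zero_mul])]
  refine hC5 _ s (sl c.ws c.wS k) C (gw c.fx c.fz (sm c.us) k) c.mx bits
    (fun α hα => hc.sl_le α (hin α hα).1 (hin α hα).2)
    (fun α hα β hβ h => hc.sl_inj α (hin α hα).1 β (hin β hβ).1 (hin α hα).2 (hin β hβ).2 h) ?_
  -- the size condition
  have hb1 : ∑ α ∈ s, C α ≤ bin c.D (k + 3) * dl S ^ c.D := by
    have h1 := hC1 (fun _ => 1)
    simp only [one_pow, Finset.prod_const_one, Nat.mul_one] at h1
    refine le_trans (Finset.sum_le_sum_of_subset hsub) ?_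
    rw [← h1]
    have h4 := hC4 (fun v => ∑ j, 1 * av k c S v j) (fun _ => 0) (dl S) 0 (k + 3) c.D 0
      (fun v hv => av_sum_le k c S hc hS hd v (by omega))
      (fun v hv => le_refl _)
    refine le_trans h4 (le_of_eq ?_)
    rw [bin_zero, pow_zero, Nat.mul_one, Nat.one_mul]
    rfl
  have hb2 : ∑ β ∈ s, gw c.fx c.fz (sm c.us) k β ≤ gt c 0 := by
    rw [hgt 0]
    simp only [Nat.zero_mul, pow_zero, Nat.mul_one]
    exact Finset.sum_le_sum_of_subset hsub
  refine lt_of_le_of_lt (Nat.mul_le_mul hb1 hb2) (lt_of_le_of_lt ?_ (okb_lt hok))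
  rw [hc.k_eq]
  exact le_of_eq (by ring)

end Pool.Agent.Work.MP_122e00_nt.Four.Cx

end

section

set_option autoImplicit false

/-!
# E1b: the density in barycentric coordinates (four parts)
-/

namespace Pool.Agent.Work.MP_122e00_nt.Four.Cx

open Finset MeasureTheory

open scoped ENNReal

open Gen Sharp Sharp.Cx

namespace IE1b

theorem nth_mem : ∀ (v : ℕ) (S : List (List ℕ)), v < S.length → nth S v ∈ S
  | 0, [], h => absurd h (by simp)
  | 0, a :: l, _ => by
      have : nth (a :: l) 0 = a := rfl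
      rw [this]; exact List.mem_cons_self
  | v + 1, [], h => absurd h (by simp)
  | v + 1, a :: l, h => by
      have h1 : nth (a :: l) (v + 1) = nth l v := rfl
      rw [h1]
      exact List.mem_cons_of_mem _ (nth_mem v l (by simpa using h))

theorem vr_bar (k : ℕ) (c : Cl) (V : Option (Fin (k + 3)) → Fin (k + 4) → ℝ)
    (y : Fin (k + 3) → ℝ) (j : Fin (k + 1)) :
    vr k c (Chamber.bar V y) j =
      ∑ v, y v * vr k c (V (some v)) j + (1 - ∑ v, y v) * vr k c (V none) j := by
  unfold vr Chamber.bar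
  split_ifs with hj
  · simp [Finset.sum_apply]
  · simp only [Pi.add_apply, Finset.sum_apply, Pi.smul_apply, smul_eq_mul]
    simp only [mul_add, Finset.sum_add_distrib, Finset.mul_sum]
    congr 1
    · rw [Finset.sum_comm]
      exact sum_congr rfl fun v _ => sum_congr rfl fun q _ => by ring
    · exact sum_congr rfl fun q _ => by ring

theorem vr_pt (k : ℕ) (c : Cl) (p : List ℕ) (q d : ℕ) (hq : q * sm p = d) (hd : 0 < d)
    (j : Fin (k + 1)) :
    vr k c (pt (k + 4) p) j =
      ((q * (if j.val < k then nthN p j.val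
        else ∑ r ∈ Finset.range 4, nthN c.us r * nthN p (k + r)) : ℕ) : ℝ) / (d : ℝ) := by
  have hsm : (sm p : ℝ) ≠ 0 := by
    intro h
    have h0 : sm p = 0 := by exact_mod_cast h
    rw [h0, mul_zero] at hq
    omega
  have hdr : (d : ℝ) ≠ 0 := by positivity
  have hqr : (q : ℝ) * (sm p : ℝ) = (d : ℝ) := by exact_mod_cast hq
  have key : ∀ x : ℝ, x / (sm p : ℝ) = (q : ℝ) * x / (d : ℝ) := by
    intro x
    rw [div_eq_div_iff hsm hdr, ← hqr]
    ring
  unfold vr pt
  split_ifs with hj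
  · rw [key]
    push_cast
    rfl
  · rw [Finset.sum_range (f := fun r => nthN c.us r * nthN p (k + r))]
    push_cast
    rw [Finset.mul_sum, Finset.sum_div]
    refine sum_congr rfl fun r _ => ?_
    rw [key]
    simp only [Fin.val_natAdd]
    ring

end IE1b

open IE1b in
theorem prfE1b : claimE1b := by
  intro k c S y hC hS hd hdiv
  have hvr : ∀ j, vr k c (Chamber.bar (pts (k + 3) S) y) j =
      lf (k + 3) (fun v => (av k c S v j : ℝ)) y / (dl S : ℝ) := by
    intro j
    have hv : ∀ v, v < k + 4 → vr k c (pt (k + 4) (nth S v)) j =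
        (av k c S v j : ℝ) / (dl S : ℝ) := by
      intro v hv
      have hm : nth S v ∈ S := nth_mem v S (by rw [hS.1]; exact hv)
      rw [vr_pt k c (nth S v) (dl S / sm (nth S v)) (dl S) (hdiv _ hm) hd j]
      rfl
    rw [vr_bar k c (pts (k + 3) S) y j]
    unfold lf
    rw [add_div, Finset.sum_div]
    congr 1
    · refine sum_congr rfl fun v _ => ?_
      have h1 : vr k c (pts (k + 3) S (some v)) j = (av k c S v.val j : ℝ) / (dl S : ℝ) :=
        hv v.val (by have := v.isLt; omega)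
      rw [h1]; ring
    · have h1 : vr k c (pts (k + 3) S none) j = (av k c S (k + 3) j : ℝ) / (dl S : ℝ) :=
        hv (k + 3) (by omega)
      rw [h1]; ring
  unfold dpoly
  congr 1
  refine sum_congr rfl fun α _ => ?_
  congr 1
  exact prod_congr rfl fun j _ => by rw [hvr j]

end Pool.Agent.Work.MP_122e00_nt.Four.Cx

end

section

set_option autoImplicit false

/-!
# The certificate for four parts: item G1
-/

namespace Pool.Agent.Work.MP_122e00_nt.Four.Cx

open Finset MeasureTheory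

open Gen Sharp Sharp.Cx

namespace IG1

open Classical in
/-- The weight of one part. -/
noncomputable def fw (t : ℝ) : ℝ := if 1 / 2 ≤ t then 1 else 0

open Classical in
theorem g4_eq (v : Fin 4 → ℝ) (h0 : ∀ i, 0 ≤ v i) (h1 : ∑ i, v i = 1) :
    g4 0 v = ∑ i, 2 * fw (v i) := by
  unfold g4 gs
  refine Finset.sum_congr rfl fun i _ => ?_
  have hs : ∑ j, v (i.succAbove j) = 1 - v i := by
    rw [← h1, Fin.sum_univ_succAbove v i]
    ring
  unfold psw fw
  by_cases h : 1 / 2 ≤ v i
  · rw [Set.indicator_of_mem, if_pos h]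
    · rw [hs]
      ring
    · refine ⟨fun j => h0 _, ?_⟩
      have : ∑ j, v (i.succAbove j) ≤ 1 / 2 - 0 := by rw [hs]; linarith
      exact this
  · rw [Set.indicator_of_notMem, if_neg h, mul_zero]
    rintro ⟨_, h2⟩
    have h3 : ∑ j, v (i.succAbove j) ≤ 1 / 2 - 0 := h2
    rw [hs] at h3
    exact h (by linarith)

theorem sum_two (n : ℕ) (h : ℕ → ℝ) : ∑ F ∈ Finset.range (2 * n), h F =
    ∑ F ∈ Finset.range n, (h (2 * F) + h (2 * F + 1)) := by
  induction n with
  | zero => simp
  | succ n ih =>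
    rw [show 2 * (n + 1) = 2 * n + 1 + 1 by ring, Finset.sum_range_succ, Finset.sum_range_succ, ih,
      Finset.sum_range_succ]
    ring

theorem wtf_even (k F : ℕ) : wtf (k + 1) (2 * F) = 3 * wtf k F := by
  have e : wtf (k + 1) (2 * F) = cond (Nat.beq (2 * F % 2) 0) (3 * wtf k (2 * F / 2))
    (wtf k (2 * F / 2)) := rfl
  rw [e, show 2 * F % 2 = 0 by omega, show 2 * F / 2 = F by omega]
  rfl

theorem wtf_odd (k F : ℕ) : wtf (k + 1) (2 * F + 1) = wtf k F := by
  have e : wtf (k + 1) (2 * F + 1) = cond (Nat.beq ((2 * F + 1) % 2) 0)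
    (3 * wtf k ((2 * F + 1) / 2)) (wtf k ((2 * F + 1) / 2)) := rfl
  rw [e, show (2 * F + 1) % 2 = 1 by omega, show (2 * F + 1) / 2 = F by omega]
  rfl

theorem uv_even (k q F : ℕ) : uv (k + 1) q (2 * F) = 0 :: uv k q F := by
  have e : uv (k + 1) q (2 * F) = (2 * F % 2) :: uv k q (2 * F / 2) := rfl
  rw [e, show 2 * F % 2 = 0 by omega, show 2 * F / 2 = F by omega]

theorem uv_odd (k q F : ℕ) : uv (k + 1) q (2 * F + 1) = 1 :: uv k q F := by
  have e : uv (k + 1) q (2 * F + 1) = ((2 * F + 1) % 2) :: uv k q ((2 * F + 1) / 2) := rfl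
  rw [e, show (2 * F + 1) % 2 = 1 by omega, show (2 * F + 1) / 2 = F by omega]

/-- The sum over the placements of the marks. -/
theorem plc_sum (f : ℝ → ℝ) (i : Fin 4) (q : ℕ) : ∀ (k : ℕ) (x : Fin k → ℝ) (t : ℝ),
    ∑ c : Fin k → Fin 4, f (t + ∑ j, if c j = i then x j else 0) =
      ∑ F ∈ Finset.range (2 ^ k), (wtf k F : ℝ) *
        f (t + ∑ j : Fin k, (nthN (uv k q F) j.val : ℝ) * x j) := by
  intro k
  induction k with
  | zero =>
    intro x t
    simp [wtf]
  | succ k ih =>
    intro x t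
    rw [← (Fin.consEquiv fun _ : Fin (k + 1) => Fin 4).sum_comp, Fintype.sum_prod_type]
    have e1 : ∀ (a : Fin 4), ∑ c : Fin k → Fin 4,
        f (t + ∑ j, if (Fin.consEquiv fun _ : Fin (k + 1) => Fin 4) (a, c) j = i then x j else 0) =
        ∑ F ∈ Finset.range (2 ^ k), (wtf k F : ℝ) *
          f (t + (if a = i then x 0 else 0) +
            ∑ j : Fin k, (nthN (uv k q F) j.val : ℝ) * x j.succ) := by
      intro a
      rw [← ih (fun j => x j.succ) (t + if a = i then x 0 else 0)]
      refine Finset.sum_congr rfl fun c _ => ?_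
      congr 1
      rw [Fin.sum_univ_succ, add_assoc]
      rfl
    have e2 : (fun a : Fin 4 => ∑ c : Fin k → Fin 4,
        f (t + ∑ j, if (Fin.consEquiv fun _ : Fin (k + 1) => Fin 4) (a, c) j = i then x j else 0)) =
        fun a => if a = i then
          ∑ F ∈ Finset.range (2 ^ k), (wtf k F : ℝ) *
          f (t + x 0 + ∑ j : Fin k, (nthN (uv k q F) j.val : ℝ) * x j.succ) else
          ∑ F ∈ Finset.range (2 ^ k), (wtf k F : ℝ) *
          f (t + 0 + ∑ j : Fin k, (nthN (uv k q F) j.val : ℝ) * x j.succ) := by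
      funext a
      rw [e1]
      by_cases h : a = i
      · simp only [h, if_true]
      · simp only [h, if_false]
    rw [e2]
    have e3 : ∀ A B : ℝ, (∑ a : Fin 4, if a = i then A else B) = A + 3 * B := by
      intro A B
      fin_cases i <;> simp [Fin.sum_univ_four] <;> ring
    rw [e3, pow_succ, mul_comm (2 ^ k) 2, sum_two, Finset.mul_sum, ← Finset.sum_add_distrib]
    refine Finset.sum_congr rfl fun F _ => ?_
    rw [uv_even, uv_odd, wtf_even, wtf_odd, Fin.sum_univ_succ, Fin.sum_univ_succ]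
    have e4 : ∀ (a : ℕ) (j : Fin k), nthN (a :: uv k q F) (j.succ.val) = nthN (uv k q F) j.val :=
      fun a j => rfl
    have e5 : ∀ a : ℕ, nthN (a :: uv k q F) (0 : Fin (k + 1)).val = a := fun a => rfl
    simp only [e4, e5]
    push_cast
    rw [zero_mul, one_mul, zero_add, add_zero, ← add_assoc]
    ring

theorem uv_part (q : ℕ) : ∀ (k F r : ℕ), r < 4 →
    nthN (uv k q F) (k + r) = if q = r then 1 else 0 := by
  intro k
  induction k with
  | zero =>
    intro F r hr
    rw [zero_add]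
    have e : uv 0 q F = [cond (Nat.beq q 0) 1 0, cond (Nat.beq q 1) 1 0, cond (Nat.beq q 2) 1 0,
      cond (Nat.beq q 3) 1 0] := rfl
    have hb : ∀ s : ℕ, cond (Nat.beq q s) 1 0 = if q = s then 1 else 0 := by
      intro s
      cases h : Nat.beq q s with
      | true => rw [if_pos (Nat.eq_of_beq_eq_true h)]; rfl
      | false => rw [if_neg (Nat.ne_of_beq_eq_false h)]; rfl
    rw [e, hb, hb, hb, hb]
    interval_cases r <;> rfl
  | succ k ih =>
    intro F r hr
    have e : uv (k + 1) q F = (F % 2) :: uv k q (F / 2) := rfl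
    rw [e, show k + 1 + r = (k + r) + 1 by ring]
    exact ih (F / 2) r hr

theorem lu_eq (k : ℕ) (q : Fin 4) (F : ℕ) (p : Fin (k + 4) → ℝ) :
    lu k q.val F p = ph p q + ∑ j : Fin k, (nthN (uv k q.val F) j.val : ℝ) * px p j := by
  unfold lu
  rw [Fin.sum_univ_add, add_comm]
  congr 1
  have e : ∀ i : Fin 4, (nthN (uv k q.val F) (Fin.natAdd k i).val : ℝ) * p (Fin.natAdd k i) =
      if q = i then ph p i else 0 := by
    intro i
    rw [Fin.val_natAdd, uv_part q.val k F i.val i.2]
    by_cases h : q = i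
    · rw [if_pos (by rw [h]), if_pos h]
      simp [ph]
    · rw [if_neg (fun h2 => h (Fin.ext h2)), if_neg h]
      simp
  rw [Finset.sum_congr rfl fun i _ => e i]
  simp

end IG1

open IG1 in
theorem prfG1 : claimG1 := by
  classical
  intro k p h0 h1
  unfold Pl
  have hx : ∑ j : Fin k, px p j + ∑ q : Fin 4, ph p q = 1 := by
    rw [← h1, Fin.sum_univ_add]
    rfl
  have e1 : ∀ c : Fin k → Fin 4,
      g4 0 (fun q => ph p q + ∑ j, if c j = q then px p j else 0) =
      ∑ i, 2 * fw (ph p i + ∑ j, if c j = i then px p j else 0) := by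
    intro c
    refine g4_eq _ ?_ ?_
    · intro i
      refine add_nonneg (h0 _) (Finset.sum_nonneg fun j _ => ?_)
      split_ifs
      · exact h0 _
      · exact le_refl 0
    · rw [Finset.sum_add_distrib, Finset.sum_comm]
      simp only [Finset.sum_ite_eq, Finset.mem_univ, if_true]
      rw [add_comm]
      exact hx
  rw [Finset.sum_congr rfl fun c _ => e1 c, Finset.sum_comm]
  simp only [← Finset.mul_sum]
  congr 1
  rw [Finset.sum_range]
  refine Finset.sum_congr rfl fun i _ => ?_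
  rw [plc_sum fw i i.val k (px p) (ph p i)]
  refine Finset.sum_congr rfl fun F _ => ?_
  rw [← lu_eq]
  unfold fw
  by_cases h : 1 / 2 ≤ lu k i.val F p
  · rw [if_pos h, if_pos h, mul_one]
  · rw [if_neg h, if_neg h, mul_zero]

end Pool.Agent.Work.MP_122e00_nt.Four.Cx

end

section

set_option autoImplicit false

/-!
# The certificate for four parts: items G2 and G3
-/

namespace Pool.Agent.Work.MP_122e00_nt.Four.Cx

open Finset MeasureTheory

open Sharp.Cx Sharp.Cx.GB

namespace IG3

/-- The vertices are vertices of `S`. -/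
theorem pts_vertex {k : ℕ} {S : List (List ℕ)} (hS : Sv k S) (o : Option (Fin (k + 3))) :
    ∃ p ∈ S, pts (k + 3) S o = pt (k + 4) p := by
  rcases o with _ | i
  · exact ⟨nth S (k + 3), nth_mem S _ (by rw [hS.1]; omega), rfl⟩
  · exact ⟨nth S i.val, nth_mem S _ (by rw [hS.1]; have := i.2; omega), rfl⟩

theorem vertex_pts {k : ℕ} {S : List (List ℕ)} (hS : Sv k S) (p : List ℕ) (hp : p ∈ S) :
    ∃ o, pts (k + 3) S o = pt (k + 4) p := by
  obtain ⟨i, hi, rfl⟩ : ∃ i, i < S.length ∧ nth S i = p := by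
    clear hS
    induction S with
    | nil => exact absurd hp List.not_mem_nil
    | cons a S ih =>
      rcases List.mem_cons.1 hp with rfl | hp
      · exact ⟨0, by simp, rfl⟩
      · obtain ⟨i, hi, h⟩ := ih hp
        exact ⟨i + 1, by simpa using hi, h⟩
  rw [hS.1] at hi
  rcases Nat.lt_or_ge i (k + 3) with h | h
  · exact ⟨some ⟨i, h⟩, rfl⟩
  · have : i = k + 3 := by omega
    subst this
    exact ⟨none, rfl⟩

/-- The linear form at a vertex. -/
theorem lu_pt (k q F : ℕ) (p : List ℕ) (hp : p.length = k + 4) :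
    lu k q F (pt (k + 4) p) = (dot p (uv k q F) : ℝ) / (sm p : ℝ) := by
  unfold lu pt
  rw [dot_eq (k + 4) p _ hp, Nat.cast_sum, Finset.sum_div]
  refine Finset.sum_congr rfl fun i _ => ?_
  rw [Nat.cast_mul]
  ring

theorem lu_lin (k q F : ℕ) (p : Fin (k + 4) → ℝ) :
    lu k q F p = lin (fun i => (nthN (uv k q F) i.val : ℝ)) p := rfl

theorem geb_iff (k q F : ℕ) (p : List ℕ) (hp : p.length = k + 4) (h0 : 0 < sm p) :
    geb (uv k q F) p = true ↔ 1 / 2 ≤ lu k q F (pt (k + 4) p) := by
  have e : geb (uv k q F) p = Nat.ble (sm p) (2 * dot p (uv k q F)) := rfl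
  have h : (0 : ℝ) < (sm p : ℝ) := by exact_mod_cast h0
  rw [e, Nat.ble_eq, lu_pt k q F p hp, div_le_div_iff₀ (by norm_num) h, one_mul]
  constructor
  · intro h
    have : ((sm p : ℕ) : ℝ) ≤ ((2 * dot p (uv k q F) : ℕ) : ℝ) := by exact_mod_cast h
    push_cast at this
    linarith
  · intro h
    have : ((sm p : ℕ) : ℝ) ≤ ((2 * dot p (uv k q F) : ℕ) : ℝ) := by push_cast; linarith
    exact_mod_cast this

theorem leb_iff (k q F : ℕ) (p : List ℕ) (hp : p.length = k + 4) (h0 : 0 < sm p) :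
    leb (uv k q F) p = true ↔ lu k q F (pt (k + 4) p) ≤ 1 / 2 := by
  have e : leb (uv k q F) p = Nat.ble (2 * dot p (uv k q F)) (sm p) := rfl
  have h : (0 : ℝ) < (sm p : ℝ) := by exact_mod_cast h0
  rw [e, Nat.ble_eq, lu_pt k q F p hp, div_le_div_iff₀ h (by norm_num), one_mul]
  constructor
  · intro h
    have : ((2 * dot p (uv k q F) : ℕ) : ℝ) ≤ ((sm p : ℕ) : ℝ) := by exact_mod_cast h
    push_cast at this
    linarith
  · intro h
    have : ((2 * dot p (uv k q F) : ℕ) : ℝ) ≤ ((sm p : ℕ) : ℝ) := by push_cast; linarith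
    exact_mod_cast this

/-- On the simplex the form is at least one half if it is so at the vertices. -/
theorem lu_ge {k q F : ℕ} {S : List (List ℕ)} (hS : Sv k S) (h : allL (geb (uv k q F)) S = true)
    (y : Fin (k + 3) → ℝ) (h0 : ∀ i, 0 < y i) (h1 : ∑ i, y i < 1) :
    1 / 2 ≤ lu k q F (Chamber.bar (pts (k + 3) S) y) := by
  rw [lu_lin, lin_bar]
  rw [allL_iff] at h
  calc (1 : ℝ) / 2 = ∑ o, GB.wt y o * (1 / 2) := by rw [← Finset.sum_mul, wt_sum, one_mul]
    _ ≤ _ := by
      refine Finset.sum_le_sum fun o _ => mul_le_mul_of_nonneg_left ?_ (wt_pos y h0 h1 o).le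
      obtain ⟨p, hp, e⟩ := pts_vertex hS o
      rw [e, ← lu_lin]
      exact (geb_iff k q F p (hS.2 p hp).1 (hS.2 p hp).2).1 (h p hp)

theorem lu_lt {k q F : ℕ} {S : List (List ℕ)} (hS : Sv k S) (h : allL (leb (uv k q F)) S = true)
    (h' : allL (geb (uv k q F)) S = false)
    (y : Fin (k + 3) → ℝ) (h0 : ∀ i, 0 < y i) (h1 : ∑ i, y i < 1) :
    lu k q F (Chamber.bar (pts (k + 3) S) y) < 1 / 2 := by
  rw [lu_lin, lin_bar]
  rw [allL_iff] at h
  have h2 : ∃ p ∈ S, geb (uv k q F) p ≠ true := by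
    by_contra hc
    push Not at hc
    rw [(allL_iff _ S).2 hc] at h'
    exact absurd h' (by simp)
  obtain ⟨p, hp, hlt⟩ := h2
  obtain ⟨o, ho⟩ := vertex_pts hS p hp
  have hle : ∀ o, lin (fun i => (nthN (uv k q F) i.val : ℝ)) (pts (k + 3) S o) ≤ 1 / 2 := by
    intro o
    obtain ⟨p, hp, e⟩ := pts_vertex hS o
    rw [e, ← lu_lin]
    exact (leb_iff k q F p (hS.2 p hp).1 (hS.2 p hp).2).1 (h p hp)
  calc _ < ∑ o, GB.wt y o * (1 / 2) := by
        refine Finset.sum_lt_sum
          (fun o _ => mul_le_mul_of_nonneg_left (hle o) (wt_pos y h0 h1 o).le)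
          ⟨o, Finset.mem_univ o, mul_lt_mul_of_pos_left ?_ (wt_pos y h0 h1 o)⟩
        rw [ho, ← lu_lin]
        by_contra hc
        exact hlt ((geb_iff k q F p (hS.2 p hp).1 (hS.2 p hp).2).2 (not_lt.1 hc))
    _ = 1 / 2 := by rw [← Finset.sum_mul, wt_sum, one_mul]

/-- Setting one bit. -/
theorem bit_set (m e e' : ℕ) (h : m / 2 ^ e % 2 = 0) :
    (m + 2 ^ e) / 2 ^ e' % 2 = if e' = e then 1 else m / 2 ^ e' % 2 := by
  rcases lt_trichotomy e' e with he | he | he
  · rw [if_neg he.ne]
    obtain ⟨t, rfl⟩ := Nat.exists_eq_add_of_lt he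
    have e1 : (2 : ℕ) ^ (e' + t + 1) = 2 * 2 ^ t * 2 ^ e' := by ring
    rw [e1, Nat.add_mul_div_right _ _ (by positivity)]
    omega
  · subst he
    rw [if_pos rfl, Nat.add_div_right _ (by positivity)]
    omega
  · rw [if_neg he.ne']
    obtain ⟨t, rfl⟩ := Nat.exists_eq_add_of_lt he
    have e1 : (2 : ℕ) ^ (e + t + 1) = 2 ^ e * 2 * 2 ^ t := by ring
    rw [e1, ← Nat.div_div_eq_div_mul, ← Nat.div_div_eq_div_mul, ← Nat.div_div_eq_div_mul (m := m),
      ← Nat.div_div_eq_div_mul m, Nat.add_div_right _ (by positivity)]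
    have : (m / 2 ^ e).succ / 2 = m / 2 ^ e / 2 := by omega
    rw [this]

theorem idx_inj {k q q' F F' : ℕ} (hF : F < 2 ^ k) (hF' : F' < 2 ^ k)
    (h : q' * 2 ^ k + F' = q * 2 ^ k + F) : q' = q ∧ F' = F := by
  have h1 : (q' * 2 ^ k + F') / 2 ^ k = q' := by
    rw [add_comm, Nat.add_mul_div_right _ _ (by positivity), Nat.div_eq_of_lt hF', zero_add]
  have h2 : (q * 2 ^ k + F) / 2 ^ k = q := by
    rw [add_comm, Nat.add_mul_div_right _ _ (by positivity), Nat.div_eq_of_lt hF, zero_add]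
  have h3 : q' = q := by rw [← h1, ← h2, h]
  subst h3
  exact ⟨rfl, by omega⟩

open Classical in
/-- The sum after one decision. -/
theorem sum_set {k m q F : ℕ} (hq : q < 4) (hF : F < 2 ^ k)
    (hm : m / 2 ^ (q * 2 ^ k + F) % 2 = 0) (P : ℕ → ℕ → Prop) (f : ℕ → ℕ → ℕ) :
    (∑ q' ∈ Finset.range 4, ∑ F' ∈ Finset.range (2 ^ k),
      if (m + 2 ^ (q * 2 ^ k + F)) / 2 ^ (q' * 2 ^ k + F') % 2 = 1 ∧ P q' F' then f q' F' else 0) =
    (∑ q' ∈ Finset.range 4, ∑ F' ∈ Finset.range (2 ^ k),
      if m / 2 ^ (q' * 2 ^ k + F') % 2 = 1 ∧ P q' F' then f q' F' else 0) +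
      if P q F then f q F else 0 := by
  have key : ∀ q' ∈ Finset.range 4, ∀ F' ∈ Finset.range (2 ^ k),
      (if (m + 2 ^ (q * 2 ^ k + F)) / 2 ^ (q' * 2 ^ k + F') % 2 = 1 ∧ P q' F' then f q' F' else 0) =
      (if m / 2 ^ (q' * 2 ^ k + F') % 2 = 1 ∧ P q' F' then f q' F' else 0) +
        if q' = q then (if F' = F then (if P q F then f q F else 0) else 0) else 0 := by
    intro q' _ F' hF'
    rw [Finset.mem_range] at hF'
    by_cases h : q' * 2 ^ k + F' = q * 2 ^ k + F
    · obtain ⟨rfl, rfl⟩ := idx_inj hF hF' h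
      rw [bit_set _ _ _ hm, if_pos rfl, hm]
      simp
    · have h2 : ¬ (q' = q ∧ F' = F) := by
        rintro ⟨rfl, rfl⟩
        exact h rfl
      rw [bit_set _ _ _ hm, if_neg h]
      by_cases h3 : q' = q
      · rw [if_pos h3, if_neg (fun h4 => h2 ⟨h3, h4⟩), add_zero]
      · rw [if_neg h3, add_zero]
  rw [Finset.sum_congr rfl fun q' hq' => Finset.sum_congr rfl fun F' hF' => key q' hq' F' hF']
  simp only [Finset.sum_add_distrib]
  congr 1
  rw [Finset.sum_eq_single q]
  · rw [Finset.sum_eq_single F]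
    · simp
    · intro F' _ hne
      simp [hne]
    · intro h
      exact absurd (Finset.mem_range.2 hF) h
  · intro q' _ hne
    simp [hne]
  · intro h
    exact absurd (Finset.mem_range.2 hq) h

end IG3

theorem prfG2 : claimG2 := by
  intro k S y _ _
  refine Finset.sum_eq_zero fun q _ => Finset.sum_eq_zero fun F _ => ?_
  rw [Nat.zero_div, Nat.zero_mod]
  exact if_neg fun h => absurd h.1 (by decide)

open IG3 in
theorem prfG3 : claimG3 := by
  classical
  intro k S m G q F hS hI hq hF hm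
  constructor
  · intro hall y h0 h1
    have hs := sum_set (k := k) hq hF hm
      (fun q' F' => 1 / 2 ≤ lu k q' F' (Chamber.bar (pts (k + 3) S) y))
      (fun q' F' => wtf k F')
    rw [hs, hI y h0 h1, if_pos (lu_ge hS hall y h0 h1)]
  · intro hall hall' y h0 h1
    have hs := sum_set (k := k) hq hF hm
      (fun q' F' => 1 / 2 ≤ lu k q' F' (Chamber.bar (pts (k + 3) S) y))
      (fun q' F' => wtf k F')
    rw [hs, hI y h0 h1, if_neg (not_le.2 (lu_lt hS hall hall' y h0 h1)), add_zero]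

end Pool.Agent.Work.MP_122e00_nt.Four.Cx

end

section

set_option autoImplicit false

/-!
# The certificate for four parts: item G5 (soundness of the tree)
-/

namespace Pool.Agent.Work.MP_122e00_nt.Four.Cx

open Finset MeasureTheory

open scoped ENNReal

open Gen Sharp Sharp.Cx

namespace IG5

open Sharp.Cx.GB

theorem all_bits (n e : ℕ) (h : e < n) : (2 ^ n - 1) / 2 ^ e % 2 = 1 := by
  have h1 := Nat.testBit_two_pow_sub_one n e
  rw [Nat.testBit_eq_decide_div_mod_eq] at h1
  simpa [h] using h1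

theorem pg_nonneg (k : ℕ) (G : ℝ) : 0 ≤ pg 128 (4 ^ k) G := by
  unfold pg
  split_ifs with h
  · positivity
  · have h2 : (0 : ℝ) ≤ 4 ^ k := by positivity
    have h3 : (0 : ℝ) ≤ 2 * (128 - 1) := by norm_num
    exact mul_nonneg h3 h2

/-- The vertices are vertices of `S`. -/
theorem pts_vertex {k : ℕ} {S : List (List ℕ)} (hS : Sv k S) (o : Option (Fin (k + 3))) :
    ∃ p ∈ S, pts (k + 3) S o = pt (k + 4) p := by
  rcases o with _ | i
  · exact ⟨nth S (k + 3), nth_mem S _ (by rw [hS.1]; omega), rfl⟩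
  · exact ⟨nth S i.val, nth_mem S _ (by rw [hS.1]; have := i.2; omega), rfl⟩

/-- The sum of the coordinates of a vertex is one. -/
theorem sum_pt {k : ℕ} {p : List ℕ} (hp : p.length = k + 4) (h0 : 0 < sm p) :
    ∑ i, pt (k + 4) p i = 1 := by
  unfold pt
  rw [← Finset.sum_div, sm_eq (k + 4) p hp]
  rw [sm_eq (k + 4) p hp] at h0
  have h : (0 : ℝ) < ((∑ i : Fin (k + 4), nthN p i.val : ℕ) : ℝ) := by exact_mod_cast h0
  rw [← Nat.cast_sum]
  exact div_self h.ne'

theorem sum_bar {k : ℕ} {S : List (List ℕ)} (hS : Sv k S) (y : Fin (k + 3) → ℝ) :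
    ∑ i, Chamber.bar (pts (k + 3) S) y i = 1 := by
  have h := lin_bar (fun _ : Fin (k + 4) => (1 : ℝ)) (pts (k + 3) S) y
  unfold lin at h
  simp only [one_mul] at h
  rw [h]
  have : ∀ o, ∑ i, pts (k + 3) S o i = 1 := by
    intro o
    obtain ⟨p, hp, e⟩ := pts_vertex hS o
    rw [e]
    exact sum_pt (hS.2 p hp).1 (hS.2 p hp).2
  simp only [this, mul_one]
  exact wt_sum y

theorem bar_nonneg {k : ℕ} {S : List (List ℕ)} (hS : Sv k S) (y : Fin (k + 3) → ℝ)
    (h0 : ∀ i, 0 < y i) (h1 : ∑ i, y i < 1) (q : Fin (k + 4)) :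
    0 ≤ Chamber.bar (pts (k + 3) S) y q := by
  rw [bar_wt]
  refine Finset.sum_nonneg fun o _ => mul_nonneg (wt_pos y h0 h1 o).le ?_
  obtain ⟨p, hp, e⟩ := pts_vertex hS o
  rw [e]
  exact div_nonneg (Nat.cast_nonneg _) (Nat.cast_nonneg _)

theorem psw_meas (a b : ℝ) (s : ℕ) (θ : ℝ) : Measurable (psw a b s θ) := by
  unfold psw
  have hsum : Measurable (fun y : Fin s → ℝ => ∑ i, y i) :=
    Finset.measurable_sum _ fun i _ => measurable_pi_apply i
  have h1 : MeasurableSet {y : Fin s → ℝ | ∀ i, 0 ≤ y i} := by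
    rw [show {y : Fin s → ℝ | ∀ i, 0 ≤ y i} = ⋂ i, {y | 0 ≤ y i} by ext; simp]
    exact MeasurableSet.iInter fun i => measurableSet_le measurable_const (measurable_pi_apply i)
  have h2 : MeasurableSet {y : Fin s → ℝ | ∑ i, y i ≤ 1 / 2 - θ} :=
    measurableSet_le hsum measurable_const
  exact ((hsum.const_mul b).const_add a).indicator (h1.inter h2)

theorem gs_meas {s : ℕ} {ψ : (Fin s → ℝ) → ℝ} (h : Measurable ψ) : Measurable (gs ψ) := by
  unfold gs
  refine Finset.measurable_sum _ fun i _ => h.comp ?_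
  exact measurable_pi_lambda _ fun j => measurable_pi_apply _

theorem g4_meas (θ : ℝ) : Measurable (g4 θ) := gs_meas (psw_meas _ _ _ _)

theorem comp_meas (k : ℕ) (f : (Fin k → ℝ) → (Fin 4 → ℝ) → ℝ)
    (h : Measurable (fun p : (Fin k → ℝ) × (Fin 4 → ℝ) => f p.1 p.2)) :
    Measurable (fun p : Fin (k + 4) → ℝ => f (px (k := k) p) (ph (k := k) p)) := by
  have h1 : Measurable (fun p : Fin (k + 4) → ℝ => ((px (k := k) p, ph (k := k) p) :
      (Fin k → ℝ) × (Fin 4 → ℝ))) := by
    refine Measurable.prodMk ?_ ?_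
    · exact measurable_pi_lambda _ fun i => measurable_pi_apply _
    · exact measurable_pi_lambda _ fun i => measurable_pi_apply _
  exact h.comp h1

theorem meas (h6 : Sharp.claimI6) (k : ℕ) (Dn : (Fin (k + 4) → ℝ) → ℝ) (h : Measurable Dn) :
    Measurable (fun p : Fin (k + 4) → ℝ => ENNReal.ofReal (Dn p *
      pg 128 (4 ^ k) (Pl (g4 0) (px (k := k) p) (ph (k := k) p)))) := by
  obtain ⟨_, hPl, hpg, _⟩ := h6 3 k 0 128 (g4 0) (g4_meas 0)
  have h2 : Measurable (fun p : Fin (k + 4) → ℝ =>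
      Pl (g4 0) (px (k := k) p) (ph (k := k) p)) := comp_meas k (fun a b => Pl (g4 0) a b) hPl
  have h3 : Measurable (fun p : Fin (k + 4) → ℝ =>
      pg 128 (4 ^ k) (Pl (g4 0) (px (k := k) p) (ph (k := k) p))) := (hpg (4 ^ k)).comp h2
  exact ENNReal.measurable_ofReal.comp (h.mul h3)

theorem cdiv_ge (A B : ℕ) (hB : 0 < B) : (A : ℝ) / B ≤ (cdiv A B : ℕ) := by
  have e : cdiv A B = (A + (B - 1)) / B := rfl
  rw [e, div_le_iff₀ (by exact_mod_cast hB)]
  have h := Nat.div_add_mod (A + (B - 1)) B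
  have h2 := Nat.mod_lt (A + (B - 1)) hB
  have h3 : A ≤ (A + (B - 1)) / B * B := by
    have : B * ((A + (B - 1)) / B) = (A + (B - 1)) / B * B := Nat.mul_comm _ _
    omega
  exact_mod_cast h3

end IG5

open IG5 Sharp.Cx.GB in
theorem prfG5 : Sharp.claimI6 → claimE3 → claimG1 → claimG3 → claimG4 → claimG5 := by
  classical
  intro hI6 hE3 hG1 hG3 hG4 k Dn cls hD c
  induction c with
  | lf b bits =>
    intro S m G r hS hI h
    have e : run cls k (Ct.lf b bits) S m G =
      cond (Nat.beq m (2 ^ (4 * 2 ^ k) - 1)) (leafv (cls b) bits S G) none := rfl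
    rw [e] at h
    cases hb : Nat.beq m (2 ^ (4 * 2 ^ k) - 1) with
    | false => rw [hb] at h; exact absurd h (by simp)
    | true =>
      rw [hb, cond_true] at h
      have hm : m = 2 ^ (4 * 2 ^ k) - 1 := Nat.eq_of_beq_eq_true hb
      have h3 := hE3 k (cls b) bits S G r (hD.2 b).1 hS h
      unfold Bd
      refine le_trans ?_ h3
      unfold Chamber.EV
      refine lintegral_mono_ae ?_
      filter_upwards [ae_int (k + 3) (by omega)] with y hy
      obtain ⟨h0, h1⟩ := hy
      set p := Chamber.bar (pts (k + 3) S) y with hp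
      have hp0 : ∀ i, 0 ≤ p i := bar_nonneg hS y h0 h1
      have hp1 : ∑ i, p i = 1 := sum_bar hS y
      have hG := hG1 k p hp0 hp1
      have hInv := hI y h0 h1
      have hPl : Pl (g4 0) (px (k := k) p) (ph (k := k) p) = 2 * (G : ℝ) := by
        rw [hG, ← hInv]
        push_cast
        congr 1
        refine Finset.sum_congr rfl fun q hq => Finset.sum_congr rfl fun F hF => ?_
        rw [Finset.mem_range] at hq hF
        have hbit : m / 2 ^ (q * 2 ^ k + F) % 2 = 1 := by
          rw [hm]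
          refine all_bits _ _ ?_
          calc q * 2 ^ k + F < q * 2 ^ k + 2 ^ k := by omega
            _ = (q + 1) * 2 ^ k := by ring
            _ ≤ 4 * 2 ^ k := Nat.mul_le_mul_right _ (by omega)
        by_cases hle : 1 / 2 ≤ lu k q F p
        · rw [if_pos hle, if_pos ⟨hbit, hle⟩]
        · rw [if_neg hle, if_neg (fun h => hle h.2)]
      rw [hPl]
      exact ENNReal.ofReal_le_ofReal (mul_le_mul_of_nonneg_right ((hD.2 b).2 p hp0 hp1).2
        (pg_nonneg _ _))
  | ct i j A B g l r' ihl ihr =>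
    intro S m G r hS hI h
    set P := nth S i with hP
    set Q := nth S j with hQ
    set w := cmb A B g P Q with hw
    have e : run cls k (Ct.ct i j A B g l r') S m G =
      cond (cond (Nat.blt i j) (cond (Nat.blt j (k + 4))
        (cond (Nat.beq (A * sm P) 0) false (cond (Nat.beq (B * sm Q) 0) false
          (chk A B g P Q w))) false) false)
        (avg (A * sm P) (B * sm Q) (run cls k l (setn w i S) m G)
          (run cls k r' (setn w j S) m G)) none := rfl
    rw [e] at h
    cases h1 : Nat.blt i j with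
    | false => rw [h1] at h; exact absurd h (by simp)
    | true =>
      cases h2 : Nat.blt j (k + 4) with
      | false => rw [h1, h2] at h; exact absurd h (by simp)
      | true =>
        cases h3 : Nat.beq (A * sm P) 0 with
        | true => rw [h1, h2, h3] at h; exact absurd h (by simp)
        | false =>
          cases h4 : Nat.beq (B * sm Q) 0 with
          | true => rw [h1, h2, h3, h4] at h; exact absurd h (by simp)
          | false =>
            cases h5 : chk A B g P Q w with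
            | false => rw [h1, h2, h3, h4, h5] at h; exact absurd h (by simp)
            | true =>
              rw [h1, h2, h3, h4, h5] at h
              simp only [cond_true, cond_false] at h
              have hij : i < j := by simpa using h1
              have hj : j < k + 4 := by simpa using h2
              have hA : A * sm P ≠ 0 := Nat.ne_of_beq_eq_false h3
              have hB : B * sm Q ≠ 0 := Nat.ne_of_beq_eq_false h4
              obtain ⟨s1, s2, s3, s4⟩ := hG4 k S i j A B g hS hij hj hA hB h5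
              cases hl : run cls k l (setn w i S) m G with
              | none => rw [hl] at h; exact absurd h (by simp [avg])
              | some a =>
                cases hr : run cls k r' (setn w j S) m G with
                | none => rw [hl, hr] at h; exact absurd h (by simp [avg])
                | some b =>
                  rw [hl, hr] at h
                  have h' : cdiv (A * sm P * a + B * sm Q * b) (A * sm P + B * sm Q) = r := by
                    have e2 : avg (A * sm P) (B * sm Q) (some a) (some b) =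
                      some (cdiv (A * sm P * a + B * sm Q * b) (A * sm P + B * sm Q)) := rfl
                    rw [e2] at h
                    exact Option.some.inj h
                  have Ha := ihl _ _ _ _ s1 (s3 m G hI).1 hl
                  have Hb := ihr _ _ _ _ s2 (s3 m G hI).2 hr
                  unfold Bd at Ha Hb ⊢
                  rw [s4 _ (meas hI6 k Dn hD.1)]
                  have hα0 : (0 : ℝ) < ((A * sm P : ℕ) : ℝ) := by
                    exact_mod_cast Nat.pos_of_ne_zero hA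
                  have hβ0 : (0 : ℝ) < ((B * sm Q : ℕ) : ℝ) := by
                    exact_mod_cast Nat.pos_of_ne_zero hB
                  set α : ℝ := ((A * sm P : ℕ) : ℝ) with hα
                  set β : ℝ := ((B * sm Q : ℕ) : ℝ) with hβ
                  have hS0 : (0 : ℝ) < (Sc : ℝ) := by
                    have : 0 < Sc := by decide
                    exact_mod_cast this
                  refine (add_le_add (mul_le_mul_right Ha _) (mul_le_mul_right Hb _)).trans ?_
                  rw [← ENNReal.ofReal_mul (by positivity), ← ENNReal.ofReal_mul (by positivity),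
                    ← ENNReal.ofReal_add (by positivity) (by positivity)]
                  refine ENNReal.ofReal_le_ofReal ?_
                  rw [← h']
                  have hc := IG5.cdiv_ge (A * sm P * a + B * sm Q * b) (A * sm P + B * sm Q)
                    (Nat.add_pos_left (Nat.pos_of_ne_zero hA) _)
                  rw [le_div_iff₀ hS0]
                  refine le_trans (le_of_eq ?_) hc
                  rw [Nat.cast_add (A * sm P * a), Nat.cast_mul (A * sm P) a,
                    Nat.cast_mul (B * sm Q) b, Nat.cast_add (A * sm P), ← hα, ← hβ]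
                  have hne : α + β ≠ 0 := by positivity
                  field_simp
  | dc q F st t ih =>
    intro S m G r hS hI h
    have e : run cls k (Ct.dc q F st t) S m G =
      cond (cond (Nat.blt q 4) (cond (Nat.blt F (2 ^ k))
        (Nat.beq (m / 2 ^ (q * 2 ^ k + F) % 2) 0) false) false)
        (cond (Nat.beq st 1)
          (cond (allL (geb (uv k q F)) S) (run cls k t S (m + 2 ^ (q * 2 ^ k + F))
            (G + wtf k F)) none)
          (cond (allL (leb (uv k q F)) S) (cond (allL (geb (uv k q F)) S) none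
            (run cls k t S (m + 2 ^ (q * 2 ^ k + F)) G)) none)) none := rfl
    rw [e] at h
    cases h1 : Nat.blt q 4 with
    | false => rw [h1] at h; exact absurd h (by simp)
    | true =>
      cases h2 : Nat.blt F (2 ^ k) with
      | false => rw [h1, h2] at h; exact absurd h (by simp)
      | true =>
        cases h3 : Nat.beq (m / 2 ^ (q * 2 ^ k + F) % 2) 0 with
        | false => rw [h1, h2, h3] at h; exact absurd h (by simp)
        | true =>
          rw [h1, h2, h3] at h
          simp only [cond_true] at h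
          have hq : q < 4 := by simpa using h1
          have hF : F < 2 ^ k := by simpa using h2
          have hm : m / 2 ^ (q * 2 ^ k + F) % 2 = 0 := Nat.eq_of_beq_eq_true h3
          obtain ⟨g1, g2⟩ := hG3 k S m G q F hS hI hq hF hm
          cases h4 : Nat.beq st 1 with
          | true =>
            rw [h4, cond_true] at h
            cases h5 : allL (geb (uv k q F)) S with
            | false => rw [h5] at h; exact absurd h (by simp)
            | true =>
              rw [h5, cond_true] at h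
              exact ih _ _ _ _ hS (g1 h5) h
          | false =>
            rw [h4, cond_false] at h
            cases h6 : allL (leb (uv k q F)) S with
            | false => rw [h6] at h; exact absurd h (by simp)
            | true =>
              rw [h6, cond_true] at h
              cases h5 : allL (geb (uv k q F)) S with
              | true => rw [h5] at h; exact absurd h (by simp)
              | false =>
                rw [h5, cond_false] at h
                exact ih _ _ _ _ hS (g2 h6 h5) h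

end Pool.Agent.Work.MP_122e00_nt.Four.Cx

end

section

set_option autoImplicit false

/-!
# K3: the base simplices
-/

namespace Pool.Agent.Work.MP_122e00_nt.Four.Cx

open Sharp.Cx

namespace IK3

theorem data (k : ℕ) (h1 : 1 ≤ k) (h4 : k ≤ 3) : ∀ i, i < k + 4 →
    sm (nth (bs k) i) = (if i < k then i + 1 else i - k + 1) ∧
    ∀ j, j < k + 4 → nthN (nth (bs k) i) j =
      if i < k then (if j ≤ i then 1 else 0) else (if k ≤ j ∧ j ≤ i then 1 else 0) := by
  interval_cases k <;> decide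

theorem valid (k : ℕ) (h1 : 1 ≤ k) (h4 : k ≤ 3) : Sv k (bs k) := by
  unfold Sv
  interval_cases k <;> decide

theorem pt_eq (k : ℕ) (h1 : 1 ≤ k) (h4 : k ≤ 3) (i : Fin (k + 4)) :
    pt (k + 3 + 1) (nth (bs k) i.val) = V0 k i := by
  obtain ⟨hs, hn⟩ := data k h1 h4 i.val i.2
  funext j
  unfold pt V0
  rw [hs, hn j.val j.2]
  by_cases hi : i.val < k
  · rw [if_pos hi, if_pos hi, if_pos hi]
    by_cases hj : j.val ≤ i.val
    · rw [if_pos hj, if_pos hj]
      push_cast
      rfl
    · rw [if_neg hj, if_neg hj, Nat.cast_zero, zero_div]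
  · rw [if_neg hi, if_neg hi, if_neg hi]
    by_cases hj : k ≤ j.val ∧ j.val ≤ i.val
    · rw [if_pos hj, if_pos hj]
      push_cast [Nat.cast_sub (not_lt.1 hi)]
      rfl
    · rw [if_neg hj, if_neg hj, Nat.cast_zero, zero_div]

end IK3

open IK3 in
theorem prfK3 : claimK3 := by
  intro k h1 h4
  refine ⟨valid k h1 h4, ?_⟩
  funext o
  match o with
  | some i => exact pt_eq k h1 h4 i.castSucc
  | none => exact pt_eq k h1 h4 (Fin.last (k + 3))

end Pool.Agent.Work.MP_122e00_nt.Four.Cx

end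

section

set_option autoImplicit false

/-!
# The certificate for four parts: the classes, statements
-/

namespace Pool.Agent.Work.MP_122e00_nt.Four.Cx

open Finset MeasureTheory

open scoped ENNReal

open Gen Sharp Sharp.Cx

noncomputable section

/-- CV: the classes are valid. -/
def claimCV : Prop := Clv 1 cl1 ∧ Clv 2 cl2 ∧ Clv 3 cl30 ∧ Clv 3 cl31 ∧ Clv 3 cl32 ∧ Clv 3 cl33 ∧
  Clv 3 cl34

/-- LA: the densities with one or two marks. -/
def claimLA : Prop := (∀ p : Fin (1 + 4) → ℝ, dpoly 1 cl1 p = Qs 1 11 (px (k := 1) p)) ∧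
  ∀ p : Fin (2 + 4) → ℝ, dpoly 2 cl2 p = Qs 2 11 (px (k := 2) p)

/-- LR: the factors of the last mark. -/
def claimLR : Prop := ∀ a : ℕ, a ≤ 8 →
  rh 0 a * 2520 = (nthN cl30.fz a : ℝ) ∧ rh 1 a * 3780 = (nthN cl31.fz a : ℝ) ∧
  rh 2 a * 3780 = (nthN cl32.fz a : ℝ) ∧ rh 3 a * 630 = (nthN cl33.fz a : ℝ) ∧
  rh 4 a * 7560 = (nthN cl34.fz a : ℝ)

/-- LB: the densities with three visible marks. -/
def claimLB : Prop := ∀ p : Fin (2 + 1 + 4) → ℝ,
  dpoly 3 cl30 p = Pb (k := 2) 11 0 p ∧ dpoly 3 cl31 p = Pb (k := 2) 11 1 p ∧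
  dpoly 3 cl32 p = Pb (k := 2) 11 2 p ∧ dpoly 3 cl33 p = Pb (k := 2) 11 3 p ∧
  dpoly 3 cl34 p = Pb (k := 2) 11 4 p

end

end Pool.Agent.Work.MP_122e00_nt.Four.Cx

end

section

set_option autoImplicit false

/-!
# The certificate for four parts: the classes are valid (item CV)
-/

namespace Pool.Agent.Work.MP_122e00_nt.Four.Cx

open Finset MeasureTheory

open scoped ENNReal

open Gen Sharp Sharp.Cx

noncomputable section

namespace ICV

theorem inj_of_nodup {A : Type} (l : List A) (f : A → ℕ) (h : (l.map f).Nodup) :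
    ∀ a ∈ l, ∀ b ∈ l, f a = f b → a = b := fun _ ha _ hb hab =>
  List.inj_on_of_nodup_map h ha hb hab

theorem mem_list (K D : ℕ) (β : Fin K → ℕ) :
    β ∈ Finset.Nat.antidiagonalTuple K D ↔ β ∈ List.Nat.antidiagonalTuple K D := by
  rw [Finset.Nat.mem_antidiagonalTuple, List.Nat.mem_antidiagonalTuple]

/-- The Boolean test for the slots. -/
def tst (ws : List ℕ) (wS mx K D : ℕ) (s : ℕ) : Bool :=
  let l := ((List.Nat.antidiagonalTuple (K + 1) D).filter
    fun β => decide (s = 0 → β (Fin.last K) = 0)).map (fun β => sl ws wS K β)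
  l.Nodup && l.all (fun x => Nat.ble x mx)

theorem tst_spec (ws : List ℕ) (wS mx K D s : ℕ) (h : tst ws wS mx K D s = true) :
    (∀ β ∈ Finset.Nat.antidiagonalTuple (K + 1) D, (s = 0 → β (Fin.last K) = 0) →
      sl ws wS K β ≤ mx) ∧
    (∀ β ∈ Finset.Nat.antidiagonalTuple (K + 1) D, ∀ β' ∈ Finset.Nat.antidiagonalTuple (K + 1) D,
      (s = 0 → β (Fin.last K) = 0) → (s = 0 → β' (Fin.last K) = 0) →
      sl ws wS K β = sl ws wS K β' → β = β') := by
  unfold tst at h
  simp only [Bool.and_eq_true, decide_eq_true_eq, List.all_eq_true, Nat.ble_eq] at h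
  obtain ⟨h1, h2⟩ := h
  constructor
  · intro β hβ h0
    refine h2 _ (List.mem_map_of_mem ?_)
    rw [List.mem_filter]
    exact ⟨(mem_list _ _ _).1 hβ, decide_eq_true h0⟩
  · intro β hβ β' hβ' h0 h0' he
    refine inj_of_nodup _ _ h1 β ?_ β' ?_ he
    · rw [List.mem_filter]
      exact ⟨(mem_list _ _ _).1 hβ, decide_eq_true h0⟩
    · rw [List.mem_filter]
      exact ⟨(mem_list _ _ _).1 hβ', decide_eq_true h0'⟩

theorem t1 : tst [0] 0 0 1 10 0 = true := by decide +kernel

theorem t2 : tst [0, 1] 0 9 2 9 0 = true := by decide +kernel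

theorem t3 (s : ℕ) (hs : s ≠ 0) : tst [0, 1, 37] 45 360 3 8 s = true := by
  have h : tst [0, 1, 37] 45 360 3 8 1 = true := by decide +kernel
  have h2 : tst [0, 1, 37] 45 360 3 8 s = tst [0, 1, 37] 45 360 3 8 1 := by
    unfold tst
    simp [hs]
  rw [h2, h]

theorem t34 : tst [0, 1, 9] 0 72 3 8 0 = true := by decide +kernel

theorem us_le4 (a b c d : ℕ) (ha : a ≤ 1) (hb : b ≤ 1) (hc : c ≤ 1) (hd : d ≤ 1) (q : ℕ) :
    nthN [a, b, c, d] q ≤ 1 := by
  match q with
  | 0 => exact ha
  | 1 => exact hb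
  | 2 => exact hc
  | 3 => exact hd
  | n + 4 =>
    have : ∀ n : ℕ, nthN [] n = 0 := by
      intro n
      induction n with
      | zero => rfl
      | succ n ih => exact ih
    show nthN [] n ≤ 1
    rw [this]
    exact Nat.zero_le _

theorem clv1 : Clv 1 cl1 := by
  obtain ⟨h1, h2⟩ := tst_spec [0] 0 0 1 10 0 t1
  exact ⟨rfl, le_rfl, rfl, rfl, us_le4 _ _ _ _ (by norm_num) (by norm_num) (by norm_num)
    (by norm_num), by decide, by decide, by decide, h1, h2⟩

theorem clv2 : Clv 2 cl2 := by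
  obtain ⟨h1, h2⟩ := tst_spec [0, 1] 0 9 2 9 0 t2
  exact ⟨rfl, by norm_num, rfl, rfl, us_le4 _ _ _ _ (by norm_num) (by norm_num) (by norm_num)
    (by norm_num), by decide, by decide, by decide, h1, h2⟩

theorem clv30 : Clv 3 cl30 := by
  obtain ⟨h1, h2⟩ := tst_spec [0, 1, 37] 45 360 3 8 4 (t3 4 (by norm_num))
  exact ⟨rfl, by norm_num, rfl, rfl, us_le4 _ _ _ _ (by norm_num) (by norm_num) (by norm_num)
    (by norm_num), by decide, by decide, by decide, h1, h2⟩

theorem clv31 : Clv 3 cl31 := by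
  obtain ⟨h1, h2⟩ := tst_spec [0, 1, 37] 45 360 3 8 3 (t3 3 (by norm_num))
  exact ⟨rfl, by norm_num, rfl, rfl, us_le4 _ _ _ _ (by norm_num) (by norm_num) (by norm_num)
    (by norm_num), by decide, by decide, by decide, h1, h2⟩

theorem clv32 : Clv 3 cl32 := by
  obtain ⟨h1, h2⟩ := tst_spec [0, 1, 37] 45 360 3 8 2 (t3 2 (by norm_num))
  exact ⟨rfl, by norm_num, rfl, rfl, us_le4 _ _ _ _ (by norm_num) (by norm_num) (by norm_num)
    (by norm_num), by decide, by decide, by decide, h1, h2⟩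

theorem clv33 : Clv 3 cl33 := by
  obtain ⟨h1, h2⟩ := tst_spec [0, 1, 37] 45 360 3 8 1 (t3 1 (by norm_num))
  exact ⟨rfl, by norm_num, rfl, rfl, us_le4 _ _ _ _ (by norm_num) (by norm_num) (by norm_num)
    (by norm_num), by decide, by decide, by decide, h1, h2⟩

theorem clv34 : Clv 3 cl34 := by
  obtain ⟨h1, h2⟩ := tst_spec [0, 1, 9] 0 72 3 8 0 t34
  exact ⟨rfl, by norm_num, rfl, rfl, us_le4 _ _ _ _ (by norm_num) (by norm_num) (by norm_num)
    (by norm_num), by decide, by decide, by decide, h1, h2⟩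

end ICV

theorem prfCV : claimCV :=
  ⟨ICV.clv1, ICV.clv2, ICV.clv30, ICV.clv31, ICV.clv32, ICV.clv33, ICV.clv34⟩

end

end Pool.Agent.Work.MP_122e00_nt.Four.Cx

end

section

set_option autoImplicit false

/-!
# LA: the densities with one or two marks (four parts)
-/

namespace Pool.Agent.Work.MP_122e00_nt.Four.Cx

open Finset MeasureTheory

open scoped ENNReal

open Gen Sharp Sharp.Cx

noncomputable section

namespace ILA

/-- The weights of a class. -/
theorem dlink (k D : ℕ) (c : Cl) (L Z M : ℝ) (ρ : ℕ → ℝ) (hD : c.D = D)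
    (h1 : ∀ a, a ≤ D → (nthN c.fx a : ℝ) = L / ((a : ℝ) + 1))
    (h2 : ∀ a, a ≤ D → (nthN c.fz a : ℝ) = ρ a * Z)
    (h3 : (c.cn : ℝ) / (c.cd : ℝ) * (L ^ k * Z) = M) (p : Fin (k + 1 + 4) → ℝ) :
    dpoly (k + 1) c p = M * ∑ β ∈ Finset.Nat.antidiagonalTuple (k + 1 + 1) D,
      if sm c.us = 0 ∧ β (Fin.last (k + 1)) ≠ 0 then 0 else
      (∏ i : Fin k, px p i.castSucc ^ β i.castSucc.castSucc /
        ((β i.castSucc.castSucc + 1).factorial : ℝ)) *
      (ρ (β (Fin.last k).castSucc) * px p (Fin.last k) ^ β (Fin.last k).castSucc /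
        ((β (Fin.last k).castSucc).factorial : ℝ)) *
      ((∑ q : Fin 4, (nthN c.us q.val : ℝ) * ph p q) ^ β (Fin.last (k + 1)) /
        ((β (Fin.last (k + 1))).factorial : ℝ)) := by
  unfold dpoly
  rw [hD, Finset.mul_sum, Finset.mul_sum]
  refine Finset.sum_congr rfl fun β hβ => ?_
  have hle : ∀ j, β j ≤ D := by
    intro j
    rw [Finset.Nat.mem_antidiagonalTuple] at hβ
    rw [← hβ]
    exact Finset.single_le_sum (f := β) (fun i _ => Nat.zero_le _) (Finset.mem_univ j)
  unfold gw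
  by_cases h0 : sm c.us = 0 ∧ β (Fin.last (k + 1)) ≠ 0
  · rw [if_pos h0, if_pos h0]
    simp
  rw [if_neg h0, if_neg h0]
  rw [Fin.prod_univ_castSucc (n := k + 1), Fin.prod_univ_castSucc (n := k)]
  rw [Nat.cast_mul, Nat.cast_prod, Fin.prod_univ_castSucc (n := k)]
  have e1 : ∀ i : Fin k, ((nthN (if (i.castSucc : Fin (k + 1)).val + 1 = k + 1 then c.fz else c.fx)
      (β i.castSucc.castSucc) : ℕ) : ℝ) = L / ((β i.castSucc.castSucc : ℝ) + 1) := by
    intro i
    rw [if_neg (by simp only [Fin.val_castSucc]; have := i.isLt; omega)]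
    exact h1 _ (hle _)
  have e2 : ((nthN (if ((Fin.last k : Fin (k + 1))).val + 1 = k + 1 then c.fz else c.fx)
      (β (Fin.last k).castSucc) : ℕ) : ℝ) = ρ (β (Fin.last k).castSucc) * Z := by
    rw [if_pos (by simp)]
    exact h2 _ (hle _)
  rw [e2, Finset.prod_congr rfl fun i _ => e1 i]
  have e3 : ∀ i : Fin k, vr (k + 1) c p i.castSucc.castSucc = px p i.castSucc := by
    intro i
    unfold vr px
    rw [if_pos (show i.castSucc.castSucc.val < k + 1 by
      have := i.isLt
      show i.val < k + 1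
      omega)]
    rfl
  have e4 : vr (k + 1) c p (Fin.last k).castSucc = px p (Fin.last k) := by
    unfold vr px
    rw [if_pos (show (Fin.last k).castSucc.val < k + 1 from Nat.lt_succ_self k)]
    rfl
  have e5 : vr (k + 1) c p (Fin.last (k + 1)) = ∑ q : Fin 4, (nthN c.us q.val : ℝ) * ph p q := by
    unfold vr ph
    rw [if_neg (show ¬ (Fin.last (k + 1)).val < k + 1 from Nat.lt_irrefl _)]
  rw [e4, e5]
  simp only [e3]
  have e6 : ∀ i : Fin k, (L / ((β i.castSucc.castSucc : ℝ) + 1)) *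
      (px p i.castSucc ^ β i.castSucc.castSucc / ((β i.castSucc.castSucc).factorial : ℝ)) =
      L * (px p i.castSucc ^ β i.castSucc.castSucc /
        ((β i.castSucc.castSucc + 1).factorial : ℝ)) := by
    intro i
    rw [Nat.factorial_succ]
    push_cast
    have : ((β i.castSucc.castSucc : ℝ) + 1) ≠ 0 := by positivity
    have h4 : ((β i.castSucc.castSucc).factorial : ℝ) ≠ 0 := by positivity
    field_simp
  have e7 : (∏ i : Fin k, L / ((β i.castSucc.castSucc : ℝ) + 1)) *
      (∏ i : Fin k, px p i.castSucc ^ β i.castSucc.castSucc /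
        ((β i.castSucc.castSucc).factorial : ℝ)) =
      L ^ k * ∏ i : Fin k, px p i.castSucc ^ β i.castSucc.castSucc /
        ((β i.castSucc.castSucc + 1).factorial : ℝ) := by
    rw [← Finset.prod_mul_distrib, Finset.prod_congr rfl fun i _ => e6 i,
      Finset.prod_mul_distrib, Finset.prod_const, Finset.card_univ, Fintype.card_fin]
  rw [← h3]
  linear_combination ((c.cn : ℝ) / (c.cd : ℝ) * Z * (ρ (β (Fin.last k).castSucc) *
    px p (Fin.last k) ^ β (Fin.last k).castSucc / ((β (Fin.last k).castSucc).factorial : ℝ)) *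
    ((∑ q : Fin 4, (nthN c.us q.val : ℝ) * ph p q) ^ β (Fin.last (k + 1)) /
      ((β (Fin.last (k + 1))).factorial : ℝ))) * e7

theorem sum_last_zero (K D : ℕ) (f : (Fin (K + 1) → ℕ) → ℝ)
    (h : ∀ β, β (Fin.last K) ≠ 0 → f β = 0) :
    ∑ β ∈ Finset.Nat.antidiagonalTuple (K + 1) D, f β =
      ∑ α ∈ Finset.Nat.antidiagonalTuple K D, f (Fin.snoc (α := fun _ => ℕ) α 0) := by
  symm
  refine Finset.sum_of_injOn (fun α => Fin.snoc (α := fun _ => ℕ) α 0) ?_ ?_ ?_ ?_
  · intro α _ α' _ he
    funext i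
    have := congrFun he i.castSucc
    simpa using this
  · intro α hα
    have hα' : ∑ i, α i = D := by simpa [Finset.Nat.mem_antidiagonalTuple] using hα
    simp only [Finset.mem_coe, Finset.Nat.mem_antidiagonalTuple]
    rw [Fin.sum_univ_castSucc]
    simpa using hα'
  · intro β hβ hn
    by_contra hf
    apply hn
    have h0 : β (Fin.last K) = 0 := by
      by_contra h1
      exact hf (h β h1)
    rw [Finset.Nat.mem_antidiagonalTuple, Fin.sum_univ_castSucc, h0, add_zero] at hβ
    refine ⟨fun i => β i.castSucc, ?_, ?_⟩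
    · simpa [Finset.Nat.mem_antidiagonalTuple] using hβ
    · funext i
      refine Fin.lastCases ?_ (fun i => ?_) i
      · simp [h0]
      · simp
  · intro α _
    rfl

/-- No mark hidden. -/
theorem dlinkQ (hK1 : claimK1) (k D m : ℕ) (c : Cl) (L Z : ℝ) (hm : m = D + (k + 1)) (hD : c.D = D)
    (h1 : ∀ a, a ≤ D → (nthN c.fx a : ℝ) = L / ((a : ℝ) + 1))
    (h2 : ∀ a, a ≤ D → (nthN c.fz a : ℝ) = 1 / ((a : ℝ) + 1) * Z)
    (h3 : (c.cn : ℝ) / (c.cd : ℝ) * (L ^ k * Z) = (m.factorial : ℝ)) (hs : c.us = [0, 0, 0, 0])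
    (p : Fin (k + 1 + 4) → ℝ) : dpoly (k + 1) c p = Qs (k + 1) m (px p) := by
  rw [dlink k D c L Z _ (fun a => 1 / ((a : ℝ) + 1)) hD h1 h2 h3, hK1 (k + 1) m (px p) (by omega)]
  congr 1
  have hs0 : sm c.us = 0 := by rw [hs]; rfl
  rw [sum_last_zero]
  · rw [show m - (k + 1) = D by omega]
    refine Finset.sum_congr rfl fun α _ => ?_
    rw [if_neg (by simp)]
    rw [Fin.prod_univ_castSucc]
    simp only [Fin.snoc_castSucc, Fin.snoc_last, pow_zero, Nat.factorial_zero, Nat.cast_one,
      div_one, mul_one]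
    congr 1
    rw [Nat.factorial_succ]
    push_cast
    have h2 : ((α (Fin.last k)).factorial : ℝ) ≠ 0 := by positivity
    have h3 : (α (Fin.last k) : ℝ) + 1 ≠ 0 := by positivity
    field_simp
  · intro β hβ
    rw [if_pos ⟨hs0, hβ⟩]

theorem lk1 (hK1 : Sharp.Cx.claimK1) (p : Fin (0 + 1 + 4) → ℝ) :
    dpoly 1 cl1 p = Qs 1 11 (px (k := 1) p) := by
  refine dlinkQ hK1 0 10 11 cl1 27720 27720 (by norm_num) rfl ?_ ?_ ?_ rfl p
  · intro a ha
    interval_cases a <;> norm_num [show nthN cl1.fx 0 = 27720 from rfl, show nthN cl1.fx 1 = 13860 from rfl, show nthN cl1.fx 2 = 9240 from rfl, show nthN cl1.fx 3 = 6930 from rfl, show nthN cl1.fx 4 = 5544 from rfl, show nthN cl1.fx 5 = 4620 from rfl, show nthN cl1.fx 6 = 3960 from rfl, show nthN cl1.fx 7 = 3465 from rfl, show nthN cl1.fx 8 = 3080 from rfl, show nthN cl1.fx 9 = 2772 from rfl, show nthN cl1.fx 10 = 2520 from rfl]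
  · intro a ha
    interval_cases a <;> norm_num [show nthN cl1.fz 0 = 27720 from rfl, show nthN cl1.fz 1 = 13860 from rfl, show nthN cl1.fz 2 = 9240 from rfl, show nthN cl1.fz 3 = 6930 from rfl, show nthN cl1.fz 4 = 5544 from rfl, show nthN cl1.fz 5 = 4620 from rfl, show nthN cl1.fz 6 = 3960 from rfl, show nthN cl1.fz 7 = 3465 from rfl, show nthN cl1.fz 8 = 3080 from rfl, show nthN cl1.fz 9 = 2772 from rfl, show nthN cl1.fz 10 = 2520 from rfl]
  · norm_num [cl1, Nat.factorial]

theorem lk2 (hK1 : Sharp.Cx.claimK1) (p : Fin (1 + 1 + 4) → ℝ) :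
    dpoly 2 cl2 p = Qs 2 11 (px (k := 2) p) := by
  refine dlinkQ hK1 1 9 11 cl2 2520 2520 (by norm_num) rfl ?_ ?_ ?_ rfl p
  · intro a ha
    interval_cases a <;> norm_num [show nthN cl2.fx 0 = 2520 from rfl, show nthN cl2.fx 1 = 1260 from rfl, show nthN cl2.fx 2 = 840 from rfl, show nthN cl2.fx 3 = 630 from rfl, show nthN cl2.fx 4 = 504 from rfl, show nthN cl2.fx 5 = 420 from rfl, show nthN cl2.fx 6 = 360 from rfl, show nthN cl2.fx 7 = 315 from rfl, show nthN cl2.fx 8 = 280 from rfl, show nthN cl2.fx 9 = 252 from rfl]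
  · intro a ha
    interval_cases a <;> norm_num [show nthN cl2.fz 0 = 2520 from rfl, show nthN cl2.fz 1 = 1260 from rfl, show nthN cl2.fz 2 = 840 from rfl, show nthN cl2.fz 3 = 630 from rfl, show nthN cl2.fz 4 = 504 from rfl, show nthN cl2.fz 5 = 420 from rfl, show nthN cl2.fz 6 = 360 from rfl, show nthN cl2.fz 7 = 315 from rfl, show nthN cl2.fz 8 = 280 from rfl, show nthN cl2.fz 9 = 252 from rfl]
  · norm_num [cl2, Nat.factorial]

end ILA

theorem prfLA (hK1 : Sharp.Cx.claimK1) : claimLA :=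
  ⟨fun p => ILA.lk1 hK1 p, fun p => ILA.lk2 hK1 p⟩

end

end Pool.Agent.Work.MP_122e00_nt.Four.Cx

end

section

set_option autoImplicit false

/-!
# The certificate for four parts: the densities with three visible marks
-/

namespace Pool.Agent.Work.MP_122e00_nt.Four.Cx

open Finset MeasureTheory

open scoped ENNReal

open Gen Sharp Sharp.Cx

noncomputable section

namespace ILB

/-- The weights of a class. -/
theorem dlink (k D : ℕ) (c : Cl) (L Z M : ℝ) (ρ : ℕ → ℝ) (hD : c.D = D)
    (h1 : ∀ a, a ≤ D → (nthN c.fx a : ℝ) = L / ((a : ℝ) + 1))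
    (h2 : ∀ a, a ≤ D → (nthN c.fz a : ℝ) = ρ a * Z)
    (h3 : (c.cn : ℝ) / (c.cd : ℝ) * (L ^ k * Z) = M) (p : Fin (k + 1 + 4) → ℝ) :
    dpoly (k + 1) c p = M * ∑ β ∈ Finset.Nat.antidiagonalTuple (k + 1 + 1) D,
      if sm c.us = 0 ∧ β (Fin.last (k + 1)) ≠ 0 then 0 else
      (∏ i : Fin k, px p i.castSucc ^ β i.castSucc.castSucc /
        ((β i.castSucc.castSucc + 1).factorial : ℝ)) *
      (ρ (β (Fin.last k).castSucc) * px p (Fin.last k) ^ β (Fin.last k).castSucc /
        ((β (Fin.last k).castSucc).factorial : ℝ)) *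
      ((∑ q : Fin 4, (nthN c.us q.val : ℝ) * ph p q) ^ β (Fin.last (k + 1)) /
        ((β (Fin.last (k + 1))).factorial : ℝ)) := by
  unfold dpoly
  rw [hD, Finset.mul_sum, Finset.mul_sum]
  refine Finset.sum_congr rfl fun β hβ => ?_
  have hle : ∀ j, β j ≤ D := by
    intro j
    rw [Finset.Nat.mem_antidiagonalTuple] at hβ
    rw [← hβ]
    exact Finset.single_le_sum (f := β) (fun i _ => Nat.zero_le _) (Finset.mem_univ j)
  unfold gw
  by_cases h0 : sm c.us = 0 ∧ β (Fin.last (k + 1)) ≠ 0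
  · rw [if_pos h0, if_pos h0]
    simp
  rw [if_neg h0, if_neg h0]
  rw [Fin.prod_univ_castSucc (n := k + 1), Fin.prod_univ_castSucc (n := k)]
  rw [Nat.cast_mul, Nat.cast_prod, Fin.prod_univ_castSucc (n := k)]
  have e1 : ∀ i : Fin k, ((nthN (if (i.castSucc : Fin (k + 1)).val + 1 = k + 1 then c.fz else c.fx)
      (β i.castSucc.castSucc) : ℕ) : ℝ) = L / ((β i.castSucc.castSucc : ℝ) + 1) := by
    intro i
    rw [if_neg (by simp only [Fin.val_castSucc]; have := i.isLt; omega)]
    exact h1 _ (hle _)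
  have e2 : ((nthN (if ((Fin.last k : Fin (k + 1))).val + 1 = k + 1 then c.fz else c.fx)
      (β (Fin.last k).castSucc) : ℕ) : ℝ) = ρ (β (Fin.last k).castSucc) * Z := by
    rw [if_pos (by simp)]
    exact h2 _ (hle _)
  rw [e2, Finset.prod_congr rfl fun i _ => e1 i]
  have e3 : ∀ i : Fin k, vr (k + 1) c p i.castSucc.castSucc = px p i.castSucc := by
    intro i
    unfold vr px
    rw [if_pos (show i.castSucc.castSucc.val < k + 1 by
      have := i.isLt
      show i.val < k + 1
      omega)]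
    rfl
  have e4 : vr (k + 1) c p (Fin.last k).castSucc = px p (Fin.last k) := by
    unfold vr px
    rw [if_pos (show (Fin.last k).castSucc.val < k + 1 from Nat.lt_succ_self k)]
    rfl
  have e5 : vr (k + 1) c p (Fin.last (k + 1)) = ∑ q : Fin 4, (nthN c.us q.val : ℝ) * ph p q := by
    unfold vr ph
    rw [if_neg (show ¬ (Fin.last (k + 1)).val < k + 1 from Nat.lt_irrefl _)]
  rw [e4, e5]
  simp only [e3]
  have e6 : ∀ i : Fin k, (L / ((β i.castSucc.castSucc : ℝ) + 1)) *
      (px p i.castSucc ^ β i.castSucc.castSucc / ((β i.castSucc.castSucc).factorial : ℝ)) =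
      L * (px p i.castSucc ^ β i.castSucc.castSucc /
        ((β i.castSucc.castSucc + 1).factorial : ℝ)) := by
    intro i
    rw [Nat.factorial_succ]
    push_cast
    have : ((β i.castSucc.castSucc : ℝ) + 1) ≠ 0 := by positivity
    have h4 : ((β i.castSucc.castSucc).factorial : ℝ) ≠ 0 := by positivity
    field_simp
  have e7 : (∏ i : Fin k, L / ((β i.castSucc.castSucc : ℝ) + 1)) *
      (∏ i : Fin k, px p i.castSucc ^ β i.castSucc.castSucc /
        ((β i.castSucc.castSucc).factorial : ℝ)) =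
      L ^ k * ∏ i : Fin k, px p i.castSucc ^ β i.castSucc.castSucc /
        ((β i.castSucc.castSucc + 1).factorial : ℝ) := by
    rw [← Finset.prod_mul_distrib, Finset.prod_congr rfl fun i _ => e6 i,
      Finset.prod_mul_distrib, Finset.prod_const, Finset.card_univ, Fintype.card_fin]
  rw [← h3]
  linear_combination ((c.cn : ℝ) / (c.cd : ℝ) * Z * (ρ (β (Fin.last k).castSucc) *
    px p (Fin.last k) ^ β (Fin.last k).castSucc / ((β (Fin.last k).castSucc).factorial : ℝ)) *
    ((∑ q : Fin 4, (nthN c.us q.val : ℝ) * ph p q) ^ β (Fin.last (k + 1)) /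
      ((β (Fin.last (k + 1))).factorial : ℝ))) * e7

/-- Hidden marks. -/
theorem dlinkP (hK2 : claimK2) (k D m b : ℕ) (c : Cl) (L Z : ℝ) (hm : m = D + (k + 1))
    (hD : c.D = D) (h1 : ∀ a, a ≤ D → (nthN c.fx a : ℝ) = L / ((a : ℝ) + 1))
    (h2 : ∀ a, a ≤ D → (nthN c.fz a : ℝ) = rh b a * Z)
    (h3 : (c.cn : ℝ) / (c.cd : ℝ) * (L ^ k * Z) = (m.factorial : ℝ))
    (hs : ∀ q : Fin 4, (nthN c.us q.val : ℝ) = if b ≤ q.val then 1 else 0)
    (hs0 : sm c.us = 0 → 4 ≤ b) (p : Fin (k + 1 + 4) → ℝ) : dpoly (k + 1) c p = Pb m b p := by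
  rw [dlink k D c L Z _ (rh b) hD h1 h2 h3, hK2 k m b p (by omega)]
  congr 1
  rw [show m - (k + 1) = D by omega]
  have e1 : (∑ q : Fin 4, (nthN c.us q.val : ℝ) * ph p q) =
      ∑ q : Fin 4, if b ≤ q.val then ph p q else 0 := by
    refine Finset.sum_congr rfl fun q _ => ?_
    rw [hs q]
    split_ifs <;> simp
  rw [e1]
  refine Finset.sum_congr rfl fun β _ => ?_
  by_cases h0 : sm c.us = 0 ∧ β (Fin.last (k + 1)) ≠ 0
  · rw [if_pos h0]
    have hb := hs0 h0.1
    have e2 : (∑ q : Fin 4, if b ≤ q.val then ph p q else 0) = 0 := by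
      refine Finset.sum_eq_zero fun q _ => ?_
      rw [if_neg (by have := q.isLt; omega)]
    rw [e2, zero_pow h0.2]
    simp
  · rw [if_neg h0]

theorem fx8 (c : Cl) (h : c.fx = [2520, 1260, 840, 630, 504, 420, 360, 315, 280]) (a : ℕ)
    (ha : a ≤ 8) : (nthN c.fx a : ℝ) = 2520 / ((a : ℝ) + 1) := by
  rw [h]
  interval_cases a <;> norm_num [show nthN [2520, 1260, 840, 630, 504, 420, 360, 315, 280] 0 = 2520 from rfl,
    show nthN [2520, 1260, 840, 630, 504, 420, 360, 315, 280] 1 = 1260 from rfl,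
    show nthN [2520, 1260, 840, 630, 504, 420, 360, 315, 280] 2 = 840 from rfl,
    show nthN [2520, 1260, 840, 630, 504, 420, 360, 315, 280] 3 = 630 from rfl,
    show nthN [2520, 1260, 840, 630, 504, 420, 360, 315, 280] 4 = 504 from rfl,
    show nthN [2520, 1260, 840, 630, 504, 420, 360, 315, 280] 5 = 420 from rfl,
    show nthN [2520, 1260, 840, 630, 504, 420, 360, 315, 280] 6 = 360 from rfl,
    show nthN [2520, 1260, 840, 630, 504, 420, 360, 315, 280] 7 = 315 from rfl,
    show nthN [2520, 1260, 840, 630, 504, 420, 360, 315, 280] 8 = 280 from rfl]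

end ILB

theorem prfLB (hK2 : claimK2) (hLR : claimLR) : claimLB := by
  intro p
  refine ⟨?_, ?_, ?_, ?_, ?_⟩
  · refine ILB.dlinkP hK2 2 8 11 0 cl30 2520 2520 (by norm_num) rfl (ILB.fx8 _ rfl)
      (fun a ha => (hLR a ha).1.symm) ?_ ?_ ?_ p
    · norm_num [cl30, Nat.factorial]
    · intro q
      fin_cases q <;> simp [cl30, nthN, hd, tl]
    · intro h
      exact absurd h (by decide)
  · refine ILB.dlinkP hK2 2 8 11 1 cl31 2520 3780 (by norm_num) rfl (ILB.fx8 _ rfl)
      (fun a ha => (hLR a ha).2.1.symm) ?_ ?_ ?_ p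
    · norm_num [cl31, Nat.factorial]
    · intro q
      fin_cases q <;> simp [cl31, nthN, hd, tl]
    · intro h
      exact absurd h (by decide)
  · refine ILB.dlinkP hK2 2 8 11 2 cl32 2520 3780 (by norm_num) rfl (ILB.fx8 _ rfl)
      (fun a ha => (hLR a ha).2.2.1.symm) ?_ ?_ ?_ p
    · norm_num [cl32, Nat.factorial]
    · intro q
      fin_cases q <;> simp [cl32, nthN, hd, tl]
    · intro h
      exact absurd h (by decide)
  · refine ILB.dlinkP hK2 2 8 11 3 cl33 2520 630 (by norm_num) rfl (ILB.fx8 _ rfl)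
      (fun a ha => (hLR a ha).2.2.2.1.symm) ?_ ?_ ?_ p
    · norm_num [cl33, Nat.factorial]
    · intro q
      fin_cases q <;> simp [cl33, nthN, hd, tl]
    · intro h
      exact absurd h (by decide)
  · refine ILB.dlinkP hK2 2 8 11 4 cl34 2520 7560 (by norm_num) rfl (ILB.fx8 _ rfl)
      (fun a ha => (hLR a ha).2.2.2.2.symm) ?_ ?_ ?_ p
    · norm_num [cl34, Nat.factorial]
    · intro q
      fin_cases q <;> simp [cl34, nthN, hd, tl]
    · intro _
      norm_num

end

end Pool.Agent.Work.MP_122e00_nt.Four.Cx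

end

section

set_option autoImplicit false

/-!
# Item LR: the factors of the last mark
-/

namespace Pool.Agent.Work.MP_122e00_nt.Four.Cx

open Finset MeasureTheory

open Gen Sharp

open Sharp.Cx (Cl nthN rh)

namespace ILR

theorem be_zero (b : ℕ) : be b 0 = 1 := by
  rw [be]

theorem be_succ (b t : ℕ) : be b (t + 1) = b * ∑ i ∈ Finset.range (t + 1),
    (t.choose i : ℝ) * be b (t - i) / ((i : ℝ) + 1) := by
  rw [be]
  rw [Finset.sum_attach (Finset.range (t + 1)) fun i => (t.choose i : ℝ) * be b (t - i) / ((i : ℝ) + 1)]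

theorem be_zero' (t : ℕ) : be 0 (t + 1) = 0 := by
  rw [be_succ]
  simp

theorem rh_eq (b a : ℕ) : rh b a = (a.factorial : ℝ) *
    ∑ j ∈ Finset.range (a + 1), be b j / ((j.factorial : ℝ) * ((a - j + 1).factorial : ℝ)) := rfl

theorem rh_be (b a : ℕ) : be b (a + 1) = b * rh b a := by
  rw [be_succ, rh_eq]
  congr 1
  rw [Finset.mul_sum, ← Finset.sum_range_reflect]
  refine Finset.sum_congr rfl fun j hj => ?_
  have hj' : j ≤ a := Nat.lt_succ_iff.1 (Finset.mem_range.1 hj)
  have e1 : a + 1 - 1 - j = a - j := by omega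
  have e2 : a - (a - j) = j := by omega
  rw [e1, e2, Nat.choose_symm hj', Nat.factorial_succ]
  have h := Nat.choose_mul_factorial_mul_factorial hj'
  have h' : (a.factorial : ℝ) = (a.choose j : ℝ) * (j.factorial : ℝ) * ((a - j).factorial : ℝ) := by
    exact_mod_cast h.symm
  rw [h']
  push_cast
  have h1 : (j.factorial : ℝ) ≠ 0 := by positivity
  have h2 : ((a - j).factorial : ℝ) ≠ 0 := by positivity
  have h3 : ((a - j : ℕ) : ℝ) + 1 ≠ 0 := by positivity
  field_simp

theorem rh0 (a : ℕ) : rh 0 a = 1 / ((a : ℝ) + 1) := by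
  rw [rh_eq, Finset.sum_range_succ', Finset.sum_eq_zero fun j _ => by rw [be_zero', zero_div]]
  rw [be_zero, Nat.sub_zero, Nat.factorial_succ]
  push_cast
  have h2 : (a.factorial : ℝ) ≠ 0 := by positivity
  have h3 : (a : ℝ) + 1 ≠ 0 := by positivity
  field_simp
  simp


theorem be1_1 : be 1 1 = 1 := by
  rw [be_succ]
  norm_num [Finset.sum_range_succ, be_zero, Nat.choose]

theorem be1_2 : be 1 2 = 3 / 2 := by
  rw [be_succ]
  norm_num [Finset.sum_range_succ, be_zero, be1_1, Nat.choose]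

theorem be1_3 : be 1 3 = 17 / 6 := by
  rw [be_succ]
  norm_num [Finset.sum_range_succ, be_zero, be1_1, be1_2, Nat.choose]

theorem be1_4 : be 1 4 = 19 / 3 := by
  rw [be_succ]
  norm_num [Finset.sum_range_succ, be_zero, be1_1, be1_2, be1_3, Nat.choose]

theorem be1_5 : be 1 5 = 81 / 5 := by
  rw [be_succ]
  norm_num [Finset.sum_range_succ, be_zero, be1_1, be1_2, be1_3, be1_4, Nat.choose]

theorem be1_6 : be 1 6 = 8351 / 180 := by
  rw [be_succ]
  norm_num [Finset.sum_range_succ, be_zero, be1_1, be1_2, be1_3, be1_4, be1_5, Nat.choose]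

theorem be1_7 : be 1 7 = 184553 / 1260 := by
  rw [be_succ]
  norm_num [Finset.sum_range_succ, be_zero, be1_1, be1_2, be1_3, be1_4, be1_5, be1_6, Nat.choose]

theorem be1_8 : be 1 8 = 52907 / 105 := by
  rw [be_succ]
  norm_num [Finset.sum_range_succ, be_zero, be1_1, be1_2, be1_3, be1_4, be1_5, be1_6, be1_7, Nat.choose]

theorem be1_9 : be 1 9 = 1768847 / 945 := by
  rw [be_succ]
  norm_num [Finset.sum_range_succ, be_zero, be1_1, be1_2, be1_3, be1_4, be1_5, be1_6, be1_7, be1_8, Nat.choose]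

theorem rh1_0 : rh 1 0 * 3780 = 3780 := by
  have h := rh_be 1 0
  norm_num [be1_1] at h
  linarith

theorem rh1_1 : rh 1 1 * 3780 = 5670 := by
  have h := rh_be 1 1
  norm_num [be1_2] at h
  linarith

theorem rh1_2 : rh 1 2 * 3780 = 10710 := by
  have h := rh_be 1 2
  norm_num [be1_3] at h
  linarith

theorem rh1_3 : rh 1 3 * 3780 = 23940 := by
  have h := rh_be 1 3
  norm_num [be1_4] at h
  linarith

theorem rh1_4 : rh 1 4 * 3780 = 61236 := by
  have h := rh_be 1 4
  norm_num [be1_5] at h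
  linarith

theorem rh1_5 : rh 1 5 * 3780 = 175371 := by
  have h := rh_be 1 5
  norm_num [be1_6] at h
  linarith

theorem rh1_6 : rh 1 6 * 3780 = 553659 := by
  have h := rh_be 1 6
  norm_num [be1_7] at h
  linarith

theorem rh1_7 : rh 1 7 * 3780 = 1904652 := by
  have h := rh_be 1 7
  norm_num [be1_8] at h
  linarith

theorem rh1_8 : rh 1 8 * 3780 = 7075388 := by
  have h := rh_be 1 8
  norm_num [be1_9] at h
  linarith

theorem be2_1 : be 2 1 = 2 := by
  rw [be_succ]
  norm_num [Finset.sum_range_succ, be_zero, Nat.choose]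

theorem be2_2 : be 2 2 = 5 := by
  rw [be_succ]
  norm_num [Finset.sum_range_succ, be_zero, be2_1, Nat.choose]

theorem be2_3 : be 2 3 = 44 / 3 := by
  rw [be_succ]
  norm_num [Finset.sum_range_succ, be_zero, be2_1, be2_2, Nat.choose]

theorem be2_4 : be 2 4 = 293 / 6 := by
  rw [be_succ]
  norm_num [Finset.sum_range_succ, be_zero, be2_1, be2_2, be2_3, Nat.choose]

theorem be2_5 : be 2 5 = 2711 / 15 := by
  rw [be_succ]
  norm_num [Finset.sum_range_succ, be_zero, be2_1, be2_2, be2_3, be2_4, Nat.choose]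

theorem be2_6 : be 2 6 = 65947 / 90 := by
  rw [be_succ]
  norm_num [Finset.sum_range_succ, be_zero, be2_1, be2_2, be2_3, be2_4, be2_5, Nat.choose]

theorem be2_7 : be 2 7 = 202808 / 63 := by
  rw [be_succ]
  norm_num [Finset.sum_range_succ, be_zero, be2_1, be2_2, be2_3, be2_4, be2_5, be2_6, Nat.choose]

theorem be2_8 : be 2 8 = 4787053 / 315 := by
  rw [be_succ]
  norm_num [Finset.sum_range_succ, be_zero, be2_1, be2_2, be2_3, be2_4, be2_5, be2_6, be2_7, Nat.choose]

theorem be2_9 : be 2 9 = 72359734 / 945 := by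
  rw [be_succ]
  norm_num [Finset.sum_range_succ, be_zero, be2_1, be2_2, be2_3, be2_4, be2_5, be2_6, be2_7, be2_8, Nat.choose]

theorem rh2_0 : rh 2 0 * 3780 = 3780 := by
  have h := rh_be 2 0
  norm_num [be2_1] at h
  linarith

theorem rh2_1 : rh 2 1 * 3780 = 9450 := by
  have h := rh_be 2 1
  norm_num [be2_2] at h
  linarith

theorem rh2_2 : rh 2 2 * 3780 = 27720 := by
  have h := rh_be 2 2
  norm_num [be2_3] at h
  linarith

theorem rh2_3 : rh 2 3 * 3780 = 92295 := by
  have h := rh_be 2 3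
  norm_num [be2_4] at h
  linarith

theorem rh2_4 : rh 2 4 * 3780 = 341586 := by
  have h := rh_be 2 4
  norm_num [be2_5] at h
  linarith

theorem rh2_5 : rh 2 5 * 3780 = 1384887 := by
  have h := rh_be 2 5
  norm_num [be2_6] at h
  linarith

theorem rh2_6 : rh 2 6 * 3780 = 6084240 := by
  have h := rh_be 2 6
  norm_num [be2_7] at h
  linarith

theorem rh2_7 : rh 2 7 * 3780 = 28722318 := by
  have h := rh_be 2 7
  norm_num [be2_8] at h
  linarith

theorem rh2_8 : rh 2 8 * 3780 = 144719468 := by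
  have h := rh_be 2 8
  norm_num [be2_9] at h
  linarith

theorem be3_1 : be 3 1 = 3 := by
  rw [be_succ]
  norm_num [Finset.sum_range_succ, be_zero, Nat.choose]

theorem be3_2 : be 3 2 = 21 / 2 := by
  rw [be_succ]
  norm_num [Finset.sum_range_succ, be_zero, be3_1, Nat.choose]

theorem be3_3 : be 3 3 = 83 / 2 := by
  rw [be_succ]
  norm_num [Finset.sum_range_succ, be_zero, be3_1, be3_2, Nat.choose]

theorem be3_4 : be 3 4 = 363 / 2 := by
  rw [be_succ]
  norm_num [Finset.sum_range_succ, be_zero, be3_1, be3_2, be3_3, Nat.choose]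

theorem be3_5 : be 3 5 = 8661 / 10 := by
  rw [be_succ]
  norm_num [Finset.sum_range_succ, be_zero, be3_1, be3_2, be3_3, be3_4, Nat.choose]

theorem be3_6 : be 3 6 = 22314 / 5 := by
  rw [be_succ]
  norm_num [Finset.sum_range_succ, be_zero, be3_1, be3_2, be3_3, be3_4, be3_5, Nat.choose]

theorem be3_7 : be 3 7 = 862128 / 35 := by
  rw [be_succ]
  norm_num [Finset.sum_range_succ, be_zero, be3_1, be3_2, be3_3, be3_4, be3_5, be3_6, Nat.choose]

theorem be3_8 : be 3 8 = 5064489 / 35 := by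
  rw [be_succ]
  norm_num [Finset.sum_range_succ, be_zero, be3_1, be3_2, be3_3, be3_4, be3_5, be3_6, be3_7, Nat.choose]

theorem be3_9 : be 3 9 = 13499111 / 15 := by
  rw [be_succ]
  norm_num [Finset.sum_range_succ, be_zero, be3_1, be3_2, be3_3, be3_4, be3_5, be3_6, be3_7, be3_8, Nat.choose]

theorem rh3_0 : rh 3 0 * 630 = 630 := by
  have h := rh_be 3 0
  norm_num [be3_1] at h
  linarith

theorem rh3_1 : rh 3 1 * 630 = 2205 := by
  have h := rh_be 3 1
  norm_num [be3_2] at h
  linarith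

theorem rh3_2 : rh 3 2 * 630 = 8715 := by
  have h := rh_be 3 2
  norm_num [be3_3] at h
  linarith

theorem rh3_3 : rh 3 3 * 630 = 38115 := by
  have h := rh_be 3 3
  norm_num [be3_4] at h
  linarith

theorem rh3_4 : rh 3 4 * 630 = 181881 := by
  have h := rh_be 3 4
  norm_num [be3_5] at h
  linarith

theorem rh3_5 : rh 3 5 * 630 = 937188 := by
  have h := rh_be 3 5
  norm_num [be3_6] at h
  linarith

theorem rh3_6 : rh 3 6 * 630 = 5172768 := by
  have h := rh_be 3 6
  norm_num [be3_7] at h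
  linarith

theorem rh3_7 : rh 3 7 * 630 = 30386934 := by
  have h := rh_be 3 7
  norm_num [be3_8] at h
  linarith

theorem rh3_8 : rh 3 8 * 630 = 188987554 := by
  have h := rh_be 3 8
  norm_num [be3_9] at h
  linarith

theorem be4_1 : be 4 1 = 4 := by
  rw [be_succ]
  norm_num [Finset.sum_range_succ, be_zero, Nat.choose]

theorem be4_2 : be 4 2 = 18 := by
  rw [be_succ]
  norm_num [Finset.sum_range_succ, be_zero, be4_1, Nat.choose]

theorem be4_3 : be 4 3 = 268 / 3 := by
  rw [be_succ]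
  norm_num [Finset.sum_range_succ, be_zero, be4_1, be4_2, Nat.choose]

theorem be4_4 : be 4 4 = 1447 / 3 := by
  rw [be_succ]
  norm_num [Finset.sum_range_succ, be_zero, be4_1, be4_2, be4_3, Nat.choose]

theorem be4_5 : be 4 5 = 14024 / 5 := by
  rw [be_succ]
  norm_num [Finset.sum_range_succ, be_zero, be4_1, be4_2, be4_3, be4_4, Nat.choose]

theorem be4_6 : be 4 6 = 784364 / 45 := by
  rw [be_succ]
  norm_num [Finset.sum_range_succ, be_zero, be4_1, be4_2, be4_3, be4_4, be4_5, Nat.choose]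

theorem be4_7 : be 4 7 = 36239096 / 315 := by
  rw [be_succ]
  norm_num [Finset.sum_range_succ, be_zero, be4_1, be4_2, be4_3, be4_4, be4_5, be4_6, Nat.choose]

theorem be4_8 : be 4 8 = 168501743 / 210 := by
  rw [be_succ]
  norm_num [Finset.sum_range_succ, be_zero, be4_1, be4_2, be4_3, be4_4, be4_5, be4_6, be4_7, Nat.choose]

theorem be4_9 : be 4 9 = 5564843834 / 945 := by
  rw [be_succ]
  norm_num [Finset.sum_range_succ, be_zero, be4_1, be4_2, be4_3, be4_4, be4_5, be4_6, be4_7, be4_8, Nat.choose]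

theorem rh4_0 : rh 4 0 * 7560 = 7560 := by
  have h := rh_be 4 0
  norm_num [be4_1] at h
  linarith

theorem rh4_1 : rh 4 1 * 7560 = 34020 := by
  have h := rh_be 4 1
  norm_num [be4_2] at h
  linarith

theorem rh4_2 : rh 4 2 * 7560 = 168840 := by
  have h := rh_be 4 2
  norm_num [be4_3] at h
  linarith

theorem rh4_3 : rh 4 3 * 7560 = 911610 := by
  have h := rh_be 4 3
  norm_num [be4_4] at h
  linarith

theorem rh4_4 : rh 4 4 * 7560 = 5301072 := by
  have h := rh_be 4 4
  norm_num [be4_5] at h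
  linarith

theorem rh4_5 : rh 4 5 * 7560 = 32943288 := by
  have h := rh_be 4 5
  norm_num [be4_6] at h
  linarith

theorem rh4_6 : rh 4 6 * 7560 = 217434576 := by
  have h := rh_be 4 6
  norm_num [be4_7] at h
  linarith

theorem rh4_7 : rh 4 7 * 7560 = 1516515687 := by
  have h := rh_be 4 7
  norm_num [be4_8] at h
  linarith

theorem rh4_8 : rh 4 8 * 7560 = 11129687668 := by
  have h := rh_be 4 8
  norm_num [be4_9] at h
  linarith

end ILR

theorem prfLR : claimLR := by
  intro a ha
  refine ⟨?_, ?_, ?_, ?_, ?_⟩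
  · rw [ILR.rh0]
    interval_cases a <;> norm_num [show nthN cl30.fz 0 = 2520 from rfl, show nthN cl30.fz 1 = 1260 from rfl, show nthN cl30.fz 2 = 840 from rfl, show nthN cl30.fz 3 = 630 from rfl, show nthN cl30.fz 4 = 504 from rfl, show nthN cl30.fz 5 = 420 from rfl, show nthN cl30.fz 6 = 360 from rfl, show nthN cl30.fz 7 = 315 from rfl, show nthN cl30.fz 8 = 280 from rfl]
  · interval_cases a
    · rw [show nthN cl31.fz 0 = 3780 from rfl, ILR.rh1_0]
      norm_num
    · rw [show nthN cl31.fz 1 = 5670 from rfl, ILR.rh1_1]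
      norm_num
    · rw [show nthN cl31.fz 2 = 10710 from rfl, ILR.rh1_2]
      norm_num
    · rw [show nthN cl31.fz 3 = 23940 from rfl, ILR.rh1_3]
      norm_num
    · rw [show nthN cl31.fz 4 = 61236 from rfl, ILR.rh1_4]
      norm_num
    · rw [show nthN cl31.fz 5 = 175371 from rfl, ILR.rh1_5]
      norm_num
    · rw [show nthN cl31.fz 6 = 553659 from rfl, ILR.rh1_6]
      norm_num
    · rw [show nthN cl31.fz 7 = 1904652 from rfl, ILR.rh1_7]
      norm_num
    · rw [show nthN cl31.fz 8 = 7075388 from rfl, ILR.rh1_8]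
      norm_num
  · interval_cases a
    · rw [show nthN cl32.fz 0 = 3780 from rfl, ILR.rh2_0]
      norm_num
    · rw [show nthN cl32.fz 1 = 9450 from rfl, ILR.rh2_1]
      norm_num
    · rw [show nthN cl32.fz 2 = 27720 from rfl, ILR.rh2_2]
      norm_num
    · rw [show nthN cl32.fz 3 = 92295 from rfl, ILR.rh2_3]
      norm_num
    · rw [show nthN cl32.fz 4 = 341586 from rfl, ILR.rh2_4]
      norm_num
    · rw [show nthN cl32.fz 5 = 1384887 from rfl, ILR.rh2_5]
      norm_num
    · rw [show nthN cl32.fz 6 = 6084240 from rfl, ILR.rh2_6]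
      norm_num
    · rw [show nthN cl32.fz 7 = 28722318 from rfl, ILR.rh2_7]
      norm_num
    · rw [show nthN cl32.fz 8 = 144719468 from rfl, ILR.rh2_8]
      norm_num
  · interval_cases a
    · rw [show nthN cl33.fz 0 = 630 from rfl, ILR.rh3_0]
      norm_num
    · rw [show nthN cl33.fz 1 = 2205 from rfl, ILR.rh3_1]
      norm_num
    · rw [show nthN cl33.fz 2 = 8715 from rfl, ILR.rh3_2]
      norm_num
    · rw [show nthN cl33.fz 3 = 38115 from rfl, ILR.rh3_3]
      norm_num
    · rw [show nthN cl33.fz 4 = 181881 from rfl, ILR.rh3_4]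
      norm_num
    · rw [show nthN cl33.fz 5 = 937188 from rfl, ILR.rh3_5]
      norm_num
    · rw [show nthN cl33.fz 6 = 5172768 from rfl, ILR.rh3_6]
      norm_num
    · rw [show nthN cl33.fz 7 = 30386934 from rfl, ILR.rh3_7]
      norm_num
    · rw [show nthN cl33.fz 8 = 188987554 from rfl, ILR.rh3_8]
      norm_num
  · interval_cases a
    · rw [show nthN cl34.fz 0 = 7560 from rfl, ILR.rh4_0]
      norm_num
    · rw [show nthN cl34.fz 1 = 34020 from rfl, ILR.rh4_1]
      norm_num
    · rw [show nthN cl34.fz 2 = 168840 from rfl, ILR.rh4_2]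
      norm_num
    · rw [show nthN cl34.fz 3 = 911610 from rfl, ILR.rh4_3]
      norm_num
    · rw [show nthN cl34.fz 4 = 5301072 from rfl, ILR.rh4_4]
      norm_num
    · rw [show nthN cl34.fz 5 = 32943288 from rfl, ILR.rh4_5]
      norm_num
    · rw [show nthN cl34.fz 6 = 217434576 from rfl, ILR.rh4_6]
      norm_num
    · rw [show nthN cl34.fz 7 = 1516515687 from rfl, ILR.rh4_7]
      norm_num
    · rw [show nthN cl34.fz 8 = 11129687668 from rfl, ILR.rh4_8]
      norm_num

end Pool.Agent.Work.MP_122e00_nt.Four.Cx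

end

section

set_option autoImplicit false

/-!
# The certificate for four parts: rules for the top of the tree
-/

namespace Pool.Agent.Work.MP_122e00_nt.Four.Cx

open Finset MeasureTheory

open scoped ENNReal

open Gen Sharp Sharp.Cx

noncomputable section

/-- The bound for a valid simplex. -/
def Ok (k : ℕ) (Dn : (Fin (k + 4) → ℝ) → ℝ) (S : List (List ℕ)) (m G r : ℕ) :
    Prop := Sv k S → Inv k S m G → Bd k Dn S r

theorem bd_mono (k : ℕ) (Dn : (Fin (k + 4) → ℝ) → ℝ) (S : List (List ℕ)) (r r' : ℕ) (h : r ≤ r')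
    (hb : Bd k Dn S r) : Bd k Dn S r' := by
  unfold Bd at hb ⊢
  refine hb.trans (ENNReal.ofReal_le_ofReal ?_)
  have h1 : (r : ℝ) ≤ (r' : ℝ) := by exact_mod_cast h
  have h2 : (0 : ℝ) ≤ (Sc : ℝ) := Nat.cast_nonneg _
  exact div_le_div_of_nonneg_right h1 h2

theorem ok_run (k : ℕ) (Dn : (Fin (k + 4) → ℝ) → ℝ) (cls : ℕ → Cl) (hG5 : claimG5)
    (hD : Dom k Dn cls) (c : Ct) (S : List (List ℕ)) (m G r : ℕ)
    (h : le (run cls k c S m G) r = true) : Ok k Dn S m G r := by
  intro hS hI
  generalize hr : run cls k c S m G = o at h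
  cases o with
  | none => exact absurd (show false = true from h) Bool.false_ne_true
  | some x =>
    have hx : x ≤ r := Nat.le_of_ble_eq_true h
    exact bd_mono k Dn S x r hx (hG5 k Dn cls hD c S m G x hS hI hr)

/-- The test for a cut. -/
def ckc (k i j A B g : ℕ) (S S1 S2 : List (List ℕ)) (r1 r2 r : ℕ) : Prop :=
  i < j ∧ j < k + 4 ∧ A * sm (nth S i) ≠ 0 ∧ B * sm (nth S j) ≠ 0 ∧
    chk A B g (nth S i) (nth S j) (cmb A B g (nth S i) (nth S j)) = true ∧
    setn (cmb A B g (nth S i) (nth S j)) i S = S1 ∧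
    setn (cmb A B g (nth S i) (nth S j)) j S = S2 ∧
    A * sm (nth S i) * r1 + B * sm (nth S j) * r2 ≤ (A * sm (nth S i) + B * sm (nth S j)) * r

instance (k i j A B g : ℕ) (S S1 S2 : List (List ℕ)) (r1 r2 r : ℕ) :
    Decidable (ckc k i j A B g S S1 S2 r1 r2 r) := by
  unfold ckc
  infer_instance

theorem ok_cut (hI6 : Sharp.claimI6) (hG4 : claimG4) (k : ℕ) (Dn : (Fin (k + 4) → ℝ) → ℝ)
    (hD : Measurable Dn) (i j A B g : ℕ) (S S1 S2 : List (List ℕ)) (m G r1 r2 r : ℕ)
    (h : ckc k i j A B g S S1 S2 r1 r2 r) (h1 : Ok k Dn S1 m G r1) (h2 : Ok k Dn S2 m G r2) :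
    Ok k Dn S m G r := by
  intro hS hI
  obtain ⟨c1, c2, c3, c4, c5, c6, c7, c8⟩ := h
  obtain ⟨d1, d2, d3, d4⟩ := hG4 k S i j A B g hS c1 c2 c3 c4 c5
  rw [c6, c7] at d3
  rw [c6] at d1
  rw [c7] at d2
  have b1 := h1 d1 (d3 m G hI).1
  have b2 := h2 d2 (d3 m G hI).2
  unfold Bd at b1 b2 ⊢
  have e := d4 _ (IG5.meas hI6 k Dn hD)
  rw [c6, c7] at e
  set a : ℕ := A * sm (nth S i) with ha
  set b : ℕ := B * sm (nth S j) with hb
  have ha0 : (0 : ℝ) < (a : ℝ) := by exact_mod_cast Nat.pos_of_ne_zero c3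
  have hb0 : (0 : ℝ) < (b : ℝ) := by exact_mod_cast Nat.pos_of_ne_zero c4
  have hSc : (0 : ℝ) < (Sc : ℝ) := by norm_num [Sc]
  have c8' : (a : ℝ) * r1 + (b : ℝ) * r2 ≤ ((a : ℝ) + b) * r := by exact_mod_cast c8
  calc Chamber.EV (pts (k + 3) S) (fun p => ENNReal.ofReal (Dn p *
        pg 128 (4 ^ k) (Pl (g4 0) (px (k := k) p) (ph (k := k) p))))
      = _ := e
    _ ≤ ENNReal.ofReal ((a : ℝ) / (a + b)) * ENNReal.ofReal ((r1 : ℝ) / (Sc : ℝ)) +
        ENNReal.ofReal ((b : ℝ) / (a + b)) * ENNReal.ofReal ((r2 : ℝ) / (Sc : ℝ)) := by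
        gcongr
    _ = ENNReal.ofReal ((a : ℝ) / (a + b) * ((r1 : ℝ) / (Sc : ℝ)) +
        (b : ℝ) / (a + b) * ((r2 : ℝ) / (Sc : ℝ))) := by
        rw [ENNReal.ofReal_add (by positivity) (by positivity), ENNReal.ofReal_mul (by positivity),
          ENNReal.ofReal_mul (by positivity)]
    _ ≤ ENNReal.ofReal ((r : ℝ) / (Sc : ℝ)) := by
        refine ENNReal.ofReal_le_ofReal ?_
        have : (a : ℝ) / (a + b) * ((r1 : ℝ) / (Sc : ℝ)) + (b : ℝ) / (a + b) * ((r2 : ℝ) / (Sc : ℝ))
            = ((a : ℝ) * r1 + b * r2) / (a + b) / Sc := by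
          field_simp
        rw [this]
        refine div_le_div_of_nonneg_right ?_ hSc.le
        rw [div_le_iff₀ (by positivity)]
        linarith

/-- The test for a decision. -/
def ckd (k q F st : ℕ) (S : List (List ℕ)) (m m' G G' : ℕ) : Prop :=
  q < 4 ∧ F < 2 ^ k ∧ m / 2 ^ (q * 2 ^ k + F) % 2 = 0 ∧ m' = m + 2 ^ (q * 2 ^ k + F) ∧
    ((st = 1 ∧ allL (geb (uv k q F)) S = true ∧ G' = G + wtf k F) ∨
      (st = 0 ∧ allL (leb (uv k q F)) S = true ∧ allL (geb (uv k q F)) S = false ∧ G' = G))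

instance (k q F st : ℕ) (S : List (List ℕ)) (m m' G G' : ℕ) :
    Decidable (ckd k q F st S m m' G G') := by
  unfold ckd
  infer_instance

theorem ok_dec (hG3 : claimG3) (k : ℕ) (Dn : (Fin (k + 4) → ℝ) → ℝ) (q F st : ℕ)
    (S : List (List ℕ)) (m m' G G' r : ℕ) (h : ckd k q F st S m m' G G') (h1 : Ok k Dn S m' G' r) :
    Ok k Dn S m G r := by
  intro hS hI
  obtain ⟨c1, c2, c3, c4, c5⟩ := h
  obtain ⟨g1, g2⟩ := hG3 k S m G q F hS hI c1 c2 c3
  refine h1 hS ?_
  rw [c4]
  rcases c5 with ⟨-, c5, c6⟩ | ⟨-, c5, c6, c7⟩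
  · rw [c6]
    exact g1 c5
  · rw [c7]
    exact g2 c5 c6

/-- The density with three visible marks. -/
def Dn3 (p : Fin (3 + 4) → ℝ) : ℝ := Pm (k := 2) 11 p

/-- The density with one mark. -/
def Dn1 (p : Fin (1 + 4) → ℝ) : ℝ := Qs 1 11 (px (k := 1) p)

/-- The density with two marks. -/
def Dn2 (p : Fin (2 + 4) → ℝ) : ℝ := Qs 2 11 (px (k := 2) p)

theorem dom1 (hCV : claimCV) (hC9 : claimC9) (hLA : claimLA) : Dom 1 Dn1 cls1 := by
  have h : Dn1 = dpoly 1 cl1 := by
    funext p
    exact (hLA.1 p).symm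
  refine ⟨?_, fun _ => ⟨hCV.1, fun p hp _ => ?_⟩⟩
  · rw [h]
    exact (hC9.1 1 cl1).measurable
  · rw [h]
    exact ⟨hC9.2.1 1 cl1 p hp, le_rfl⟩

theorem dom2 (hCV : claimCV) (hC9 : claimC9) (hLA : claimLA) : Dom 2 Dn2 cls2 := by
  have h : Dn2 = dpoly 2 cl2 := by
    funext p
    exact (hLA.2 p).symm
  refine ⟨?_, fun _ => ⟨hCV.2.1, fun p hp _ => ?_⟩⟩
  · rw [h]
    exact (hC9.1 2 cl2).measurable
  · rw [h]
    exact ⟨hC9.2.1 2 cl2 p hp, le_rfl⟩

theorem Dn3_eq (hLB : claimLB) : Dn3 = fun p => min (min (min (dpoly 3 cl30 p) (dpoly 3 cl31 p))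
    (min (dpoly 3 cl32 p) (dpoly 3 cl33 p))) (dpoly 3 cl34 p) := by
  funext p
  obtain ⟨h0, h1, h2, h3, h4⟩ := hLB p
  show min (min (min (Pb (k := 2) 11 0 p) (Pb (k := 2) 11 1 p))
    (min (Pb (k := 2) 11 2 p) (Pb (k := 2) 11 3 p))) (Pb (k := 2) 11 4 p) = _
  rw [← h0, ← h1, ← h2, ← h3, ← h4]

theorem dom3 (hCV : claimCV) (hC9 : claimC9) (hLB : claimLB) : Dom 3 Dn3 cls3 := by
  obtain ⟨-, -, v0, v1, v2, v3, v4⟩ := hCV
  have hpos := hC9.2.1
  refine ⟨?_, fun b => ?_⟩
  · rw [Dn3_eq hLB]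
    exact ((((hC9.1 3 cl30).min (hC9.1 3 cl31)).min
      ((hC9.1 3 cl32).min (hC9.1 3 cl33))).min (hC9.1 3 cl34)).measurable
  · have h0 : ∀ p : Fin (3 + 4) → ℝ, (∀ i, 0 ≤ p i) → 0 ≤ Dn3 p := by
      intro p hp
      rw [Dn3_eq hLB]
      exact le_min (le_min (le_min (hpos 3 cl30 p hp) (hpos 3 cl31 p hp))
        (le_min (hpos 3 cl32 p hp) (hpos 3 cl33 p hp))) (hpos 3 cl34 p hp)
    rcases b with _ | _ | _ | _ | b
    · refine ⟨v0, fun p hp _ => ⟨h0 p hp, ?_⟩⟩
      rw [Dn3_eq hLB]
      exact ((min_le_left _ _).trans (min_le_left _ _)).trans (min_le_left _ _)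
    · refine ⟨v1, fun p hp _ => ⟨h0 p hp, ?_⟩⟩
      rw [Dn3_eq hLB]
      exact ((min_le_left _ _).trans (min_le_left _ _)).trans (min_le_right _ _)
    · refine ⟨v2, fun p hp _ => ⟨h0 p hp, ?_⟩⟩
      rw [Dn3_eq hLB]
      exact ((min_le_left _ _).trans (min_le_right _ _)).trans (min_le_left _ _)
    · refine ⟨v3, fun p hp _ => ⟨h0 p hp, ?_⟩⟩
      rw [Dn3_eq hLB]
      exact ((min_le_left _ _).trans (min_le_right _ _)).trans (min_le_right _ _)
    · refine ⟨v4, fun p hp _ => ⟨h0 p hp, ?_⟩⟩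
      rw [Dn3_eq hLB]
      exact min_le_right _ _

end

end Pool.Agent.Work.MP_122e00_nt.Four.Cx

end
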