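import Pool.Agent.Work.MP_122e00_nt.Gen.Stmts2
import Pool.Agent.Work.MP_122e00_nt.Bd.B42
import Pool.Agent.Work.MP_122e00_nt.Bd.B44
import Pool.Agent.Work.MP_122e00_nt.Two.ItemT8
import Pool.Agent.Work.MP_122e00_nt.Sharp.Cert.ItemG4
import Pool.Agent.Work.MP_122e00_nt.Bdx.B05
import Pool.Agent.Work.MP_122e00_nt.Bd.B57
import Pool.Agent.Work.MP_122e00_nt.Bd.B52
import Pool.Agent.Work.MP_122e00_nt.Gen.Main
import Pool.Agent.Work.MP_122e00_nt.Sharp.Cert.ItemC1
import Pool.Agent.Work.MP_122e00_nt.Bd.B53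
import Pool.Agent.Work.MP_122e00_nt.Bd.B54
import Pool.Agent.Work.MP_122e00_nt.Bdx.B04
import Pool.Agent.Work.MP_122e00_nt.Gen.ItemN0
import Pool.Agent.Work.MP_122e00_nt.Bd.B48
import Pool.Agent.Work.MP_122e00_nt.Gen.ItemE6
import Pool.Agent.Work.MP_122e00_nt.Gen.ItemE8
import Pool.Agent.Work.MP_122e00_nt.Gen.ItemE9

/-! Bundle of small proof modules (one section per former module). -/

section

/-! Bundle of small proof modules (one section per former module). -/

section

set_option autoImplicit false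

/-!
# Item E0: factorisations of `p₁ ⋯ p_j m`
-/

namespace Pool.Agent.Work.MP_122e00_nt.Gen

open Finset Filter Topology MeasureTheory Two

namespace IE0

/-- One prime. -/
theorem one_prime (L : ℝ) (s m p : ℕ) (g : (Fin (s + 1) → ℝ) → ℝ) (hm : m ≠ 0) (hp : p.Prime)
    (hpm : ¬ p ∣ m) :
    ∑ v ∈ Nat.finMulAntidiag (s + 1) (p * m), g (fun i => Real.log (v i) / L) =
      ∑ w ∈ Nat.finMulAntidiag (s + 1) m, ∑ i,
        g (ad (fun i => Real.log (w i) / L) i (Real.log p / L)) := by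
  classical
  rw [← Finset.sum_product']
  symm
  refine Finset.sum_nbij (fun a => Function.update a.1 a.2 (p * a.1 a.2)) ?_ ?_ ?_ ?_
  · rintro ⟨w, i⟩ hw
    rw [Finset.mem_product, Nat.mem_finMulAntidiag] at hw
    rw [Nat.mem_finMulAntidiag]
    refine ⟨?_, mul_ne_zero hp.ne_zero hm⟩
    rw [Finset.prod_update_of_mem (Finset.mem_univ _), ← hw.1.1, mul_assoc]
    congr 1
    rw [← Finset.mul_prod_erase Finset.univ _ (Finset.mem_univ i), Finset.sdiff_singleton_eq_erase]
  · rintro ⟨w, i⟩ hw ⟨w', i'⟩ hw' h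
    simp only [Finset.coe_product, Set.mem_prod, Finset.mem_coe, Nat.mem_finMulAntidiag] at hw hw'
    dsimp only at h
    have hii : i = i' := by
      by_contra hne
      have h1 := congrFun h i
      rw [Function.update_self, Function.update_of_ne hne] at h1
      apply hpm
      rw [← hw'.1.1]
      exact (Dvd.intro _ h1).trans (Finset.dvd_prod_of_mem _ (Finset.mem_univ i))
    subst hii
    have hww : w = w' := by
      funext j
      have h1 := congrFun h j
      by_cases hj : j = i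
      · subst hj
        rw [Function.update_self, Function.update_self] at h1
        exact Nat.eq_of_mul_eq_mul_left hp.pos h1
      · rwa [Function.update_of_ne hj, Function.update_of_ne hj] at h1
    rw [hww]
  · intro v hv
    rw [Finset.mem_coe, Nat.mem_finMulAntidiag] at hv
    have h1 : p ∣ ∏ i, v i := by
      rw [hv.1]
      exact dvd_mul_right _ _
    obtain ⟨i, -, hi⟩ := (hp.prime.dvd_finsetProd_iff _).1 h1
    obtain ⟨e, he⟩ := hi
    refine ⟨(Function.update v i e, i), ?_, ?_⟩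
    · simp only [Finset.coe_product, Set.mem_prod, Finset.mem_coe, Nat.mem_finMulAntidiag]
      refine ⟨⟨?_, hm⟩, Finset.mem_univ _⟩
      refine Nat.eq_of_mul_eq_mul_left hp.pos ?_
      rw [← hv.1, Finset.prod_update_of_mem (Finset.mem_univ _), ← mul_assoc, ← he,
        ← Finset.mul_prod_erase Finset.univ _ (Finset.mem_univ i),
        Finset.sdiff_singleton_eq_erase]
    · dsimp only
      rw [Function.update_self, Function.update_idem, ← he, Function.update_eq_self]
  · rintro ⟨w, i⟩ hw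
    rw [Finset.mem_product, Nat.mem_finMulAntidiag] at hw
    have hwi : w i ≠ 0 := by
      intro h0
      apply hm
      rw [← hw.1.1]
      exact Finset.prod_eq_zero (Finset.mem_univ i) h0
    dsimp only
    congr 1
    funext q
    unfold ad
    by_cases hq : q = i
    · subst hq
      rw [if_pos rfl, Function.update_self]
      push_cast
      rw [Real.log_mul (by exact_mod_cast hp.ne_zero) (by exact_mod_cast hwi)]
      ring
    · rw [if_neg hq, Function.update_of_ne hq]

/-- Placements commute with adding a mark. -/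
theorem Pl_ad {s k : ℕ} (g : (Fin (s + 1) → ℝ) → ℝ) (x : Fin k → ℝ) (t : ℝ)
    (v : Fin (s + 1) → ℝ) :
    Pl (fun w => ∑ i, g (ad w i t)) x v = ∑ i, Pl g x (ad v i t) := by
  unfold Pl
  rw [Finset.sum_comm]
  refine Finset.sum_congr rfl fun i _ => Finset.sum_congr rfl fun c _ => ?_
  congr 1
  funext q
  unfold ad
  by_cases hq : q = i
  · rw [if_pos hq, if_pos hq]
    ring
  · rw [if_neg hq, if_neg hq]

end IE0

theorem prfE0 : claimE0 := by
  intro L s j m p g hL hm hp hinj hdiv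
  simp only [TS]
  induction j generalizing g with
  | zero =>
    refine Finset.sum_congr (by simp) fun v _ => ?_
    unfold Pl
    simp
  | succ j ih =>
    have e1 : (∏ i, p i) * m = p (Fin.last j) * ((∏ i : Fin j, p i.castSucc) * m) := by
      rw [Fin.prod_univ_castSucc]
      ring
    have hnd : ¬ p (Fin.last j) ∣ (∏ i : Fin j, p i.castSucc) * m := by
      intro h
      rcases (hp (Fin.last j)).prime.dvd_or_dvd h with h | h
      · obtain ⟨i, -, hi⟩ := ((hp (Fin.last j)).prime.dvd_finsetProd_iff _).1 h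
        have h2 := (Nat.prime_dvd_prime_iff_eq (hp _) (hp _)).1 hi
        exact absurd (hinj h2) (Fin.castSucc_lt_last i).ne'
      · exact hdiv _ h
    have hm' : (∏ i : Fin j, p i.castSucc) * m ≠ 0 :=
      mul_ne_zero (Finset.prod_ne_zero_iff.2 fun i _ => (hp _).ne_zero) hm
    rw [e1, IE0.one_prime L s _ _ g hm' (hp _) hnd,
      ih (fun i => p i.castSucc) (fun w => ∑ i, g (ad w i (Real.log (p (Fin.last j)) / L)))
        (fun i => hp _) (fun a b h => Fin.castSucc_injective _ (hinj h)) (fun i => hdiv _)]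
    refine Finset.sum_congr rfl fun v _ => ?_
    rw [IE0.Pl_ad, prfB0 s j g]
    rfl

end Pool.Agent.Work.MP_122e00_nt.Gen

end

section

set_option autoImplicit false

/-!
# Item E1: if `j` primes of `n` have total size at least `c`, then `d n ≤ (r ^ j / w₀) W n`
-/

namespace Pool.Agent.Work.MP_122e00_nt.Gen

open Finset Filter Topology MeasureTheory Two

namespace IE1

theorem Pl_one {s k : ℕ} (x : Fin k → ℝ) (v : Fin (s + 1) → ℝ) :
    Pl (fun _ => 1) x v = ((s : ℝ) + 1) ^ k := by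
  unfold Pl
  simp

theorem Pl_mono {s k : ℕ} (g g' : (Fin (s + 1) → ℝ) → ℝ) (w₀ : ℝ) (h : ∀ u, w₀ * g u ≤ g' u)
    (x : Fin k → ℝ) (v : Fin (s + 1) → ℝ) : w₀ * Pl g x v ≤ Pl g' x v := by
  unfold Pl
  rw [Finset.mul_sum]
  exact Finset.sum_le_sum fun c _ => h _

theorem gs_mono {s : ℕ} (θ w₀ : ℝ) (ψ : (Fin s → ℝ) → ℝ) (hψ : Wt s θ ψ)
    (hw : ∀ y, (∀ i, 0 ≤ y i) → ∑ i, y i ≤ 1 / 2 - θ → w₀ ≤ ψ y) (u : Fin (s + 1) → ℝ) :
    w₀ * gs (ps s θ) u ≤ gs ψ u := by
  unfold gs
  rw [Finset.mul_sum]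
  refine Finset.sum_le_sum fun i _ => ?_
  unfold ps
  by_cases h : (fun j => u (i.succAbove j)) ∈
      {y : Fin s → ℝ | (∀ i, 0 ≤ y i) ∧ ∑ i, y i ≤ 1 / 2 - θ}
  · rw [Set.indicator_of_mem h, mul_one]
    exact hw _ h.1 h.2
  · rw [Set.indicator_of_notMem h, mul_zero]
    exact hψ.nonneg _

end IE1

theorem prfE1 : claimE0 → claimE1 := by
  intro hE0 s θ c w₀ ψ hs hθ hθ' hc hψ hw₀ hw L η n j hL hn hlog hbad hη P hP hcard hsum
  subst hcard
  set e := P.equivFin.symm with he
  set q : Fin P.card → ℕ := fun i => (e i : ℕ) with hq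
  have hsumq : ∀ f : ℕ → ℝ, ∑ i, f (q i) = ∑ p ∈ P, f p := fun f =>
    (e.sum_comp (fun x : P => f x)).trans (Finset.sum_coe_sort P f)
  have hprodq : ∏ i, q i = ∏ p ∈ P, p :=
    (e.prod_comp (fun x : P => (x : ℕ))).trans (Finset.prod_coe_sort P fun p => p)
  have hmem : ∀ i, q i ∈ LP η L n := fun i => hP (e i).2
  have hprime : ∀ i, (q i).Prime := fun i =>
    Nat.prime_of_mem_primeFactors (Finset.mem_filter.1 (hmem i)).1
  have hbig : ∀ i, η < Real.log (q i) / L := fun i => (Finset.mem_filter.1 (hmem i)).2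
  have hinj : Function.Injective q := fun a b h => e.injective (Subtype.ext h)
  have hdvd : ∏ p ∈ P, p ∣ n := by
    refine Finset.prod_primes_dvd n (fun p hp => ?_) (fun p hp => ?_)
    · exact (Nat.prime_of_mem_primeFactors (Finset.mem_filter.1 (hP hp)).1).prime
    · exact Nat.dvd_of_mem_primeFactors (Finset.mem_filter.1 (hP hp)).1
  rw [← hprodq] at hdvd
  obtain ⟨m, hm⟩ := hdvd
  have hm0 : m ≠ 0 := by
    rintro rfl
    exact hn (by rw [hm, mul_zero])
  have hnd : ∀ i, ¬ q i ∣ m := by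
    intro i hi
    apply hbad
    refine ⟨q i, 2, hprime i, le_refl _, ?_, ?_⟩
    · rw [hm, pow_two]
      exact mul_dvd_mul (Finset.dvd_prod_of_mem _ (Finset.mem_univ i)) hi
    · push_cast
      rw [Real.log_pow]
      have h1 := hbig i
      have h2 : Real.log (q i) / L ≤ ((2 : ℕ) : ℝ) * Real.log (q i) / L := by
        have h3 : 0 ≤ Real.log (q i) / L := div_nonneg (Real.log_natCast_nonneg _) hL.le
        push_cast
        rw [mul_div_assoc]
        linarith
      exact h1.trans_le h2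
  set x : Fin P.card → ℝ := fun i => Real.log (q i) / L with hx
  have hx0 : ∀ i, 0 ≤ x i := fun i => div_nonneg (Real.log_natCast_nonneg _) hL.le
  have key : ∀ g : (Fin (s + 1) → ℝ) → ℝ, TS L s 0 n (fun _ v => g v) =
      ∑ v ∈ Nat.finMulAntidiag (s + 1) m, Pl g x (fun i => Real.log (v i) / L) := by
    intro g
    rw [hm, hE0 L s P.card m q g hL hm0 hprime hinj hnd]
    rfl
  have hdv : dv s n = ∑ v ∈ Nat.finMulAntidiag (s + 1) m, ((s : ℝ) + 1) ^ P.card := by
    unfold dv
    rw [← prfB3.2 L s n hn, key (fun _ => 1)]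
    exact Finset.sum_congr rfl fun v _ => IE1.Pl_one _ _
  have hWn : Wn s ψ L n =
      ∑ v ∈ Nat.finMulAntidiag (s + 1) m, Pl (gs ψ) x (fun i => Real.log (v i) / L) :=
    key (gs ψ)
  rw [hdv, hWn, Finset.sum_mul, Finset.mul_sum]
  refine Finset.sum_le_sum fun v hv => mul_le_mul_of_nonneg_left ?_ (by positivity)
  rw [Nat.mem_finMulAntidiag] at hv
  have hv0 : ∀ i, v i ≠ 0 := by
    intro i hi
    apply hm0
    rw [← hv.1]
    exact Finset.prod_eq_zero (Finset.mem_univ i) hi
  have hsumx : ∑ i, x i = ∑ p ∈ P, Real.log p / L := hsumq fun p => Real.log p / L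
  have htot : ∑ i, x i + ∑ i, Real.log (v i) / L = Real.log n / L := by
    rw [hx, ← Finset.sum_div, ← Finset.sum_div, ← add_div]
    congr 1
    rw [hm]
    push_cast
    rw [Real.log_mul (by exact_mod_cast Finset.prod_ne_zero_iff.2 fun i _ => (hprime i).ne_zero)
      (by exact_mod_cast hm0), Real.log_prod (fun i _ => by exact_mod_cast (hprime i).ne_zero),
      ← hv.1]
    push_cast
    rw [Real.log_prod (fun i _ => by exact_mod_cast hv0 i)]
  have h4 := prfB4 s P.card θ hs hθ hθ' x (fun i => Real.log (v i) / L) hx0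
    (fun i => div_nonneg (Real.log_natCast_nonneg _) hL.le) (by rw [htot]; exact hlog)
    (by rw [hsumx, ← hc]; exact hsum)
  calc w₀ = w₀ * 1 := (mul_one _).symm
    _ ≤ w₀ * Pl (gs (ps s θ)) x (fun i => Real.log (v i) / L) :=
        mul_le_mul_of_nonneg_left h4 hw₀.le
    _ ≤ Pl (gs ψ) x (fun i => Real.log (v i) / L) :=
        IE1.Pl_mono _ _ w₀ (IE1.gs_mono θ w₀ ψ hψ hw) _ _

end Pool.Agent.Work.MP_122e00_nt.Gen

end

section

set_option autoImplicit false

/-!
# E10: a bound for `Vf` (`r = 3`)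
-/

namespace Pool.Agent.Work.MP_122e00_nt.Gen

open Finset Filter Topology MeasureTheory

open Two

namespace IE10

lemma meas_Tj (j k : ℕ) (c : ℝ) : MeasurableSet {x : Fin k → ℝ | Tj j c x} := by
  have : {x : Fin k → ℝ | Tj j c x} = ⋂ S : {S : Finset (Fin k) // S.card = j},
      {x : Fin k → ℝ | ∑ i ∈ S.1, x i < c} := by
    ext x
    simp only [Set.mem_ofPred_eq, Set.mem_iInter, Subtype.forall]
    rfl
  rw [this]
  refine MeasurableSet.iInter fun S => ?_
  exact measurableSet_lt (Finset.measurable_sum _ fun i _ => measurable_pi_apply i)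
    measurable_const

/-- averaging over the cyclic windows -/
lemma cyc (n j : ℕ) (X : Fin (n + 1) → ℝ) (c : ℝ) (hj : j ≤ n + 1)
    (h : ∀ S : Finset (Fin (n + 1)), S.card = j → ∑ i ∈ S, X i < c) :
    (j : ℝ) * ∑ i, X i ≤ (n + 1 : ℝ) * c := by
  classical
  set U : Finset (Fin (n + 1)) := (Finset.range j).attachFin (fun m hm => by
    rw [Finset.mem_range] at hm; omega) with hU
  have hUc : U.card = j := by rw [hU, Finset.card_attachFin, Finset.card_range]
  have h1 : ∀ t : Fin (n + 1), ∑ u ∈ U, X (t + u) ≤ c := by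
    intro t
    have h2 := h (U.map (Equiv.addLeft t).toEmbedding) (by rw [Finset.card_map, hUc])
    rw [Finset.sum_map] at h2
    exact h2.le
  have h3 : ∑ t : Fin (n + 1), ∑ u ∈ U, X (t + u) = (j : ℝ) * ∑ i, X i := by
    rw [Finset.sum_comm]
    have h4 : ∀ u ∈ U, ∑ t : Fin (n + 1), X (t + u) = ∑ i, X i := fun u _ =>
      Equiv.sum_comp (Equiv.addRight u) X
    rw [Finset.sum_congr rfl h4, Finset.sum_const, hUc, nsmul_eq_mul]
  rw [← h3]
  refine (Finset.sum_le_sum fun t _ => h1 t).trans ?_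
  rw [Finset.sum_const, Finset.card_univ, Fintype.card_fin, nsmul_eq_mul]
  push_cast
  exact le_rfl

/-- the marks as a sequence -/
noncomputable def sq {k : ℕ} (x : Fin k → ℝ) (m : ℕ) : ℝ := if h : m < k then x ⟨m, h⟩ else 0

lemma sq_coe {k : ℕ} (x : Fin k → ℝ) (i : Fin k) : sq x i = x i := by
  unfold sq
  rw [dif_pos i.2]

lemma sq_nonneg' {k : ℕ} {x : Fin k → ℝ} (hx : ∀ i, 0 < x i) (m : ℕ) : 0 ≤ sq x m := by
  unfold sq
  split_ifs with h
  · exact (hx _).le
  · exact le_rfl

lemma sum_S {k j : ℕ} {c : ℝ} {x : Fin k → ℝ} (hT : Tj j c x) (S : Finset ℕ)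
    (hS : ∀ m ∈ S, m < k) (hc : S.card = j) : ∑ m ∈ S, sq x m < c := by
  have h1 := hT (S.attachFin hS) (by rw [Finset.card_attachFin, hc])
  refine lt_of_eq_of_lt ?_ h1
  have h2 : S = (S.attachFin hS).map Fin.valEmbedding := (Finset.map_valEmbedding_attachFin hS).symm
  conv_lhs => rw [h2]
  rw [Finset.sum_map]
  exact Finset.sum_congr rfl fun i _ => sq_coe x i

lemma sum_lt {k : ℕ} (x : Fin k → ℝ) (a : Fin k) :
    ∑ i ∈ Finset.univ.filter (fun i : Fin k => i < a), x i = ∑ m ∈ Finset.range a, sq x m := by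
  have h2 : Finset.range a = (Finset.univ.filter (fun i : Fin k => i < a)).map Fin.valEmbedding := by
    ext m
    simp only [Finset.mem_range, Finset.mem_map, Finset.mem_filter, Finset.mem_univ, true_and,
      Fin.valEmbedding_apply]
    constructor
    · intro h
      exact ⟨⟨m, h.trans a.2⟩, h, rfl⟩
    · rintro ⟨i, hi, rfl⟩
      exact hi
  rw [h2, Finset.sum_map]
  exact Finset.sum_congr rfl fun i _ => (sq_coe x i).symm

lemma sum_all {k : ℕ} (x : Fin k → ℝ) : ∑ i, x i = ∑ m ∈ Finset.range k, sq x m := by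
  rw [← Fin.sum_univ_eq_sum_range (fun m => sq x m) k]
  exact Finset.sum_congr rfl fun i _ => (sq_coe x i).symm

/-- the pointwise bound -/
lemma pointwise (j : ℕ) (c : ℝ) (hj : 5 ≤ j) (hc : 0 < c) (hc' : c ≤ 63 / 250)
    (x : Fin (j + 8) → ℝ) (hx : ∀ i, 0 < x i) (hx1 : ∑ i, x i < 1) (hT : Tj j c x) :
    (∏ a : Fin (j + 8), (1 - ∑ i ∈ Finset.univ.filter (fun i : Fin (j + 8) => i < a), x i)⁻¹) *
      ((1 - ∑ i, x i) ^ 2 / ((2 : ℕ).factorial : ℝ)) ≤ (1 - c)⁻¹ ^ j * 7 := by
  have hj0 : (0 : ℝ) < j := by exact_mod_cast (show 0 < j by omega)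
  have hj5 : (5 : ℝ) ≤ j := by exact_mod_cast hj
  set S : ℕ → ℝ := fun n => ∑ m ∈ Finset.range n, sq x m with hS
  have hmono : ∀ a b, a ≤ b → S a ≤ S b := by
    intro a b hab
    apply Finset.sum_le_sum_of_subset_of_nonneg (Finset.range_mono hab)
    intro m _ _
    exact sq_nonneg' hx m
  have hS0 : S 0 = 0 := by simp [hS]
  have hSk : S (j + 8) < 1 := by
    simp only [hS]
    rw [← sum_all]; exact hx1
  have hSlt : ∀ a, a ≤ j + 8 → 0 < 1 - S a := by
    intro a ha
    have := hmono a (j + 8) ha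
    linarith
  have h1 : ∀ a, a ≤ j → S a ≤ c := by
    intro a ha
    refine (hmono a j ha).trans (sum_S hT (Finset.range j) ?_ (Finset.card_range j)).le
    intro m hm
    rw [Finset.mem_range] at hm; omega
  have h2 : ∀ a, a + 1 ≤ 8 → (j : ℝ) * S (j + a + 1) ≤ ((j : ℝ) + a + 1) * c := by
    intro a ha
    have h3 := cyc (j + a) j (fun i => sq x i) c (by omega) (by
      intro T hTc
      have h4 := sum_S hT (T.map Fin.valEmbedding) (by
        intro m hm
        rw [Finset.mem_map] at hm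
        obtain ⟨i, _, rfl⟩ := hm
        have := i.2
        simp only [Fin.valEmbedding_apply]
        omega) (by rw [Finset.card_map, hTc])
      rw [Finset.sum_map] at h4
      exact h4)
    rw [Fin.sum_univ_eq_sum_range (fun m => sq x m) (j + a + 1)] at h3
    push_cast at h3
    exact h3
  have h2' : ∀ a : ℕ, a + 1 ≤ 8 → S (j + a + 1) ≤ c + (a + 1) * c / 5 := by
    intro a ha
    have h3 := h2 a ha
    have h4 : S (j + a + 1) ≤ ((j : ℝ) + a + 1) * c / j := by
      rw [le_div_iff₀ hj0]; linarith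
    refine h4.trans ?_
    have h5 : ((j : ℝ) + a + 1) * c / j = c + (a + 1) * c / j := by
      field_simp
      ring
    rw [h5]
    have h6 : ((a : ℝ) + 1) * c / j ≤ (a + 1) * c / 5 :=
      div_le_div_of_nonneg_left (by positivity) (by norm_num) hj5
    linarith
  have hprod : (∏ a : Fin (j + 8),
      (1 - ∑ i ∈ Finset.univ.filter (fun i : Fin (j + 8) => i < a), x i)⁻¹) =
      ∏ m ∈ Finset.range (j + 8), (1 - S m)⁻¹ := by
    rw [← Fin.prod_univ_eq_prod_range (fun m => (1 - S m)⁻¹) (j + 8)]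
    exact Finset.prod_congr rfl fun a _ => by rw [sum_lt x a]
  rw [hprod, sum_all x]
  change _ * ((1 - S (j + 8)) ^ 2 / _) ≤ _
  have hfirst : ∏ m ∈ Finset.range (j + 1), (1 - S m)⁻¹ ≤ (1 - c)⁻¹ ^ j := by
    rw [Finset.prod_range_succ', hS0, sub_zero, inv_one, mul_one]
    calc ∏ m ∈ Finset.range j, (1 - S (m + 1))⁻¹ ≤ ∏ _m ∈ Finset.range j, (1 - c)⁻¹ := by
          apply Finset.prod_le_prod
          · intro m hm
            rw [Finset.mem_range] at hm
            exact (inv_pos.2 (hSlt _ (by omega))).le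
          · intro m hm
            rw [Finset.mem_range] at hm
            have := h1 (m + 1) (by omega)
            exact inv_anti₀ (by linarith) (by linarith)
      _ = (1 - c)⁻¹ ^ j := by rw [Finset.prod_const, Finset.card_range]
  have e8 : ∏ m ∈ Finset.range (j + 8), (1 - S m)⁻¹ =
      (∏ m ∈ Finset.range (j + 1), (1 - S m)⁻¹) * (1 - S (j + 1))⁻¹ * (1 - S (j + 2))⁻¹ *
        (1 - S (j + 3))⁻¹ * (1 - S (j + 4))⁻¹ * (1 - S (j + 5))⁻¹ * (1 - S (j + 6))⁻¹ *
        (1 - S (j + 7))⁻¹ := by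
    simp only [Finset.prod_range_succ]
  rw [e8]
  have p0 : 0 ≤ ∏ m ∈ Finset.range (j + 1), (1 - S m)⁻¹ := by
    apply Finset.prod_nonneg
    intro m hm
    rw [Finset.mem_range] at hm
    exact (inv_pos.2 (hSlt _ (by omega))).le
  have b1 : (1 - S (j + 1))⁻¹ ≤ 10000 / 6976 := by
    have := h2' 0 (by norm_num)
    rw [inv_le_comm₀ (hSlt _ (by omega)) (by norm_num)]
    push_cast at this
    norm_num at this ⊢
    linarith
  have b2 : (1 - S (j + 2))⁻¹ ≤ 10000 / 6472 := by
    have := h2' 1 (by norm_num)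
    rw [inv_le_comm₀ (hSlt _ (by omega)) (by norm_num)]
    push_cast at this
    norm_num at this ⊢
    linarith
  have b3 : (1 - S (j + 3))⁻¹ ≤ 10000 / 5968 := by
    have := h2' 2 (by norm_num)
    rw [inv_le_comm₀ (hSlt _ (by omega)) (by norm_num)]
    push_cast at this
    norm_num at this ⊢
    linarith
  have b4 : (1 - S (j + 4))⁻¹ ≤ 10000 / 5464 := by
    have := h2' 3 (by norm_num)
    rw [inv_le_comm₀ (hSlt _ (by omega)) (by norm_num)]
    push_cast at this
    norm_num at this ⊢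
    linarith
  have b5 : (1 - S (j + 5))⁻¹ ≤ 10000 / 4960 := by
    have := h2' 4 (by norm_num)
    rw [inv_le_comm₀ (hSlt _ (by omega)) (by norm_num)]
    push_cast at this
    norm_num at this ⊢
    linarith
  have q1 : 0 ≤ (1 - S (j + 1))⁻¹ := (inv_pos.2 (hSlt _ (by omega))).le
  have q2 : 0 ≤ (1 - S (j + 2))⁻¹ := (inv_pos.2 (hSlt _ (by omega))).le
  have q3 : 0 ≤ (1 - S (j + 3))⁻¹ := (inv_pos.2 (hSlt _ (by omega))).le
  have q4 : 0 ≤ (1 - S (j + 4))⁻¹ := (inv_pos.2 (hSlt _ (by omega))).le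
  have q5 : 0 ≤ (1 - S (j + 5))⁻¹ := (inv_pos.2 (hSlt _ (by omega))).le
  have hlast : (1 - S (j + 6))⁻¹ * (1 - S (j + 7))⁻¹ * (1 - S (j + 8)) ^ 2 ≤ 1 := by
    have r6 := hSlt (j + 6) (by omega)
    have r7 := hSlt (j + 7) (by omega)
    have r8 := hSlt (j + 8) (by omega)
    have m6 := hmono (j + 6) (j + 8) (by omega)
    have m7 := hmono (j + 7) (j + 8) (by omega)
    rw [← mul_inv, inv_mul_le_iff₀ (mul_pos r6 r7), mul_one, pow_two]
    exact mul_le_mul (by linarith) (by linarith) r8.le r6.le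
  have hmid : (1 - S (j + 1))⁻¹ * (1 - S (j + 2))⁻¹ * (1 - S (j + 3))⁻¹ * (1 - S (j + 4))⁻¹ *
      (1 - S (j + 5))⁻¹ ≤ 14 := by
    calc (1 - S (j + 1))⁻¹ * (1 - S (j + 2))⁻¹ * (1 - S (j + 3))⁻¹ * (1 - S (j + 4))⁻¹ *
          (1 - S (j + 5))⁻¹
        ≤ (10000 / 6976) * (10000 / 6472) * (10000 / 5968) * (10000 / 5464) * (10000 / 4960) := by
          gcongr
      _ ≤ 14 := by norm_num
  have hc1 : 0 ≤ (1 - c)⁻¹ := inv_nonneg.2 (by linarith)
  have hl0 : 0 ≤ (1 - S (j + 6))⁻¹ * (1 - S (j + 7))⁻¹ * (1 - S (j + 8)) ^ 2 :=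
    mul_nonneg (mul_nonneg (inv_pos.2 (hSlt _ (by omega))).le
      (inv_pos.2 (hSlt _ (by omega))).le) (sq_nonneg _)
  have hmid0 : 0 ≤ (1 - S (j + 1))⁻¹ * (1 - S (j + 2))⁻¹ * (1 - S (j + 3))⁻¹ *
      (1 - S (j + 4))⁻¹ * (1 - S (j + 5))⁻¹ := by positivity
  calc (∏ m ∈ Finset.range (j + 1), (1 - S m)⁻¹) * (1 - S (j + 1))⁻¹ * (1 - S (j + 2))⁻¹ *
        (1 - S (j + 3))⁻¹ * (1 - S (j + 4))⁻¹ * (1 - S (j + 5))⁻¹ * (1 - S (j + 6))⁻¹ *
        (1 - S (j + 7))⁻¹ * ((1 - S (j + 8)) ^ 2 / ((2 : ℕ).factorial : ℝ))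
      = (∏ m ∈ Finset.range (j + 1), (1 - S m)⁻¹) * ((1 - S (j + 1))⁻¹ * (1 - S (j + 2))⁻¹ *
        (1 - S (j + 3))⁻¹ * (1 - S (j + 4))⁻¹ * (1 - S (j + 5))⁻¹) *
        ((1 - S (j + 6))⁻¹ * (1 - S (j + 7))⁻¹ * (1 - S (j + 8)) ^ 2) / 2 := by
        norm_num [Nat.factorial]
        ring
    _ ≤ (1 - c)⁻¹ ^ j * 14 * 1 / 2 := by
        gcongr
    _ = (1 - c)⁻¹ ^ j * 7 := by ring

end IE10

open IE10 in
theorem prfE10 : claimE9 → claimE10 := by
  classical
  intro h9 j c hj hc hc'
  unfold Vf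
  have hmf : Measurable (fun x : Fin (j + 8) → ℝ => if Tj j c x then (1 : ℝ) else 0) :=
    Measurable.ite (meas_Tj j (j + 8) c) measurable_const measurable_const
  have h8 := prfB8 2 (j + 8) (fun x => if Tj j c x then (1 : ℝ) else 0) 1 hmf (by
    intro x
    split_ifs <;> norm_num)
  rw [h8]
  set A : Set (Fin (j + 8) → ℝ) := {x | (∀ i, 0 < x i) ∧ Tj j c x} with hA
  set De : Set (Fin (j + 8) → ℝ) := {x | (∀ i, 0 < x i) ∧ ∑ i, x i < 1} with hDe
  have hDem : MeasurableSet De := IB8.De_meas (j + 8)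
  have hTm := meas_Tj j (j + 8) c
  have hvol := h9 j (j + 8) c (by omega) (by omega) hc
  rw [show j + 8 - j = 8 by omega] at hvol
  set K : ℝ := (1 - c)⁻¹ ^ j * 7 with hK
  have hK0 : 0 ≤ K := by
    have : 0 ≤ (1 - c)⁻¹ := inv_nonneg.2 (by linarith)
    positivity
  have hsub : De ∩ {x | Tj j c x} ⊆ A := fun x hx => ⟨hx.1.1, hx.2⟩
  have hfin : volume (De ∩ {x | Tj j c x}) ≤
      ENNReal.ofReal (c ^ (j + 8) / ((j.factorial : ℝ) * (j : ℝ) ^ 8)) :=
    (measure_mono hsub).trans hvol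
  have hint : ∫ x in De, (if Tj j c x then (1 : ℝ) else 0) *
      (∏ a : Fin (j + 8), (1 - ∑ i ∈ Finset.univ.filter (fun i : Fin (j + 8) => i < a), x i)⁻¹) *
        ((1 - ∑ i, x i) ^ 2 / ((2 : ℕ).factorial : ℝ)) ≤
      ∫ x in De, K * ({x | Tj j c x}.indicator (fun _ => (1 : ℝ)) x) := by
    apply integral_mono_of_nonneg
    · refine (ae_restrict_iff' hDem).mpr (Eventually.of_forall (fun x hx => ?_))
      have hx0 : 0 < 1 - ∑ i, x i := by linarith [hx.2]
      refine mul_nonneg (mul_nonneg ?_ ?_) (by positivity)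
      · split_ifs <;> norm_num
      · apply Finset.prod_nonneg
        intro a _
        rw [inv_nonneg]
        have : ∑ i ∈ Finset.univ.filter (fun i : Fin (j + 8) => i < a), x i ≤ ∑ i, x i :=
          Finset.sum_le_sum_of_subset_of_nonneg (Finset.filter_subset _ _)
            fun i _ _ => (hx.1 i).le
        linarith
    · apply Integrable.const_mul
      rw [integrable_indicator_iff hTm]
      have : (volume.restrict De) {x | Tj j c x} ≠ ⊤ := by
        rw [Measure.restrict_apply hTm, Set.inter_comm]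
        exact ne_top_of_le_ne_top ENNReal.ofReal_ne_top hfin
      exact integrableOn_const this (by simp)
    · refine (ae_restrict_iff' hDem).mpr (Eventually.of_forall (fun x hx => ?_))
      simp only
      by_cases hT : Tj j c x
      · rw [if_pos hT, one_mul, Set.indicator_of_mem (show x ∈ {x | Tj j c x} from hT), mul_one]
        exact pointwise j c hj hc hc' x hx.1 hx.2 hT
      · rw [if_neg hT, zero_mul, zero_mul,
          Set.indicator_of_notMem (show x ∉ {x | Tj j c x} from hT), mul_zero]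
  have hval : ∫ x in De, K * ({x | Tj j c x}.indicator (fun _ => (1 : ℝ)) x) ≤
      K * (c ^ (j + 8) / ((j.factorial : ℝ) * (j : ℝ) ^ 8)) := by
    rw [integral_const_mul]
    apply mul_le_mul_of_nonneg_left _ hK0
    rw [integral_indicator_const (1 : ℝ) hTm, smul_eq_mul, mul_one, measureReal_def,
      Measure.restrict_apply hTm, Set.inter_comm]
    exact ENNReal.toReal_le_of_le_ofReal (by positivity) hfin
  have h3 : ((2 : ℕ) + 1 : ℝ) ^ (j + 8) = 3 ^ (j + 8) := by norm_num
  rw [h3]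
  calc (3 : ℝ) ^ (j + 8) * ∫ x in De, (if Tj j c x then (1 : ℝ) else 0) *
      (∏ a : Fin (j + 8), (1 - ∑ i ∈ Finset.univ.filter (fun i : Fin (j + 8) => i < a), x i)⁻¹) *
        ((1 - ∑ i, x i) ^ 2 / ((2 : ℕ).factorial : ℝ))
      ≤ 3 ^ (j + 8) * (K * (c ^ (j + 8) / ((j.factorial : ℝ) * (j : ℝ) ^ 8))) :=
        mul_le_mul_of_nonneg_left (hint.trans hval) (by positivity)
    _ = 3 ^ (j + 8) * (1 - c)⁻¹ ^ j * 7 *
      (c ^ (j + 8) / ((j.factorial : ℝ) * (j : ℝ) ^ 8)) := by rw [hK]; ring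

end Pool.Agent.Work.MP_122e00_nt.Gen

end

section

set_option autoImplicit false

/-!
# E11: the sum over `j`
-/

namespace Pool.Agent.Work.MP_122e00_nt.Gen

open Finset Filter Topology MeasureTheory

open Two

namespace IE11

lemma fact_ge (i : ℕ) : 120 * 6 ^ i ≤ (5 + i).factorial := by
  induction i with
  | zero => decide
  | succ i ih =>
    have h : (5 + (i + 1)).factorial = (5 + i + 1) * (5 + i).factorial := Nat.factorial_succ (5 + i)
    rw [h, pow_succ]
    nlinarith [Nat.zero_le i, Nat.factorial_pos (5 + i)]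

lemma term_le (c : ℝ) (hc : 0 < c) (hc' : c ≤ 63 / 250) (i : ℕ) :
    (3 : ℝ) ^ (5 + i + 1) * (3 ^ (5 + i + 8) * (1 - c)⁻¹ ^ (5 + i) * 7 *
      (c ^ (5 + i + 8) / (((5 + i).factorial : ℝ) * ((5 + i : ℕ) : ℝ) ^ 8))) ≤
      13 / 1000000 * (51 / 100) ^ i := by
  have h1 : (1 - c)⁻¹ ≤ 250 / 187 := by
    rw [inv_le_comm₀ (by linarith) (by norm_num)]
    norm_num
    linarith
  have h0 : 0 ≤ (1 - c)⁻¹ := inv_nonneg.2 (by linarith)
  have hf : (120 * 6 ^ i : ℝ) ≤ ((5 + i).factorial : ℝ) := by exact_mod_cast fact_ge i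
  have h5 : (5 : ℝ) ≤ ((5 + i : ℕ) : ℝ) := by push_cast; linarith [Nat.cast_nonneg (α := ℝ) i]
  have hden : (120 * 6 ^ i : ℝ) * 5 ^ 8 ≤ ((5 + i).factorial : ℝ) * ((5 + i : ℕ) : ℝ) ^ 8 := by
    gcongr
  calc (3 : ℝ) ^ (5 + i + 1) * (3 ^ (5 + i + 8) * (1 - c)⁻¹ ^ (5 + i) * 7 *
      (c ^ (5 + i + 8) / (((5 + i).factorial : ℝ) * ((5 + i : ℕ) : ℝ) ^ 8)))
      ≤ (3 : ℝ) ^ (5 + i + 1) * (3 ^ (5 + i + 8) * (250 / 187) ^ (5 + i) * 7 *
      ((63 / 250) ^ (5 + i + 8) / ((120 * 6 ^ i : ℝ) * 5 ^ 8))) := by gcongr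
    _ = (3 ^ 19 * 7 * (250 / 187) ^ 5 * (63 / 250) ^ 13 / (120 * 5 ^ 8)) *
        (9 * (250 / 187) * (63 / 250) / 6) ^ i := by
        have e : (9 * (250 / 187) * (63 / 250) / 6 : ℝ) ^ i =
            3 ^ i * 3 ^ i * (250 / 187) ^ i * (63 / 250) ^ i / 6 ^ i := by
          rw [div_pow, mul_pow, mul_pow, show (9 : ℝ) = 3 * 3 by norm_num, mul_pow]
        rw [e]
        have e1 : (3 : ℝ) ^ (5 + i + 1) = 3 ^ 6 * 3 ^ i := by ring
        have e2 : (3 : ℝ) ^ (5 + i + 8) = 3 ^ 13 * 3 ^ i := by ring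
        have e3 : (250 / 187 : ℝ) ^ (5 + i) = (250 / 187) ^ 5 * (250 / 187) ^ i := pow_add _ _ _
        have e4 : (63 / 250 : ℝ) ^ (5 + i + 8) = (63 / 250) ^ 13 * (63 / 250) ^ i := by
          rw [← pow_add]; congr 1; omega
        rw [e1, e2, e3, e4]
        have h6 : (6 : ℝ) ^ i ≠ 0 := by positivity
        generalize (3 : ℝ) ^ i = a
        generalize (250 / 187 : ℝ) ^ i = b
        generalize (63 / 250 : ℝ) ^ i = d
        generalize (6 : ℝ) ^ i = e at h6
        field_simp
    _ ≤ 13 / 1000000 * (51 / 100) ^ i := by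
        apply mul_le_mul
        · norm_num
        · exact pow_le_pow_left₀ (by norm_num) (by norm_num) i
        · positivity
        · norm_num

end IE11

open IE11 in
theorem prfE11 : claimE10 → claimE11 := by
  intro h10 c hc hc' J
  rcases Nat.lt_or_ge J 5 with hJ | hJ
  · rw [Finset.Ico_eq_empty (by omega), Finset.sum_empty]
    norm_num
  obtain ⟨N, rfl⟩ : ∃ N, J = 5 + N := ⟨J - 5, by omega⟩
  rw [Finset.sum_Ico_eq_sum_range, Nat.add_sub_cancel_left]
  have hterm : ∀ i ∈ Finset.range N,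
      ((2 : ℕ) + 1 : ℝ) ^ (5 + i + 1) * Vf 2 (5 + i) (5 + i + 8) c ≤
        13 / 1000000 * (51 / 100) ^ i := by
    intro i _
    have h := h10 (5 + i) c (by omega) hc hc'
    refine le_trans ?_ (term_le c hc hc' i)
    rw [show ((2 : ℕ) + 1 : ℝ) = 3 by norm_num]
    exact mul_le_mul_of_nonneg_left h (by positivity)
  refine le_trans (Finset.sum_le_sum hterm) ?_
  rw [← Finset.mul_sum]
  have hg : ∑ i ∈ Finset.range N, ((51 : ℝ) / 100) ^ i ≤ 100 / 49 := by
    rw [geom_sum_eq (by norm_num)]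
    rw [div_le_iff_of_neg (by norm_num)]
    have : (0 : ℝ) ≤ (51 / 100) ^ N := by positivity
    linarith
  calc (13 : ℝ) / 1000000 * ∑ i ∈ Finset.range N, ((51 : ℝ) / 100) ^ i
      ≤ 13 / 1000000 * (100 / 49) := by gcongr
    _ ≤ 1 / 20000 := by norm_num

end Pool.Agent.Work.MP_122e00_nt.Gen

end

section

set_option autoImplicit false

/-!
# E3: the marks of an integer without large prime powers
-/

namespace Pool.Agent.Work.MP_122e00_nt.Gen

open Finset Filter Topology MeasureTheory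

open Two

namespace IE3

variable {L η c : ℝ} {n k : ℕ} {d : Fin k → ℕ}

lemma dvd_n (hd : (∏ i, d i) ∣ n) (i : Fin k) : d i ∣ n :=
  (Finset.dvd_prod_of_mem d (Finset.mem_univ i)).trans hd

/-- a large mark is a large prime -/
lemma large (hn : n ≠ 0) (hb : ¬ Bad η L n) (hp : ∀ i, IsPrimePow (d i))
    (hd : (∏ i, d i) ∣ n) {i : Fin k} (hi : η < Real.log (d i) / L) : d i ∈ LP η L n := by
  obtain ⟨p, a, hpp, ha, e⟩ := hp i
  have hpp' : p.Prime := hpp.nat_prime
  have ha1 : a = 1 := by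
    by_contra h
    exact hb ⟨p, a, hpp', by omega, by rw [e]; exact dvd_n hd i, by rw [e]; exact hi⟩
  subst ha1
  rw [pow_one] at e
  rw [LP, Finset.mem_filter, Nat.mem_primeFactors]
  exact ⟨⟨e ▸ hpp', dvd_n hd i, hn⟩, hi⟩

lemma inj (hL : 0 < L) (hη : 0 < η) (hn : n ≠ 0) (hb : ¬ Bad η L n) (hp : ∀ i, IsPrimePow (d i))
    (hd : (∏ i, d i) ∣ n) {i i' : Fin k} (hi : η < Real.log (d i) / L)
    (e : d i = d i') : i = i' := by
  by_contra hne
  have h1 := large hn hb hp hd hi
  rw [LP, Finset.mem_filter, Nat.mem_primeFactors] at h1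
  have h2 : d i * d i' ∣ n := by
    rw [← Finset.prod_pair hne]
    exact (Finset.prod_dvd_prod_of_subset _ _ _ (Finset.subset_univ _)).trans hd
  rw [← e, ← pow_two] at h2
  refine hb ⟨d i, 2, h1.1.1, le_rfl, h2, ?_⟩
  rw [Nat.cast_pow, Real.log_pow, mul_div_assoc]
  push_cast
  linarith

lemma sum_lt (hL : 0 < L) (hη : 0 < η) (hn : n ≠ 0) (hb : ¬ Bad η L n)
    (hp : ∀ i, IsPrimePow (d i)) (hd : (∏ i, d i) ∣ n) (S : Finset (Fin k)) {J : ℕ}
    (hS : S.card ≤ J) (hJ : J ≤ (LP η L n).card) (hsm : Sm η L c J n) :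
    ∑ i ∈ S, Real.log (d i) / L < c := by
  classical
  set SL := S.filter fun i => η < Real.log (d i) / L with hSL
  have hinj : Set.InjOn d SL := by
    intro i hi i' _ e
    rw [Finset.mem_coe, hSL, Finset.mem_filter] at hi
    exact inj hL hη hn hb hp hd hi.2 e
  have hsub : SL.image d ⊆ LP η L n := by
    intro p hp'
    obtain ⟨i, hi, rfl⟩ := Finset.mem_image.1 hp'
    rw [hSL, Finset.mem_filter] at hi
    exact large hn hb hp hd hi.2
  have hcard : (SL.image d).card = SL.card := Finset.card_image_of_injOn hinj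
  have hSLS : SL.card ≤ S.card := Finset.card_le_card (Finset.filter_subset _ _)
  obtain ⟨P, hP0, hP1, hP2⟩ := Finset.exists_subsuperset_card_eq hsub
    (by rw [hcard]; exact hSLS.trans hS) hJ
  have h1 := hsm P hP1 hP2
  have h2 : ∑ i ∈ SL, Real.log (d i) / L = ∑ p ∈ SL.image d, Real.log p / L :=
    (Finset.sum_image (f := fun p : ℕ => Real.log p / L) hinj).symm
  have h3 : ∑ i ∈ S.filter (fun i => ¬ η < Real.log (d i) / L), Real.log (d i) / L ≤
      ((S.card : ℝ) - SL.card) * η := by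
    have h4 := Finset.sum_le_card_nsmul (S.filter (fun i => ¬ η < Real.log (d i) / L))
      (fun i => Real.log (d i) / L) η (by
        intro i hi
        rw [Finset.mem_filter] at hi
        exact not_lt.1 hi.2)
    have h5 := Finset.card_filter_add_card_filter_not (s := S) (fun i => η < Real.log (d i) / L)
    rw [← hSL] at h5
    rw [nsmul_eq_mul] at h4
    have h6 : ((S.filter (fun i => ¬ η < Real.log (d i) / L)).card : ℝ) =
        (S.card : ℝ) - SL.card := by
      rw [← h5]; push_cast; ring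
    rw [h6] at h4
    exact h4
  have h4 : ∑ p ∈ SL.image d, Real.log p / L + ((J : ℝ) - SL.card) * η ≤
      ∑ p ∈ P, Real.log p / L := by
    rw [← Finset.sum_sdiff hP0, add_comm]
    have h5 := Finset.card_nsmul_le_sum (P \ SL.image d) (fun p : ℕ => Real.log p / L) η (by
      intro p hp'
      rw [Finset.mem_sdiff] at hp'
      have := hP1 hp'.1
      rw [LP, Finset.mem_filter] at this
      exact this.2.le)
    have h6 : ((P \ SL.image d).card : ℝ) = (J : ℝ) - SL.card := by
      rw [Finset.card_sdiff_of_subset hP0, hP2, hcard, Nat.cast_sub (hSLS.trans hS)]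
    rw [nsmul_eq_mul, h6] at h5
    linarith
  have h5 : ((S.card : ℝ) - SL.card) * η ≤ ((J : ℝ) - SL.card) * η := by
    have : (S.card : ℝ) ≤ J := by exact_mod_cast hS
    nlinarith
  have h6 := Finset.sum_filter_add_sum_filter_not S (fun i => η < Real.log (d i) / L)
    (fun i => Real.log (d i) / L)
  rw [← hSL] at h6
  linarith

end IE3

open IE3 in
theorem prfE3 : claimE3 := by
  intro L η c n k d hL hη hn hb hp hd
  refine ⟨fun j hj hsm S hS => sum_lt hL hη hn hb hp hd S hS.le hj hsm, fun J hJ hsm hk =>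
    sum_lt hL hη hn hb hp hd Finset.univ (by rw [Finset.card_univ, Fintype.card_fin]; exact hk)
      hJ hsm, fun h1 h2 => ?_⟩
  by_contra hcon
  push Not at hcon
  classical
  have hinj : Set.InjOn d (Finset.univ : Finset (Fin k)) := fun i _ i' _ e =>
    inj hL hη hn hb hp hd (hcon i) e
  have h3 : ∑ i, Real.log (d i) / L = ∑ p ∈ Finset.univ.image d, Real.log p / L :=
    (Finset.sum_image (f := fun p : ℕ => Real.log p / L) hinj).symm
  have h4 : ∑ p ∈ Finset.univ.image d, Real.log p / L ≤ ∑ p ∈ LP η L n, Real.log p / L := by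
    apply Finset.sum_le_sum_of_subset_of_nonneg
    · intro p hp'
      obtain ⟨i, _, rfl⟩ := Finset.mem_image.1 hp'
      exact large hn hb hp hd (hcon i)
    · intro p hp' _
      rw [LP, Finset.mem_filter] at hp'
      linarith [hp'.2]
  linarith

end Pool.Agent.Work.MP_122e00_nt.Gen

end

section

set_option autoImplicit false

/-!
# Item E5: the chain with a small mark
-/

namespace Pool.Agent.Work.MP_122e00_nt.Gen

open Finset Filter Topology MeasureTheory

open scoped ENNReal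

open Two

namespace IE5

open Classical in
/-- the integrand -/
noncomputable def fI (s : ℕ) (c : ℝ) (k : ℕ) (η : ℝ) (y : Fin k ⊕ Fin s → ℝ) : ℝ :=
  ext (s := s) (fun x v => if ∃ i, x i ≤ η then FB s c k x v else 0) (y, 1 - ∑ i, y i) * den y

theorem den_nonneg {k s : ℕ} {y : Fin k ⊕ Fin s → ℝ} (hy : y ∈ Sim k s) : 0 ≤ den y := by
  unfold den
  refine Finset.prod_nonneg (fun j _ => inv_nonneg.mpr ?_)
  have h2 : ∑ i ∈ Finset.univ.filter (fun i : Fin k => i < j), y (Sum.inl i) ≤
      ∑ i : Fin k, y (Sum.inl i) :=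
    Finset.sum_le_sum_of_subset_of_nonneg (Finset.filter_subset _ _)
      (fun i _ _ => (hy.1 (Sum.inl i)).le)
  have h3 : 0 ≤ ∑ i : Fin s, y (Sum.inr i) :=
    Finset.sum_nonneg (fun i _ => (hy.1 (Sum.inr i)).le)
  have h4 : ∑ i, y i < 1 := hy.2
  rw [Fintype.sum_sum_type] at h4
  linarith

theorem fI_meas (s : ℕ) (c : ℝ) (k : ℕ) (η : ℝ) : Measurable (fI s c k η) := by
  classical
  unfold fI
  refine Measurable.mul ?_ (IT8.den_meas k s)
  unfold Two.ext
  have hx : ∀ i : Fin k, Measurable fun y : Fin k ⊕ Fin s → ℝ => y (Sum.inl i) :=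
    fun i => measurable_pi_apply _
  have h1 : MeasurableSet {y : Fin k ⊕ Fin s → ℝ | ∃ i : Fin k, y (Sum.inl i) ≤ η} := by
    rw [Set.ofPred_exists]
    exact MeasurableSet.iUnion fun i => measurableSet_le (hx i) measurable_const
  refine Measurable.ite h1 ?_ measurable_const
  cases k with
  | zero => exact measurable_const
  | succ k =>
    have h2 : MeasurableSet {y : Fin (k + 1) ⊕ Fin s → ℝ |
        stp c (fun i => y (Sum.inl i))} := by
      have h3 : MeasurableSet {y : Fin (k + 1) ⊕ Fin s → ℝ | c ≤ ∑ j, y (Sum.inl j)} :=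
        measurableSet_le measurable_const (Finset.measurable_sum _ fun i _ => hx i)
      have h4 : MeasurableSet {y : Fin (k + 1) ⊕ Fin s → ℝ |
          ∑ j : Fin k, y (Sum.inl j.castSucc) < c} :=
        measurableSet_lt (Finset.measurable_sum _ fun i _ => hx i.castSucc) measurable_const
      exact h3.inter h4
    exact Measurable.ite h2 measurable_const measurable_const

theorem tend (hB7 : claimB7) (s : ℕ) (c : ℝ) (k : ℕ) :
    Tendsto (fun η : ℝ => ∫ y in Sim k s, fI s c k η y) (𝓝[>] 0) (𝓝 0) := by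
  classical
  have hSim := IT8.Sim_meas k s
  suffices h : Tendsto (fun η : ℝ => ∫ y in Sim k s, fI s c k η y) (𝓝[>] 0)
      (𝓝 (∫ y in Sim k s, (0 : ℝ))) by simpa using h
  refine tendsto_integral_filter_of_dominated_convergence
    (fun y => (((s : ℝ) + 1) ^ 2) ^ k * den y) ?_ ?_ ?_ ?_
  · exact Eventually.of_forall fun η => (fI_meas s c k η).aestronglyMeasurable
  · refine Eventually.of_forall fun η => (ae_restrict_iff' hSim).2 (Eventually.of_forall fun y hy => ?_)
    have hd := den_nonneg hy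
    have hb := (hB7 s c).1 k (fun i => y (Sum.inl i)) (Fin.snoc (fun i => y (Sum.inr i))
      (1 - ∑ i, y i))
    unfold fI Two.ext
    rw [norm_mul, Real.norm_eq_abs, Real.norm_eq_abs, abs_of_nonneg hd]
    refine mul_le_mul_of_nonneg_right ?_ hd
    beta_reduce
    split_ifs
    · rw [abs_of_nonneg hb.1]
      exact hb.2
    · rw [abs_zero]
      positivity
  · exact (prfT8 k s).1.const_mul _
  · refine (ae_restrict_iff' hSim).2 (Eventually.of_forall fun y hy => ?_)
    refine tendsto_const_nhds.congr' ?_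
    have h1 : ∀ᶠ η : ℝ in 𝓝[>] 0, ∀ i : Fin k, η < y (Sum.inl i) := by
      rw [eventually_all]
      intro i
      exact nhdsWithin_le_nhds (eventually_lt_nhds (hy.1 (Sum.inl i)))
    filter_upwards [h1] with η hη
    unfold fI Two.ext
    beta_reduce
    rw [if_neg]
    · rw [zero_mul]
    · rintro ⟨i, hi⟩
      exact absurd (hη i) (not_lt.2 hi)

end IE5

theorem prfE5 (hB7 : claimB7) : claimE5 := by
  intro s K c ε hs hc hc1 hε
  have h1 : Tendsto (fun η : ℝ => ∑ k ∈ Finset.range (K + 1),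
      ∫ y in Sim k s, IE5.fI s c k η y) (𝓝[>] 0) (𝓝 0) := by
    have := tendsto_finsetSum (Finset.range (K + 1)) fun k _ => IE5.tend hB7 s c k
    simpa using this
  have h2 : ∀ᶠ η : ℝ in 𝓝[>] 0, ∑ k ∈ Finset.range (K + 1),
      ∫ y in Sim k s, IE5.fI s c k η y ≤ ε :=
    (h1.eventually (eventually_lt_nhds hε)).mono fun η h => h.le
  obtain ⟨u, hu, h3⟩ := mem_nhdsGT_iff_exists_Ioc_subset.1 h2
  exact ⟨u, hu, fun η h4 h5 => h3 ⟨h4, h5⟩⟩

end Pool.Agent.Work.MP_122e00_nt.Gen

end

end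

section

/-! Bundle of small proof modules (one section per former module). -/

section

set_option autoImplicit false

/-!
# The certificate: item G5
-/

namespace Pool.Agent.Work.MP_122e00_nt.Sharp.Cx

open Finset MeasureTheory

open scoped ENNReal

open Gen

namespace G5

open GB G3 G4

theorem all_bits (n e : ℕ) (h : e < n) : (2 ^ n - 1) / 2 ^ e % 2 = 1 := by
  have h1 := Nat.testBit_two_pow_sub_one n e
  rw [Nat.testBit_eq_decide_div_mod_eq] at h1
  simpa [h] using h1

theorem pg_nonneg (k : ℕ) (G : ℝ) : 0 ≤ pg (2187 / 4) (3 ^ k) G := by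
  unfold pg
  split_ifs with h
  · positivity
  · positivity

theorem bar_nonneg {k : ℕ} {S : List (List ℕ)} (hS : Sv k S) (y : Fin (k + 2) → ℝ)
    (h0 : ∀ i, 0 < y i) (h1 : ∑ i, y i < 1) (q : Fin (k + 3)) :
    0 ≤ Chamber.bar (pts (k + 2) S) y q := by
  rw [bar_wt]
  refine Finset.sum_nonneg fun o _ => mul_nonneg (wt_pos y h0 h1 o).le ?_
  obtain ⟨p, hp, e⟩ := pts_vertex hS o
  rw [e]
  exact div_nonneg (Nat.cast_nonneg _) (Nat.cast_nonneg _)

theorem meas (k : ℕ) (Dn : (Fin (k + 3) → ℝ) → ℝ) (h : Measurable Dn) :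
    Measurable (fun p : Fin (k + 3) → ℝ => ENNReal.ofReal (Dn p *
      pg (2187 / 4) (3 ^ k) (Pl (g3 0) (px (k := k) p) (ph3 (k := k) p)))) := by
  have h6a := prfI6 2 k 0 (2187 / 4) (g3 0) (II15.g3_meas 0)
  have hpg := h6a.2.2.1 ((3 : ℝ) ^ k)
  have e1 : Measurable (fun p : Fin (k + 3) → ℝ => Pl (g3 0) (px (k := k) p) (ph3 (k := k) p)) :=
    II15.meas2 _ h6a.2.1
  have e2 : Measurable (fun p : Fin (k + 3) → ℝ =>
      pg (2187 / 4) (3 ^ k) (Pl (g3 0) (px (k := k) p) (ph3 (k := k) p))) := hpg.comp e1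
  exact ENNReal.measurable_ofReal.comp (h.mul e2)

theorem cdiv_ge (A B : ℕ) (hB : 0 < B) : (A : ℝ) / B ≤ (cdiv A B : ℕ) := by
  have e : cdiv A B = (A + (B - 1)) / B := rfl
  rw [e, div_le_iff₀ (by exact_mod_cast hB)]
  have h := Nat.div_add_mod (A + (B - 1)) B
  have h2 := Nat.mod_lt (A + (B - 1)) hB
  have h3 : A ≤ (A + (B - 1)) / B * B := by
    have : B * ((A + (B - 1)) / B) = (A + (B - 1)) / B * B := Nat.mul_comm _ _
    omega
  exact_mod_cast h3

end G5

open G5 G4 G3 GB in
theorem prfG5 (hE3 : claimE3) (hG1 : claimG1) : claimG5 := by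
  classical
  intro k Dn cls hD c
  induction c with
  | lf b t bits =>
    intro S m gf r hS hI h
    have e : run cls k (Ct.lf b t bits) S m gf =
      cond (Nat.beq m (2 ^ (3 * 2 ^ k) - 1)) (leafv (cls b) t bits S gf) none := rfl
    rw [e] at h
    cases hb : Nat.beq m (2 ^ (3 * 2 ^ k) - 1) with
    | false => rw [hb] at h; exact absurd h (by simp)
    | true =>
      rw [hb, cond_true] at h
      have hm : m = 2 ^ (3 * 2 ^ k) - 1 := Nat.eq_of_beq_eq_true hb
      have h3 := hE3 k (cls b) t bits S gf r (hD.2 b).1 hS hI.1 h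
      unfold Bd
      refine le_trans ?_ h3
      unfold Chamber.EV
      refine lintegral_mono_ae ?_
      filter_upwards [ae_int (k + 2) (by omega)] with y hy
      obtain ⟨h0, h1⟩ := hy
      set p := Chamber.bar (pts (k + 2) S) y with hp
      have hp0 : ∀ i, 0 ≤ p i := bar_nonneg hS y h0 h1
      have hp1 : ∑ i, p i = 1 := sum_bar hS y
      have hG := hG1 k p hp0 hp1
      have hInv := hI.2 y h0 h1
      have hPl : Pl (g3 0) (px (k := k) p) (ph3 (k := k) p) = Gf gf p := by
        rw [hG]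
        unfold Gf
        rw [← hInv]
        congr 1
        refine Finset.sum_congr rfl fun q hq => Finset.sum_congr rfl fun F hF => ?_
        rw [Finset.mem_range] at hq hF
        have hbit : m / 2 ^ (q * 2 ^ k + F) % 2 = 1 := by
          rw [hm]
          refine all_bits _ _ ?_
          calc q * 2 ^ k + F < q * 2 ^ k + 2 ^ k := by omega
            _ = (q + 1) * 2 ^ k := by ring
            _ ≤ 3 * 2 ^ k := Nat.mul_le_mul_right _ (by omega)
        by_cases hle : 1 / 2 ≤ lu k q F p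
        · rw [if_pos hle, if_pos ⟨hbit, hle⟩]
        · rw [if_neg hle, if_neg (fun h => hle h.2)]
      rw [hPl]
      exact ENNReal.ofReal_le_ofReal (mul_le_mul_of_nonneg_right ((hD.2 b).2 p hp0 hp1).2
        (pg_nonneg _ _))
  | ct i j A B g l r' ihl ihr =>
    intro S m gf r hS hI h
    set P := nth S i with hP
    set Q := nth S j with hQ
    set w := cmb A B g P Q with hw
    have e : run cls k (Ct.ct i j A B g l r') S m gf =
      cond (cond (Nat.blt i j) (cond (Nat.blt j (k + 3))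
        (cond (Nat.beq (A * sm P) 0) false (cond (Nat.beq (B * sm Q) 0) false
          (chk A B g P Q w))) false) false)
        (avg (A * sm P) (B * sm Q) (run cls k l (setn w i S) m gf)
          (run cls k r' (setn w j S) m gf)) none := rfl
    rw [e] at h
    cases h1 : Nat.blt i j with
    | false => rw [h1] at h; exact absurd h (by simp)
    | true =>
      cases h2 : Nat.blt j (k + 3) with
      | false => rw [h1, h2] at h; exact absurd h (by simp)
      | true =>
        cases h3 : Nat.beq (A * sm P) 0 with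
        | true => rw [h1, h2, h3] at h; exact absurd h (by simp)
        | false =>
          cases h4 : Nat.beq (B * sm Q) 0 with
          | true => rw [h1, h2, h3, h4] at h; exact absurd h (by simp)
          | false =>
            cases h5 : chk A B g P Q w with
            | false => rw [h1, h2, h3, h4, h5] at h; exact absurd h (by simp)
            | true =>
              rw [h1, h2, h3, h4, h5] at h
              simp only [cond_true, cond_false] at h
              have hij : i < j := by simpa using h1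
              have hj : j < k + 3 := by simpa using h2
              have hA : A * sm P ≠ 0 := Nat.ne_of_beq_eq_false h3
              have hB : B * sm Q ≠ 0 := Nat.ne_of_beq_eq_false h4
              obtain ⟨s1, s2, s3, s4⟩ := prfG4 k S i j A B g hS hij hj hA hB h5
              cases hl : run cls k l (setn w i S) m gf with
              | none => rw [hl] at h; exact absurd h (by simp [avg])
              | some a =>
                cases hr : run cls k r' (setn w j S) m gf with
                | none => rw [hl, hr] at h; exact absurd h (by simp [avg])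
                | some b =>
                  rw [hl, hr] at h
                  have h' : cdiv (A * sm P * a + B * sm Q * b) (A * sm P + B * sm Q) = r := by
                    have e2 : avg (A * sm P) (B * sm Q) (some a) (some b) =
                      some (cdiv (A * sm P * a + B * sm Q * b) (A * sm P + B * sm Q)) := rfl
                    rw [e2] at h
                    exact Option.some.inj h
                  have Ha := ihl _ _ _ _ s1 (s3 m gf hI).1 hl
                  have Hb := ihr _ _ _ _ s2 (s3 m gf hI).2 hr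
                  unfold Bd at Ha Hb ⊢
                  rw [s4 _ (meas k Dn hD.1)]
                  have hα0 : (0 : ℝ) < ((A * sm P : ℕ) : ℝ) := by
                    exact_mod_cast Nat.pos_of_ne_zero hA
                  have hβ0 : (0 : ℝ) < ((B * sm Q : ℕ) : ℝ) := by
                    exact_mod_cast Nat.pos_of_ne_zero hB
                  set α : ℝ := ((A * sm P : ℕ) : ℝ) with hα
                  set β : ℝ := ((B * sm Q : ℕ) : ℝ) with hβ
                  have hS0 : (0 : ℝ) < (Sc : ℝ) := by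
                    have : 0 < Sc := by decide
                    exact_mod_cast this
                  refine (add_le_add (mul_le_mul_right Ha _) (mul_le_mul_right Hb _)).trans ?_
                  rw [← ENNReal.ofReal_mul (by positivity), ← ENNReal.ofReal_mul (by positivity),
                    ← ENNReal.ofReal_add (by positivity) (by positivity)]
                  refine ENNReal.ofReal_le_ofReal ?_
                  rw [← h']
                  have hc := G5.cdiv_ge (A * sm P * a + B * sm Q * b) (A * sm P + B * sm Q)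
                    (Nat.add_pos_left (Nat.pos_of_ne_zero hA) _)
                  rw [le_div_iff₀ hS0]
                  refine le_trans (le_of_eq ?_) hc
                  rw [Nat.cast_add (A * sm P * a), Nat.cast_mul (A * sm P) a,
                    Nat.cast_mul (B * sm Q) b, Nat.cast_add (A * sm P), ← hα, ← hβ]
                  have hne : α + β ≠ 0 := by positivity
                  field_simp
  | dc q F st t ih =>
    intro S m gf r hS hI h
    have e : run cls k (Ct.dc q F st t) S m gf =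
      cond (cond (Nat.blt q 3) (cond (Nat.blt F (2 ^ k))
        (Nat.beq (m / 2 ^ (q * 2 ^ k + F) % 2) 0) false) false)
        (cond (Nat.beq st 1)
          (cond (allL (geb (uv k q F)) S) (run cls k t S (m + 2 ^ (q * 2 ^ k + F))
            (addf (wtf k F) (uv k q F) gf)) none)
          (cond (allL (leb (uv k q F)) S) (cond (allL (geb (uv k q F)) S) none
            (run cls k t S (m + 2 ^ (q * 2 ^ k + F)) gf)) none)) none := rfl
    rw [e] at h
    cases h1 : Nat.blt q 3 with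
    | false => rw [h1] at h; exact absurd h (by simp)
    | true =>
      cases h2 : Nat.blt F (2 ^ k) with
      | false => rw [h1, h2] at h; exact absurd h (by simp)
      | true =>
        cases h3 : Nat.beq (m / 2 ^ (q * 2 ^ k + F) % 2) 0 with
        | false => rw [h1, h2, h3] at h; exact absurd h (by simp)
        | true =>
          rw [h1, h2, h3] at h
          simp only [cond_true] at h
          have hq : q < 3 := by simpa using h1
          have hF : F < 2 ^ k := by simpa using h2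
          have hm : m / 2 ^ (q * 2 ^ k + F) % 2 = 0 := Nat.eq_of_beq_eq_true h3
          obtain ⟨g1, g2⟩ := prfG3 k S m gf q F hS hI hq hF hm
          cases h4 : Nat.beq st 1 with
          | true =>
            rw [h4, cond_true] at h
            cases h5 : allL (geb (uv k q F)) S with
            | false => rw [h5] at h; exact absurd h (by simp)
            | true =>
              rw [h5, cond_true] at h
              exact ih _ _ _ _ hS (g1 h5) h
          | false =>
            rw [h4, cond_false] at h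
            cases h6 : allL (leb (uv k q F)) S with
            | false => rw [h6] at h; exact absurd h (by simp)
            | true =>
              rw [h6, cond_true] at h
              cases h5 : allL (geb (uv k q F)) S with
              | true => rw [h5] at h; exact absurd h (by simp)
              | false =>
                rw [h5, cond_false] at h
                exact ih _ _ _ _ hS (g2 h6 h5) h

end Pool.Agent.Work.MP_122e00_nt.Sharp.Cx

end

section

set_option autoImplicit false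

/-!
# The certificate: rules for the top of the tree
-/

namespace Pool.Agent.Work.MP_122e00_nt.Sharp.Cx

open Finset MeasureTheory

open scoped ENNReal

open Gen

noncomputable section

/-- The bound for a valid simplex. -/
def Ok (k : ℕ) (Dn : (Fin (k + 3) → ℝ) → ℝ) (S : List (List ℕ)) (m : ℕ) (gf : List ℕ) (r : ℕ) :
    Prop := Sv k S → Inv k S m gf → Bd k Dn S r

theorem bd_mono (k : ℕ) (Dn : (Fin (k + 3) → ℝ) → ℝ) (S : List (List ℕ)) (r r' : ℕ) (h : r ≤ r')
    (hb : Bd k Dn S r) : Bd k Dn S r' := by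
  unfold Bd at hb ⊢
  refine hb.trans (ENNReal.ofReal_le_ofReal ?_)
  have h1 : (r : ℝ) ≤ (r' : ℝ) := by exact_mod_cast h
  have h2 : (0 : ℝ) ≤ (Sc : ℝ) := Nat.cast_nonneg _
  exact div_le_div_of_nonneg_right h1 h2

theorem ok_run (k : ℕ) (Dn : (Fin (k + 3) → ℝ) → ℝ) (cls : ℕ → Cl) (hG5 : claimG5)
    (hD : Dom k Dn cls) (c : Ct) (S : List (List ℕ)) (m : ℕ) (gf : List ℕ) (r : ℕ)
    (h : le (run cls k c S m gf) r = true) : Ok k Dn S m gf r := by
  intro hS hI
  generalize hr : run cls k c S m gf = o at h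
  cases o with
  | none => exact absurd (show false = true from h) Bool.false_ne_true
  | some x =>
    have hx : x ≤ r := Nat.le_of_ble_eq_true h
    exact bd_mono k Dn S x r hx (hG5 k Dn cls hD c S m gf x hS hI hr)

/-- The test for a cut. -/
def ckc (k i j A B g : ℕ) (S S1 S2 : List (List ℕ)) (r1 r2 r : ℕ) : Prop :=
  i < j ∧ j < k + 3 ∧ A * sm (nth S i) ≠ 0 ∧ B * sm (nth S j) ≠ 0 ∧
    chk A B g (nth S i) (nth S j) (cmb A B g (nth S i) (nth S j)) = true ∧
    setn (cmb A B g (nth S i) (nth S j)) i S = S1 ∧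
    setn (cmb A B g (nth S i) (nth S j)) j S = S2 ∧
    A * sm (nth S i) * r1 + B * sm (nth S j) * r2 ≤ (A * sm (nth S i) + B * sm (nth S j)) * r

instance (k i j A B g : ℕ) (S S1 S2 : List (List ℕ)) (r1 r2 r : ℕ) :
    Decidable (ckc k i j A B g S S1 S2 r1 r2 r) := by
  unfold ckc
  infer_instance

theorem ok_cut (k : ℕ) (Dn : (Fin (k + 3) → ℝ) → ℝ) (hD : Measurable Dn)
    (i j A B g : ℕ) (S S1 S2 : List (List ℕ)) (m : ℕ) (gf : List ℕ) (r1 r2 r : ℕ)
    (h : ckc k i j A B g S S1 S2 r1 r2 r) (h1 : Ok k Dn S1 m gf r1) (h2 : Ok k Dn S2 m gf r2) :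
    Ok k Dn S m gf r := by
  intro hS hI
  obtain ⟨c1, c2, c3, c4, c5, c6, c7, c8⟩ := h
  obtain ⟨g1, g2, g3, g4⟩ := prfG4 k S i j A B g hS c1 c2 c3 c4 c5
  rw [c6, c7] at g3
  rw [c6] at g1
  rw [c7] at g2
  have b1 := h1 g1 (g3 m gf hI).1
  have b2 := h2 g2 (g3 m gf hI).2
  unfold Bd at b1 b2 ⊢
  have e := g4 _ (G5.meas k Dn hD)
  rw [c6, c7] at e
  set a : ℕ := A * sm (nth S i) with ha
  set b : ℕ := B * sm (nth S j) with hb
  have ha0 : (0 : ℝ) < (a : ℝ) := by exact_mod_cast Nat.pos_of_ne_zero c3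
  have hb0 : (0 : ℝ) < (b : ℝ) := by exact_mod_cast Nat.pos_of_ne_zero c4
  have hSc : (0 : ℝ) < (Sc : ℝ) := by norm_num [Sc]
  have c8' : (a : ℝ) * r1 + (b : ℝ) * r2 ≤ ((a : ℝ) + b) * r := by exact_mod_cast c8
  calc Chamber.EV (pts (k + 2) S) (fun p => ENNReal.ofReal (Dn p *
        pg (2187 / 4) (3 ^ k) (Pl (Sharp.g3 0) (px (k := k) p) (ph3 (k := k) p))))
      = _ := e
    _ ≤ ENNReal.ofReal ((a : ℝ) / (a + b)) * ENNReal.ofReal ((r1 : ℝ) / (Sc : ℝ)) +
        ENNReal.ofReal ((b : ℝ) / (a + b)) * ENNReal.ofReal ((r2 : ℝ) / (Sc : ℝ)) := by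
        gcongr
    _ = ENNReal.ofReal ((a : ℝ) / (a + b) * ((r1 : ℝ) / (Sc : ℝ)) +
        (b : ℝ) / (a + b) * ((r2 : ℝ) / (Sc : ℝ))) := by
        rw [ENNReal.ofReal_add (by positivity) (by positivity), ENNReal.ofReal_mul (by positivity),
          ENNReal.ofReal_mul (by positivity)]
    _ ≤ ENNReal.ofReal ((r : ℝ) / (Sc : ℝ)) := by
        refine ENNReal.ofReal_le_ofReal ?_
        have : (a : ℝ) / (a + b) * ((r1 : ℝ) / (Sc : ℝ)) + (b : ℝ) / (a + b) * ((r2 : ℝ) / (Sc : ℝ))
            = ((a : ℝ) * r1 + b * r2) / (a + b) / Sc := by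
          field_simp
        rw [this]
        refine div_le_div_of_nonneg_right ?_ hSc.le
        rw [div_le_iff₀ (by positivity)]
        linarith

/-- The test for a decision. -/
def ckd (k q F st : ℕ) (S : List (List ℕ)) (m m' : ℕ) (gf gf' : List ℕ) : Prop :=
  q < 3 ∧ F < 2 ^ k ∧ m / 2 ^ (q * 2 ^ k + F) % 2 = 0 ∧ m' = m + 2 ^ (q * 2 ^ k + F) ∧
    ((st = 1 ∧ allL (geb (uv k q F)) S = true ∧ gf' = addf (wtf k F) (uv k q F) gf) ∨
      (st = 0 ∧ allL (leb (uv k q F)) S = true ∧ allL (geb (uv k q F)) S = false ∧ gf' = gf))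

instance (k q F st : ℕ) (S : List (List ℕ)) (m m' : ℕ) (gf gf' : List ℕ) :
    Decidable (ckd k q F st S m m' gf gf') := by
  unfold ckd
  infer_instance

theorem ok_dec (k : ℕ) (Dn : (Fin (k + 3) → ℝ) → ℝ) (q F st : ℕ) (S : List (List ℕ)) (m m' : ℕ)
    (gf gf' : List ℕ) (r : ℕ) (h : ckd k q F st S m m' gf gf') (h1 : Ok k Dn S m' gf' r) :
    Ok k Dn S m gf r := by
  intro hS hI
  obtain ⟨c1, c2, c3, c4, c5⟩ := h
  obtain ⟨g1, g2⟩ := prfG3 k S m gf q F hS hI c1 c2 c3
  refine h1 hS ?_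
  rw [c4]
  rcases c5 with ⟨-, c5, c6⟩ | ⟨-, c5, c6, c7⟩
  · rw [c6]
    exact g1 c5
  · rw [c7]
    exact g2 c5 c6

end

end Pool.Agent.Work.MP_122e00_nt.Sharp.Cx

end

section

set_option autoImplicit false

/-!
# Item E2: the chain scheme for a weight which is bounded below
-/

namespace Pool.Agent.Work.MP_122e00_nt.Gen

open Finset Filter Topology MeasureTheory

open scoped ArithmeticFunction.vonMangoldt ArithmeticFunction.zeta

open Two

theorem prfE2 : claimE2 := by
  intro s θ c w₀ ψ hs h0 h1 hc hw hw0 hlow c₁ hc₁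
  have hB6 := mB6 s θ c hs h0 h1 hc c₁ hc₁
  unfold Dom at hB6 ⊢
  filter_upwards [hB6, eventually_gt_atTop (1 : ℝ)] with X hX hX1 n hn1 hn2
  obtain ⟨hH, l, hl0, hl1, hineq⟩ := hX n hn1 hn2
  have hL : 0 < Real.log X := Real.log_pos hX1
  have hn : n ≠ 0 := by
    rintro rfl
    have : 0 < X / Real.log X := by positivity
    simp at hn1
    linarith
  have hHB : HB s c c₁ X n = ∑ k ∈ Finset.range (⌊c₁ * Real.log X⌋₊ + 1),
      TS (Real.log X) s k n (FB s c k) := rfl
  refine ⟨?_, l, hl0, hl1, ?_⟩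
  · show 0 ≤ w₀⁻¹ * HB s c c₁ X n
    rw [hHB]
    exact mul_nonneg (inv_nonneg.mpr hw0.le) hH
  · have hps : ∀ y : Fin s → ℝ, ps s θ y ≤ w₀⁻¹ * ψ y := by
      intro y
      unfold ps
      by_cases hy : y ∈ {y : Fin s → ℝ | (∀ i, 0 ≤ y i) ∧ ∑ i, y i ≤ 1 / 2 - θ}
      · rw [Set.indicator_of_mem hy]
        have := hlow y hy.1 hy.2
        rw [inv_mul_eq_div, le_div_iff₀ hw0, one_mul]
        exact this
      · rw [Set.indicator_of_notMem hy]
        exact mul_nonneg (inv_nonneg.mpr hw0.le) (hw.nonneg y)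
    have hgs : ∀ v : Fin (s + 1) → ℝ, gs (ps s θ) v ≤ w₀⁻¹ * gs ψ v := by
      intro v
      unfold gs
      rw [Finset.mul_sum]
      exact Finset.sum_le_sum fun i _ => hps _
    have h3 : TS (Real.log X) s 0 n (fun _ v => gs (ps s θ) v) ≤
        w₀⁻¹ * TS (Real.log X) s 0 n (fun _ v => gs ψ v) := by
      rw [← (prfT1 (Real.log X) s 0 n (fun _ v => gs ψ v) (fun _ v => gs ψ v) w₀⁻¹).2]
      exact prfB3.1 (Real.log X) s 0 n _ _ hL hn (fun x v _ _ _ => hgs v)
    refine hineq.trans ?_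
    show _ ≤ w₀⁻¹ * HB s c c₁ X n * _
    rw [hHB]
    calc (∑ k ∈ Finset.range (⌊c₁ * Real.log X⌋₊ + 1), TS (Real.log X) s k n (FB s c k)) *
          TS (Real.log X) s 0 n (fun _ v => gs (ps s θ) v)
        ≤ (∑ k ∈ Finset.range (⌊c₁ * Real.log X⌋₊ + 1), TS (Real.log X) s k n (FB s c k)) *
          (w₀⁻¹ * TS (Real.log X) s 0 n (fun _ v => gs ψ v)) :=
          mul_le_mul_of_nonneg_left h3 hH
      _ = _ := by ring

end Pool.Agent.Work.MP_122e00_nt.Gen

end

section

set_option autoImplicit false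

/-!
# Item E7: the chain scheme on the integers with large prime powers
-/

namespace Pool.Agent.Work.MP_122e00_nt.Gen

open Finset Filter Topology MeasureTheory

open scoped ArithmeticFunction.vonMangoldt ArithmeticFunction.zeta

open Two

namespace IE7

theorem FB_le (s : ℕ) (c : ℝ) (k : ℕ) (x : Fin k → ℝ) (v : Fin (s + 1) → ℝ) :
    FB s c k x v ≤ ((s : ℝ) + 1) ^ (2 * k) * 1 := by
  cases k with
  | zero => simp [FB]
  | succ k =>
    simp only [FB]
    split_ifs
    · rw [mul_one]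
    · positivity

theorem FB_nonneg (s : ℕ) (c : ℝ) (k : ℕ) (x : Fin k → ℝ) (v : Fin (s + 1) → ℝ) :
    0 ≤ FB s c k x v := by
  cases k with
  | zero => simp [FB]
  | succ k =>
    simp only [FB]
    split_ifs
    · positivity
    · exact le_rfl

/-- The chain scheme is at most `(c₁ L + 1) r ^ (c₁ L) d n`. -/
theorem HB_le (s : ℕ) (c c₁ X : ℝ) (n : ℕ) (hn : n ≠ 0) (hL : 0 < Real.log X) (hc : 0 < c₁) :
    HB s c c₁ X n ≤ (c₁ * Real.log X + 1) * ((s : ℝ) + 1) ^ (c₁ * Real.log X) * dv s n := by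
  have hr : (1 : ℝ) ≤ (s : ℝ) + 1 := by
    have : (0 : ℝ) ≤ s := Nat.cast_nonneg _
    linarith
  have hr0 : (0 : ℝ) < (s : ℝ) + 1 := by linarith
  have hd : 0 ≤ dv s n := Nat.cast_nonneg _
  have hcL : 0 ≤ c₁ * Real.log X := by positivity
  unfold HB
  have h1 : ∀ k ∈ Finset.range (⌊c₁ * Real.log X⌋₊ + 1), TS (Real.log X) s k n (FB s c k) ≤
      ((s : ℝ) + 1) ^ (c₁ * Real.log X) * dv s n := by
    intro k hk
    have hk' : k ≤ ⌊c₁ * Real.log X⌋₊ := by
      have := Finset.mem_range.1 hk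
      omega
    have hk2 : (k : ℝ) ≤ c₁ * Real.log X := (Nat.cast_le.2 hk').trans (Nat.floor_le hcL)
    calc TS (Real.log X) s k n (FB s c k)
        ≤ TS (Real.log X) s k n (fun _ _ => ((s : ℝ) + 1) ^ (2 * k) * 1) :=
          prfB3.1 (Real.log X) s k n _ _ hL hn (fun x v _ _ _ => FB_le s c k x v)
      _ = ((s : ℝ) + 1) ^ (2 * k) * TS (Real.log X) s k n (fun _ _ => 1) :=
          (prfT1 (Real.log X) s k n (fun _ _ => 1) (fun _ _ => 1) _).2
      _ ≤ ((s : ℝ) + 1) ^ (2 * k) * (dv s n / ((s : ℝ) + 1) ^ k) := by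
          refine mul_le_mul_of_nonneg_left ?_ (by positivity)
          exact prfT3.2 (Real.log X) s k n hn
      _ = ((s : ℝ) + 1) ^ k * dv s n := by
          rw [two_mul, pow_add]
          field_simp
      _ ≤ ((s : ℝ) + 1) ^ (c₁ * Real.log X) * dv s n := by
          refine mul_le_mul_of_nonneg_right ?_ hd
          rw [← Real.rpow_natCast]
          exact Real.rpow_le_rpow_of_exponent_le hr hk2
  calc ∑ k ∈ Finset.range (⌊c₁ * Real.log X⌋₊ + 1), TS (Real.log X) s k n (FB s c k)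
      ≤ ∑ _k ∈ Finset.range (⌊c₁ * Real.log X⌋₊ + 1),
        ((s : ℝ) + 1) ^ (c₁ * Real.log X) * dv s n := Finset.sum_le_sum h1
    _ = ((⌊c₁ * Real.log X⌋₊ : ℝ) + 1) * (((s : ℝ) + 1) ^ (c₁ * Real.log X) * dv s n) := by
        rw [Finset.sum_const, Finset.card_range, nsmul_eq_mul]
        push_cast
        ring
    _ ≤ (c₁ * Real.log X + 1) * (((s : ℝ) + 1) ^ (c₁ * Real.log X) * dv s n) := by
        refine mul_le_mul_of_nonneg_right ?_ (by positivity)
        have := Nat.floor_le hcL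
        linarith
    _ = _ := by ring

/-- The divisor sum at the shifted argument. -/
theorem Apsi_le {s : ℕ} {ψ : (Fin s → ℝ) → ℝ} {B : ℝ} (hB : 0 ≤ B) (hψ : ∀ y, ψ y ≤ B) (X : ℝ)
    (z : ℤ) (n : ℕ) (hnz : (n : ℤ) - z ≠ 0) :
    Apsi ψ X z n ≤ B * ((((n : ℤ) - z).natAbs.divisors.card : ℝ)) ^ s := by
  set m := ((n : ℤ) - z).natAbs with hm
  have hm0 : m ≠ 0 := by
    rw [hm]
    exact Int.natAbs_ne_zero.2 hnz
  unfold Apsi
  calc ∑ b ∈ tup s X, (if ((∏ i, b i : ℕ) : ℤ) ∣ (n : ℤ) - z then ψ (lg X b) else 0)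
      ≤ ∑ b ∈ tup s X, (if ((∏ i, b i : ℕ) : ℤ) ∣ (n : ℤ) - z then B else 0) := by
        refine Finset.sum_le_sum fun b _ => ?_
        split_ifs
        · exact hψ _
        · exact le_rfl
    _ = (((tup s X).filter fun b => ((∏ i, b i : ℕ) : ℤ) ∣ (n : ℤ) - z).card : ℝ) * B := by
        rw [← Finset.sum_filter, Finset.sum_const, nsmul_eq_mul]
    _ ≤ ((m.divisors.card : ℝ) ^ s) * B := by
        refine mul_le_mul_of_nonneg_right ?_ hB
        have hsub : (tup s X).filter (fun b => ((∏ i, b i : ℕ) : ℤ) ∣ (n : ℤ) - z) ⊆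
            Fintype.piFinset (fun _ : Fin s => m.divisors) := by
          intro b hb
          rw [Finset.mem_filter] at hb
          rw [Fintype.mem_piFinset]
          intro i
          rw [Nat.mem_divisors]
          refine ⟨?_, hm0⟩
          have h1 : (∏ i, b i) ∣ m := Int.natCast_dvd.1 hb.2
          exact (Finset.dvd_prod_of_mem b (Finset.mem_univ i)).trans h1
        have hc := Finset.card_le_card hsub
        rw [Fintype.card_piFinset_const] at hc
        exact_mod_cast hc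
    _ = B * (m.divisors.card : ℝ) ^ s := mul_comm _ _

/-- A square divisor of an integer with a large prime power. -/
theorem exists_sq {η X : ℝ} (hX : 1 < X) (hη : 0 < η) {n : ℕ} (h : Bad η (Real.log X) n) :
    ∃ m : ℕ, X ^ (η / 3) < (m : ℝ) ∧ m ^ 2 ∣ n := by
  obtain ⟨p, a, hp, ha, hd, hl⟩ := h
  have hL := Real.log_pos hX
  refine ⟨p ^ (a / 2), ?_, ?_⟩
  · rw [lt_div_iff₀ hL] at hl
    have hpp : (0 : ℝ) < ((p ^ a : ℕ) : ℝ) := by exact_mod_cast pow_pos hp.pos a
    have h1 : X ^ η < ((p ^ a : ℕ) : ℝ) := by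
      rw [← Real.log_lt_log_iff (Real.rpow_pos_of_pos (by linarith) _) hpp,
        Real.log_rpow (by linarith)]
      exact hl
    have h2 : p ^ a ≤ (p ^ (a / 2)) ^ 3 := by
      rw [← pow_mul]
      exact Nat.pow_le_pow_right hp.pos (by omega)
    have h3 : X ^ η = (X ^ (η / 3)) ^ 3 := by
      rw [← Real.rpow_natCast, ← Real.rpow_mul (by linarith)]
      congr 1
      push_cast
      ring
    have h4 : (X ^ (η / 3)) ^ 3 < (((p ^ (a / 2) : ℕ) : ℝ)) ^ 3 := by
      rw [← h3]
      refine h1.trans_le ?_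
      exact_mod_cast h2
    exact lt_of_pow_lt_pow_left₀ 3 (Nat.cast_nonneg _) h4
  · rw [← pow_mul]
    exact (pow_dvd_pow p (by omega)).trans hd

open Classical in
/-- The number of integers with a large prime power. -/
theorem card_bad {η X : ℝ} (hX : 1 < X) (hη : 0 < η) (lo : ℕ) :
    (((Finset.Ioc lo ⌊X⌋₊).filter fun n => Bad η (Real.log X) n).card : ℝ) ≤
      2 * X / X ^ (η / 3) := by
  set M : ℝ := X ^ (η / 3) with hM
  have hM1 : 1 ≤ M := Real.one_le_rpow hX.le (by positivity)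
  set N : ℕ := ⌊X⌋₊ with hN
  have hNX : (N : ℝ) ≤ X := Nat.floor_le (by linarith)
  have hMf : 1 ≤ ⌊M⌋₊ := Nat.le_floor (by exact_mod_cast hM1)
  have hsub : (Finset.Ioc lo N).filter (fun n => Bad η (Real.log X) n) ⊆
      (Finset.Ioc ⌊M⌋₊ N).biUnion (fun m => (Finset.Ioc 0 N).filter fun n => m ^ 2 ∣ n) := by
    intro n hn
    rw [Finset.mem_filter, Finset.mem_Ioc] at hn
    obtain ⟨m, hm1, hm2⟩ := exists_sq hX hη hn.2
    have hn0 : 0 < n := by omega
    have hmn : m ^ 2 ≤ n := Nat.le_of_dvd hn0 hm2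
    have hm0 : 1 ≤ m := by
      have : (0 : ℝ) < m := lt_of_lt_of_le (by linarith) hm1.le
      exact_mod_cast this
    rw [Finset.mem_biUnion]
    refine ⟨m, ?_, ?_⟩
    · rw [Finset.mem_Ioc]
      refine ⟨(Nat.floor_lt (by linarith)).2 hm1, ?_⟩
      nlinarith
    · rw [Finset.mem_filter, Finset.mem_Ioc]
      exact ⟨⟨hn0, hn.1.2⟩, hm2⟩
  have h1 := (Finset.card_le_card hsub).trans Finset.card_biUnion_le
  have h2 : ∀ m ∈ Finset.Ioc ⌊M⌋₊ N, (((Finset.Ioc 0 N).filter fun n => m ^ 2 ∣ n).card : ℝ) ≤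
      X * ((m : ℝ) ^ 2)⁻¹ := by
    intro m hm
    rw [Nat.Ioc_filter_dvd_card_eq_div]
    calc ((N / m ^ 2 : ℕ) : ℝ) ≤ (N : ℝ) / ((m ^ 2 : ℕ) : ℝ) := Nat.cast_div_le
      _ ≤ X * ((m : ℝ) ^ 2)⁻¹ := by
        rw [div_eq_mul_inv]
        push_cast
        exact mul_le_mul_of_nonneg_right hNX (by positivity)
  calc (((Finset.Ioc lo N).filter fun n => Bad η (Real.log X) n).card : ℝ)
      ≤ ((∑ m ∈ Finset.Ioc ⌊M⌋₊ N, ((Finset.Ioc 0 N).filter fun n => m ^ 2 ∣ n).card : ℕ) : ℝ) := by
        exact_mod_cast h1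
    _ = ∑ m ∈ Finset.Ioc ⌊M⌋₊ N, (((Finset.Ioc 0 N).filter fun n => m ^ 2 ∣ n).card : ℝ) := by
        push_cast
        rfl
    _ ≤ ∑ m ∈ Finset.Ioc ⌊M⌋₊ N, X * ((m : ℝ) ^ 2)⁻¹ := Finset.sum_le_sum h2
    _ = X * ∑ m ∈ Finset.Ioc ⌊M⌋₊ N, ((m : ℝ) ^ 2)⁻¹ := by rw [Finset.mul_sum]
    _ ≤ X * (2 / M) := by
        refine mul_le_mul_of_nonneg_left ?_ (by linarith)
        have hfl : M / 2 ≤ (⌊M⌋₊ : ℝ) := by
          have h3 := Nat.lt_floor_add_one M
          have h4 : (1 : ℝ) ≤ (⌊M⌋₊ : ℝ) := by exact_mod_cast hMf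
          linarith
        rcases le_total ⌊M⌋₊ N with hMN | hMN
        · have h5 := sum_Ioc_inv_sq_le_sub (α := ℝ) (k := ⌊M⌋₊) (n := N) (by omega) hMN
          refine h5.trans ?_
          have h6 : (0 : ℝ) ≤ (N : ℝ)⁻¹ := by positivity
          have h7 : ((⌊M⌋₊ : ℝ))⁻¹ ≤ (M / 2)⁻¹ := inv_anti₀ (by linarith) hfl
          rw [inv_div] at h7
          linarith
        · rw [Finset.Ioc_eq_empty (by omega), Finset.sum_empty]
          positivity
    _ = 2 * X / M := by ring

end IE7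

open IE7 in
theorem prfE7 : claimE7 := by
  classical
  intro s h θ c η ψ hs hh hθ hθ2 hW hc hc1 hη
  obtain ⟨B', hB'⟩ := hW.bdd
  set B : ℝ := max B' 1 with hBdef
  have hB1 : 1 ≤ B := le_max_right _ _
  have hB : ∀ y, ψ y ≤ B := fun y => (hB' y).trans (le_max_left _ _)
  have hs1 : (1 : ℝ) ≤ s := by exact_mod_cast hs
  have hr : (1 : ℝ) < (s : ℝ) + 1 := by linarith
  have hlr : 0 < Real.log ((s : ℝ) + 1) := Real.log_pos hr
  refine ⟨η / (24 * Real.log ((s : ℝ) + 1)), by positivity, ?_⟩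
  intro c₁ hc1p hc1le δ hδ
  have hκ : 0 < η / 24 := by positivity
  have h2X : Tendsto (fun X : ℝ => 2 * X) atTop atTop :=
    Filter.Tendsto.const_mul_atTop (by norm_num) tendsto_id
  have hlim1 : ∀ᶠ X : ℝ in atTop, c₁ * Real.log X + 1 ≤ X ^ (η / 24) := by
    have h1 : (fun X : ℝ => c₁ * Real.log X + 1) =o[atTop] fun X : ℝ => X ^ (η / 24) := by
      refine Asymptotics.IsLittleO.add ?_ ?_
      · exact (isLittleO_log_rpow_atTop hκ).const_mul_left _
      · rw [Asymptotics.isLittleO_const_left]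
        right
        exact tendsto_norm_atTop_atTop.comp (tendsto_rpow_atTop hκ)
    filter_upwards [h1.bound (show (0 : ℝ) < 1 by norm_num), eventually_ge_atTop (1 : ℝ)]
      with X hX hX1
    rw [one_mul] at hX
    have h2 : ‖X ^ (η / 24)‖ = X ^ (η / 24) := by
      rw [Real.norm_eq_abs, abs_of_nonneg (by positivity)]
    rw [h2] at hX
    exact (le_abs_self _).trans hX
  have hlim2 : ∀ᶠ X : ℝ in atTop, 2 * B / δ ≤ X ^ (η / 6) :=
    (tendsto_rpow_atTop (by linarith : 0 < η / 6)).eventually_ge_atTop _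
  have hlim3 : ∀ᶠ X : ℝ in atTop, (h : ℝ) < X / Real.log X := by
    have h1 : Tendsto (fun X : ℝ => X / Real.log X) atTop atTop := by
      have h2 : Tendsto (fun X : ℝ => Real.log X / X) atTop (𝓝 0) := by
        have := Real.isLittleO_log_id_atTop
        exact this.tendsto_div_nhds_zero
      have h3 : Tendsto (fun X : ℝ => Real.log X / X) atTop (𝓝[>] 0) := by
        rw [tendsto_nhdsWithin_iff]
        refine ⟨h2, ?_⟩
        filter_upwards [eventually_gt_atTop (1 : ℝ)] with X hX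
        exact div_pos (Real.log_pos hX) (by linarith)
      have h4 := h3.inv_tendsto_nhdsGT_zero
      refine h4.congr fun X => ?_
      simp [inv_div]
    exact h1.eventually_gt_atTop _
  have hlim4 : ∀ᶠ X : ℝ in atTop, 1 ≤ Real.log X := Real.tendsto_log_atTop.eventually_ge_atTop 1
  filter_upwards [hlim1, hlim2, hlim3, hlim4, IU9.zeta_pow_le s (show 0 < η / 12 by positivity),
    h2X.eventually (divisor_bound s (show 0 < η / 48 by positivity)), eventually_ge_atTop (2 : ℝ),
    eventually_ge_atTop (h : ℝ)] with X e1 e2 e3 e4 e5 e6 hX2 hXh z hz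
  have hX1 : 1 < X := by linarith
  have hX0 : 0 < X := by linarith
  have hL : 0 < Real.log X := by linarith
  set P : ℝ := X ^ (η / 24) with hP
  have hP0 : 0 < P := Real.rpow_pos_of_pos hX0 _
  have hrc : ((s : ℝ) + 1) ^ (c₁ * Real.log X) ≤ P := by
    rw [hP, Real.rpow_def_of_pos (by linarith : (0 : ℝ) < (s : ℝ) + 1),
      Real.rpow_def_of_pos hX0]
    apply Real.exp_le_exp.2
    have h1 : c₁ * Real.log ((s : ℝ) + 1) ≤ η / 24 := by
      calc c₁ * Real.log ((s : ℝ) + 1) ≤ η / (24 * Real.log ((s : ℝ) + 1)) *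
            Real.log ((s : ℝ) + 1) := mul_le_mul_of_nonneg_right hc1le hlr.le
        _ = η / 24 := by field_simp
    nlinarith
  have hterm : ∀ n ∈ Finset.Ioc ⌊X / Real.log X⌋₊ ⌊X⌋₊,
      Apsi ψ X z n * (if Bad η (Real.log X) n then HB s c c₁ X n else 0) ≤
      if Bad η (Real.log X) n then B * P * (P * P * P) else 0 := by
    intro n hn
    rw [Finset.mem_Ioc] at hn
    have hnX : (n : ℝ) ≤ X := (Nat.cast_le.2 hn.2).trans (Nat.floor_le hX0.le)
    have hnl : X / Real.log X < (n : ℝ) := (Nat.floor_lt (by positivity)).1 hn.1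
    split_ifs with hbad
    · have hn0 : n ≠ 0 := by omega
      have hzn : (z : ℝ) ≤ h := by
        have : z ≤ (z.natAbs : ℤ) := Int.le_natAbs
        rw [hz] at this
        exact_mod_cast this
      have hzn' : -(h : ℝ) ≤ z := by
        have : -z ≤ (z.natAbs : ℤ) := by omega
        rw [hz] at this
        have h2 : -(h : ℤ) ≤ z := by omega
        exact_mod_cast h2
      have hne : (n : ℤ) - z ≠ 0 := by
        intro h0
        have : ((n : ℤ) : ℝ) - (z : ℝ) = 0 := by exact_mod_cast h0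
        push_cast at this
        linarith
      have hA := Apsi_le (by linarith : (0 : ℝ) ≤ B) hB X z n hne
      have hd : ((((n : ℤ) - z).natAbs.divisors.card : ℝ)) ^ s ≤ P := by
        have h1 := e6 ((n : ℤ) - z).natAbs (Int.natAbs_ne_zero.2 hne) (by
          rw [Nat.cast_natAbs]
          push_cast
          rw [abs_le]
          have : (0 : ℝ) ≤ n := Nat.cast_nonneg _
          constructor <;> linarith)
        refine h1.trans ?_
        calc (2 * X) ^ (η / 48) ≤ (X * X) ^ (η / 48) := by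
              apply Real.rpow_le_rpow (by linarith) _ (by positivity)
              nlinarith
          _ = P := by
              rw [Real.mul_rpow (by linarith) (by linarith), ← Real.rpow_add (by linarith), hP]
              congr 1
              ring
      have hdv : dv s n ≤ P := by
        have h1 := e5 n (by linarith)
        have h2 : η / 12 / 2 = η / 24 := by ring
        rw [h2] at h1
        exact h1
      have hdv0 : 0 ≤ dv s n := Nat.cast_nonneg _
      have hHB := HB_le s c c₁ X n hn0 hL hc1p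
      have hHB2 : HB s c c₁ X n ≤ P * P * P := by
        refine hHB.trans ?_
        have h0 : (0 : ℝ) ≤ ((s : ℝ) + 1) ^ (c₁ * Real.log X) := by positivity
        exact mul_le_mul (mul_le_mul e1 hrc h0 hP0.le) hdv hdv0 (by positivity)
      calc Apsi ψ X z n * HB s c c₁ X n ≤ Apsi ψ X z n * (P * P * P) := by
            refine mul_le_mul_of_nonneg_left hHB2 ?_
            exact IM1.Apsi_nonneg hW.nonneg X z n
        _ ≤ B * P * (P * P * P) := by
            refine mul_le_mul_of_nonneg_right (hA.trans ?_) (by positivity)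
            exact mul_le_mul_of_nonneg_left hd (by linarith)
    · rw [mul_zero]
  refine (Finset.sum_le_sum hterm).trans ?_
  rw [← Finset.sum_filter, Finset.sum_const, nsmul_eq_mul]
  have hcard := card_bad hX1 hη ⌊X / Real.log X⌋₊
  have h8 : X ^ (η / 3) = P * P * P * P * X ^ (η / 6) := by
    rw [hP, ← Real.rpow_add hX0, ← Real.rpow_add hX0, ← Real.rpow_add hX0, ← Real.rpow_add hX0]
    congr 1
    ring
  have hX6 : 0 < X ^ (η / 6) := Real.rpow_pos_of_pos hX0 _
  calc (((Finset.Ioc ⌊X / Real.log X⌋₊ ⌊X⌋₊).filter fun n => Bad η (Real.log X) n).card : ℝ) *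
        (B * P * (P * P * P)) ≤ 2 * X / X ^ (η / 3) * (B * P * (P * P * P)) :=
        mul_le_mul_of_nonneg_right hcard (by positivity)
    _ = (2 * B / X ^ (η / 6)) * X := by
        rw [h8]
        field_simp
    _ ≤ δ * X := by
        refine mul_le_mul_of_nonneg_right ?_ hX0.le
        rw [div_le_iff₀ hδ] at e2
        rw [div_le_iff₀ hX6]
        linarith
    _ ≤ δ * (X * Real.log X ^ (2 * s)) := by
        refine mul_le_mul_of_nonneg_left ?_ hδ.le
        have : 1 ≤ Real.log X ^ (2 * s) := one_le_pow₀ e4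
        nlinarith
    _ = (Csing s h * (∫ y in O1 s, ψ y) * 0 + δ) * (X * Real.log X ^ (2 * s)) := by
        rw [mul_zero, zero_add]

end Pool.Agent.Work.MP_122e00_nt.Gen

end

section

set_option autoImplicit false

/-!
# The certificate: the densities and the rules
-/

namespace Pool.Agent.Work.MP_122e00_nt.Sharp.Cx

open Finset MeasureTheory

open scoped ENNReal

open Gen

noncomputable section

theorem k2 : claimK2 := prfK2 prfK1

theorem c2 : claimC2 := prfC2 prfC1

theorem e3 : claimE3 :=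
  prfE3 (prfE1 (prfE1a c2 prfC3 prfC4 prfC5 (prfC6 c2) prfC7 prfC8) prfE1b prfC9) prfE3a prfE3b
    (prfE3c prfE2 prfC9) (prfE3z prfC9) prfE3d

theorem g5 : claimG5 := prfG5 e3 prfG1

/-- one mark -/
def Dn1 (p : Fin (1 + 3) → ℝ) : ℝ := Qs 1 10 (px (k := 1) p)

/-- two marks -/
def Dn2 (p : Fin (2 + 3) → ℝ) : ℝ := Qs 2 10 (px (k := 2) p)

/-- three marks -/
def Dn3 (p : Fin (3 + 3) → ℝ) : ℝ := Qs 3 10 (px (k := 3) p)

/-- four marks, the others hidden -/
def Dn4 (p : Fin (4 + 3) → ℝ) : ℝ :=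
  min (min (Pb (k := 3) 10 0 p) (Pb (k := 3) 10 1 p))
    (min (Pb (k := 3) 10 2 p) (Pb (k := 3) 10 3 p))

theorem dom1 : Dom 1 Dn1 cls1 := by
  have h : Dn1 = dpoly 1 cl1 := by
    funext p
    exact (lk1 prfK1 p).symm
  refine ⟨?_, fun _ => ⟨clv1, fun p hp _ => ?_⟩⟩
  · rw [h]
    exact (prfC9.1 1 cl1).measurable
  · rw [h]
    exact ⟨prfC9.2.2.2.2.2.1 1 cl1 p hp, le_rfl⟩

theorem dom2 : Dom 2 Dn2 cls2 := by
  have h : Dn2 = dpoly 2 cl2 := by
    funext p
    exact (lk2 prfK1 p).symm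
  refine ⟨?_, fun _ => ⟨clv2, fun p hp _ => ?_⟩⟩
  · rw [h]
    exact (prfC9.1 2 cl2).measurable
  · rw [h]
    exact ⟨prfC9.2.2.2.2.2.1 2 cl2 p hp, le_rfl⟩

theorem dom3 : Dom 3 Dn3 cls3 := by
  have h : Dn3 = dpoly 3 cl3 := by
    funext p
    exact (lk3 prfK1 p).symm
  refine ⟨?_, fun _ => ⟨clv3, fun p hp _ => ?_⟩⟩
  · rw [h]
    exact (prfC9.1 3 cl3).measurable
  · rw [h]
    exact ⟨prfC9.2.2.2.2.2.1 3 cl3 p hp, le_rfl⟩

theorem Dn4_eq : Dn4 = fun p => min (min (dpoly 4 cl40 p) (dpoly 4 cl41 p))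
    (min (dpoly 4 cl42 p) (dpoly 4 cl43 p)) := by
  funext p
  show min (min (Pb (k := 3) 10 0 p) (Pb (k := 3) 10 1 p))
    (min (Pb (k := 3) 10 2 p) (Pb (k := 3) 10 3 p)) = _
  rw [lk40 k2 p, lk41 k2 p, lk42 k2 p, lk43 k2 p]

theorem dom4 : Dom 4 Dn4 cls4 := by
  have hpos := prfC9.2.2.2.2.2.1
  refine ⟨?_, fun b => ?_⟩
  · rw [Dn4_eq]
    exact (((prfC9.1 4 cl40).min (prfC9.1 4 cl41)).min
      ((prfC9.1 4 cl42).min (prfC9.1 4 cl43))).measurable
  · have h0 : ∀ p : Fin (4 + 3) → ℝ, (∀ i, 0 ≤ p i) → 0 ≤ Dn4 p := by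
      intro p hp
      rw [Dn4_eq]
      exact le_min (le_min (hpos 4 cl40 p hp) (hpos 4 cl41 p hp))
        (le_min (hpos 4 cl42 p hp) (hpos 4 cl43 p hp))
    rcases b with _ | _ | _ | b
    · refine ⟨clv40, fun p hp _ => ⟨h0 p hp, ?_⟩⟩
      rw [Dn4_eq]
      exact (min_le_left _ _).trans (min_le_left _ _)
    · refine ⟨clv41, fun p hp _ => ⟨h0 p hp, ?_⟩⟩
      rw [Dn4_eq]
      exact (min_le_left _ _).trans (min_le_right _ _)
    · refine ⟨clv42, fun p hp _ => ⟨h0 p hp, ?_⟩⟩
      rw [Dn4_eq]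
      exact (min_le_right _ _).trans (min_le_left _ _)
    · refine ⟨clv43, fun p hp _ => ⟨h0 p hp, ?_⟩⟩
      rw [Dn4_eq]
      exact (min_le_right _ _).trans (min_le_right _ _)

theorem run4 (c : Ct) (S : List (List ℕ)) (m : ℕ) (gf : List ℕ) (r : ℕ)
    (h : le (run cls4 4 c S m gf) r = true) : Ok 4 Dn4 S m gf r :=
  ok_run 4 Dn4 cls4 g5 dom4 c S m gf r h

theorem cut4 (i j A B g : ℕ) (S S1 S2 : List (List ℕ)) (m : ℕ) (gf : List ℕ) (r1 r2 r : ℕ)
    (h : ckc 4 i j A B g S S1 S2 r1 r2 r) (h1 : Ok 4 Dn4 S1 m gf r1) (h2 : Ok 4 Dn4 S2 m gf r2) :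
    Ok 4 Dn4 S m gf r :=
  ok_cut 4 Dn4 dom4.1 i j A B g S S1 S2 m gf r1 r2 r h h1 h2

theorem dec4 (q F st : ℕ) (S : List (List ℕ)) (m m' : ℕ) (gf gf' : List ℕ) (r : ℕ)
    (h : ckd 4 q F st S m m' gf gf') (h1 : Ok 4 Dn4 S m' gf' r) : Ok 4 Dn4 S m gf r :=
  ok_dec 4 Dn4 q F st S m m' gf gf' r h h1

end

end Pool.Agent.Work.MP_122e00_nt.Sharp.Cx

end

section

set_option autoImplicit false

/-!
# The abstract two-sided theorem and the exceptional integers: assembly
-/

namespace Pool.Agent.Work.MP_122e00_nt.Gen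

theorem mX3 : claimX3 := prfX3 prfX2

theorem mE1 : claimE1 := prfE1 prfE0

theorem mE4 : claimE4 := prfE4 prfX0 prfX1 mX3 prfX4 prfE3

theorem mE5 : claimE5 := prfE5 prfB7

theorem mE6 : claimE6 := prfE6 prfX0 prfX1 prfE3 mE5

theorem mE8 : claimE8 := prfE8 prfX0 mE1 prfE2 mE4 mE6 prfE7

theorem mE10 : claimE10 := prfE10 prfE9

theorem mE11 : claimE11 := prfE11 mE10

/-- The abstract two-sided theorem. -/
theorem mAT2' (hN0 : claimN0) : claimAT2 := prfAT2 prfN1 (prfN2 hN0) prfN3 prfG4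

theorem mAT2 : claimAT2 := mAT2' prfN0

end Pool.Agent.Work.MP_122e00_nt.Gen

end

end
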